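import Mathlib

/-! Tracial frames: a C*-algebra with a faithful trace given by an `L²` embedding in which bounded
Cauchy sequences converge; closed spans, generated algebras, alternating words. -/

namespace Pool.Agent.Lib.MP_263241_an

open Filter Topology
open scoped InnerProductSpace ComplexConjugate

/-- A tracial frame. -/
structure TW (R : Type*) [CStarAlgebra R] (H : Type*) [NormedAddCommGroup H]
    [InnerProductSpace ℂ H] where
  ι : R →L[ℂ] H
  inner_eq : ∀ x y, ⟪ι x, ι y⟫_ℂ = ⟪ι 1, ι (star x * y)⟫_ℂ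
  tr : ∀ x y, ⟪ι 1, ι (x * y)⟫_ℂ = ⟪ι 1, ι (y * x)⟫_ℂ
  norm_mul : ∀ x y, ‖ι (x * y)‖ ≤ ‖x‖ * ‖ι y‖
  inj : ∀ x, ι x = 0 → x = 0
  compl : ∀ (a : ℕ → R) (C : ℝ), (∀ n, ‖a n‖ ≤ C) → CauchySeq (fun n => ι (a n)) →
    ∃ x, Tendsto (fun n => ι (a n)) atTop (𝓝 (ι x))

/-- Projections. -/
structure Pr {R : Type*} [Mul R] [Star R] (e : R) : Prop where
  st : star e = e
  sq : e * e = e

/-- Alternating words; the flag is `true` when the first letter comes from `X`. -/
inductive Alt {R : Type*} [Mul R] (X Y : Set R) : Bool → R → Prop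
  | x1 {x} : x ∈ X → Alt X Y true x
  | y1 {y} : y ∈ Y → Alt X Y false y
  | xc {x w} : x ∈ X → Alt X Y false w → Alt X Y true (x * w)
  | yc {y w} : y ∈ Y → Alt X Y true w → Alt X Y false (y * w)

theorem Alt.mono {R : Type*} [Mul R] {X Y X' Y' : Set R} (hX : X ⊆ X') (hY : Y ⊆ Y') {b w}
    (h : Alt X Y b w) : Alt X' Y' b w := by
  induction h with
  | x1 h => exact .x1 (hX h)
  | y1 h => exact .y1 (hY h)
  | xc h _ ih => exact .xc (hX h) ih
  | yc h _ ih => exact .yc (hY h) ih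

theorem Alt.symm {R : Type*} [Mul R] {X Y : Set R} {b w} (h : Alt X Y b w) :
    Alt Y X (!b) w := by
  induction h with
  | x1 h => exact .y1 h
  | y1 h => exact .x1 h
  | xc h _ ih => exact .yc h ih
  | yc h _ ih => exact .xc h ih

variable {R H : Type*} [CStarAlgebra R] [NormedAddCommGroup H] [InnerProductSpace ℂ H]

theorem Pr.l {e : R} (he : Pr e) (x : R) : e * (e * x) = e * x := by rw [← mul_assoc, he.sq]

theorem Pr.one : Pr (1 : R) := ⟨star_one R, one_mul 1⟩

theorem Pr.sub {e f : R} (he : Pr e) (hf : Pr f) (h : e * f = f) : Pr (e - f) := by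
  have h' : f * e = f := by rw [← he.st, ← hf.st, ← star_mul, h]
  exact ⟨by rw [star_sub, he.st, hf.st], by
    rw [sub_mul, mul_sub, mul_sub, he.sq, hf.sq, h, h']; abel⟩

theorem Pr.comm_of {e f : R} (he : Pr e) (hf : Pr f) (h : e * f = f) : f * e = f := by
  rw [← he.st, ← hf.st, ← star_mul, h]

theorem Pr.orth {e f : R} (he : Pr e) (hf : Pr f) (h : e * f = 0) : f * e = 0 := by
  rw [← he.st, ← hf.st, ← star_mul, h, star_zero]

namespace TW

variable (T : TW R H)

/-- The trace. -/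
noncomputable def tau : R →L[ℂ] ℂ := (innerSL ℂ (T.ι 1)).comp T.ι

theorem tau_apply (x : R) : T.tau x = ⟪T.ι 1, T.ι x⟫_ℂ := rfl

theorem tau_comm (x y : R) : T.tau (x * y) = T.tau (y * x) := T.tr x y

theorem inner_tau (x y : R) : ⟪T.ι x, T.ι y⟫_ℂ = T.tau (star x * y) := T.inner_eq x y

theorem tau_star (x : R) : T.tau (star x) = conj (T.tau x) := by
  rw [tau_apply, tau_apply, inner_conj_symm, T.inner_eq x 1, mul_one]

theorem tau_sq (x : R) : T.tau (star x * x) = ((‖T.ι x‖ ^ 2 : ℝ) : ℂ) := by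
  rw [← inner_tau, inner_self_eq_norm_sq_to_K]; norm_cast

theorem norm_star (x : R) : ‖T.ι (star x)‖ = ‖T.ι x‖ := by
  have h := T.tau_sq (star x)
  rw [star_star, tau_comm, tau_sq] at h
  have h2 : ‖T.ι x‖ ^ 2 = ‖T.ι (star x)‖ ^ 2 := by exact_mod_cast h
  exact ((sq_eq_sq₀ (norm_nonneg _) (norm_nonneg _)).1 h2).symm

theorem norm_mul' (x y : R) : ‖T.ι (x * y)‖ ≤ ‖y‖ * ‖T.ι x‖ := by
  rw [← T.norm_star, star_mul, ← T.norm_star x, ← _root_.norm_star y]
  exact T.norm_mul _ _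

theorem eq_zero_of_tau {x : R} (h : T.tau (star x * x) = 0) : x = 0 := by
  rw [tau_sq] at h
  have h2 : ‖T.ι x‖ ^ 2 = 0 := by exact_mod_cast h
  exact T.inj x (norm_eq_zero.1 (pow_eq_zero_iff two_ne_zero |>.1 h2))

theorem pr_eq_zero {e : R} (he : Pr e) (h : T.tau e = 0) : e = 0 :=
  T.eq_zero_of_tau (by rw [he.st, he.sq, h])

/-- A subprojection with the same trace is the whole projection. -/
theorem pr_eq {e f : R} (he : Pr e) (hf : Pr f) (h : e * f = f) (ht : T.tau e = T.tau f) :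
    e = f :=
  sub_eq_zero.1 (T.pr_eq_zero (he.sub hf h) (by rw [map_sub, ht, sub_self]))

theorem tau_pr {e : R} (he : Pr e) : T.tau e = ((‖T.ι e‖ ^ 2 : ℝ) : ℂ) := by
  rw [← tau_sq, he.st, he.sq]

/-- Convergence in `L²`. -/
def Lim (a : ℕ → R) (x : R) : Prop := Tendsto (fun n => T.ι (a n)) atTop (𝓝 (T.ι x))

variable {T}

theorem lim_iff {a : ℕ → R} {x : R} :
    T.Lim a x ↔ Tendsto (fun n => ‖T.ι (a n - x)‖) atTop (𝓝 0) := by
  rw [Lim, tendsto_iff_norm_sub_tendsto_zero]; simp only [map_sub]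

theorem Lim.of_le {a b : ℕ → R} {x y : R} (h : T.Lim a x) (K : ℝ)
    (hK : ∀ n, ‖T.ι (b n - y)‖ ≤ K * ‖T.ι (a n - x)‖) : T.Lim b y := by
  rw [lim_iff] at h ⊢
  exact squeeze_zero (fun _ => norm_nonneg _) hK (by simpa using h.const_mul K)

theorem Lim.const (x : R) : T.Lim (fun _ => x) x := tendsto_const_nhds

theorem Lim.mulL {a : ℕ → R} {x : R} (h : T.Lim a x) (c : R) :
    T.Lim (fun n => c * a n) (c * x) :=
  h.of_le ‖c‖ fun n => by rw [← mul_sub]; exact T.norm_mul _ _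

theorem Lim.mulR {a : ℕ → R} {x : R} (h : T.Lim a x) (c : R) :
    T.Lim (fun n => a n * c) (x * c) :=
  h.of_le ‖c‖ fun n => by rw [← sub_mul]; exact T.norm_mul' _ _

theorem Lim.star {a : ℕ → R} {x : R} (h : T.Lim a x) :
    T.Lim (fun n => star (a n)) (star x) :=
  h.of_le 1 fun n => by rw [← star_sub, T.norm_star, one_mul]

theorem Lim.add {a b : ℕ → R} {x y : R} (h : T.Lim a x) (h' : T.Lim b y) :
    T.Lim (fun n => a n + b n) (x + y) := by
  simpa only [Lim, map_add] using Tendsto.add h h'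

theorem Lim.sub {a b : ℕ → R} {x y : R} (h : T.Lim a x) (h' : T.Lim b y) :
    T.Lim (fun n => a n - b n) (x - y) := by
  simpa only [Lim, map_sub] using Tendsto.sub h h'

theorem Lim.smul {a : ℕ → R} {x : R} (h : T.Lim a x) (c : ℂ) :
    T.Lim (fun n => c • a n) (c • x) := by
  simpa only [Lim, map_smul] using Tendsto.const_smul h c

theorem Lim.tau {a : ℕ → R} {x : R} (h : T.Lim a x) :
    Tendsto (fun n => T.tau (a n)) atTop (𝓝 (T.tau x)) :=
  ((innerSL ℂ (T.ι 1)).continuous.tendsto _).comp h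

theorem Lim.unique {a : ℕ → R} {x y : R} (h : T.Lim a x) (h' : T.Lim a y) : x = y :=
  sub_eq_zero.1 (T.inj _ (by rw [map_sub, tendsto_nhds_unique h h', sub_self]))

theorem Lim.of_norm {a : ℕ → R} {x : R} (h : Tendsto a atTop (𝓝 x)) : T.Lim a x :=
  (T.ι.continuous.tendsto x).comp h

theorem Lim.mul {a b : ℕ → R} {x y : R} (h : T.Lim a x) (h' : T.Lim b y) {C : ℝ}
    (hC : ∀ n, ‖a n‖ ≤ C) : T.Lim (fun n => a n * b n) (x * y) := by
  have h1 : T.Lim (fun n => a n * (b n - y)) 0 :=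
    h'.of_le C fun n => by
      rw [sub_zero]
      exact (T.norm_mul _ _).trans (mul_le_mul_of_nonneg_right (hC n) (norm_nonneg _))
  simpa [mul_sub] using h1.add (h.mulR y)

variable (T)

/-- `L²`-closed linear span. -/
inductive Cls (S : Set R) : R → Prop
  | base {s} : s ∈ S → Cls S s
  | zero : Cls S 0
  | add {x y} : Cls S x → Cls S y → Cls S (x + y)
  | smul (c : ℂ) {x} : Cls S x → Cls S (c • x)
  | lim (a : ℕ → R) {x} : (∀ n, Cls S (a n)) → T.Lim a x → Cls S x

/-- `L²`-closed star algebra generated by a set. -/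
inductive Gen (S : Set R) : R → Prop
  | base {s} : s ∈ S → Gen S s
  | zero : Gen S 0
  | add {x y} : Gen S x → Gen S y → Gen S (x + y)
  | smul (c : ℂ) {x} : Gen S x → Gen S (c • x)
  | lim (a : ℕ → R) {x} : (∀ n, Gen S (a n)) → T.Lim a x → Gen S x
  | mul {x y} : Gen S x → Gen S y → Gen S (x * y)
  | star {x} : Gen S x → Gen S (star x)

/-- `L²`-closed linear span, as a set. -/
def cls (S : Set R) : Set R := {x | T.Cls S x}

/-- Generated algebra, as a set. -/
def gen (S : Set R) : Set R := {x | T.Gen S x}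

/-- `L²`-closed subspaces. -/
structure IsSub (V : Set R) : Prop where
  zero : 0 ∈ V
  add : ∀ {x y}, x ∈ V → y ∈ V → x + y ∈ V
  smul : ∀ (c : ℂ) {x}, x ∈ V → c • x ∈ V
  lim : ∀ (a : ℕ → R) {x}, (∀ n, a n ∈ V) → T.Lim a x → x ∈ V

/-- `L²`-closed star subalgebras. -/
structure IsW (A : Set R) : Prop extends T.IsSub A where
  mul : ∀ {x y}, x ∈ A → y ∈ A → x * y ∈ A
  star : ∀ {x}, x ∈ A → star x ∈ A

/-- `L²`-closed star subalgebras with unit `p`. -/
structure Alg (p : R) (A : Set R) : Prop extends T.IsW A where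
  pr : Pr p
  one : p ∈ A
  l : ∀ {x}, x ∈ A → p * x = x

/-- `L²`-continuous linear maps. -/
structure LinC (f : R → R) : Prop where
  add : ∀ x y, f (x + y) = f x + f y
  smul : ∀ (c : ℂ) x, f (c • x) = c • f x
  lim : ∀ a x, T.Lim a x → T.Lim (fun n => f (a n)) (f x)

variable {T}

theorem IsSub.sub {V : Set R} (h : T.IsSub V) {x y : R} (hx : x ∈ V) (hy : y ∈ V) : x - y ∈ V := by
  have := h.add hx (h.smul (-1) hy)
  rwa [neg_one_smul, ← sub_eq_add_neg] at this

theorem IsSub.sum {V : Set R} (h : T.IsSub V) {ι : Type*} (s : Finset ι) {f : ι → R}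
    (hf : ∀ i ∈ s, f i ∈ V) : ∑ i ∈ s, f i ∈ V :=
  Finset.sum_induction f (· ∈ V) (fun _ _ => h.add) h.zero hf

theorem Alg.r {p : R} {A : Set R} (h : T.Alg p A) {x : R} (hx : x ∈ A) : x * p = x := by
  have := congrArg star (h.l (h.star hx))
  rwa [star_mul, star_star, h.pr.st] at this

theorem cls_sub (S : Set R) : T.IsSub (T.cls S) :=
  ⟨.zero, .add, .smul, .lim⟩

theorem gen_w (S : Set R) : T.IsW (T.gen S) :=
  ⟨⟨.zero, .add, .smul, .lim⟩, .mul, .star⟩

theorem sub_cls {S : Set R} : S ⊆ T.cls S := fun _ h => .base h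

theorem sub_gen {S : Set R} : S ⊆ T.gen S := fun _ h => .base h

theorem IsSub.cls_le {V S : Set R} (h : T.IsSub V) (hS : S ⊆ V) : T.cls S ⊆ V := by
  intro x hx
  induction hx with
  | base hs => exact hS hs
  | zero => exact h.zero
  | add _ _ h1 h2 => exact h.add h1 h2
  | smul c _ h1 => exact h.smul c h1
  | lim a _ h1 h2 => exact h.lim a h2 h1

theorem IsW.gen_le {A S : Set R} (h : T.IsW A) (hS : S ⊆ A) : T.gen S ⊆ A := by
  intro x hx
  induction hx with
  | base hs => exact hS hs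
  | zero => exact h.zero
  | add _ _ h1 h2 => exact h.add h1 h2
  | smul c _ h1 => exact h.smul c h1
  | lim a _ h1 h2 => exact h.lim a h2 h1
  | mul _ _ h1 h2 => exact h.mul h1 h2
  | star _ h1 => exact h.star h1

theorem cls_mono {S S' : Set R} (h : S ⊆ S') : T.cls S ⊆ T.cls S' :=
  (cls_sub S').cls_le (h.trans sub_cls)

theorem gen_mono {S S' : Set R} (h : S ⊆ S') : T.gen S ⊆ T.gen S' :=
  (gen_w S').gen_le (h.trans sub_gen)

theorem LinC.zero {f : R → R} (hf : T.LinC f) : f 0 = 0 := by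
  simpa using hf.smul 0 0

theorem LinC.id : T.LinC fun x => x := ⟨fun _ _ => rfl, fun _ _ => rfl, fun _ _ h => h⟩

theorem LinC.mulL {f : R → R} (hf : T.LinC f) (c : R) : T.LinC fun x => c * f x :=
  ⟨fun x y => by rw [hf.add, mul_add], fun s x => by rw [hf.smul, mul_smul_comm],
    fun a x h => (hf.lim a x h).mulL c⟩

theorem LinC.mulR {f : R → R} (hf : T.LinC f) (c : R) : T.LinC fun x => f x * c :=
  ⟨fun x y => by rw [hf.add, add_mul], fun s x => by rw [hf.smul, smul_mul_assoc],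
    fun a x h => (hf.lim a x h).mulR c⟩

theorem LinC.sub {f g : R → R} (hf : T.LinC f) (hg : T.LinC g) : T.LinC fun x => f x - g x :=
  ⟨fun x y => by rw [hf.add, hg.add]; abel, fun s x => by rw [hf.smul, hg.smul, smul_sub],
    fun a x h => (hf.lim a x h).sub (hg.lim a x h)⟩

theorem LinC.tau {f : R → R} (hf : T.LinC f) (c : ℂ) (e : R) :
    T.LinC fun x => (T.tau (f x) * c) • e :=
  ⟨fun x y => by rw [hf.add, map_add, add_mul, add_smul],
    fun s x => by rw [hf.smul, map_smul, smul_smul, smul_eq_mul, mul_assoc],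
    fun a x h => Lim.of_norm (((hf.lim a x h).tau.mul_const c).smul_const e)⟩

theorem IsSub.comap {V : Set R} (h : T.IsSub V) {f : R → R} (hf : T.LinC f) :
    T.IsSub {x | f x ∈ V} :=
  ⟨by simpa [hf.zero] using h.zero, fun hx hy => by simpa [hf.add] using h.add hx hy,
    fun c _ hx => by simpa [hf.smul] using h.smul c hx,
    fun a x ha hl => h.lim _ ha (hf.lim a x hl)⟩

theorem IsSub.inter {V W : Set R} (h : T.IsSub V) (h' : T.IsSub W) : T.IsSub (V ∩ W) :=
  ⟨⟨h.zero, h'.zero⟩, fun hx hy => ⟨h.add hx.1 hy.1, h'.add hx.2 hy.2⟩,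
    fun c _ hx => ⟨h.smul c hx.1, h'.smul c hx.2⟩,
    fun a _ ha hl => ⟨h.lim a (fun n => (ha n).1) hl, h'.lim a (fun n => (ha n).2) hl⟩⟩

theorem IsSub.all {ι : Sort*} {V : ι → Set R} (h : ∀ i, T.IsSub (V i)) :
    T.IsSub {x | ∀ i, x ∈ V i} :=
  ⟨fun i => (h i).zero, fun hx hy i => (h i).add (hx i) (hy i),
    fun c _ hx i => (h i).smul c (hx i), fun a _ ha hl i => (h i).lim a (fun n => ha n i) hl⟩

theorem zero_sub' : T.IsSub {0} :=
  ⟨rfl, fun hx hy => by simp_all, fun c _ hx => by simp_all, fun a x ha hl => by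
    have : a = fun _ => 0 := funext ha
    rw [this] at hl
    exact hl.unique (Lim.const 0)⟩

theorem ker_sub : T.IsSub {x | T.tau x = 0} :=
  ⟨map_zero _, fun hx hy => by simp_all, fun c _ hx => by simp_all, fun a x ha hl => by
    have h := hl.tau
    simp only [show ∀ n, T.tau (a n) = 0 from ha] at h
    exact tendsto_nhds_unique h tendsto_const_nhds⟩

theorem IsSub.map {V S : Set R} (h : T.IsSub V) {f : R → R} (hf : T.LinC f)
    (hS : ∀ s ∈ S, f s ∈ V) {x : R} (hx : x ∈ T.cls S) : f x ∈ V :=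
  (h.comap hf).cls_le hS hx

theorem cls_eq_zero {S : Set R} {f : R → R} (hf : T.LinC f) (hS : ∀ s ∈ S, f s = 0) {x : R}
    (hx : x ∈ T.cls S) : f x = 0 :=
  zero_sub'.map hf hS hx

theorem cls_star {S : Set R} (hS : ∀ s ∈ S, star s ∈ T.cls S) {x : R} (hx : x ∈ T.cls S) :
    star x ∈ T.cls S := by
  induction hx with
  | base hs => exact hS _ hs
  | zero => rw [star_zero]; exact .zero
  | add _ _ h1 h2 => rw [star_add]; exact .add h1 h2
  | smul c _ h1 => rw [star_smul]; exact .smul _ h1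
  | lim a _ h1 h2 => exact .lim _ h2 h1.star

theorem IsSub.mul_cls {V S S' : Set R} (h : T.IsSub V) (hS : ∀ s ∈ S, ∀ t ∈ S', s * t ∈ V)
    {x y : R} (hx : x ∈ T.cls S) (hy : y ∈ T.cls S') : x * y ∈ V :=
  h.map (LinC.id.mulR y) (fun s hs => h.map (LinC.id.mulL s) (hS s hs) hy) hx

theorem cls_w {S : Set R} (h1 : ∀ s ∈ S, star s ∈ T.cls S)
    (h2 : ∀ s ∈ S, ∀ t ∈ S, s * t ∈ T.cls S) : T.IsW (T.cls S) :=
  ⟨cls_sub S, (cls_sub S).mul_cls h2, cls_star h1⟩

theorem cls_alg {S : Set R} {p : R} (hp : Pr p) (h0 : p ∈ T.cls S) (hl : ∀ s ∈ S, p * s = s)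
    (h1 : ∀ s ∈ S, star s ∈ T.cls S) (h2 : ∀ s ∈ S, ∀ t ∈ S, s * t ∈ T.cls S) :
    T.Alg p (T.cls S) :=
  ⟨cls_w h1 h2, hp, h0, fun hx => sub_eq_zero.1
    (cls_eq_zero ((LinC.id.mulL p).sub LinC.id) (fun s hs => sub_eq_zero.2 (hl s hs)) hx)⟩

/-- A closed subspace stable under the generators is stable under the generated algebra. -/
theorem IsSub.stab {V S : Set R} (h : T.IsSub V) (hs : ∀ s ∈ S, star s ∈ S)
    (hS : ∀ s ∈ S, ∀ v ∈ V, s * v ∈ V) {x : R} (hx : x ∈ T.gen S) :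
    ∀ v ∈ V, x * v ∈ V := by
  suffices ∀ v ∈ V, x * v ∈ V ∧ star x * v ∈ V from fun v hv => (this v hv).1
  induction hx with
  | base h1 => exact fun v hv => ⟨hS _ h1 v hv, hS _ (hs _ h1) v hv⟩
  | zero => exact fun v _ => by simpa using h.zero
  | add _ _ h1 h2 =>
    exact fun v hv => by
      rw [star_add, add_mul, add_mul]
      exact ⟨h.add (h1 v hv).1 (h2 v hv).1, h.add (h1 v hv).2 (h2 v hv).2⟩
  | smul c _ h1 =>
    exact fun v hv => by
      rw [star_smul, smul_mul_assoc, smul_mul_assoc]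
      exact ⟨h.smul _ (h1 v hv).1, h.smul _ (h1 v hv).2⟩
  | lim a _ h1 h2 =>
    exact fun v hv => ⟨h.lim _ (fun n => (h2 n v hv).1) (h1.mulR v),
      h.lim _ (fun n => (h2 n v hv).2) (h1.star.mulR v)⟩
  | mul _ _ h1 h2 =>
    exact fun v hv => by
      rw [star_mul, mul_assoc, mul_assoc]
      exact ⟨(h1 _ (h2 v hv).1).1, (h2 _ (h1 v hv).2).2⟩
  | star _ h1 => exact fun v hv => by rw [star_star]; exact ⟨(h1 v hv).2, (h1 v hv).1⟩

/-- The corner `e A e`. -/
def cor (e : R) (A : Set R) : Set R := {x | x ∈ A ∧ e * x = x ∧ x * e = x}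

theorem cor_mono {e : R} {A B : Set R} (h : A ⊆ B) : cor e A ⊆ cor e B :=
  fun _ hx => ⟨h hx.1, hx.2⟩

theorem IsW.cor {A : Set R} (h : T.IsW A) {e : R} (he : Pr e) : T.IsW (cor e A) := by
  have h1 := (zero_sub' (T := T)).comap ((LinC.id.mulL e).sub LinC.id)
  have h2 := (zero_sub' (T := T)).comap ((LinC.id.mulR e).sub LinC.id)
  have h3 := h.toIsSub.inter (h1.inter h2)
  have e3 : TW.cor e A = A ∩ ({x | e * x - x ∈ ({0} : Set R)} ∩ {x | x * e - x ∈ ({0} : Set R)}) := by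
    ext x
    simp only [TW.cor, Set.mem_inter_iff, Set.mem_ofPred_eq, Set.mem_singleton_iff, sub_eq_zero]
  refine ⟨e3 ▸ h3, fun hx hy => ⟨h.mul hx.1 hy.1, ?_, ?_⟩, fun hx => ⟨h.star hx.1, ?_, ?_⟩⟩
  · rw [← mul_assoc, hx.2.1]
  · rw [mul_assoc, hy.2.2]
  · rw [← he.st, ← star_mul, hx.2.2]
  · rw [← he.st, ← star_mul, hx.2.1]

theorem IsW.cor_alg {A : Set R} (h : T.IsW A) {e : R} (he : Pr e) (heA : e ∈ A) :
    T.Alg e (TW.cor e A) :=
  ⟨h.cor he, he, ⟨heA, he.sq, he.sq⟩, fun hx => hx.2.1⟩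

theorem IsW.mem_cor {A : Set R} (h : T.IsW A) {e : R} (he : Pr e) (heA : e ∈ A) {x : R}
    (hx : x ∈ A) : e * x * e ∈ TW.cor e A :=
  ⟨h.mul (h.mul heA hx) heA, by rw [← mul_assoc, ← mul_assoc, he.sq], by rw [mul_assoc, he.sq]⟩

theorem univ_w : T.IsW Set.univ :=
  ⟨⟨trivial, fun _ _ => trivial, fun _ _ _ => trivial, fun _ _ _ _ => trivial⟩,
    fun _ _ => trivial, fun _ => trivial⟩

theorem gen_alg {S : Set R} {p : R} (hp : Pr p) (h0 : p ∈ T.gen S)
    (hl : ∀ s ∈ S, p * s = s ∧ s * p = s) : T.Alg p (T.gen S) :=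
  ⟨gen_w S, hp, h0, fun hx =>
    (((univ_w (T := T)).cor hp).gen_le (fun s hs => ⟨trivial, hl s hs⟩) hx).2.1⟩

theorem Alg.gen_union {p : R} {A C : Set R} (hA : T.Alg p A) (hC : T.Alg p C) :
    T.Alg p (T.gen (A ∪ C)) :=
  gen_alg hA.pr (sub_gen (.inl hA.one)) fun _ hs =>
    hs.elim (fun h => ⟨hA.l h, hA.r h⟩) fun h => ⟨hC.l h, hC.r h⟩

variable (T)

/-- All alternating words have trace zero. -/
def Z (X Y : Set R) : Prop := ∀ b w, Alt X Y b w → T.tau w = 0

/-- Centred elements. -/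
def cen (A : Set R) : Set R := {x | x ∈ A ∧ T.tau x = 0}

/-- Free independence of two algebras. -/
def Free (A C : Set R) : Prop := T.Z (T.cen A) (T.cen C)

variable {T}

theorem Z.mono {X Y X' Y' : Set R} (h : T.Z X' Y') (hX : X ⊆ X') (hY : Y ⊆ Y') : T.Z X Y :=
  fun b w hw => h b w (hw.mono hX hY)

theorem Z.symm {X Y : Set R} (h : T.Z X Y) : T.Z Y X := fun _ w hw => h _ w hw.symm

theorem Z.cls {X Y : Set R} (h : T.Z X Y) : T.Z (T.cls X) (T.cls Y) := by
  intro b w hw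
  have : w ∈ T.cls {w | Alt X Y b w} := by
    induction hw with
    | x1 h => exact cls_mono (fun _ h => Alt.x1 h) h
    | y1 h => exact cls_mono (fun _ h => Alt.y1 h) h
    | xc h _ ih => exact (cls_sub _).mul_cls (fun _ hs _ ht => .base (Alt.xc hs ht)) h ih
    | yc h _ ih => exact (cls_sub _).mul_cls (fun _ hs _ ht => .base (Alt.yc hs ht)) h ih
  exact ker_sub.cls_le (fun w hw => h b w hw) this

theorem Free.mono {A C A' C' : Set R} (h : T.Free A' C') (hA : A ⊆ A') (hC : C ⊆ C') :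
    T.Free A C :=
  Z.mono h (fun _ hx => ⟨hA hx.1, hx.2⟩) fun _ hx => ⟨hC hx.1, hx.2⟩

theorem Free.symm {A C : Set R} (h : T.Free A C) : T.Free C A := Z.symm h

/-- Centred elements of `cls (X ∪ {p})`. -/
theorem cen_sub_cls {X : Set R} {p : R} (hp : T.tau p ≠ 0) (hX : ∀ x ∈ X, T.tau x = 0) :
    T.cen (T.cls (insert p X)) ⊆ T.cls X := by
  intro x hx
  have := (cls_sub X).map (LinC.id.sub (LinC.id.tau (T.tau p)⁻¹ p)) (S := insert p X) ?_ hx.1
  · simpa [hx.2] using this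
  · rintro s (rfl | hs)
    · rw [mul_inv_cancel₀ hp, one_smul, sub_self]; exact .zero
    · rw [hX s hs, zero_mul, zero_smul, sub_zero]; exact .base hs

theorem Alg.dec {p : R} {A : Set R} (h : T.Alg p A) (hp : T.tau p ≠ 0) {x : R} (hx : x ∈ A) :
    ∃ x0 ∈ T.cen A, ∃ c : ℂ, x = x0 + c • p :=
  ⟨x - (T.tau x / T.tau p) • p, ⟨h.sub hx (h.smul _ h.one), by
    rw [map_sub, map_smul, smul_eq_mul, div_mul_cancel₀ _ hp, sub_self]⟩, _, (sub_add_cancel _ _).symm⟩

end TW

end Pool.Agent.Lib.MP_263241_an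

/-! Compression of free products (after Dykema). -/

namespace Pool.Agent.Lib.MP_263241_an

/-- Alternating words that start and end with a letter from `Y`. -/
inductive Core {R : Type*} [Mul R] (X Y : Set R) : R → Prop
  | one {c} : c ∈ Y → Core X Y c
  | cons {c x w} : c ∈ Y → x ∈ X → Core X Y w → Core X Y (c * (x * w))

theorem Core.alt {R : Type*} [Mul R] {X Y : Set R} {w} (h : Core X Y w) : Alt X Y false w := by
  induction h with
  | one h => exact .y1 h
  | cons h1 h2 _ ih => exact .yc h1 (.xc h2 ih)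

theorem Core.mono {R : Type*} [Mul R] {X X' Y : Set R} (hX : X ⊆ X') {w} (h : Core X Y w) :
    Core X' Y w := by
  induction h with
  | one h => exact .one h
  | cons h1 h2 _ ih => exact .cons h1 (hX h2) ih

theorem Core.append {R : Type*} [Semigroup R] {X Y : Set R} {u x v} (h : Core X Y u) (hx : x ∈ X)
    (hv : Core X Y v) : Core X Y (u * (x * v)) := by
  induction h with
  | one h => exact .cons h hx hv
  | cons h1 h2 _ ih => rw [mul_assoc, mul_assoc]; exact .cons h1 h2 ih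

variable {R H : Type*} [CStarAlgebra R] [NormedAddCommGroup H] [InnerProductSpace ℂ H]

namespace TW

variable {T : TW R H} {p : R} {A A0 C : Set R}

theorem core_unit (hC : T.Alg p C) {X : Set R} {u : R} (h : Core X (T.cen C) u) : p * u = u := by
  cases h with
  | one h => exact hC.l h.1
  | cons h _ _ => rw [← mul_assoc, hC.l h.1]

theorem tau_core (hp : T.tau p ≠ 0) (hA : T.Alg p A) (hC : T.Alg p C) (hF : T.Free A C) {a u : R}
    (ha : a ∈ A) (h : Core (T.cen A) (T.cen C) u) : T.tau (a * u) = 0 := by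
  obtain ⟨a0, h0, c, rfl⟩ := hA.dec hp ha
  rw [add_mul, smul_mul_assoc, core_unit hC h, map_add, map_smul, hF _ _ (.xc h0 h.alt),
    hF _ _ h.alt, smul_zero, add_zero]

variable (T) in
/-- Words `a u a'` with `u` a core word. -/
def TT (A0 C : Set R) : Set R :=
  {t | ∃ a ∈ A0, ∃ u, Core (T.cen A0) (T.cen C) u ∧ ∃ a' ∈ A0, t = a * u * a'}

variable (T) in
/-- The orthogonal complement of `A0` in `A`. -/
def perp (A A0 : Set R) : Set R := {x | x ∈ A ∧ ∀ a ∈ A0, T.tau (a * x) = 0}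

theorem tau_TT (hp : T.tau p ≠ 0) (hA : T.Alg p A0) (hC : T.Alg p C) (hF : T.Free A0 C) {a t : R}
    (ha : a ∈ A0) (ht : t ∈ T.TT A0 C) : T.tau (a * t) = 0 := by
  obtain ⟨b, hb, u, hu, b', hb', rfl⟩ := ht
  rw [← mul_assoc, T.tau_comm, ← mul_assoc, ← mul_assoc]
  exact tau_core hp hA hC hF (hA.mul (hA.mul hb' ha) hb) hu

theorem amalg (hp : T.tau p ≠ 0) (hA : T.Alg p A) (hC : T.Alg p C) (hF : T.Free A C)
    (hA0 : T.Alg p A0) (hs : A0 ⊆ A) : T.Z (T.perp A A0) (T.TT A0 C) := by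
  have cs : T.cen A0 ⊆ T.cen A := fun _ h => ⟨hs h.1, h.2⟩
  have pc : T.perp A A0 ⊆ T.cen A := fun x h => ⟨h.1, by rw [← hA.l h.1]; exact h.2 p hA0.one⟩
  have pl : ∀ a ∈ A0, ∀ x ∈ T.perp A A0, a * x ∈ T.perp A A0 := fun a ha x hx =>
    ⟨hA.mul (hs ha) hx.1, fun b hb => by rw [← mul_assoc]; exact hx.2 _ (hA0.mul hb ha)⟩
  have pr : ∀ a ∈ A0, ∀ x ∈ T.perp A A0, x * a ∈ T.perp A A0 := fun a ha x hx =>
    ⟨hA.mul hx.1 (hs ha), fun b hb => by
      rw [← mul_assoc, T.tau_comm, ← mul_assoc]; exact hx.2 _ (hA0.mul ha hb)⟩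
  have key : ∀ b w, Alt (T.perp A A0) (T.TT A0 C) b w →
      (b = true ∧ w ∈ T.perp A A0) ∨ ∃ x u a, (if b then x ∈ T.perp A A0 else x ∈ A0) ∧
        Core (T.cen A) (T.cen C) u ∧ a ∈ A ∧ w = x * u * a := by
    intro b w hw
    induction hw with
    | x1 h => exact .inl ⟨rfl, h⟩
    | y1 h =>
      obtain ⟨a, ha, u, hu, a', ha', rfl⟩ := h
      exact .inr ⟨a, u, a', by simpa using ha, hu.mono cs, hs ha', rfl⟩
    | @xc x w h _ ih =>
      rcases ih with ⟨h1, -⟩ | ⟨a0, u, a, h0, hu, ha, rfl⟩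
      · cases h1
      · exact .inr ⟨x * a0, u, a, by simpa using pr a0 (by simpa using h0) x h, hu, ha, by
          simp only [mul_assoc]⟩
    | @yc y w h _ ih =>
      obtain ⟨a, ha, u0, hu0, a', ha', rfl⟩ := h
      rcases ih with ⟨-, h1⟩ | ⟨x, u, b, hx, hu, hb, rfl⟩
      · exact .inr ⟨a, u0, a' * w, by simpa using ha, hu0.mono cs, hA.mul (hs ha') h1.1, by
          simp only [mul_assoc]⟩
      · exact .inr ⟨a, u0 * ((a' * x) * u), b, by simpa using ha,
          (hu0.mono cs).append (pc (pl a' ha' x (by simpa using hx))) hu, hb, by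
          simp only [mul_assoc]⟩
  intro b w hw
  rcases key b w hw with ⟨-, h⟩ | ⟨x, u, a, hx, hu, ha, rfl⟩
  · exact (pc h).2
  · have hx' : x ∈ A := by
      cases b
      · exact hs (by simpa using hx)
      · exact (show x ∈ T.perp A A0 by simpa using hx).1
    rw [T.tau_comm, ← mul_assoc]
    exact tau_core hp hA hC hF (hA.mul ha hx') hu

theorem normal_form (hp : T.tau p ≠ 0) (hA : T.Alg p A0) (hC : T.Alg p C) :
    T.gen (A0 ∪ C) ⊆ T.cls (A0 ∪ T.TT A0 C) := by
  have V := cls_sub (T := T) (A0 ∪ T.TT A0 C)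
  have bT : ∀ {a u a'}, a ∈ A0 → Core (T.cen A0) (T.cen C) u → a' ∈ A0 →
      a * u * a' ∈ T.cls (A0 ∪ T.TT A0 C) := fun ha hu ha' =>
    sub_cls (.inr ⟨_, ha, _, hu, _, ha', rfl⟩)
  have bC : ∀ {u a'}, Core (T.cen A0) (T.cen C) u → a' ∈ A0 →
      u * a' ∈ T.cls (A0 ∪ T.TT A0 C) := fun hu ha' => by
    have := bT hA.one hu ha'
    rwa [core_unit hC hu] at this
  have k1 : ∀ c ∈ C, ∀ u, Core (T.cen A0) (T.cen C) u → ∀ a' ∈ A0,
      c * (u * a') ∈ T.cls (A0 ∪ T.TT A0 C) := by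
    intro c hc u hu a' ha'
    cases hu with
    | one h =>
      obtain ⟨d, hd, s, e⟩ := hC.dec hp (hC.mul hc h.1)
      rw [← mul_assoc, e, add_mul, smul_mul_assoc, hA.l ha']
      exact V.add (bC (.one hd) ha') (V.smul _ (sub_cls (.inl ha')))
    | @cons c' x w h hx hw =>
      obtain ⟨d, hd, s, e⟩ := hC.dec hp (hC.mul hc h.1)
      rw [mul_assoc c', ← mul_assoc c, e, add_mul, smul_mul_assoc, ← mul_assoc d,
        ← mul_assoc p, ← mul_assoc p, hA.l hx.1]
      exact V.add (bC (.cons hd hx hw) ha') (V.smul _ (bT hx.1 hw ha'))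
  intro x hx
  have := V.stab (S := A0 ∪ C) (fun s hs => hs.imp hA.star hC.star) ?_ hx p (sub_cls (.inl hA.one))
  · rwa [(hA.gen_union hC).r hx] at this
  rintro s hs v hv
  refine V.map (LinC.id.mulL s) ?_ hv
  rcases hs with hs | hs
  · rintro t (ht | ⟨a, ha, u, hu, a', ha', rfl⟩)
    · exact sub_cls (.inl (hA.mul hs ht))
    · rw [← mul_assoc, ← mul_assoc]; exact bT (hA.mul hs ha) hu ha'
  · obtain ⟨c, hc, r, rfl⟩ := hC.dec hp hs
    rintro t (ht | ⟨a, ha, u, hu, a', ha', rfl⟩)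
    · rw [add_mul, smul_mul_assoc, hA.l ht]
      exact V.add (bC (.one hc) ht) (V.smul _ (sub_cls (.inl ht)))
    · rw [add_mul, smul_mul_assoc, ← mul_assoc p, ← mul_assoc p, hA.l ha]
      refine V.add ?_ (V.smul _ (bT ha hu ha'))
      obtain ⟨a0, h0, r', rfl⟩ := hA.dec hp ha
      rw [add_mul, add_mul, mul_add, smul_mul_assoc, smul_mul_assoc, core_unit hC hu,
        mul_smul_comm, ← mul_assoc c]
      exact V.add (bC (.cons hc h0 hu) ha') (V.smul _ (k1 c hc.1 u hu a' ha'))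

/-- Freeness in the corner of a projection that is minimal in `A0`. -/
theorem dyk (hp : T.tau p ≠ 0) (hA : T.Alg p A) (hC : T.Alg p C) (hF : T.Free A C)
    (hA0 : T.Alg p A0) (hs : A0 ⊆ A) {e : R} (he : Pr e) (heA : e ∈ A0) (hte : T.tau e ≠ 0)
    (hmin : ∀ a ∈ A0, ∃ c : ℂ, e * a * e = c • e) :
    T.Free (cor e A) (cor e (T.gen (A0 ∪ C))) := by
  refine (amalg hp hA hC hF hA0 hs).cls.mono (fun x hx => sub_cls ⟨hx.1.1, fun a ha => ?_⟩) ?_
  · obtain ⟨c, hc⟩ := hmin a ha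
    rw [← hx.1.2.1, ← hx.1.2.2, ← mul_assoc, ← mul_assoc, T.tau_comm, ← mul_assoc, ← mul_assoc, hc,
      smul_mul_assoc, hx.1.2.1, map_smul, hx.2, smul_zero]
  · intro n hn
    have := (cls_sub (T.TT A0 C)).map (((LinC.id.mulL e).mulR e).sub
      (((LinC.id.mulL e).mulR e).tau (T.tau e)⁻¹ e)) ?_ (normal_form hp hA0 hC hn.1.1)
    · simpa [hn.1.2.1, hn.1.2.2, hn.2] using this
    rintro s (hs' | hs')
    · obtain ⟨c, hc⟩ := hmin s hs'
      rw [hc, map_smul, smul_eq_mul, mul_assoc, mul_inv_cancel₀ hte, mul_one, sub_self]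
      exact .zero
    · rw [T.tau_comm, ← mul_assoc, he.sq, tau_TT hp hA0 hC (hF.mono hs le_rfl) heA hs', zero_mul,
        zero_smul, sub_zero]
      obtain ⟨a, ha, u, hu, a', ha', rfl⟩ := hs'
      exact sub_cls ⟨e * a, hA0.mul heA ha, u, hu, a' * e, hA0.mul ha' heA, by
        simp only [mul_assoc]⟩

/-- Generators of a corner. -/
theorem gen_corner {N D0 S : Set R} (hN : T.Alg p N) {e : R} (he : Pr e) (heN : e ∈ N)
    (hD : ∀ d ∈ D0, e * d = d ∧ d * e = d) (hst : ∀ s ∈ S, star s ∈ S)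
    (hS : ∀ s ∈ S, s ∈ T.cls (N ∪ {t | ∃ n ∈ N, ∃ d ∈ T.gen D0, ∃ n' ∈ N, t = n * d * n'})) :
    cor e (T.gen S) ⊆ T.gen (D0 ∪ cor e N) := by
  have D := gen_w (T := T) (D0 ∪ cor e N)
  have V : T.IsSub {y | ∀ (n : N) (n' : N), e * n * y * n' * e ∈ T.gen (D0 ∪ cor e N)} :=
    IsSub.all fun n => IsSub.all fun n' =>
      D.toIsSub.comap (((LinC.id.mulL (e * (n : R))).mulR (n' : R)).mulR e)
  intro y hy
  have h1 := V.stab hst ?_ hy.1 p ?_ ⟨p, hN.one⟩ ⟨p, hN.one⟩
  · have e1 : y * p = y := by rw [← hy.2.2, mul_assoc, hN.r heN]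
    simp only at h1
    rwa [hN.r heN, e1, mul_assoc (e * y), hN.l heN, hy.2.1, hy.2.2] at h1
  · intro s hs v hv n n'
    refine D.toIsSub.map ((((LinC.id.mulR v).mulL (e * (n : R))).mulR (n' : R)).mulR e) ?_ (hS s hs)
    rintro t (ht | ⟨a, ha, d, hd, a', ha', rfl⟩)
    · have := hv ⟨n * t, hN.mul n.2 ht⟩ n'
      simpa only [mul_assoc] using this
    · have hd' := ((univ_w (T := T)).cor he).gen_le (fun s hs => ⟨trivial, hD s hs⟩) hd
      have := D.mul (D.mul (sub_gen (.inr (hN.mem_cor he heN (hN.mul n.2 ha))))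
        (gen_mono Set.subset_union_left hd)) (hv ⟨a', ha'⟩ n')
      simp only [mul_assoc] at this ⊢
      rwa [← mul_assoc e d, hd'.2.1, ← mul_assoc d e, hd'.2.2] at this
  · intro n n'
    have := hN.mem_cor he heN (hN.mul (hN.mul n.2 hN.one) n'.2)
    exact sub_gen (.inr (by simpa only [mul_assoc] using this))

/-- A unitary built from matrix units `w` and a partial isometry `f` of the diagonal algebra. -/
theorem haar_free {e k w f : R} (hp : T.tau p ≠ 0) (hA : T.Alg p A) (hC : T.Alg p C)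
    (hF : T.Free A C) (he : Pr e) (hk : Pr k) (hek : e * k = 0) (hte : T.tau e ≠ 0)
    (htk : T.tau k ≠ 0) (hA0 : T.Alg p (T.cls {e, k})) (hs : T.cls {e, k} ⊆ A) (hw : w ∈ A)
    (w1 : k * w = w) (w2 : w * e = w) (hf : f ∈ T.gen (T.cls {e, k} ∪ C)) (f1 : star f * f = e)
    (f2 : k * f = f) (f3 : f * e = f) :
    T.Z {x | ∃ n : ℕ, x = (star f * w) ^ (n + 1) ∨ x = (star w * f) ^ (n + 1)}
      (T.cen (cor e (T.gen (T.cls {e, k} ∪ C)))) := by
  set N := T.gen (T.cls {e, k} ∪ C) with hN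
  have NW : T.IsW N := gen_w _
  have hke : k * e = 0 := he.orth hk hek
  have off : ∀ x, (k * x = x ∧ x * e = x) ∨ (e * x = x ∧ x * k = x) →
      T.tau (e * x) = 0 ∧ T.tau (k * x) = 0 := by
    rintro x (⟨h1, h2⟩ | ⟨h1, h2⟩)
    · exact ⟨by rw [← h1, ← mul_assoc, hek, zero_mul, map_zero],
        by rw [← h2, ← mul_assoc, T.tau_comm, ← mul_assoc, hek, zero_mul, map_zero]⟩
    · exact ⟨by rw [← h2, ← mul_assoc, T.tau_comm, ← mul_assoc, hke, zero_mul, map_zero],
        by rw [← h1, ← mul_assoc, hke, zero_mul, map_zero]⟩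
  have sw : e * star w = star w ∧ star w * k = star w :=
    ⟨by rw [← he.st, ← star_mul, w2], by rw [← hk.st, ← star_mul, w1]⟩
  have sf : e * star f = star f ∧ star f * k = star f :=
    ⟨by rw [← he.st, ← star_mul, f3], by rw [← hk.st, ← star_mul, f2]⟩
  have pw : ∀ x ∈ A, T.tau (e * x) = 0 ∧ T.tau (k * x) = 0 → x ∈ T.perp A (T.cls {e, k}) :=
    fun x hx h => ⟨hx, fun a ha => ker_sub.map (LinC.id.mulR x) (by
      rintro s (rfl | rfl)
      exacts [h.1, h.2]) ha⟩
  have pn : ∀ n ∈ N, T.tau (e * n) = 0 ∧ T.tau (k * n) = 0 → n ∈ T.cls (T.TT (T.cls {e, k}) C) := by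
    intro n hn h
    have L := (LinC.id (T := T).sub ((LinC.id.mulL e).tau (T.tau e)⁻¹ e)).sub
      ((LinC.id.mulL k).tau (T.tau k)⁻¹ k)
    have := (cls_sub (T.TT (T.cls {e, k}) C)).map L ?_ (normal_form hp hA0 hC hn)
    · simpa [h.1, h.2] using this
    rintro s (hs' | hs')
    · rw [cls_eq_zero L ?_ hs']
      · exact .zero
      rintro s (rfl | rfl)
      · simp [he.sq, hke, mul_inv_cancel₀ hte]
      · simp [hk.sq, hek, mul_inv_cancel₀ htk]
    · rw [tau_TT hp hA0 hC (hF.mono hs le_rfl) (sub_cls (.inl rfl)) hs',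
        tau_TT hp hA0 hC (hF.mono hs le_rfl) (sub_cls (.inr rfl)) hs']
      simpa using sub_cls hs'
  have hZ := (amalg hp hA hC hF hA0 hs).cls
  set X := T.cls (T.perp A (T.cls {e, k}))
  set Y := T.cls (T.TT (T.cls {e, k}) C)
  have xw : w ∈ X := sub_cls (pw w hw (off w (.inl ⟨w1, w2⟩)))
  have xw' : star w ∈ X := sub_cls (pw _ (hA.star hw) (off _ (.inr sw)))
  have yf : f ∈ Y := pn f hf (off f (.inl ⟨f2, f3⟩))
  have yf' : star f ∈ Y := pn _ (NW.star hf) (off _ (.inr sf))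
  let TI : R → Prop := fun v => (∃ v', Alt X Y true v' ∧ v = star f * v') ∨ Alt X Y true v
  have stepP : ∀ (n : ℕ) v, (∃ v', Alt X Y true v' ∧ v = star f * v') →
      ∃ v', Alt X Y true v' ∧ (star f * w) ^ n * v = star f * v' := by
    intro n v hv
    induction n with
    | zero => simpa using hv
    | succ n ih =>
      obtain ⟨v', h1, h2⟩ := ih
      exact ⟨w * (star f * v'), .xc xw (.yc yf' h1), by rw [pow_succ', mul_assoc, h2, mul_assoc]⟩
  have stepN : ∀ (n : ℕ) v, Alt X Y true v → Alt X Y true ((star w * f) ^ n * v) := by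
    intro n v hv
    induction n with
    | zero => simpa using hv
    | succ n ih => rw [pow_succ', mul_assoc, mul_assoc]; exact .xc xw' (.yc yf ih)
  have key : ∀ b v, Alt {x | ∃ n : ℕ, x = (star f * w) ^ (n + 1) ∨ x = (star w * f) ^ (n + 1)}
      (T.cen (cor e N)) b v → if b then TI v else Alt X Y false v ∧ Alt X Y false (f * v) := by
    intro b v hv
    induction hv with
    | x1 h =>
      obtain ⟨n, rfl | rfl⟩ := h
      · exact .inl (by rw [pow_succ]; exact stepP n _ ⟨w, .x1 xw, rfl⟩)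
      · exact .inr (by rw [pow_succ]; exact stepN n _ (.xc xw' (.y1 yf)))
    | @y1 y h =>
      refine ⟨.y1 (pn y h.1.1 ⟨by rw [h.1.2.1, h.2], ?_⟩), .y1 (pn _ (NW.mul hf h.1.1)
        (off _ (.inl ⟨by rw [← mul_assoc, f2], by rw [mul_assoc, h.1.2.2]⟩)))⟩
      rw [← h.1.2.1, ← mul_assoc, hke, zero_mul, map_zero]
    | @xc x v h _ ih =>
      obtain ⟨i1, i2⟩ : Alt X Y false v ∧ Alt X Y false (f * v) := by simpa using ih
      obtain ⟨n, rfl | rfl⟩ := h
      · exact .inl (by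
          rw [pow_succ, mul_assoc]; exact stepP n _ ⟨w * v, .xc xw i1, mul_assoc _ _ _⟩)
      · exact .inr (by rw [pow_succ, mul_assoc, mul_assoc]; exact stepN n _ (.xc xw' i2))
    | @yc y v h _ ih =>
      have y0 : y ∈ Y := pn y h.1.1 ⟨by rw [h.1.2.1, h.2], by
        rw [← h.1.2.1, ← mul_assoc, hke, zero_mul, map_zero]⟩
      have y1 : f * y ∈ Y := pn _ (NW.mul hf h.1.1)
        (off _ (.inl ⟨by rw [← mul_assoc, f2], by rw [mul_assoc, h.1.2.2]⟩))
      have y2 : y * star f ∈ Y := pn _ (NW.mul h.1.1 (NW.star hf))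
        (off _ (.inr ⟨by rw [← mul_assoc, h.1.2.1], by rw [mul_assoc, sf.2]⟩))
      have y3 : f * (y * star f) ∈ Y := pn _ (NW.mul hf (NW.mul h.1.1 (NW.star hf)))
        ⟨by rw [← f2, mul_assoc, ← mul_assoc e, hek, zero_mul, map_zero],
          by rw [← mul_assoc, f2, ← mul_assoc, T.tau_comm, ← mul_assoc, f1, h.1.2.1, h.2]⟩
      rcases (show TI v by simpa using ih) with ⟨v', h1, rfl⟩ | h1
      · refine ⟨by rw [← mul_assoc]; exact .yc y2 h1, ?_⟩
        rw [← mul_assoc y, ← mul_assoc f]; exact .yc y3 h1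
      · exact ⟨.yc y0 h1, by rw [← mul_assoc]; exact .yc y1 h1⟩
  intro b v hv
  have := key b v hv
  cases b
  · exact hZ _ _ (show _ ∧ _ by simpa using this).1
  · rcases (show TI v by simpa using this) with ⟨v', h1, rfl⟩ | h1
    · exact hZ _ _ (.yc yf' h1)
    · exact hZ _ _ h1

end TW

end Pool.Agent.Lib.MP_263241_an

/-! Functional calculus in a corner, spectral measures, atoms and polar parts. -/

namespace Pool.Agent.Lib.MP_263241_an

open Filter Topology MeasureTheory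
open scoped InnerProductSpace ComplexConjugate CompactlySupported

variable {R H : Type*} [CStarAlgebra R] [NormedAddCommGroup H] [InnerProductSpace ℂ H]

/-- `f(x)` computed in the corner with unit `e`. -/
noncomputable def Ph (e x : R) (f : ℝ → ℂ) : R := e * cfc (fun z : ℂ => f z.re) x

/-- A self-adjoint element of the corner of `e`. -/
structure SA (e x : R) : Prop where
  pr : Pr e
  st : star x = x
  l : e * x = x

theorem Pr.norm_le {e : R} (he : Pr e) : ‖e‖ ≤ 1 := by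
  have h := CStarRing.norm_star_mul_self (x := e)
  rw [he.st, he.sq] at h
  nlinarith [norm_nonneg e]

namespace SA

variable {e x : R} (h : SA e x) {f g : ℝ → ℂ}
include h

theorem r : x * e = x := by
  have := congrArg star h.l
  rwa [star_mul, h.st, h.pr.st] at this

theorem normal : IsStarNormal x := IsSelfAdjoint.isStarNormal h.st

theorem comm {c : R} (hc : c * x = x * c) (F : ℂ → ℂ) : c * cfc F x = cfc F x * c :=
  (Commute.cfc (a := x) hc.symm (by rw [h.st]; exact hc.symm) F).symm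

theorem ecomm (F : ℂ → ℂ) : e * cfc F x = cfc F x * e := h.comm (by rw [h.l, h.r]) F

theorem ph_l (f : ℝ → ℂ) : e * Ph e x f = Ph e x f := h.pr.l _

theorem ph_r (f : ℝ → ℂ) : Ph e x f * e = Ph e x f := by
  rw [Ph, mul_assoc, ← h.ecomm, h.pr.l]

theorem ph_comm {c : R} (hc : c * x = x * c) (hc' : c * e = e * c) (f : ℝ → ℂ) :
    c * Ph e x f = Ph e x f * c := by
  rw [Ph, ← mul_assoc, hc', mul_assoc, h.comm hc, mul_assoc]

theorem ph_congr (hfg : ∀ t : ℝ, (t : ℂ) ∈ spectrum ℂ x → f t = g t) : Ph e x f = Ph e x g := by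
  rw [Ph, Ph, cfc_congr fun z hz => hfg z.re
    (by rwa [← IsSelfAdjoint.mem_spectrum_eq_re h.st hz])]

theorem ph_mul (hf : Continuous f) (hg : Continuous g) :
    Ph e x (fun t => f t * g t) = Ph e x f * Ph e x g := by
  rw [← h.ph_r f, mul_assoc, h.ph_l, Ph, Ph, Ph, cfc_mul _ _ x (by fun_prop) (by fun_prop),
    mul_assoc, ← mul_assoc _ e, ← h.ecomm, mul_assoc, h.pr.l]

omit h in
theorem ph_add (hf : Continuous f) (hg : Continuous g) :
    Ph e x (fun t => f t + g t) = Ph e x f + Ph e x g := by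
  rw [Ph, Ph, Ph, cfc_add x _ _ (by fun_prop) (by fun_prop), mul_add]

omit h in
theorem ph_sub (hf : Continuous f) (hg : Continuous g) :
    Ph e x (fun t => f t - g t) = Ph e x f - Ph e x g := by
  rw [Ph, Ph, Ph, cfc_sub _ _ x (by fun_prop) (by fun_prop), mul_sub]

omit h in
theorem ph_smul (c : ℂ) (hf : Continuous f) : Ph e x (fun t => c * f t) = c • Ph e x f := by
  rw [Ph, Ph, cfc_const_mul c _ x (by fun_prop), mul_smul_comm]

theorem ph_star (f : ℝ → ℂ) : Ph e x (fun t => conj (f t)) = star (Ph e x f) := by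
  rw [Ph, Ph, star_mul, h.pr.st, ← cfc_star, h.ecomm]; rfl

theorem ph_const (c : ℂ) : Ph e x (fun _ => c) = c • e := by
  have := h.normal
  rw [Ph, cfc_const c x, Algebra.algebraMap_eq_smul_one, mul_smul_comm, mul_one]

theorem ph_id : Ph e x (fun t => (t : ℂ)) = x := by
  have := h.normal
  rw [Ph, cfc_congr (g := fun z => z) fun z hz => (IsSelfAdjoint.mem_spectrum_eq_re h.st hz).symm,
    cfc_id' ℂ x, h.l]

omit h in
theorem spec_le {t : ℝ} (ht : (t : ℂ) ∈ spectrum ℂ x) : |t| ≤ ‖x‖ := by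
  rcases subsingleton_or_nontrivial R with _ | _
  · simp [spectrum.of_subsingleton] at ht
  · simpa using spectrum.norm_le_norm_of_mem ht

theorem ph_norm {C : ℝ} (hC : 0 ≤ C) (hf : ∀ t : ℝ, (t : ℂ) ∈ spectrum ℂ x → ‖f t‖ ≤ C) :
    ‖Ph e x f‖ ≤ C := by
  refine (norm_mul_le _ _).trans ?_
  have := norm_cfc_le (f := fun z : ℂ => f z.re) (a := x) hC fun z hz =>
    hf z.re (by rwa [← IsSelfAdjoint.mem_spectrum_eq_re h.st hz])
  nlinarith [h.pr.norm_le, norm_nonneg e, norm_nonneg (cfc (fun z : ℂ => f z.re) x)]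

end SA

namespace TW

variable {T : TW R H} {e x : R}

theorem IsW.cfc_mem {A : Set R} (hA : T.IsW A) (he : Pr e) (heA : e ∈ A) {b : R}
    (h1 : e * b ∈ A) (h2 : b * e = e * b) (F : ℂ → ℂ) : e * cfc F b ∈ A := by
  let s : StarSubalgebra ℂ R :=
    { carrier := {c | e * c ∈ A ∧ c * e = e * c}
      mul_mem' := fun {a b} ha hb => ⟨by
        have := hA.mul ha.1 hb.1
        rwa [mul_assoc, ← mul_assoc a, ha.2, mul_assoc, he.l] at this, by
        rw [mul_assoc, hb.2, ← mul_assoc, ha.2, mul_assoc]⟩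
      add_mem' := fun {a b} ha hb => ⟨by rw [mul_add]; exact hA.add ha.1 hb.1, by
        rw [mul_add, add_mul, ha.2, hb.2]⟩
      algebraMap_mem' := fun c => ⟨by
        rw [Algebra.algebraMap_eq_smul_one, mul_smul_comm, mul_one]; exact hA.smul c heA,
        Algebra.commutes c e⟩
      star_mem' := fun {a} ha => ⟨by
        have := hA.star ha.1
        rwa [← ha.2, star_mul, he.st] at this, by
        have := congrArg Star.star ha.2
        rw [star_mul, star_mul, he.st] at this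
        exact this.symm⟩ }
  have : IsClosed (s : Set R) := by
    refine isSeqClosed_iff_isClosed.1 fun a c ha hc => ⟨?_, ?_⟩
    · exact hA.lim _ (fun n => (ha n).1) (Lim.of_norm (hc.const_mul e))
    · exact tendsto_nhds_unique (hc.mul_const e)
        ((hc.const_mul e).congr fun n => (ha n).2.symm)
  exact (_root_.cfc_mem (𝕜' := ℂ) (s := s) F (show b ∈ s from ⟨h1, h2⟩)).1

theorem IsW.ph_mem {A : Set R} (hA : T.IsW A) (h : SA e x) (heA : e ∈ A) (hx : x ∈ A)
    (f : ℝ → ℂ) : Ph e x f ∈ A :=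
  hA.cfc_mem h.pr heA (by rwa [h.l]) (by rw [h.l, h.r]) _

theorem IsW.ph_comp {A : Set R} (hA : T.IsW A) (h : SA e x) (heA : e ∈ A) {f : ℝ → ℂ}
    (hf : Continuous f) (hx : Ph e x f ∈ A) {F : ℂ → ℂ} (hF : Continuous F) :
    Ph e x (fun t => F (f t)) ∈ A := by
  have := h.normal
  have := hA.cfc_mem h.pr heA hx (h.ecomm _).symm F
  rwa [← cfc_comp' F _ x (by fun_prop) (by fun_prop)] at this

variable (T) in
/-- Spectral measure of `x` in the corner of `e`. -/
structure SM (e x : R) (μ : Measure ℝ) : Prop where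
  sa : SA e x
  fin : IsFiniteMeasure μ
  supp : ∀ᵐ t ∂μ, ((t : ℝ) : ℂ) ∈ spectrum ℂ x
  int : ∀ f : ℝ → ℂ, Continuous f → T.tau (Ph e x f) = ∫ t, f t ∂μ

theorem exists_sm (h : SA e x) : ∃ μ, T.SM e x μ := by
  have hN := h.normal
  let φ := cfcHom (R := ℂ) hN
  let c : C_c(spectrum ℂ x, ℝ) → C(spectrum ℂ x, ℂ) := fun g => ⟨fun x => (g x : ℂ), by fun_prop⟩
  have ec : ∀ g, e * φ g = φ g * e := fun g =>
    (Commute.cfcHom hN (b := e) (by rw [Commute, SemiconjBy, h.l, h.r])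
      (by rw [h.st, Commute, SemiconjBy, h.l, h.r]) g).symm
  let L : C_c(spectrum ℂ x, ℝ) →ₗ[ℝ] ℝ :=
    { toFun := fun g => (T.tau (e * φ (c g))).re
      map_add' := fun g h => by
        have : c (g + h) = c g + c h := by ext x; simp [c]
        simp [this, mul_add]
      map_smul' := fun t g => by
        have : c (t • g) = (t : ℂ) • c g := by ext x; simp [c]
        simp [this] }
  let Λ := PositiveLinearMap.mk₀ L fun g hg => by
    let s : C(spectrum ℂ x, ℂ) := ⟨fun x => (√(g x) : ℝ), by fun_prop⟩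
    have : c g = star s * s := by
      ext x
      simp [c, s, ← Complex.ofReal_mul, Real.mul_self_sqrt (hg x)]
    change 0 ≤ (T.tau (e * φ (c g))).re
    have e2 : e * φ (c g) = star (φ s * e) * (φ s * e) := by
      rw [this, map_mul, map_star, star_mul, h.pr.st, ← ec, ← mul_assoc, mul_assoc e,
        mul_assoc e, ← mul_assoc (star _), ← map_star, ← ec, mul_assoc, h.pr.l]
    rw [e2, T.tau_sq, Complex.ofReal_re]
    positivity
  have e1 : ∀ g, T.tau (e * φ (c g)) = ((∫ x, g x ∂(RealRMK.rieszMeasure Λ) : ℝ) : ℂ) := fun g => by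
    have h1 : star (c g) = c g := by ext x; simp [c]
    have h2 : conj (T.tau (e * φ (c g))) = T.tau (e * φ (c g)) := by
      rw [← T.tau_star, star_mul, ← map_star, h1, h.pr.st, ec]
    rw [RealRMK.integral_rieszMeasure]
    exact (Complex.conj_eq_iff_re.1 h2).symm
  have m : Measurable fun z : spectrum ℂ x => (z : ℂ).re := by fun_prop
  refine ⟨(RealRMK.rieszMeasure Λ).map fun z : spectrum ℂ x => (z : ℂ).re, h, inferInstance, ?_, fun f hf => ?_⟩
  · refine (ae_map_iff m.aemeasurable ?_).2 (.of_forall fun z => ?_)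
    · exact ((spectrum.isClosed x).preimage Complex.continuous_ofReal).measurableSet
    · rw [← IsSelfAdjoint.mem_spectrum_eq_re h.st z.2]; exact z.2
  let a : C_c(spectrum ℂ x, ℝ) := ⟨⟨fun z => (f (z : ℂ).re).re, by fun_prop⟩, .of_compactSpace _⟩
  let b : C_c(spectrum ℂ x, ℝ) := ⟨⟨fun z => (f (z : ℂ).re).im, by fun_prop⟩, .of_compactSpace _⟩
  have h1 : cfc (fun z : ℂ => f z.re) x = φ (c a + Complex.I • c b) := by
    rw [cfc_apply _ x hN (by fun_prop)]
    congr 1
    ext x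
    simp [c, a, b, mul_comm Complex.I]
  have i : Integrable (fun z : spectrum ℂ x => f (z : ℂ).re) (RealRMK.rieszMeasure Λ) :=
    (by fun_prop : Continuous _).integrable_of_hasCompactSupport (.of_compactSpace _)
  rw [integral_map m.aemeasurable hf.aestronglyMeasurable, Ph, h1, map_add, map_smul, mul_add,
    mul_smul_comm, map_add, map_smul, e1, e1, ← integral_re_add_im i, smul_eq_mul, mul_comm]
  rfl

namespace SM

variable {μ : Measure ℝ} (h : T.SM e x μ)
include h

theorem norm_sq {f : ℝ → ℂ} (hf : Continuous f) :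
    ‖T.ι (Ph e x f)‖ ^ 2 = ∫ t, ‖f t‖ ^ 2 ∂μ := by
  have := T.tau_sq (Ph e x f)
  rw [← h.sa.ph_star, ← h.sa.ph_mul (by fun_prop) hf, h.int _ (by fun_prop)] at this
  simp only [Complex.conj_mul'] at this
  exact_mod_cast this.symm

theorem dct {f : ℕ → ℝ → ℂ} {g : ℝ → ℂ} (hf : ∀ n, Continuous (f n)) {C : ℝ}
    (hC : ∀ n (t : ℝ), (t : ℂ) ∈ spectrum ℂ x → ‖f n t‖ ≤ C)
    (hl : ∀ᵐ t ∂μ, Tendsto (fun n => f n t) atTop (𝓝 (g t))) :
    (∀ n, Integrable (fun t => ‖f n t - g t‖ ^ 2) μ) ∧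
      Tendsto (fun n => ∫ t, ‖f n t - g t‖ ^ 2 ∂μ) atTop (𝓝 0) := by
  have := h.fin
  have mg : AEStronglyMeasurable g μ :=
    aestronglyMeasurable_of_tendsto_ae atTop (fun n => (hf n).aestronglyMeasurable) hl
  have ms : ∀ n, AEStronglyMeasurable (fun t => ‖f n t - g t‖ ^ 2) μ := fun n =>
    ((hf n).aestronglyMeasurable.sub mg).norm.pow 2
  have hb : ∀ n, ∀ᵐ t ∂μ, ‖‖f n t - g t‖ ^ 2‖ ≤ (C + C) ^ 2 := fun n => by
    filter_upwards [h.supp, hl] with t h1 h2
    have h3 : ‖g t‖ ≤ C := le_of_tendsto' h2.norm fun n => hC n t h1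
    rw [Real.norm_of_nonneg (by positivity)]
    exact pow_le_pow_left₀ (norm_nonneg _) ((norm_sub_le _ _).trans (add_le_add (hC n t h1) h3)) 2
  refine ⟨fun n => (integrable_const _).mono' (ms n) (hb n), ?_⟩
  have := tendsto_integral_of_dominated_convergence (f := fun _ => (0 : ℝ)) _ ms
    (integrable_const _) hb (by
      filter_upwards [hl] with t h2
      simpa using (tendsto_iff_norm_sub_tendsto_zero.1 h2).pow 2)
  simpa using this

theorem approx {f : ℕ → ℝ → ℂ} {g : ℝ → ℂ} (hf : ∀ n, Continuous (f n)) (hg : Continuous g)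
    {C : ℝ} (hC : ∀ n (t : ℝ), (t : ℂ) ∈ spectrum ℂ x → ‖f n t‖ ≤ C)
    (hl : ∀ᵐ t ∂μ, Tendsto (fun n => f n t) atTop (𝓝 (g t))) :
    T.Lim (fun n => Ph e x (f n)) (Ph e x g) := by
  rw [lim_iff]
  have := (h.dct hf hC hl).2.sqrt
  rw [Real.sqrt_zero] at this
  refine this.congr fun n => ?_
  rw [← h.norm_sq ((hf n).fun_sub hg), Real.sqrt_sq (norm_nonneg _), SA.ph_sub (hf n) hg]

theorem cauchy {f : ℕ → ℝ → ℂ} {g : ℝ → ℂ} (hf : ∀ n, Continuous (f n)) {C : ℝ}
    (hC : ∀ n (t : ℝ), (t : ℂ) ∈ spectrum ℂ x → ‖f n t‖ ≤ C)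
    (hl : ∀ᵐ t ∂μ, Tendsto (fun n => f n t) atTop (𝓝 (g t))) :
    CauchySeq fun n => T.ι (Ph e x (f n)) := by
  obtain ⟨hi, ht⟩ := h.dct hf hC hl
  refine Metric.cauchySeq_iff.2 fun ε hε => ?_
  obtain ⟨N, hN⟩ := eventually_atTop.1 (ht.eventually (gt_mem_nhds (show 0 < ε ^ 2 / 4 by positivity)))
  refine ⟨N, fun m hm n hn => ?_⟩
  rw [dist_eq_norm, ← map_sub, ← SA.ph_sub (hf m) (hf n)]
  refine lt_of_pow_lt_pow_left₀ 2 hε.le ?_
  rw [h.norm_sq ((hf m).fun_sub (hf n))]
  calc _ ≤ ∫ t, 2 * ‖f m t - g t‖ ^ 2 + 2 * ‖f n t - g t‖ ^ 2 ∂μ := by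
        refine integral_mono_of_nonneg (.of_forall fun _ => by positivity)
          (((hi m).const_mul 2).add ((hi n).const_mul 2)) (.of_forall fun t => ?_)
        have h1 : ‖f m t - f n t‖ ≤ ‖f m t - g t‖ + ‖f n t - g t‖ := by
          simpa using norm_sub_le (f m t - g t) (f n t - g t)
        have h2 := pow_le_pow_left₀ (norm_nonneg _) h1 2
        simp only
        nlinarith [sq_nonneg (‖f m t - g t‖ - ‖f n t - g t‖)]
    _ < ε ^ 2 := by
        rw [integral_add ((hi m).const_mul 2) ((hi n).const_mul 2), integral_const_mul,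
          integral_const_mul]
        linarith [hN m hm, hN n hn]

theorem atom {l : ℝ} (hl : ∀ z, e * z = z → x * z = (l : ℂ) • z → z = 0) : μ {l} = 0 := by
  have := h.fin
  let f : ℕ → ℝ → ℂ := fun n t => ((1 + n * (t - l) ^ 2 : ℝ)⁻¹ : ℝ)
  have pos : ∀ (n : ℕ) (t : ℝ), 1 ≤ 1 + n * (t - l) ^ 2 := fun n t =>
    le_add_of_nonneg_right (by positivity)
  have hf : ∀ n, Continuous (f n) := fun n =>
    Complex.continuous_ofReal.comp (Continuous.inv₀ (by fun_prop) fun t => by linarith [pos n t])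
  have hb : ∀ n t, ‖f n t‖ ≤ 1 := fun n t => by
    rw [Complex.norm_real, Real.norm_of_nonneg (inv_nonneg.2 (by linarith [pos n t]))]
    exact inv_le_one_of_one_le₀ (pos n t)
  have ht : ∀ t, Tendsto (fun n => f n t) atTop (𝓝 (Set.indicator {l} (fun _ => (1 : ℂ)) t)) := by
    intro t
    by_cases htl : t = l
    · simp [f, htl]
    · rw [Set.indicator_of_notMem (by simpa using htl), ← Complex.ofReal_zero]
      refine (Complex.continuous_ofReal.tendsto 0).comp (Tendsto.inv_tendsto_atTop ?_)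
      exact tendsto_atTop_add_const_left _ _ (tendsto_natCast_atTop_atTop.atTop_mul_const
        (by have := sub_ne_zero.2 htl; positivity))
  obtain ⟨z, hz⟩ := T.compl _ 1 (fun n => h.sa.ph_norm zero_le_one fun t _ => hb n t)
    (h.cauchy hf (fun n t _ => hb n t) (.of_forall ht))
  replace hz : T.Lim _ z := hz
  have h1 : e * z = z := (hz.mulL e).unique (by simpa only [h.sa.ph_l] using hz)
  have h2 := h.approx (f := fun n t => ((t : ℂ) - l) * f n t) (g := fun _ => 0)
    (fun n => by have := hf n; fun_prop) continuous_const (C := ‖x‖ + |l|) (fun n t ht => by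
      rw [_root_.norm_mul]
      refine (mul_le_of_le_one_right (norm_nonneg _) (hb n t)).trans ((norm_sub_le _ _).trans ?_)
      simpa using SA.spec_le ht) (.of_forall fun t => by
      have := (ht t).const_mul ((t : ℂ) - l)
      by_cases htl : t = l
      · simp [htl]
      · simpa [Set.indicator_of_notMem, htl] using this)
  rw [h.sa.ph_const, zero_smul] at h2
  have h3 : (x - (l : ℂ) • e) * z = 0 := (hz.mulL _).unique (by
    convert h2 using 2 with n
    rw [h.sa.ph_mul (by fun_prop) (hf n), SA.ph_sub (by fun_prop) (by fun_prop), h.sa.ph_id,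
      h.sa.ph_const])
  rw [sub_mul, smul_mul_assoc, h1, sub_eq_zero] at h3
  have h4 := hz.tau
  rw [hl z h1 h3, map_zero] at h4
  simp only [h.int _ (hf _)] at h4
  have h5 := tendsto_integral_of_dominated_convergence (μ := μ) (fun _ => (1 : ℝ))
    (fun n => (hf n).aestronglyMeasurable) (integrable_const _) (fun n => .of_forall (hb n))
    (.of_forall ht)
  have h6 := tendsto_nhds_unique h5 h4
  rw [integral_indicator (measurableSet_singleton l)] at h6
  simpa [Measure.real, ENNReal.toReal_eq_zero_iff] using h6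

end SM

/-- Polar part of an element with trivial kernel in the corner of `e`. -/
theorem polar {y : R} (he : Pr e) (hy : y * e = y)
    (hi : ∀ z, e * z = z → star y * y * z = 0 → z = 0) :
    ∃ v s, star v * v = e ∧ v * e = v ∧ y = v * s ∧ star s = s ∧ e * s = s ∧
      (∀ A, T.IsW A → e ∈ A → y ∈ A → v ∈ A) ∧ (∀ A, T.IsW A → e ∈ A → star y * y ∈ A → s ∈ A) ∧
      ∀ a b, a * y = y * b → b * (star y * y) = star y * y * b → b * e = e * b → a * v = v * b := by
  set m := star y * y with hm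
  have sa : SA e m := ⟨he, by rw [hm, star_mul, star_star], by
    rw [hm, ← mul_assoc, ← he.st, ← star_mul, hy]⟩
  obtain ⟨μ, h⟩ := exists_sm (T := T) sa
  have nn : ∀ t : ℝ, (t : ℂ) ∈ spectrum ℂ m → 0 ≤ t := fun t ht =>
    spectrum_star_mul_self_nonneg t ((spectrum.algebraMap_mem_iff ℂ).1 ht)
  have pos : ∀ᵐ t ∂μ, 0 < t := by
    have h0 := h.atom (l := 0) fun z h1 h2 => hi z h1 (by simpa using h2)
    filter_upwards [h.supp, compl_mem_ae_iff.2 h0] with t h1 h2
    exact (nn t h1).lt_of_ne (Ne.symm h2)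
  let sq : ℝ → ℂ := fun t => (√t : ℝ)
  have csq : Continuous sq := by fun_prop
  have yy : ∀ g, Continuous g → star (y * Ph e m g) * (y * Ph e m g) =
      Ph e m fun t => conj (sq t * g t) * (sq t * g t) := fun g hg => by
    rw [star_mul, mul_assoc, ← mul_assoc (star y), ← hm, ← sa.ph_star]
    nth_rewrite 2 [← sa.ph_id]
    rw [← sa.ph_mul (by fun_prop) hg, ← sa.ph_mul (by fun_prop) (by fun_prop)]
    refine sa.ph_congr fun t ht => ?_
    have : (t : ℂ) = sq t * sq t := by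
      simp only [sq]; rw [← Complex.ofReal_mul, Real.mul_self_sqrt (nn t ht)]
    rw [map_mul, show conj (sq t) = sq t from Complex.conj_ofReal _]
    linear_combination (conj (g t) * g t) * this
  have ny : ∀ g, Continuous g → ‖T.ι (y * Ph e m g)‖ = ‖T.ι (Ph e m fun t => sq t * g t)‖ :=
    fun g hg => by
    have h1 := T.tau_sq (y * Ph e m g)
    rw [yy g hg, sa.ph_mul (by fun_prop) (by fun_prop), sa.ph_star, T.tau_sq] at h1
    exact ((sq_eq_sq₀ (norm_nonneg _) (norm_nonneg _)).1 (by exact_mod_cast h1)).symm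
  let f : ℕ → ℝ → ℂ := fun n t => ((√(|t| + 1 / (n + 1)))⁻¹ : ℝ)
  have p1 : ∀ (n : ℕ) (t : ℝ), 0 < √(|t| + 1 / (n + 1)) := fun n t => Real.sqrt_pos.2 (by positivity)
  have hf : ∀ n, Continuous (f n) := fun n =>
    Complex.continuous_ofReal.comp (Continuous.inv₀ (by fun_prop) fun t => (p1 n t).ne')
  have hb : ∀ n t, ‖sq t * f n t‖ ≤ 1 := fun n t => by
    simp only [sq, f]
    rw [← Complex.ofReal_mul, Complex.norm_real, Real.norm_of_nonneg (by positivity),
      ← div_eq_mul_inv, div_le_one (p1 n t)]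
    exact Real.sqrt_le_sqrt ((le_abs_self t).trans (le_add_of_nonneg_right (by positivity)))
  have hl : ∀ᵐ t ∂μ, Tendsto (fun n => sq t * f n t) atTop (𝓝 1) := by
    filter_upwards [pos] with t ht
    have h1 : Tendsto (fun n : ℕ => √t * (√(|t| + 1 / ((n : ℝ) + 1)))⁻¹) atTop
        (𝓝 (√t * (√(|t| + 0))⁻¹)) :=
      ((tendsto_one_div_add_atTop_nhds_zero_nat.const_add |t|).sqrt.inv₀ (by
        rw [add_zero, abs_of_pos ht]; exact (Real.sqrt_pos.2 ht).ne')).const_mul _
    rw [add_zero, abs_of_pos ht, mul_inv_cancel₀ (Real.sqrt_pos.2 ht).ne'] at h1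
    have := (Complex.continuous_ofReal.tendsto 1).comp h1
    rw [← abs_of_pos ht] at this
    simpa [Function.comp_def, sq, f, abs_of_pos ht] using this
  have cc : ∀ n, Continuous fun t => sq t * f n t := fun n => csq.mul (hf n)
  have nb : ∀ n, ‖y * Ph e m (f n)‖ ≤ 1 := fun n => by
    have h1 := CStarRing.norm_star_mul_self (x := y * Ph e m (f n))
    have h2 : ‖star (y * Ph e m (f n)) * (y * Ph e m (f n))‖ ≤ 1 := by
      rw [yy _ (hf n)]
      refine sa.ph_norm zero_le_one fun t _ => ?_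
      rw [_root_.norm_mul, Complex.norm_conj]
      exact mul_le_one₀ (hb n t) (norm_nonneg _) (hb n t)
    nlinarith [norm_nonneg (y * Ph e m (f n))]
  obtain ⟨v, hv⟩ := T.compl _ 1 nb (by
    have := h.cauchy cc (fun n t _ => hb n t) hl
    rw [Metric.cauchySeq_iff] at this ⊢
    refine fun ε hε => (this ε hε).imp fun N hN a ha b hb => ?_
    have := hN a ha b hb
    rw [dist_eq_norm, ← map_sub, ← SA.ph_sub (cc a) (cc b)] at this
    rw [dist_eq_norm, ← map_sub, ← mul_sub, ← SA.ph_sub (hf a) (hf b), ny _ ((hf a).fun_sub (hf b))]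
    simpa only [mul_sub] using this)
  replace hv : T.Lim _ v := hv
  refine ⟨v, Ph e m sq, ?_, ?_, ?_, ?_, sa.ph_l _, fun A hA h1 h2 => ?_, fun A hA h1 h2 =>
    hA.ph_mem sa h1 h2 _, fun a b h1 h2 h3 => ?_⟩
  · refine (hv.star.mul hv (C := 1) fun n => by rw [_root_.norm_star]; exact nb n).unique ?_
    simp only [yy _ (hf _)]
    have := h.approx (f := fun n t => conj (sq t * f n t) * (sq t * f n t)) (g := fun _ => 1)
      (fun n => by have := cc n; fun_prop) continuous_const (C := 1) (fun n t _ => by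
        rw [_root_.norm_mul, Complex.norm_conj]
        exact mul_le_one₀ (hb n t) (norm_nonneg _) (hb n t)) (by
        filter_upwards [hl] with t ht
        simpa using ((Complex.continuous_conj.tendsto 1).comp ht).mul ht)
    rwa [sa.ph_const, one_smul] at this
  · exact (hv.mulR e).unique (by simpa only [mul_assoc, sa.ph_r] using hv)
  · refine Lim.unique ?_ (hv.mulR _)
    have := h.approx (f := fun n t => sq t * (f n t * sq t - 1)) (g := fun _ => 0)
      (fun n => by have := hf n; fun_prop) continuous_const (C := √‖m‖ * 2) (fun n t ht => by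
        rw [_root_.norm_mul]
        refine mul_le_mul ?_ ((norm_sub_le _ _).trans ?_) (norm_nonneg _) (by positivity)
        · simp only [sq]
          rw [Complex.norm_real, Real.norm_of_nonneg (by positivity)]
          exact Real.sqrt_le_sqrt ((le_abs_self t).trans (SA.spec_le ht))
        · rw [mul_comm, norm_one]; linarith [hb n t]) (by
        filter_upwards [hl] with t ht
        simpa [mul_comm (sq t)] using (ht.sub_const 1).const_mul (sq t))
    refine this.of_le 1 fun n => le_of_eq ?_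
    rw [sa.ph_const, zero_smul, sub_zero, one_mul, ← ny _ (by have := hf n; fun_prop),
      SA.ph_sub (by have := hf n; fun_prop) (by fun_prop), sa.ph_const, one_smul, mul_sub, hy,
      sa.ph_mul (hf n) csq, mul_assoc]
  · rw [← sa.ph_star]
    exact sa.ph_congr fun t _ => Complex.conj_ofReal _
  · exact hA.lim _ (fun n => hA.mul h2 (hA.ph_mem sa h1 (hA.mul (hA.star h2) h2) _)) hv
  · refine (hv.mulL a).unique ?_
    simpa only [← mul_assoc, h1, mul_assoc y b, sa.ph_comm h2 h3] using hv.mulR b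

end TW

end Pool.Agent.Lib.MP_263241_an
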