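import Pool.Agent.Lib.MP_263241_an.VA

/-! A self-adjoint element without atoms generates the same algebra as a Haar unitary. -/

namespace Pool.Agent.Lib.MP_263241_an

open Filter Topology MeasureTheory ProbabilityTheory Set
open scoped Real ComplexConjugate

theorem continuous_cdf' (ν : Measure ℝ) [IsProbabilityMeasure ν] (h : ∀ l, ν {l} = 0) :
    Continuous (cdf ν) := by
  refine continuous_iff_continuousAt.2 fun a => continuousAt_iff_continuous_left'_right'.2
    ⟨?_, ((cdf ν).right_continuous a).mono Ioi_subset_Ici_self⟩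
  have h1 := (cdf ν).measure_singleton a
  rw [measure_cdf, h a, eq_comm, ENNReal.ofReal_eq_zero, sub_nonpos] at h1
  exact (monotone_cdf ν).continuousWithinAt_Iio_iff_leftLim_eq.2
    (le_antisymm ((monotone_cdf ν).leftLim_le le_rfl) h1)

theorem map_cdf' (ν : Measure ℝ) [IsProbabilityMeasure ν] (h : ∀ l, ν {l} = 0) :
    ν.map (cdf ν) = volume.restrict (Icc 0 1) := by
  have hc := continuous_cdf' ν h
  refine Measure.ext_of_Iic _ _ fun c => ?_
  rw [Measure.map_apply hc.measurable measurableSet_Iic, Measure.restrict_apply measurableSet_Iic]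
  rcases lt_or_ge c 0 with h0 | h0
  · rw [show cdf ν ⁻¹' Iic c = ∅ from eq_empty_of_forall_notMem fun t ht =>
      (h0.trans_le (cdf_nonneg ν t)).not_ge ht,
      show Iic c ∩ Icc 0 1 = ∅ from eq_empty_of_forall_notMem fun t ht =>
      (h0.trans_le ht.2.1).not_ge ht.1, measure_empty, measure_empty]
  rcases le_or_gt 1 c with h1 | h1
  · rw [show cdf ν ⁻¹' Iic c = univ from eq_univ_of_forall fun t => (cdf_le_one ν t).trans h1,
      inter_eq_right.2 fun t ht => ht.2.trans h1]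
    simp
  rw [show Iic c ∩ Icc 0 1 = Icc 0 c from by
    ext t; exact ⟨fun ht => ⟨ht.2.1, ht.1⟩, fun ht => ⟨ht.2, ht.1, ht.2.trans h1.le⟩⟩,
    Real.volume_Icc, sub_zero]
  rcases (cdf ν ⁻¹' Iic c).eq_empty_or_nonempty with he | hne
  · rw [he, measure_empty, eq_comm, ENNReal.ofReal_eq_zero]
    refine ge_of_tendsto' (tendsto_cdf_atBot ν) fun t => le_of_not_ge fun ht => ?_
    exact (he ▸ ht : t ∈ (∅ : Set ℝ))
  obtain ⟨b, hb⟩ := eventually_atTop.1 ((tendsto_cdf_atTop ν).eventually (lt_mem_nhds h1))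
  have bdd : BddAbove (cdf ν ⁻¹' Iic c) := ⟨b, fun t ht => le_of_not_ge fun h' => (hb t h').not_ge ht⟩
  have mem := (isClosed_Iic.preimage hc).csSup_mem hne bdd
  set s := sSup (cdf ν ⁻¹' Iic c)
  have e1 : cdf ν ⁻¹' Iic c = Iic s :=
    Subset.antisymm (fun t ht => le_csSup bdd ht) fun t ht => (monotone_cdf ν ht).trans mem
  have e2 : c ≤ cdf ν s := by
    refine ge_of_tendsto (hc.continuousWithinAt (s := Ioi s) (x := s)) ?_
    filter_upwards [self_mem_nhdsWithin] with t ht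
    exact le_of_not_ge fun h' => (show s < t from ht).not_ge (le_csSup bdd h')
  rw [e1, ← ofReal_cdf, le_antisymm (show cdf ν s ≤ c from mem) e2]

theorem arccos_formula {F : ℝ} (h0 : 0 < F) (h1 : F < 1) :
    Tendsto (fun n : ℕ => 1 / 2 + n * Real.sin (2 * π * F) / (1 + n * |Real.sin (2 * π * F)|) *
      (Real.arccos (Real.cos (2 * π * F)) / (2 * π) - 1 / 2)) atTop (𝓝 F) := by
  have hp := Real.pi_pos
  have lim : ∀ s : ℝ, 0 < s → Tendsto (fun n : ℕ => n * s / (1 + n * s)) atTop (𝓝 1) := by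
    intro s hs
    have h2 : Tendsto (fun n : ℕ => 1 - (1 + n * s)⁻¹) atTop (𝓝 (1 - 0)) :=
      (Tendsto.inv_tendsto_atTop (tendsto_atTop_add_const_left _ _
        (tendsto_natCast_atTop_atTop.atTop_mul_const hs))).const_sub 1
    rw [sub_zero] at h2
    refine h2.congr fun n => ?_
    have : 0 < 1 + n * s := by positivity
    field_simp; ring
  rcases lt_trichotomy F (1 / 2) with h | h | h
  · have hs : 0 < Real.sin (2 * π * F) := Real.sin_pos_of_pos_of_lt_pi (by positivity) (by nlinarith)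
    rw [Real.arccos_cos (by positivity) (by nlinarith), abs_of_pos hs]
    have := ((lim _ hs).mul_const (2 * π * F / (2 * π) - 1 / 2)).const_add (1 / 2)
    convert this using 2
    field_simp; ring
  · rw [h, show 2 * π * (1 / 2) = π by ring]
    simp
  · have hs : 0 < Real.sin (2 * π - 2 * π * F) :=
      Real.sin_pos_of_pos_of_lt_pi (by nlinarith) (by nlinarith)
    rw [← Real.cos_two_pi_sub, Real.arccos_cos (by nlinarith) (by nlinarith)]
    rw [Real.sin_two_pi_sub] at hs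
    rw [abs_of_neg (by linarith)]
    have := ((lim _ hs).neg.mul_const ((2 * π - 2 * π * F) / (2 * π) - 1 / 2)).const_add (1 / 2)
    convert this using 2
    · ring
    · field_simp; ring

/-- Lipschitz approximations of the quantile function. -/
theorem exists_quantile {F : ℝ → ℝ} (hm : Monotone F) (K : ℝ) (hK : 0 ≤ K) :
    ∃ g : ℕ → ℝ → ℝ, (∀ n, Continuous (g n)) ∧ (∀ n t, |t| ≤ K → |g n (F t)| ≤ K) ∧
      ∀ t, |t| ≤ K → (∀ s < t, F s < F t) → Tendsto (fun n => g n (F t)) atTop (𝓝 t) := by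
  have : Nonempty (Icc (-K) K) := ⟨⟨0, by linarith, hK⟩⟩
  let g : ℕ → ℝ → ℝ := fun n c => ⨅ s : Icc (-K) K, (s + n * max 0 (c - F s))
  have lb : ∀ (n : ℕ) c (s : Icc (-K) K), -K ≤ s + n * max 0 (c - F s) := fun n c s =>
    s.2.1.trans (le_add_of_nonneg_right (by positivity))
  have bd : ∀ (n : ℕ) c, BddBelow (range fun s : Icc (-K) K => (s : ℝ) + n * max 0 (c - F s)) :=
    fun n c => ⟨-K, by rintro _ ⟨s, rfl⟩; exact lb n c s⟩
  have up : ∀ n t, |t| ≤ K → g n (F t) ≤ t := fun n t ht =>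
    (ciInf_le (bd n _) ⟨t, abs_le.1 ht⟩).trans (by simp)
  refine ⟨g, fun n => (LipschitzWith.of_le_add_mul n fun c c' => ?_).continuous,
    fun n t ht => abs_le.2 ⟨le_ciInf (lb n _), (up n t ht).trans (abs_le.1 ht).2⟩,
    fun t ht hs => ?_⟩
  · rw [← sub_le_iff_le_add]
    refine le_ciInf fun s => ?_
    have h1 : g n c ≤ s + n * max 0 (c - F s) := ciInf_le (bd n c) s
    have h2 : max 0 (c - F s) ≤ max 0 (c' - F s) + dist c c' := by
      rw [Real.dist_eq]
      refine max_le (by positivity) ?_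
      linarith [le_max_right 0 (c' - F s), le_abs_self (c - c')]
    have h3 := mul_le_mul_of_nonneg_left h2 (Nat.cast_nonneg (α := ℝ) n)
    simp only [NNReal.coe_natCast]
    linarith
  · refine tendsto_order.2 ⟨fun a ha => ?_, fun a ha => .of_forall fun n => (up n t ht).trans_lt ha⟩
    obtain ⟨b, hb1, hb2⟩ := exists_between ha
    have hd := sub_pos.2 (hs b hb2)
    filter_upwards [(tendsto_natCast_atTop_atTop.atTop_mul_const hd).eventually_ge_atTop (b + K)]
      with n hn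
    refine hb1.trans_le (le_ciInf fun s => ?_)
    rcases le_total b s with h | h
    · exact h.trans (le_add_of_nonneg_right (by positivity))
    · have h2 : F t - F b ≤ max 0 (F t - F s) := le_max_of_le_right (by linarith [hm h])
      have h3 := mul_le_mul_of_nonneg_left h2 (Nat.cast_nonneg (α := ℝ) n)
      linarith [s.2.1]

variable {R H : Type*} [CStarAlgebra R] [NormedAddCommGroup H] [InnerProductSpace ℂ H]

namespace TW

variable {T : TW R H} {e x : R}

theorem haarify (sa : SA e x) (ht : T.tau e ≠ 0)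
    (hi : ∀ (l : ℝ) z, e * z = z → x * z = (l : ℂ) • z → z = 0) :
    ∃ u, e * u = u ∧ star u * u = e ∧ u * star u = e ∧ (∀ n : ℕ, T.tau (u ^ (n + 1)) = 0) ∧
      T.gen {e, u} = T.gen {e, x} := by
  obtain ⟨μ, h⟩ := exists_sm (T := T) sa
  have := h.fin
  have m0 : μ univ ≠ 0 := fun h0 => ht (by
    have := h.int (fun _ => 1) continuous_const
    rw [sa.ph_const, one_smul] at this
    simp [this, Measure.real, h0])
  set ν := (μ univ)⁻¹ • μ with hν
  have : IsProbabilityMeasure ν := ⟨by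
    rw [hν, Measure.smul_apply, smul_eq_mul, ENNReal.inv_mul_cancel m0 (measure_ne_top _ _)]⟩
  have na : ∀ l, ν {l} = 0 := fun l => by
    rw [hν, Measure.smul_apply, h.atom (hi l), smul_zero]
  have hae : ∀ {p : ℝ → Prop}, (∀ᵐ t ∂ν, p t) → ∀ᵐ t ∂μ, p t := fun hp =>
    by
      rw [ae_iff, hν, Measure.smul_apply, smul_eq_mul, mul_eq_zero] at hp
      exact ae_iff.2 (hp.resolve_left (ENNReal.inv_ne_zero.2 (measure_ne_top _ _)))
  have hc := continuous_cdf' ν na
  have hm := map_cdf' ν na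
  have lev : ∀ c, ∀ᵐ t ∂μ, cdf ν t ≠ c := fun c => hae (by
    have : ν.map (cdf ν) {c} = 0 := by rw [hm]; exact measure_singleton c
    rw [Measure.map_apply hc.measurable (measurableSet_singleton c)] at this
    exact compl_mem_ae_iff.2 this)
  let E : ℝ → ℂ := fun t => Complex.exp (((2 * π * cdf ν t : ℝ) : ℂ) * Complex.I)
  have hE : Continuous E := by fun_prop
  have E1 : ∀ t, conj (E t) * E t = 1 := fun t => by
    rw [Complex.conj_mul', Complex.norm_exp_ofReal_mul_I]; simp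
  have pw : ∀ n : ℕ, Ph e x E ^ (n + 1) = Ph e x fun t => E t ^ (n + 1) := fun n => by
    induction n with
    | zero => simp
    | succ n ih =>
      rw [pow_succ, ih, ← sa.ph_mul (by fun_prop) hE]
      simp only [← pow_succ]
  refine ⟨Ph e x E, sa.ph_l _, ?_, ?_, fun n => ?_, Subset.antisymm ?_ ?_⟩
  · rw [← sa.ph_star, ← sa.ph_mul (by fun_prop) hE]
    simp only [E1, sa.ph_const, one_smul]
  · rw [← sa.ph_star, ← sa.ph_mul hE (by fun_prop)]
    simp only [mul_comm (E _), E1, sa.ph_const, one_smul]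
  · rw [pw, h.int _ (by fun_prop)]
    set c : ℂ := ((n + 1 : ℕ) : ℂ) * (2 * π * Complex.I) with hc'
    have c0 : c ≠ 0 := mul_ne_zero (Nat.cast_ne_zero.2 n.succ_ne_zero) Complex.two_pi_I_ne_zero
    have h1 : ∫ t, Complex.exp (c * (cdf ν t : ℝ)) ∂ν = 0 := by
      rw [← integral_map (f := fun s : ℝ => Complex.exp (c * s)) hc.aemeasurable
        (by fun_prop : Continuous _).aestronglyMeasurable, hm, integral_Icc_eq_integral_Ioc,
        ← intervalIntegral.integral_of_le zero_le_one, integral_exp_mul_complex c0]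
      simp only [Complex.ofReal_one, mul_one, Complex.ofReal_zero, mul_zero, Complex.exp_zero]
      rw [hc', Complex.exp_nat_mul_two_pi_mul_I, sub_self, zero_div]
    rw [hν, integral_smul_measure, ← hν, smul_eq_zero] at h1
    rcases h1 with h1 | h1
    · simp [ENNReal.toReal_eq_zero_iff, m0] at h1
    · rw [← h1]
      refine integral_congr_ae (.of_forall fun t => ?_)
      simp only [E]
      rw [← Complex.exp_nat_mul, hc']
      congr 1
      push_cast; ring
  · refine (gen_w _).gen_le ?_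
    rintro s (rfl | rfl)
    · exact sub_gen (.inl rfl)
    · exact (gen_w _).ph_mem sa (sub_gen (.inl rfl)) (sub_gen (.inr rfl)) _
  refine (gen_w _).gen_le ?_
  have W := gen_w (T := T) {e, Ph e x E}
  have eW : e ∈ T.gen {e, Ph e x E} := sub_gen (.inl rfl)
  rintro s (rfl | rfl)
  · exact eW
  have h1 : Ph e s (fun t => (cdf ν t : ℝ)) ∈ T.gen {e, Ph e s E} := by
    let ψ : ℕ → ℂ → ℂ := fun n z => ((1 / 2 + n * z.im / (1 + n * |z.im|) *
      (Real.arccos z.re / (2 * π) - 1 / 2) : ℝ) : ℂ)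
    have hψ : ∀ n, Continuous (ψ n) := fun n => by
      refine Complex.continuous_ofReal.comp (continuous_const.add (Continuous.mul
        (Continuous.div (by fun_prop) (by fun_prop) fun z => by positivity) ?_))
      exact ((Real.continuous_arccos.comp Complex.continuous_re).div_const _).sub continuous_const
    refine W.lim _ (fun n => W.ph_comp sa eW hE (sub_gen (.inr rfl)) (hψ n))
      (h.approx (fun n => (hψ n).comp hE) (by fun_prop) (C := 1) (fun n t _ => ?_) ?_)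
    · rw [Complex.norm_real, Real.norm_eq_abs]
      have a1 : |n * (E t).im / (1 + n * |(E t).im|)| ≤ 1 := by
        rw [abs_div, abs_mul, Nat.abs_cast, abs_of_pos (a := 1 + _) (by positivity),
          div_le_one (by positivity)]
        linarith
      have a2 : |Real.arccos (E t).re / (2 * π) - 1 / 2| ≤ 1 / 2 := by
        have b1 : 0 ≤ Real.arccos (E t).re / (2 * π) :=
          div_nonneg (Real.arccos_nonneg _) (by positivity)
        have b2 : Real.arccos (E t).re / (2 * π) ≤ 1 := by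
          rw [div_le_one (by positivity)]; linarith [Real.arccos_le_pi (E t).re, Real.pi_pos]
        rw [abs_le]; constructor <;> linarith
      refine (abs_add_le _ _).trans ?_
      rw [abs_mul, abs_of_pos (a := 1 / 2) (by norm_num)]
      nlinarith [abs_nonneg (n * (E t).im / (1 + n * |(E t).im|)),
        abs_nonneg (Real.arccos (E t).re / (2 * π) - 1 / 2)]
    · filter_upwards [lev 0, lev 1] with t h0 h1
      refine (Complex.continuous_ofReal.tendsto _).comp ?_
      simp only [E, Complex.exp_ofReal_mul_I_re, Complex.exp_ofReal_mul_I_im]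
      exact arccos_formula ((cdf_nonneg ν t).lt_of_ne h0.symm) ((cdf_le_one ν t).lt_of_ne h1)
  obtain ⟨g, g1, g2, g3⟩ := exists_quantile (monotone_cdf ν) ‖s‖ (norm_nonneg _)
  have h2 := h.approx (f := fun n t => (g n (cdf ν t) : ℝ)) (g := fun t => (t : ℂ))
    (fun n => by have := g1 n; fun_prop) (by fun_prop) (C := ‖s‖) (fun n t ht => by
      rw [Complex.norm_real]; exact g2 n t (SA.spec_le ht)) (by
      filter_upwards [h.supp, ae_all_iff.2 fun q : ℚ => lev (cdf ν q)] with t h1 h2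
      refine (Complex.continuous_ofReal.tendsto _).comp (g3 t (SA.spec_le h1) fun a ha => ?_)
      obtain ⟨q, q1, q2⟩ := exists_rat_btwn ha
      exact (monotone_cdf ν q1.le).trans_lt ((monotone_cdf ν q2.le).lt_of_ne (h2 q).symm))
  rw [sa.ph_id] at h2
  refine W.lim _ (fun n => ?_) h2
  exact W.ph_comp sa eW (by fun_prop) h1 (F := fun z => (g n z.re : ℝ)) (by have := g1 n; fun_prop)

end TW

end Pool.Agent.Lib.MP_263241_an

/-! Two free projections. -/

namespace Pool.Agent.Lib.MP_263241_an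

set_option linter.unusedSimpArgs false

open Filter Topology
open scoped InnerProductSpace ComplexConjugate

theorem cheb_not_tendsto {a : ℕ → ℂ} {t : ℂ} (h0 : a 0 = 2) (h1 : a 1 = t)
    (hr : ∀ n, a (n + 2) = t * a (n + 1) - a n) (hl : Tendsto a atTop (𝓝 0)) : False := by
  have hI : ∀ n, a n ^ 2 + a (n + 1) ^ 2 - t * a n * a (n + 1) = 4 - t ^ 2 := fun n => by
    induction n with
    | zero => rw [h0, zero_add, h1]; ring
    | succ n ih => rw [hr, ← ih]; ring
  have hl1 := hl.comp (tendsto_add_atTop_nat 1)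
  have h2 := ((hl.pow 2).add (hl1.pow 2)).sub ((hl.const_mul t).mul hl1)
  simp only [Function.comp_def, hI] at h2
  have h3 : 4 - t ^ 2 = 0 := by simpa using tendsto_nhds_unique tendsto_const_nhds h2
  have h4 : ∀ n, a n = 2 * (t / 2) ^ n ∧ a (n + 1) = 2 * (t / 2) ^ (n + 1) := fun n => by
    induction n with
    | zero => exact ⟨by rw [h0]; ring, by rw [zero_add, h1]; ring⟩
    | succ n ih =>
      refine ⟨ih.2, ?_⟩
      rw [hr, ih.1, ih.2]
      linear_combination (-(t / 2) ^ n / 2) * h3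
  have h5 : ‖t / 2‖ = 1 := by
    have : ‖t / 2‖ ^ 2 = 1 := by
      rw [← norm_pow, show (t / 2) ^ 2 = 1 by linear_combination (-1 / 4) * h3, norm_one]
    exact (pow_eq_one_iff_of_nonneg (norm_nonneg _) two_ne_zero).1 this
  have h6 := hl.norm
  simp only [(h4 _).1, norm_mul, norm_pow, h5, one_pow, mul_one, norm_zero] at h6
  simpa using tendsto_nhds_unique tendsto_const_nhds h6

variable {R H : Type*} [CStarAlgebra R] [NormedAddCommGroup H] [InnerProductSpace ℂ H]

theorem pr_range {v e : R} (h1 : star v * v = e) (h2 : v * e = v) : Pr (v * star v) :=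
  ⟨by rw [star_mul, star_star], by rw [mul_assoc, ← mul_assoc (star v), h1, ← mul_assoc, h2]⟩

namespace TW

variable {T : TW R H} {p e f : R}

theorem bessel {a b : R} {a1 a2 b1 b2 : ℂ} {s : ℝ} (hp : Pr p) (ht : T.tau p ≠ 0)
    (sa : star a = a) (sb : star b = b) (pa : p * a = a) (pb : p * b = b)
    (aa : a * a = a1 • a + a2 • p) (bb : b * b = b1 • b + b2 • p) (hs : a2 * b2 = (s : ℂ) ^ 2)
    (s0 : 0 < s) (hZ : T.Z {a} {b}) (y : R) :
    Tendsto (fun n => ((s : ℂ)⁻¹) ^ n * T.tau (y * ((a * b) ^ n * p))) atTop (𝓝 0) := by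
  have ap : a * p = a := by rw [← sa, ← hp.st, ← star_mul, pa]
  have bp : b * p = b := by rw [← sb, ← hp.st, ← star_mul, pb]
  have A1 : ∀ (m : ℕ) w, Alt {a} {b} false w → Alt {a} {b} false ((b * a) ^ m * w) := by
    intro m w hw
    induction m with
    | zero => simpa using hw
    | succ m ih => rw [pow_succ', mul_assoc, mul_assoc]; exact .yc rfl (.xc rfl ih)
  have A2 : ∀ n : ℕ, Alt {a} {b} false (b * ((a * b) ^ n * p)) := by
    intro n
    induction n with
    | zero => rw [pow_zero, one_mul, bp]; exact .y1 rfl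
    | succ n ih => rw [pow_succ', mul_assoc, mul_assoc]; exact .yc rfl (.xc rfl ih)
  have P : ∀ n : ℕ, p * ((a * b) ^ n * p) = (a * b) ^ n * p := by
    rintro (_ | n)
    · simp [hp.sq]
    · rw [pow_succ', mul_assoc, mul_assoc, ← mul_assoc p, pa]
  have J : ∀ m n : ℕ, T.tau ((b * a) ^ m * ((a * b) ^ n * p)) =
      if m = n then ((s : ℂ) ^ 2) ^ m * T.tau p else 0 := by
    intro m
    induction m with
    | zero =>
      rintro (_ | n)
      · simp
      · rw [pow_zero, one_mul, pow_succ', mul_assoc, mul_assoc, hZ _ _ (.xc rfl (A2 n))]; simp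
    | succ m ih =>
      rintro (_ | n)
      · rw [pow_zero, one_mul, pow_succ, mul_assoc, mul_assoc, ap,
          hZ _ _ (A1 m _ (.yc rfl (.x1 rfl)))]; simp
      · rw [pow_succ, pow_succ' (a * b)]
        simp only [mul_assoc]
        rw [← mul_assoc a a, aa, add_mul, smul_mul_assoc, smul_mul_assoc, ← mul_assoc p, pb, mul_add,
          mul_smul_comm, mul_smul_comm, ← mul_assoc b b, bb, add_mul, smul_mul_assoc, smul_mul_assoc,
          P]
        simp only [mul_add, mul_smul_comm, map_add, map_smul, smul_add]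
        rw [hZ _ _ (A1 m _ (.yc rfl (.xc rfl (A2 n)))), hZ _ _ (A1 m _ (A2 n)), ih]
        simp only [smul_eq_mul, mul_zero, zero_add, add_left_inj, ← mul_assoc, hs]
        split_ifs
        · ring
        · simp
  have s1 : (s : ℂ) ≠ 0 := Complex.ofReal_ne_zero.2 s0.ne'
  have n1 : ((‖T.ι p‖ : ℝ) : ℂ) ≠ 0 := fun h => ht (by rw [T.tau_pr hp]; push_cast; simp [h])
  have O : Orthonormal ℂ fun n : ℕ =>
      (((s : ℂ)⁻¹) ^ n * ((‖T.ι p‖ : ℝ) : ℂ)⁻¹) • T.ι ((a * b) ^ n * p) := by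
    refine orthonormal_iff_ite.2 fun m n => ?_
    rw [inner_smul_left, inner_smul_right, T.inner_tau, star_mul, star_pow, star_mul, sa, sb, hp.st,
      mul_assoc p, T.tau_comm p, mul_assoc ((b * a) ^ m), mul_assoc _ p, hp.sq, J]
    split_ifs with h
    · subst h
      rw [T.tau_pr hp]
      simp only [map_mul, map_pow, map_inv₀, Complex.conj_ofReal]
      push_cast
      field_simp
      rw [one_div, ← pow_mul, ← pow_mul, mul_comm 2 m, ← mul_pow, inv_mul_cancel₀ s1, one_pow]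
    · simp
  have h1 := (O.inner_products_summable (T.ι (star y))).tendsto_atTop_zero.sqrt
  simp only [Real.sqrt_sq (norm_nonneg _), Real.sqrt_zero] at h1
  have h2 := (tendsto_zero_iff_norm_tendsto_zero.2 (h1.congr fun n => norm_inner_symm _ _)).const_mul
    ((‖T.ι p‖ : ℝ) : ℂ)
  rw [mul_zero] at h2
  refine h2.congr fun n => ?_
  rw [inner_smul_right, T.inner_tau, star_star]
  field_simp

theorem no_atom {α β : ℝ} (hp : Pr p) (he : Pr e) (hf : Pr f) (pe : p * e = e) (pf : p * f = f)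
    (ht : T.tau p ≠ 0) (h0 : 0 < α) (h1 : α ≤ β) (h2 : α + β ≤ 1)
    (hZ : T.Z {e - (α : ℂ) • p} {f - (β : ℂ) • p}) (l : ℝ) (z : R) (ez : e * z = z)
    (xz : e * f * e * z = (l : ℂ) • z) : z = 0 := by
  by_contra hz
  have N1 : T.tau (star z * z) ≠ 0 := fun h => hz (T.eq_zero_of_tau h)
  have sq : ∀ {e : R} (α : ℝ), Pr e → p * e = e → (e - (α : ℂ) • p) * (e - (α : ℂ) • p) =
      (1 - 2 * α : ℂ) • (e - (α : ℂ) • p) + (α * (1 - α) : ℂ) • p := fun α he pe => by
    simp only [mul_sub, sub_mul, mul_smul_comm, smul_mul_assoc, he.sq, hp.sq, pe, hp.comm_of he pe]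
    module
  have st : ∀ {e : R} (α : ℝ), Pr e → star (e - (α : ℂ) • p) = e - (α : ℂ) • p := fun α he => by
    rw [star_sub, star_smul, he.st, hp.st, Complex.star_def, Complex.conj_ofReal]
  have k0 : 0 < α * (1 - α) * (β * (1 - β)) := by
    have : 0 < 1 - α := by linarith
    have : 0 < β := by linarith
    have : 0 < 1 - β := by linarith
    positivity
  set s := √(α * (1 - α) * (β * (1 - β))) with hs
  have s0 : 0 < s := Real.sqrt_pos.2 k0
  have s2 : s ^ 2 = α * (1 - α) * (β * (1 - β)) := Real.sq_sqrt k0.le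
  have s2' : (α * (1 - α) : ℂ) * (β * (1 - β)) = (s : ℂ) ^ 2 := by exact_mod_cast s2.symm
  have s1 : (s : ℂ) ≠ 0 := Complex.ofReal_ne_zero.2 s0.ne'
  have B := bessel hp ht (st α he) (st β hf) (by rw [mul_sub, mul_smul_comm, pe, hp.sq])
    (by rw [mul_sub, mul_smul_comm, pf, hp.sq]) (sq α he pe) (sq β hf pf) s2' s0 hZ
  set g := (e - (α : ℂ) • p) * (f - (β : ℂ) • p) with hg
  have B' : ∀ z, p * z = z →
      Tendsto (fun n => ((s : ℂ)⁻¹) ^ n * T.tau (star z * (g ^ n * z))) atTop (𝓝 0) := fun z pz =>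
    (B (z * star z)).congr fun n => by
      rw [mul_assoc z, T.tau_comm z, mul_assoc (star z), mul_assoc (g ^ n), pz]
  have pz : p * z = z := by rw [← ez, ← mul_assoc, pe]
  set w := (p - e) * (f * z) with hw
  have pw : p * w = w := by rw [hw, ← mul_assoc, mul_sub, hp.sq, pe]
  have ew : e * w = 0 := by rw [hw, ← mul_assoc, mul_sub, he.sq, hp.comm_of he pe, sub_self, zero_mul]
  have fz : f * z = (l : ℂ) • z + w := by
    rw [hw, ← xz, mul_assoc, ez, sub_mul, ← mul_assoc p, pf, mul_assoc]; abel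
  have fw : f * w = (1 - l : ℂ) • ((l : ℂ) • z + w) := by
    rw [eq_sub_of_add_eq' fz.symm, mul_sub, hf.l, mul_smul_comm, add_sub_cancel]; module
  have zw : star z * w = 0 := by rw [← ez, star_mul, he.st, mul_assoc, ew, mul_zero]
  have wz : star w * z = 0 := by rw [← star_star z, ← star_mul, zw, star_zero]
  have ww : star w * w = ((1 - l) * l : ℂ) • (star z * z) := by
    nth_rewrite 1 [hw]
    rw [star_mul, star_mul, star_sub, hp.st, he.st, hf.st, mul_assoc, sub_mul, pw, ew, sub_zero,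
      mul_assoc, fw, mul_smul_comm, mul_add, zw, add_zero, mul_smul_comm, smul_smul]
  have gz : g * z = ((l - β) * (1 - α) : ℂ) • z - (α : ℂ) • w := by
    simp only [hg, mul_assoc, sub_mul, mul_sub, smul_mul_assoc, mul_smul_comm, pz, fz, mul_add, ez,
      ew, pw]
    module
  have gw : g * w = ((1 - α) * (1 - l) * l : ℂ) • z - (α * (1 - l - β) : ℂ) • w := by
    simp only [hg, mul_assoc, sub_mul, mul_sub, smul_mul_assoc, mul_smul_comm, pz, fw, mul_add, ez,
      ew, pw]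
    module
  by_cases hl : (1 - l) * l = 0
  · have w0 : w = 0 := T.eq_zero_of_tau (by
      rw [ww, show ((1 - l) * l : ℂ) = 0 by exact_mod_cast hl, zero_smul, map_zero])
    rw [w0, smul_zero, sub_zero] at gz
    have gn : ∀ n : ℕ, g ^ n * z = ((l - β) * (1 - α) : ℂ) ^ n • z := fun n => by
      induction n with
      | zero => simp
      | succ n ih => rw [pow_succ, mul_assoc, gz, mul_smul_comm, ih, smul_smul, pow_succ']
    have h3 := (B' z pz).norm
    have h4 : 1 ≤ ‖(s : ℂ)⁻¹ * ((l - β) * (1 - α))‖ := by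
      rw [show (s : ℂ)⁻¹ * ((l - β) * (1 - α)) = ((s⁻¹ * ((l - β) * (1 - α)) : ℝ) : ℂ) by push_cast; rfl,
        Complex.norm_real, Real.norm_eq_abs, abs_mul, abs_of_pos (inv_pos.2 s0), ← div_eq_inv_mul,
        one_le_div s0]
      refine le_of_sq_le_sq ?_ (abs_nonneg _)
      rw [s2, sq_abs]
      have a1 : 0 < 1 - α := by linarith
      have a2 : 0 < β := by linarith
      have a3 : 0 < 1 - β := by linarith
      rcases mul_eq_zero.1 hl with h | h
      · rw [show l = 1 by linarith]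
        nlinarith [mul_nonneg (mul_pos a1 a3).le (sub_nonneg.2 h2)]
      · rw [h]
        nlinarith [mul_nonneg (mul_pos a1 a2).le (sub_nonneg.2 h1)]
    refine N1 (norm_le_zero_iff.1 ?_)
    rw [norm_zero] at h3
    refine ge_of_tendsto' h3 fun n => ?_
    rw [gn, mul_smul_comm, map_smul, smul_eq_mul, ← mul_assoc, ← mul_pow, _root_.norm_mul, norm_pow]
    exact le_mul_of_one_le_left (norm_nonneg _) (one_le_pow₀ h4)
  have hl' : ((1 - l) * l : ℂ) ≠ 0 := by exact_mod_cast hl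
  have N2 : T.tau (star w * w) ≠ 0 := by rw [ww, map_smul]; exact mul_ne_zero hl' N1
  set t : ℂ := (l - β) * (1 - α) - α * (1 - l - β) with htt
  have ch : ∀ u, g * (g * u) = t • (g * u) - (s : ℂ) ^ 2 • u → ∀ n : ℕ, T.tau (star u * (g ^ (n + 2) * u)) =
      t * T.tau (star u * (g ^ (n + 1) * u)) - s ^ 2 * T.tau (star u * (g ^ n * u)) := fun u hu n => by
    rw [pow_succ, pow_succ, mul_assoc (g ^ n * g), mul_assoc (g ^ n), hu]
    simp only [mul_sub, mul_smul_comm, map_sub, map_smul, smul_eq_mul, mul_assoc]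
  have c1 := ch z (by rw [gz, mul_sub, mul_smul_comm, mul_smul_comm, gz, gw, ← s2', htt]; module)
  have c2 := ch w (by rw [gw, mul_sub, mul_smul_comm, mul_smul_comm, gz, gw, ← s2', htt]; module)
  refine cheb_not_tendsto (t := t / s) ?_ ?_ (fun n => ?_) (by
    simpa using ((B' z pz).div_const (T.tau (star z * z))).add
      ((B' w pw).div_const (T.tau (star w * w))))
  · simp only [pow_zero, inv_one, one_mul]
    rw [div_self N1, div_self N2]; norm_num
  · simp only [pow_one, gz, gw, mul_sub, mul_smul_comm, zw, wz, map_sub, map_smul, smul_eq_mul,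
      smul_zero, map_zero, htt]
    field_simp
    ring
  · simp only [c1, c2]
    field_simp
    ring

variable (T) in
/-- A Haar unitary of the corner of `e`. -/
structure Haar (e u : R) : Prop where
  l : e * u = u
  su : star u * u = e
  us : u * star u = e
  tau : ∀ n : ℕ, T.tau (u ^ (n + 1)) = 0

theorem polar_range {N : Set R} (hN : T.IsW N) {y q : R} (he : Pr e) (hq : Pr q) (eN : e ∈ N)
    (yN : y ∈ N) (hy : y * e = y) (qy : q * y = y) (ht : T.tau q = T.tau e)
    (hi : ∀ z, e * z = z → star y * y * z = 0 → z = 0) :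
    ∃ t ∈ N, star t * t = e ∧ t * star t = q := by
  obtain ⟨t, -, h1, h2, -, -, -, h3, -, h4⟩ := polar (T := T) he hy hi
  refine ⟨t, h3 N hN eN yN, h1, (T.pr_eq hq (pr_range h1 h2) ?_ ?_).symm⟩
  · rw [← mul_assoc, h4 q e (by rw [qy, hy]) (by
      rw [mul_assoc, hy, ← mul_assoc, ← he.st, ← star_mul, hy]) rfl, h2]
  · rw [T.tau_comm, h1, ht]

theorem tp {α β : ℝ} {N : Set R} (hp : Pr p) (he : Pr e) (hf : Pr f) (pe : p * e = e)
    (pf : p * f = f) (ht : T.tau p ≠ 0) (h0 : 0 < α) (h1 : α ≤ β) (h2 : α + β ≤ 1)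
    (hα : T.tau e = α * T.tau p) (hZ : T.Z {e - (α : ℂ) • p} {f - (β : ℂ) • p}) (hN : T.IsW N)
    (eN : e ∈ N) (fN : f ∈ N) (pN : p ∈ N) (hG : N ⊆ T.gen {e, f, p}) :
    ∃ q r1 r2 : R, Pr q ∧ Pr r1 ∧ Pr r2 ∧ p - e = q + r1 + r2 ∧ e * q = 0 ∧ e * r1 = 0 ∧
      e * r2 = 0 ∧ q * r1 = 0 ∧ q * r2 = 0 ∧ r1 * r2 = 0 ∧ T.tau q = T.tau e ∧
      T.tau r1 = T.tau f - T.tau e ∧ f * r2 = 0 ∧ r1 ∈ N ∧ r2 ∈ N ∧
      (∃ v ∈ N, star v * v = e ∧ v * star v = q) ∧
      (∃ v ∈ N, star v * v = e ∧ v * star v = f - r1) ∧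
      (∃ v ∈ N, star v * v = e ∧ v * star v = p - f - r2) ∧
      T.gen {e, e * f * e} = cor e N ∧ (∃ u, T.Haar e u ∧ T.gen {e, u} = cor e N) ∧
      ∀ n ∈ cor (p - e) N, n - q * n * q ∈ T.cls {r1, r2} := by
  have na := no_atom hp he hf pe pf ht h0 h1 h2 hZ
  have ep := hp.comm_of he pe
  have fp := hp.comm_of hf pf
  have hpe := hp.sub he pe
  obtain ⟨x, hx⟩ : ∃ x, x = e * f * e := ⟨_, rfl⟩
  rw [← hx] at na ⊢
  have sa : SA e x := ⟨he, by simp only [hx, star_mul, he.st, hf.st, mul_assoc], by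
    simp only [hx, mul_assoc, he.l]⟩
  have i0 : ∀ z, e * z = z → x * z = 0 → z = 0 := fun z h1 h2 => na 0 z h1 (by simpa using h2)
  have i1 : ∀ z, e * z = z → (e - x) * z = 0 → z = 0 := fun z h1 h2 => na 1 z h1 (by
    rw [sub_mul, h1, sub_eq_zero] at h2; simpa using h2.symm)
  obtain ⟨y, hy⟩ : ∃ y, y = (p - e) * f * e := ⟨_, rfl⟩
  have ye : y * e = y := by rw [hy, mul_assoc, he.sq]
  have yy : star y * y = x * (e - x) := by
    simp only [hy, hx, star_mul, star_sub, he.st, hf.st, hp.st, mul_sub, sub_mul, mul_assoc, he.l,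
      hf.l, he.sq, hp.l, ← mul_assoc p e, ← mul_assoc e p, ← mul_assoc p f, pe, ep, pf]
    abel
  obtain ⟨v, s, v1, v2, ys, s1, s2, vN, sN, vi⟩ := polar (T := T) he ye fun z h1 h2 =>
    i1 z h1 (i0 _ (by rw [← mul_assoc, mul_sub, he.sq, sa.l]) (by rw [← mul_assoc, ← yy, h2]))
  replace vN := vN N hN eN (hy ▸ hN.mul (hN.mul (hN.sub pN eN) fN) eN)
  have X := gen_w (T := T) {e, x}
  have eX : e ∈ T.gen {e, x} := sub_gen (.inl rfl)
  have xX : x ∈ T.gen {e, x} := sub_gen (.inr rfl)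
  replace sN := sN _ X eX (by rw [yy]; exact X.mul xX (X.sub eX xX))
  have pv : (p - e) * v = v := by
    rw [vi (p - e) e (by rw [ye, hy, ← mul_assoc, ← mul_assoc, hpe.sq]) (by
      rw [yy, ← mul_assoc, sa.l, mul_assoc, sub_mul, he.sq, sa.r]) rfl, v2]
  have ev : e * v = 0 := by rw [← pv, ← mul_assoc, mul_sub, ep, he.sq, sub_self, zero_mul]
  have pv' : p * v = v := by rwa [sub_mul, ev, sub_zero] at pv
  have ve : star v * e = 0 := by rw [← he.st, ← star_mul, ev, star_zero]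
  have vp : star v * p = star v := by rw [← hp.st, ← star_mul, pv']
  have evs : e * star v = star v := by rw [← he.st, ← star_mul, v2]
  have zv : (p - e) * f * (p - e) * v = v * (e - x) := vi _ _ (by
      simp only [hy, hx, mul_sub, sub_mul, mul_assoc, he.l, hf.l, he.sq, hp.l, ← mul_assoc p e,
        ← mul_assoc e p, ← mul_assoc p f, pe, ep, pf]
      abel) (by rw [yy]; simp only [mul_sub, sub_mul, mul_assoc, sa.l, sa.r, he.sq, he.l,
        ← mul_assoc e x]) (by rw [mul_sub, sub_mul, sa.l, sa.r])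
  have fe : f * e = x + v * s := by rw [← ys, hy, hx, sub_mul, sub_mul, pf]; abel
  have fv : f * v = s + v * (e - x) := by
    have h3 : e * f * v = s := by
      have := congrArg star ys
      rw [hy, star_mul, star_mul, star_mul, he.st, hf.st, hpe.st, s1, ← mul_assoc] at this
      rw [← pv, ← mul_assoc, this, mul_assoc, v1, ← s1, ← he.st, ← star_mul, s2]
    rw [← zv, mul_assoc _ (p - e), pv, ← h3, sub_mul, pf, sub_mul]; abel
  have ef : e * f = x + s * star v := by
    have := congrArg star fe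
    rwa [star_mul, star_add, star_mul, he.st, hf.st, sa.st, s1] at this
  have vf : star v * f = s + (e - x) * star v := by
    have := congrArg star fv
    rwa [star_mul, star_add, star_mul, star_sub, he.st, hf.st, sa.st, s1] at this
  obtain ⟨q, hq⟩ : ∃ q, q = v * star v := ⟨_, rfl⟩
  have Pq : Pr q := hq ▸ pr_range v1 v2
  have pq : (p - e) * q = q := by rw [hq, ← mul_assoc, pv]
  have eq0 : e * q = 0 := by rw [hq, ← mul_assoc, ev, zero_mul]
  obtain ⟨r, hr⟩ : ∃ r, r = p - e - q := ⟨_, rfl⟩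
  have Pr' : Pr r := hr ▸ hpe.sub Pq pq
  have re : r * e = 0 := by rw [hr, sub_mul, sub_mul, pe, he.sq, he.orth Pq eq0]; simp
  have rp : r * p = r := by rw [hr, sub_mul, sub_mul, hp.sq, ep, hq, mul_assoc, vp]
  have rv : r * v = 0 := by rw [hr, sub_mul, pv, hq, mul_assoc, v1, v2, sub_self]
  have rq : r * q = 0 := by rw [hq, ← mul_assoc, rv, zero_mul]
  have rx : r * x = 0 := by rw [← sa.l, ← mul_assoc, re, zero_mul]
  have rs : r * s = 0 := by rw [← s2, ← mul_assoc, re, zero_mul]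
  have rf : r * f = r * f * r := by
    nth_rewrite 3 [hr]
    rw [hq, mul_sub, mul_sub, mul_assoc r f p, fp, mul_assoc r f e, fe, ← mul_assoc _ v,
      mul_assoc r f v, fv, mul_add, mul_add, rx, rs, ← mul_assoc, ← mul_assoc, rv]
    simp
  have fr : f * r = r * f := by
    have := congrArg star rf
    rw [star_mul, star_mul, star_mul, Pr'.st, hf.st, ← mul_assoc, ← rf] at this
    exact this
  have P1 : Pr (r * f) := ⟨by rw [star_mul, Pr'.st, hf.st, fr], by
    rw [← mul_assoc, ← rf, mul_assoc, hf.sq]⟩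
  have P2 : Pr (r - r * f) := Pr'.sub P1 (Pr'.l f)
  have er := Pr'.orth he re
  have qr := Pr'.orth Pq rq
  have rN : r ∈ N := hr ▸ hq ▸ hN.sub (hN.sub pN eN) (hN.mul vN (hN.star vN))
  have tq : T.tau q = T.tau e := by rw [hq, T.tau_comm, v1]
  have t1 : T.tau (r * f) = T.tau f - T.tau e := by
    have a1 : T.tau (q * f) = T.tau e - T.tau x := by
      rw [hq, mul_assoc, T.tau_comm, mul_assoc, fv, mul_add, ← s2, ← mul_assoc, ve, zero_mul,
        zero_add, ← mul_assoc, v1, mul_sub, he.sq, sa.l, map_sub]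
    have a2 : T.tau (e * f) = T.tau x := by rw [hx, T.tau_comm _ e, he.l]
    rw [hr, sub_mul, sub_mul, pf, map_sub, map_sub, a1, a2]; ring
  have f2 : f * (r - r * f) = 0 := by
    rw [mul_sub, ← mul_assoc, fr, mul_assoc, hf.sq, sub_self]
  have col : ∀ ξ, e * ξ ∈ T.gen {e, x} → star v * ξ ∈ T.gen {e, x} → ∀ n ∈ N,
      e * (n * ξ) ∈ T.gen {e, x} ∧ star v * (n * ξ) ∈ T.gen {e, x} := fun ξ x1 x2 n hn => by
    have V := (X.toIsSub.comap (LinC.id.mulL e)).inter (X.toIsSub.comap (LinC.id.mulL (star v)))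
    refine V.stab (S := {e, f, p}) ?_ ?_ (hG hn) ξ ⟨x1, x2⟩
    · rintro a (rfl | rfl | rfl)
      exacts [.inl he.st, .inr (.inl hf.st), .inr (.inr hp.st)]
    · rintro a (rfl | rfl | rfl) m ⟨m1, m2⟩
      · exact ⟨by simpa only [Set.mem_ofPred_eq, he.l] using m1, by
          simpa only [Set.mem_ofPred_eq, ← mul_assoc, ve, zero_mul] using X.zero⟩
      · constructor
        · have := X.add (X.mul xX m1) (X.mul sN m2)
          rwa [← mul_assoc, sa.r, ← mul_assoc, ← add_mul, ← ef, mul_assoc] at this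
        · rw [Set.mem_ofPred_eq, ← mul_assoc, vf, add_mul, ← s1, ← s2, star_mul, he.st, s1,
            mul_assoc, mul_assoc]
          exact X.add (X.mul sN m1) (X.mul (X.sub eX xX) m2)
      · exact ⟨by simpa only [Set.mem_ofPred_eq, ← mul_assoc, ep] using m1, by
          simpa only [Set.mem_ofPred_eq, ← mul_assoc, vp] using m2⟩
  have c1 : T.gen {e, x} = cor e N := by
    refine Set.Subset.antisymm ((hN.cor he).gen_le ?_) fun n hn => ?_
    · rintro a (rfl | rfl)
      exacts [⟨eN, he.sq, he.sq⟩, hx ▸ hN.mem_cor he eN fN]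
    · have := (col e (by rwa [he.sq]) (by rw [ve]; exact X.zero) n hn.1).1
      rwa [hn.2.2, hn.2.1] at this
  have row : ∀ n ∈ N, r * n ∈ T.cls {r * f, r - r * f} := fun n hn => by
    have W := cls_sub (T := T) {r * f, r - r * f}
    have := (W.comap (LinC.id.mulL r)).stab (S := {e, f, p}) ?_ ?_ (hG hn) p ?_
    · have np : n * p = n := (gen_alg (S := {e, f, p}) hp (sub_gen (.inr (.inr rfl))) (by
        rintro a (rfl | rfl | rfl)
        exacts [⟨pe, ep⟩, ⟨pf, fp⟩, ⟨hp.sq, hp.sq⟩])).r (hG hn)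
      simpa only [Set.mem_ofPred_eq, np] using this
    · rintro a (rfl | rfl | rfl)
      exacts [.inl he.st, .inr (.inl hf.st), .inr (.inr hp.st)]
    · rintro a (rfl | rfl | rfl) m hm
      · simpa only [Set.mem_ofPred_eq, ← mul_assoc, re, zero_mul] using W.zero
      · rw [Set.mem_ofPred_eq, ← mul_assoc, ← fr, mul_assoc, fr]
        refine W.map (LinC.id.mulL a) ?_ hm
        rintro b (rfl | rfl)
        · rw [← fr, hf.l, fr]; exact sub_cls (.inl rfl)
        · rw [f2]; exact W.zero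
      · simpa only [Set.mem_ofPred_eq, ← mul_assoc, rp] using hm
    · have := W.add (sub_cls (.inl rfl)) (sub_cls (.inr rfl))
      rw [add_sub_cancel] at this
      rwa [Set.mem_ofPred_eq, rp]
  have te : T.tau e ≠ 0 := by rw [hα]; exact mul_ne_zero (Complex.ofReal_ne_zero.2 h0.ne') ht
  obtain ⟨u, u1, u2, u3, u4, u5⟩ := haarify sa te na
  refine ⟨q, r * f, r - r * f, Pq, P1, P2, by rw [hr]; abel, eq0,
    by rw [← mul_assoc, er, zero_mul], by rw [mul_sub, ← mul_assoc, er, zero_mul, sub_self],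
    by rw [← mul_assoc, qr, zero_mul], by rw [mul_sub, ← mul_assoc, qr, zero_mul, sub_self],
    by rw [mul_assoc, f2, mul_zero], tq, t1, f2, hN.mul rN fN, hN.sub rN (hN.mul rN fN),
    ⟨v, vN, v1, hq.symm⟩, ?_, ?_, c1, ⟨u, ⟨u1, u2, u3, u4⟩, u5.trans c1⟩, fun n hn => ?_⟩
  · refine polar_range hN (y := f * e) he (hf.sub P1 (by rw [← fr, hf.l])) eN (hN.mul fN eN)
      (by rw [mul_assoc, he.sq]) ?_ (by rw [map_sub, t1]; ring) fun z z1 z2 => i0 z z1 ?_
    · rw [sub_mul, hf.l, mul_assoc, hf.l, ← mul_assoc, ← fr, mul_assoc, re, mul_zero, sub_zero]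
    · rwa [star_mul, he.st, hf.st, mul_assoc e, hf.l, ← mul_assoc, ← hx] at z2
  · have hpf := hp.sub hf pf
    have a1 : (p - f) * (r - r * f) = r - r * f := by
      rw [sub_mul, f2, sub_zero, mul_sub, ← mul_assoc, show p * r = r by rw [← hp.st, ← Pr'.st, ← star_mul, rp]]
    refine polar_range hN (y := (p - f) * e) he (hpf.sub P2 a1) eN (hN.mul (hN.sub pN fN) eN)
      (by rw [mul_assoc, he.sq]) ?_ ?_ fun z z1 z2 => i1 z z1 ?_
    · rw [sub_mul, hpf.l, ← mul_assoc, hpf.comm_of P2 a1, sub_mul r, re, ← fr, mul_assoc, re]; simp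
    · rw [map_sub, map_sub, map_sub, t1, hr, map_sub, map_sub, tq]; ring
    · rwa [star_mul, he.st, hpf.st, mul_assoc e, hpf.l, sub_mul, mul_sub, pe, he.sq,
        ← mul_assoc, ← hx] at z2
  · have a1 : q * n * r = 0 := by
      have := cls_eq_zero (LinC.id.mulR q) ?_ (row _ (hN.star hn.1))
      · have := congrArg star this
        rwa [star_mul, star_mul, star_star, Pq.st, Pr'.st, star_zero, ← mul_assoc] at this
      · rintro b (rfl | rfl)
        · rw [← fr, mul_assoc, rq, mul_zero]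
        · rw [sub_mul, ← fr, mul_assoc, rq, mul_zero, sub_self]
    have a2 : p - e = q + r := by rw [hr]; abel
    have a3 : n = q * n * q + r * n := by
      nth_rewrite 1 [← hn.2.1, a2, add_mul]
      nth_rewrite 1 [← hn.2.2, a2, mul_add, mul_add, ← mul_assoc, ← mul_assoc, a1, add_zero]
      rfl
    rw [sub_eq_of_eq_add' a3]
    exact row n hn.1

end TW

end Pool.Agent.Lib.MP_263241_an

/-! Regular representations of free groups in corners. -/

namespace Pool.Agent.Lib.MP_263241_an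

theorem alt_form {G : Type*} [Group G] (G1 G2 : Subgroup G) (S : Set G)
    (hS : ∀ s ∈ S, s ∈ G1 ∨ s ∈ G2) {g : G} (hg : g ∈ Subgroup.closure S) :
    g = 1 ∨ ∃ b, Alt {x | x ∈ G1 ∧ x ≠ 1} {x | x ∈ G2 ∧ x ≠ 1} b g := by
  have key : ∀ (G1 G2 : Subgroup G), ∀ x ∈ G1, ∀ g,
      (g = 1 ∨ ∃ b, Alt {x | x ∈ G1 ∧ x ≠ 1} {x | x ∈ G2 ∧ x ≠ 1} b g) →
      x * g = 1 ∨ ∃ b, Alt {x | x ∈ G1 ∧ x ≠ 1} {x | x ∈ G2 ∧ x ≠ 1} b (x * g) := by
    intro G1 G2 x hx g hg
    by_cases h1 : x = 1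
    · rwa [h1, one_mul]
    rcases hg with rfl | ⟨b, hg⟩
    · rw [mul_one]; exact .inr ⟨_, .x1 ⟨hx, h1⟩⟩
    cases hg with
    | x1 h =>
      by_cases h2 : x * g = 1
      exacts [.inl h2, .inr ⟨_, .x1 ⟨G1.mul_mem hx h.1, h2⟩⟩]
    | y1 h => exact .inr ⟨_, .xc ⟨hx, h1⟩ (.y1 h)⟩
    | @xc y w h hw =>
      rw [← mul_assoc]
      by_cases h2 : x * y = 1
      · rw [h2, one_mul]; exact .inr ⟨_, hw⟩
      · exact .inr ⟨_, .xc ⟨G1.mul_mem hx h.1, h2⟩ hw⟩
    | yc h hw => exact .inr ⟨_, .xc ⟨hx, h1⟩ (.yc h hw)⟩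
  have key' : ∀ x, x ∈ G1 ∨ x ∈ G2 → ∀ g,
      (g = 1 ∨ ∃ b, Alt {x | x ∈ G1 ∧ x ≠ 1} {x | x ∈ G2 ∧ x ≠ 1} b g) →
      x * g = 1 ∨ ∃ b, Alt {x | x ∈ G1 ∧ x ≠ 1} {x | x ∈ G2 ∧ x ≠ 1} b (x * g) := by
    rintro x (hx | hx) g hg
    · exact key G1 G2 x hx g hg
    · exact (key G2 G1 x hx g (hg.imp_right fun ⟨_, h⟩ => ⟨_, h.symm⟩)).imp_right
        fun ⟨_, h⟩ => ⟨_, h.symm⟩
  induction hg using Subgroup.closure_induction_left with
  | one => exact .inl rfl
  | mul_left x hx g _ ih => exact key' x (hS x hx) g ih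
  | inv_mul_cancel x hx g _ ih => exact key' _ ((hS x hx).imp G1.inv_mem G2.inv_mem) g ih

variable {R H : Type*} [CStarAlgebra R] [NormedAddCommGroup H] [InnerProductSpace ℂ H]

theorem Pr.pi_r {e v : R} (he : Pr e) (h : star v * v = e) : v * e = v := by
  refine sub_eq_zero.1 ((CStarRing.star_mul_self_eq_zero_iff _).1 ?_)
  rw [star_sub, star_mul, he.st, mul_sub, sub_mul, sub_mul, mul_assoc e, ← mul_assoc (star v), h,
    mul_assoc e, h]
  simp [he.sq]

theorem Pr.pi_l {e v : R} (he : Pr e) (h : v * star v = e) : e * v = v := by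
  have := congrArg star (he.pi_r (v := star v) (by rwa [star_star]))
  rwa [star_mul, star_star, he.st] at this

theorem Pr.add {e k : R} (he : Pr e) (hk : Pr k) (h : e * k = 0) : Pr (e + k) :=
  ⟨by rw [star_add, he.st, hk.st], by
    rw [add_mul, mul_add, mul_add, he.sq, hk.sq, h, he.orth hk h, add_zero, zero_add]⟩

/-- A unitary representation in the corner of `e`. -/
structure Hom (e : R) {G : Type*} [Group G] (φ : G → R) : Prop where
  one : φ 1 = e
  mul : ∀ g h, φ (g * h) = φ g * φ h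
  inv : ∀ g, φ g⁻¹ = star (φ g)

theorem Hom.pr {e : R} {G : Type*} [Group G] {φ : G → R} (h : Hom e φ) : Pr e :=
  ⟨by rw [← h.one, ← h.inv, inv_one], by rw [← h.one, ← h.mul, one_mul]⟩

theorem Hom.l {e : R} {G : Type*} [Group G] {φ : G → R} (h : Hom e φ) (g : G) : e * φ g = φ g := by
  rw [← h.one, ← h.mul, one_mul]

theorem Hom.r {e : R} {G : Type*} [Group G] {φ : G → R} (h : Hom e φ) (g : G) : φ g * e = φ g := by
  rw [← h.one, ← h.mul, mul_one]

theorem Hom.comp {e : R} {G G' : Type*} [Group G] [Group G'] {φ : G → R} (h : Hom e φ)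
    (f : G' →* G) : Hom e fun g => φ (f g) :=
  ⟨by rw [map_one, h.one], fun a b => by rw [map_mul, h.mul], fun a => by rw [map_inv, h.inv]⟩

theorem Hom.ext {e : R} {ι : Type*} {φ ψ : FreeGroup ι → R} (h : Hom e φ) (h' : Hom e ψ)
    (hi : ∀ i, φ (.of i) = ψ (.of i)) (g : FreeGroup ι) : φ g = ψ g := by
  induction g using FreeGroup.induction_on with
  | C1 => rw [h.one, h'.one]
  | of i => exact hi i
  | inv_of i ih => rw [h.inv, h'.inv, ih]
  | mul a b ha hb => rw [h.mul, h'.mul, ha, hb]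

theorem exists_hom {e : R} (he : Pr e) {ι : Type*} (u : ι → R) (h1 : ∀ i, star (u i) * u i = e)
    (h2 : ∀ i, u i * star (u i) = e) : ∃ φ : FreeGroup ι → R, Hom e φ ∧ ∀ i, φ (.of i) = u i := by
  have l := fun i => he.pi_l (h2 i)
  have r := fun i => he.pi_r (h1 i)
  have l' : ∀ i, e * star (u i) = star (u i) := fun i => by rw [← he.st, ← star_mul, r]
  have r' : ∀ i, star (u i) * e = star (u i) := fun i => by rw [← he.st, ← star_mul, l]
  let U : ι → unitary R := fun i => ⟨u i + (1 - e), by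
    constructor <;>
    simp [add_mul, mul_add, mul_sub, sub_mul, he.st, he.sq, l, r, l', r', h1, h2]⟩
  let ψ := FreeGroup.lift U
  have hc : ∀ g, e * (ψ g : R) = ψ g * e := fun g => by
    induction g using FreeGroup.induction_on with
    | C1 => simp
    | of i => simp [ψ, U, add_mul, mul_add, mul_sub, sub_mul, he.sq, l, r]
    | inv_of i ih =>
      have := congrArg star ih
      rw [star_mul, star_mul, he.st] at this
      rw [map_inv]
      exact this.symm
    | mul a b ha hb => rw [map_mul, Submonoid.coe_mul, ← mul_assoc, ha, mul_assoc, hb, mul_assoc]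
  refine ⟨fun g => e * ψ g, ⟨by simp, fun g h => ?_, fun g => ?_⟩, fun i => ?_⟩
  · rw [map_mul, Submonoid.coe_mul, mul_assoc, ← mul_assoc _ e, ← hc, mul_assoc, he.l]
  · rw [hc g, star_mul, he.st, map_inv]; rfl
  · simp [ψ, U, mul_add, mul_sub, he.sq, l]

namespace TW

variable {T : TW R H} {p e : R}

variable (T) in
/-- A regular representation in the corner of `e`. -/
structure Reg (e : R) {G : Type*} [Group G] (φ : G → R) : Prop extends Hom e φ where
  tau : ∀ g, g ≠ 1 → T.tau (φ g) = 0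

variable (T) in
/-- `P` is generated by a regular representation of the free group on `ι`. -/
def LF (e : R) (ι : Type) (P : Set R) : Prop :=
  ∃ φ : FreeGroup ι → R, T.Reg e φ ∧ T.cls (Set.range φ) = P

theorem hom_alg {G : Type*} [Group G] {φ : G → R} (h : Hom e φ) : T.Alg e (T.cls (Set.range φ)) :=
  cls_alg h.pr (sub_cls ⟨1, h.one⟩) (by rintro _ ⟨g, rfl⟩; exact h.l g)
    (by rintro _ ⟨g, rfl⟩; exact sub_cls ⟨_, h.inv g⟩)
    (by rintro _ ⟨g, rfl⟩ _ ⟨g', rfl⟩; exact sub_cls ⟨_, h.mul g g'⟩)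

theorem hom_mem {ι : Type*} {φ : FreeGroup ι → R} (h : Hom e φ) {A : Set R} (hA : T.IsW A)
    (he : e ∈ A) (hi : ∀ i, φ (.of i) ∈ A) : T.cls (Set.range φ) ⊆ A := by
  refine hA.cls_le ?_
  rintro _ ⟨g, rfl⟩
  induction g using FreeGroup.induction_on with
  | C1 => rwa [h.one]
  | of i => exact hi i
  | inv_of i ih => rw [h.inv]; exact hA.star ih
  | mul a b ha hb => rw [h.mul]; exact hA.mul ha hb

theorem Haar.lf {u : R} (he : Pr e) (h : T.Haar e u) : ∃ φ : FreeGroup Unit → R, T.Reg e φ ∧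
    T.cls (Set.range φ) = T.gen {e, u} ∧
      ∀ g, φ g = e ∨ ∃ n : ℕ, φ g = u ^ (n + 1) ∨ φ g = star u ^ (n + 1) := by
  obtain ⟨φ, h1, h2⟩ := exists_hom he (fun _ : Unit => u) (fun _ => h.su) fun _ => h.us
  have pw : ∀ n : ℕ, φ (.of () ^ (n + 1)) = u ^ (n + 1) := fun n => by
    induction n with
    | zero => simpa using h2 ()
    | succ n ih => rw [pow_succ, h1.mul, ih, h2, ← pow_succ]
  have key : ∀ g, g = 1 ∨ ∃ n : ℕ, φ g = u ^ (n + 1) ∨ φ g = star u ^ (n + 1) := fun g => by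
    obtain ⟨n, rfl⟩ : ∃ n : ℤ, g = .of () ^ n := by
      induction g using FreeGroup.induction_on with
      | C1 => exact ⟨0, rfl⟩
      | of i => exact ⟨1, (zpow_one _).symm⟩
      | inv_of i _ => exact ⟨-1, (zpow_neg_one _).symm⟩
      | mul a b ha hb =>
        obtain ⟨m, rfl⟩ := ha
        obtain ⟨n, rfl⟩ := hb
        exact ⟨m + n, (zpow_add _ _ _).symm⟩
    rcases n with (_ | n) | n
    · exact .inl rfl
    · exact .inr ⟨n, .inl (pw n)⟩
    · exact .inr ⟨n, .inr (by rw [zpow_negSucc, h1.inv, pw, star_pow])⟩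
  refine ⟨φ, ⟨h1, fun g hg => ?_⟩, Set.Subset.antisymm (hom_mem h1 (gen_w _) (sub_gen (.inl rfl))
    fun i => by rw [h2]; exact sub_gen (.inr rfl)) ((hom_alg h1).gen_le ?_),
    fun g => (key g).imp_left fun hg => by rw [hg, h1.one]⟩
  · obtain ⟨n, hn | hn⟩ := (key g).resolve_left hg
    · rw [hn, h.tau]
    · rw [hn, ← star_pow, T.tau_star, h.tau, map_zero]
  · rintro _ (rfl | rfl)
    exacts [sub_cls ⟨1, h1.one⟩, sub_cls ⟨_, h2 ()⟩]

theorem Reg.join {ι κ : Type} {φ : FreeGroup ι → R} {ψ : FreeGroup κ → R} (h : T.Reg e φ)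
    (h' : T.Reg e ψ) (hF : T.Free (T.cls (Set.range φ)) (T.cls (Set.range ψ))) :
    ∃ χ : FreeGroup (ι ⊕ κ) → R, T.Reg e χ ∧ (∀ g, χ (FreeGroup.map .inl g) = φ g) ∧
      T.cls (Set.range χ) = T.gen (T.cls (Set.range φ) ∪ T.cls (Set.range ψ)) := by
  obtain ⟨χ, h1, h2⟩ := exists_hom h.pr (Sum.elim (fun i => φ (.of i)) fun i => ψ (.of i))
    (by rintro (i | i)
        exacts [by simp [← h.inv, ← h.mul, h.one], by simp [← h'.inv, ← h'.mul, h'.one]])
    (by rintro (i | i)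
        exacts [by simp [← h.inv, ← h.mul, h.one], by simp [← h'.inv, ← h'.mul, h'.one]])
  have e1 : ∀ g, χ (FreeGroup.map .inl g) = φ g :=
    (h1.comp _).ext h.toHom fun i => by simpa using h2 (.inl i)
  have e2 : ∀ g, χ (FreeGroup.map .inr g) = ψ g :=
    (h1.comp _).ext h'.toHom fun i => by simpa using h2 (.inr i)
  refine ⟨χ, ⟨h1, fun g hg => ?_⟩, e1, Set.Subset.antisymm (hom_mem h1 (gen_w _)
    (sub_gen (.inl (hom_alg h.toHom).one)) ?_) ((hom_alg h1).gen_le (Set.union_subset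
      (cls_mono ?_) (cls_mono ?_)))⟩
  · obtain ⟨b, hb⟩ := (alt_form (FreeGroup.map .inl).range (FreeGroup.map .inr).range
      (Set.range .of) (g := g) (by
        rintro _ ⟨i | i, rfl⟩
        exacts [.inl ⟨.of i, by simp⟩, .inr ⟨.of i, by simp⟩])
      (by rw [FreeGroup.closure_range_of]; trivial)).resolve_left hg
    refine hF b _ ?_
    clear hg
    have c1 : ∀ x ∈ {x | x ∈ (FreeGroup.map (Sum.inl : ι → ι ⊕ κ)).range ∧ x ≠ 1},
        χ x ∈ T.cen (T.cls (Set.range φ)) := by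
      rintro _ ⟨⟨a, rfl⟩, ha⟩
      rw [e1]
      exact ⟨sub_cls ⟨a, rfl⟩, h.tau a fun h0 => ha (by rw [h0, map_one])⟩
    have c2 : ∀ x ∈ {x | x ∈ (FreeGroup.map (Sum.inr : κ → ι ⊕ κ)).range ∧ x ≠ 1},
        χ x ∈ T.cen (T.cls (Set.range ψ)) := by
      rintro _ ⟨⟨a, rfl⟩, ha⟩
      rw [e2]
      exact ⟨sub_cls ⟨a, rfl⟩, h'.tau a fun h0 => ha (by rw [h0, map_one])⟩
    induction hb with
    | x1 hx => exact .x1 (c1 _ hx)
    | y1 hx => exact .y1 (c2 _ hx)
    | xc hx _ ih => rw [h1.mul]; exact .xc (c1 _ hx) ih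
    | yc hx _ ih => rw [h1.mul]; exact .yc (c2 _ hx) ih
  · rintro (i | i) <;> rw [h2]
    exacts [sub_gen (.inl (sub_cls ⟨_, rfl⟩)), sub_gen (.inr (sub_cls ⟨_, rfl⟩))]
  · rintro _ ⟨g, rfl⟩; exact ⟨_, e1 g⟩
  · rintro _ ⟨g, rfl⟩; exact ⟨_, e2 g⟩

theorem LF.join {ι κ : Type} {A B : Set R} (h : T.LF e ι A) (h' : T.LF e κ B) (hF : T.Free A B) :
    T.LF e (ι ⊕ κ) (T.gen (A ∪ B)) := by
  obtain ⟨φ, h1, rfl⟩ := h
  obtain ⟨ψ, h2, rfl⟩ := h'
  obtain ⟨χ, h3, -, h4⟩ := h1.join h2 hF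
  exact ⟨χ, h3, h4⟩

theorem Reg.move {G : Type*} [Group G] {φ : G → R} {N : Set R} {v e' : R} (h : T.Reg e φ)
    (hN : T.IsW N) (hφ : T.cls (Set.range φ) = cor e N) (vN : v ∈ N) (v1 : star v * v = e)
    (v2 : v * star v = e') : T.Reg e' (fun g => v * φ g * star v) ∧
      T.cls (Set.range fun g => v * φ g * star v) = cor e' N := by
  have ve := h.pr.pi_r v1
  have he' : Pr e' := v2 ▸ pr_range v1 ve
  have ev := he'.pi_l v2
  have a1 : star v * e' = star v := by rw [← he'.st, ← star_mul, ev]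
  have a2 : e * star v = star v := by rw [← h.pr.st, ← star_mul, ve]
  refine ⟨⟨⟨by rw [h.one, ve, v2], fun a b => ?_, fun a => ?_⟩, fun g hg => ?_⟩,
    Set.Subset.antisymm ((hN.cor he').cls_le ?_) fun y hy => ?_⟩
  · rw [h.mul, mul_assoc (v * φ a), ← mul_assoc (star v), ← mul_assoc (star v), v1, h.l]
    simp only [mul_assoc]
  · rw [h.inv, star_mul, star_mul, star_star, mul_assoc]
  · rw [T.tau_comm, ← mul_assoc, v1, h.l, h.tau g hg]
  · rintro _ ⟨g, rfl⟩
    have : φ g ∈ cor e N := hφ ▸ sub_cls ⟨g, rfl⟩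
    exact ⟨hN.mul (hN.mul vN this.1) (hN.star vN), by rw [← mul_assoc, ← mul_assoc, ev],
      by rw [mul_assoc, a1]⟩
  · have h1 : star v * y * v ∈ T.cls (Set.range φ) := hφ ▸
      ⟨hN.mul (hN.mul (hN.star vN) hy.1) vN, by rw [← mul_assoc, ← mul_assoc, a2],
        by rw [mul_assoc, ve]⟩
    have := (cls_sub (Set.range fun g => v * φ g * star v)).map ((LinC.id.mulL v).mulR (star v))
      (by rintro _ ⟨g, rfl⟩; exact sub_cls ⟨g, rfl⟩) h1
    rwa [← mul_assoc, ← mul_assoc, v2, hy.2.1, mul_assoc, v2, hy.2.2] at this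

theorem LF.move {ι : Type} {N : Set R} {v e' : R} (h : T.LF e ι (cor e N)) (hN : T.IsW N)
    (vN : v ∈ N) (v1 : star v * v = e) (v2 : v * star v = e') : T.LF e' ι (cor e' N) := by
  obtain ⟨φ, h1, h2⟩ := h
  exact ⟨_, h1.move hN h2 vN v1 v2⟩

theorem cor_cor {e' : R} {N : Set R} (he : Pr e) (he' : Pr e') (h : e' * e = e) :
    cor e (cor e' N) = cor e N :=
  Set.Subset.antisymm (cor_mono fun _ h => h.1) fun x hx =>
    ⟨⟨hx.1, by rw [← hx.2.1, ← mul_assoc, h], by rw [← hx.2.2, mul_assoc, he'.comm_of he h]⟩, hx.2⟩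

theorem alg2 {e k : R} (he : Pr e) (hk : Pr k) (h : e * k = 0) (hp : p = e + k) :
    T.Alg p (T.cls {e, k}) := by
  have h' := he.orth hk h
  subst hp
  refine cls_alg (he.add hk h) ((cls_sub _).add (sub_cls (.inl rfl)) (sub_cls (.inr rfl))) ?_ ?_ ?_
  · rintro _ (rfl | rfl) <;> simp [add_mul, he.sq, hk.sq, h, h']
  · rintro _ (rfl | rfl)
    exacts [sub_cls (.inl he.st), sub_cls (.inr hk.st)]
  · rintro _ (rfl | rfl) _ (rfl | rfl)
    exacts [sub_cls (.inl he.sq), h ▸ .zero, h' ▸ .zero, sub_cls (.inr hk.sq)]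

theorem alg3 {e k l : R} (he : Pr e) (hk : Pr k) (hl : Pr l) (h1 : e * k = 0) (h2 : e * l = 0)
    (h3 : k * l = 0) (hp : p = e + (k + l)) : T.Alg p (T.cls {e, k, l}) := by
  have h1' := he.orth hk h1
  have h2' := he.orth hl h2
  have h3' := hk.orth hl h3
  subst hp
  refine cls_alg (he.add (hk.add hl h3) (by rw [mul_add, h1, h2, add_zero]))
    ((cls_sub _).add (sub_cls (.inl rfl)) ((cls_sub _).add (sub_cls (.inr (.inl rfl)))
      (sub_cls (.inr (.inr rfl))))) ?_ ?_ ?_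
  · rintro _ (rfl | rfl | rfl) <;> simp [add_mul, he.sq, hk.sq, hl.sq, *]
  · rintro _ (rfl | rfl | rfl)
    exacts [sub_cls (.inl he.st), sub_cls (.inr (.inl hk.st)), sub_cls (.inr (.inr hl.st))]
  · rintro _ (rfl | rfl | rfl) _ (rfl | rfl | rfl)
    exacts [sub_cls (.inl he.sq), h1 ▸ .zero, h2 ▸ .zero, h1' ▸ .zero, sub_cls (.inr (.inl hk.sq)),
      h3 ▸ .zero, h2' ▸ .zero, h3' ▸ .zero, sub_cls (.inr (.inr hl.sq))]

theorem min_cls {S : Set R} (hte : T.tau e ≠ 0) (hS : ∀ s ∈ S, e * s * e = e ∨ e * s * e = 0) :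
    ∀ a ∈ T.cls S, ∃ c : ℂ, e * a * e = c • e := fun a ha =>
  ⟨_, sub_eq_zero.1 (cls_eq_zero (((LinC.id.mulL e).mulR e).sub
    (((LinC.id.mulL e).mulR e).tau (T.tau e)⁻¹ e)) (fun s hs => by
      rcases hS s hs with h | h <;> simp [h, mul_inv_cancel₀ hte]) ha)⟩

theorem step {A A0 C : Set R} (hp : T.tau p ≠ 0) (hA : T.Alg p A) (hC : T.Alg p C) (hF : T.Free A C)
    (hA0 : T.Alg p A0) (hs : A0 ⊆ A) (he : Pr e) (heA : e ∈ A0) (hte : T.tau e ≠ 0)
    (hmin : ∀ a ∈ A0, ∃ c : ℂ, e * a * e = c • e)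
    (hgen : ∀ a ∈ A, a ∈ T.cls (A0 ∪ {t | ∃ n ∈ A0, ∃ d ∈ cor e A, ∃ n' ∈ A0, t = n * d * n'})) :
    T.Free (cor e A) (cor e (T.gen (A0 ∪ C))) ∧
      cor e (T.gen (A ∪ C)) = T.gen (cor e A ∪ cor e (T.gen (A0 ∪ C))) := by
  refine ⟨dyk hp hA hC hF hA0 hs he heA hte hmin, Set.Subset.antisymm
    (gen_corner (hA0.gen_union hC) he (sub_gen (.inl heA)) (fun d hd => hd.2)
      (fun s hs => hs.imp hA.star hC.star) ?_) (((gen_w _).cor he).gen_le (Set.union_subset
      (cor_mono fun _ h => sub_gen (.inl h))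
      (cor_mono (gen_mono (Set.union_subset_union_left _ hs)))))⟩
  rintro s (h | h)
  · refine cls_mono ?_ (hgen s h)
    rintro t (ht | ⟨n, hn, d, hd, n', hn', rfl⟩)
    · exact .inl (sub_gen (.inl ht))
    · exact .inr ⟨n, sub_gen (.inl hn), d, sub_gen hd, n', sub_gen (.inl hn'), rfl⟩
  · exact sub_cls (.inl (sub_gen (.inr h)))

theorem step' {A A0 C : Set R} (hp : T.tau p ≠ 0) (hA : T.Alg p A) (hC : T.Alg p C)
    (hF : T.Free A C) (hA0 : T.Alg p A0) (hs : A0 ⊆ A) (he : Pr e) (heA : e ∈ A0)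
    (hte : T.tau e ≠ 0) (hmin : ∀ a ∈ A0, ∃ c : ℂ, e * a * e = c • e)
    (hgen : ∀ a ∈ A, a - e * a * e ∈ A0) :
    T.Free (cor e A) (cor e (T.gen (A0 ∪ C))) ∧
      cor e (T.gen (A ∪ C)) = T.gen (cor e A ∪ cor e (T.gen (A0 ∪ C))) :=
  step hp hA hC hF hA0 hs he heA hte hmin fun a ha => by
    have h1 := hA.mem_cor he (hs heA) ha
    rw [← sub_add_cancel a (e * a * e)]
    exact (cls_sub _).add (sub_cls (.inl (hgen a ha)))
      (sub_cls (.inr ⟨e, heA, _, h1, e, heA, by rw [h1.2.1, h1.2.2]⟩))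

/-- Grouping all summands but one. -/
theorem step_split {a : R} {S C : Set R} (hp : T.tau p ≠ 0) (hA : T.Alg p (T.cls (insert a S)))
    (hC : T.Alg p C) (hF : T.Free (T.cls (insert a S)) C) (ha : Pr a) (he : Pr e) (hae : a * e = 0)
    (hpe : p = a + e) (heS : e ∈ T.cls S) (hS : ∀ s ∈ S, e * s = s ∧ s * e = s)
    (hte : T.tau e ≠ 0) : T.Free (T.cls S) (cor e (T.gen (T.cls {a, e} ∪ C))) ∧
      cor e (T.gen (T.cls (insert a S) ∪ C)) = T.gen (T.cls S ∪ cor e (T.gen (T.cls {a, e} ∪ C))) := by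
  have hea := ha.orth he hae
  have eA := cls_mono (Set.subset_insert a S) heS
  have e1 : cor e (T.cls (insert a S)) = T.cls S := by
    refine Set.Subset.antisymm (fun x hx => ?_) ((hA.cor he).cls_le fun s hs =>
      ⟨sub_cls (.inr hs), hS s hs⟩)
    rw [← hx.2.1]
    refine (cls_sub S).map (LinC.id.mulL e) ?_ hx.1
    rintro s (rfl | hs)
    · rw [hea]; exact .zero
    · rw [(hS s hs).1]; exact sub_cls hs
  have := step' hp hA hC hF (alg2 ha he hae hpe) ((cls_sub _).cls_le (by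
    rintro _ (rfl | rfl)
    exacts [sub_cls (.inl rfl), eA])) he (sub_cls (.inr rfl)) hte (min_cls hte (by
    rintro _ (rfl | rfl)
    exacts [.inr (by rw [hea, zero_mul]), .inl (by rw [he.sq, he.sq])])) fun x hx =>
      (cls_sub _).map (LinC.id.sub ((LinC.id.mulL e).mulR e)) (by
        rintro s (rfl | hs)
        · rw [hea, zero_mul, sub_zero]; exact sub_cls (.inl rfl)
        · rw [(hS s hs).1, (hS s hs).2, sub_self]; exact .zero) hx
  rwa [e1] at this

theorem Free.z_pr {A C : Set R} (hA : T.Alg p A) (hC : T.Alg p C) (hF : T.Free A C) {f : R}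
    (he : e ∈ A) (hf : f ∈ C) {α β : ℂ} (hα : T.tau e = α * T.tau p) (hβ : T.tau f = β * T.tau p) :
    T.Z {e - α • p} {f - β • p} :=
  Z.mono hF (by
    rintro _ rfl
    exact ⟨hA.sub he (hA.smul _ hA.one), by rw [map_sub, map_smul, hα, smul_eq_mul, sub_self]⟩) (by
    rintro _ rfl
    exact ⟨hC.sub hf (hC.smul _ hC.one), by rw [map_sub, map_smul, hβ, smul_eq_mul, sub_self]⟩)

theorem gen2_le {e k f l : R} (h1 : p = e + k) (h2 : p = f + l) :
    T.gen (T.cls {e, k} ∪ T.cls {f, l}) ⊆ T.gen {e, f, p} := by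
  have W := gen_w (T := T) {e, f, p}
  have a1 : e ∈ T.gen {e, f, p} := sub_gen (.inl rfl)
  have a2 : f ∈ T.gen {e, f, p} := sub_gen (.inr (.inl rfl))
  have a3 : p ∈ T.gen {e, f, p} := sub_gen (.inr (.inr rfl))
  refine W.gen_le (Set.union_subset (W.cls_le ?_) (W.cls_le ?_))
  · rintro _ (rfl | rfl)
    exacts [a1, eq_sub_of_add_eq' h1.symm ▸ W.sub a3 a1]
  · rintro _ (rfl | rfl)
    exacts [a2, eq_sub_of_add_eq' h2.symm ▸ W.sub a3 a2]

theorem tp_half {e k f l : R} {c : ℂ} (c0 : c ≠ 0) (he : Pr e) (hk : Pr k) (hf : Pr f) (hl : Pr l)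
    (o1 : e * k = 0) (o2 : f * l = 0) (h1 : p = e + k) (h2 : p = f + l) (t1 : T.tau e = c)
    (t2 : T.tau k = c) (t3 : T.tau f = c) (hF : T.Free (T.cls {e, k}) (T.cls {f, l})) :
    (∃ v ∈ T.gen (T.cls {e, k} ∪ T.cls {f, l}), star v * v = e ∧ v * star v = k) ∧
      T.LF e Unit (cor e (T.gen (T.cls {e, k} ∪ T.cls {f, l}))) := by
  have hA := alg2 (T := T) he hk o1 h1
  have hC := alg2 (T := T) hf hl o2 h2
  have tp' : T.tau p = 2 * c := by rw [h1, map_add, t1, t2]; ring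
  have eA : e ∈ T.cls {e, k} := sub_cls (.inl rfl)
  have fC : f ∈ T.cls {f, l} := sub_cls (.inl rfl)
  have a1 : T.tau e = ((1 / 2 : ℝ) : ℂ) * T.tau p := by rw [t1, tp']; push_cast; ring
  obtain ⟨q, r1, r2, Pq, P1, P2, hs, -, -, -, q1, q2, -, tq, -, -, -, -, ⟨v, vN, v1, v2⟩, -, -, -,
    ⟨u, u1, u2⟩, -⟩ := tp hA.pr he hf (hA.l eA) (hC.l fC) (by rw [tp']; simpa using c0)
    (by norm_num) le_rfl (by norm_num) a1 (hF.z_pr hA hC eA fC a1 (by rw [t3, tp']; push_cast; ring))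
    (gen_w _) (sub_gen (.inl eA)) (sub_gen (.inr fC)) (sub_gen (.inl hA.one)) (gen2_le h1 h2)
  rw [h1, add_sub_cancel_left] at hs
  refine ⟨⟨v, vN, v1, v2.trans (T.pr_eq hk Pq ?_ (by rw [tq, t1, t2])).symm⟩, ?_⟩
  · rw [hs, add_mul, add_mul, Pq.sq, Pq.orth P1 q1, Pq.orth P2 q2, add_zero, add_zero]
  · obtain ⟨φ, a, b, -⟩ := u1.lf he
    exact ⟨φ, a, b.trans u2⟩

/-- The corner of `M₂ * ℂ²`. -/
theorem m2_free {e k f l w : R} {c : ℂ} (c0 : c ≠ 0) (he : Pr e) (hk : Pr k) (hf : Pr f) (hl : Pr l)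
    (o1 : e * k = 0) (o2 : f * l = 0) (h1 : p = e + k) (h2 : p = f + l) (t1 : T.tau e = c)
    (t2 : T.tau k = c) (t3 : T.tau f = c) (w1 : star w * w = e) (w2 : w * star w = k)
    (hA : T.Alg p (T.cls {e, k, w, star w})) (hF : T.Free (T.cls {e, k, w, star w}) (T.cls {f, l})) :
    T.LF e (Unit ⊕ Unit) (cor e (T.gen (T.cls {e, k, w, star w} ∪ T.cls {f, l}))) := by
  have hs : T.cls {e, k} ⊆ T.cls {e, k, w, star w} := cls_mono (by
    rintro _ (rfl | rfl)
    exacts [.inl rfl, .inr (.inl rfl)])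
  have hA0 := alg2 (T := T) he hk o1 h1
  have hC := alg2 (T := T) hf hl o2 h2
  obtain ⟨⟨v, vN, v1, v2⟩, L⟩ := tp_half c0 he hk hf hl o1 o2 h1 h2 t1 t2 t3 (hF.mono hs le_rfl)
  have te : T.tau e ≠ 0 := t1 ▸ c0
  have wA : w ∈ T.cls {e, k, w, star w} := sub_cls (.inr (.inr (.inl rfl)))
  have Z := haar_free (by rw [h1, map_add, t1, t2, ← two_mul]; simpa using c0) hA hC hF he hk o1 te
    (t2 ▸ c0) hA0 hs wA (hk.pi_l w2) (he.pi_r w1) vN v1 (hk.pi_l v2) (he.pi_r v1)
  have ev : e * star v = star v := by rw [← he.st, ← star_mul, he.pi_r v1]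
  have su : star (star v * w) = star w * v := by rw [star_mul, star_star]
  have hu : T.Haar e (star v * w) := ⟨by rw [← mul_assoc, ev], by
    rw [su, mul_assoc, ← mul_assoc v, v2, hk.pi_l w2, w1], by
    rw [su, mul_assoc, ← mul_assoc w, w2, hk.pi_l v2, v1], fun n => Z _ _ (.x1 ⟨n, .inl rfl⟩)⟩
  obtain ⟨φ, a, b, d⟩ := hu.lf he
  have F : T.Free (T.gen {e, star v * w}) (cor e (T.gen (T.cls {e, k} ∪ T.cls {f, l}))) := by
    refine Z.cls.mono (fun x hx => cen_sub_cls te (fun y hy => Z _ _ (.x1 hy)) ⟨?_, hx.2⟩) sub_cls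
    refine cls_mono ?_ (b ▸ hx.1 : x ∈ T.cls (Set.range φ))
    rintro _ ⟨g, rfl⟩
    exact (d g).imp_right fun ⟨n, hn⟩ => ⟨n, by rwa [su] at hn⟩
  have N0 := gen_mono (T := T) (Set.union_subset_union_left (T.cls {f, l}) hs)
  have W := gen_w (T := T) (T.cls {e, k, w, star w} ∪ T.cls {f, l})
  have eN : e ∈ T.gen (T.cls {e, k} ∪ T.cls {f, l}) := sub_gen (.inl (sub_cls (.inl rfl)))
  convert LF.join ⟨φ, a, b⟩ L F using 1
  refine Set.Subset.antisymm ((gen_corner (D0 := {e, star v * w}) (hA0.gen_union hC) he eN ?_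
    (fun s hs => hs.imp hA.star hC.star) ?_).trans (gen_mono (Set.union_subset_union_left _ sub_gen)))
    ((W.cor he).gen_le (Set.union_subset ((W.cor he).gen_le ?_) (cor_mono N0)))
  · rintro _ (rfl | rfl)
    exacts [⟨he.sq, he.sq⟩, ⟨hu.l, he.pi_r hu.su⟩]
  · rintro s (hs | hs)
    · refine cls_mono ?_ hs
      rintro _ (rfl | rfl | rfl | rfl)
      · exact .inl eN
      · exact .inl (sub_gen (.inl (sub_cls (.inr rfl))))
      · exact .inr ⟨v, vN, _, sub_gen (.inr rfl), e, eN, by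
          rw [← mul_assoc, v2, hk.pi_l w2, he.pi_r w1]⟩
      · exact .inr ⟨e, eN, _, (gen_w _).star (sub_gen (.inr rfl)), star v, (gen_w _).star vN, by
          rw [su, mul_assoc, mul_assoc, v2, ← hk.st, ← star_mul, hk.pi_l w2, ← he.st, ← star_mul,
            he.pi_r w1]⟩
    · exact sub_cls (.inl (sub_gen (.inr hs)))
  · rintro _ (rfl | rfl)
    exacts [⟨N0 eN, he.sq, he.sq⟩, ⟨W.mul (W.star (N0 vN)) (sub_gen (.inl wA)), hu.l, he.pi_r hu.su⟩]

end TW

end Pool.Agent.Lib.MP_263241_an
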