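import Pool.Agent.Lib.MP_263241_an.VB

/-! The corners of `ℂ³ * ℂ³` and of `ℂ⁴ * ℂ²`. -/

namespace Pool.Agent.Lib.MP_263241_an

variable {R H : Type*} [CStarAlgebra R] [NormedAddCommGroup H] [InnerProductSpace ℂ H]

theorem pi_comp {e f g v w : R} (hf : Pr f) (v1 : star v * v = e) (v2 : v * star v = f)
    (w1 : star w * w = f) (w2 : w * star w = g) :
    star (w * v) * (w * v) = e ∧ w * v * star (w * v) = g :=
  ⟨by rw [star_mul, mul_assoc, ← mul_assoc (star w), w1, hf.pi_l v2, v1],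
    by rw [star_mul, mul_assoc, ← mul_assoc v, v2, ← mul_assoc, hf.pi_r w1, w2]⟩

namespace TW

variable {T : TW R H} {p : R}

theorem alg_m2 {e k w : R} (he : Pr e) (hk : Pr k) (o : e * k = 0) (hp : p = e + k)
    (w1 : star w * w = e) (w2 : w * star w = k) : T.Alg p (T.cls {e, k, w, star w}) := by
  have o' := he.orth hk o
  have a1 := hk.pi_l w2
  have a2 := he.pi_r w1
  have a3 : e * w = 0 := by rw [← a1, ← mul_assoc, o, zero_mul]
  have a4 : w * k = 0 := by rw [← a2, mul_assoc, o, mul_zero]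
  have b1 : star w * k = star w := by rw [← hk.st, ← star_mul, a1]
  have b2 : e * star w = star w := by rw [← he.st, ← star_mul, a2]
  have b3 : star w * e = 0 := by rw [← he.st, ← star_mul, a3, star_zero]
  have b4 : k * star w = 0 := by rw [← hk.st, ← star_mul, a4, star_zero]
  have c1 : w * w = 0 := by rw [← a2, mul_assoc, ← mul_assoc e, a3, zero_mul, mul_zero]
  have c2 : star w * star w = 0 := by rw [← star_mul, c1, star_zero]
  have m1 : e ∈ T.cls {e, k, w, star w} := sub_cls (.inl rfl)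
  have m2 : k ∈ T.cls {e, k, w, star w} := sub_cls (.inr (.inl rfl))
  have m3 : w ∈ T.cls {e, k, w, star w} := sub_cls (.inr (.inr (.inl rfl)))
  have m4 : star w ∈ T.cls {e, k, w, star w} := sub_cls (.inr (.inr (.inr rfl)))
  have m0 : 0 ∈ T.cls {e, k, w, star w} := .zero
  subst hp
  refine cls_alg (he.add hk o) ((cls_sub _).add m1 m2) ?_ ?_ ?_
  · intro s hs
    rcases hs with h | h | h | h <;> rw [h, add_mul] <;>
      simp only [he.sq, hk.sq, o, o', a1, a3, b2, b4, add_zero, zero_add]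
  · intro s hs
    rcases hs with h | h | h | h <;> rw [h]
    exacts [he.st.symm ▸ m1, hk.st.symm ▸ m2, m4, (star_star w).symm ▸ m3]
  · intro s hs t ht
    rcases hs with h | h | h | h <;> rcases ht with h' | h' | h' | h' <;> rw [h, h'] <;>
      simp only [he.sq, hk.sq, o, o', a1, a2, a3, a4, b1, b2, b3, b4, c1, c2, w1, w2] <;> assumption

theorem lf33 {q r1 r2 J1 J2 J3 : R} {c : ℂ} (c0 : c ≠ 0) (hq : Pr q) (h1 : Pr r1) (h2 : Pr r2)
    (o1 : q * r1 = 0) (o2 : q * r2 = 0) (o3 : r1 * r2 = 0) (hp : p = q + (r1 + r2))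
    (j1 : Pr J1) (j2 : Pr J2) (j3 : Pr J3) (i1 : J1 * J2 = 0) (i2 : J1 * J3 = 0) (i3 : J2 * J3 = 0)
    (hp' : p = J1 + (J2 + J3)) (t1 : T.tau q = c) (t2 : T.tau r1 = c) (t3 : T.tau r2 = c)
    (s1 : T.tau J1 = c) (s2 : T.tau J2 = c) (s3 : T.tau J3 = c)
    (hF : T.Free (T.cls {q, r1, r2}) (T.cls {J1, J2, J3})) :
    T.LF q ((Unit ⊕ Unit) ⊕ (Unit ⊕ Unit))
      (cor q (T.gen (T.cls {q, r1, r2} ∪ T.cls {J1, J2, J3}))) := by
  have A3 := alg3 (T := T) hq h1 h2 o1 o2 o3 hp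
  have C3 := alg3 (T := T) j1 j2 j3 i1 i2 i3 hp'
  obtain ⟨r, hr⟩ : ∃ r, r = r1 + r2 := ⟨_, rfl⟩
  obtain ⟨J, hJ⟩ : ∃ J, J = J2 + J3 := ⟨_, rfl⟩
  rw [← hr] at hp
  rw [← hJ] at hp'
  have Pr' : Pr r := hr ▸ h1.add h2 o3
  have PJ : Pr J := hJ ▸ j2.add j3 i3
  have qr : q * r = 0 := by rw [hr, mul_add, o1, o2, add_zero]
  have JJ : J1 * J = 0 := by rw [hJ, mul_add, i1, i2, add_zero]
  have tr : T.tau r = 2 * c := by rw [hr, map_add, t2, t3, two_mul]
  have tJ : T.tau J = 2 * c := by rw [hJ, map_add, s2, s3, two_mul]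
  have tp' : T.tau p = 3 * c := by rw [hp, map_add, t1, tr]; ring
  have n2 : (2 : ℂ) * c ≠ 0 := by simpa using c0
  have n3 : T.tau p ≠ 0 := by rw [tp']; simpa using c0
  have A2 := alg2 (T := T) hq Pr' qr hp
  have C2 := alg2 (T := T) j1 PJ JJ hp'
  have Cr := alg2 (T := T) h1 h2 o3 hr
  have CJ := alg2 (T := T) j2 j3 i3 hJ
  have sA : T.cls {q, r} ⊆ T.cls {q, r1, r2} := (cls_sub _).cls_le (by
    rintro _ (rfl | rfl)
    exacts [sub_cls (.inl rfl), cls_mono (Set.subset_insert _ _) Cr.one])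
  have sC : T.cls {J1, J} ⊆ T.cls {J1, J2, J3} := (cls_sub _).cls_le (by
    rintro _ (rfl | rfl)
    exacts [sub_cls (.inl rfl), cls_mono (Set.subset_insert _ _) CJ.one])
  obtain ⟨F3, G3⟩ := step_split n3 A3 C3 hF hq Pr' qr hp Cr.one
    (fun s hs => ⟨Cr.l (sub_cls hs), Cr.r (sub_cls hs)⟩) (tr ▸ n2)
  obtain ⟨F2, G2⟩ := step_split n3 C3 A2 (hF.mono sA le_rfl).symm j1 PJ JJ hp' CJ.one
    (fun s hs => ⟨CJ.l (sub_cls hs), CJ.r (sub_cls hs)⟩) (tJ ▸ n2)
  rw [Set.union_comm (T.cls {J1, J2, J3})] at G2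
  set N' := T.gen (T.cls {q, r1, r2} ∪ T.cls {J1, J2, J3})
  set N1 := T.gen (T.cls {q, r} ∪ T.cls {J1, J2, J3})
  set N2 := T.gen (T.cls {J1, J} ∪ T.cls {q, r})
  have W' : T.IsW N' := gen_w _
  have W1 : T.IsW N1 := gen_w _
  have W2 : T.IsW N2 := gen_w _
  have n21 : N2 ⊆ N1 := gen_mono (Set.union_subset (sC.trans Set.subset_union_right)
    Set.subset_union_left)
  have n1' : N1 ⊆ N' := gen_mono (Set.union_subset_union_left _ sA)
  have eA : J1 ∈ T.cls {J1, J} := sub_cls (.inl rfl)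
  have fC : q ∈ T.cls {q, r} := sub_cls (.inl rfl)
  have a1 : T.tau J1 = ((1 / 3 : ℝ) : ℂ) * T.tau p := by rw [s1, tp']; push_cast; ring
  obtain ⟨e, k0, k, Pe, P0, Pk, hs, -, -, -, -, ek, -, te, t0, qk, -, kN, ⟨v, vN, v1, v2⟩,
    ⟨t, tN, u1, u2⟩, ⟨t', tN', u1', u2'⟩, -, ⟨u, hu, hu'⟩, hd⟩ := tp C2.pr j1 hq (C2.l eA) (A2.l fC) n3
    (by norm_num) le_rfl (by norm_num) a1 ((hF.mono sA sC).symm.z_pr C2 A2 eA fC a1
      (by rw [t1, tp']; push_cast; ring)) W2 (sub_gen (.inl eA)) (sub_gen (.inr fC))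
      (sub_gen (.inl C2.one)) (gen2_le hp' hp)
  obtain rfl : k0 = 0 := T.pr_eq_zero P0 (by rw [t0, t1, s1, sub_self])
  rw [show p - J1 = J by rw [hp', add_sub_cancel_left]] at hs hd
  rw [add_zero] at hs
  rw [sub_zero] at u2
  rw [show p - q = r by rw [hp, add_sub_cancel_left]] at u2'
  rw [s1] at te
  have tk : T.tau k = c := by
    have := congrArg T.tau hs
    rw [map_add, tJ, te] at this
    linear_combination -this
  have eN : e ∈ N2 := v2 ▸ W2.mul vN (W2.star vN)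
  have Je : J * e = e := by rw [hs, add_mul, Pe.sq, Pe.orth Pk ek, add_zero]
  have Jk : J * k = k := by rw [hs, add_mul, Pk.sq, ek, zero_add]
  have JN : J ∈ N2 := sub_gen (.inl (sub_cls (.inr rfl)))
  have L1 : T.LF J1 Unit (cor J1 N2) := by
    obtain ⟨φ, a, b, -⟩ := hu.lf j1
    exact ⟨φ, a, b.trans hu'⟩
  have sub5 : T.cls {e, k} ⊆ cor J N2 := (W2.cor PJ).cls_le (by
    rintro _ (rfl | rfl)
    exacts [⟨eN, Je, PJ.comm_of Pe Je⟩, ⟨kN, Jk, PJ.comm_of Pk Jk⟩])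
  obtain ⟨F5, G5⟩ := step' (tJ ▸ n2) (W2.cor_alg PJ JN) CJ F2.symm (alg2 Pe Pk ek hs) sub5 Pe
    (sub_cls (.inl rfl)) (te ▸ c0) (min_cls (te ▸ c0) (by
      rintro _ (rfl | rfl)
      exacts [.inl (by rw [Pe.sq, Pe.sq]), .inr (by rw [ek, zero_mul])])) fun a ha =>
        (cls_sub _).cls_le (by
          rintro _ (rfl | rfl)
          exacts [.zero, sub_cls (.inr rfl)]) (hd a ha)
  rw [cor_cor Pe PJ Je] at F5 G5
  rw [Set.union_comm, ← G2, cor_cor Pe PJ Je] at G5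
  obtain ⟨⟨v5, v5N, x1, x2⟩, L5⟩ := tp_half c0 Pe Pk j2 j3 ek i3 hs hJ te tk s2
    (F2.symm.mono sub5 le_rfl)
  replace v5N : v5 ∈ N1 := W1.gen_le (Set.union_subset (fun x hx => n21 (sub5 hx).1)
    fun x hx => sub_gen (.inr (cls_mono (Set.subset_insert _ _) hx))) v5N
  have L2 : T.LF e (Unit ⊕ Unit) (cor e N1) := G5 ▸ (L1.move W2 vN v1 v2).join L5 F5
  obtain ⟨q2, hq2⟩ : ∃ q2, q2 = r - k := ⟨_, rfl⟩
  rw [← hq2] at u2'
  have pk : p * k = k := (C2.gen_union A2).l kN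
  have rk : r * k = k := by rwa [hp, add_mul, qk, zero_add] at pk
  have P2 : Pr q2 := hq2 ▸ Pr'.sub Pk rk
  have qk2 : q2 * k = 0 := by rw [hq2, sub_mul, rk, Pk.sq, sub_self]
  have hr2 : r = q2 + k := by rw [hq2, sub_add_cancel]
  have tq2 : T.tau q2 = c := by rw [hq2, map_sub, tr, tk]; ring
  have rq2 : r * q2 = q2 := by rw [hr2, add_mul, P2.sq, P2.orth Pk qk2, add_zero]
  obtain ⟨y1, y2⟩ := pi_comp j1 (v := star t') (e := q2) (by rwa [star_star]) (by rwa [star_star])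
    v1 v2
  have yN : v * star t' ∈ N1 := n21 (W2.mul vN (W2.star tN'))
  obtain ⟨w1, w2⟩ := pi_comp Pe y1 y2 x1 x2
  have wN := W1.mul v5N yN
  have L3 : T.LF q2 (Unit ⊕ Unit) (cor q2 N1) :=
    L2.move W1 (W1.star yN) (by rwa [star_star]) (by rwa [star_star])
  generalize v5 * (v * star t') = w at w1 w2 wN
  have M2 := alg_m2 (T := T) P2 Pk qk2 hr2 w1 w2
  have rN : r ∈ N1 := sub_gen (.inl (sub_cls (.inr rfl)))
  have A4 := W1.cor_alg Pr' rN
  have kw := Pk.pi_l w2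
  have wq := P2.pi_r w1
  have wc : w ∈ cor r N1 := ⟨wN, by rw [← kw, ← mul_assoc, rk], by
    rw [← wq, mul_assoc, Pr'.comm_of P2 rq2]⟩
  have qc : q2 ∈ cor r N1 := ⟨hq2 ▸ W1.sub rN (n21 kN), rq2, Pr'.comm_of P2 rq2⟩
  have sub4 : T.cls {q2, k, w, star w} ⊆ cor r N1 := A4.cls_le (by
    intro s hs
    rcases hs with h | h | h | h <;> rw [h]
    exacts [qc, ⟨n21 kN, rk, Pr'.comm_of Pk rk⟩, wc, A4.star wc])
  have qw : q2 * w = 0 := by rw [← kw, ← mul_assoc, qk2, zero_mul]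
  have m1 : q2 ∈ T.cls {q2, k, w, star w} := sub_cls (.inl rfl)
  have m3 : w ∈ T.cls {q2, k, w, star w} := sub_cls (.inr (.inr (.inl rfl)))
  obtain ⟨F4, G4⟩ := step (tr ▸ n2) A4 Cr F3.symm M2 sub4 P2 m1 (tq2 ▸ c0) (min_cls (tq2 ▸ c0) (by
      intro s hs
      rcases hs with h | h | h | h <;> rw [h]
      exacts [.inl (by rw [P2.sq, P2.sq]), .inr (by rw [qk2, zero_mul]),
        .inr (by rw [qw, zero_mul]), .inr (by
          rw [mul_assoc, ← P2.st, ← star_mul, P2.st, qw, star_zero, mul_zero])])) fun a ha => by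
      have key : ∀ s ∈ T.cls {q2, k, w, star w}, ∀ s' ∈ T.cls {q2, k, w, star w}, s * q2 = s →
          s' * q2 = s' → s * star s * a * (s' * star s') ∈ T.cls (T.cls {q2, k, w, star w} ∪
            {t | ∃ n ∈ T.cls {q2, k, w, star w}, ∃ d ∈ cor q2 (cor r N1),
              ∃ n' ∈ T.cls {q2, k, w, star w}, t = n * d * n'}) := fun s hs s' hs' a1 a2 =>
        sub_cls (.inr ⟨s, hs, star s * a * s', ⟨A4.mul (A4.mul (A4.star (sub4 hs)) ha) (sub4 hs'),
          by rw [← mul_assoc, ← mul_assoc, ← P2.st, ← star_mul, a1], by rw [mul_assoc, a2]⟩,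
          star s', M2.star hs', by simp only [mul_assoc]⟩)
      have k1 := key _ m1 _ m1 P2.sq P2.sq
      have k2 := key _ m1 _ m3 P2.sq wq
      have k3 := key _ m3 _ m1 wq P2.sq
      have k4 := key _ m3 _ m3 wq wq
      simp only [P2.st, P2.sq, w2] at k1 k2 k3 k4
      have := (cls_sub _).add ((cls_sub _).add k1 k2) ((cls_sub _).add k3 k4)
      rwa [← mul_add, ← mul_add, ← add_mul, ← add_mul, ← hr2, ha.2.1, ha.2.2] at this
  rw [cor_cor P2 Pr' rq2] at F4 G4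
  rw [Set.union_comm, ← G3, cor_cor P2 Pr' rq2] at G4
  have L4 := m2_free c0 P2 Pk h1 h2 qk2 o3 hr2 hr tq2 tk t2 w1 w2 M2 (F3.symm.mono sub4 le_rfl)
  obtain ⟨z1, z2⟩ := pi_comp j1 (v := star t') (e := q2) (by rwa [star_star]) (by rwa [star_star])
    u1 u2
  exact LF.move (G4 ▸ L3.join L4 F4) W' (n1' (n21 (W2.mul tN (W2.star tN')))) z1 z2

/-- In the corner of `J0`, the compression of `P` generates a free factor. -/
theorem main_abs {P Q J0 J1 J2 J3 : R} {c : ℂ} (c0 : c ≠ 0) (hP : Pr P) (hQ : Pr Q)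
    (o : P * Q = 0) (hp : p = P + Q) (j0 : Pr J0) (j1 : Pr J1) (j2 : Pr J2) (j3 : Pr J3)
    (k1 : J0 * J1 = 0) (k2 : J0 * J2 = 0) (k3 : J0 * J3 = 0) (i1 : J1 * J2 = 0) (i2 : J1 * J3 = 0)
    (i3 : J2 * J3 = 0) (hp' : p = J0 + (J1 + (J2 + J3))) (tP : T.tau P = 2 * c)
    (s0 : T.tau J0 = c) (s1 : T.tau J1 = c) (s2 : T.tau J2 = c) (s3 : T.tau J3 = c)
    (A4 : T.Alg p (T.cls {J0, J1, J2, J3}))
    (hF : T.Free (T.cls {J0, J1, J2, J3}) (T.cls {P, Q})) :
    ∃ φ : FreeGroup (Unit ⊕ (Unit ⊕ Unit) ⊕ (Unit ⊕ Unit)) → R, T.Reg J0 φ ∧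
      T.cls (Set.range φ) = cor J0 (T.gen (T.cls {J0, J1, J2, J3} ∪ T.cls {P, Q})) ∧
      T.cls (Set.range fun g => φ (FreeGroup.map .inl g)) = T.gen {J0, J0 * P * J0} := by
  have C3 := alg3 (T := T) j1 j2 j3 i1 i2 i3 rfl
  obtain ⟨J, hJ⟩ : ∃ J, J = J1 + (J2 + J3) := ⟨_, rfl⟩
  rw [← hJ] at hp' C3
  have PJ := C3.pr
  have JJ : J0 * J = 0 := by simp [hJ, mul_add, k1, k2, k3]
  have tJ : T.tau J = 3 * c := by rw [hJ, map_add, map_add, s1, s2, s3]; ring
  have tp' : T.tau p = 4 * c := by rw [hp', map_add, s0, tJ]; ring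
  have n3 : T.tau J ≠ 0 := by rw [tJ]; simpa using c0
  have n4 : T.tau p ≠ 0 := by rw [tp']; simpa using c0
  have C2 := alg2 (T := T) hP hQ o hp
  have A2 := alg2 (T := T) j0 PJ JJ hp'
  have sA : T.cls {J0, J} ⊆ T.cls {J0, J1, J2, J3} := (cls_sub _).cls_le (by
    rintro _ (rfl | rfl)
    exacts [sub_cls (.inl rfl), cls_mono (Set.subset_insert _ _) C3.one])
  obtain ⟨F0, G0⟩ := step_split n4 A4 C2 hF j0 PJ JJ hp' C3.one
    (fun s hs => ⟨C3.l (sub_cls hs), C3.r (sub_cls hs)⟩) n3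
  set M := T.gen (T.cls {J0, J1, J2, J3} ∪ T.cls {P, Q})
  set N := T.gen (T.cls {J0, J} ∪ T.cls {P, Q})
  have WM : T.IsW M := gen_w _
  have WN : T.IsW N := gen_w _
  have nm : N ⊆ M := gen_mono (Set.union_subset_union_left _ sA)
  have eA : J0 ∈ T.cls {J0, J} := sub_cls (.inl rfl)
  have fC : P ∈ T.cls {P, Q} := sub_cls (.inl rfl)
  have a1 : T.tau J0 = ((1 / 4 : ℝ) : ℂ) * T.tau p := by rw [s0, tp']; push_cast; ring
  obtain ⟨q, r1, r2, Pq, P1, P2, hs, -, -, -, o1, o2, o3, tq, t1, -, r1N, r2N, ⟨v, vN, v1, v2⟩, -, -,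
    hx, ⟨u, hu, hu'⟩, hd⟩ := tp (β := 1 / 2) A2.pr j0 hP (A2.l eA) (C2.l fC) n4
    (by norm_num) (by norm_num) (by norm_num) a1 ((hF.mono sA le_rfl).z_pr A2 C2 eA fC a1
      (by rw [tP, tp']; push_cast; ring)) WN (sub_gen (.inl eA)) (sub_gen (.inr fC))
      (sub_gen (.inl A2.one)) (gen2_le hp' hp)
  rw [show p - J0 = J by rw [hp', add_sub_cancel_left]] at hs hd
  rw [add_assoc] at hs
  rw [s0] at tq
  replace t1 : T.tau r1 = c := by rw [t1, tP, s0]; ring
  have t2 : T.tau r2 = c := by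
    have := congrArg T.tau hs
    rw [map_add, map_add, tJ, tq, t1] at this
    linear_combination -this
  have A3 := alg3 (T := T) Pq P1 P2 o1 o2 o3 hs
  have qA : q ∈ T.cls {q, r1, r2} := sub_cls (.inl rfl)
  have sub1 : T.cls {q, r1, r2} ⊆ cor J N := (WN.cor PJ).cls_le fun s hs =>
    ⟨by
      rcases hs with h | h | h <;> rw [h]
      exacts [v2 ▸ WN.mul vN (WN.star vN), r1N, r2N], A3.l (sub_cls hs), A3.r (sub_cls hs)⟩
  obtain ⟨F1, G1⟩ := step' n3 (WN.cor_alg PJ (sub_gen (.inl (sub_cls (.inr rfl))))) C3 F0.symm A3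
    sub1 Pq qA (tq ▸ c0) (min_cls (tq ▸ c0) (by
      rintro _ (rfl | rfl | rfl)
      exacts [.inl (by rw [Pq.sq, Pq.sq]), .inr (by rw [o1, zero_mul]), .inr (by rw [o2, zero_mul])]))
      fun a ha => cls_mono (Set.subset_insert _ _) (hd a ha)
  rw [cor_cor Pq PJ (A3.l qA)] at F1 G1
  rw [Set.union_comm, ← G0, cor_cor Pq PJ (A3.l qA)] at G1
  obtain ⟨ψ, b1, b2⟩ := lf33 c0 Pq P1 P2 o1 o2 o3 hs j1 j2 j3 i1 i2 i3 hJ tq t1 t2 s1 s2 s3
    (F0.symm.mono sub1 le_rfl)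
  obtain ⟨φ, c1, c2, -⟩ := hu.lf j0
  obtain ⟨d1, d2⟩ := c1.move WN (c2.trans hu') vN v1 v2
  obtain ⟨χ, e1, e2, e3⟩ := d1.join b1 (by rwa [d2, b2])
  rw [d2, b2, ← G1] at e3
  obtain ⟨f1, f2⟩ := e1.move WM e3 (WM.star (nm vN)) (e' := J0) (by rwa [star_star])
    (by rwa [star_star])
  refine ⟨_, f1, f2, ?_⟩
  rw [hx, ← hu', ← c2]
  congr 2
  funext g
  rw [e2, star_star, ← mul_assoc, ← mul_assoc, v1, c1.l, mul_assoc, v1, c1.r]

end TW

end Pool.Agent.Lib.MP_263241_an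

/-! Trace-scaling correspondences between two tracial frames. -/

namespace Pool.Agent.Lib.MP_263241_an

open Filter Topology
open scoped InnerProductSpace

variable {R R' R'' H H' H'' : Type*} [CStarAlgebra R] [NormedAddCommGroup H]
  [InnerProductSpace ℂ H] [CStarAlgebra R'] [NormedAddCommGroup H'] [InnerProductSpace ℂ H']
  [CStarAlgebra R''] [NormedAddCommGroup H''] [InnerProductSpace ℂ H'']

namespace TW

/-- Direct sum of two frames. -/
noncomputable def prod (T : TW R H) (T' : TW R' H') : TW (R × R') (WithLp 2 (H × H')) where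
  ι := (WithLp.prodContinuousLinearEquiv 2 ℂ H H').symm.toContinuousLinearMap.comp
    (T.ι.prodMap T'.ι)
  inner_eq x y := by simp [T.inner_eq x.1, T'.inner_eq x.2]
  tr x y := by simp [T.tr x.1, T'.tr x.2]
  norm_mul x y := by
    refine le_of_sq_le_sq ?_ (by positivity)
    rw [mul_pow, WithLp.prod_norm_sq_eq_of_L2, WithLp.prod_norm_sq_eq_of_L2, mul_add, ← mul_pow,
      ← mul_pow]
    exact add_le_add (pow_le_pow_left₀ (norm_nonneg _) ((T.norm_mul _ _).trans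
      (mul_le_mul_of_nonneg_right (norm_fst_le x) (norm_nonneg _))) 2)
      (pow_le_pow_left₀ (norm_nonneg _) ((T'.norm_mul _ _).trans
      (mul_le_mul_of_nonneg_right (norm_snd_le x) (norm_nonneg _))) 2)
  inj x h := Prod.ext (T.inj _ (congrArg (fun z => (WithLp.ofLp z).1) h))
    (T'.inj _ (congrArg (fun z => (WithLp.ofLp z).2) h))
  compl a C h1 h2 := by
    have h3 := (WithLp.prodContinuousLinearEquiv 2 ℂ H H').toContinuousLinearMap.uniformContinuous
      |>.comp_cauchySeq h2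
    obtain ⟨x, hx⟩ := T.compl (fun n => (a n).1) C (fun n => (norm_fst_le _).trans (h1 n))
      (uniformContinuous_fst.comp_cauchySeq h3)
    obtain ⟨y, hy⟩ := T'.compl (fun n => (a n).2) C (fun n => (norm_snd_le _).trans (h1 n))
      (uniformContinuous_snd.comp_cauchySeq h3)
    exact ⟨(x, y), ((WithLp.prodContinuousLinearEquiv 2 ℂ H H').symm.continuous.tendsto _).comp
      (hx.prodMk_nhds hy)⟩

variable {T : TW R H} {T' : TW R' H'} {T'' : TW R'' H''}

theorem lim_prod {a : ℕ → R × R'} {z : R × R'} : (T.prod T').Lim a z ↔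
    T.Lim (fun n => (a n).1) z.1 ∧ T'.Lim (fun n => (a n).2) z.2 := by
  refine ⟨fun h => ?_, fun h =>
    ((WithLp.prodContinuousLinearEquiv 2 ℂ H H').symm.continuous.tendsto _).comp
      (h.1.prodMk_nhds h.2)⟩
  have := ((WithLp.prodContinuousLinearEquiv 2 ℂ H H').continuous.tendsto _).comp h
  exact ⟨(continuous_fst.tendsto _).comp this, (continuous_snd.tendsto _).comp this⟩

theorem mem_closure_sub {V : Set R} (h0 : 0 ∈ V) (h1 : ∀ x ∈ V, ∀ y ∈ V, x + y ∈ V)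
    (h2 : ∀ (c : ℂ), ∀ x ∈ V, c • x ∈ V) : T.IsSub {x | T.ι x ∈ closure (T.ι '' V)} := by
  let P : Submodule ℂ R := ⟨⟨⟨V, fun hx hy => h1 _ hx _ hy⟩, h0⟩, h2⟩
  let Q := (P.map (T.ι : R →ₗ[ℂ] H)).topologicalClosure.comap (T.ι : R →ₗ[ℂ] H)
  exact ⟨Q.zero_mem, Q.add_mem, fun c _ hx => Q.smul_mem c hx, fun a x ha hl =>
    isClosed_closure.mem_of_tendsto hl (.of_forall ha)⟩

theorem exists_seq {V : Set R} {x : R} (hx : T.ι x ∈ closure (T.ι '' V)) :
    ∃ a : ℕ → R, (∀ n, a n ∈ V) ∧ T.Lim a x := by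
  obtain ⟨b, h1, h2⟩ := mem_closure_iff_seq_limit.1 hx
  choose a ha hb using h1
  exact ⟨a, ha, by simpa only [Lim, hb] using h2⟩

theorem graph_norm {G : Set (R × R')} (hG : (T.prod T').IsW G) {c : ℝ} (hc : 0 ≤ c)
    (ht : ∀ z ∈ G, T'.tau z.2 = c * T.tau z.1) {z : R × R'} (hz : z ∈ G) :
    ‖T'.ι z.2‖ = √c * ‖T.ι z.1‖ := by
  have := ht _ (hG.mul (hG.star hz) hz)
  rw [Prod.fst_mul, Prod.snd_mul, Prod.fst_star, Prod.snd_star, tau_sq, tau_sq] at this
  refine (sq_eq_sq₀ (norm_nonneg _) (by positivity)).1 ?_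
  rw [mul_pow, Real.sq_sqrt hc]
  exact_mod_cast this

theorem graph_total {G : Set (R × R')} {E : R × R'} (hG : (T.prod T').Alg E G) {c : ℝ} (hc : 0 ≤ c)
    (ht : ∀ z ∈ G, T'.tau z.2 = c * T.tau z.1) {x : R} (hx : x ∈ T.cls (Prod.fst '' G)) :
    ∃ y, (x, y) ∈ G := by
  have pe : Pr E.1 := ⟨congrArg Prod.fst hG.pr.st, congrArg Prod.fst hG.pr.sq⟩
  have D : T.Alg E.1 (T.cls (Prod.fst '' G)) := cls_alg pe (sub_cls ⟨_, hG.one, rfl⟩)
    (by rintro _ ⟨z, hz, rfl⟩; exact congrArg Prod.fst (hG.l hz))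
    (by rintro _ ⟨z, hz, rfl⟩; exact sub_cls ⟨_, hG.star hz, rfl⟩)
    (by rintro _ ⟨z, hz, rfl⟩ _ ⟨w, hw, rfl⟩; exact sub_cls ⟨_, hG.mul hz hw, rfl⟩)
  have seq : ∀ x ∈ T.cls (Prod.fst '' G), star x = x →
      ∃ z : ℕ → R × R', (∀ n, z n ∈ G ∧ star (z n) = z n) ∧ T.Lim (fun n => (z n).1) x := by
    intro x hx hs
    obtain ⟨a, h1, h2⟩ := exists_seq ((mem_closure_sub (V := Prod.fst '' G) ⟨0, hG.zero, rfl⟩
      (by rintro _ ⟨z, hz, rfl⟩ _ ⟨w, hw, rfl⟩; exact ⟨_, hG.add hz hw, rfl⟩)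
      (by rintro s _ ⟨z, hz, rfl⟩; exact ⟨_, hG.smul s hz, rfl⟩)).cls_le
      (fun v hv => subset_closure ⟨v, hv, rfl⟩) hx)
    choose z hz hz' using h1
    refine ⟨fun n => (2⁻¹ : ℂ) • (z n + star (z n)), fun n =>
      ⟨hG.smul _ (hG.add (hz n) (hG.star (hz n))), by simp [add_comm]⟩, ?_⟩
    have := (h2.add h2.star).smul (2⁻¹ : ℂ)
    rw [hs, ← two_smul ℂ, smul_smul, inv_mul_cancel₀ two_ne_zero, one_smul] at this
    simpa [hz'] using this
  let ρ : ℝ → ℂ := fun t => ((1 + t ^ 2)⁻¹ : ℝ)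
  have cρ : Continuous ρ :=
    Complex.continuous_ofReal.comp (Continuous.inv₀ (by fun_prop) fun t => by positivity)
  have ρ1 : ∀ t, ‖ρ t‖ ≤ 1 := fun t => by
    rw [Complex.norm_real, Real.norm_of_nonneg (by positivity)]
    exact inv_le_one_of_one_le₀ (by nlinarith [sq_nonneg t])
  have ρ2 : ∀ t : ℝ, ‖ρ t * t‖ ≤ 1 := fun t => by
    rw [← Complex.ofReal_mul, Complex.norm_real, Real.norm_eq_abs, abs_mul,
      abs_of_pos (by positivity), ← div_eq_inv_mul, div_le_one (by positivity)]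
    nlinarith [sq_nonneg (|t| - 1), sq_abs t, abs_nonneg t]
  have ρ3 : ∀ t : ℝ, ρ t * (1 + t * t) = 1 := fun t => by
    have : (1 + t ^ 2)⁻¹ * (1 + t * t) = 1 := by rw [← sq]; exact inv_mul_cancel₀ (by positivity)
    simp only [ρ]; exact_mod_cast this
  have unit : ∀ x ∈ T.cls (Prod.fst '' G), star x = x → ‖x‖ ≤ 1 → ∃ y, (x, y) ∈ G := by
    intro x hx hs hn
    have sa : SA E.1 x := ⟨pe, hs, D.l hx⟩
    let g : ℝ → ℝ := fun t => t / (1 + √(1 - t ^ 2))
    have cg : Continuous g := Continuous.div (by fun_prop) (by fun_prop) fun t => by positivity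
    obtain ⟨b, hb⟩ : ∃ b, b = Ph E.1 x fun t => (g t : ℂ) := ⟨_, rfl⟩
    obtain ⟨B, hB⟩ : ∃ B, B = Ph E.1 x fun t => ρ (g t) := ⟨_, rfl⟩
    have b1 : (E.1 + b * b) * B = E.1 := by
      have : E.1 + b * b = Ph E.1 x fun t => 1 + (g t : ℂ) * g t := by
        rw [SA.ph_add (by fun_prop) (by fun_prop), sa.ph_mul (by fun_prop) (by fun_prop),
          sa.ph_const, one_smul, hb]
      rw [this, hB, ← sa.ph_mul (by fun_prop) (by fun_prop)]
      exact (sa.ph_congr fun t _ => by rw [mul_comm, ρ3]).trans ((sa.ph_const 1).trans (one_smul _ _))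
    have b2 : b * B = (2⁻¹ : ℂ) • x := by
      rw [hb, hB, ← sa.ph_mul (by fun_prop) (by fun_prop)]
      nth_rewrite 2 [← sa.ph_id]
      rw [← SA.ph_smul _ (by fun_prop)]
      refine sa.ph_congr fun t ht => ?_
      have h1 : 0 ≤ 1 - t ^ 2 := by nlinarith [(SA.spec_le ht).trans hn, sq_abs t, abs_nonneg t]
      have h2 := Real.sq_sqrt h1
      have h3 : 0 < 1 + √(1 - t ^ 2) := by positivity
      have : g t * (1 + g t ^ 2)⁻¹ = 2⁻¹ * t := by
        simp only [g]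
        field_simp
        linear_combination (-t) * h2
      simp only [ρ]
      rw [← Complex.ofReal_mul, this]; simp
    obtain ⟨z, hz, hl⟩ := seq b (hb ▸ D.ph_mem sa D.one hx _) (by
      rw [hb, ← sa.ph_star]; exact sa.ph_congr fun t _ => Complex.conj_ofReal _)
    have sz : ∀ n, SA E (z n) := fun n => ⟨hG.pr, (hz n).2, hG.l (hz n).1⟩
    have w1 : ∀ n, Ph E (z n) ρ * z n = Ph E (z n) fun t => ρ t * t := fun n => by
      rw [(sz n).ph_mul cρ (by fun_prop), (sz n).ph_id]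
    have w2 : ∀ n, Ph E (z n) ρ * (E + z n * z n) = E := fun n => by
      have : E + z n * z n = Ph E (z n) fun t => 1 + t * t := by
        rw [SA.ph_add (by fun_prop) (by fun_prop), (sz n).ph_mul (by fun_prop) (by fun_prop),
          (sz n).ph_id, (sz n).ph_const, one_smul]
      rw [this, ← (sz n).ph_mul cρ (by fun_prop)]
      simp only [ρ3, (sz n).ph_const, one_smul]
    have n1 : ∀ n, ‖Ph E (z n) ρ‖ ≤ 1 := fun n => (sz n).ph_norm zero_le_one fun t _ => ρ1 t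
    have n2 : ∀ n, ‖Ph E (z n) ρ * z n‖ ≤ 1 := fun n =>
      w1 n ▸ (sz n).ph_norm zero_le_one fun t _ => ρ2 t
    have wG : ∀ n, Ph E (z n) ρ * z n ∈ G := fun n =>
      hG.mul (hG.ph_mem (sz n) hG.one (hz n).1 _) (hz n).1
    have l2 : T.Lim (fun n => (Ph E (z n) ρ * z n).1) ((2⁻¹ : ℂ) • x) := by
      refine hl.of_le (‖B‖ + ‖b * B‖) fun n => ?_
      have e1 : (Ph E (z n) ρ * z n).1 - (2⁻¹ : ℂ) • x = (Ph E (z n) ρ).1 * (((z n).1 - b) * B) -
          (Ph E (z n) ρ * z n).1 * (((z n).1 - b) * (b * B)) := by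
        have a1 : (Ph E (z n) ρ).1 * (E.1 + (z n).1 * (z n).1) = E.1 := congrArg Prod.fst (w2 n)
        have a2 : (z n).1 * E.1 = (z n).1 := congrArg Prod.fst (sz n).r
        have a3 : E.1 * b = b := hb ▸ sa.ph_l _
        rw [← b2, Prod.fst_mul]
        calc _ = (Ph E (z n) ρ).1 * (z n).1 * ((E.1 + b * b) * B) -
              (Ph E (z n) ρ).1 * (E.1 + (z n).1 * (z n).1) * (b * B) := by
              rw [b1, a1, mul_assoc, a2, ← mul_assoc E.1, a3]
          _ = _ := by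
              simp only [mul_add, add_mul, mul_sub, sub_mul, mul_assoc, ← mul_assoc _ E.1, a2,
                ← mul_assoc E.1, a3]
              abel
      rw [e1, map_sub, add_mul]
      refine (norm_sub_le _ _).trans (add_le_add ((T.norm_mul _ _).trans ?_) ((T.norm_mul _ _).trans ?_))
      · exact (mul_le_of_le_one_left (norm_nonneg _) ((norm_fst_le _).trans (n1 n))).trans
          (T.norm_mul' _ _)
      · exact (mul_le_of_le_one_left (norm_nonneg _) ((norm_fst_le _).trans (n2 n))).trans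
          (T.norm_mul' _ _)
    obtain ⟨y, hy⟩ := T'.compl (fun n => (Ph E (z n) ρ * z n).2) 1
      (fun n => (norm_snd_le _).trans (n2 n)) (by
        have := l2.cauchySeq
        rw [Metric.cauchySeq_iff] at this ⊢
        refine fun ε hε => (this (ε / (√c + 1)) (by positivity)).imp fun N hN a ha b hb => ?_
        have h1 := hN a ha b hb
        have h2 := graph_norm hG.toIsW hc ht (hG.sub (wG a) (wG b))
        rw [dist_eq_norm, ← map_sub, lt_div_iff₀ (by positivity)] at h1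
        rw [dist_eq_norm, ← map_sub, ← Prod.snd_sub, h2, Prod.fst_sub]
        nlinarith [norm_nonneg (T.ι ((Ph E (z a) ρ * z a).1 - (Ph E (z b) ρ * z b).1))])
    have := hG.smul 2 (hG.lim _ wG (x := (_, y)) (lim_prod.2 ⟨l2, hy⟩))
    exact ⟨(2 : ℂ) • y, by simpa [smul_smul] using this⟩
  have sa : ∀ x ∈ T.cls (Prod.fst '' G), star x = x → ∃ y, (x, y) ∈ G := by
    intro x hx hs
    have h0 : (0 : ℝ) < ‖x‖ + 1 := by positivity
    obtain ⟨y, hy⟩ := unit ((((‖x‖ + 1)⁻¹ : ℝ) : ℂ) • x) (D.smul _ hx) (by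
      rw [star_smul, hs, Complex.star_def, Complex.conj_ofReal]) (by
      rw [norm_smul, Complex.norm_real, Real.norm_of_nonneg (by positivity), ← div_eq_inv_mul,
        div_le_one h0]; linarith)
    have := hG.smul ((‖x‖ + 1 : ℝ) : ℂ) hy
    rw [Prod.smul_mk, smul_smul, ← Complex.ofReal_mul, mul_inv_cancel₀ h0.ne', Complex.ofReal_one,
      one_smul] at this
    exact ⟨_, this⟩
  obtain ⟨y1, h1⟩ := sa (x + star x) (D.add hx (D.star hx)) (by simp [add_comm])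
  obtain ⟨y2, h2⟩ := sa (Complex.I • (x - star x)) (D.smul _ (D.sub hx (D.star hx))) (by
    rw [star_smul, star_sub, star_star, Complex.star_def, Complex.conj_I]; module)
  have := hG.smul 2⁻¹ (hG.sub h1 (hG.smul Complex.I h2))
  rw [Prod.smul_mk, Prod.mk_sub_mk, Prod.smul_mk, smul_smul, Complex.I_mul_I] at this
  exact ⟨_, by convert this using 2; module⟩

variable (T T') in
/-- A correspondence: the graph of an isomorphism between two closed algebras. -/
structure Corr (ρ : R → R' → Prop) : Prop where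
  add : ∀ {x y x' y'}, ρ x y → ρ x' y' → ρ (x + x') (y + y')
  smul : ∀ (c : ℂ) {x y}, ρ x y → ρ (c • x) (c • y)
  mul : ∀ {x y x' y'}, ρ x y → ρ x' y' → ρ (x * x') (y * y')
  star : ∀ {x y}, ρ x y → ρ (star x) (star y)
  fn : ∀ {y}, ρ 0 y → y = 0
  inj : ∀ {x}, ρ x 0 → x = 0
  pull : ∀ B, T'.IsW B → T.IsW {a | ∃ b ∈ B, ρ a b}
  push : ∀ A, T.IsW A → T'.IsW {b | ∃ a ∈ A, ρ a b}

theorem graph_pull {G : Set (R × R')} {E : R × R'} (hG : (T.prod T').Alg E G) {c : ℝ} (hc : 0 ≤ c)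
    (ht : ∀ z ∈ G, T'.tau z.2 = c * T.tau z.1) (B : Set R') (hB : T'.IsW B) :
    T.IsW {a | ∃ b ∈ B, (a, b) ∈ G} := by
  refine ⟨⟨⟨0, hB.zero, hG.zero⟩, fun ⟨_, h1, h2⟩ ⟨_, h3, h4⟩ => ⟨_, hB.add h1 h3, hG.add h2 h4⟩,
    fun s _ ⟨_, h1, h2⟩ => ⟨_, hB.smul s h1, hG.smul s h2⟩, fun a x ha hl => ?_⟩,
    fun ⟨_, h1, h2⟩ ⟨_, h3, h4⟩ => ⟨_, hB.mul h1 h3, hG.mul h2 h4⟩,
    fun ⟨_, h1, h2⟩ => ⟨_, hB.star h1, hG.star h2⟩⟩
  choose b h1 h2 using ha
  obtain ⟨y, hy⟩ := graph_total hG hc ht (x := x)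
    ((cls_sub _).lim a (fun n => sub_cls ⟨_, h2 n, rfl⟩) hl)
  refine ⟨y, hB.lim b h1 ?_, hy⟩
  rw [lim_iff] at hl ⊢
  have := hl.const_mul √c
  rw [mul_zero] at this
  exact this.congr fun n => (graph_norm hG.toIsW hc ht (hG.sub (h2 n) hy)).symm

theorem graph_corr {G : Set (R × R')} {E : R × R'} (hG : (T.prod T').Alg E G) {c : ℝ} (hc : 0 < c)
    (ht : ∀ z ∈ G, T'.tau z.2 = c * T.tau z.1) : T.Corr T' fun x y => (x, y) ∈ G := by
  have hG' : (T'.prod T).Alg E.swap (Prod.swap ⁻¹' G) :=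
    ⟨⟨⟨hG.zero, hG.add, fun s _ h => hG.smul s h, fun a x ha hl =>
      hG.lim _ ha (lim_prod.2 (lim_prod.1 hl).symm)⟩, hG.mul, hG.star⟩,
      ⟨congrArg Prod.swap hG.pr.st, congrArg Prod.swap hG.pr.sq⟩, hG.one,
      fun h => congrArg Prod.swap (hG.l h)⟩
  refine ⟨hG.add, fun s _ _ h => hG.smul s h, hG.mul, hG.star, fun h => T'.inj _ ?_,
    fun h => T.inj _ ?_, graph_pull hG hc.le ht, graph_pull hG' (inv_pos.2 hc).le fun z hz => ?_⟩
  · simpa using graph_norm hG.toIsW hc.le ht h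
  · simpa [hc.not_ge, Real.sqrt_eq_zero'] using (graph_norm hG.toIsW hc.le ht h).symm
  · have := ht _ hz
    rw [Prod.fst_swap, Prod.snd_swap] at this
    rw [this, ← mul_assoc, ← Complex.ofReal_mul, inv_mul_cancel₀ hc.ne', Complex.ofReal_one, one_mul]

/-- The correspondence generated by a multiplicative family of pairs. -/
theorem exists_corr {S : Set (R × R')} {E : R × R'} (hE : Pr E) (h0 : E ∈ (T.prod T').cls S)
    (hl : ∀ s ∈ S, E * s = s) (h1 : ∀ s ∈ S, star s ∈ (T.prod T').cls S)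
    (h2 : ∀ s ∈ S, ∀ t ∈ S, s * t ∈ (T.prod T').cls S) {c : ℝ} (hc : 0 < c)
    (ht : ∀ z ∈ S, T'.tau z.2 = c * T.tau z.1) :
    ∃ ρ, T.Corr T' ρ ∧ (∀ z ∈ S, ρ z.1 z.2) ∧ ρ E.1 E.2 ∧
      ∀ x y, ρ x y → x ∈ T.cls (Prod.fst '' S) ∧ y ∈ T'.cls (Prod.snd '' S) := by
  refine ⟨_, graph_corr (cls_alg hE h0 hl h1 h2) hc fun z hz => ?_, fun z hz => sub_cls hz, h0,
    fun x y h => ?_⟩
  · induction hz with
    | base h => exact ht _ h
    | zero => simp
    | add _ _ h1 h2 => simp [h1, h2, mul_add]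
    | smul s _ h1 => simp [h1, mul_left_comm]
    | lim a _ h1 h2 =>
      have := (lim_prod.1 h1).2.tau
      simp only [h2] at this
      exact tendsto_nhds_unique this ((lim_prod.1 h1).1.tau.const_mul _)
  · suffices ∀ z ∈ (T.prod T').cls S, z.1 ∈ T.cls (Prod.fst '' S) ∧ z.2 ∈ T'.cls (Prod.snd '' S) from
      this _ h
    intro z hz
    induction hz with
    | base h => exact ⟨sub_cls ⟨_, h, rfl⟩, sub_cls ⟨_, h, rfl⟩⟩
    | zero => exact ⟨.zero, .zero⟩
    | add _ _ h1 h2 => exact ⟨.add h1.1 h2.1, .add h1.2 h2.2⟩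
    | smul s _ h1 => exact ⟨.smul s h1.1, .smul s h1.2⟩
    | lim a _ h1 h2 =>
      exact ⟨.lim _ (fun n => (h2 n).1) (lim_prod.1 h1).1, .lim _ (fun n => (h2 n).2) (lim_prod.1 h1).2⟩

theorem Corr.symm {ρ : R → R' → Prop} (h : T.Corr T' ρ) : T'.Corr T fun y x => ρ x y :=
  ⟨h.add, fun c _ _ => h.smul c, h.mul, h.star, h.inj, h.fn, h.push, h.pull⟩

theorem Corr.comp {ρ : R → R' → Prop} {σ : R' → R'' → Prop} (h : T.Corr T' ρ) (h' : T'.Corr T'' σ) :
    T.Corr T'' fun x z => ∃ y, ρ x y ∧ σ y z := by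
  refine ⟨fun ⟨_, h1, h2⟩ ⟨_, h3, h4⟩ => ⟨_, h.add h1 h3, h'.add h2 h4⟩,
    fun c _ _ ⟨_, h1, h2⟩ => ⟨_, h.smul c h1, h'.smul c h2⟩,
    fun ⟨_, h1, h2⟩ ⟨_, h3, h4⟩ => ⟨_, h.mul h1 h3, h'.mul h2 h4⟩,
    fun ⟨_, h1, h2⟩ => ⟨_, h.star h1, h'.star h2⟩, fun ⟨_, h1, h2⟩ => h'.fn (h.fn h1 ▸ h2),
    fun ⟨_, h1, h2⟩ => h.inj (h'.inj h2 ▸ h1), fun B hB => ?_, fun A hA => ?_⟩
  · convert h.pull _ (h'.pull B hB) using 2
    ext a
    exact ⟨fun ⟨b, h1, y, h2, h3⟩ => ⟨y, ⟨b, h1, h3⟩, h2⟩, fun ⟨y, ⟨b, h1, h3⟩, h2⟩ => ⟨b, h1, y, h2, h3⟩⟩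
  · convert h'.push _ (h.push A hA) using 2
    ext a
    exact ⟨fun ⟨b, h1, y, h2, h3⟩ => ⟨y, ⟨b, h1, h2⟩, h3⟩, fun ⟨y, ⟨b, h1, h2⟩, h3⟩ => ⟨b, h1, y, h2, h3⟩⟩

theorem Corr.uniq {ρ : R → R' → Prop} (h : T.Corr T' ρ) {x : R} {y y' : R'} (h1 : ρ x y)
    (h2 : ρ x y') : y = y' := by
  have := h.add h1 (h.smul (-1) h2)
  rw [neg_one_smul, neg_one_smul, add_neg_cancel, ← sub_eq_add_neg] at this
  exact sub_eq_zero.1 (h.fn this)

/-- A correspondence maps generated algebras into closed algebras containing the generators. -/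
theorem Corr.gen {ρ : R → R' → Prop} (h : T.Corr T' ρ) {S : Set R} {B : Set R'} (hB : T'.IsW B)
    (hS : ∀ s ∈ S, ∃ b ∈ B, ρ s b) {x : R} (hx : x ∈ T.gen S) : ∃ b ∈ B, ρ x b :=
  (h.pull B hB).gen_le hS hx

theorem Corr.equiv {ρ : R → R' → Prop} (h : T.Corr T' ρ) (N : StarSubalgebra ℂ R)
    (N' : StarSubalgebra ℂ R') (h1 : ∀ x ∈ N, ∃ y ∈ N', ρ x y) (h2 : ∀ y ∈ N', ∃ x ∈ N, ρ x y) :
    ∃ θ : N ≃⋆ₐ[ℂ] N', ∀ x : N, ρ x (θ x) := by
  choose f f1 f2 using h1
  choose g g1 g2 using h2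
  exact ⟨{ toFun := fun x => ⟨f x x.2, f1 _ _⟩
           invFun := fun y => ⟨g y y.2, g1 _ _⟩
           left_inv := fun x => Subtype.ext (h.symm.uniq (g2 _ _) (f2 _ _))
           right_inv := fun y => Subtype.ext (h.uniq (f2 _ _) (g2 _ _))
           map_mul' := fun x y => Subtype.ext (h.uniq (f2 _ _) (h.mul (f2 _ _) (f2 _ _)))
           map_add' := fun x y => Subtype.ext (h.uniq (f2 _ _) (h.add (f2 _ _) (f2 _ _)))
           map_star' := fun x => Subtype.ext (h.uniq (f2 _ _) (h.star (f2 _ _)))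
           map_smul' := fun c x => Subtype.ext (h.uniq (f2 _ _) (h.smul c (f2 _ _))) },
    fun x => f2 _ _⟩

end TW

end Pool.Agent.Lib.MP_263241_an

/-! The tracial frame of a group von Neumann algebra. -/

namespace Pool.Agent.Lib.MP_263241_an

open Filter Topology StarSubalgebra ContinuousLinearMap
open scoped InnerProductSpace ComplexConjugate

/-- `ℓ²(G)`. -/
noncomputable abbrev L2 (G : Type*) := lp (fun _ : G => ℂ) 2

variable {G : Type*} [DecidableEq G]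

/-- The standard basis. -/
noncomputable abbrev dl (g : G) : L2 G := lp.single 2 g 1

theorem inner_dl (g : G) (x : L2 G) : ⟪dl g, x⟫_ℂ = x g := by
  rw [lp.inner_single_left]; simp

theorem inner_dl_dl (g h : G) : ⟪dl g, dl h⟫_ℂ = if g = h then 1 else 0 := by
  rw [inner_dl, lp.single_apply, Pi.single_apply]

theorem l2_ind {P : Submodule ℂ (L2 G)} (hc : IsClosed (P : Set (L2 G))) (h : ∀ g, dl g ∈ P)
    (x : L2 G) : x ∈ P := by
  refine hc.mem_of_tendsto (lp.hasSum_single (by norm_num) x) (.of_forall fun s => P.sum_mem ?_)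
  intro g _
  have := P.smul_mem (x g) (h g)
  rwa [← lp.single_smul, smul_eq_mul, mul_one] at this

theorem l2_ext {S T : L2 G →L[ℂ] L2 G} (h : ∀ g, S (dl g) = T (dl g)) : S = T := by
  ext1 x
  exact l2_ind (P := LinearMap.eqLocus (S : L2 G →ₗ[ℂ] L2 G) T)
    (isClosed_eq S.continuous T.continuous) h x

theorem l2_ext2 {S T : L2 G →L[ℂ] L2 G} (h : ∀ g k, ⟪dl g, S (dl k)⟫_ℂ = ⟪dl g, T (dl k)⟫_ℂ) :
    S = T :=
  l2_ext fun k => lp.ext (funext fun g => by rw [← inner_dl, ← inner_dl, h])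

theorem exists_mono (f : G ≃ G) (c : G → ℂ) (hc : ∀ g, conj (c g) * c g = 1) :
    ∃ V : L2 G →L[ℂ] L2 G, (∀ g, V (dl g) = c g • dl (f g)) ∧
      ∀ g, star V (dl (f g)) = conj (c g) • dl g := by
  have O : Orthonormal ℂ fun g => c g • dl (f g) := orthonormal_iff_ite.2 fun g h => by
    rw [inner_smul_left, inner_smul_right, inner_dl_dl]
    by_cases e : g = h
    · simp [e, hc]
    · simp [e]
  have h1 : ∀ g, O.orthogonalFamily.linearIsometry.toContinuousLinearMap (dl g) = c g • dl (f g) :=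
    fun g => by simp [OrthogonalFamily.linearIsometry_apply_single]
  refine ⟨_, h1, fun g => lp.ext (funext fun k => ?_)⟩
  rw [← inner_dl, ← inner_dl, star_eq_adjoint, adjoint_inner_right, h1, inner_smul_left,
    inner_smul_right, inner_dl_dl, inner_dl_dl]
  by_cases e : k = g <;> simp [e]

variable [Group G]

/-- The left regular representation. -/
def IsL (u : G → L2 G →L[ℂ] L2 G) : Prop := ∀ g h, u g (dl h) = dl (g * h)

theorem exists_isL : ∃ u : G → L2 G →L[ℂ] L2 G, IsL u := by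
  choose u hu _ using fun g : G => exists_mono (Equiv.mulLeft g) (fun _ => 1) (by simp)
  exact ⟨u, fun g h => by simpa using hu g h⟩

/-- The group von Neumann algebra. -/
noncomputable def MM (u : G → L2 G →L[ℂ] L2 G) : StarSubalgebra ℂ (L2 G →L[ℂ] L2 G) :=
  centralizer ℂ (centralizer ℂ (Set.range u) : Set (L2 G →L[ℂ] L2 G))

instance (u : G → L2 G →L[ℂ] L2 G) : IsClosed (MM u : Set (L2 G →L[ℂ] L2 G)) :=
  Set.isClosed_centralizer _

theorem mem_cc {A : Type*} [Ring A] [StarRing A] [Algebra ℂ A] [StarModule ℂ A] {S : Set A} {x : A} :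
    x ∈ centralizer ℂ (centralizer ℂ S : Set A) ↔ ∀ y ∈ centralizer ℂ S, y * x = x * y :=
  ⟨fun h y hy => ((mem_centralizer_iff ℂ).1 h y hy).1, fun h =>
    (mem_centralizer_iff ℂ).2 fun y hy => ⟨h y hy, h _ (star_mem hy)⟩⟩

theorem sub_cc {A : Type*} [Ring A] [StarRing A] [Algebra ℂ A] [StarModule ℂ A] {S : Set A} {x : A}
    (hx : x ∈ S) : x ∈ centralizer ℂ (centralizer ℂ S : Set A) :=
  mem_cc.2 fun _ hy => ((mem_centralizer_iff ℂ).1 hy x hx).1.symm

/-- The canonical unitaries as elements of the group von Neumann algebra. -/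
noncomputable def lam (u : G → L2 G →L[ℂ] L2 G) (g : G) : MM u := ⟨u g, sub_cc ⟨g, rfl⟩⟩

namespace IsL

variable {u : G → L2 G →L[ℂ] L2 G} (hu : IsL u)
include hu

theorem one : u 1 = 1 := l2_ext fun g => by rw [hu, one_mul]; rfl

theorem mul (g h : G) : u (g * h) = u g * u h := l2_ext fun k => by
  rw [mul_apply_eq_comp, hu, hu, hu, mul_assoc]

theorem inv (g : G) : u g⁻¹ = star (u g) := l2_ext2 fun k h => by
  rw [star_eq_adjoint, adjoint_inner_right, hu, hu, inner_dl_dl, inner_dl_dl]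
  simp only [eq_inv_mul_iff_mul_eq]

theorem hom : Hom 1 (lam u) :=
  ⟨Subtype.ext hu.one, fun g h => Subtype.ext (hu.mul g h), fun g => Subtype.ext (hu.inv g)⟩

theorem mem_comm {y : L2 G →L[ℂ] L2 G} (h : ∀ g, u g * y = y * u g) :
    y ∈ centralizer ℂ (Set.range u) :=
  (mem_centralizer_iff ℂ).2 (by rintro _ ⟨g, rfl⟩; exact ⟨h g, hu.inv g ▸ h _⟩)

theorem exists_right (g : G) : ∃ V : L2 G →L[ℂ] L2 G,
    (∀ x : MM u, x.1 (dl g) = V (x.1 (dl 1))) ∧ star V (dl 1) = dl g⁻¹ := by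
  obtain ⟨V, h1, h2⟩ := exists_mono (Equiv.mulRight g) (fun _ => 1) (by simp)
  refine ⟨V, fun x => ?_, by simpa using h2 g⁻¹⟩
  have := mem_cc.1 x.2 V (hu.mem_comm fun k => l2_ext fun h => by
    simp [h1, hu _ _, mul_assoc])
  rw [← mul_apply_eq_comp, this, mul_apply_eq_comp, h1]; simp

theorem tr (x y : MM u) : ⟪dl 1, x.1 (y.1 (dl 1))⟫_ℂ = ⟪dl 1, y.1 (x.1 (dl 1))⟫_ℂ := by
  have key : ∀ x y : MM u, ⟪dl 1, x.1 (y.1 (dl 1))⟫_ℂ =
      ∑' g, x.1 (dl 1) g⁻¹ * y.1 (dl 1) g := fun x y => by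
    rw [← adjoint_inner_left, lp.inner_eq_tsum]
    refine tsum_congr fun g => ?_
    obtain ⟨V, h1, h2⟩ := hu.exists_right g
    rw [RCLike.inner_apply', ← inner_dl g (adjoint x.1 (dl 1)), inner_conj_symm, adjoint_inner_left,
      h1, ← adjoint_inner_left, ← star_eq_adjoint, h2, inner_dl]
  rw [key, key, ← (Equiv.inv G).tsum_eq]
  simp [mul_comm]

theorem strong {a : ℕ → MM u} {x : MM u}
    (h : Tendsto (fun n => (a n).1 (dl 1)) atTop (𝓝 (x.1 (dl 1)))) (g : G) :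
    Tendsto (fun n => (a n).1 (dl g)) atTop (𝓝 (x.1 (dl g))) := by
  obtain ⟨V, h1, -⟩ := hu.exists_right g
  simp only [h1]
  exact (V.continuous.tendsto _).comp h

/-- The canonical frame. -/
noncomputable def tw : TW (MM u) (L2 G) where
  ι := { toFun := fun x => x.1 (dl 1)
         map_add' := fun _ _ => rfl
         map_smul' := fun _ _ => rfl
         cont := by fun_prop }
  inner_eq x y := by
    change ⟪x.1 (dl 1), y.1 (dl 1)⟫_ℂ = ⟪dl 1, adjoint x.1 (y.1 (dl 1))⟫_ℂ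
    rw [adjoint_inner_right]
  tr x y := hu.tr x y
  norm_mul x y := x.1.le_opNorm _
  inj x h := Subtype.ext (l2_ext fun g => by
    obtain ⟨V, h1, -⟩ := hu.exists_right g
    rw [h1, show x.1 (dl 1) = 0 from h, map_zero]; rfl)
  compl a C h1 h2 := by
    have hC : 0 ≤ C := (norm_nonneg _).trans (h1 0)
    let P : Submodule ℂ (L2 G) :=
      { carrier := {v | CauchySeq fun n => (a n).1 v}
        add_mem' := fun h1 h2 => by simpa [Pi.add_def] using CauchySeq.add h1 h2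
        zero_mem' := by simpa using cauchySeq_const (0 : L2 G)
        smul_mem' := fun c v h => by
          simpa [Function.comp_def] using (uniformContinuous_const_smul c).comp_cauchySeq h }
    have hP : ∀ v, v ∈ P := l2_ind (isClosed_of_closure_subset fun v hv => by
      refine Metric.cauchySeq_iff.2 fun ε hε => ?_
      obtain ⟨w, hw, h3⟩ := Metric.mem_closure_iff.1 hv (ε / (3 * (C + 1))) (by positivity)
      refine (Metric.cauchySeq_iff.1 hw (ε / 3) (by positivity)).imp fun N hN m hm n hn => ?_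
      have h4 : ∀ n, dist ((a n).1 v) ((a n).1 w) < ε / 3 := fun n => by
        rw [lt_div_iff₀ (by positivity)] at h3 ⊢
        have := (a n).1.dist_le_opNorm v w
        have h5 : ‖(a n).1‖ ≤ C := h1 n
        nlinarith [dist_nonneg (x := v) (y := w)]
      linarith [dist_triangle4 ((a m).1 v) ((a m).1 w) ((a n).1 w) ((a n).1 v), h4 m, h4 n,
        hN m hm n hn, dist_comm ((a n).1 w) ((a n).1 v)]) fun g => by
      obtain ⟨V, h3, -⟩ := hu.exists_right g
      change CauchySeq fun n => (a n).1 (dl g)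
      simp only [h3]
      exact V.uniformContinuous.comp_cauchySeq h2
    choose f hf using fun v => cauchySeq_tendsto_of_complete (hP v)
    let x := continuousLinearMapOfTendsto (fun n => (a n).1) (tendsto_pi_nhds.2 hf)
    refine ⟨⟨x, mem_cc.2 fun y hy => ?_⟩, hf _⟩
    ext1 v
    exact tendsto_nhds_unique ((y.continuous.tendsto _).comp (hf v)) ((hf (y v)).congr fun n =>
      (congrArg (fun z : L2 G →L[ℂ] L2 G => z v) (mem_cc.1 (a n).2 y hy)).symm)

theorem tau_lam (g : G) : hu.tw.tau (lam u g) = if g = 1 then 1 else 0 := by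
  change ⟪dl 1, u g (dl 1)⟫_ℂ = _
  rw [hu, mul_one, inner_dl_dl]; simp only [eq_comm]

theorem tau_one : hu.tw.tau 1 = 1 := by rw [← hu.hom.one, hu.tau_lam, if_pos rfl]

theorem mem_gen {S : Set (MM u)} {x : MM u} : x ∈ hu.tw.gen (insert 1 S) ↔
    x.1 ∈ centralizer ℂ (centralizer ℂ (Subtype.val '' S) : Set (L2 G →L[ℂ] L2 G)) := by
  constructor
  · intro hx
    obtain ⟨C, hC⟩ : ∃ C : StarSubalgebra ℂ (MM u), ∀ x : MM u, x ∈ C ↔ x.1 ∈ centralizer ℂ
        (centralizer ℂ (Subtype.val '' S) : Set (L2 G →L[ℂ] L2 G)) :=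
      ⟨StarSubalgebra.comap (MM u).subtype (centralizer ℂ
        (centralizer ℂ (Subtype.val '' S) : Set (L2 G →L[ℂ] L2 G))), fun _ => Iff.rfl⟩
    refine (hC x).1 (TW.IsW.gen_le (T := hu.tw) (A := C) ⟨⟨zero_mem _, add_mem,
      fun c _ h => SMulMemClass.smul_mem c h,
      fun a x ha hl => (hC x).2 (mem_cc.2 fun y hy => l2_ext2 fun g k => ?_)⟩, mul_mem,
      star_mem⟩ ?_ hx)
    · have h1 := tendsto_const_nhds (x := dl g) |>.inner (𝕜 := ℂ)
        ((y.continuous.tendsto _).comp (hu.strong hl k))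
      have h2 := (hu.strong (a := fun n => star (a n)) (x := star x) hl.star g).inner (𝕜 := ℂ)
        (tendsto_const_nhds (x := y (dl k)))
      refine (tendsto_nhds_unique h1 (h2.congr fun n => ?_)).trans (adjoint_inner_left _ _ _)
      refine (adjoint_inner_left _ _ _).trans ?_
      rw [← mul_apply_eq_comp, ← mem_cc.1 ((hC _).1 (ha n)) y hy]; rfl
    · rintro s (rfl | hs)
      exacts [one_mem C, (hC _).2 (sub_cc ⟨s, hs, rfl⟩)]
  · intro hx
    have W := TW.gen_w (T := hu.tw) (insert 1 S)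
    let P : Submodule ℂ (MM u) := ⟨⟨⟨hu.tw.gen (insert 1 S), W.add⟩, W.zero⟩, fun c _ => W.smul c⟩
    let K := (P.map (hu.tw.ι : MM u →ₗ[ℂ] L2 G)).topologicalClosure
    have inv : ∀ a ∈ P, K.starProjection * a.1 * K.starProjection = a.1 * K.starProjection := by
      intro a ha
      ext1 v
      refine Submodule.starProjection_eq_self_iff.2 ?_
      refine map_mem_closure (f := a.1) a.1.continuous (K.starProjection_apply_mem v) ?_
      rintro _ ⟨b, hb, rfl⟩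
      exact ⟨a * b, W.mul ha hb, rfl⟩
    have sa : star K.starProjection = K.starProjection := isSelfAdjoint_starProjection K
    have com : ∀ a ∈ P, a.1 * K.starProjection = K.starProjection * a.1 := fun a ha => by
      have := congrArg star (inv _ (W.star ha))
      rw [star_mul, star_mul, star_mul, sa, StarMemClass.coe_star, star_star, ← mul_assoc] at this
      rw [← inv a ha, this]
    have h1 := mem_cc.1 hx K.starProjection ((mem_centralizer_iff ℂ).2 (by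
      rintro _ ⟨s, hs, rfl⟩
      exact ⟨com s (TW.sub_gen (.inr hs)), com _ (W.star (TW.sub_gen (.inr hs)))⟩))
    have h2 : K.starProjection (dl 1) = dl 1 := Submodule.starProjection_eq_self_iff.2
      (subset_closure ⟨1, TW.sub_gen (.inl rfl), rfl⟩)
    have h3 : x.1 (dl 1) ∈ K := by
      rw [← h2, ← mul_apply_eq_comp, ← h1]
      exact K.starProjection_apply_mem _
    obtain ⟨a, h4, h5⟩ := TW.exists_seq (T := hu.tw) (V := hu.tw.gen (insert 1 S)) h3
    exact W.lim a h4 h5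

theorem mem_cls (x : MM u) : x ∈ hu.tw.cls (Set.range (lam u)) := by
  refine (TW.hom_alg hu.hom).gen_le (Set.insert_subset (TW.hom_alg hu.hom).one TW.sub_cls)
    (hu.mem_gen.2 ?_)
  rw [← Set.range_comp]
  exact x.2

/-- The automorphism given by a group automorphism twisted by a character. -/
theorem exists_aut (f : G ≃* G) (c : G →* ℂ) (hc : ∀ g, conj (c g) * c g = 1) :
    ∃ β : MM u ≃⋆ₐ[ℂ] MM u, hu.tw.LinC β ∧ ∀ g, β (lam u g) = c g • lam u (f g) := by
  obtain ⟨U, h1, h2⟩ := exists_mono f.toEquiv c hc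
  simp only [MulEquiv.toEquiv_eq_coe, EquivLike.coe_coe] at h1 h2
  have a1 : star U * U = 1 := l2_ext fun g => by
    rw [mul_apply_eq_comp, h1, map_smul, h2, smul_smul, mul_comm, hc, one_smul]; rfl
  have a2 : U * star U = 1 := l2_ext fun g => by
    obtain ⟨g, rfl⟩ := f.surjective g
    rw [mul_apply_eq_comp, h2, map_smul, h1, smul_smul, hc, one_smul]; rfl
  have a3 : ∀ g, U * u g = c g • u (f g) * U := fun g => l2_ext fun k => by
    simp only [mul_apply_eq_comp, hu _ _, h1, map_smul, map_mul, smul_apply, smul_smul, mul_comm]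
  have key : ∀ V : L2 G →L[ℂ] L2 G, star V * V = 1 → V * star V = 1 →
      (∀ g, ∃ (s : ℂ) (k : G), V * u g = s • u k * V) → ∀ x ∈ MM u, V * x * star V ∈ MM u := by
    intro V b1 b2 b3 x hx
    refine mem_cc.2 fun y hy => ?_
    have := mem_cc.1 hx (star V * y * V) (hu.mem_comm fun g => by
      obtain ⟨s, k, hk⟩ := b3 g
      have e1 : u g * star V = star V * (s • u k) := by
        rw [← one_mul (u g), ← b1, mul_assoc _ V, hk, mul_assoc, mul_assoc, b2, mul_one]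
      rw [← mul_assoc, ← mul_assoc, e1, mul_assoc _ V, hk, mul_assoc (star V), smul_mul_assoc,
        ((mem_centralizer_iff ℂ).1 hy _ ⟨k, rfl⟩).1]
      simp only [mul_assoc, mul_smul_comm, smul_mul_assoc])
    calc _ = V * (star V * y * V * x) * star V := by
          simp only [← mul_assoc, b2, one_mul]
      _ = _ := by rw [this]; simp only [mul_assoc, b2, mul_one]
  have k1 := key U a1 a2 fun g => ⟨_, _, a3 g⟩
  have k2 := key (star U) (by rwa [star_star]) (by rwa [star_star]) fun g => by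
    obtain ⟨g, rfl⟩ := f.surjective g
    refine ⟨conj (c g), g, ?_⟩
    have := congrArg (fun z => conj (c g) • (star U * z * star U)) (a3 g)
    simp only [← mul_assoc, a1, one_mul, mul_assoc _ U, a2, mul_one, mul_smul_comm, smul_smul, hc,
      one_smul] at this
    rw [← this, smul_mul_assoc]
  simp only [star_star] at k2
  refine ⟨{ toFun := fun x => ⟨U * x * star U, k1 _ x.2⟩
            invFun := fun x => ⟨star U * x * U, k2 _ x.2⟩
            left_inv := fun x => Subtype.ext (by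
              simp only [← mul_assoc, a1, one_mul, mul_assoc _ _ U, mul_one])
            right_inv := fun x => Subtype.ext (by
              simp only [← mul_assoc, a2, one_mul, mul_assoc _ U, mul_one])
            map_mul' := fun x y => Subtype.ext (by
              simp only [MulMemClass.coe_mul, mul_assoc, ← mul_assoc _ U, a1, one_mul])
            map_add' := fun x y => Subtype.ext (by simp [mul_add, add_mul])
            map_star' := fun x => Subtype.ext (by simp [mul_assoc])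
            map_smul' := fun c x => Subtype.ext (by simp) },
    ⟨map_add _, map_smul _, fun a x h => ?_⟩, fun g => Subtype.ext ?_⟩
  · have h3 : star U (dl 1) = dl 1 := by simpa using h2 1
    have := (U.continuous.tendsto _).comp h
    change Tendsto (fun n => U ((a n).1 (star U (dl 1)))) atTop (𝓝 (U (x.1 (star U (dl 1)))))
    rwa [h3]
  · change U * u g * star U = c g • u (f g)
    rw [a3, mul_assoc, a2, mul_one]

theorem aut_ext {f g : MM u → MM u} (hf : hu.tw.LinC f) (hg : hu.tw.LinC g)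
    (h : ∀ k, f (lam u k) = g (lam u k)) (x : MM u) : f x = g x :=
  sub_eq_zero.1 (TW.cls_eq_zero (hf.sub hg) (by rintro _ ⟨k, rfl⟩; rw [h, sub_self]) (hu.mem_cls x))

end IsL

end Pool.Agent.Lib.MP_263241_an
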