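import Pool.Agent.Lib.MP_263241_an.VC

/-! Group theory: the order four automorphism of `F₂` and the kernel of `F₂ → ℤ/4`. -/

namespace Pool.Agent.Lib.MP_263241_an

open FreeGroup hiding map_mul map_inv map_one

/-- The free group on two generators. -/
abbrev F2 := FreeGroup (Fin 2)

/-- The homomorphism `a ↦ b`, `b ↦ a⁻¹`. -/
def sh : F2 →* F2 := lift ![of 1, (of 0)⁻¹]

theorem sh0 : sh (of 0) = of 1 := by simp [sh]

theorem sh1 : sh (of 1) = (of 0)⁻¹ := by simp [sh]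

theorem sh4 (g : F2) : sh (sh (sh (sh g))) = g := by
  have : sh.comp (sh.comp (sh.comp sh)) = MonoidHom.id _ :=
    ext_hom _ _ (Fin.forall_fin_two.2 ⟨by simp [sh0, sh1], by simp [sh0, sh1]⟩)
  exact DFunLike.congr_fun this g

/-- The automorphism `a ↦ b`, `b ↦ a⁻¹`. -/
def se : F2 ≃* F2 := { sh with
  invFun := fun g => sh (sh (sh g))
  left_inv := sh4
  right_inv := sh4 }

/-- The same as a permutation. -/
def sp : Equiv.Perm F2 := se.toEquiv

theorem sp_apply (g : F2) : sp g = sh g := rfl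

/-- Left translations. -/
def tl : F2 →* Equiv.Perm F2 := MulAction.toPermHom F2 F2

theorem tl_apply (g h : F2) : tl g h = g * h := rfl

theorem sp_tl (g : F2) : sp * tl g = tl (sh g) * sp := by
  ext h; simp [sp_apply, tl_apply]

theorem sp4 : sp * (sp * (sp * sp)) = 1 := by
  ext h; simp [sp_apply, sh4]

/-- The action on letters. -/
def ml (x : Fin 2 × Bool) : Fin 2 × Bool := if x.1 = 0 then (1, x.2) else (0, !x.2)

theorem sh_mk (L : List (Fin 2 × Bool)) : sh (mk L) = mk (L.map ml) := by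
  induction L with
  | nil => exact map_one sh
  | cons x L ih =>
    rw [List.map_cons, ← List.singleton_append, ← mul_mk, ← List.singleton_append (x := ml x),
      ← mul_mk, map_mul, ih]
    congr 1
    obtain ⟨i, c⟩ := x
    fin_cases i <;> cases c
    · exact (map_inv sh (of 0)).trans (by rw [sh0]; rfl)
    · exact sh0
    · exact (map_inv sh (of 1)).trans (by rw [sh1, inv_inv]; rfl)
    · exact sh1

/-- The reduced word of `g` starts with `x`. -/
def St (x : Fin 2 × Bool) (g : F2) : Prop := ∃ l, FreeGroup.IsReduced (x :: l) ∧ g = mk (x :: l)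

theorem St.ne {x g} (h : St x g) : g ≠ 1 := by
  obtain ⟨l, h1, rfl⟩ := h
  intro h2
  have := congrArg toWord h2
  rw [toWord_mk, h1.reduce_eq, toWord_one] at this
  exact List.cons_ne_nil _ _ this

theorem St.sh {x g} (h : St x g) : St (ml x) (sh g) := by
  obtain ⟨l, h1, rfl⟩ := h
  refine ⟨l.map ml, ?_, sh_mk _⟩
  rw [← List.map_cons, FreeGroup.IsReduced, List.isChain_map]
  exact h1.imp (by decide)

theorem St.cons {x g} (h : St x g) (hx : x ≠ (0, false)) : St (0, true) (of 0 * g) := by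
  obtain ⟨l, h1, rfl⟩ := h
  refine ⟨x :: l, List.isChain_cons_cons.2 ⟨?_, h1⟩, mul_mk⟩
  clear h1
  revert hx x
  decide

/-- Ping-pong for `ℤ/4 ∗ ℤ/2`. -/
theorem pingpong {b π} (h : Alt {sp, sp * sp, sp * (sp * sp)} {tl (of 0) * (sp * sp)} b π) :
    π ≠ 1 := by
  have h0 : ∀ x ∈ ({sp, sp * sp, sp * (sp * sp)} : Set (Equiv.Perm F2)), x 1 = 1 ∧
      ∀ g, St (0, true) g → ∃ y ≠ (0, true), St y (x g) := by
    rintro _ (rfl | rfl | rfl)
    exacts [⟨by simp [sp_apply], fun g h => ⟨_, by decide, h.sh⟩⟩,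
      ⟨by simp [sp_apply], fun g h => ⟨_, by decide, h.sh.sh⟩⟩,
      ⟨by simp [sp_apply], fun g h => ⟨_, by decide, h.sh.sh.sh⟩⟩]
  have ha : St (0, true) (of 0) := ⟨[], .singleton, rfl⟩
  suffices π ≠ 1 ∧ (b = false → St (0, true) (π 1)) ∧
    (b = true → π 1 = 1 ∨ ∃ y ≠ (0, true), St y (π 1)) from this.1
  induction h with
  | @x1 x h =>
    refine ⟨fun e => ?_, by simp, fun _ => .inl (h0 x h).1⟩
    obtain ⟨y, h1, l, h2, h3⟩ := (h0 x h).2 _ ha
    have := congrArg toWord h3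
    rw [e, toWord_mk, h2.reduce_eq, Equiv.Perm.one_apply, toWord_of] at this
    exact h1 (List.cons.inj this).1.symm
  | y1 h =>
    obtain rfl := h
    have : St (0, true) ((tl (of 0) * (sp * sp)) 1) := by simpa [sp_apply, tl_apply] using ha
    exact ⟨fun e => this.ne (by rw [e]; rfl), fun _ => this, by simp⟩
  | @xc x w h _ ih =>
    obtain ⟨y, h1, h2⟩ := (h0 x h).2 _ (ih.2.1 rfl)
    exact ⟨fun e => h2.ne (by rw [← Equiv.Perm.mul_apply, e]; rfl), by simp,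
      fun _ => .inr ⟨y, h1, h2⟩⟩
  | @yc y w h _ ih =>
    obtain rfl := h
    have : St (0, true) ((tl (of 0) * (sp * sp) * w) 1) := by
      change St _ (of 0 * sh (sh (w 1)))
      rcases ih.2.2 rfl with e | ⟨y, h1, h2⟩
      · simpa [e] using ha
      · refine h2.sh.sh.cons ?_
        clear h2
        revert h1 y
        decide
    exact ⟨fun e => this.ne (by rw [e]; rfl), fun _ => this, by simp⟩

/-- Index set of the five free generators. -/
abbrev K5 := Unit ⊕ (Unit ⊕ Unit) ⊕ (Unit ⊕ Unit)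

/-- The generator that corresponds to `bᵏ a b⁻ᵏ`. -/
def yk : Fin 4 → K5 := ![.inl (), .inr (.inl (.inl ())), .inr (.inl (.inr ())), .inr (.inr (.inl ()))]

/-- The embedding of `F₅` in `F₂`. -/
def ps : FreeGroup K5 →* F2 := lift (Sum.elim (fun _ => of 0) (Sum.elim
  (Sum.elim (fun _ => of 1 * of 0 * (of 1)⁻¹) fun _ => of 1 ^ 2 * of 0 * (of 1 ^ 2)⁻¹)
  (Sum.elim (fun _ => of 1 ^ 3 * of 0 * (of 1 ^ 3)⁻¹) fun _ => of 1 ^ 4)))

/-- The action of `F₂` on four copies of `F₅`. -/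
def ch : F2 →* Equiv.Perm (Fin 4 × FreeGroup K5) := lift
  ![Equiv.prodShear (Equiv.refl _) fun k => Equiv.mulLeft (of (yk k)),
    Equiv.prodShear (Equiv.subRight 1) fun k =>
      Equiv.mulLeft (if k = 0 then of (.inr (.inr (.inr ()))) else 1)]

theorem ch0 (k : Fin 4) (γ : FreeGroup K5) : ch (of 0) (k, γ) = (k, of (yk k) * γ) := by
  simp [ch]

theorem ch1 (k : Fin 4) (γ : FreeGroup K5) :
    ch (of 1) (k, γ) = (k - 1, (if k = 0 then of (.inr (.inr (.inr ()))) else 1) * γ) := by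
  simp [ch]

theorem ch_ps (γ δ : FreeGroup K5) : ch (ps γ) (0, δ) = (0, γ * δ) := by
  induction γ using FreeGroup.induction_on generalizing δ with
  | C1 => simp
  | of i =>
    have e : ∀ (n : ℕ) (k : Fin 4), (∀ δ, ch (of 1 ^ n) (k, δ) = (0, δ)) →
        ch (of 1 ^ n * of 0 * (of 1 ^ n)⁻¹) (0, δ) = (0, of (yk k) * δ) := fun n k h => by
      rw [map_mul, map_mul, map_inv, Equiv.Perm.mul_apply, Equiv.Perm.mul_apply, ← h δ,
        Equiv.Perm.coe_inv, Equiv.symm_apply_apply, ch0, h]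
    rcases i with _ | (_ | _) | (_ | _)
    · simp [ps, ch0, yk]
    · simpa [ps, yk] using e 1 1 fun δ => by simp [ch1]
    · simpa [ps, yk] using e 2 2 fun δ => by simp [pow_succ, ch1]
    · simpa [ps, yk] using e 3 3 fun δ => by simp [pow_succ, ch1]
    · simp +decide [ps, pow_succ, ch1]
  | inv_of i ih =>
    rw [map_inv, map_inv, Equiv.Perm.inv_eq_iff_eq, ih, mul_inv_cancel_left]
  | mul a b ha hb => rw [map_mul, map_mul, Equiv.Perm.mul_apply, hb, ha, mul_assoc]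

theorem ps_eq_one {γ : FreeGroup K5} (h : ps γ = 1) : γ = 1 := by
  simpa [h] using (ch_ps γ 1).symm

theorem ps_dec (g : F2) : ∃ (k : Fin 4) (γ : FreeGroup K5), g * 1 = (of 1 ^ k.1)⁻¹ * ps γ := by
  have key : ∀ (g : F2) (p : Fin 4 × FreeGroup K5),
      (of 1 ^ (ch g p).1.1)⁻¹ * ps (ch g p).2 = g * ((of 1 ^ p.1.1)⁻¹ * ps p.2) := fun g => by
    induction g using FreeGroup.induction_on with
    | C1 => simp
    | of i =>
      rintro ⟨k, γ⟩
      fin_cases i <;> fin_cases k <;> simp [ch0, ch1, ps, yk, pow_succ, mul_assoc]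
    | inv_of i ih =>
      intro p
      rw [eq_inv_mul_iff_mul_eq, ← ih, map_inv, Equiv.Perm.coe_inv, Equiv.apply_symm_apply]
    | mul a b ha hb =>
      intro p
      rw [map_mul, Equiv.Perm.mul_apply, ha, hb, mul_assoc]
  exact ⟨_, _, by simpa using (key g (0, 1)).symm⟩

/-- The character `a ↦ 1`, `b ↦ i`. -/
noncomputable def ep : F2 →* ℂ :=
  (Units.coeHom ℂ).comp (lift ![1, Units.mk0 Complex.I Complex.I_ne_zero])

theorem ep0 : ep (of 0) = 1 := by simp [ep]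

theorem ep1 : ep (of 1) = Complex.I := by simp [ep]

theorem ep_ps (γ : FreeGroup K5) : ep (ps γ) = 1 := by
  have : ep.comp ps = 1 := ext_hom _ _ fun i => by
    rcases i with _ | (_ | _) | (_ | _) <;> simp [ps, ep0, ep1]
  exact DFunLike.congr_fun this γ

theorem ep_dec (g : F2) : (starRingEnd ℂ (ep g) * ep g = 1 ∧ ep g ^ 4 = 1) ∧
    (g ∈ Set.range ps ∨ 1 + ep g + ep g ^ 2 + ep g ^ 3 = 0) := by
  obtain ⟨k, γ, h⟩ := ps_dec g
  rw [mul_one] at h
  have e : ep g = (Complex.I ^ k.1)⁻¹ := by rw [h, map_mul, ep_ps, mul_one, map_inv, map_pow, ep1]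
  rw [e]
  fin_cases k
  · exact ⟨by simp, .inl ⟨γ, by simp [h]⟩⟩
  all_goals simp [pow_succ]

end Pool.Agent.Lib.MP_263241_an

/-! The crossed product model and the correspondence between the two fixed point algebras. -/

namespace Pool.Agent.Lib.MP_263241_an

open FreeGroup hiding map_mul map_inv map_one
open Complex

variable {R H : Type*} [CStarAlgebra R] [NormedAddCommGroup H] [InnerProductSpace ℂ H]

/-- Spectral projections of a unitary of order four. -/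
noncomputable def Jz (w : R) (z : ℂ) : R :=
  (1 / 4 : ℂ) • (1 + z • w + z ^ 2 • (w * w) + z ^ 3 • (w * (w * w)))

theorem w_Jz {w : R} (h4 : w * (w * (w * w)) = 1) {z : ℂ} (hz : z ^ 4 = 1) :
    w * Jz w z = z ^ 3 • Jz w z := by
  simp only [Jz, mul_add, mul_smul_comm, h4, mul_one]
  match_scalars <;> grind

theorem Jz_w {w : R} (h4 : w * (w * (w * w)) = 1) {z : ℂ} (hz : z ^ 4 = 1) :
    Jz w z * w = z ^ 3 • Jz w z := by
  rw [← w_Jz h4 hz]
  simp only [Jz, mul_add, add_mul, mul_smul_comm, smul_mul_assoc, mul_one, one_mul, mul_assoc]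

theorem Jz_mul {w : R} (h4 : w * (w * (w * w)) = 1) (y : ℂ) {z : ℂ} (hz : z ^ 4 = 1) :
    Jz w y * Jz w z = ((1 + y * z ^ 3 + (y * z ^ 3) ^ 2 + (y * z ^ 3) ^ 3) / 4) • Jz w z := by
  rw [Jz]
  simp only [add_mul, smul_mul_assoc, mul_assoc, w_Jz h4 hz, mul_smul_comm, one_mul]
  module

theorem Jz_pr {w : R} (h4 : w * (w * (w * w)) = 1) (hs : star w = w * (w * w)) {z : ℂ}
    (hz : z ^ 4 = 1) (hc : star z = z ^ 3) : Pr (Jz w z) := by
  have h5 : ∀ x, w * (w * (w * (w * x))) = x := fun x => by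
    simpa only [mul_assoc, one_mul] using congrArg (· * x) h4
  constructor
  · simp only [Jz, star_smul, star_add, star_one, star_mul, star_pow, hs, hc, mul_assoc, h5,
      star_div₀, star_ofNat]
    match_scalars <;> grind
  · rw [Jz_mul h4 z hz, show z * z ^ 3 = 1 by grind]; norm_num

namespace TW

variable {T : TW R H}

theorem bside {L : Equiv.Perm F2 → R} (hL : T.Reg 1 L) (h1 : T.tau 1 = 1) :
    ∃ (D : F2 → R) (φ : FreeGroup K5 → R), T.Reg (D 1) φ ∧ T.tau (D 1) = 1 / 4 ∧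
      (∀ g, g ≠ 1 → T.tau (D g) = 0) ∧ (∀ g, D g⁻¹ = star (D g)) ∧ (∀ g, D 1 * D g = D g) ∧
      (∀ g k, D g * D k = (1 / 4 : ℂ) • (D (g * k) + D (g * sh k) + D (g * sh (sh k)) +
        D (g * sh (sh (sh k))))) ∧ (∀ g, D (sh g) = D g) ∧
      T.cls (Set.range φ) = T.cls (Set.range D) ∧
      T.cls (Set.range fun g => φ (FreeGroup.map .inl g)) = T.gen {D 1, D (of 0)} := by
  obtain ⟨w, hw⟩ : ∃ w, w = L sp := ⟨_, rfl⟩
  obtain ⟨S, hS⟩ : ∃ S, S = L (tl (of 0) * (sp * sp)) := ⟨_, rfl⟩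
  have hl := hL.toHom.comp tl
  have h4 : w * (w * (w * w)) = 1 := by simp only [hw, ← hL.mul, sp4, hL.one]
  have hs : star w = w * (w * w) := by
    simp only [hw, ← hL.mul, ← hL.inv, inv_eq_of_mul_eq_one_right sp4]
  have ss : tl (of 0) * (sp * sp) * (tl (of 0) * (sp * sp)) = 1 := by
    ext g; simp [sp_apply, tl_apply, sh0, sh1, sh4]
  have S2 : S * S = 1 := by rw [hS, ← hL.mul, ss, hL.one]
  have Ss : star S = S := by rw [hS, ← hL.inv, inv_eq_of_mul_eq_one_right ss]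
  have SL : S = L (tl (of 0)) * (w * w) := by simp only [hS, hw, hL.mul]
  have wL : ∀ g x, w * (L (tl g) * x) = L (tl (sh g)) * (w * x) := fun g x => by
    rw [hw, ← mul_assoc, ← hL.mul, sp_tl, hL.mul, mul_assoc]
  have ne : ∀ g, g ≠ 1 → ∀ π : Equiv.Perm F2, π 1 = 1 → T.tau (L (tl g) * L π) = 0 :=
    fun g hg π h => by
      rw [← hL.mul]
      exact hL.tau _ fun e => hg (by simpa [tl_apply, h] using congrArg (fun π => π 1) e)
  have hZ : T.Z {w, w * w, w * (w * w)} {S} := fun b x hx => by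
    suffices ∃ π, Alt {sp, sp * sp, sp * (sp * sp)} {tl (of 0) * (sp * sp)} b π ∧ x = L π by
      obtain ⟨π, h2, rfl⟩ := this
      exact hL.tau _ (pingpong h2)
    have e : ∀ x ∈ ({w, w * w, w * (w * w)} : Set R),
        ∃ π ∈ ({sp, sp * sp, sp * (sp * sp)} : Set _), x = L π := by
      rintro _ (rfl | rfl | rfl)
      exacts [⟨_, .inl rfl, hw⟩, ⟨_, .inr (.inl rfl), by simp only [hw, hL.mul]⟩,
        ⟨_, .inr (.inr rfl), by simp only [hw, hL.mul]⟩]
    induction hx with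
    | x1 h => exact (e _ h).imp fun π h => ⟨.x1 h.1, h.2⟩
    | y1 h => exact ⟨_, .y1 rfl, h.trans hS⟩
    | xc h _ ih =>
      obtain ⟨π, h2, rfl⟩ := e _ h
      obtain ⟨π', h3, rfl⟩ := ih
      exact ⟨_, .xc h2 h3, (hL.mul _ _).symm⟩
    | yc h _ ih =>
      obtain ⟨π', h3, rfl⟩ := ih
      exact ⟨_, .yc rfl h3, by rw [hL.mul, ← hS, show _ = S from h]⟩
  have tw : ∀ x ∈ ({w, w * w, w * (w * w)} : Set R), T.tau x = 0 := fun x h => hZ _ _ (.x1 h)
  have tS : T.tau S = 0 := hZ _ _ (.y1 rfl)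
  have tJ : ∀ z, T.tau (Jz w z) = 1 / 4 := fun z => by
    simp only [Jz, map_smul, map_add, h1, tw _ (.inl rfl), tw _ (.inr (.inl rfl)),
      tw _ (.inr (.inr rfl)), add_zero, smul_eq_mul, mul_one, mul_zero]
  have I4 : (-I) ^ 4 = 1 := by rw [Even.neg_pow (by decide), I_pow_four]
  have m4 : (-1 : ℂ) ^ 4 = 1 := by norm_num
  have j0 := Jz_pr h4 hs (one_pow 4) (by simp)
  have j1 := Jz_pr h4 hs I_pow_four (by simp)
  have j2 := Jz_pr h4 hs m4 (by norm_num)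
  have j3 := Jz_pr h4 hs I4 (by simp [pow_succ])
  have sJ : (1 : R) = Jz w 1 + (Jz w I + (Jz w (-1) + Jz w (-I))) := by
    simp only [Jz]
    match_scalars <;> (simp [pow_succ]; try ring)
  have fz : ∀ s ∈ ({Jz w 1, Jz w I, Jz w (-1), Jz w (-I)} : Set R),
      ∃ z, z ^ 4 = 1 ∧ Pr s ∧ s = Jz w z := by
    rintro _ (rfl | rfl | rfl | rfl)
    exacts [⟨_, one_pow 4, j0, rfl⟩, ⟨_, I_pow_four, j1, rfl⟩, ⟨_, m4, j2, rfl⟩, ⟨_, I4, j3, rfl⟩]
  have sum4 : ∀ {V : Set R}, T.IsSub V → ∀ x, x * Jz w 1 ∈ V → x * Jz w I ∈ V → x * Jz w (-1) ∈ V →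
      x * Jz w (-I) ∈ V → x ∈ V := fun hV x a b c d => by
    have := hV.add a (hV.add b (hV.add c d))
    rwa [← mul_add, ← mul_add, ← mul_add, ← sJ, mul_one] at this
  have A4 : T.Alg 1 (T.cls {Jz w 1, Jz w I, Jz w (-1), Jz w (-I)}) := by
    refine cls_alg Pr.one (sum4 (cls_sub _) _ ?_ ?_ ?_ ?_) (fun s _ => one_mul s)
      (fun s h => ?_) fun s h t h' => ?_
    iterate 4 rw [one_mul]; exact sub_cls (by simp)
    · obtain ⟨z, -, h2, -⟩ := fz s h
      rw [h2.st]; exact sub_cls h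
    · obtain ⟨y, -, -, rfl⟩ := fz s h
      obtain ⟨z, h2, -, h3⟩ := fz t h'
      rw [h3, Jz_mul h4 y h2, ← h3]
      exact .smul _ (.base h')
  obtain ⟨P, hP⟩ : ∃ P, P = (1 / 2 : ℂ) • (1 + S) := ⟨_, rfl⟩
  obtain ⟨Q, hQ⟩ : ∃ Q, Q = (1 / 2 : ℂ) • (1 - S) := ⟨_, rfl⟩
  have pP : Pr P := ⟨by simp [hP, Ss], by
    simp only [hP, smul_mul_assoc, mul_smul_comm, add_mul, mul_add, S2, one_mul, mul_one]; module⟩
  have pQ : Pr Q := ⟨by simp [hQ, Ss], by
    simp only [hQ, smul_mul_assoc, mul_smul_comm, sub_mul, mul_sub, S2, one_mul, mul_one]; module⟩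
  have o : P * Q = 0 := by
    simp only [hP, hQ, smul_mul_assoc, mul_smul_comm, add_mul, mul_sub, S2, one_mul, mul_one]
    module
  have hp : (1 : R) = P + Q := by rw [hP, hQ]; module
  have hF : T.Free (T.cls {Jz w 1, Jz w I, Jz w (-1), Jz w (-I)}) (T.cls {P, Q}) := by
    have n1 : T.tau 1 ≠ 0 := by rw [h1]; exact one_ne_zero
    refine Free.mono (A' := T.cls (insert 1 {w, w * w, w * (w * w)})) (C' := T.cls (insert 1 {S}))
      (hZ.cls.mono (cen_sub_cls n1 tw) (cen_sub_cls n1 fun x h => h ▸ tS))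
      ((cls_sub _).cls_le fun s h => ?_) ((cls_sub _).cls_le ?_)
    · obtain ⟨z, -, -, rfl⟩ := fz s h
      exact .smul _ (.add (.add (.add (.base (by simp)) (.smul _ (.base (by simp))))
        (.smul _ (.base (by simp)))) (.smul _ (.base (by simp))))
    · rintro _ (rfl | rfl)
      · rw [hP]; exact .smul _ (.add (.base (by simp)) (.base (by simp)))
      · rw [hQ]; exact .smul _ ((cls_sub _).sub (.base (by simp)) (.base (by simp)))
  obtain ⟨φ, f1, f2, f3⟩ := main_abs (T := T) (c := 1 / 4) (by norm_num) pP pQ o hp j0 j1 j2 j3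
    (by rw [Jz_mul h4 _ I_pow_four]; simp [pow_succ]) (by rw [Jz_mul h4 _ m4]; norm_num)
    (by rw [Jz_mul h4 _ I4]; simp [pow_succ]) (by rw [Jz_mul h4 _ m4]; simp [pow_succ])
    (by rw [Jz_mul h4 _ I4]; simp [pow_succ]) (by rw [Jz_mul h4 _ I4]; simp [pow_succ]) sJ
    (by rw [hP, map_smul, map_add, h1, tS]; norm_num) (tJ _) (tJ _) (tJ _) (tJ _) A4 hF
  have t0 := tJ 1
  have wJ : w * Jz w 1 = Jz w 1 := by simpa using w_Jz h4 (one_pow 4)
  have Jw : ∀ x, Jz w 1 * (w * x) = Jz w 1 * x := fun x => by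
    rw [← mul_assoc, Jz_w h4 (one_pow 4), one_pow, one_smul]
  have JL : ∀ z g, Jz w z * (L (tl g) * Jz w 1) = (1 / 4 : ℂ) • (L (tl g) * Jz w 1 +
      z • (L (tl (sh g)) * Jz w 1) + z ^ 2 • (L (tl (sh (sh g))) * Jz w 1) +
      z ^ 3 • (L (tl (sh (sh (sh g)))) * Jz w 1)) := fun z g => by
    rw [Jz]
    simp only [add_mul, smul_mul_assoc, mul_assoc, wL, wJ, one_mul]
  have tD : ∀ g, g ≠ 1 → T.tau (L (tl g) * Jz w 1) = 0 := fun g hg => by
    have e := ne g hg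
    simp only [Jz, mul_smul_comm, mul_add, map_smul, map_add, hw, ← hL.mul sp, ← hL.one]
    rw [e 1 rfl, e sp (by simp [sp_apply]), e _ (by simp [sp_apply]), e _ (by simp [sp_apply])]
    simp
  have N := gen_w (T := T) (T.cls {Jz w 1, Jz w I, Jz w (-1), Jz w (-I)} ∪ T.cls {P, Q})
  have NJ : ∀ s ∈ ({Jz w 1, Jz w I, Jz w (-1), Jz w (-I)} : Set R),
      s ∈ T.gen (T.cls {Jz w 1, Jz w I, Jz w (-1), Jz w (-I)} ∪ T.cls {P, Q}) :=
    fun s h => sub_gen (.inl (sub_cls h))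
  have PS : Jz w 1 * P * Jz w 1 =
      (1 / 2 : ℂ) • (Jz w 1 + Jz w 1 * (L (tl (of 0)) * Jz w 1)) := by
    simp only [hP, SL, smul_mul_assoc, mul_smul_comm, add_mul, mul_add, mul_one, j0.sq, mul_assoc,
      wJ]
  have D1 : Jz w 1 * (L (tl 1) * Jz w 1) = Jz w 1 := by rw [hl.one, one_mul, j0.sq]
  refine ⟨fun g => Jz w 1 * (L (tl g) * Jz w 1), φ, ?_, ?_, fun g hg => ?_, fun g => ?_,
    fun g => ?_, fun g k => ?_, fun g => ?_, f2.trans (Set.Subset.antisymm (fun x hx => ?_) ?_),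
    f3.trans (Set.Subset.antisymm ((gen_w _).gen_le ?_) ((gen_w _).gen_le ?_))⟩
  · simpa only [D1] using f1
  · simpa only [D1] using t0
  · rw [tau_comm, mul_assoc, j0.sq, tD g hg]
  · simp only [star_mul, j0.st, hl.inv, mul_assoc]
  · simp only [D1, j0.l]
  · simp only [mul_assoc, j0.l]
    rw [JL]
    simp only [mul_smul_comm, mul_add, one_pow, one_smul, hl.mul, mul_assoc]
  · exact ((Jw _).symm.trans (by rw [wL, wJ])).symm
  · have V := cls_sub (T := T) (Set.range fun g => L (tl g) * Jz w 1)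
    have Vw : ∀ g, S * (L (tl g) * Jz w 1) ∈ T.cls (Set.range fun g => L (tl g) * Jz w 1) :=
      fun g => sub_cls ⟨of 0 * sh (sh g), by simp only [SL, mul_assoc, wL, wJ, hl.mul]⟩
    have := V.stab (S := T.cls {Jz w 1, Jz w I, Jz w (-1), Jz w (-I)} ∪ T.cls {P, Q})
      (fun s h => h.imp A4.star (alg2 pP pQ o hp).star) ?_ hx.1 (Jz w 1)
      (sub_cls ⟨1, by simp only [hl.one, one_mul]⟩)
    · rw [← hx.2.1, ← hx.2.2, ← mul_assoc, hx.2.1, ← hx.2.1, mul_assoc]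
      exact (cls_sub _).map (LinC.id.mulL _) (by rintro _ ⟨g, rfl⟩; exact sub_cls ⟨g, rfl⟩) this
    rintro s (h | h) v hv
    · refine V.mul_cls ?_ h hv
      rintro s h _ ⟨g, rfl⟩
      obtain ⟨z, -, -, rfl⟩ := fz s h
      rw [JL]
      exact .smul _ (.add (.add (.add (.base ⟨_, rfl⟩) (.smul _ (.base ⟨_, rfl⟩)))
        (.smul _ (.base ⟨_, rfl⟩))) (.smul _ (.base ⟨_, rfl⟩)))
    · refine V.mul_cls ?_ h hv
      rintro _ (rfl | rfl) _ ⟨g, rfl⟩
      · rw [hP, smul_mul_assoc, add_mul, one_mul]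
        exact .smul _ (.add (.base ⟨_, rfl⟩) (Vw g))
      · rw [hQ, smul_mul_assoc, sub_mul, one_mul]
        exact .smul _ (V.sub (.base ⟨_, rfl⟩) (Vw g))
  · refine (N.cor j0).cls_le ?_
    rintro _ ⟨g, rfl⟩
    have Nw : w ∈ _ := sum4 N.toIsSub w
      (by rw [w_Jz h4 (one_pow 4)]; exact N.smul _ (NJ _ (by simp)))
      (by rw [w_Jz h4 I_pow_four]; exact N.smul _ (NJ _ (by simp)))
      (by rw [w_Jz h4 m4]; exact N.smul _ (NJ _ (by simp)))
      (by rw [w_Jz h4 I4]; exact N.smul _ (NJ _ (by simp)))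
    have NS := N.sub (x := P) (y := Q) (sub_gen (.inr (sub_cls (.inl rfl))))
      (sub_gen (.inr (sub_cls (.inr rfl))))
    rw [show P - Q = S by rw [hP, hQ]; module] at NS
    have Na := N.mul NS (N.mul Nw Nw)
    rw [SL, mul_assoc, mul_assoc, h4, mul_one] at Na
    have Nb := N.mul Nw (N.mul Na (N.mul Nw (N.mul Nw Nw)))
    rw [wL, h4, mul_one, sh0] at Nb
    simp only [← mul_assoc]
    exact N.mem_cor j0 (NJ _ (by simp)) (hom_mem hl N (sub_gen (.inl A4.one))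
      (Fin.forall_fin_two.2 ⟨Na, Nb⟩) (sub_cls ⟨g, rfl⟩))
  · rintro _ (rfl | rfl)
    · exact sub_gen (.inl D1.symm)
    · rw [PS]
      exact .smul _ (.add (.base (.inl D1.symm)) (.base (.inr rfl)))
  · rintro _ (rfl | rfl)
    · exact sub_gen (.inl D1)
    · have := (gen_w (T := T) {Jz w 1, Jz w 1 * P * Jz w 1}).sub
        (Gen.smul 2 (.base (.inr rfl))) (.base (.inl rfl))
      convert this using 1
      rw [PS]; module

theorem final_abs {R' H' : Type*} [CStarAlgebra R'] [NormedAddCommGroup H']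
    [InnerProductSpace ℂ H'] {T' : TW R' H'} {u : F2 → R} (hu : T.Reg 1 u) (h1 : T.tau 1 = 1)
    {L : Equiv.Perm F2 → R'} (hL : T'.Reg 1 L) (h1' : T'.tau 1 = 1) {E : F2 → R}
    (hE : ∀ g, E g = u g + u (sh g) + u (sh (sh g)) + u (sh (sh (sh g)))) :
    ∃ ρ, T.Corr T ρ ∧
      (∀ x ∈ T.cls (Set.range E), ∃ z ∈ T.cls (Set.range fun γ => u (ps γ)), ρ x z) ∧
      (∀ z ∈ T.cls (Set.range fun γ => u (ps γ)), ∃ x ∈ T.cls (Set.range E), ρ x z) ∧
      ∀ x z, ρ x z → (x ∈ T.gen {1, E (of 0)} ↔ z ∈ T.gen {1, u (of 0)}) := by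
  obtain ⟨D, φ, d1, d2, d3, d4, d5, d6, d7, d8, d9⟩ := bside hL h1'
  have E1 : E 1 = (4 : ℂ) • 1 := by simp only [hE, map_one, hu.one]; module
  have sn : ∀ g, g ≠ 1 → sh g ≠ 1 := fun g h e => h (se.injective (e.trans (map_one _).symm))
  obtain ⟨ρ, r1, r2, r3, r4⟩ := exists_corr (T := T) (T' := T')
    (S := Set.range fun g => (E g, (4 : ℂ) • D g)) (E := (1, D 1)) (c := 1 / 4)
    ⟨Prod.ext (star_one R) d1.pr.st, Prod.ext (one_mul 1) d1.pr.sq⟩
    (by
      have := Cls.smul (T := T.prod T') (S := Set.range fun g => (E g, (4 : ℂ) • D g)) (1 / 4)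
        (.base ⟨1, rfl⟩)
      simpa [E1, smul_smul, cls] using this)
    (by rintro _ ⟨g, rfl⟩; simp [d5])
    (by
      rintro _ ⟨g, rfl⟩
      exact sub_cls ⟨g⁻¹, Prod.ext (by simp [hE, hu.inv]) (by simp [d4])⟩)
    (by
      rintro _ ⟨g, rfl⟩ _ ⟨k, rfl⟩
      have := Cls.add (T := T.prod T') (S := Set.range fun g => (E g, (4 : ℂ) • D g))
        (.add (.add (.base ⟨g * k, rfl⟩) (.base ⟨g * sh k, rfl⟩)) (.base ⟨g * sh (sh k), rfl⟩))
        (.base ⟨g * sh (sh (sh k)), rfl⟩)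
      refine (congrArg _ (Prod.ext ?_ ?_)).mpr this
      · simp only [hE, Prod.fst_mul, Prod.fst_add, map_mul, sh4, hu.mul, mul_add, add_mul]
        abel
      · simp only [Prod.snd_mul, Prod.snd_add, smul_mul_assoc, mul_smul_comm, d6]
        module) (by norm_num)
    (by
      rintro _ ⟨g, rfl⟩
      by_cases h : g = 1
      · simp [h, E1, d2, h1]
      · simp [hE, d3 g h, hu.tau _ h, hu.tau _ (sn _ h), hu.tau _ (sn _ (sn _ h)),
          hu.tau _ (sn _ (sn _ (sn _ h)))])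
  have hp := hu.toHom.comp ps
  obtain ⟨σ, s1, s2, s3, s4⟩ := exists_corr (T := T') (T' := T)
    (S := Set.range fun g => (φ g, u (ps g))) (E := (D 1, 1)) (c := 4)
    ⟨Prod.ext d1.pr.st (star_one R), Prod.ext d1.pr.sq (one_mul 1)⟩
    (sub_cls ⟨1, Prod.ext d1.one hp.one⟩)
    (by rintro _ ⟨g, rfl⟩; exact Prod.ext (d1.l g) (one_mul _))
    (by rintro _ ⟨g, rfl⟩; exact sub_cls ⟨g⁻¹, Prod.ext (d1.inv g) (hp.inv g)⟩)
    (by rintro _ ⟨g, rfl⟩ _ ⟨k, rfl⟩; exact sub_cls ⟨g * k, Prod.ext (d1.mul g k) (hp.mul g k)⟩)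
    (by norm_num)
    (by
      rintro _ ⟨g, rfl⟩
      by_cases h : g = 1
      · simp [h, d1.one, hu.one, d2, h1]
      · simp [d1.tau g h, hu.tau _ fun e => h (ps_eq_one e)])
  simp only [← Set.range_comp, Function.comp_def, Set.forall_mem_range] at r2 r4 s2 s4
  have r5 : ∀ g, ρ ((1 / 4 : ℂ) • E g) (D g) := fun g => by
    simpa [smul_smul] using r1.smul (1 / 4) (r2 g)
  have hi := d1.toHom.comp (FreeGroup.map (.inl : Unit → K5))
  have p0 : ps (FreeGroup.map .inl (of ())) = of 0 := by simp [ps]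
  have key : ∀ x z, (∃ y, ρ x y ∧ σ y z) → (x ∈ T.gen {1, E (of 0)} → ∃ z' ∈ T.gen {1, u (of 0)},
      ∃ y, ρ x y ∧ σ y z') ∧ (z ∈ T.gen {1, u (of 0)} → ∃ x' ∈ T.gen {1, E (of 0)},
      ∃ y, ρ x' y ∧ σ y z) := fun x z _ => by
    constructor
    · intro hx
      obtain ⟨y, h2, h3⟩ := r1.gen (gen_w {D 1, D (of 0)}) (by
        rintro _ (rfl | rfl)
        exacts [⟨_, sub_gen (.inl rfl), r3⟩, ⟨_, Gen.smul 4 (.base (.inr rfl)), r2 _⟩]) hx
      rw [← d9] at h2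
      obtain ⟨z', h4, h5⟩ := (s1.pull _ (gen_w {1, u (of 0)})).cls_le (by
        rintro _ ⟨g, rfl⟩
        exact ⟨_, hom_mem (hp.comp (FreeGroup.map (.inl : Unit → K5))) (gen_w _) (sub_gen (.inl rfl))
          (fun _ => sub_gen (.inr (congrArg u p0))) (sub_cls ⟨g, rfl⟩), s2 _⟩) h2
      exact ⟨z', h4, y, h3, h5⟩
    · intro hz
      obtain ⟨y, h2, h3⟩ := s1.symm.gen (hom_alg hi).toIsW (by
        rintro _ (rfl | rfl)
        exacts [⟨_, (hom_alg hi).one, s3⟩, ⟨_, sub_cls ⟨of (), rfl⟩, p0 ▸ s2 _⟩]) hz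
      rw [d9] at h2
      obtain ⟨x', h4, h5⟩ := r1.symm.gen (gen_w {1, E (of 0)}) (by
        rintro _ (rfl | rfl)
        exacts [⟨_, sub_gen (.inl rfl), r3⟩, ⟨_, Gen.smul _ (.base (.inr rfl)), r5 _⟩]) h2
      exact ⟨x', h4, y, h5, h3⟩
  refine ⟨_, r1.comp s1, fun x hx => ?_, fun z hz => ?_, fun x z h => ⟨fun hx => ?_, fun hz => ?_⟩⟩
  · obtain ⟨y, -, h2⟩ := (r1.pull _ univ_w).cls_le
      (by rintro _ ⟨g, rfl⟩; exact ⟨_, trivial, r2 g⟩) hx
    have h3 : y ∈ T'.cls (Set.range φ) := d8 ▸ (cls_sub _).cls_le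
      (by rintro _ ⟨g, rfl⟩; exact Cls.smul _ (.base ⟨g, rfl⟩)) (r4 _ _ h2).2
    obtain ⟨z, -, h4⟩ := (s1.pull _ univ_w).cls_le
      (by rintro _ ⟨g, rfl⟩; exact ⟨_, trivial, s2 g⟩) h3
    exact ⟨z, (s4 _ _ h4).2, y, h2, h4⟩
  · obtain ⟨y, -, h2⟩ := (s1.push _ univ_w).cls_le
      (by rintro _ ⟨g, rfl⟩; exact ⟨_, trivial, s2 g⟩) hz
    obtain ⟨x, -, h4⟩ := (r1.push _ univ_w).cls_le
      (by rintro _ ⟨g, rfl⟩; exact ⟨_, trivial, r5 g⟩) (d8 ▸ (s4 _ _ h2).1)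
    exact ⟨x, (r4 _ _ h4).1, y, h4, h2⟩
  · obtain ⟨z', h2, h3⟩ := (key x z h).1 hx
    rwa [(r1.comp s1).uniq h h3]
  · obtain ⟨x', h2, h3⟩ := (key x z h).2 hz
    rwa [(r1.comp s1).symm.uniq h h3]

end TW

end Pool.Agent.Lib.MP_263241_an

/-! Conjugacy of the radial and generator masas inside the two fixed point algebras. -/

namespace Pool.Agent.Lib.MP_263241_an

open FreeGroup hiding map_mul map_inv map_one
open StarSubalgebra

theorem IsL.reg {G : Type*} [DecidableEq G] [Group G] {u : G → L2 G →L[ℂ] L2 G} (hu : IsL u) :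
    hu.tw.Reg 1 (lam u) := ⟨hu.hom, fun g h => by rw [hu.tau_lam, if_neg h]⟩

theorem cc_le {G : Type*} [DecidableEq G] [Group G] {u : G → L2 G →L[ℂ] L2 G} (s : MM u) :
    centralizer ℂ (centralizer ℂ {s.1} : Set (L2 G →L[ℂ] L2 G)) ≤ MM u := fun _ hx =>
  mem_cc.2 fun y hy => mem_cc.1 hx y ((mem_centralizer_iff ℂ).2 (by
    rintro _ rfl
    exact ⟨(mem_cc.1 s.2 y hy).symm, (mem_cc.1 (star s).2 y hy).symm⟩))

theorem fix_sub {R H : Type*} [CStarAlgebra R] [NormedAddCommGroup H] [InnerProductSpace ℂ H]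
    {T : TW R H} {β : R ≃⋆ₐ[ℂ] R} (h : T.LinC β) : T.IsW {x | β x = x} := by
  have := (TW.zero_sub' (T := T)).comap (h.sub TW.LinC.id)
  simp only [Set.mem_singleton_iff, sub_eq_zero] at this
  exact ⟨this, fun {x y} (hx : β x = x) (hy : β y = y) => (map_mul β x y).trans (by rw [hx, hy]),
    fun {x} (hx : β x = x) => (map_star β x).trans (by rw [hx])⟩

theorem exists_fix {R : Type*} [CStarAlgebra R] (β : R ≃⋆ₐ[ℂ] R) :
    ∃ N : StarSubalgebra ℂ R, ∀ x, x ∈ N ↔ β x = x :=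
  ⟨StarAlgHom.equalizer β 1, fun _ => Iff.rfl⟩

theorem linC_comp {R H : Type*} [CStarAlgebra R] [NormedAddCommGroup H] [InnerProductSpace ℂ H]
    {T : TW R H} {f g : R → R} (hf : T.LinC f) (hg : T.LinC g) : T.LinC fun x => f (g x) :=
  ⟨fun x y => by rw [hg.add, hf.add], fun c x => by rw [hg.smul, hf.smul],
    fun a x h => hf.lim _ _ (hg.lim a x h)⟩

theorem avg_mem {R H : Type*} [CStarAlgebra R] [NormedAddCommGroup H] [InnerProductSpace ℂ H]
    {T : TW R H} {β : R → R} (h : T.LinC β) {S V : Set R} (hV : T.IsSub V)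
    (hS : ∀ s ∈ S, s + β s + β (β s) + β (β (β s)) ∈ V) {x : R} (hx : x ∈ T.cls S)
    (hb : β x = x) : x ∈ V := by
  have h2 := linC_comp h h
  have h3 := linC_comp h h2
  have := hV.smul (1 / 4) (hV.map (f := fun s => s + β s + β (β s) + β (β (β s)))
    ⟨fun x y => by simp only [h.add]; abel, fun c x => by simp only [h.smul, smul_add],
      fun a x l => ((l.add (h.lim a x l)).add (h2.lim a x l)).add (h3.lim a x l)⟩ hS hx)
  simp only [hb] at this
  rwa [show (1 / 4 : ℂ) • (x + x + x + x) = x by module] at this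

theorem final {u : F2 → L2 F2 →L[ℂ] L2 F2} (hu : IsL u) :
    ∃ α β : MM u ≃⋆ₐ[ℂ] MM u, α ^ 4 = 1 ∧ β ^ 4 = 1 ∧
      (∀ g, α (lam u g) = ep g • lam u g) ∧ (∀ g, β (lam u g) = lam u (sh g)) ∧
      (∀ x ∈ hu.tw.gen {1, lam u (of 0)}, α x = x) ∧
      (∀ x ∈ hu.tw.gen {1, lam u (of 0) + star (lam u (of 0)) + lam u (of 1) + star (lam u (of 1))},
        β x = x) ∧
      ∃ (NA NB : StarSubalgebra ℂ (MM u)) (θ : NB ≃⋆ₐ[ℂ] NA), (∀ x, x ∈ NA ↔ α x = x) ∧
        (∀ x, x ∈ NB ↔ β x = x) ∧ ∀ x : NB, x.1 ∈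
        hu.tw.gen {1, lam u (of 0) + star (lam u (of 0)) + lam u (of 1) + star (lam u (of 1))} ↔
        (θ x).1 ∈ hu.tw.gen {1, lam u (of 0)} := by
  classical
  have ha := hu.exists_aut (MulEquiv.refl _) ep fun g => (ep_dec g).1.1
  have hb := hu.exists_aut se 1 (by simp)
  obtain ⟨α, a1, a2⟩ := ha
  obtain ⟨β, b1, b2⟩ := hb
  replace a2 : ∀ g, α (lam u g) = ep g • lam u g := a2
  replace b2 : ∀ g, β (lam u g) = lam u (sh g) := fun g => (b2 g).trans (one_smul _ _)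
  have hL := exists_isL (G := Equiv.Perm F2)
  obtain ⟨L, hL⟩ := hL
  have hr := TW.final_abs hu.reg hu.tau_one hL.reg hL.tau_one (fun _ => rfl)
  obtain ⟨ρ, r1, r2, r3, r4⟩ := hr
  have e : lam u (of 0) + lam u (sh (of 0)) + lam u (sh (sh (of 0))) + lam u (sh (sh (sh (of 0)))) =
      lam u (of 0) + star (lam u (of 0)) + lam u (of 1) + star (lam u (of 1)) := by
    simp only [sh0, sh1, map_inv, hu.hom.inv]; abel
  rw [e] at r4
  have bE : ∀ g, β (lam u g + lam u (sh g) + lam u (sh (sh g)) + lam u (sh (sh (sh g)))) =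
      lam u g + lam u (sh g) + lam u (sh (sh g)) + lam u (sh (sh (sh g))) := fun g => by
    simp only [map_add, b2, sh4]; abel
  have hA := exists_fix α
  have hB := exists_fix β
  obtain ⟨NA, hA⟩ := hA
  obtain ⟨NB, hB⟩ := hB
  have hθ := r1.equiv NB NA
    (fun x hx => by
      obtain ⟨z, h2, h3⟩ := r2 x (avg_mem b1 (TW.cls_sub _) (by
        rintro _ ⟨g, rfl⟩
        simp only [b2]
        exact TW.sub_cls ⟨g, rfl⟩) (hu.mem_cls x) ((hB x).1 hx))
      refine ⟨z, (hA z).2 ((fix_sub a1).cls_le ?_ h2), h3⟩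
      rintro _ ⟨g, rfl⟩
      exact (a2 _).trans (by rw [ep_ps, one_smul]))
    (fun z hz => by
      obtain ⟨x, h2, h3⟩ := r3 z (avg_mem a1 (TW.cls_sub _) (by
        rintro _ ⟨g, rfl⟩
        rw [show lam u g + α (lam u g) + α (α (lam u g)) + α (α (α (lam u g))) =
          (1 + ep g + ep g ^ 2 + ep g ^ 3) • lam u g by simp only [a2, map_smul]; module]
        rcases (ep_dec g).2 with ⟨γ, rfl⟩ | h
        · exact .smul _ (.base ⟨γ, rfl⟩)
        · rw [h, zero_smul]; exact .zero) (hu.mem_cls z) ((hA z).1 hz))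
      refine ⟨x, (hB x).2 ((fix_sub b1).cls_le ?_ h2), h3⟩
      rintro _ ⟨g, rfl⟩
      exact bE g)
  obtain ⟨θ, hθ⟩ := hθ
  have p4 : ∀ (γ : MM u ≃⋆ₐ[ℂ] MM u), hu.tw.LinC γ → (∀ g, γ (γ (γ (γ (lam u g)))) = lam u g) →
      γ ^ 4 = 1 := fun γ h1 h2 => StarAlgEquiv.ext fun x =>
    hu.aut_ext (linC_comp h1 (linC_comp h1 (linC_comp h1 h1))) TW.LinC.id h2 x
  refine ⟨α, β, p4 α a1 fun g => ?_, p4 β b1 fun g => ?_, a2, b2, (fix_sub a1).gen_le ?_,
    (fix_sub b1).gen_le ?_, NA, NB, θ, hA, hB, fun x => r4 _ _ (hθ x)⟩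
  · simp only [a2, map_smul, smul_smul]
    rw [show ep g * ep g * ep g * ep g = ep g ^ 4 by ring, (ep_dec g).1.2, one_smul]
  · simp only [b2, sh4]
  · rintro _ (rfl | rfl)
    exacts [map_one α, (a2 _).trans (by rw [ep0, one_smul])]
  · rintro _ (rfl | rfl)
    exacts [map_one β, e ▸ bE _]

end Pool.Agent.Lib.MP_263241_an
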