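import Pool.Agent.Lib.MP_263241_an.WAa

/-! Graphs of trace-scaling isomorphisms, families with the same moments. -/

namespace Pool.Agent.Lib.MP_263241_an

open Filter Topology
open scoped InnerProductSpace ComplexConjugate

variable {R R' R'' H H' H'' : Type*} [CStarAlgebra R] [NormedAddCommGroup H]
  [InnerProductSpace ℂ H] [CStarAlgebra R'] [NormedAddCommGroup H'] [InnerProductSpace ℂ H']
  [CStarAlgebra R''] [NormedAddCommGroup H''] [InnerProductSpace ℂ H'']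

namespace TW

variable (T : TW R H) (T' : TW R' H') (T'' : TW R'' H'')

/-- The graph of an isomorphism that scales the trace by `c`. -/
structure Gr (c : ℝ) (E : R × R') (G : Set (R × R')) : Prop where
  alg : (T.prod T').Alg E G
  pos : 0 < c
  tr : ∀ z ∈ G, T'.tau z.2 = c * T.tau z.1

/-- Two families have the same moments. -/
def Eqv {ι : Type*} (x : ι → R) (y : ι → R') : Prop :=
  ∀ w : List ι, T'.tau (w.map y).prod = T.tau (w.map x).prod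

variable {T T' T''}

/-! ### Graphs -/

section gr

variable {c : ℝ} {E : R × R'} {G : Set (R × R')}

theorem wa_tau (z : R × R') : (T.prod T').tau z = T.tau z.1 + T'.tau z.2 := by
  simp [tau_apply, prod]

theorem wa_sub (c : ℝ) : (T.prod T').IsSub {z | T'.tau z.2 = c * T.tau z.1} where
  zero := by simp
  add hx hy := by simp only [Set.mem_ofPred_eq, Prod.fst_add, Prod.snd_add, map_add, mul_add,
    ← hx.out, ← hy.out]
  smul s _ hx := by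
    simp only [Set.mem_ofPred_eq, Prod.smul_fst, Prod.smul_snd, map_smul, hx.out, smul_eq_mul]
    ring
  lim a _ ha hl := tendsto_nhds_unique (lim_prod.1 hl).2.tau
    (((lim_prod.1 hl).1.tau.const_mul _).congr fun n => (ha n).out.symm)

theorem wa_fst {A : Set R} (hA : T.IsW A) : (T.prod T').IsW (Prod.fst ⁻¹' A) :=
  ⟨⟨hA.zero, hA.add, fun s _ => hA.smul s, fun _ _ ha hl => hA.lim _ ha (lim_prod.1 hl).1⟩,
    hA.mul, hA.star⟩

theorem wa_snd {A : Set R'} (hA : T'.IsW A) : (T.prod T').IsW (Prod.snd ⁻¹' A) :=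
  ⟨⟨hA.zero, hA.add, fun s _ => hA.smul s, fun _ _ ha hl => hA.lim _ ha (lim_prod.1 hl).2⟩,
    hA.mul, hA.star⟩

theorem wa_swap (hG : (T.prod T').IsW G) : (T'.prod T).IsW (Prod.swap ⁻¹' G) :=
  ⟨⟨hG.zero, hG.add, fun s _ => hG.smul s, fun a _ ha hl =>
    hG.lim (fun n => (a n).swap) ha (lim_prod.2 (lim_prod.1 hl).symm)⟩, hG.mul, hG.star⟩

theorem wa_pr (hE : Pr E) : Pr E.1 ∧ Pr E.2 :=
  ⟨⟨congrArg Prod.fst hE.st, congrArg Prod.fst hE.sq⟩,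
    congrArg Prod.snd hE.st, congrArg Prod.snd hE.sq⟩

theorem wa_pr_mk {e : R} {e' : R'} (he : Pr e) (he' : Pr e') : Pr (e, e') :=
  ⟨Prod.ext he.st he'.st, Prod.ext he.sq he'.sq⟩

theorem Gr.corr (h : T.Gr T' c E G) : T.Corr T' fun x y => (x, y) ∈ G :=
  graph_corr h.alg h.pos h.tr

theorem Gr.l2 (h : T.Gr T' c E G) {z : R × R'} (hz : z ∈ G) : ‖T'.ι z.2‖ = √c * ‖T.ι z.1‖ :=
  graph_norm h.alg.toIsW h.pos.le h.tr hz

theorem Gr.l2' (h : T.Gr T' 1 E G) {x : R} {y : R'} (hz : (x, y) ∈ G) : ‖T'.ι y‖ = ‖T.ι x‖ := by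
  simpa using h.l2 hz

theorem Gr.uniq (h : T.Gr T' c E G) {x : R} {y y' : R'} (h1 : (x, y) ∈ G) (h2 : (x, y') ∈ G) :
    y = y' := h.corr.uniq h1 h2

theorem Gr.symm (h : T.Gr T' c E G) : T'.Gr T c⁻¹ E.swap (Prod.swap ⁻¹' G) :=
  ⟨⟨wa_swap h.alg.toIsW, wa_pr_mk (wa_pr h.alg.pr).2 (wa_pr h.alg.pr).1, h.alg.one,
    fun hx => congrArg Prod.swap (h.alg.l hx)⟩, inv_pos.2 h.pos, fun z hz => by
      rw [show T'.tau z.1 = c * T.tau z.2 from h.tr _ hz, ← mul_assoc, ← Complex.ofReal_mul,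
        inv_mul_cancel₀ h.pos.ne', Complex.ofReal_one, one_mul]⟩

theorem Gr.fst_alg (h : T.Gr T' c E G) : T.Alg E.1 (Prod.fst '' G) := by
  refine ⟨?_, (wa_pr h.alg.pr).1, ⟨E, h.alg.one, rfl⟩, ?_⟩
  · convert h.corr.pull _ univ_w using 1
    ext x
    simp
  · rintro _ ⟨z, hz, rfl⟩
    exact congrArg Prod.fst (h.alg.l hz)

theorem Gr.snd_alg (h : T.Gr T' c E G) : T'.Alg E.2 (Prod.snd '' G) := by
  have e : Prod.snd '' G = Prod.fst '' (Prod.swap ⁻¹' G) := by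
    ext x
    simp
  exact e ▸ h.symm.fst_alg

theorem wa_norm (h : T.Gr T' c E G) {x : R} {y : R'} (hz : (x, y) ∈ G) : ‖y‖ ≤ ‖x‖ := by
  refine norm_le_of_l2 h.snd_alg ⟨_, hz, rfl⟩ (norm_nonneg _) ?_
  rintro _ ⟨w, hw, rfl⟩
  rw [h.l2 hw, mul_left_comm]
  exact (h.l2 (h.alg.mul hz hw)).trans_le
    (mul_le_mul_of_nonneg_left (T.norm_mul _ _) (Real.sqrt_nonneg _))

theorem Gr.norm (h : T.Gr T' c E G) {x : R} {y : R'} (hz : (x, y) ∈ G) : ‖y‖ = ‖x‖ :=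
  (wa_norm h hz).antisymm (wa_norm h.symm hz)

theorem wa_lim (h : T.Gr T' c E G) {a : ℕ → R} {b : ℕ → R'} (hz : ∀ n, (a n, b n) ∈ G) {x : R}
    (hl : T.Lim a x) : ∃ y, (x, y) ∈ G ∧ T'.Lim b y := by
  obtain ⟨w, hw, rfl⟩ := h.fst_alg.lim a (fun n => ⟨_, hz n, rfl⟩) hl
  exact ⟨w.2, hw, lim_iff.2 (squeeze_zero (fun _ => norm_nonneg _)
    (fun n => (h.l2 (h.alg.sub (hz n) hw)).le) (by simpa using (lim_iff.1 hl).const_mul √c))⟩

theorem Gr.comp {c' : ℝ} {e'' : R''} {G' : Set (R' × R'')} (h : T.Gr T' c E G)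
    (h' : T'.Gr T'' c' (E.2, e'') G') :
    T.Gr T'' (c' * c) (E.1, e'') {z | ∃ y, (z.1, y) ∈ G ∧ (y, z.2) ∈ G'} := by
  refine ⟨⟨⟨⟨⟨0, h.alg.zero, h'.alg.zero⟩,
    fun ⟨_, a, b⟩ ⟨_, a', b'⟩ => ⟨_, h.alg.add a a', h'.alg.add b b'⟩,
    fun s _ ⟨_, a, b⟩ => ⟨_, h.alg.smul s a, h'.alg.smul s b⟩, fun a z ha hl => ?_⟩,
    fun ⟨_, a, b⟩ ⟨_, a', b'⟩ => ⟨_, h.alg.mul a a', h'.alg.mul b b'⟩,
    fun ⟨_, a, b⟩ => ⟨_, h.alg.star a, h'.alg.star b⟩⟩,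
    wa_pr_mk (wa_pr h.alg.pr).1 (wa_pr h'.alg.pr).2, ⟨E.2, h.alg.one, h'.alg.one⟩,
    fun ⟨_, a, b⟩ => Prod.ext (h.fst_alg.l ⟨_, a, rfl⟩) (h'.snd_alg.l ⟨_, b, rfl⟩)⟩,
    mul_pos h'.pos h.pos, fun z ⟨y, a, b⟩ => ?_⟩
  · choose y h1 h2 using ha
    obtain ⟨w, h3, h4⟩ := wa_lim h h1 (lim_prod.1 hl).1
    exact ⟨w, h3, h'.alg.lim _ h2 (lim_prod.2 ⟨h4, (lim_prod.1 hl).2⟩)⟩
  · rw [h'.tr _ b, h.tr _ a, Complex.ofReal_mul, mul_assoc]

theorem Gr.sub (h : T.Gr T' c E G) {E0 : R × R'} {G0 : Set (R × R')} (h0 : (T.prod T').Alg E0 G0)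
    (hs : G0 ⊆ G) : T.Gr T' c E0 G0 := ⟨h0, h.pos, fun z hz => h.tr z (hs hz)⟩

theorem wa_img (h : T.Gr T' c E G) {S : Set (R × R')} (hS : S ⊆ G) :
    T.gen (Prod.fst '' S) = Prod.fst '' (T.prod T').gen S := by
  have w := gen_w (T := T.prod T') S
  refine Set.Subset.antisymm (IsW.gen_le ⟨⟨⟨0, w.zero, rfl⟩, ?_, ?_, fun a x ha hl => ?_⟩, ?_, ?_⟩
    (Set.image_mono sub_gen)) (Set.image_subset_iff.2
      ((wa_fst (gen_w _)).gen_le fun s hs => sub_gen ⟨s, hs, rfl⟩))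
  · rintro _ _ ⟨a, ha, rfl⟩ ⟨b, hb, rfl⟩
    exact ⟨_, w.add ha hb, rfl⟩
  · rintro s _ ⟨a, ha, rfl⟩
    exact ⟨_, w.smul s ha, rfl⟩
  · choose z h1 h2 using ha
    obtain rfl : (fun n => (z n).1) = a := funext h2
    obtain ⟨y, -, h3⟩ := wa_lim h (fun n => h.alg.gen_le hS (h1 n)) hl
    exact ⟨(x, y), w.lim z h1 (lim_prod.2 ⟨hl, h3⟩), rfl⟩
  · rintro _ _ ⟨a, ha, rfl⟩ ⟨b, hb, rfl⟩
    exact ⟨_, w.mul ha hb, rfl⟩
  · rintro _ ⟨a, ha, rfl⟩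
    exact ⟨_, w.star ha, rfl⟩

theorem wa_img' (h : T.Gr T' c E G) {S : Set (R × R')} (hS : S ⊆ G) :
    T'.gen (Prod.snd '' S) = Prod.snd '' (T.prod T').gen S := by
  refine Set.Subset.antisymm (fun y hy => ?_) (Set.image_subset_iff.2
    ((wa_snd (gen_w _)).gen_le fun s hs => sub_gen ⟨s, hs, rfl⟩))
  obtain ⟨z, hz, rfl⟩ := (wa_img h.symm (S := Prod.swap ⁻¹' S) fun _ hs => hS hs).subset
    (gen_mono (by rintro _ ⟨s, hs, rfl⟩; exact ⟨s.swap, hs, rfl⟩) hy)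
  exact ⟨z.swap, (wa_swap (gen_w S)).gen_le (fun _ hs => sub_gen hs) hz, rfl⟩

/-- Partners of elements of a generated algebra. -/
theorem Gr.partner (h : T.Gr T' c E G) {S : Set (R × R')} (hS : S ⊆ G) {x : R}
    (hx : x ∈ T.gen (Prod.fst '' S)) : ∃ y ∈ T'.gen (Prod.snd '' S), (x, y) ∈ (T.prod T').gen S := by
  obtain ⟨z, hz, rfl⟩ := (wa_img h hS).subset hx
  exact ⟨z.2, (wa_img' h hS).superset ⟨z, hz, rfl⟩, hz⟩

theorem Gr.mem_gen (h : T.Gr T' c E G) {S : Set (R × R')} (hS : S ⊆ G) {x : R} {y : R'}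
    (hz : (x, y) ∈ G) (hx : x ∈ T.gen (Prod.fst '' S)) : y ∈ T'.gen (Prod.snd '' S) := by
  obtain ⟨y', h1, h2⟩ := h.partner hS hx
  rwa [h.uniq hz (h.alg.gen_le hS h2)]

theorem Gr.ce (h : T.Gr T' c E G) {E0 : R × R'} {S : Set (R × R')} (hS : S ⊆ G)
    (h0 : (T.prod T').Alg E0 ((T.prod T').gen S)) {x : R} {y : R'} (hz : (x, y) ∈ G) :
    (T.ce (T.gen (Prod.fst '' S)) x, T'.ce (T'.gen (Prod.snd '' S)) y) ∈ (T.prod T').gen S := by
  have hs := h.alg.gen_le hS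
  have h1 := h.sub h0 hs
  rw [wa_img h hS, wa_img' h hS]
  obtain ⟨w, hw, e⟩ := h1.fst_alg.ce_mem x
  rw [h1.snd_alg.ce_eq ⟨w, hw, rfl⟩, ← e]
  · exact hw
  · rintro _ ⟨d, hd, rfl⟩
    refine (h.tr _ (hs (h0.mul hd hw))).trans (Eq.trans ?_ (h.tr _ (h.alg.mul (hs hd) hz)).symm)
    rw [Prod.fst_mul, e, h1.fst_alg.ce_tau x ⟨d, hd, rfl⟩, Prod.fst_mul]

theorem Gr.ph (h : T.Gr T' c E G) {e x : R} {e' x' : R'} (hs : SA e x) (hs' : SA e' x')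
    (he : (e, e') ∈ G) (hx : (x, x') ∈ G) {f : ℝ → ℂ} (hf : Continuous f) :
    (Ph e x f, Ph e' x' f) ∈ G := by
  have h1 : SA (e, e') (x, x') := ⟨wa_pr_mk hs.pr hs'.pr, Prod.ext hs.st hs'.st, Prod.ext hs.l hs'.l⟩
  have h2 := h.alg.ph_mem h1 he hx f
  rwa [Ph, cfc_map_prod (S := ℂ) _ x x' (by fun_prop) h1.normal hs.normal hs'.normal] at h2

theorem Gr.free (h : T.Gr T' c E G) {X Y : Set R} {X' Y' : Set R'} (hF : T.Free X Y)
    (hX : ∀ y ∈ X', ∃ x ∈ X, (x, y) ∈ G) (hY : ∀ y ∈ Y', ∃ x ∈ Y, (x, y) ∈ G) :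
    T'.Free X' Y' := by
  have k : ∀ {A : Set R} {A' : Set R'}, (∀ y ∈ A', ∃ x ∈ A, (x, y) ∈ G) →
      ∀ y ∈ T'.cen A', ∃ x ∈ T.cen A, (x, y) ∈ G := fun hA y hy => by
    obtain ⟨x, h1, h2⟩ := hA y hy.1
    exact ⟨x, ⟨h1, (mul_eq_zero.1 ((h.tr _ h2).symm.trans hy.2)).resolve_left
      (Complex.ofReal_ne_zero.2 h.pos.ne')⟩, h2⟩
  intro b w hw
  obtain ⟨v, h1, h2⟩ : ∃ v, Alt (T.cen X) (T.cen Y) b v ∧ (v, w) ∈ G := by
    induction hw with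
    | x1 hx => exact (k hX _ hx).imp fun _ a => ⟨.x1 a.1, a.2⟩
    | y1 hy => exact (k hY _ hy).imp fun _ a => ⟨.y1 a.1, a.2⟩
    | xc hx _ ih =>
      obtain ⟨x, a1, a2⟩ := k hX _ hx
      obtain ⟨v, b1, b2⟩ := ih
      exact ⟨_, .xc a1 b1, h.alg.mul a2 b2⟩
    | yc hy _ ih =>
      obtain ⟨x, a1, a2⟩ := k hY _ hy
      obtain ⟨v, b1, b2⟩ := ih
      exact ⟨_, .yc a1 b1, h.alg.mul a2 b2⟩
  rw [h.tr _ h2, hF b v h1, mul_zero]

theorem Gr.haar (h : T.Gr T' c E G) {e u : R} {e' u' : R'} (he : (e, e') ∈ G) (hu : (u, u') ∈ G)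
    (hh : T.Haar e u) : T'.Haar e' u' := by
  refine ⟨h.corr.uniq (h.corr.mul he hu) (hh.l.symm ▸ hu),
    h.corr.uniq (h.corr.mul (h.corr.star hu) hu) (hh.su.symm ▸ he),
    h.corr.uniq (h.corr.mul hu (h.corr.star hu)) (hh.us.symm ▸ he), fun n => ?_⟩
  have : (u ^ (n + 1), u' ^ (n + 1)) ∈ G := by
    induction n with
    | zero => simpa using hu
    | succ n ih => simpa only [pow_succ _ (n + 1)] using h.corr.mul ih hu
  rw [h.tr _ this, hh.tau n, mul_zero]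

theorem Gr.noEig (h : T.Gr T' c E G) {e x : R} {e' x' : R'} (he : (e, e') ∈ G) (hx : (x, x') ∈ G)
    (hs : SA e x) (hh : NoEig e x) : NoEig e' x' := by
  have k := h.corr
  have hS : {(e, e'), (x, x')} ⊆ G := Set.insert_subset he (Set.singleton_subset_iff.2 hx)
  refine noEig_of (T := T') ⟨⟨k.uniq (k.star he) (hs.pr.st.symm ▸ he),
    k.uniq (k.mul he he) (hs.pr.sq.symm ▸ he)⟩, k.uniq (k.star hx) (hs.st.symm ▸ hx),
    k.uniq (k.mul he hx) (hs.l.symm ▸ hx)⟩ fun l z hz e1 => ?_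
  obtain ⟨w, hw, rfl⟩ := (wa_img' h hS).subset (by rwa [Set.image_pair])
  have h1 : w.1 ∈ T.gen {e, x} := by
    simpa only [Set.image_pair] using (wa_img h hS).superset ⟨w, hw, rfl⟩
  have h2 : (w.1, w.2) ∈ G := h.alg.gen_le hS hw
  have h3 := (gen_alg hs.pr (sub_gen (Or.inl rfl)) (by
    rintro _ (rfl | rfl)
    exacts [⟨hs.pr.sq, hs.pr.sq⟩, ⟨hs.l, hs.r⟩])).l h1
  exact k.fn (hh l w.1 h3 (k.symm.uniq (k.mul hx h2) (e1.symm ▸ k.smul _ h2)) ▸ h2)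

/-- Free products of graphs. -/
theorem Gr.join {G1 G2 : Set (R × R')} (h1 : T.Gr T' c E G1) (h2 : T.Gr T' c E G2)
    (hE : T.tau E.1 ≠ 0) (hF : T.Free (Prod.fst '' G1) (Prod.fst '' G2))
    (hF' : T'.Free (Prod.snd '' G1) (Prod.snd '' G2)) :
    T.Gr T' c E ((T.prod T').gen (G1 ∪ G2)) := by
  have c0 := Complex.ofReal_ne_zero.2 h1.pos.ne'
  have c1 : (1 + c : ℂ) ≠ 0 := by exact_mod_cast (add_pos one_pos h1.pos).ne'
  have e : ∀ {G}, T.Gr T' c E G → ∀ z ∈ G, (T.prod T').tau z = (1 + c) * T.tau z.1 :=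
    fun h z hz => by rw [wa_tau, h.tr z hz, add_mul, one_mul]
  have k : ∀ {G}, T.Gr T' c E G → ∀ z ∈ (T.prod T').cen G,
      z.1 ∈ T.cen (Prod.fst '' G) ∧ z.2 ∈ T'.cen (Prod.snd '' G) := fun h z hz => by
    have := (mul_eq_zero.1 ((e h z hz.1).symm.trans hz.2)).resolve_left c1
    exact ⟨⟨⟨z, hz.1, rfl⟩, this⟩, ⟨z, hz.1, rfl⟩, by rw [h.tr z hz.1, this, mul_zero]⟩
  refine ⟨h1.alg.gen_union h2.alg, h1.pos, (normal_form (by
    rw [e h1 E h1.alg.one]; exact mul_ne_zero c1 hE) h1.alg h2.alg).trans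
    ((wa_sub c).cls_le (Set.union_subset h1.tr ?_))⟩
  rintro _ ⟨a, ha, u, hu, a', ha', rfl⟩
  have h3 : Core (T.cen (Prod.fst '' G1)) (T.cen (Prod.fst '' G2)) u.1 ∧
      Core (T'.cen (Prod.snd '' G1)) (T'.cen (Prod.snd '' G2)) u.2 := by
    induction hu with
    | one h => exact ⟨.one (k h2 _ h).1, .one (k h2 _ h).2⟩
    | cons h h' _ ih =>
      exact ⟨.cons (k h2 _ h).1 (k h1 _ h').1 ih.1, .cons (k h2 _ h).2 (k h1 _ h').2 ih.2⟩
  have h4 : E * (a * u * a') = a * u * a' := by rw [← mul_assoc, ← mul_assoc, h1.alg.l ha]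
  have h5 := tau_TT hE h1.fst_alg h2.fst_alg hF h1.fst_alg.one
    ⟨_, ⟨a, ha, rfl⟩, _, h3.1, _, ⟨a', ha', rfl⟩, rfl⟩
  have h6 := tau_TT (by rw [h1.tr E h1.alg.one]; exact mul_ne_zero c0 hE) h1.snd_alg h2.snd_alg hF'
    h1.snd_alg.one ⟨_, ⟨a, ha, rfl⟩, _, h3.2, _, ⟨a', ha', rfl⟩, rfl⟩
  rw [← h4]
  exact h6.trans ((congrArg _ h5).trans (mul_zero _)).symm

/-- A graph from equality of the moments. -/
theorem gr_of_words {S : Set (R × R')} (hc : 0 < c) (hE : Pr E) (hl : ∀ s ∈ S, E * s = s ∧ s * E = s)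
    (hst : ∀ s ∈ S, star s ∈ S)
    (h : ∀ w : List (R × R'), (∀ s ∈ w, s ∈ S) →
      T'.tau (E * w.prod).2 = c * T.tau (E * w.prod).1) :
    T.Gr T' c E ((T.prod T').gen (insert E S)) := by
  have hA : (T.prod T').Alg E ((T.prod T').gen (insert E S)) :=
    gen_alg hE (sub_gen (Or.inl rfl)) (Set.forall_mem_insert.2 ⟨⟨hE.sq, hE.sq⟩, hl⟩)
  refine ⟨hA, hc, fun z hz => ?_⟩
  have h1 := (cls_sub (T := T.prod T') {v | ∃ w : List (R × R'), (∀ s ∈ w, s ∈ S) ∧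
    v = E * w.prod}).stab (Set.forall_mem_insert.2 ⟨Or.inl hE.st, fun s hs => Or.inr (hst s hs)⟩)
    (fun s hs v => (cls_sub _).map (LinC.id.mulL s) ?_) hz E (sub_cls ⟨[], by simp, by simp⟩)
  · rw [hA.r hz] at h1
    exact (wa_sub c).cls_le (by rintro _ ⟨w, hw, rfl⟩; exact h w hw) h1
  · rintro _ ⟨w, hw, rfl⟩
    rcases hs with rfl | hs
    · exact sub_cls ⟨w, hw, hE.l _⟩
    · exact sub_cls ⟨s :: w, by simpa [hs] using hw, by
        rw [List.prod_cons, ← mul_assoc, ← mul_assoc, (hl s hs).1, (hl s hs).2]⟩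

theorem gr_haar {e u : R} {e' u' : R'} (hc : 0 < c) (he : Pr e) (he' : Pr e') (hu : T.Haar e u)
    (hu' : T'.Haar e' u') (ht : T'.tau e' = c * T.tau e) :
    T.Gr T' c (e, e') ((T.prod T').gen {(e, e'), (u, u')}) := by
  obtain ⟨φ, h1, h2, h3⟩ := Haar.lf (T := T.prod T') (u := (u, u')) (wa_pr_mk he he')
    ⟨Prod.ext hu.l hu'.l, Prod.ext hu.su hu'.su, Prod.ext hu.us hu'.us, fun n => by
      simp [wa_tau, hu.tau, hu'.tau]⟩
  rw [← h2]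
  refine ⟨hom_alg h1.toHom, hc, (wa_sub c).cls_le ?_⟩
  rintro _ ⟨g, rfl⟩
  rcases h3 g with e1 | ⟨n, e1 | e1⟩ <;> rw [e1]
  · exact ht
  · simp [hu.tau, hu'.tau]
  · simp [← star_pow, tau_star, hu.tau, hu'.tau]

theorem gr_reg {Γ : Type*} [Group Γ] {e : R} {e' : R'} {φ : Γ → R} {ψ : Γ → R'} (hc : 0 < c)
    (h : T.Reg e φ) (h' : T'.Reg e' ψ) (ht : T'.tau e' = c * T.tau e) :
    T.Gr T' c (e, e') ((T.prod T').cls (Set.range fun g => (φ g, ψ g))) := by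
  refine ⟨hom_alg ⟨Prod.ext h.one h'.one, fun a b => Prod.ext (h.mul a b) (h'.mul a b),
    fun a => Prod.ext (h.inv a) (h'.inv a)⟩, hc, (wa_sub c).cls_le ?_⟩
  rintro _ ⟨g, rfl⟩
  rcases eq_or_ne g 1 with rfl | hg
  · simpa [h.one, h'.one] using ht
  · simp [h.tau g hg, h'.tau g hg]

theorem gr_sa {e x : R} {e' x' : R'} (hc : 0 < c) (h : SA e x) (h' : SA e' x')
    (ht : T'.tau e' = c * T.tau e) (hm : ∀ n : ℕ, T'.tau (x' ^ (n + 1)) = c * T.tau (x ^ (n + 1))) :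
    T.Gr T' c (e, e') ((T.prod T').gen {(e, e'), (x, x')}) := by
  refine gr_of_words hc (wa_pr_mk h.pr h'.pr) (by simp [h.l, h.r, h'.l, h'.r])
    (by simp [Prod.ext_iff, h.st, h'.st]) fun w hw => ?_
  rw [List.eq_replicate_of_mem hw, List.prod_replicate]
  cases w.length with
  | zero => simpa using ht
  | succ n => simpa [pow_succ', ← mul_assoc, h.l, h'.l] using hm n

theorem gr_diag {p : R} {D : Set R} (hD : T.Alg p D) :
    T.Gr T 1 (p, p) {z | z.1 ∈ D ∧ z.2 = z.1} :=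
  ⟨⟨⟨⟨⟨hD.zero, rfl⟩, fun a b => ⟨hD.add a.1 b.1, congrArg₂ _ a.2 b.2⟩,
    fun s _ a => ⟨hD.smul s a.1, congrArg (s • ·) a.2⟩, fun _ _ ha hl =>
      ⟨hD.lim _ (fun n => (ha n).1) (lim_prod.1 hl).1, (lim_prod.1 hl).2.unique
        (funext (fun n => (ha n).2) ▸ (lim_prod.1 hl).1)⟩⟩,
    fun a b => ⟨hD.mul a.1 b.1, congrArg₂ _ a.2 b.2⟩, fun a => ⟨hD.star a.1, congrArg star a.2⟩⟩,
    wa_pr_mk hD.pr hD.pr, ⟨hD.one, rfl⟩, fun a => Prod.ext (hD.l a.1) (hD.l (a.2 ▸ a.1))⟩,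
    one_pos, fun z hz => by simp [hz.2]⟩

end gr

/-! ### Families with the same moments -/

section eqv

variable {ι : Type*} {x : ι → R} {y : ι → R'} {z : ι → R''}

theorem Eqv.refl (x : ι → R) : T.Eqv T x x := fun _ => rfl

theorem Eqv.symm (h : T.Eqv T' x y) : T'.Eqv T y x := fun w => (h w).symm

theorem Eqv.trans (h : T.Eqv T' x y) (h' : T'.Eqv T'' y z) : T.Eqv T'' x z :=
  fun w => (h' w).trans (h w)

theorem Eqv.comp {κ : Type*} (h : T.Eqv T' x y) (f : κ → ι) : T.Eqv T' (x ∘ f) (y ∘ f) :=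
  fun w => by simpa only [List.map_map] using h (w.map f)

theorem wa_prod (w : List ι) :
    (w.map fun i => (x i, y i)).prod = ((w.map x).prod, (w.map y).prod) := by
  induction w with
  | nil => rfl
  | cons i w ih => simp [ih]

theorem Eqv.gr (h : T.Eqv T' x y) (hs : ∀ i, ∃ j, star (x i) = x j ∧ star (y i) = y j) :
    T.Gr T' 1 1 ((T.prod T').gen (insert 1 (Set.range fun i => (x i, y i)))) := by
  refine gr_of_words one_pos Pr.one (by simp) ?_ fun w hw => ?_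
  · rintro _ ⟨i, rfl⟩
    exact (hs i).imp fun j hj => (Prod.ext hj.1 hj.2).symm
  · obtain ⟨v, rfl⟩ : w ∈ Set.range (List.map fun i => (x i, y i)) := by rwa [Set.range_list_map]
    simpa [wa_prod] using h v

theorem Gr.eqv {G : Set (R × R')} (h : T.Gr T' 1 1 G) (hx : ∀ i, (x i, y i) ∈ G) :
    T.Eqv T' x y := by
  intro w
  have : ((w.map x).prod, (w.map y).prod) ∈ G := by
    induction w with
    | nil => exact h.alg.one
    | cons i w ih => exact h.alg.mul (hx i) ih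
  simpa using h.tr _ this

theorem wa_lim_prod {a : ℕ → ι → R} {C : ℝ} (ha : ∀ n i, ‖a n i‖ ≤ C)
    (la : ∀ i, T.Lim (fun n => a n i) (x i)) (w : List ι) :
    T.Lim (fun n => (w.map (a n)).prod) (w.map x).prod := by
  induction w with
  | nil => exact Lim.const _
  | cons i w ih => exact (la i).mul ih fun n => ha n i

theorem Eqv.lim {a : ℕ → ι → R} {b : ℕ → ι → R'} (h : ∀ n, T.Eqv T' (a n) (b n)) {C : ℝ}
    (ha : ∀ n i, ‖a n i‖ ≤ C) (hb : ∀ n i, ‖b n i‖ ≤ C) (la : ∀ i, T.Lim (fun n => a n i) (x i))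
    (lb : ∀ i, T'.Lim (fun n => b n i) (y i)) : T.Eqv T' x y := fun w =>
  tendsto_nhds_unique (wa_lim_prod hb lb w).tau
    ((wa_lim_prod ha la w).tau.congr fun n => (h n w).symm)

/-- Stability of the distance to a generated algebra. -/
theorem stab_dist [Fintype ι] (hs : ∀ i, star (x i) = x i) {u : R}
    (hu : u ∈ T.gen (insert 1 (Set.range x))) (C : ℝ) {ε : ℝ} (hε : 0 < ε) :
    ∃ δ > 0, ∀ x' : ι → R, (∀ i, ‖x' i‖ ≤ C) → (∀ i, ‖T.ι (x' i - x i)‖ ≤ δ) →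
      ‖T.ι (u - T.ce (T.gen (insert 1 (Set.range x'))) u)‖ ≤ ε := by
  let V : Set R := {v | ∀ ε > 0, ∃ δ > 0, ∀ x' : ι → R, (∀ i, ‖x' i‖ ≤ C) →
    (∀ i, ‖T.ι (x' i - x i)‖ ≤ δ) → ∃ d ∈ T.gen (insert 1 (Set.range x')), ‖T.ι (v - d)‖ ≤ ε}
  have hV : T.IsSub V := by
    refine ⟨fun ε hε => ⟨1, one_pos, fun _ _ _ => ⟨0, (gen_w _).zero, by simpa using hε.le⟩⟩,
      fun {a b} ha hb ε hε => ?_, fun s a ha ε hε => ?_, fun a v ha hl ε hε => ?_⟩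
    · obtain ⟨δ, h0, h1⟩ := ha _ (half_pos hε)
      obtain ⟨δ', h0', h1'⟩ := hb _ (half_pos hε)
      refine ⟨_, lt_min h0 h0', fun x' h2 h3 => ?_⟩
      obtain ⟨d, k1, k2⟩ := h1 x' h2 fun i => (h3 i).trans (min_le_left _ _)
      obtain ⟨d', k1', k2'⟩ := h1' x' h2 fun i => (h3 i).trans (min_le_right _ _)
      refine ⟨_, (gen_w _).add k1 k1', ?_⟩
      rw [add_sub_add_comm, map_add]
      exact (norm_add_le _ _).trans (by linarith)
    · refine (ha (ε / (‖s‖ + 1)) (by positivity)).imp fun δ h1 => ⟨h1.1, fun x' h2 h3 => ?_⟩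
      obtain ⟨d, k1, k2⟩ := h1.2 x' h2 h3
      refine ⟨_, (gen_w _).smul s k1, ?_⟩
      rw [le_div_iff₀ (by positivity)] at k2
      rw [← smul_sub, map_smul, norm_smul]
      nlinarith [norm_nonneg (T.ι (a - d))]
    · obtain ⟨n, hn⟩ := ((lim_iff.1 hl).eventually (gt_mem_nhds (half_pos hε))).exists
      refine (ha n _ (half_pos hε)).imp fun δ h1 => ⟨h1.1, fun x' h2 h3 => ?_⟩
      obtain ⟨d, k1, k2⟩ := h1.2 x' h2 h3
      refine ⟨d, k1, ?_⟩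
      rw [show v - d = a n - d - (a n - v) by abel, map_sub]
      exact (norm_sub_le _ _).trans (by linarith)
  have h1 : u * 1 ∈ V := by
    refine hV.stab (Set.forall_mem_insert.2 ⟨Or.inl (star_one R),
      Set.forall_mem_range.2 fun i => Or.inr ⟨i, (hs i).symm⟩⟩) (Set.forall_mem_insert.2
        ⟨fun v hv => by rwa [one_mul], Set.forall_mem_range.2 fun i v hv ε hε => ?_⟩) hu 1
      fun ε hε => ⟨1, one_pos, fun _ _ _ => ⟨1, sub_gen (Or.inl rfl), by simpa using hε.le⟩⟩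
    obtain ⟨δ, h0, h1⟩ := hv (ε / 2 / (|C| + 1)) (by positivity)
    refine ⟨min δ (ε / 2 / (‖v‖ + 1)), lt_min h0 (by positivity), fun x' h2 h3 => ?_⟩
    obtain ⟨d, k1, k2⟩ := h1 x' h2 fun i => (h3 i).trans (min_le_left _ _)
    have k3 := (h3 i).trans (min_le_right _ _)
    rw [le_div_iff₀ (by positivity)] at k2 k3
    refine ⟨x' i * d, (gen_w _).mul (sub_gen (Or.inr ⟨i, rfl⟩)) k1, ?_⟩
    rw [show x i * v - x' i * d = x' i * (v - d) - (x' i - x i) * v by noncomm_ring, map_sub]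
    refine (norm_sub_le _ _).trans ((add_le_add (T.norm_mul _ _) (T.norm_mul' _ _)).trans ?_)
    nlinarith [norm_nonneg (T.ι (v - d)), norm_nonneg (T.ι (x' i - x i)),
      (h2 i).trans (le_abs_self C)]
  rw [mul_one] at h1
  refine (h1 ε hε).imp fun δ h2 => ⟨h2.1, fun x' h3 h4 => ?_⟩
  obtain ⟨d, k1, k2⟩ := h2.2 x' h3 h4
  exact ((gen1_alg _).ce_min u k1).trans k2

end eqv

end TW

end Pool.Agent.Lib.MP_263241_an
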