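import Pool.Agent.Lib.MP_263241_an.VD

/-! Free Haar unitaries and free symmetries. -/

namespace Pool.Agent.Lib.MP_263241_an

variable {R H : Type*} [CStarAlgebra R] [NormedAddCommGroup H] [InnerProductSpace ℂ H]

theorem wf_letters {ι : Type*} [DecidableEq ι] {S : Set ι} {g : FreeGroup ι}
    (hg : g ∈ Subgroup.closure (FreeGroup.of '' S)) : ∀ x ∈ g.toWord, x.1 ∈ S := by
  induction hg using Subgroup.closure_induction with
  | mem x hx =>
    obtain ⟨i, hi, rfl⟩ := hx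
    simpa using hi
  | one => simp
  | mul a b _ _ ha hb =>
    intro x hx
    exact (List.mem_append.1 ((FreeGroup.toWord_mul_sublist a b).subset hx)).elim (ha x) (hb x)
  | inv a _ ha =>
    intro x hx
    rw [FreeGroup.toWord_inv, FreeGroup.invRev, List.mem_reverse, List.mem_map] at hx
    obtain ⟨y, hy, rfl⟩ := hx
    exact ha y hy

theorem wf_alt_ne {ι : Type*} {S S' : Set ι} (hS : Disjoint S S') {b} {w : FreeGroup ι}
    (h : Alt {g | g ∈ Subgroup.closure (FreeGroup.of '' S) ∧ g ≠ 1}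
      {g | g ∈ Subgroup.closure (FreeGroup.of '' S') ∧ g ≠ 1} b w) : w ≠ 1 := by
  classical
  have k1 : ∀ {S : Set ι} {g : FreeGroup ι}, g ∈ Subgroup.closure (FreeGroup.of '' S) → g ≠ 1 →
      ∃ x l, x.1 ∈ S ∧ g.toWord = x :: l := fun {S g} hg h1 => by
    obtain ⟨x, l, e⟩ := List.exists_cons_of_ne_nil (mt FreeGroup.toWord_eq_nil_iff.1 h1)
    exact ⟨x, l, wf_letters hg x (by simp [e]), e⟩
  have k2 : ∀ {S S' : Set ι}, Disjoint S S' → ∀ {g w : FreeGroup ι},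
      g ∈ Subgroup.closure (FreeGroup.of '' S) → g ≠ 1 → (∃ x l, x.1 ∈ S' ∧ w.toWord = x :: l) →
      ∃ x l, x.1 ∈ S ∧ (g * w).toWord = x :: l := by
    rintro S S' hS g w hg h1 ⟨y, m, hy, e'⟩
    obtain ⟨x, l, hx, e⟩ := k1 hg h1
    have hr : FreeGroup.IsReduced (g.toWord ++ w.toWord) :=
      List.IsChain.append FreeGroup.isReduced_toWord FreeGroup.isReduced_toWord
        fun a ha c hc hac => by
          rw [e'] at hc
          obtain rfl : y = c := by simpa using hc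
          exact (Set.disjoint_left.1 hS (wf_letters hg a (List.mem_of_mem_getLast? ha))
            (hac ▸ hy)).elim
    refine ⟨x, l ++ w.toWord, hx, ?_⟩
    rw [FreeGroup.toWord_mul, hr.reduce_eq, e, List.cons_append]
  have : ∃ x l, x.1 ∈ (bif b then S else S') ∧ w.toWord = x :: l := by
    induction h with
    | x1 h => exact k1 h.1 h.2
    | y1 h => exact k1 h.1 h.2
    | xc h _ ih => exact k2 hS h.1 h.2 ih
    | yc h _ ih => exact k2 hS.symm h.1 h.2 ih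
  obtain ⟨x, l, -, e⟩ := this
  rintro rfl
  simp at e

/-- Alternating words in the powers of `v`, `v'` and the letters of `Y`. -/
theorem wf_alt {v v' : R} {Y : Set R} {P N : R → Prop} (h1 : P v ∧ N v')
    (h2 : ∀ w, P w → P (v * w)) (h3 : ∀ w, N w → N (v' * w))
    (h4 : ∀ y ∈ Y, P (v * y) ∧ N (v' * y))
    (h5 : ∀ y ∈ Y, ∀ w, P w ∨ N w → P (v * (y * w)) ∧ N (v' * (y * w))) {w : R}
    (h : Alt {x | ∃ n : ℕ, x = v ^ (n + 1) ∨ x = v' ^ (n + 1)} Y true w) : P w ∨ N w := by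
  have k : ∀ {v : R} {P : R → Prop}, (∀ w, P w → P (v * w)) → ∀ (n : ℕ) w, P w → P (v ^ n * w) :=
    fun h n w hw => by
      induction n with
      | zero => simpa using hw
      | succ n ih => rw [pow_succ', mul_assoc]; exact h _ ih
  suffices ∀ b w, Alt {x | ∃ n : ℕ, x = v ^ (n + 1) ∨ x = v' ^ (n + 1)} Y b w →
      bif b then P w ∨ N w else P (v * w) ∧ N (v' * w) from this _ _ h
  intro b w h
  induction h with
  | x1 h =>
    obtain ⟨n, rfl | rfl⟩ := h <;> rw [pow_succ]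
    exacts [.inl (k h2 n _ h1.1), .inr (k h3 n _ h1.2)]
  | y1 h => exact h4 _ h
  | xc h _ ih =>
    obtain ⟨n, rfl | rfl⟩ := h <;> rw [pow_succ, mul_assoc]
    exacts [.inl (k h2 n _ ih.1), .inr (k h3 n _ ih.2)]
  | yc h _ ih => exact h5 _ h _ ih

namespace TW

variable {T : TW R H} {e p u : R}

theorem wf_z {X Y : Set R} (h0 : ∀ y ∈ Y, T.tau y = 0)
    (h : ∀ w, Alt X Y true w → T.tau w = 0 ∧ ∀ y ∈ Y, T.tau (y * w) = 0) : T.Z X Y := by
  intro b w hw
  cases hw with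
  | x1 hx => exact (h _ (.x1 hx)).1
  | y1 hy => exact h0 _ hy
  | xc hx hw => exact (h _ (.xc hx hw)).1
  | yc hy hw => exact (h _ hw).2 _ hy

theorem wf_alt_cls {X Y : Set R} {b w} (hw : Alt (T.cls X) (T.cls Y) b w) :
    w ∈ T.cls {w | Alt X Y b w} := by
  induction hw with
  | x1 h => exact cls_mono (fun _ h => Alt.x1 h) h
  | y1 h => exact cls_mono (fun _ h => Alt.y1 h) h
  | xc h _ ih => exact (cls_sub _).mul_cls (fun _ hs _ ht => .base (Alt.xc hs ht)) h ih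
  | yc h _ ih => exact (cls_sub _).mul_cls (fun _ hs _ ht => .base (Alt.yc hs ht)) h ih

theorem wf_pow_mem {A : Set R} (hA : T.IsW A) (hu : u ∈ A) (n : ℕ) : u ^ (n + 1) ∈ A := by
  induction n with
  | zero => simpa using hu
  | succ n ih => rw [pow_succ]; exact hA.mul ih hu

theorem wf_hom_pow {G : Type*} [Group G] {φ : G → R} (h : Hom e φ) (a : G) (n : ℕ) :
    φ (a ^ (n + 1)) = φ a ^ (n + 1) := by
  induction n with
  | zero => simp
  | succ n ih => rw [pow_succ, h.mul, ih, ← pow_succ]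

theorem wf_map_alt {G : Type*} [Group G] {φ : G → R} (h : Hom e φ) {X Y : Set G} {X' Y' : Set R}
    (hX : ∀ x ∈ X, φ x ∈ X') (hY : ∀ x ∈ Y, φ x ∈ Y') {b w} (hw : Alt X Y b w) :
    Alt X' Y' b (φ w) := by
  induction hw with
  | x1 hx => exact .x1 (hX _ hx)
  | y1 hx => exact .y1 (hY _ hx)
  | xc hx _ ih => rw [h.mul]; exact .xc (hX _ hx) ih
  | yc hx _ ih => rw [h.mul]; exact .yc (hY _ hx) ih

theorem Reg.comp_inj {G G' : Type*} [Group G] [Group G'] {φ : G → R} (h : T.Reg e φ) (f : G' →* G)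
    (hf : Function.Injective f) : T.Reg e fun g => φ (f g) :=
  ⟨h.toHom.comp f, fun _ hg => h.tau _ fun e => hg (hf (by rw [e, map_one]))⟩

theorem Reg.haar {ι : Type*} {φ : FreeGroup ι → R} (h : T.Reg e φ) (i : ι) :
    T.Haar e (φ (.of i)) :=
  ⟨h.l _, by rw [← h.inv, ← h.mul, inv_mul_cancel, h.one],
    by rw [← h.inv, ← h.mul, mul_inv_cancel, h.one], fun n => by
    rw [← wf_hom_pow h.toHom]
    exact h.tau _ fun e => FreeGroup.of_ne_one i
      ((pow_eq_one_iff_left n.succ_ne_zero).1 e)⟩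

theorem cls_eq_gen {ι : Type*} {φ : FreeGroup ι → R} (h : Hom e φ) :
    T.cls (Set.range φ) = T.gen (insert e (Set.range fun i => φ (.of i))) :=
  Set.Subset.antisymm (hom_mem h (gen_w _) (sub_gen (.inl rfl)) fun i => sub_gen (.inr ⟨i, rfl⟩))
    ((hom_alg h).gen_le (Set.insert_subset (hom_alg h).one
      (by rintro _ ⟨i, rfl⟩; exact sub_cls ⟨_, rfl⟩)))

theorem wf_cen {ι : Type*} {φ : FreeGroup ι → R} (h : T.Reg e φ) (S : Set ι) :
    T.cen (T.gen (insert e ((fun i => φ (.of i)) '' S))) ⊆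
      T.cls (φ '' {g | g ∈ Subgroup.closure (FreeGroup.of '' S) ∧ g ≠ 1}) := by
  have A := hom_alg (T := T) (h.toHom.comp (Subgroup.closure (FreeGroup.of '' S)).subtype)
  have k := A.gen_le (S := insert e ((fun i => φ (.of i)) '' S)) (Set.insert_subset A.one (by
    rintro _ ⟨i, hi, rfl⟩
    exact sub_cls ⟨⟨_, Subgroup.subset_closure ⟨i, hi, rfl⟩⟩, rfl⟩))
  intro x hx
  by_cases ht : T.tau e = 0
  · rw [← A.l (k hx.1), T.pr_eq_zero h.pr ht, zero_mul]
    exact .zero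
  refine cen_sub_cls ht ?_ ⟨cls_mono ?_ (k hx.1), hx.2⟩
  · rintro _ ⟨g, hg, rfl⟩
    exact h.tau g hg.2
  · rintro _ ⟨⟨g, hg⟩, rfl⟩
    by_cases h1 : g = 1
    · exact .inl (h1 ▸ h.one)
    · exact .inr ⟨g, ⟨hg, h1⟩, rfl⟩

/-- Disjoint sets of generators are free. -/
theorem Reg.free_fam {ι : Type*} {φ : FreeGroup ι → R} (h : T.Reg e φ) {S S' : Set ι}
    (hS : Disjoint S S') : T.Free (T.gen (insert e ((fun i => φ (.of i)) '' S)))
      (T.gen (insert e ((fun i => φ (.of i)) '' S'))) := by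
  refine Z.mono (Z.cls fun b w hw => ?_) (wf_cen h S) (wf_cen h S')
  suffices ∃ g, Alt {g | g ∈ Subgroup.closure (FreeGroup.of '' S) ∧ g ≠ 1}
      {g | g ∈ Subgroup.closure (FreeGroup.of '' S') ∧ g ≠ 1} b g ∧ φ g = w by
    obtain ⟨g, hg, rfl⟩ := this
    exact h.tau g (wf_alt_ne hS hg)
  induction hw with
  | x1 hx => exact hx.imp fun g hg => ⟨.x1 hg.1, hg.2⟩
  | y1 hx => exact hx.imp fun g hg => ⟨.y1 hg.1, hg.2⟩
  | xc hx _ ih =>
    obtain ⟨g, hg, rfl⟩ := hx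
    obtain ⟨g', hg', rfl⟩ := ih
    exact ⟨_, .xc hg hg', h.mul _ _⟩
  | yc hx _ ih =>
    obtain ⟨g, hg, rfl⟩ := hx
    obtain ⟨g', hg', rfl⟩ := ih
    exact ⟨_, .yc hg hg', h.mul _ _⟩

theorem Reg.free2 {ι : Type*} {φ : FreeGroup ι → R} (h : T.Reg e φ) {i j : ι} (hij : i ≠ j) :
    T.Free (T.gen {e, φ (.of i)}) (T.gen {e, φ (.of j)}) := by
  simpa only [Set.image_singleton] using h.free_fam (Set.disjoint_singleton.2 hij)

theorem Haar.r (he : Pr e) (h : T.Haar e u) : u * e = u := he.pi_r h.su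

theorem Haar.alg (he : Pr e) (h : T.Haar e u) : T.Alg e (T.gen {e, u}) :=
  gen_alg he (sub_gen (.inl rfl)) (by
    rintro _ (rfl | rfl)
    exacts [⟨he.sq, he.sq⟩, ⟨h.l, h.r he⟩])

theorem Haar.star (he : Pr e) (h : T.Haar e u) : T.Haar e (star u) :=
  ⟨by rw [← he.st, ← star_mul, h.r he], by rw [star_star, h.us], by rw [star_star, h.su],
    fun n => by rw [← star_pow, T.tau_star, h.tau, map_zero]⟩

theorem wf_su (h : T.Haar e u) (k : ℕ) : star (u ^ (k + 1)) * u ^ (k + 1) = e := by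
  induction k with
  | zero => simpa using h.su
  | succ k ih => rw [pow_succ, star_mul, mul_assoc, ← mul_assoc (star _) _ u, ih, h.l, h.su]

theorem Haar.pow (he : Pr e) (h : T.Haar e u) {K : ℕ} (hK : K ≠ 0) : T.Haar e (u ^ K) := by
  obtain ⟨k, rfl⟩ := Nat.exists_eq_succ_of_ne_zero hK
  refine ⟨by rw [pow_succ', ← mul_assoc, h.l], wf_su h k, ?_, fun n => ?_⟩
  · have := wf_su (h.star he) k
    rwa [← star_pow, star_star] at this
  · rw [← pow_mul, show k.succ * (n + 1) = k * (n + 1) + n + 1 by rw [Nat.succ_mul]; rfl]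
    exact h.tau _

theorem Haar.smul (h : T.Haar e u) {c : ℂ} (hc : ‖c‖ = 1) : T.Haar e (c • u) := by
  have h1 : Star.star c * c = 1 := by
    rw [Complex.star_def, Complex.conj_mul', hc]; simp
  refine ⟨by rw [mul_smul_comm, h.l], ?_, ?_, fun n => ?_⟩
  · rw [star_smul, smul_mul_smul_comm, h1, one_smul, h.su]
  · rw [star_smul, smul_mul_smul_comm, mul_comm c, h1, one_smul, h.us]
  · rw [smul_pow, map_smul, h.tau, smul_zero]

theorem Haar.norm_le (he : Pr e) (h : T.Haar e u) : ‖u‖ ≤ 1 := by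
  have h1 := CStarRing.norm_star_mul_self (x := u)
  rw [h.su] at h1
  nlinarith [he.norm_le, norm_nonneg u]

theorem Haar.gen_sub (he : Pr e) (h : T.Haar e u) : T.gen {e, u} ⊆
    T.cls (insert e {x | ∃ n : ℕ, x = u ^ (n + 1) ∨ x = Star.star u ^ (n + 1)}) := by
  obtain ⟨φ, -, b, d⟩ := h.lf he
  rw [← b]
  refine cls_mono ?_
  rintro _ ⟨g, rfl⟩
  exact d g

theorem Haar.free_of_z (he : Pr e) (ht : T.tau e ≠ 0) (h : T.Haar e u) {D : Set R}
    (hZ : T.Z {x | ∃ n : ℕ, x = u ^ (n + 1) ∨ x = Star.star u ^ (n + 1)} (T.cen D)) :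
    T.Free (T.gen {e, u}) D :=
  hZ.cls.mono (fun _ hx => cen_sub_cls ht (fun _ hy => hZ _ _ (.x1 hy))
    ⟨h.gen_sub he hx.1, hx.2⟩) sub_cls

/-- A fixed vector of a Haar unitary vanishes. -/
theorem Haar.eq_zero (he : Pr e) (h : T.Haar e u) {z : R} {c : ℂ} (hz : e * z = z)
    (hu : u * z = c • z) : z = 0 := by
  by_contra z0
  have n0 : 0 < ‖T.ι z‖ := norm_pos_iff.2 fun h0 => z0 (T.inj z h0)
  have hc : ‖c‖ = 1 := by
    have h1 := T.tau_sq (u * z)
    rw [star_mul, mul_assoc, ← mul_assoc (Star.star u), h.su, hz, T.tau_sq, hu, map_smul,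
      norm_smul] at h1
    have h2 : ‖T.ι z‖ = ‖c‖ * ‖T.ι z‖ :=
      (sq_eq_sq₀ n0.le (by positivity)).1 (by exact_mod_cast h1)
    exact (mul_eq_right₀ n0.ne').1 h2.symm
  have c0 : c ≠ 0 := fun h0 => by simp [h0] at hc
  have hv := h.smul (c := c⁻¹) (by rw [norm_inv, hc, inv_one])
  have vz : (c⁻¹ • u) * z = z := by rw [smul_mul_assoc, hu, inv_smul_smul₀ c0]
  generalize c⁻¹ • u = v at hv vz
  have key : ∀ N : ℕ, ∃ S, e * S = S ∧ S * z = (N : ℂ) • z ∧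
      T.tau (Star.star S * S) = N * T.tau e ∧ ∀ k, T.tau (v ^ k * S) = 0 := fun N => by
    induction N with
    | zero => exact ⟨0, by simp, by simp, by simp, by simp⟩
    | succ N ih =>
      obtain ⟨S, s1, s2, s3, s4⟩ := ih
      have s5 : T.tau S = 0 := by simpa using s4 0
      have s6 : Star.star S * e = Star.star S := by rw [← he.st, ← star_mul, s1]
      refine ⟨v * (e + S), by rw [← mul_assoc, hv.l], ?_, ?_, fun k => ?_⟩
      · rw [mul_assoc, add_mul, hz, s2, mul_add, mul_smul_comm, vz, Nat.cast_succ, add_smul,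
          one_smul, add_comm]
      · rw [star_mul, mul_assoc, ← mul_assoc (Star.star v), hv.su, star_add, he.st]
        simp only [mul_add, add_mul, he.sq, s1, s6, map_add, s3, s5, T.tau_star, map_zero]
        push_cast; ring
      · rw [mul_add, hv.r he, mul_add, ← mul_assoc, ← pow_succ, map_add, hv.tau, s4, add_zero]
  obtain ⟨N, hN⟩ := exists_nat_gt ((‖z‖ * ‖T.ι e‖) ^ 2 / ‖T.ι z‖ ^ 2)
  obtain ⟨S, -, s2, s3, -⟩ := key N
  rw [T.tau_sq, T.tau_pr he] at s3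
  have s4 : ‖T.ι S‖ ^ 2 = N * ‖T.ι e‖ ^ 2 := by exact_mod_cast s3
  have s5 := T.norm_mul' S z
  rw [s2, map_smul, norm_smul, Complex.norm_natCast] at s5
  have s6 := pow_le_pow_left₀ (by positivity) s5 2
  rw [div_lt_iff₀ (by positivity)] at hN
  rw [mul_pow, mul_pow, s4] at s6
  have N0 : (0 : ℝ) < N := pos_of_mul_pos_left ((sq_nonneg _).trans_lt hN) (sq_nonneg _)
  nlinarith

theorem comm_of_gen {S : Set R} {c : R} (hS : ∀ x ∈ S, c * x = x * c ∧ c * star x = star x * c)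
    {x : R} (hx : x ∈ T.gen S) : c * x = x * c := by
  suffices c * x = x * c ∧ c * star x = star x * c from this.1
  induction hx with
  | base h => exact hS _ h
  | zero => simp
  | add _ _ h1 h2 => simp only [star_add, mul_add, add_mul, h1.1, h1.2, h2.1, h2.2, and_self]
  | smul s _ h1 => simp only [star_smul, mul_smul_comm, smul_mul_assoc, h1.1, h1.2, and_self]
  | lim a _ h1 h2 =>
    exact ⟨(h1.mulL c).unique (by simpa only [(h2 _).1] using h1.mulR c),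
      (h1.star.mulL c).unique (by simpa only [(h2 _).2] using h1.star.mulR c)⟩
  | mul _ _ h1 h2 =>
    exact ⟨by rw [← mul_assoc, h1.1, mul_assoc, h2.1, mul_assoc],
      by rw [star_mul, ← mul_assoc, h2.2, mul_assoc, h1.2, mul_assoc]⟩
  | star _ h1 => rw [star_star]; exact h1.symm

theorem gen_comm {S : Set R} (hS : ∀ x ∈ S, ∀ y ∈ S, x * y = y * x ∧ star x * y = y * star x)
    {x y : R} (hx : x ∈ T.gen S) (hy : y ∈ T.gen S) : x * y = y * x :=
  comm_of_gen (fun s hs => ⟨(comm_of_gen (fun t ht => ⟨(hS s hs t ht).1, (hS t ht s hs).2.symm⟩)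
    hx).symm, (comm_of_gen (fun t ht => ⟨(hS s hs t ht).2, by
      rw [← star_mul, ← star_mul, (hS s hs t ht).1]⟩) hx).symm⟩) hy

theorem wf_zpow_cen {G : Type*} [Group G] {φ : G → R} (h : Hom e φ) {a : G} (ha : φ a = u)
    (hu : T.Haar e u) {x : G} (hx : x ∈ Subgroup.zpowers a ∧ x ≠ 1) :
    φ x ∈ T.cen (T.gen {e, u}) := by
  obtain ⟨⟨n, rfl⟩, h1⟩ := hx
  have k := fun n => wf_pow_mem (gen_w (T := T) {e, u}) (sub_gen (.inr rfl)) n
  rcases n with (_ | n) | n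
  · exact (h1 (zpow_zero a)).elim
  · have : φ (a ^ Int.ofNat (n + 1)) = u ^ (n + 1) := by
      rw [Int.ofNat_eq_natCast, zpow_natCast, wf_hom_pow h, ha]
    exact ⟨this ▸ k n, this ▸ hu.tau n⟩
  · have : φ (a ^ Int.negSucc n) = star (u ^ (n + 1)) := by
      rw [zpow_negSucc, h.inv, wf_hom_pow h, ha]
    exact ⟨this ▸ (gen_w _).star (k n), by
      simp only [this]; rw [T.tau_star, hu.tau, map_zero]⟩

theorem reg_of_free {w : R} (he : Pr e) (hu : T.Haar e u) (hw : T.Haar e w)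
    (hF : T.Free (T.gen {e, u}) (T.gen {e, w})) :
    ∃ φ : F2 → R, T.Reg e φ ∧ φ (.of 0) = u ∧ φ (.of 1) = w := by
  obtain ⟨φ, h1, h2⟩ := exists_hom he ![u, w] (Fin.forall_fin_two.2 ⟨hu.su, hw.su⟩)
    (Fin.forall_fin_two.2 ⟨hu.us, hw.us⟩)
  refine ⟨φ, ⟨h1, fun g hg => ?_⟩, h2 0, h2 1⟩
  obtain ⟨b, hb⟩ := (alt_form (Subgroup.zpowers (.of 0)) (Subgroup.zpowers (.of 1))
    (Set.range .of) (g := g) (by
      rintro _ ⟨i, rfl⟩
      fin_cases i
      exacts [.inl (Subgroup.mem_zpowers _), .inr (Subgroup.mem_zpowers _)])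
    (by rw [FreeGroup.closure_range_of]; trivial)).resolve_left hg
  exact hF b _ (wf_map_alt h1 (fun x hx => wf_zpow_cen h1 (h2 0) hu hx)
    (fun x hx => wf_zpow_cen h1 (h2 1) hw hx) hb)

variable (T) in
/-- Core words followed by an element of `D`. -/
def wfK (D C : Set R) : Set R := {q | ∃ k, Core (T.cen D) (T.cen C) k ∧ ∃ a ∈ D, q = k * a}

variable (T) in
/-- Words that start with a positive power of `u`. -/
def wfV (D C : Set R) (u : R) : Set R :=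
  T.cls {x | ∃ n : ℕ, ∃ r, (r ∈ D ∨ ∃ d ∈ T.cen D, ∃ q ∈ T.wfK D C, r = d * q) ∧ x = u ^ (n + 1) * r}

section words

variable {D C : Set R}

theorem wfK_one {c a : R} (hc : c ∈ T.cen C) (ha : a ∈ D) : c * a ∈ T.wfK D C :=
  ⟨c, .one hc, a, ha, rfl⟩

theorem wfK_cons {c d q : R} (hc : c ∈ T.cen C) (hd : d ∈ T.cen D) (hq : q ∈ T.wfK D C) :
    c * (d * q) ∈ T.wfK D C := by
  obtain ⟨k, hk, a, ha, rfl⟩ := hq
  exact ⟨_, .cons hc hd hk, a, ha, by simp only [mul_assoc]⟩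

theorem wfK_tau (ht : T.tau p ≠ 0) (hD : T.Alg p D) (hC : T.Alg p C) (hF : T.Free D C) {a q : R}
    (ha : a ∈ D) (hq : q ∈ T.cls (T.wfK D C)) : T.tau (a * q) = 0 := by
  refine ker_sub.map (LinC.id.mulL a) ?_ hq
  rintro _ ⟨k, hk, b, hb, rfl⟩
  rw [Set.mem_ofPred_eq, ← mul_assoc, T.tau_comm, ← mul_assoc]
  exact tau_core ht hD hC hF (hD.mul hb ha) hk

theorem wfV_sub (hu : ∀ n : ℕ, u ^ (n + 1) ∈ T.cen C) : T.wfV D C u ⊆ T.cls (T.wfK D C) := by
  refine cls_mono ?_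
  rintro _ ⟨n, r, hr | ⟨d, hd, q, hq, rfl⟩, rfl⟩
  exacts [wfK_one (hu n) hr, wfK_cons (hu n) hd hq]

theorem wfV_one {a : R} (ha : a ∈ D) : u * a ∈ T.wfV D C u :=
  sub_cls ⟨0, a, .inl ha, by simp⟩

theorem wfV_cen {d q : R} (hd : d ∈ T.cen D) (hq : q ∈ T.cls (T.wfK D C)) :
    u * (d * q) ∈ T.wfV D C u :=
  (cls_sub _).map ((LinC.id.mulL d).mulL u)
    (fun s hs => by exact sub_cls ⟨0, _, .inr ⟨d, hd, s, hs, rfl⟩, by simp⟩) hq

theorem wfV_mul (ht : T.tau p ≠ 0) (hD : T.Alg p D) (up : u * p = u)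
    (hu : ∀ n : ℕ, u ^ (n + 1) ∈ T.cen C) {a q : R} (ha : a ∈ D) (hq : q ∈ T.wfV D C u) :
    u * (a * q) ∈ T.wfV D C u := by
  obtain ⟨d, hd, c, rfl⟩ := hD.dec ht ha
  rw [add_mul, mul_add, smul_mul_assoc, mul_smul_comm, ← mul_assoc u p, up]
  refine (cls_sub _).add (wfV_cen hd (wfV_sub hu hq)) ((cls_sub _).smul _
    ((cls_sub _).map (LinC.id.mulL u) ?_ hq))
  rintro _ ⟨n, r, hr, rfl⟩
  exact sub_cls ⟨n + 1, r, hr, by rw [← mul_assoc, ← pow_succ']⟩

end words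

/-- A Haar unitary times a unitary of a free algebra. -/
theorem Haar.mul_free {D : Set R} (ht : T.tau p ≠ 0) (hD : T.Alg p D) (h : T.Haar p u)
    (hF : T.Free (T.gen {p, u}) D) {g g' : R} (hg : g ∈ D) (hg' : g' ∈ D)
    (g1 : Star.star g * g = p) (g2 : g * Star.star g = p) (g3 : Star.star g' * g' = p)
    (g4 : g' * Star.star g' = p) :
    T.Haar p (g * u * g') ∧ T.Free (T.gen {p, g * u * g'}) D := by
  have hp := hD.pr
  have hC := h.alg hp
  have hs := h.star hp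
  have uC : u ∈ T.gen {p, u} := sub_gen (.inr rfl)
  have c1 : ∀ n : ℕ, u ^ (n + 1) ∈ T.cen (T.gen {p, u}) := fun n =>
    ⟨wf_pow_mem hC.toIsW uC n, h.tau n⟩
  have c2 : ∀ n : ℕ, Star.star u ^ (n + 1) ∈ T.cen (T.gen {p, u}) := fun n =>
    ⟨wf_pow_mem hC.toIsW (hC.star uC) n, hs.tau n⟩
  have sv : Star.star (g * u * g') = Star.star g' * Star.star u * Star.star g := by
    rw [star_mul, star_mul, mul_assoc]
  have cj : ∀ {a b y : R}, a ∈ D → b ∈ D → b * a = p → y ∈ T.cen D → a * (y * b) ∈ T.cen D :=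
    fun ha hb hab hy => ⟨hD.mul ha (hD.mul hy.1 hb), by
      rw [T.tau_comm, mul_assoc, hab, hD.r hy.1, hy.2]⟩
  have hZ : T.Z {x | ∃ n : ℕ, x = (g * u * g') ^ (n + 1) ∨ x = Star.star (g * u * g') ^ (n + 1)}
      (T.cen D) := by
    refine wf_z (fun y hy => hy.2) fun w hw => ?_
    have := wf_alt (P := fun w => ∃ q ∈ T.wfV D (T.gen {p, u}) u, w = g * q)
      (N := fun w => ∃ q ∈ T.wfV D (T.gen {p, u}) (Star.star u), w = Star.star g' * q)
      ⟨⟨_, wfV_one hg', mul_assoc _ _ _⟩, _, wfV_one (hD.star hg), sv.trans (mul_assoc _ _ _)⟩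
      ?_ ?_ (fun y hy => ⟨⟨_, wfV_one (hD.mul hg' hy.1), by simp only [mul_assoc]⟩,
        _, wfV_one (hD.mul (hD.star hg) hy.1), by simp only [star_mul, mul_assoc]⟩) ?_ hw
    · have k := fun {a q} => wfK_tau (a := a) (q := q) ht hD hC hF.symm
      rcases this with ⟨q, hq, rfl⟩ | ⟨q, hq, rfl⟩
      · exact ⟨k hg (wfV_sub c1 hq), fun y hy => by
          rw [← mul_assoc]; exact k (hD.mul hy.1 hg) (wfV_sub c1 hq)⟩
      · exact ⟨k (hD.star hg') (wfV_sub c2 hq), fun y hy => by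
          rw [← mul_assoc]; exact k (hD.mul hy.1 (hD.star hg')) (wfV_sub c2 hq)⟩
    · rintro _ ⟨q, hq, rfl⟩
      exact ⟨_, wfV_mul ht hD (h.r hp) c1 (hD.mul hg' hg) hq, by simp only [mul_assoc]⟩
    · rintro _ ⟨q, hq, rfl⟩
      exact ⟨_, wfV_mul ht hD (hs.r hp) c2 (hD.mul (hD.star hg) (hD.star hg')) hq, by
        simp only [star_mul, mul_assoc]⟩
    · rintro y hy _ (⟨q, hq, rfl⟩ | ⟨q, hq, rfl⟩)
      · exact ⟨⟨_, wfV_mul ht hD (h.r hp) c1 (hD.mul hg' (hD.mul hy.1 hg)) hq, by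
          simp only [mul_assoc]⟩, _, wfV_cen (cj (hD.star hg) hg g2 hy) (wfV_sub c1 hq), by
          simp only [star_mul, mul_assoc]⟩
      · exact ⟨⟨_, wfV_cen (cj hg' (hD.star hg') g3 hy) (wfV_sub c2 hq), by
          simp only [mul_assoc]⟩, _, wfV_mul ht hD (hs.r hp) c2
            (hD.mul (hD.star hg) (hD.mul hy.1 (hD.star hg'))) hq, by simp only [star_mul, mul_assoc]⟩
  have hv : T.Haar p (g * u * g') := ⟨by rw [← mul_assoc, ← mul_assoc, hD.l hg], by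
    rw [sv, mul_assoc, mul_assoc g, ← mul_assoc (Star.star g), g1, ← mul_assoc p, h.l,
      mul_assoc, ← mul_assoc (Star.star u), h.su, hD.l hg', g3], by
    rw [sv, mul_assoc, mul_assoc (Star.star g'), ← mul_assoc g', g4, ← mul_assoc p, hs.l,
      mul_assoc, ← mul_assoc u, h.us, hD.l (hD.star hg), g2], fun n => hZ _ _ (.x1 ⟨n, .inl rfl⟩)⟩
  exact ⟨hv, hv.free_of_z hp ht hZ⟩

section sym

variable {σ : R} (s1 : star σ = σ) (s2 : σ * σ = 1)
include s1 s2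

theorem sym_alg : T.Alg 1 (T.cls {1, σ}) := by
  refine cls_alg Pr.one (sub_cls (.inl rfl)) (fun s _ => one_mul s) ?_ ?_
  · rintro _ (rfl | rfl)
    exacts [sub_cls (.inl (star_one R)), sub_cls (.inr s1)]
  · rintro _ (rfl | rfl) _ (rfl | rfl)
    exacts [sub_cls (.inl (one_mul _)), sub_cls (.inr (one_mul _)), sub_cls (.inr (mul_one _)),
      sub_cls (.inl s2)]

set_option linter.unusedSectionVars false in
theorem sym_free_iff (h1 : T.tau 1 = 1) (s0 : T.tau σ = 0) {A : Set R} :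
    T.Free A (T.cls {1, σ}) ↔ T.Z (T.cen A) {σ} :=
  ⟨fun h => Z.mono h le_rfl (by rintro _ rfl; exact ⟨sub_cls (.inr rfl), s0⟩), fun h =>
    h.cls.mono sub_cls (cen_sub_cls (by rw [h1]; exact one_ne_zero) (by rintro _ rfl; exact s0))⟩

/-- An algebra free from a symmetry is free from its conjugate. -/
theorem sym_conj_free (h1 : T.tau 1 = 1) (s0 : T.tau σ = 0) {A : Set R}
    (hF : T.Free A (T.cls {1, σ})) : T.Free A ((fun x => σ * x * σ) '' A) := by
  intro b w hw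
  refine (sym_free_iff s1 s2 h1 s0).1 hF b w ?_
  have k : ∀ y ∈ T.cen ((fun x => σ * x * σ) '' A), ∃ a ∈ T.cen A, y = σ * (a * σ) := by
    rintro _ ⟨⟨a, ha, rfl⟩, h⟩
    exact ⟨a, ⟨ha, by rwa [T.tau_comm, ← mul_assoc, s2, one_mul] at h⟩, mul_assoc _ _ _⟩
  induction hw with
  | x1 h => exact .x1 h
  | y1 h =>
    obtain ⟨a, ha, rfl⟩ := k _ h
    exact .yc rfl (.xc ha (.y1 rfl))
  | xc h _ ih => exact .xc h ih
  | yc h _ ih =>
    obtain ⟨a, ha, rfl⟩ := k _ h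
    rw [mul_assoc, mul_assoc]
    exact .yc rfl (.xc ha (.yc rfl ih))

/-- A free symmetry times a traceless unitary is a Haar unitary, free from a symmetry `κ`. -/
theorem sym_haar (h1 : T.tau 1 = 1) (s0 : T.tau σ = 0) {D : Set R} (hD : T.Alg 1 D)
    (hF : T.Free D (T.cls {1, σ})) {g κ : R} (hg : g ∈ D) (g1 : star g * g = 1)
    (g2 : g * star g = 1) (g0 : T.tau g = 0) (hκ : κ ∈ D) (k1 : star κ = κ) (k2 : κ * κ = 1)
    (k0 : T.tau κ = 0) (k3 : T.tau (κ * g) = 0) :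
    T.Haar 1 (g * σ) ∧ T.Free (T.gen {1, g * σ}) (T.cls {1, κ}) ∧
      ∀ d ∈ D, T.tau d = 0 → T.tau (d * κ) = 0 → ∀ y ∈ T.gen {1, g * σ, κ}, T.tau (d * y) = 0 := by
  have ht : T.tau 1 ≠ 0 := by rw [h1]; exact one_ne_zero
  have hC := sym_alg (T := T) s1 s2
  have sc : σ ∈ T.cen (T.cls {1, σ}) := ⟨sub_cls (.inr rfl), s0⟩
  have sv : star (g * σ) = σ * star g := by rw [star_mul, s1]
  have c1 : g ∈ T.cen D := ⟨hg, g0⟩
  have c2 : star g ∈ T.cen D := ⟨hD.star hg, by rw [T.tau_star, g0, map_zero]⟩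
  have c3 : κ * g ∈ T.cen D := ⟨hD.mul hκ hg, k3⟩
  have c4 : star g * κ ∈ T.cen D := ⟨hD.mul c2.1 hκ, by
    rw [← k1, ← star_mul, T.tau_star, k3, map_zero]⟩
  have c5 : star g * (κ * g) ∈ T.cen D := ⟨hD.mul c2.1 c3.1, by
    rw [T.tau_comm, mul_assoc, g2, mul_one, k0]⟩
  have key : ∀ w, Alt {x | ∃ n : ℕ, x = (g * σ) ^ (n + 1) ∨ x = star (g * σ) ^ (n + 1)} {κ}
      true w → ∀ a ∈ D, T.tau (a * w) = 0 := fun w hw a ha => by
    have := wf_alt (P := fun w => ∃ q ∈ T.wfK D (T.cls {1, σ}), w = g * q)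
      (N := fun w => w ∈ T.wfK D (T.cls {1, σ}))
      ⟨⟨_, wfK_one sc hD.one, by rw [mul_one]⟩, sv ▸ wfK_one sc c2.1⟩ ?_ ?_ ?_ ?_ hw
    · rcases this with ⟨q, hq, rfl⟩ | hq
      · rw [← mul_assoc]; exact wfK_tau ht hD hC hF (hD.mul ha hg) (sub_cls hq)
      · exact wfK_tau ht hD hC hF ha (sub_cls hq)
    · rintro _ ⟨q, hq, rfl⟩
      exact ⟨_, wfK_cons sc c1 hq, mul_assoc _ _ _⟩
    · intro q hq
      rw [sv, mul_assoc]; exact wfK_cons sc c2 hq
    · rintro _ rfl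
      exact ⟨⟨_, wfK_one sc hκ, mul_assoc _ _ _⟩, by rw [sv, mul_assoc]; exact wfK_one sc c4.1⟩
    · rintro _ rfl _ (⟨q, hq, rfl⟩ | hq)
      · exact ⟨⟨_, wfK_cons sc c3 hq, by simp only [mul_assoc]⟩, by
          simpa only [sv, mul_assoc] using wfK_cons sc c5 hq⟩
      · exact ⟨⟨_, wfK_cons sc ⟨hκ, k0⟩ hq, by simp only [mul_assoc]⟩, by
          simpa only [sv, mul_assoc] using wfK_cons sc c4 hq⟩
  have hZ : T.Z {x | ∃ n : ℕ, x = (g * σ) ^ (n + 1) ∨ x = star (g * σ) ^ (n + 1)} {κ} :=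
    wf_z (by rintro _ rfl; exact k0) fun w hw => ⟨by simpa using key w hw 1 hD.one, by
      rintro _ rfl; exact key w hw _ hκ⟩
  have hv : T.Haar 1 (g * σ) := ⟨one_mul _, by
    rw [sv, mul_assoc, ← mul_assoc (star g), g1, one_mul, s2], by
    rw [sv, mul_assoc, ← mul_assoc σ, s2, one_mul, g2], fun n => hZ _ _ (.x1 ⟨n, .inl rfl⟩)⟩
  refine ⟨hv, hv.free_of_z Pr.one ht (hZ.symm.cls.symm.mono sub_cls
    (cen_sub_cls ht (by rintro _ rfl; exact k0))), fun d hd d0 d1 y hy => ?_⟩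
  have hA := sym_alg (T := T) k1 k2
  have sub : T.cls {1, κ} ⊆ D := hD.cls_le (by rintro _ (rfl | rfl); exacts [hD.one, hκ])
  refine ker_sub.map (LinC.id.mulL d) ?_ (normal_form ht hA (hv.alg Pr.one) (gen_mono ?_ hy))
  · rintro _ (hs | ⟨a, ha, k, hk, a', ha', rfl⟩)
    · refine ker_sub.map (LinC.id.mulL d) ?_ hs
      rintro _ (rfl | rfl)
      exacts [by simpa using d0, d1]
    · rw [Set.mem_ofPred_eq, ← mul_assoc, T.tau_comm, ← mul_assoc, ← mul_assoc]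
      exact ker_sub.map (LinC.id.mulL _)
        (fun w hw => key w hw _ (hD.mul (hD.mul (sub ha') hd) (sub ha)))
        (wf_alt_cls (hk.alt.symm.mono (fun x hx => cen_sub_cls ht (fun _ hy => hZ _ _ (.x1 hy))
          ⟨hv.gen_sub Pr.one hx.1, hx.2⟩) (cen_sub_cls ht (by rintro _ rfl; exact k0))))
  · rintro _ (rfl | rfl | rfl)
    exacts [.inl hA.one, .inr (sub_gen (.inr rfl)), .inl (sub_cls (.inr rfl))]

end sym

end TW

end Pool.Agent.Lib.MP_263241_an
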