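import Pool.Agent.Lib.MP_263241_an.WA
import Pool.Agent.Lib.MP_263241_an.WF

/-! Asymptotic orthogonality in `A * ℂ²`. -/

namespace Pool.Agent.Lib.MP_263241_an

open Filter Topology

variable {R H : Type*} [CStarAlgebra R] [NormedAddCommGroup H] [InnerProductSpace ℂ H]

namespace TW

variable {T : TW R H} {A : Set R} {σ v : R} {C : ℝ} {x y : ℕ → R}

variable (T) in
/-- Bounded sequences in `N` that asymptotically commute with `v`. -/
structure AC (N : Set R) (v : R) (C : ℝ) (x : ℕ → R) : Prop where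
  mem : ∀ n, x n ∈ N
  bd : ∀ n, ‖x n‖ ≤ C
  lim : Tendsto (fun n => ‖T.ι (v * x n - x n * v)‖) atTop (𝓝 0)

theorem waop_l {u : R} (hu : star u * u = 1) (a : R) : ‖T.ι (u * a)‖ = ‖T.ι a‖ := by
  have h := T.tau_sq (u * a)
  rw [star_mul, mul_assoc, ← mul_assoc (star u), hu, one_mul, T.tau_sq] at h
  exact ((sq_eq_sq₀ (norm_nonneg _) (norm_nonneg _)).1 (by exact_mod_cast h)).symm

theorem waop_r {u : R} (hu : u * star u = 1) (a : R) : ‖T.ι (a * u)‖ = ‖T.ι a‖ := by
  rw [← T.norm_star, star_mul, waop_l (by rw [star_star, hu]), T.norm_star]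

theorem AC.mul {N : Set R} (hN : T.IsW N) {C' : ℝ} (hx : T.AC N v C x) (hy : T.AC N v C' y) :
    T.AC N v (C * C') fun n => x n * y n := by
  refine ⟨fun n => hN.mul (hx.mem n) (hy.mem n), fun n => (norm_mul_le _ _).trans
    (mul_le_mul (hx.bd n) (hy.bd n) (norm_nonneg _) ((norm_nonneg _).trans (hx.bd n))), ?_⟩
  have h := (hx.lim.const_mul C').add (hy.lim.const_mul C)
  rw [mul_zero, mul_zero, add_zero] at h
  refine squeeze_zero (fun _ => norm_nonneg _) (fun n => ?_) h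
  have e : v * (x n * y n) - x n * y n * v =
      (v * x n - x n * v) * y n + x n * (v * y n - y n * v) := by noncomm_ring
  rw [e, map_add]
  exact (norm_add_le _ _).trans (add_le_add
    ((T.norm_mul' _ _).trans (mul_le_mul_of_nonneg_right (hy.bd n) (norm_nonneg _)))
    ((T.norm_mul _ _).trans (mul_le_mul_of_nonneg_right (hx.bd n) (norm_nonneg _))))

theorem AC.star {N : Set R} (hN : T.IsW N) (v1 : star v * v = 1) (v2 : v * star v = 1)
    (hx : T.AC N v C x) : T.AC N v C fun n => star (x n) := by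
  refine ⟨fun n => hN.star (hx.mem n), fun n => by rw [_root_.norm_star]; exact hx.bd n,
    hx.lim.congr fun n => ?_⟩
  have e : Star.star (v * Star.star (x n) - Star.star (x n) * v) =
      Star.star v * (v * x n - x n * v) * Star.star v := by
    rw [mul_sub, ← mul_assoc, v1, one_mul, sub_mul, mul_assoc, mul_assoc, v2, mul_one, star_sub,
      star_mul, star_mul, star_star]
  rw [← T.norm_star (v * Star.star (x n) - _), e, waop_r (by rw [star_star, v1]),
    waop_l (by rw [star_star, v2])]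

theorem AC.const {N : Set R} {a : R} (ha : a ∈ N) (h : v * a = a * v) :
    T.AC N v ‖a‖ fun _ => a :=
  ⟨fun _ => ha, fun _ => le_rfl, by simp [h]⟩

theorem waop_tau_le (a b : R) : ‖T.tau (star a * b)‖ ≤ ‖T.ι a‖ * ‖T.ι b‖ := by
  rw [← T.norm_star a]; exact tau_mul_le _ _

theorem waop_pow {u a : R} (u1 : star u * u = 1) (u2 : u * star u = 1) (l : ℕ) :
    ‖T.ι (star u ^ l * a * u ^ l - a)‖ ≤ l * ‖T.ι (u * a - a * u)‖ := by
  induction l with
  | zero => simp
  | succ l ih =>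
    have e : star u ^ (l + 1) * a * u ^ (l + 1) - a =
        star u * ((star u ^ l * a * u ^ l - a) * u - (u * a - a * u)) := by
      rw [pow_succ', pow_succ, mul_sub, mul_sub, sub_mul, mul_sub, ← mul_assoc _ u a, u1]
      simp only [mul_assoc, one_mul]
      abel
    rw [e, waop_l (by rw [star_star, u2]), map_sub]
    refine (norm_sub_le _ _).trans ?_
    rw [waop_r u2]
    push_cast
    linarith

theorem waop_core_star {X Y : Set R} (hX : ∀ a ∈ X, star a ∈ X) (hY : ∀ a ∈ Y, star a ∈ Y) {u : R}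
    (h : Core X Y u) : Core X Y (star u) := by
  induction h with
  | one h => exact .one (hY _ h)
  | cons h1 h2 _ ih =>
    rw [star_mul, star_mul, mul_assoc]
    exact ih.append (hX _ h2) (.one (hY _ h1))

theorem waop_cen_star {B : Set R} (hB : T.IsW B) (a : R) (ha : a ∈ T.cen B) : star a ∈ T.cen B :=
  ⟨hB.star ha.1, by rw [T.tau_star, ha.2, map_zero]⟩

/-- Right multiplication of an alternating word by the symmetry. -/
theorem waop_sig (s2 : σ * σ = 1) {Y : Set R} {b : Bool} {w : R} (h : Alt {σ} Y b w) :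
    Alt {σ} Y b (w * σ) ∨ (b = true ∧ w * σ = 1) := by
  induction h with
  | x1 h => exact .inr ⟨rfl, by rw [h, s2]⟩
  | y1 h => exact .inl (.yc h (.x1 rfl))
  | xc h _ ih =>
    rcases ih with ih | ⟨h', -⟩
    · rw [mul_assoc]; exact .inl (.xc h ih)
    · cases h'
  | yc h _ ih =>
    rcases ih with ih | ⟨-, h'⟩
    · rw [mul_assoc]; exact .inl (.yc h ih)
    · rw [mul_assoc, h', mul_one]; exact .inl (.y1 h)

theorem waop_sub {C : ℝ} (hC : ∀ n, ‖T.ι (x n)‖ ≤ C) :
    T.IsSub {z | Tendsto (fun n => T.tau (x n * z)) atTop (𝓝 0)} := by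
  refine ⟨by simp, fun hx hy => by simpa [mul_add] using Tendsto.add hx hy,
    fun c _ hx => by simpa using Tendsto.const_mul c hx, fun a z ha hl => ?_⟩
  have C0 : 0 ≤ C := (norm_nonneg _).trans (hC 0)
  refine NormedAddGroup.tendsto_nhds_zero.2 fun ε hε => ?_
  have h1 := (lim_iff.1 hl).const_mul C
  rw [mul_zero] at h1
  obtain ⟨k, hk⟩ := (h1.eventually (gt_mem_nhds (half_pos hε))).exists
  filter_upwards [NormedAddGroup.tendsto_nhds_zero.1 (ha k) _ (half_pos hε)] with n hn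
  have e : T.tau (x n * z) = T.tau (x n * a k) - T.tau (x n * (a k - z)) := by
    rw [mul_sub, map_sub, sub_sub_cancel]
  have h2 := (tau_mul_le (T := T) (x n) (a k - z)).trans
    (mul_le_mul_of_nonneg_right (hC n) (norm_nonneg _))
  rw [e]
  linarith [norm_sub_le (T.tau (x n * a k)) (T.tau (x n * (a k - z)))]

section words

variable (h1 : T.tau 1 = 1) (s1 : star σ = σ) (s2 : σ * σ = 1) (s0 : T.tau σ = 0) (hA : T.Alg 1 A)
  (hF : T.Free A (T.cls {1, σ}))

include s0 hA in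
theorem waop_form {b : Bool} {w : R} (h : Alt {σ} (T.cen A) b w) :
    (b = false ∧ w ∈ T.cen A) ∨ ∃ a u c, (if b then a = 1 else a ∈ T.cen A) ∧
      Core (T.cen A) (T.cen (T.cls {1, σ})) u ∧ c ∈ A ∧ w = a * (u * c) := by
  have sc : σ ∈ T.cen (T.cls {1, σ}) := ⟨sub_cls (.inr rfl), s0⟩
  induction h with
  | x1 h => exact .inr ⟨1, σ, 1, rfl, .one sc, hA.one, by rw [h, one_mul, mul_one]⟩
  | y1 h => exact .inl ⟨rfl, h⟩
  | @xc _ w h _ ih =>
    rcases ih with ⟨-, ih⟩ | ⟨a, u, c, ha, hu, hc, rfl⟩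
    · exact .inr ⟨1, σ, w, rfl, .one sc, ih.1, by rw [h, one_mul]⟩
    · exact .inr ⟨1, σ * (a * u), c, rfl, .cons sc ha hu, hc, by
        rw [h]; simp only [mul_assoc, one_mul]⟩
  | @yc a _ h _ ih =>
    rcases ih with ⟨h', -⟩ | ⟨a', u, c, ha, hu, hc, rfl⟩
    · cases h'
    · exact .inr ⟨a, u, c, h, hu, hc, by rw [show a' = 1 from ha, one_mul]⟩

include h1 s1 s2 s0 hA hF

theorem waop_tau1 {a z : R} (ha : a ∈ A) (hz : z ∈ T.cls {w | Alt {σ} (T.cen A) true w}) :
    T.tau (a * z) = 0 := by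
  refine ker_sub.map (LinC.id.mulL a) (fun w hw => ?_) hz
  obtain ⟨h, -⟩ | ⟨a', u, c, ha', hu, hc, rfl⟩ := waop_form s0 hA hw
  · cases h
  · show T.tau _ = 0
    rw [show a' = 1 from ha', one_mul, ← mul_assoc, T.tau_comm, ← mul_assoc]
    exact tau_core (by rw [h1]; exact one_ne_zero) hA (sym_alg s1 s2) hF (hA.mul hc ha) hu

theorem waop_tau2 {a b z z' : R} (ha : a ∈ T.cen A) (hb : b ∈ A)
    (hz : z ∈ T.cls {w | Alt {σ} (T.cen A) true w})
    (hz' : z' ∈ T.cls {w | Alt {σ} (T.cen A) true w}) : T.tau (star z * (a * (z' * b))) = 0 := by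
  refine ker_sub.map (((LinC.id.mulR b).mulL a).mulL (star z)) (fun w' hw' => ?_) hz'
  suffices T.tau (star (a * (w' * b)) * z) = 0 by
    have h := T.tau_star (star (a * (w' * b)) * z)
    rwa [this, map_zero, star_mul, star_star] at h
  refine ker_sub.map (LinC.id.mulL _) (fun w hw => ?_) hz
  obtain ⟨h, -⟩ | ⟨a', u, c, ha', hu, hc, rfl⟩ := waop_form s0 hA hw
  · cases h
  obtain ⟨h, -⟩ | ⟨a'', u', c', ha'', hu', hc', rfl⟩ := waop_form s0 hA hw'
  · cases h
  show T.tau _ = 0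
  have hC := sym_alg (T := T) s1 s2
  have := tau_core (by rw [h1]; exact one_ne_zero) hA hC hF
    (hA.mul hc (hA.star (hA.mul hc' hb)))
    ((waop_core_star (waop_cen_star hA.toIsW) (waop_cen_star hC.toIsW) hu').append
      (waop_cen_star hA.toIsW _ ha) hu)
  rw [mul_assoc, T.tau_comm] at this
  rw [show a' = 1 from ha', show a'' = 1 from ha'', ← this]
  simp only [star_mul, one_mul, mul_assoc]

theorem waop_orth {z z' : R} (hz : z ∈ T.cls {w | Alt {σ} (T.cen A) true w})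
    (hz' : z' ∈ T.cls {w | Alt {σ} (T.cen A) false w}) : T.tau (star z * z') = 0 := by
  refine ker_sub.map (LinC.id.mulL _) (fun w hw => ?_) hz'
  show T.tau _ = 0
  cases hw with
  | y1 h =>
    have h2 := T.tau_star (star w * z)
    rwa [waop_tau1 h1 s1 s2 s0 hA hF (hA.star h.1) hz, map_zero, star_mul, star_star] at h2
  | yc h h' => simpa using waop_tau2 h1 s1 s2 s0 hA hF h hA.one hz (sub_cls h')

omit s1 s2 hF in
theorem waop_mem {u a : R} (hu : Core (T.cen A) (T.cen (T.cls {1, σ})) u) (ha : a ∈ A) :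
    u * a ∈ T.cls {w | Alt {σ} (T.cen A) true w} := by
  have h0 : T.tau 1 ≠ 0 := by rw [h1]; exact one_ne_zero
  have cs : T.cen (T.cls {1, σ}) ⊆ T.cls {σ} := cen_sub_cls h0 (by rintro _ rfl; exact s0)
  induction hu with
  | one h =>
    refine (cls_sub _).map (LinC.id.mulR a) ?_ (cs h)
    rintro _ rfl
    obtain ⟨a0, h0, c, rfl⟩ := hA.dec h0 ha
    rw [mul_add, mul_smul_comm, mul_one]
    exact (cls_sub _).add (sub_cls (Alt.xc rfl (.y1 h0))) ((cls_sub _).smul _ (sub_cls (Alt.x1 rfl)))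
  | cons h h' _ ih =>
    rw [mul_assoc, mul_assoc]
    exact (cls_sub _).mul_cls (S' := {w | Alt {σ} (T.cen A) false w})
      (fun s hs t ht => sub_cls (Alt.xc hs ht)) (cs h)
      ((cls_sub _).map (LinC.id.mulL _) (fun t ht => sub_cls (Alt.yc h' ht)) ih)

omit s0 hF in
theorem waop_nf : T.gen (A ∪ {σ}) ⊆ T.cls (A ∪ T.TT A (T.cls {1, σ})) :=
  (gen_mono (Set.union_subset_union_right _ (by rintro _ rfl; exact sub_cls (.inr rfl)))).trans
    (normal_form (by rw [h1]; exact one_ne_zero) hA (sym_alg s1 s2))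

theorem waop_dec {g : R} (hg : g ∈ T.gen (A ∪ {σ})) {δ : ℝ} (hδ : 0 < δ) :
    ∃ f ∈ T.cls {w | Alt {σ} (T.cen A) true w}, ∃ f' ∈ T.cls {w | Alt {σ} (T.cen A) false w},
      ‖T.ι (g - T.tau g • 1 - (f + f'))‖ ≤ δ := by
  have h0 : T.tau 1 ≠ 0 := by rw [h1]; exact one_ne_zero
  have L := cls_sub (T := T) {w | Alt {σ} (T.cen A) true w}
  have L' := cls_sub (T := T) {w | Alt {σ} (T.cen A) false w}
  have V := mem_closure_sub (T := T) (V := {t | ∃ f ∈ T.cls {w | Alt {σ} (T.cen A) true w},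
      ∃ f' ∈ T.cls {w | Alt {σ} (T.cen A) false w}, t = f + f'})
    ⟨0, L.zero, 0, L'.zero, (add_zero 0).symm⟩ (by
      rintro _ ⟨a, ha, a', ha', rfl⟩ _ ⟨b, hb, b', hb', rfl⟩
      exact ⟨_, L.add ha hb, _, L'.add ha' hb', add_add_add_comm _ _ _ _⟩) (by
      rintro c _ ⟨a, ha, a', ha', rfl⟩
      exact ⟨_, L.smul c ha, _, L'.smul c ha', smul_add _ _ _⟩)
  have h := V.map (LinC.id.sub (LinC.id.tau 1 1)) ?_ (waop_nf h1 s1 s2 hA hg)
  · obtain ⟨_, ⟨_, ⟨f, hf, f', hf', rfl⟩, rfl⟩, h'⟩ := Metric.mem_closure_iff.1 h δ hδ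
    refine ⟨f, hf, f', hf', ?_⟩
    rw [dist_eq_norm, ← map_sub, mul_one] at h'
    exact h'.le
  rintro t (ht | ht)
  · refine subset_closure ⟨_, ⟨0, L.zero, _, sub_cls (Alt.y1 ⟨hA.sub ht (hA.smul _ hA.one), ?_⟩),
      (zero_add _).symm⟩, rfl⟩
    rw [map_sub, map_smul, h1, mul_one, smul_eq_mul, mul_one, sub_self]
  · have h2 := tau_TT h0 hA (sym_alg s1 s2) hF hA.one ht
    rw [one_mul] at h2
    obtain ⟨a, ha, u, hu, a', ha', rfl⟩ := ht
    obtain ⟨a0, h3, c, rfl⟩ := hA.dec h0 ha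
    have h4 := waop_mem h1 s0 hA hu ha'
    refine subset_closure ⟨_, ⟨_, L.smul c h4, _, L'.map (LinC.id.mulL a0)
      (fun t ht => sub_cls (Alt.yc h3 ht)) h4, rfl⟩, ?_⟩
    rw [h2, zero_mul, zero_smul, sub_zero, mul_assoc, add_mul, smul_mul_assoc, one_mul, add_comm]

end words

variable (h1 : T.tau 1 = 1) (s1 : star σ = σ) (s2 : σ * σ = 1) (s0 : T.tau σ = 0) (hA : T.Alg 1 A)
  (hF : T.Free A (T.cls {1, σ})) (hv : T.Haar 1 v) (vA : v ∈ A)
include h1 s1 s2 s0 hA hF hv vA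

theorem waop_sum {z : R} (hz : z ∈ T.cls {w | Alt {σ} (T.cen A) true w}) (m : ℕ) :
    ‖T.ι (∑ l ∈ Finset.range (m ^ 2), v ^ l * z * star v ^ l)‖ = m * ‖T.ι z‖ := by
  have pA : ∀ {u}, u ∈ A → ∀ l : ℕ, u ^ l ∈ A := fun hu l => by
    induction l with
    | zero => rw [pow_zero]; exact hA.one
    | succ l ih => rw [pow_succ]; exact hA.mul ih hu
  have c : Commute (star v) v := by rw [Commute, SemiconjBy, hv.su, hv.us]
  have p1 : ∀ l : ℕ, star v ^ l * v ^ l = 1 := fun l => by rw [← c.mul_pow, hv.su, one_pow]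
  have p2 : ∀ l l' : ℕ, l ≠ l' → star v ^ l * v ^ l' ∈ T.cen A := fun l l' h => by
    refine ⟨hA.mul (pA (hA.star vA) l) (pA vA l'), ?_⟩
    rcases lt_or_gt_of_ne h with h | h
    · obtain ⟨k, rfl⟩ := Nat.exists_eq_add_of_lt h
      rw [add_assoc, pow_add v, ← mul_assoc, p1, one_mul, hv.tau]
    · obtain ⟨k, rfl⟩ := Nat.exists_eq_add_of_lt h
      rw [add_assoc, add_comm, pow_add, mul_assoc, p1, mul_one, ← star_pow, T.tau_star, hv.tau,
        map_zero]
  have p3 : ∀ l l' : ℕ, T.tau (star (v ^ l * z * star v ^ l) * (v ^ l' * z * star v ^ l')) =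
      if l = l' then T.tau (star z * z) else 0 := fun l l' => by
    have e : T.tau (star (v ^ l * z * star v ^ l) * (v ^ l' * z * star v ^ l')) =
        T.tau (star z * (star v ^ l * v ^ l' * (z * (star v ^ l' * v ^ l)))) := by
      rw [star_mul, star_mul, star_pow, star_pow, star_star, mul_assoc, T.tau_comm]
      simp only [mul_assoc]
    rw [e]
    split_ifs with h
    · rw [h, p1, one_mul, mul_one]
    · exact waop_tau2 h1 s1 s2 s0 hA hF (p2 l l' h) (hA.mul (pA (hA.star vA) _) (pA vA _)) hz hz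
  have h := T.tau_sq (∑ l ∈ Finset.range (m ^ 2), v ^ l * z * star v ^ l)
  rw [star_sum, Finset.sum_mul_sum, map_sum] at h
  simp only [map_sum, p3, Finset.sum_ite_eq, T.tau_sq] at h
  rw [Finset.sum_congr rfl fun l hl => if_pos hl, Finset.sum_const, Finset.card_range, ← map_sum,
    nsmul_eq_mul] at h
  refine (sq_eq_sq₀ (norm_nonneg _) (by positivity)).1 ?_
  rw [mul_pow]
  exact_mod_cast h.symm

/-- Words that start with `σ` are asymptotically orthogonal to a sequence that asymptotically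
commutes with `v`, uniformly. -/
theorem aop0 (hx : T.AC (T.gen (A ∪ {σ})) v C x) {ε : ℝ} (hε : 0 < ε) :
    ∀ᶠ n in atTop, ∀ z ∈ T.cls {w | Alt {σ} (T.cen A) true w},
      ‖T.tau (Star.star z * x n)‖ ≤ ε * ‖T.ι z‖ := by
  obtain ⟨k, hk⟩ := exists_nat_gt (2 * C / ε)
  have C0 : 0 ≤ C := (norm_nonneg _).trans (hx.bd 0)
  have k0 : (0 : ℝ) < k := lt_of_le_of_lt (by positivity) hk
  rw [div_lt_iff₀ hε] at hk
  have h := hx.lim.const_mul ((k : ℝ) ^ 2)
  rw [mul_zero] at h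
  filter_upwards [h.eventually (gt_mem_nhds (half_pos hε))] with n hn z hz
  set d := ‖T.ι (v * x n - x n * v)‖
  have d0 : 0 ≤ d := norm_nonneg _
  have z0 := norm_nonneg (T.ι z)
  have e1 : ((k ^ 2 : ℕ) : ℂ) * T.tau (star z * x n) =
      T.tau (star (∑ l ∈ Finset.range (k ^ 2), v ^ l * z * star v ^ l) * x n) -
        ∑ l ∈ Finset.range (k ^ 2), T.tau (star z * (star v ^ l * x n * v ^ l - x n)) := by
    rw [star_sum, Finset.sum_mul, map_sum, ← Finset.sum_sub_distrib,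
      Finset.sum_congr rfl (g := fun _ => T.tau (star z * x n)) fun l _ => ?_]
    · simp
    · rw [mul_sub, map_sub, star_mul, star_mul, star_pow, star_pow, star_star, mul_assoc,
        T.tau_comm (v ^ l)]
      simp only [mul_assoc, sub_sub_cancel]
  have e2 := waop_tau_le (T := T) (∑ l ∈ Finset.range (k ^ 2), v ^ l * z * star v ^ l) (x n)
  rw [waop_sum h1 s1 s2 s0 hA hF hv vA hz] at e2
  have e3 : ‖∑ l ∈ Finset.range (k ^ 2), T.tau (star z * (star v ^ l * x n * v ^ l - x n))‖ ≤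
      (k : ℝ) ^ 2 * (‖T.ι z‖ * ((k : ℝ) ^ 2 * d)) := by
    refine (norm_sum_le_of_le _ (n := fun _ => ‖T.ι z‖ * ((k : ℝ) ^ 2 * d)) fun l hl => ?_).trans
      (by simp)
    refine (waop_tau_le _ _).trans (mul_le_mul_of_nonneg_left
      ((waop_pow hv.su hv.us l).trans (mul_le_mul_of_nonneg_right ?_ d0)) z0)
    exact_mod_cast (Finset.mem_range.1 hl).le
  have e4 := congrArg norm e1
  rw [_root_.norm_mul, Complex.norm_natCast] at e4
  have e5 := e4.trans_le ((norm_sub_le _ _).trans (add_le_add e2 e3))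
  have e6 : ‖T.ι (x n)‖ ≤ C := (l2_le h1 _).trans (hx.bd n)
  push_cast at e5
  refine le_of_mul_le_mul_left (e5.trans ?_) (by positivity)
  have e7 : (k : ℝ) * ‖T.ι z‖ * ‖T.ι (x n)‖ ≤ k * ‖T.ι z‖ * (k * ε / 2) :=
    mul_le_mul_of_nonneg_left (by linarith) (by positivity)
  have e8 : (k : ℝ) ^ 2 * (‖T.ι z‖ * ((k : ℝ) ^ 2 * d)) ≤ (k : ℝ) ^ 2 * (‖T.ι z‖ * (ε / 2)) :=
    mul_le_mul_of_nonneg_left (mul_le_mul_of_nonneg_left hn.le z0) (by positivity)
  linarith

theorem aop1 (hc : ∀ a ∈ A, v * a = a * v) (hx : T.AC (T.gen (A ∪ {σ})) v C x) {z : R}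
    (hz : z ∈ T.gen (A ∪ {σ})) (hp : ∀ a ∈ A, T.tau (a * z) = 0) :
    Tendsto (fun n => T.tau (x n * z)) atTop (𝓝 0) := by
  have h0 : T.tau 1 ≠ 0 := by rw [h1]; exact one_ne_zero
  have V := waop_sub (T := T) fun n => (l2_le h1 _).trans (hx.bd n)
  have h := V.map (LinC.id.sub hA.ce_linC) ?_ (waop_nf h1 s1 s2 hA hz)
  · rwa [hA.ce_eq hA.zero fun d hd => by rw [mul_zero, map_zero, hp d hd], sub_zero] at h
  rintro t (ht | ht)
  · rw [hA.ce_self ht, sub_self]
    exact V.zero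
  rw [hA.ce_eq hA.zero fun d hd => by
    rw [mul_zero, map_zero, tau_TT h0 hA (sym_alg s1 s2) hF hd ht], sub_zero]
  obtain ⟨a, ha, u, hu, a', ha', rfl⟩ := ht
  have h2 := (hx.mul (gen_w _) (AC.const (sub_gen (.inl ha)) (hc a ha))).star (gen_w _) hv.su hv.us
  refine NormedAddGroup.tendsto_nhds_zero.2 fun ε hε => ?_
  have p : 0 < ‖T.ι (u * a')‖ + 1 := by positivity
  filter_upwards [aop0 h1 s1 s2 s0 hA hF hv vA h2 (div_pos hε p)] with n hn
  have h3 := hn _ (waop_mem h1 s0 hA hu ha')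
  rw [← star_mul, T.tau_star, Complex.norm_conj] at h3
  rw [mul_assoc, ← mul_assoc]
  refine h3.trans_lt ?_
  rw [div_mul_eq_mul_div, div_lt_iff₀ p]
  exact mul_lt_mul_of_pos_left (lt_add_one _) hε

theorem aop2 {C' : ℝ} (hx : T.AC (T.gen (A ∪ {σ})) v C x) (hy : T.AC (T.gen (A ∪ {σ})) v C' y) :
    Tendsto (fun n => T.tau (σ * x n * σ * y n) - T.tau (x n) * T.tau (y n)) atTop (𝓝 0) := by
  have C0 : 0 ≤ C := (norm_nonneg _).trans (hx.bd 0)
  have C1 : 0 ≤ C' := (norm_nonneg _).trans (hy.bd 0)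
  have hx' := hx.star (gen_w _) hv.su hv.us
  refine NormedAddGroup.tendsto_nhds_zero.2 fun ε hε => ?_
  obtain ⟨δ, δ0, δ1, δ2⟩ : ∃ δ : ℝ, 0 < δ ∧ δ ≤ 1 ∧ δ * (3 * C' + 2 * C + 3) < ε := by
    have p : 0 < 3 * C' + 2 * C + 4 := by positivity
    refine ⟨min 1 (ε / (3 * C' + 2 * C + 4)), by positivity, min_le_left _ _, ?_⟩
    refine (mul_le_mul_of_nonneg_right (min_le_right _ _) (by positivity)).trans_lt ?_
    rw [div_mul_eq_mul_div, div_lt_iff₀ p]
    exact mul_lt_mul_of_pos_left (by linarith) hε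
  filter_upwards [aop0 h1 s1 s2 s0 hA hF hv vA hx' δ0, aop0 h1 s1 s2 s0 hA hF hv vA hy δ0]
    with n hn hn'
  obtain ⟨f, hf, f', hf', hr⟩ := waop_dec h1 s1 s2 s0 hA hF (hx'.mem n) δ0
  set g := star (x n) - T.tau (star (x n)) • 1 with hg
  have ss : star σ * σ = 1 := by rw [s1, s2]
  have ss' : σ * star σ = 1 := by rw [s1, s2]
  have a1 : ‖T.ι f‖ ≤ 2 * δ := by
    have t1 : T.tau (star f) = 0 := by
      have := waop_tau1 h1 s1 s2 s0 hA hF hA.one hf
      rw [one_mul] at this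
      rw [T.tau_star, this, map_zero]
    have e : T.tau (star f * f) = T.tau (star f * star (x n)) - T.tau (star f * (g - (f + f'))) := by
      rw [hg, mul_sub, mul_sub, mul_add, map_sub, map_sub, map_add, mul_smul_comm, mul_one,
        map_smul, t1, waop_orth h1 s1 s2 s0 hA hF hf hf']
      simp
    have e2 := congrArg norm e
    rw [T.tau_sq, Complex.norm_real, Real.norm_of_nonneg (by positivity)] at e2
    have e3 := e2.trans_le ((norm_sub_le _ _).trans (add_le_add (hn f hf)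
      ((waop_tau_le _ _).trans (mul_le_mul_of_nonneg_left hr (norm_nonneg _)))))
    by_contra h
    nlinarith [norm_nonneg (T.ι f)]
  have a2 : ‖T.ι (g - f')‖ ≤ 3 * δ := by
    rw [show g - f' = g - (f + f') + f by abel, map_add]
    linarith [norm_add_le (T.ι (g - (f + f'))) (T.ι f)]
  have x2 : ‖T.ι (star (x n))‖ ≤ C := (l2_le h1 _).trans (hx'.bd n)
  have a3 : ‖T.ι g‖ ≤ 2 * C := by
    rw [hg, map_sub, map_smul]
    refine (norm_sub_le _ _).trans ?_
    rw [norm_smul, l2_one h1]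
    linarith [tau_le h1 (star (x n))]
  have a4 : ‖T.ι f'‖ ≤ 2 * C + 3 := by
    rw [show f' = g - (g - f') by abel, map_sub]
    linarith [norm_sub_le (T.ι g) (T.ι (g - f'))]
  have a5 : σ * (f' * σ) ∈ T.cls {w | Alt {σ} (T.cen A) true w} :=
    (cls_sub _).map ((LinC.id.mulR σ).mulL σ) (fun w (hw : Alt {σ} (T.cen A) false w) =>
      sub_cls (Alt.xc (Set.mem_singleton σ)
        ((waop_sig s2 hw).resolve_right fun h => by cases h.1))) hf'
  have a6 := hn' _ a5
  have a7 := waop_tau_le (T := T) (σ * ((g - f') * σ)) (y n)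
  rw [waop_l ss, waop_r ss'] at a6 a7
  have e : T.tau (σ * x n * σ * y n) - T.tau (x n) * T.tau (y n) =
      T.tau (star (σ * (f' * σ)) * y n) + T.tau (star (σ * ((g - f') * σ)) * y n) := by
    rw [← map_add, ← add_mul, ← star_add, ← mul_add, ← add_mul, add_sub_cancel, star_mul, star_mul,
      s1, hg, star_sub, star_star, star_smul, star_one, T.tau_star, mul_sub, sub_mul, sub_mul,
      map_sub, mul_smul_comm, mul_one, smul_mul_assoc, s2, smul_mul_assoc, one_mul, map_smul]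
    simp
  have a8 : ‖T.ι (g - f')‖ * ‖T.ι (y n)‖ ≤ 3 * δ * C' :=
    mul_le_mul a2 ((l2_le h1 _).trans (hy.bd n)) (norm_nonneg _) (by positivity)
  have a9 := mul_le_mul_of_nonneg_left a4 δ0.le
  rw [e]
  refine (norm_add_le _ _).trans_lt ?_
  linarith

end TW

end Pool.Agent.Lib.MP_263241_an
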