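import Pool.Agent.Lib.MP_263241_an.WG

/-! The choice of the parameters of a move. -/

namespace Pool.Agent.Lib.MP_263241_an

open Finset
open scoped Real

theorem wg2_tail {p : ℝ} (h0 : 0 ≤ p) (h1 : p ≤ 1) (r : ℕ) :
    1 - (1 - p) ^ (r + 1) - (r + 1) * p * (1 - p) ^ r ≤ ((r + 1) * p) ^ 2 ∧
    1 - (1 - p) ^ (r + 1) - (r + 1) * p * (1 - p) ^ r ≤ 1 ∧ 1 - (r + 1) * p ≤ (1 - p) ^ r := by
  have h2 : 1 - r * p ≤ (1 - p) ^ r := by
    simpa [sub_eq_add_neg] using one_add_mul_le_pow (a := -p) (by linarith) r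
  have h3 : 0 ≤ r * p := by positivity
  have h4 : 0 ≤ (1 - p) ^ r := pow_nonneg (by linarith) r
  have h5 : (1 - p) ^ (r + 1) + (r + 1) * p * (1 - p) ^ r = (1 - p) ^ r * (1 + r * p) := by ring
  refine ⟨?_, ?_, by linarith⟩
  · nlinarith [mul_le_mul_of_nonneg_right h2 (show 0 ≤ 1 + r * p by linarith)]
  · nlinarith

theorem wg2_tel {l t : ℝ} (hl : 0 < l) (i : ℕ) (h1 : t ≤ ((2 * i + 1) * l) ^ 2) (h2 : t ≤ 1) :
    t / (2 * i + 1) ^ 2 ≤ 2 * l * (1 / (1 + 2 * l * i) - 1 / (1 + 2 * l * (i + 1 : ℕ))) := by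
  have h3 : t * (1 + (2 * i + 1) * l) ^ 2 ≤ 4 * ((2 * i + 1) * l) ^ 2 := by
    have h4 : 0 < (2 * i + 1) * l := by positivity
    generalize (2 * i + 1) * l = x at *
    rcases le_total x 1 with h | h
    · nlinarith [mul_le_mul_of_nonneg_right h1 (sq_nonneg (1 + x)),
        mul_le_mul_of_nonneg_left (show (1 + x) ^ 2 ≤ 4 by nlinarith) (sq_nonneg x)]
    · nlinarith [mul_le_mul_of_nonneg_right h2 (sq_nonneg (1 + x))]
  have h5 : 2 * l * (1 / (1 + 2 * l * i) - 1 / (1 + 2 * l * (i + 1 : ℕ)))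
      = 4 * l ^ 2 / ((1 + 2 * l * i) * (1 + 2 * l * (i + 1))) := by
    push_cast
    field_simp
    ring
  rw [h5]
  refine le_trans (b := 4 * l ^ 2 / (1 + (2 * i + 1) * l) ^ 2) ?_ ?_
  · rw [div_le_div_iff₀ (by positivity) (by positivity)]
    linarith
  · refine div_le_div_of_nonneg_left (by positivity) (by positivity) ?_
    nlinarith [sq_nonneg l]

theorem wg2_od {K : ℕ} (hK : 0 < K) (i : ℕ) :
    ∃ r : ℕ, od K i = r + 1 ∧ (r + 1 : ℝ) = (2 * i + 1) * K := by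
  obtain ⟨r, hr⟩ := Nat.exists_eq_succ_of_ne_zero (show od K i ≠ 0 by unfold od; positivity)
  refine ⟨r, hr, ?_⟩
  have : ((r + 1 : ℕ) : ℝ) = (K * (2 * i + 1) : ℕ) := congrArg Nat.cast hr.symm
  push_cast at this
  linarith

theorem wg2_cf (i : ℕ) : cf i ^ 2 / 2 = 8 / π ^ 2 / (2 * i + 1) ^ 2 ∧ 0 < cf i ∧ cf i ≤ 2 := by
  have := Real.pi_pos
  unfold cf
  refine ⟨by field_simp; ring, by positivity, ?_⟩
  rw [div_le_iff₀ (by positivity)]
  nlinarith [Real.pi_gt_three, mul_nonneg this.le (Nat.cast_nonneg (α := ℝ) i)]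

theorem wg2_term (s : ℝ) {K r i : ℕ} (h : od K i = r + 1) :
    al s K i ^ 2 / 2 = cf i ^ 2 / 2 * (1 - Real.sin s ^ 2) ^ (r + 1) ∧
    2 * od K i * ka s K i ^ 2
      = cf i ^ 2 / 2 * ((r + 1) * Real.sin s ^ 2 * (1 - Real.sin s ^ 2) ^ r) := by
  rw [al, ka, h, Nat.add_sub_cancel, ← Real.cos_sq', ← pow_mul, ← pow_mul]
  push_cast
  constructor <;> ring

theorem wg2_m2 (s : ℝ) {K : ℕ} (N : ℕ) (hl : 0 < K * Real.sin s ^ 2) :
    m2 s K N ≤ 8 / π ^ 2 * (2 * (K * Real.sin s ^ 2)) := by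
  have hK : 0 < K := Nat.cast_pos.1 (pos_of_mul_pos_left hl (sq_nonneg _))
  set l := K * Real.sin s ^ 2 with hl'
  have h1 : m2 s K N ≤ ∑ i ∈ range N,
      8 / π ^ 2 * (2 * l * (1 / (1 + 2 * l * i) - 1 / (1 + 2 * l * (i + 1 : ℕ)))) := by
    rw [m2, m0, m1, ← sum_sub_distrib, ← sum_sub_distrib]
    refine sum_le_sum fun i _ => ?_
    obtain ⟨r, h2, h3⟩ := wg2_od hK i
    obtain ⟨h4, h5, -⟩ := wg2_tail (sq_nonneg (Real.sin s)) (Real.sin_sq_le_one s) r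
    rw [h3, mul_assoc _ (K : ℝ), ← hl'] at h4
    rw [h3] at h5
    refine le_trans (le_of_eq ?_) (mul_le_mul_of_nonneg_left (wg2_tel hl i h4 (by
      rwa [hl', ← mul_assoc])) (by positivity))
    rw [(wg2_term s h2).1, (wg2_term s h2).2, (wg2_cf i).1, h3, hl']
    ring
  rw [← mul_sum, ← mul_sum, sum_range_sub' fun i : ℕ => 1 / (1 + 2 * l * i)] at h1
  refine h1.trans (mul_le_mul_of_nonneg_left (mul_le_of_le_one_right (by positivity) ?_)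
    (by positivity))
  have : 0 ≤ 1 / (1 + 2 * l * N) := by positivity
  simpa using this

theorem wg2_m1 (s : ℝ) {K M N : ℕ} (hK : 0 < K) (hN : M ≤ N)
    (hl : K * Real.sin s ^ 2 * (4 * M) ≤ 1) :
    8 / π ^ 2 * (K * Real.sin s ^ 2 / 4 * ∑ i ∈ range M, 1 / (i + 1 : ℝ)) ≤ m1 s K N := by
  refine le_trans ?_ (sum_le_sum_of_subset_of_nonneg (range_subset_range.2 hN)
    fun i _ _ => by positivity)
  rw [mul_sum, mul_sum]
  refine sum_le_sum fun i hi => ?_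
  obtain ⟨r, h2, h3⟩ := wg2_od hK i
  obtain ⟨-, -, h4⟩ := wg2_tail (sq_nonneg (Real.sin s)) (Real.sin_sq_le_one s) r
  have h5 : (i + 1 : ℝ) ≤ M := by exact_mod_cast mem_range.1 hi
  have h6 : 0 ≤ K * Real.sin s ^ 2 := by positivity
  rw [(wg2_term s h2).2, (wg2_cf i).1, h3]
  rw [h3, mul_assoc] at h4
  have h7 : 1 / 2 ≤ (1 - Real.sin s ^ 2) ^ r := by nlinarith
  calc _ ≤ 8 / π ^ 2 * (K * Real.sin s ^ 2 / 4 * (2 / (2 * i + 1))) := by
        gcongr _ * (_ * ?_)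
        rw [div_le_div_iff₀ (by positivity) (by positivity)]
        linarith
    _ = 8 / π ^ 2 / (2 * i + 1) ^ 2 * ((2 * i + 1) * K * Real.sin s ^ 2 * (1 / 2)) := by
        field_simp
        ring
    _ ≤ _ := by gcongr

/-- Critical branching: the terms with one letter `σ` dominate the others. -/
theorem wei {γ : ℝ} (hγ : 0 < γ) : ∃ m > 0, ∃ N₀ : ℕ, ∀ N ≥ N₀, ∀ K₀ : ℕ, ∀ η > 0, ∃ k K : ℕ,
    K₀ ≤ K ∧ Odd K ∧
    ang (k, K) ≤ η ∧ (∀ i, |al (ang (k, K)) K i| ≤ 2) ∧ (∀ i, ka (ang (k, K)) K i ^ 2 * K ≤ 1) ∧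
    m ≤ m1 (ang (k, K)) K N ∧ m2 (ang (k, K)) K N ≤ γ * m1 (ang (k, K)) K N := by
  have hπ := Real.pi_pos
  obtain ⟨M, hM, M1⟩ := ((Real.tendsto_sum_range_one_div_nat_succ_atTop.eventually_ge_atTop
    (8 / γ)).and (Filter.eventually_ge_atTop 1)).exists
  have M2 : (1 : ℝ) ≤ M := by exact_mod_cast M1
  refine ⟨8 / π ^ 2 * (16 / (160 * M + 1) / 4 * (8 / γ)), by positivity, M, fun N hN K₀ η hη => ?_⟩
  obtain ⟨k, k1, k2, k3⟩ : ∃ k : ℕ, 1 ≤ k ∧ K₀ ≤ k ∧ π / η ≤ k :=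
    ⟨K₀ + ⌈π / η⌉₊ + 1, by omega, by omega, (Nat.le_ceil _).trans (Nat.cast_le.2 (by omega))⟩
  have k4 : (1 : ℝ) ≤ k := by exact_mod_cast k1
  obtain ⟨K, hK⟩ : ∃ K, K = 2 * (k ^ 2 * (80 * M)) + 1 := ⟨_, rfl⟩
  have K1 : (K : ℝ) = 160 * k ^ 2 * M + 1 := by
    rw [hK]
    push_cast
    ring
  have K0 : 0 < K := by omega
  have K2 : (0 : ℝ) < K := Nat.cast_pos.2 K0
  set a := ang (k, K) with ha
  have a0 : a = 2 * π * k / K := rfl
  have a1 : 0 < a := by rw [a0]; positivity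
  have a2 : a * (2 * k) ≤ π := by
    rw [a0, div_mul_eq_mul_div, div_le_iff₀ K2, K1]
    nlinarith [mul_le_mul_of_nonneg_left M2 (show 0 ≤ π * k ^ 2 by positivity),
      (show 0 ≤ π * k ^ 2 by positivity)]
  have a3 : K * a ^ 2 = π ^ 2 * (4 * k ^ 2 / K) := by
    rw [a0]
    field_simp
    ring
  have l1 : K * Real.sin a ^ 2 * (4 * M) ≤ 1 := by
    have h1 : 4 * k ^ 2 / K * (40 * M) ≤ (1 : ℝ) := by
      rw [div_mul_eq_mul_div, div_le_one K2, K1]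
      linarith
    have h2 : π ^ 2 ≤ 10 := by nlinarith [Real.pi_lt_d2]
    calc _ ≤ K * a ^ 2 * (4 * M) := by
          gcongr _ * ?_ * _
          exact Real.sin_sq_le_sq
      _ ≤ 10 * (4 * k ^ 2 / K) * (4 * M) := by
          rw [a3]
          gcongr
      _ ≤ _ := by linarith
  have l2 : 16 / (160 * M + 1) ≤ K * Real.sin a ^ 2 := by
    have h1 := Real.mul_le_sin a1.le (by nlinarith)
    calc _ ≤ 4 * (4 * k ^ 2 / K : ℝ) := by
          rw [← mul_div_assoc, div_le_div_iff₀ (by positivity) K2, K1]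
          nlinarith
      _ = K * (2 / π * a) ^ 2 := by
          rw [mul_pow, mul_left_comm, a3]
          field_simp
          ring
      _ ≤ _ := by gcongr
  have l0 : 0 < K * Real.sin a ^ 2 := lt_of_lt_of_le (by positivity) l2
  have h1 : 8 / π ^ 2 * (K * Real.sin a ^ 2 / 4 * (8 / γ)) ≤ m1 a K N :=
    le_trans (by gcongr) (wg2_m1 a K0 hN l1)
  refine ⟨k, K, by nlinarith, ⟨_, hK⟩, ?_, fun i => ?_, fun i => ?_, le_trans (by gcongr) h1,
    (wg2_m2 a N l0).trans (le_trans (le_of_eq ?_) (mul_le_mul_of_nonneg_left h1 hγ.le))⟩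
  · rw [div_le_iff₀ hη] at k3
    nlinarith
  · rw [al, abs_mul, abs_of_pos (wg2_cf i).2.1, abs_pow]
    exact (mul_le_of_le_one_right (wg2_cf i).2.1.le
      (pow_le_one₀ (abs_nonneg _) (Real.abs_cos_le_one _))).trans (wg2_cf i).2.2
  · have h2 : cf i ^ 2 ≤ 2 ^ 2 := pow_le_pow_left₀ (wg2_cf i).2.1.le (wg2_cf i).2.2 2
    have h3 : (Real.cos a ^ 2) ^ (od K i - 1) ≤ 1 := pow_le_one₀ (sq_nonneg _) (Real.cos_sq_le_one a)
    calc _ = cf i ^ 2 * (Real.cos a ^ 2) ^ (od K i - 1) * (K * Real.sin a ^ 2) / 4 := by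
          rw [ka]
          ring
      _ ≤ 2 ^ 2 * 1 * (K * Real.sin a ^ 2) / 4 := by gcongr
      _ ≤ _ := by nlinarith
  · field_simp
    ring

end Pool.Agent.Lib.MP_263241_an
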