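import Pool.Agent.Lib.MP_263241_an.WX
import Pool.Agent.Lib.MP_263241_an.WG2
import Pool.Agent.Lib.MP_263241_an.WAop

/-! The gain of one move. -/

namespace Pool.Agent.Lib.MP_263241_an

open Complex Filter Topology Finset

variable {R H : Type*} [CStarAlgebra R] [NormedAddCommGroup H] [InnerProductSpace ℂ H]

theorem wa1_unit {g : R} (h : star g * g = 1) : ‖g‖ ≤ 1 := by
  have h1 : ‖(1 : R)‖ ≤ 1 := by
    have := CStarRing.norm_star_mul_self (x := (1 : R))
    rw [star_one, one_mul] at this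
    nlinarith [norm_nonneg (1 : R)]
  have := CStarRing.norm_star_mul_self (x := g)
  rw [h] at this
  nlinarith [norm_nonneg g]

theorem wa1_sg_map {M M' F : Type*} [AddCommMonoid M] [AddCommMonoid M'] [FunLike F M M']
    [AddMonoidHomClass F M M'] (φ : F) (r : ℕ) (f : ℤ → ℤ → M) :
    φ (sg r f) = sg r fun p q => φ (f p q) := by
  simp only [sg, map_sum, map_add]

theorem wa1_sg_star (r : ℕ) (f : ℤ → ℤ → R) : star (sg r f) = sg r fun p q => star (f p q) := by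
  simp only [sg, star_sum, star_add]

theorem wa1_sg_mul (r : ℕ) (f : ℤ → ℤ → R) (x : R) : sg r f * x = sg r fun p q => f p q * x := by
  simp only [sg, sum_mul, add_mul]

theorem wa1_mul_sg (r : ℕ) (f : ℤ → ℤ → R) (x : R) : x * sg r f = sg r fun p q => x * f p q := by
  simp only [sg, mul_sum, mul_add]

theorem wa1_sg_cast (r : ℕ) (f : ℤ → ℤ → ℝ) :
    ((sg r f : ℝ) : ℂ) = sg r fun p q => (f p q : ℂ) := wa1_sg_map ofRealHom r f

theorem wa1_sg_lim (r : ℕ) {f : ℕ → ℤ → ℤ → ℂ} {l : ℤ → ℤ → ℂ}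
    (h : ∀ p q, Tendsto (fun n => f n p q) atTop (𝓝 (l p q))) :
    Tendsto (fun n => sg r (f n)) atTop (𝓝 (sg r l)) :=
  tendsto_finset_sum _ fun _ _ => (h _ _).add (h _ _)

/-- The final inequality. -/
theorem wa1_num {u m t a0 a1 a2 B Q : ℝ} (u0 : 0 < u) (u1 : u ≤ 1) (hm : 0 < m) (t0 : 0 < t)
    (t1 : t ≤ 1) (t2 : t ≤ m * u ^ 2 / 80) (h0 : 0 ≤ a2)
    (hs : 1 - t ^ 2 ≤ a0 + a1 + a2) (hs' : a0 + a1 + a2 ≤ 1) (h1 : m ≤ a1)
    (h2 : a2 ≤ (u ^ 2 / 12) ^ 2 * a1) (hB : B ≤ a0 * u + m * u ^ 2 / 64)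
    (hQ : a1 * (1 - u + u ^ 2 / 2) - m * u ^ 2 / 64 ≤ Q) (hQ' : Q ≤ a1) :
    1 - u + m * u ^ 2 / 16 <
      a0 - B + 0 + 2 * Q - Q - u ^ 2 / 12 * Q - u ^ 2 / 12 * a1 - t * (1 + 2 * a0 + 2 * Q) := by
  have b0 : 0 < u ^ 2 := by positivity
  have b1 : u ^ 2 / 12 ≤ 1 := by nlinarith
  have a1p : 0 < a1 := hm.trans_le h1
  have e1 : a2 ≤ u ^ 2 / 12 * a1 := by
    refine h2.trans (mul_le_mul_of_nonneg_right ?_ a1p.le)
    nlinarith
  have e2 : t ^ 2 ≤ t := by nlinarith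
  have e3 : (1 - u) - (t + u ^ 2 / 12 * a1) ≤ (a0 + a1) * (1 - u) := by
    have : 0 ≤ t + u ^ 2 / 12 * a1 := by positivity
    nlinarith
  have e4 : u ^ 2 / 12 * Q ≤ u ^ 2 / 12 * a1 := by gcongr
  have e5 : t * (1 + 2 * a0 + 2 * Q) ≤ t * 3 := by gcongr; linarith
  have e6 : m * u ^ 2 ≤ a1 * u ^ 2 := by gcongr
  have e7 : 0 < m * u ^ 2 := by positivity
  nlinarith

namespace TW

variable {T : TW R H} {σ V : R}

variable (T) in
/-- Subalgebras that contain `σ` and asymptotically contain the real part of `V`. -/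
structure Asy (σ V : R) (D : ℕ → Set R) : Prop where
  alg : ∀ n, T.Alg 1 (D n)
  sub : ∀ n, D n ⊆ T.gen {1, V, σ}
  mem : ∀ n, σ ∈ D n
  lim : Tendsto (fun n => ‖T.ι (XX V - T.ce (D n) (XX V))‖) atTop (𝓝 0)

theorem wa1_perp {D : Set R} (hD : T.Alg 1 D) (x : R) {d : R} (hd : d ∈ D) :
    T.tau (star (x - T.ce D x) * d) = 0 := by
  rw [T.tau_comm, star_sub, ← hD.ce_star, mul_sub, map_sub, hD.ce_tau _ hd, sub_self]

theorem wa1_add (x y : R) : ‖T.ι (x + y)‖ ≤ ‖T.ι x‖ + ‖T.ι y‖ := by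
  rw [map_add]; exact norm_add_le _ _

theorem wa1_sub (x y : R) : ‖T.ι (x - y)‖ ≤ ‖T.ι x‖ + ‖T.ι y‖ := by
  rw [map_sub]; exact norm_sub_le _ _

theorem wa1_small {a b : ℕ → R} {C : ℝ} (ha : Tendsto (fun n => ‖T.ι (a n)‖) atTop (𝓝 0))
    (hb : ∀ n, ‖T.ι (b n)‖ ≤ C) : Tendsto (fun n => T.tau (star (a n) * b n)) atTop (𝓝 0) ∧
      Tendsto (fun n => T.tau (star (b n) * a n)) atTop (𝓝 0) := by
  have l : Tendsto (fun n => C * ‖T.ι (a n)‖) atTop (𝓝 0) := by simpa using ha.const_mul C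
  constructor
  · refine squeeze_zero_norm (fun n => (tau_mul_le _ _).trans ?_) l
    rw [T.norm_star, mul_comm]
    exact mul_le_mul_of_nonneg_right (hb n) (norm_nonneg _)
  · refine squeeze_zero_norm (fun n => (tau_mul_le _ _).trans ?_) l
    rw [T.norm_star]
    exact mul_le_mul_of_nonneg_right (hb n) (norm_nonneg _)

theorem wa1_isW {D : ℕ → Set R} (hD : ∀ n, T.Alg 1 (D n)) :
    T.IsW {x | Tendsto (fun n => ‖T.ι (x - T.ce (D n) x)‖) atTop (𝓝 0)} where
  zero := by simp [fun n => (hD n).ce_linC.zero]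
  add := fun {x y} hx hy => by
    refine squeeze_zero (fun _ => norm_nonneg _) (fun n => ?_) (by simpa using Tendsto.add hx hy)
    rw [(hD n).ce_linC.add, add_sub_add_comm, ← map_sub, ← map_sub]
    exact wa1_add _ _
  smul := fun c {x} hx => by
    have := Tendsto.const_mul ‖c‖ hx
    rw [mul_zero] at this
    refine this.congr fun n => ?_
    rw [(hD n).ce_linC.smul, ← smul_sub, map_smul, norm_smul]
  lim := fun a x ha hl => by
    refine Metric.tendsto_atTop.2 fun ε hε => ?_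
    obtain ⟨k, hk⟩ := ((lim_iff.1 hl).eventually (gt_mem_nhds (half_pos hε))).exists
    obtain ⟨N, hN⟩ := eventually_atTop.1 (Tendsto.eventually (ha k) (gt_mem_nhds (half_pos hε)))
    refine ⟨N, fun n hn => ?_⟩
    rw [Real.dist_eq, sub_zero, abs_norm]
    refine ((hD n).ce_min x ((hD n).ce_mem (a k))).trans_lt ?_
    rw [show x - T.ce (D n) (a k) = (a k - T.ce (D n) (a k)) - (a k - x) by abel]
    linarith [wa1_sub (T := T) (a k - T.ce (D n) (a k)) (a k - x), hN n hn]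
  mul := fun {x y} hx hy => by
    have l := (Tendsto.const_mul ‖y‖ hx).add (Tendsto.const_mul ‖x‖ hy)
    rw [mul_zero, mul_zero, add_zero] at l
    refine squeeze_zero (fun _ => norm_nonneg _) (fun n => ?_) l
    refine ((hD n).ce_min _ ((hD n).mul ((hD n).ce_mem x) ((hD n).ce_mem y))).trans ?_
    rw [show x * y - T.ce (D n) x * T.ce (D n) y
      = (x - T.ce (D n) x) * y + T.ce (D n) x * (y - T.ce (D n) y) by noncomm_ring]
    exact (wa1_add _ _).trans (add_le_add (T.norm_mul' _ _) ((T.norm_mul _ _).trans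
      (mul_le_mul_of_nonneg_right ((hD n).ce_norm x) (norm_nonneg _))))
  star := fun {x} hx => by
    refine Tendsto.congr (fun n => ?_) hx
    rw [(hD n).ce_star, ← star_sub, T.norm_star]

theorem wa1_genX : T.gen {1, XX V} ⊆ T.gen {1, V} := by
  refine (gen_w _).gen_le ?_
  rintro _ (rfl | rfl)
  · exact sub_gen (by simp)
  · exact (gen_w _).add (sub_gen (by simp)) ((gen_w _).star (sub_gen (by simp)))

theorem wa1_genN : T.gen {1, V, σ} ⊆ T.gen (T.gen {1, V} ∪ {σ}) := by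
  refine gen_mono ?_
  rintro _ (rfl | rfl | rfl)
  · exact Or.inl (sub_gen (by simp))
  · exact Or.inl (sub_gen (by simp))
  · exact Or.inr rfl

theorem wa1_zp (n : ℤ) : zp V n ∈ T.gen {1, V} ∧ EV V n ∈ T.gen {1, V} ∧ OD V n ∈ T.gen {1, V} :=
  zp_mem (gen_w _) (sub_gen (by simp)) (sub_gen (by simp)) n

theorem wa1_orth (h : T.St σ V) (p q : ℤ) :
    T.tau (star (zp V p) * zp V q) = if p = q then 1 else 0 := by
  rw [zp_star, ← zp_add h.haar.su h.haar.us]
  split_ifs with e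
  · rw [e, neg_add_cancel]
    simpa using (congrArg T.tau (zp_nat V 0)).trans (by rw [pow_zero, h.one])
  · exact h.haar.tau_zp fun e' => e (by omega)

theorem wa1_l2 (h : T.St σ V) (n : ℤ) :
    ‖T.ι (zp V n)‖ ≤ 1 ∧ ‖T.ι (EV V n)‖ ≤ 1 ∧ ‖T.ι (OD V n)‖ ≤ 1 := by
  obtain ⟨a, b, c⟩ := zp_norm (wa1_unit h.haar.su) (wa1_unit (g := (1 : R)) (by simp)) n
  exact ⟨(l2_le h.one _).trans a, (l2_le h.one _).trans b, (l2_le h.one _).trans c⟩

/-- The trace of a product of two sums of words with one letter `σ`. -/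
theorem wa1_x1 (s1 : star σ = σ) (f f' : ℤ → R) (s : ℝ) (K N : ℕ) :
    T.tau (star (x1 f σ s K N) * x1 f' σ s K N) = ∑ i ∈ range N, ∑ i' ∈ range N,
      (ka s K i : ℂ) * ka s K i' * sg (od K i) fun p q => sg (od K i') fun p' q' =>
        T.tau (σ * (star (f p) * f' p') * σ * (f' q' * star (f q))) := by
  unfold x1
  rw [star_sum, sum_mul_sum, map_sum]
  refine sum_congr rfl fun i _ => ?_
  rw [map_sum]
  refine sum_congr rfl fun i' _ => ?_
  rw [star_smul, smul_mul_smul_comm, map_smul, smul_eq_mul, wa1_sg_star, wa1_sg_mul, wa1_sg_map]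
  congr 1
  · simp
  congr 1
  funext p q
  rw [wa1_mul_sg, wa1_sg_map]
  congr 1
  funext p' q'
  rw [star_mul, star_mul, s1, mul_assoc (star (f q)), T.tau_comm]
  simp only [mul_assoc]

theorem wa1_x0 {D : Set R} (hD : T.Alg 1 D) (s : ℝ) (K N : ℕ) :
    T.tau (star (x0 V s K N - T.ce D (x0 V s K N)) * x0 V s K N) = ∑ i ∈ range N, ∑ i' ∈ range N,
      (al s K i : ℂ) * al s K i' *
        T.tau (star (OD V (od K i) - T.ce D (OD V (od K i))) * OD V (od K i')) := by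
  unfold x0
  rw [hD.ce_sum, ← sum_sub_distrib, star_sum, sum_mul_sum, map_sum]
  refine sum_congr rfl fun i _ => ?_
  rw [map_sum]
  refine sum_congr rfl fun i' _ => ?_
  rw [hD.ce_linC.smul, ← smul_sub, star_smul, smul_mul_smul_comm, map_smul, smul_eq_mul]
  congr 1
  simp only [star_mul', star_neg, RCLike.star_def, conj_I, conj_ofReal]
  linear_combination (-(al s K i : ℂ) * al s K i') * I_mul_I

section asy

variable {D : ℕ → Set R} (h : T.St σ V) (hD : T.Asy σ V D)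
include h hD

theorem Asy.even {x : R} (hx : x ∈ T.gen {1, XX V}) :
    Tendsto (fun n => ‖T.ι (x - T.ce (D n) x)‖) atTop (𝓝 0) := by
  refine (wa1_isW hD.alg).gen_le ?_ hx
  rintro _ (rfl | rfl)
  · simp [fun n => (hD.alg n).ce_self (hD.alg n).one]
  · exact hD.lim

theorem Asy.ac {v : R} (hv : v ∈ T.gen {1, XX V}) {a : R} (ha : a ∈ T.gen {1, V}) :
    T.AC (T.gen (T.gen {1, V} ∪ {σ})) v ‖a‖ fun n => T.ce (D n) a := by
  refine ⟨fun n => wa1_genN (hD.sub n ((hD.alg n).ce_mem a)), fun n => (hD.alg n).ce_norm a, ?_⟩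
  have l := (hD.even h hv).const_mul (4 * ‖a‖)
  rw [mul_zero] at l
  refine squeeze_zero (fun _ => norm_nonneg _) (fun n => ?_) l
  have A := hD.alg n
  have c := h.haar.comm (wa1_genX hv) ha
  have e : v * T.ce (D n) a - T.ce (D n) a * v = (v - T.ce (D n) v) * T.ce (D n) a
      - T.ce (D n) a * (v - T.ce (D n) v)
      + T.ce (D n) (a * (v - T.ce (D n) v) - (v - T.ce (D n) v) * a) := by
    rw [show a * (v - T.ce (D n) v) - (v - T.ce (D n) v) * a
        = T.ce (D n) v * a - a * T.ce (D n) v by rw [mul_sub, sub_mul, c]; abel,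
      A.ce_sub, A.ce_mul_l (A.ce_mem v), A.ce_mul_r (A.ce_mem v)]
    noncomm_ring
  rw [e]
  have n0 := norm_nonneg (T.ι (v - T.ce (D n) v))
  have b1 := (T.norm_mul' (v - T.ce (D n) v) _).trans
    (mul_le_mul_of_nonneg_right (A.ce_norm a) n0)
  have b2 := (T.norm_mul _ (v - T.ce (D n) v)).trans (mul_le_mul_of_nonneg_right (A.ce_norm a) n0)
  have b3 := T.norm_mul a (v - T.ce (D n) v)
  have b4 := T.norm_mul' (v - T.ce (D n) v) a
  refine (wa1_add _ _).trans ((add_le_add (wa1_sub _ _)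
    ((A.ce_l2 _).trans (wa1_sub _ _))).trans ?_)
  linarith

theorem Asy.wa1_od {r : ℕ → ℤ → ℝ}
    (hr : ∀ n j, T.tau ((1 - T.ce (D n) (T.eps V) * T.eps V) * EV V j) = r n j) (p p' : ℤ) :
    Tendsto (fun n => T.tau (star (OD V p - T.ce (D n) (OD V p)) * OD V p') - bb (r n) p p')
      atTop (𝓝 0) := by
  have e1 := h.haar.eps_star h.one
  have e2 := h.haar.eps_sq h.one
  have en : ‖T.eps V‖ ≤ 1 := wa1_unit (by rw [e1, e2])
  have hg := hD.even h (h.haar.eps_mul_OD h.one p)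
  set g := T.eps V * OD V p with hg'
  have eg : T.eps V * g = OD V p := by rw [hg', ← mul_assoc, e2, one_mul]
  have l : Tendsto (fun n => ‖T.ι (T.ce (D n) (T.eps V) * g - T.ce (D n) (OD V p))‖) atTop
      (𝓝 0) := by
    have l := hg.const_mul 2
    rw [mul_zero] at l
    refine squeeze_zero (fun _ => norm_nonneg _) (fun n => ?_) l
    have A := hD.alg n
    have e : T.ce (D n) (T.eps V) * g - T.ce (D n) (OD V p)
        = T.ce (D n) (T.eps V) * (g - T.ce (D n) g) - T.ce (D n) (T.eps V * (g - T.ce (D n) g)) := by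
      rw [mul_sub (T.eps V), eg, A.ce_sub, A.ce_mul_r (A.ce_mem g)]
      noncomm_ring
    have n0 := norm_nonneg (T.ι (g - T.ce (D n) g))
    have b1 := (T.norm_mul _ (g - T.ce (D n) g)).trans
      (mul_le_mul_of_nonneg_right ((A.ce_norm _).trans en) n0)
    have b2 := (A.ce_l2 _).trans ((T.norm_mul _ (g - T.ce (D n) g)).trans
      (mul_le_mul_of_nonneg_right en n0))
    rw [e]
    linarith [wa1_sub (T := T) (T.ce (D n) (T.eps V) * (g - T.ce (D n) g))
      (T.ce (D n) (T.eps V * (g - T.ce (D n) g)))]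
  refine (wa1_small l fun _ => (wa1_l2 h p').2.2).1.congr fun n => ?_
  have A := hD.alg n
  have c1 := h.haar.comm (h.haar.eps_mem h.one) (wa1_zp (T := T) p).2.2
  have c2 := h.haar.comm (h.haar.eps_mem h.one) (wa1_zp (T := T) p').2.2
  have key : T.tau (star (OD V p - T.ce (D n) (T.eps V) * g) * OD V p') = bb (r n) p p' := by
    have e : star (OD V p - T.ce (D n) (T.eps V) * g) * OD V p'
        = star g * ((T.eps V - T.ce (D n) (T.eps V)) * OD V p') := by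
      rw [← eg, ← sub_mul, star_mul, star_sub, ← A.ce_star, e1, mul_assoc]
    have e' : (T.eps V - T.ce (D n) (T.eps V)) * OD V p' * star g
        = (1 - T.ce (D n) (T.eps V) * T.eps V) * -(OD V p' * OD V p) := by
      rw [hg', star_mul, e1, OD_star, ← e2, ← sub_mul, neg_mul, ← c1, mul_neg, mul_neg, mul_assoc,
        mul_assoc, ← mul_assoc (OD V p'), ← c2, mul_assoc]
    rw [e, T.tau_comm, e', OD_mul_OD h.haar.su h.haar.us, ← smul_neg, neg_sub, mul_smul_comm,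
      map_smul, mul_sub, map_sub, ← EV_neg V (p' - p), neg_sub, add_comm p' p, hr, hr, bb]
    simp only [smul_eq_mul]
    push_cast
    ring
  rw [← key, ← map_sub, ← sub_mul, ← star_sub]
  congr 3
  abel

/-- Limits of the Gram matrices along a subsequence. -/
theorem Asy.gram {c : ℝ} (hc : Tendsto (fun n => ‖T.ι (T.ce (D n) (T.eps V))‖ ^ 2) atTop (𝓝 c)) :
    ∃ (φ : ℕ → ℕ) (u : ℤ → ℝ), StrictMono φ ∧ (∀ n, u (-n) = u n) ∧
      (∀ S : Finset ℤ, ∑ n ∈ S, u n ^ 2 ≤ 1) ∧ u 0 = 1 - c ∧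
      (∀ p p', Tendsto (fun n => T.tau (star (T.ce (D (φ n)) (zp V p)) * zp V p')) atTop
        (𝓝 (be u p p'))) ∧
      ∀ p p', Tendsto (fun n => T.tau (star (OD V p - T.ce (D (φ n)) (OD V p)) * OD V p')) atTop
        (𝓝 (bb u p p')) := by
  have e1 := h.haar.eps_star h.one
  have e2 := h.haar.eps_sq h.one
  have en : ‖T.eps V‖ ≤ 1 := wa1_unit (by rw [e1, e2])
  let w : ℕ → ℤ → ℂ := fun n j => T.tau ((1 - T.ce (D n) (T.eps V) * T.eps V) * zp V j)
  let r : ℕ → ℤ → ℝ := fun n j => (w n j).re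
  have wc : ∀ n j, w n (-j) = (starRingEnd ℂ) (w n j) := fun n j => by
    have c := h.haar.comm (h.haar.eps_mem h.one) (wa1_zp (T := T) (-j)).1
    simp only [w]
    rw [← T.tau_star, star_mul, zp_star, star_sub, star_one, star_mul, ← (hD.alg n).ce_star, e1,
      sub_mul, mul_sub, one_mul, mul_one, map_sub, map_sub, ← mul_assoc, ← c,
      T.tau_comm (T.eps V * _), mul_assoc]
  have hr : ∀ n j, T.tau ((1 - T.ce (D n) (T.eps V) * T.eps V) * EV V j) = r n j := fun n j => by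
    rw [EV, mul_smul_comm, map_smul, mul_add, map_add]
    change (2⁻¹ : ℂ) • (w n j + w n (-j)) = _
    rw [wc, add_conj, smul_eq_mul]
    push_cast
    ring
  have bes : ∀ n (S : Finset ℤ), ∑ j ∈ S, r n j ^ 2 ≤ 1 := fun n S => by
    have O : Orthonormal ℂ fun j : ℤ => T.ι (zp V (-j)) := orthonormal_iff_ite.2 fun i j => by
      rw [T.inner_tau, wa1_orth h]
      simp only [neg_inj]
    have B := O.sum_inner_products_le (s := S) (T.ι (1 - T.ce (D n) (T.eps V) * T.eps V))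
    have F : ‖T.ι (1 - T.ce (D n) (T.eps V) * T.eps V)‖ ^ 2 ≤ 1 := by
      have a := (hD.alg n).ce_pyth (T.eps V)
      have b := (l2_le h.one _).trans en
      have d := (T.norm_mul' (T.eps V - T.ce (D n) (T.eps V)) _).trans
        (mul_le_mul_of_nonneg_right en (norm_nonneg _))
      rw [sub_mul, e2, one_mul] at d
      nlinarith [norm_nonneg (T.ι (1 - T.ce (D n) (T.eps V) * T.eps V)),
        norm_nonneg (T.ι (T.eps V)), sq_nonneg ‖T.ι (T.ce (D n) (T.eps V))‖]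
    refine le_trans (sum_le_sum fun j _ => ?_) (B.trans F)
    rw [T.inner_tau, zp_star, neg_neg, T.tau_comm, ← sq_abs]
    exact pow_le_pow_left₀ (abs_nonneg _) (abs_re_le_norm _) 2
  obtain ⟨u, -, φ, hφ, tu⟩ := (isCompact_univ_pi fun _ : ℤ => isCompact_Icc (a := (-1 : ℝ))
    (b := 1)).tendsto_subseq (x := r) fun n j _ => by
      have := bes n {j}
      rw [sum_singleton] at this
      exact abs_le.1 ((sq_le_one_iff_abs_le_one _).1 this)
  have tj : ∀ j, Tendsto (fun n => r (φ n) j) atTop (𝓝 (u j)) := tendsto_pi_nhds.1 tu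
  have od : ∀ p p', Tendsto (fun n => T.tau (star (OD V p - T.ce (D (φ n)) (OD V p)) * OD V p'))
      atTop (𝓝 (bb u p p')) := fun p p' => by
    have a := (hD.wa1_od h hr p p').comp hφ.tendsto_atTop
    have b : Tendsto (fun n => (bb (r (φ n)) p p' : ℂ)) atTop (𝓝 (bb u p p')) :=
      (continuous_ofReal.tendsto _).comp (((tj _).sub (tj _)).div_const 2)
    simpa using a.add b
  refine ⟨φ, u, hφ, fun j => ?_, fun S => ?_, ?_, fun p p' => ?_, od⟩
  · refine tendsto_nhds_unique (tj _) ((tj j).congr fun n => ?_)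
    simp only [r, wc, conj_re]
  · exact le_of_tendsto' (tendsto_finset_sum S fun j _ => (tj j).pow 2) fun n => bes _ S
  · refine tendsto_nhds_unique (tj 0) (((hc.comp hφ.tendsto_atTop).const_sub 1).congr fun n => ?_)
    have A := hD.alg (φ n)
    have := hr (φ n) 0
    rw [EV_zero, mul_one, map_sub, h.one, ← A.ce_tau _ (A.ce_mem _)] at this
    nth_rewrite 1 [← e1] at this
    rw [A.ce_star, T.tau_sq] at this
    exact_mod_cast this
  · have ev := fun q => (hD.even h (h.haar.EV_mem q)).comp hφ.tendsto_atTop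
    have a := (wa1_small (ev p) fun _ => (wa1_l2 h p').1).1
    have b := (wa1_small (ev p') (b := fun n => OD V p - T.ce (D (φ n)) (OD V p)) (C := 2) fun n =>
      (wa1_sub _ _).trans (by linarith [(wa1_l2 h p).2.2, (hD.alg (φ n)).ce_l2 (OD V p)])).2
    have l := ((a.add b).add (od p p')).const_sub (if p = p' then 1 else 0)
    rw [zero_add, zero_add] at l
    have e : (be u p p' : ℂ) = (if p = p' then 1 else 0) - bb u p p' := by
      rw [be]; split_ifs <;> simp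
    rw [e]
    refine l.congr fun n => ?_
    have A := hD.alg (φ n)
    have z := wa1_perp A (OD V p) (A.ce_mem (EV V p'))
    rw [← wa1_orth h, zp_eq V p, A.ce_linC.add, mul_sub, map_sub, z]
    nth_rewrite 3 [zp_eq V p']
    nth_rewrite 1 [zp_eq V p']
    simp only [star_add, star_sub, add_mul, sub_mul, mul_add, map_add, map_sub, zp_eq V p']
    ring

theorem Asy.wa1_q {u : ℤ → ℝ} {v : R} (hv : v ∈ T.gen {1, XX V}) (vH : T.Haar 1 v)
    {f : ℕ → ℤ → R} (hf : ∀ p, ∃ C, T.AC (T.gen (T.gen {1, V} ∪ {σ})) v C fun n => f n p)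
    (hl : ∀ p p', Tendsto (fun n => T.tau (star (T.ce (D n) (zp V p)) * f n p')) atTop
      (𝓝 (be u p p'))) (s : ℝ) (K N : ℕ) :
    Tendsto (fun n => T.ip (x1 (fun p => T.ce (D n) (zp V p)) σ s K N) (x1 (f n) σ s K N)) atTop
      (𝓝 (QQ u K N (ka s K))) := by
  have l : Tendsto (fun n => T.tau (star (x1 (fun p => T.ce (D n) (zp V p)) σ s K N)
      * x1 (f n) σ s K N)) atTop (𝓝 (QQ u K N (ka s K) : ℝ)) := by
    simp only [wa1_x1 h.s1, QQ, ofReal_sum, ofReal_mul, wa1_sg_cast]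
    refine tendsto_finset_sum _ fun i _ => tendsto_finset_sum _ fun i' _ => Tendsto.const_mul _
      (wa1_sg_lim _ fun p q => wa1_sg_lim _ fun p' q' => ?_)
    obtain ⟨C, hC⟩ := hf p'
    obtain ⟨C', hC'⟩ := hf q'
    have a := aop2 h.one h.s1 h.s2 h.s0 (h.haar.alg Pr.one) h.free vH (wa1_genX hv)
      (((hD.ac h hv (wa1_zp p).1).star (gen_w _) vH.su vH.us).mul (gen_w _) hC)
      (hC'.mul (gen_w _) ((hD.ac h hv (wa1_zp q).1).star (gen_w _) vH.su vH.us))
    have b := (hl p p').mul ((hl q q').congr fun n => T.tau_comm _ _)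
    simpa using a.add b
  exact (continuous_re.tendsto _).comp l

/-- The gain along a sequence whose Gram matrices converge. -/
theorem Asy.wa1_gain {u : ℤ → ℝ} (he : ∀ n, u (-n) = u n) (hs : ∀ S : Finset ℤ, ∑ n ∈ S, u n ^ 2 ≤ 1)
    (u0 : 0 < u 0) (h1 : ∀ p p', Tendsto (fun n => T.tau (star (T.ce (D n) (zp V p)) * zp V p'))
      atTop (𝓝 (be u p p')))
    (h2 : ∀ p p', Tendsto (fun n => T.tau (star (OD V p - T.ce (D n) (OD V p)) * OD V p')) atTop
      (𝓝 (bb u p p'))) : ∃ g > 0, ∀ η > 0, ∃ m : ℕ × ℕ, Odd m.2 ∧ ang m ≤ η ∧ ∀ᶠ n in atTop,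
        1 - u 0 + g ≤ ‖T.ι (T.ce (D n) (T.eps ((rt σ (-ang m) * V) ^ m.2)))‖ ^ 2 := by
  have u1 : u 0 ≤ 1 := by
    have := hs {0}
    rw [sum_singleton] at this
    nlinarith
  have β0 : 0 < u 0 ^ 2 / 12 := by positivity
  obtain ⟨m, hm, N₀, hw⟩ := wei (γ := (u 0 ^ 2 / 12) ^ 2) (by positivity)
  obtain ⟨t, t0, t1, t2⟩ : ∃ t : ℝ, 0 < t ∧ t ≤ 1 ∧ t ≤ m * u 0 ^ 2 / 80 :=
    ⟨_, lt_min one_pos (by positivity), min_le_left _ _, min_le_right _ _⟩
  obtain ⟨N, hN, hN'⟩ := ((eventually_ge_atTop N₀).and (cf_tendsto.eventually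
    (lt_mem_nhds (show 1 - t ^ 2 < 1 by nlinarith)))).exists
  obtain ⟨K₀, g0⟩ := gain0 he hs N (δ := m * u 0 ^ 2 / 64) (by positivity)
  obtain ⟨K₁, g1⟩ := gain1 he hs N (δ := m * u 0 ^ 2 / 64) (by positivity)
  obtain ⟨v, hv, vH⟩ := h.haar.exists_even h.one
  refine ⟨m * u 0 ^ 2 / 16, by positivity, fun η hη => ?_⟩
  obtain ⟨k, K, hK, oK, aK, w1, w2, w3, w4⟩ := hw N hN (max K₀ K₁) η hη
  refine ⟨(k, K), oK, aK, ?_⟩
  have K0 : K ≠ 0 := oK.pos.ne'
  generalize ang (k, K) = s at w1 w2 w3 w4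
  have G0 := g0 K (le_of_max_le_left hK) _ w1
  have G1 := g1 K (le_of_max_le_right hK) _ w2
  have hW : T.Haar 1 ((rt σ (-s) * V) ^ K) := by
    have := (h.rot (c := 1) norm_one (-s) 0).1.haar
    rw [one_smul, rt_zero, mul_one] at this
    exact this.pow Pr.one K0
  have tail := hW.eps_tail h.one N
  obtain ⟨x1', n0, n1, n2⟩ := h.expand s K0 N rfl
  have gw := gen_w (T := T) (T.gen {1, V} ∪ {σ})
  have o1 : (1 : R) ∈ T.gen (T.gen {1, V} ∪ {σ}) := wa1_genN (sub_gen (by simp))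
  have mx : x0 V s K N ∈ T.gen {1, V} :=
    (gen_w _).sum _ fun i _ => (gen_w _).smul _ (wa1_zp _).2.2
  have my : eI ((rt σ (-s) * V) ^ K) N ∈ T.gen (T.gen {1, V} ∪ {σ}) :=
    gw.sum _ fun i _ => gw.smul _ (zp_mem gw o1 (zp_mem gw o1 (gw.mul
      (rt_mem gw.toIsSub o1 (sub_gen (Or.inr rfl)) _) (wa1_genN (sub_gen (by simp)))) K).1 _).2.2
  generalize eI ((rt σ (-s) * V) ^ K) N = y at tail x1' n2 my
  generalize T.eps ((rt σ (-s) * V) ^ K) = Y at tail
  have L1 : Tendsto (fun n => ‖T.ι (T.ce (D n) (x0 V s K N))‖ ^ 2) atTop (𝓝 (m0 s K N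
      - ∑ i ∈ range N, ∑ i' ∈ range N, al s K i * al s K i' * bb u (od K i) (od K i'))) := by
    have l : Tendsto (fun n => T.tau (star (x0 V s K N - T.ce (D n) (x0 V s K N)) * x0 V s K N))
        atTop (𝓝 (∑ i ∈ range N, ∑ i' ∈ range N,
          al s K i * al s K i' * bb u (od K i) (od K i') : ℝ)) := by
      simp only [fun n => wa1_x0 (V := V) (hD.alg n), ofReal_sum, ofReal_mul]
      exact tendsto_finset_sum _ fun i _ => tendsto_finset_sum _ fun i' _ => (h2 _ _).const_mul _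
    refine (((continuous_re.tendsto _).comp l).const_sub _).congr fun n => ?_
    have A := hD.alg n
    change m0 s K N - T.ip _ _ = _
    rw [ip_sub_l, ip_self, n0, ← A.ce_ip _ (A.ce_mem _), ip_self]
    ring
  have L2 : Tendsto (fun n => 2 * T.ip (T.ce (D n) (x0 V s K N)) (y - x0 V s K N)) atTop
      (𝓝 0) := by
    have := aop1 h.one h.s1 h.s2 h.s0 (h.haar.alg Pr.one) h.free vH (wa1_genX hv)
      (fun a ha => h.haar.comm (wa1_genX hv) ha) ((hD.ac h hv mx).star gw vH.su vH.us)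
      (gw.sub my (sub_gen (Or.inl mx))) x1'
    simpa [ip] using ((continuous_re.tendsto _).comp this).const_mul 2
  have L3 := hD.wa1_q h hv vH (f := fun _ => zp V) (fun p => ⟨_, AC.const
    (sub_gen (Or.inl (wa1_zp p).1)) (h.haar.comm (wa1_genX hv) (wa1_zp p).1)⟩) h1 s K N
  have L4 := hD.wa1_q h hv vH (f := fun n p => T.ce (D n) (zp V p))
    (fun p => ⟨_, hD.ac h hv (wa1_zp p).1⟩) (fun p p' => (h1 p p').congr fun n =>
      ((hD.alg n).ce_tau _ ((hD.alg n).star ((hD.alg n).ce_mem _))).symm) s K N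
  simp only [ip_self] at L4
  have hQ : QQ u K N (ka s K) ≤ m1 s K N := by
    have l := (L4.sub (L3.const_mul 2)).add_const (m1 s K N)
    have := ge_of_tendsto' l (b := 0) fun n => by
      rw [← n1, sub_add_eq_add_sub, ← sub_add_eq_add_sub, ← l2_sub_sq]
      positivity
    linarith
  have p2 : 0 ≤ m2 s K N := by rw [← n2]; positivity
  have sum : m0 s K N + m1 s K N + m2 s K N = ∑ i ∈ range N, cf i ^ 2 / 2 := by rw [m2]; ring
  have tl : 0 ≤ 1 - ∑ i ∈ range N, cf i ^ 2 / 2 := by rw [← tail]; positivity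
  have lt := wa1_num (a0 := m0 s K N) u0 u1 hm t0 t1 t2 p2 (by linarith) (by linarith) w3 w4
    G0 G1 hQ
  have LB := (((((L1.add L2).add (L3.const_mul 2)).sub L4).sub
    (L4.const_mul (u 0 ^ 2 / 12))).sub_const (u 0 ^ 2 / 12 * m1 s K N)).sub
      (((L4.const_mul 2).const_add (1 + 2 * m0 s K N)).const_mul t)
  filter_upwards [LB.eventually (lt_mem_nhds lt)] with n hn
  have A := hD.alg n
  have md : x1 (fun p => T.ce (D n) (zp V p)) σ s K N ∈ D n :=
    A.sum _ fun i _ => A.smul _ (A.sum _ fun j _ => A.add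
      (A.mul (A.mul (A.ce_mem _) (hD.mem n)) (A.ce_mem _))
      (A.mul (A.mul (A.ce_mem _) (hD.mem n)) (A.ce_mem _)))
  generalize x1 (fun p => T.ce (D n) (zp V p)) σ s K N = d at md hn
  generalize x1 (zp V) σ s K N = z at n1 n2 hn
  have low := A.ce_lower Y (A.add (A.ce_mem (x0 V s K N)) md)
  have i1 := A.ce_ip (x0 V s K N) (A.ce_mem (x0 V s K N))
  have i2 := A.ce_ip (x0 V s K N) md
  have c0 := A.ce_l2 (x0 V s K N)
  generalize T.ce (D n) (x0 V s K N) = a at low i1 i2 c0 hn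
  generalize x0 V s K N = x at low i1 i2 c0 hn n0 n2
  rw [ip_self] at i1
  have j1 := (abs_le.1 (ip_le (T := T) d (y - x - z))).1
  have j2 := (abs_le.1 (ip_le (T := T) (a + d) (Y - y))).1
  have j3 := wa1_add (T := T) a d
  have j4 := l2_add_sq (T := T) a d
  have k1 : ‖T.ι (y - x - z)‖ ^ 2 ≤ (u 0 ^ 2 / 12) ^ 2 * m1 s K N := n2.trans_le w4
  have k2 : ‖T.ι (Y - y)‖ ≤ t := abs_le_of_sq_le_sq' (by linarith) t0.le |>.2
  have k3 : 2 * (‖T.ι d‖ * ‖T.ι (y - x - z)‖)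
      ≤ u 0 ^ 2 / 12 * ‖T.ι d‖ ^ 2 + u 0 ^ 2 / 12 * m1 s K N := by
    refine le_of_mul_le_mul_left ?_ β0
    nlinarith [sq_nonneg (u 0 ^ 2 / 12 * ‖T.ι d‖ - ‖T.ι (y - x - z)‖)]
  have k4 : 2 * (‖T.ι (a + d)‖ * ‖T.ι (Y - y)‖) ≤ t * (1 + 2 * m0 s K N + 2 * ‖T.ι d‖ ^ 2) := by
    have a1 : ‖T.ι a‖ ^ 2 ≤ m0 s K N := by rw [← n0]; gcongr
    have a2 : 2 * ‖T.ι (a + d)‖ ≤ 1 + 2 * m0 s K N + 2 * ‖T.ι d‖ ^ 2 := by
      nlinarith [sq_nonneg (‖T.ι a‖ + ‖T.ι d‖ - 1), sq_nonneg (‖T.ι a‖ - ‖T.ι d‖)]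
    calc 2 * (‖T.ι (a + d)‖ * ‖T.ι (Y - y)‖) ≤ 2 * (‖T.ι (a + d)‖ * t) := by gcongr
      _ = t * (2 * ‖T.ι (a + d)‖) := by ring
      _ ≤ _ := by gcongr
  simp only [ip_sub_r, ip_add_l] at j1 j2 low hn
  rw [ip_comm d a] at i2
  linarith

/-- The gain. -/
theorem Asy.gain {c : ℝ} (hc : Tendsto (fun n => ‖T.ι (T.ce (D n) (T.eps V))‖ ^ 2) atTop (𝓝 c))
    (c1 : c < 1) : ∃ g > 0, ∀ η > 0, ∃ m : ℕ × ℕ, Odd m.2 ∧ ang m ≤ η ∧
      ∃ᶠ n in atTop, c + g ≤ ‖T.ι (T.ce (D n) (T.eps ((rt σ (-ang m) * V) ^ m.2)))‖ ^ 2 := by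
  obtain ⟨φ, u, hφ, he, hs, u0, h1, h2⟩ := hD.gram h hc
  have hD' : T.Asy σ V fun n => D (φ n) := ⟨fun _ => hD.alg _, fun _ => hD.sub _,
    fun _ => hD.mem _, hD.lim.comp hφ.tendsto_atTop⟩
  obtain ⟨g, hg, H⟩ := hD'.wa1_gain h he hs (by linarith) h1 h2
  refine ⟨g, hg, fun η hη => ?_⟩
  obtain ⟨m, a, b, l⟩ := H η hη
  rw [u0, sub_sub_cancel] at l
  exact ⟨m, a, b, hφ.tendsto_atTop.frequently l.frequently⟩

end asy

end TW

end Pool.Agent.Lib.MP_263241_an
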