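import Pool.Agent.Lib.MP_263241_an.WA1

/-! Absorption of the sign. -/

namespace Pool.Agent.Lib.MP_263241_an

open Filter Topology

variable {R H : Type*} [CStarAlgebra R] [NormedAddCommGroup H] [InnerProductSpace ℂ H]

namespace TW

variable {T : TW R H} {σ V : R}

variable (T) in
/-- The captured mass of the sign after the moves `L`. -/
noncomputable def cp (md : Bool) (σ : R) (L : List (ℕ × ℕ)) (V : R) : ℝ :=
  ‖T.ι (T.ce (T.gen {1, XX (T.run md σ L V), σ}) (T.eps V))‖ ^ 2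

theorem wa2_conj {g : R} (g1 : star g * g = 1) (z : R) : ‖T.ι (g * z * star g)‖ = ‖T.ι z‖ := by
  have h := T.tau_sq (g * z * star g)
  have e : star (g * z * star g) * (g * z * star g) = g * (star z * (star g * g) * z * star g) := by
    simp only [star_mul, star_star, mul_assoc]
  rw [e, T.tau_comm, g1, mul_one, mul_assoc, g1, mul_one, T.tau_sq] at h
  exact ((sq_eq_sq₀ (norm_nonneg _) (norm_nonneg _)).1 (by exact_mod_cast h)).symm

theorem wa2_sym {s : R} (h1 : star s = s) (h2 : s * s = 1) : ‖s‖ ≤ 1 := by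
  have h := CStarRing.norm_star_mul_self (x := s)
  rw [h1, h2] at h
  nlinarith [norm_nonneg s, (Pr.one (R := R)).norm_le]

theorem wa2_eps (h : T.St σ V) : ‖T.ι (T.eps V)‖ ^ 2 = 1 := by
  have e := T.tau_sq (T.eps V)
  rw [h.haar.eps_star h.one, h.haar.eps_sq h.one, h.one] at e
  exact_mod_cast e.symm

theorem wa2_XX (h : T.St σ V) : ‖XX V‖ ≤ 2 := by
  have := h.haar.norm_le Pr.one
  refine (norm_add_le _ _).trans ?_
  rw [_root_.norm_star]
  linarith

theorem wa2_mem {A : Set R} (hA : T.IsW A) (hV : V ∈ A) : XX V ∈ A := hA.add hV (hA.star hV)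

omit [CStarAlgebra R] in
theorem wa2_r2 (a b : R) : Set.range ![a, b] = {a, b} := Matrix.range_cons_cons_empty a b _

omit [CStarAlgebra R] in
theorem wa2_r3 (a b c : R) : Set.range ![a, b, c] = {a, b, c} := by
  rw [Matrix.range_cons, wa2_r2, Set.singleton_union]

theorem wa2_cp (h : T.St σ V) (md : Bool) (L : List (ℕ × ℕ)) : T.cp md σ L V ≤ 1 :=
  (pow_le_pow_left₀ (norm_nonneg _) ((gen1_alg _).ce_l2 _) 2).trans_eq (wa2_eps h)

theorem St.cp_eq (h : T.St σ V) {W : R} (h' : T.St σ W) (md : Bool) {L : List (ℕ × ℕ)}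
    (hL : Adm L) : T.cp md σ L V = T.cp md σ L W := by
  have hG := h.gr h'
  have hV : (V, W) ∈ (T.prod T).gen {1, (V, W), (σ, σ)} := sub_gen (by simp)
  have hσ : (σ, σ) ∈ (T.prod T).gen {1, (V, W), (σ, σ)} := sub_gen (by simp)
  have hS : ({1, (XX (T.run md σ L V), XX (T.run md σ L W)), (σ, σ)} : Set (R × R)) ⊆
      (T.prod T).gen {1, (V, W), (σ, σ)} := by
    rintro _ (rfl | rfl | rfl)
    exacts [hG.alg.one, wa2_mem hG.alg.toIsW (hG.run h h' hV hσ hL), hσ]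
  have h1 := hG.ce hS (gen1_alg _) (hG.eps h.one h.haar hV)
  simp only [Set.image_insert_eq, Set.image_singleton, Prod.fst_one, Prod.snd_one] at h1
  rw [cp, cp, hG.l2' (hG.alg.toIsW.gen_le hS h1)]

theorem St.cp_cons (h : T.St σ V) (md : Bool) {m : ℕ × ℕ} (hm : Odd m.2) {L : List (ℕ × ℕ)}
    (hL : Adm L) : T.cp md σ (m :: L) V = ‖T.ι (T.ce (T.gen {1, XX (T.run md σ L V), σ})
      (T.eps ((rt σ (-ang m) * V) ^ m.2)))‖ ^ 2 := by
  obtain ⟨h1, h2, h3⟩ := h.um (md := md) hm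
  have hD := gen1_alg (T := T) {XX (T.run md σ L V), σ}
  have hR := rt_mem hD.toIsSub hD.one (sub_gen (by simp) : σ ∈ _) (ang m / 2)
  rw [h.cp_eq h1 md (List.forall_mem_cons.2 ⟨hm, hL⟩), cp, TW.run, h2, h3,
    hD.ce_mul_r (hD.star hR), hD.ce_mul_l hR,
    wa2_conj (by rw [rt_star h.s1, ← rt_add h.s2, neg_add_cancel, rt_zero])]

/-- Small moves capture almost all of the sign. -/
theorem St.abs (h : T.St σ V) (md : Bool) {δ : ℝ} (hδ : 0 < δ) :
    ∃ L, Adm L ∧ disp L ≤ δ ∧ 1 - δ ≤ T.cp md σ L V := by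
  by_contra hn
  let S : Set ℝ := {t | ∀ η > 0, ∃ L, Adm L ∧ disp L ≤ η ∧ t ≤ T.cp md σ L V}
  have h0 : (0 : ℝ) ∈ S := fun η hη =>
    ⟨[], fun _ hm => (List.not_mem_nil hm).elim, hη.le, by unfold cp; positivity⟩
  have hb : BddAbove S := ⟨1, fun t ht =>
    let ⟨L, _, _, hL⟩ := ht 1 one_pos
    hL.trans (wa2_cp h md L)⟩
  have hex : ∀ n : ℕ, ∃ L, Adm L ∧ disp L ≤ 1 / ((n : ℝ) + 1) ∧
      sSup S - 1 / ((n : ℝ) + 1) ≤ T.cp md σ L V := fun n => by
    obtain ⟨t, ht, h1⟩ := exists_lt_of_lt_csSup ⟨0, h0⟩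
      (sub_lt_self (sSup S) (Nat.one_div_pos_of_nat (n := n)))
    obtain ⟨L, h2, h3, h4⟩ := ht _ (Nat.one_div_pos_of_nat (n := n))
    exact ⟨L, h2, h3, h1.le.trans h4⟩
  choose L hL1 hL2 hL3 using hex
  obtain ⟨c, -, φ, hφ, hc⟩ := (isCompact_Icc (a := (0 : ℝ)) (b := 1)).tendsto_subseq
    (x := fun n => T.cp md σ (L n) V) fun n => ⟨by unfold cp; positivity, wa2_cp h md _⟩
  have h1 : Tendsto (fun n => 1 / ((φ n : ℝ) + 1)) atTop (𝓝 0) :=
    tendsto_one_div_add_atTop_nhds_zero_nat.comp hφ.tendsto_atTop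
  have h2 : sSup S ≤ c := le_of_tendsto_of_tendsto'
    (by simpa using h1.const_sub (sSup S)) hc fun n => hL3 (φ n)
  have h3 : c < 1 := by
    by_contra h3
    obtain ⟨n, h4, h5⟩ := ((h1.eventually (ge_mem_nhds hδ)).and
      (hc.eventually (le_mem_nhds (show 1 - δ < c by linarith)))).exists
    exact hn ⟨_, hL1 _, (hL2 _).trans h4, h5⟩
  have hA : T.Asy σ V fun n => T.gen {1, XX (T.run md σ (L (φ n)) V), σ} := by
    refine ⟨fun n => gen1_alg _, fun n => (gen_w _).gen_le ?_, fun n => sub_gen (by simp), ?_⟩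
    · rintro _ (rfl | rfl | rfl)
      · exact sub_gen (by simp)
      · exact wa2_mem (gen_w _) ((h.run (md := md) (hL1 (φ n))).2.1 ▸ sub_gen (by simp))
      · exact sub_gen (by simp)
    · refine squeeze_zero (fun _ => norm_nonneg _) (fun n => ?_) (by simpa using h1.const_mul 4)
      refine ((gen1_alg _).ce_min _ (sub_gen (by simp) : XX (T.run md σ (L (φ n)) V) ∈ _)).trans
        ((l2_le h.one _).trans ?_)
      rw [norm_sub_rev]
      refine (h.run (hL1 _)).2.2.2.trans ?_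
      simpa using hL2 (φ n)
  obtain ⟨g, hg, hgain⟩ := hA.gain h hc h3
  have h4 : c + g ∈ S := fun η hη => by
    obtain ⟨m, hm, h5, h6⟩ := hgain (η / 2) (half_pos hη)
    obtain ⟨n, h7, h8⟩ := (h6.and_eventually (h1.eventually (ge_mem_nhds (half_pos hη)))).exists
    refine ⟨m :: L (φ n), List.forall_mem_cons.2 ⟨hm, hL1 _⟩, ?_, ?_⟩
    · rw [disp_cons]
      linarith [hL2 (φ n)]
    · rwa [h.cp_cons md hm (hL1 _)]
  linarith [le_csSup hb h4]

theorem St.abs_step (h : T.St σ V) (md : Bool) {z : R} (hz : z ∈ T.gen {1, V, σ}) {ε η : ℝ}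
    (hε : 0 < ε) (hη : 0 < η) : ∃ L, Adm L ∧ disp L ≤ η ∧ ∃ δ > 0, ∀ X, ‖X‖ ≤ 2 →
      ‖X - XX (T.run md σ L V)‖ ≤ δ → ‖T.ι (z - T.ce (T.gen {1, X, σ}) z)‖ ≤ ε := by
  have hσ := wa2_sym h.s1 h.s2
  obtain ⟨a, ha, hsa⟩ := stab_dist (T := T) (x := ![XX V, T.eps V, σ]) (u := z)
    (fun i => by fin_cases i; exacts [XX_sa V, h.haar.eps_star h.one, h.s1])
    ((gen_w _).gen_le (by
      rw [wa2_r3]
      rintro _ (rfl | rfl | rfl)
      · exact sub_gen (by simp)
      · exact gen_mono (by rintro _ (rfl | rfl | rfl) <;> simp) (h.haar.mem_gen_eps h.one)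
      · exact sub_gen (by simp)) hz) 2 hε
  obtain ⟨L, hL, h1, h2⟩ := h.abs md (δ := min η (min (a / 8) ((a / 2) ^ 2))) (by positivity)
  have h3 := h1.trans (min_le_left _ _)
  have h4 := h1.trans ((min_le_right _ _).trans (min_le_left _ _))
  have h5 : min η (min (a / 8) ((a / 2) ^ 2)) ≤ (a / 2) ^ 2 :=
    (min_le_right _ _).trans (min_le_right _ _)
  have h6 := (h.run (md := md) hL).2.2.2
  have hD := gen1_alg (T := T) {XX (T.run md σ L V), σ}
  have h7 : ‖T.ι (T.eps V - T.ce (T.gen {1, XX (T.run md σ L V), σ}) (T.eps V))‖ ≤ a / 2 := by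
    refine le_of_sq_le_sq ?_ (by positivity)
    rw [hD.ce_pyth, wa2_eps h]
    rw [cp] at h2
    linarith
  obtain ⟨b, hb, hsb⟩ := stab_dist (T := T) (x := ![XX (T.run md σ L V), σ])
    (fun i => by fin_cases i; exacts [XX_sa _, h.s1])
    (by rw [wa2_r2]; exact hD.ce_mem (T.eps V)) 2 (half_pos ha)
  refine ⟨L, hL, h3, min b (a / 2), by positivity, fun X hX hX' => ?_⟩
  have hE := gen1_alg (T := T) {X, σ}
  have h8 := hsb ![X, σ] (fun i => by fin_cases i; exacts [hX, hσ.trans one_le_two]) fun i => by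
    fin_cases i
    · exact (l2_le h.one _).trans (hX'.trans (min_le_left _ _))
    · simpa using hb.le
  rw [wa2_r2] at h8
  have h9 := hsa ![X, T.ce (T.gen {1, X, σ}) (T.eps V), σ]
    (fun i => by
      fin_cases i
      exacts [hX, (hE.ce_norm _).trans
        ((wa2_sym (h.haar.eps_star h.one) (h.haar.eps_sq h.one)).trans one_le_two),
        hσ.trans one_le_two])
    fun i => by
      fin_cases i
      · refine (l2_le h.one _).trans ((norm_sub_le_norm_sub_add_norm_sub _ _ _).trans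
          ((add_le_add (hX'.trans (min_le_right _ _)) h6).trans ?_))
        linarith
      · change ‖T.ι (T.ce (T.gen {1, X, σ}) (T.eps V) - T.eps V)‖ ≤ a
        rw [map_sub, norm_sub_rev, ← map_sub]
        refine (hE.ce_min _ (hE.ce_mem
          (T.ce (T.gen {1, XX (T.run md σ L V), σ}) (T.eps V)))).trans ?_
        rw [map_sub] at h7 h8 ⊢
        exact (norm_sub_le_norm_sub_add_norm_sub _ _ _).trans
          ((add_le_add h7 h8).trans (add_halves a).le)
      · simpa using ha.le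
  refine (hE.ce_min _ (hE.toIsW.gen_le ?_ ((gen1_alg _).ce_mem z))).trans h9
  rw [wa2_r3]
  rintro _ (rfl | rfl | rfl | rfl)
  exacts [hE.one, sub_gen (by simp), hE.ce_mem _, sub_gen (by simp)]

/-- In the limit the real part and `σ` generate everything. -/
theorem St.absorb (h : T.St σ V) (md : Bool) : ∃ (L : ℕ → List (ℕ × ℕ)) (X : R), (∀ n, Adm (L n)) ∧
    Tendsto (fun n => XX (T.run md σ (L n) V)) atTop (𝓝 X) ∧ V ∈ T.gen {1, X, σ} := by
  have step : ∀ (n : ℕ) (p : {p : List (ℕ × ℕ) × ℝ // Adm p.1 ∧ 0 < p.2}),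
      ∃ q : {p : List (ℕ × ℕ) × ℝ // Adm p.1 ∧ 0 < p.2}, q.1.2 ≤ p.1.2 / 2 ∧
        ‖XX (T.run md σ q.1.1 V) - XX (T.run md σ p.1.1 V)‖ ≤ p.1.2 / 2 ∧
        ∀ X, ‖X‖ ≤ 2 → ‖X - XX (T.run md σ q.1.1 V)‖ ≤ q.1.2 →
          ‖T.ι (V - T.ce (T.gen {1, X, σ}) V)‖ ≤ 1 / ((n : ℝ) + 1) := by
    rintro n ⟨⟨L, r⟩, hL, hr⟩
    obtain ⟨h1, h2, -⟩ := h.run (md := md) hL
    obtain ⟨L', h3, h4, δ, hδ, h5⟩ := h1.abs_step md (z := V) (h2 ▸ sub_gen (by simp))
      (Nat.one_div_pos_of_nat (n := n)) (η := r / 8) (by positivity)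
    refine ⟨⟨(L ++ L', min δ (r / 2)), List.forall_mem_append.2 ⟨hL, h3⟩, by positivity⟩,
      min_le_right _ _, ?_, fun X hX hX' => h5 X hX ?_⟩
    · simp only [run_append]
      linarith [(h1.run (md := md) h3).2.2.2]
    · simp only [run_append] at hX'
      exact hX'.trans (min_le_left _ _)
  choose f hf1 hf2 hf3 using step
  let s : ℕ → {p : List (ℕ × ℕ) × ℝ // Adm p.1 ∧ 0 < p.2} := fun n =>
    n.rec ⟨([], 1), fun _ hm => (List.not_mem_nil hm).elim, one_pos⟩ f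
  have hs : ∀ n, s (n + 1) = f n (s n) := fun _ => rfl
  have h1 : ∀ n m, n ≤ m → ‖XX (T.run md σ (s m).1.1 V) - XX (T.run md σ (s n).1.1 V)‖ ≤
      (s n).1.2 - (s m).1.2 := by
    intro n m hm
    induction m, hm using Nat.le_induction with
    | base => simp
    | succ m _ ih =>
      refine (norm_sub_le_norm_sub_add_norm_sub _ _ _).trans
        ((add_le_add (hf2 m (s m)) ih).trans ?_)
      linarith [hf1 m (s m), hs m ▸ le_refl (s (m + 1)).1.2]
  have h2 : ∀ n m, n ≤ m → ‖XX (T.run md σ (s m).1.1 V) - XX (T.run md σ (s n).1.1 V)‖ ≤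
      (s n).1.2 := fun n m hm => (h1 n m hm).trans (sub_le_self _ (s m).2.2.le)
  have h3 : ∀ n, (s n).1.2 ≤ (1 / 2) ^ n := by
    intro n
    induction n with
    | zero => exact le_of_eq (pow_zero _).symm
    | succ n ih =>
      rw [hs, pow_succ]
      linarith [hf1 n (s n)]
  obtain ⟨X, hX⟩ := cauchySeq_tendsto_of_complete (cauchySeq_of_le_tendsto_0'
    (s := fun n => XX (T.run md σ (s n).1.1 V)) (fun n => (1 / 2) ^ n)
    (fun n m hm => by rw [dist_comm, dist_eq_norm]; exact (h2 n m hm).trans (h3 n))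
    (tendsto_pow_atTop_nhds_zero_of_lt_one (by norm_num) (by norm_num)))
  refine ⟨fun n => (s n).1.1, X, fun n => (s n).2.1, hX, (gen_w _).toIsSub.of_approx fun ε hε => ?_⟩
  obtain ⟨n, hn⟩ := exists_nat_one_div_lt hε
  refine ⟨_, (gen1_alg _).ce_mem V, (hf3 n (s n) X ?_ ?_).trans hn.le⟩
  · exact le_of_tendsto' hX.norm fun m => wa2_XX (h.run (s m).2.1).1
  · exact le_of_tendsto (hX.sub_const _).norm
      ((eventually_ge_atTop (n + 1)).mono fun m hm => h2 (n + 1) m hm)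

end TW

end Pool.Agent.Lib.MP_263241_an
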