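import Pool.Agent.Lib.MP_263241_an.VD

/-! The real inner product, operator norms from `L²` information, conditional expectations. -/

namespace Pool.Agent.Lib.MP_263241_an

open Filter Topology
open scoped InnerProductSpace ComplexConjugate

variable {R H : Type*} [CStarAlgebra R] [NormedAddCommGroup H] [InnerProductSpace ℂ H]

namespace TW

variable (T : TW R H)

/-- The real inner product. -/
noncomputable def ip (x y : R) : ℝ := (T.tau (star x * y)).re

open Classical in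
/-- The conditional expectation onto `D`. -/
noncomputable def ce (D : Set R) (x : R) : R :=
  if h : ∃ y ∈ D, ∀ d ∈ D, T.tau (d * y) = T.tau (d * x) then h.choose else 0

/-- No eigenvectors in the corner of `e`. -/
def NoEig (e x : R) : Prop := ∀ (l : ℝ) z, e * z = z → x * z = (l : ℂ) • z → z = 0

variable {T}

/-! ### The real inner product -/

theorem ip_eq (x y : R) : T.ip x y = (⟪T.ι x, T.ι y⟫_ℂ).re := by
  rw [ip, T.inner_tau]

theorem ip_comm (x y : R) : T.ip x y = T.ip y x := by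
  rw [ip_eq, ip_eq, ← inner_conj_symm, Complex.conj_re]

theorem ip_self (x : R) : T.ip x x = ‖T.ι x‖ ^ 2 := by
  rw [ip, T.tau_sq, Complex.ofReal_re]

theorem ip_add_l (x y z : R) : T.ip (x + y) z = T.ip x z + T.ip y z := by
  simp only [ip_eq, map_add, inner_add_left, Complex.add_re]

theorem ip_add_r (x y z : R) : T.ip x (y + z) = T.ip x y + T.ip x z := by
  simp only [ip_eq, map_add, inner_add_right, Complex.add_re]

theorem ip_sub_l (x y z : R) : T.ip (x - y) z = T.ip x z - T.ip y z := by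
  simp only [ip_eq, map_sub, inner_sub_left, Complex.sub_re]

theorem ip_sub_r (x y z : R) : T.ip x (y - z) = T.ip x y - T.ip x z := by
  simp only [ip_eq, map_sub, inner_sub_right, Complex.sub_re]

theorem ip_smul_l (c : ℝ) (x y : R) : T.ip ((c : ℂ) • x) y = c * T.ip x y := by
  rw [ip_eq, ip_eq, map_smul, inner_smul_left, Complex.conj_ofReal, Complex.re_ofReal_mul]

theorem ip_smul_r (c : ℝ) (x y : R) : T.ip x ((c : ℂ) • y) = c * T.ip x y := by
  rw [ip_eq, ip_eq, map_smul, inner_smul_right, Complex.re_ofReal_mul]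

theorem ip_le (x y : R) : |T.ip x y| ≤ ‖T.ι x‖ * ‖T.ι y‖ := by
  rw [ip_eq]
  exact (Complex.abs_re_le_norm _).trans (norm_inner_le_norm _ _)

theorem l2_add_sq (x y : R) : ‖T.ι (x + y)‖ ^ 2 = ‖T.ι x‖ ^ 2 + 2 * T.ip x y + ‖T.ι y‖ ^ 2 := by
  rw [← ip_self, ← ip_self, ← ip_self, ip_add_l, ip_add_r, ip_add_r, ip_comm y x]
  ring

theorem l2_sub_sq (x y : R) : ‖T.ι (x - y)‖ ^ 2 = ‖T.ι x‖ ^ 2 - 2 * T.ip x y + ‖T.ι y‖ ^ 2 := by
  rw [← ip_self, ← ip_self, ← ip_self, ip_sub_l, ip_sub_r, ip_sub_r, ip_comm y x]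
  ring

theorem tau_mul_le (x y : R) : ‖T.tau (x * y)‖ ≤ ‖T.ι x‖ * ‖T.ι y‖ := by
  have h := T.inner_tau (star x) y
  rw [star_star] at h
  rw [← h, ← T.norm_star x]
  exact norm_inner_le_norm _ _

theorem l2_one (h1 : T.tau 1 = 1) : ‖T.ι 1‖ = 1 := by
  have h := T.tau_sq 1
  rw [star_one, one_mul, h1] at h
  have h2 : ‖T.ι 1‖ ^ 2 = 1 := by exact_mod_cast h.symm
  exact (pow_eq_one_iff_of_nonneg (norm_nonneg _) two_ne_zero).1 h2

theorem l2_le (h1 : T.tau 1 = 1) (x : R) : ‖T.ι x‖ ≤ ‖x‖ := by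
  have h := T.norm_mul x 1
  rwa [mul_one, l2_one h1, mul_one] at h

theorem tau_le (h1 : T.tau 1 = 1) (x : R) : ‖T.tau x‖ ≤ ‖T.ι x‖ := by
  have h := tau_mul_le (T := T) 1 x
  rwa [one_mul, l2_one h1, one_mul] at h

/-! ### Operator norms from `L²` information -/

theorem waa_sa {e x : R} (h : SA e x) (g : ℝ → ℝ) :
    star (Ph e x fun t => (g t : ℂ)) = Ph e x fun t => (g t : ℂ) := by
  rw [← h.ph_star]
  exact h.ph_congr fun t _ => Complex.conj_ofReal _

theorem waa_sq {e x : R} (h : SA e x) {g : ℝ → ℝ} (hg : Continuous g) :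
    (T.tau (Ph e x fun t => ((g t * g t : ℝ) : ℂ))).re = ‖T.ι (Ph e x fun t => (g t : ℂ))‖ ^ 2 := by
  rw [← ip_self, ip, waa_sa h, ← h.ph_mul (by fun_prop) (by fun_prop)]
  simp only [Complex.ofReal_mul]

theorem waa_nonneg {e x : R} (h : SA e x) {g : ℝ → ℝ} (hg : Continuous g)
    (h0 : ∀ t : ℝ, (t : ℂ) ∈ spectrum ℂ x → 0 ≤ g t) :
    0 ≤ (T.tau (Ph e x fun t => (g t : ℂ))).re := by
  have h1 := waa_sq (T := T) h (g := fun t => √(g t)) (by fun_prop)
  rw [h.ph_congr (g := fun t => (g t : ℂ)) fun t ht => by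
    rw [Real.mul_self_sqrt (h0 t ht)]] at h1
  rw [h1]
  positivity

theorem waa_spec {x : R} {t : ℝ} (ht : (t : ℂ) ∈ spectrum ℂ (star x * x)) : 0 ≤ t :=
  spectrum_star_mul_self_nonneg t ((spectrum.algebraMap_mem_iff ℂ).1 ht)

/-- If the part of the spectrum above `s` is invisible then the norm is at most `s`. -/
theorem waa_cut {e x : R} (h : SA e (star x * x)) {s : ℝ} (hs : 0 ≤ s)
    (h0 : ‖T.ι (Ph e (star x * x) fun t => ((max (t - s) 0 : ℝ) : ℂ))‖ ^ 2 ≤ 0) :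
    ‖x‖ ^ 2 ≤ s := by
  have h1 : (Ph e (star x * x) fun t => ((max (t - s) 0 : ℝ) : ℂ)) = 0 :=
    T.inj _ (norm_eq_zero.1 (pow_eq_zero_iff two_ne_zero |>.1 (le_antisymm h0 (sq_nonneg _))))
  have h2 : star x * x = Ph e (star x * x) fun t => (t : ℂ) - ((max (t - s) 0 : ℝ) : ℂ) := by
    rw [SA.ph_sub (by fun_prop) (by fun_prop), h1, sub_zero, h.ph_id]
  have h3 : ‖star x * x‖ ≤ s := by
    rw [h2]
    refine h.ph_norm hs fun t ht => ?_
    have h4 := waa_spec ht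
    rw [← Complex.ofReal_sub, Complex.norm_real, Real.norm_eq_abs, abs_le]
    rcases le_total (t - s) 0 with h5 | h5
    · rw [max_eq_right h5]
      constructor <;> linarith
    · rw [max_eq_left h5]
      constructor <;> linarith
  rwa [CStarRing.norm_star_mul_self, ← sq] at h3

theorem norm_le_of_l2 {p : R} {D : Set R} (hD : T.Alg p D) {x : R} (hx : x ∈ D) {C : ℝ}
    (hC : 0 ≤ C) (h : ∀ y ∈ D, ‖T.ι (x * y)‖ ≤ C * ‖T.ι y‖) : ‖x‖ ≤ C := by
  have sa : SA p (star x * x) :=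
    ⟨hD.pr, by rw [star_mul, star_star], hD.l (hD.mul (hD.star hx) hx)⟩
  refine le_of_pow_le_pow_left₀ two_ne_zero hC (waa_cut (T := T) sa (sq_nonneg C) ?_)
  obtain ⟨y, hy⟩ : ∃ y, y = Ph p (star x * x) fun t => ((√(max (t - C ^ 2) 0) : ℝ) : ℂ) := ⟨_, rfl⟩
  have h1 := pow_le_pow_left₀ (norm_nonneg _)
    (h y (hy ▸ hD.ph_mem sa hD.one (hD.mul (hD.star hx) hx) _)) 2
  have h2 : star (x * y) * (x * y) = (Ph p (star x * x) fun t =>
      ((max (t - C ^ 2) 0 * max (t - C ^ 2) 0 : ℝ) : ℂ)) + ((C ^ 2 : ℝ) : ℂ) • (star y * y) := by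
    rw [star_mul, mul_assoc, ← mul_assoc (star x), hy, waa_sa sa]
    nth_rewrite 2 [← sa.ph_id]
    rw [← sa.ph_mul (by fun_prop) (by fun_prop), ← sa.ph_mul (by fun_prop) (by fun_prop),
      ← sa.ph_mul (by fun_prop) (by fun_prop), ← SA.ph_smul _ (by fun_prop),
      ← SA.ph_add (by fun_prop) (by fun_prop)]
    refine sa.ph_congr fun t _ => ?_
    have e1 := Real.mul_self_sqrt (le_max_right (t - C ^ 2) 0)
    have e2 : t * max (t - C ^ 2) 0 =
        max (t - C ^ 2) 0 * max (t - C ^ 2) 0 + C ^ 2 * max (t - C ^ 2) 0 := by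
      rcases le_total (t - C ^ 2) 0 with h5 | h5
      · rw [max_eq_right h5]
        ring
      · rw [max_eq_left h5]
        ring
    have e3 : √(max (t - C ^ 2) 0) * (t * √(max (t - C ^ 2) 0)) =
        max (t - C ^ 2) 0 * max (t - C ^ 2) 0
          + C ^ 2 * (√(max (t - C ^ 2) 0) * √(max (t - C ^ 2) 0)) := by
      rw [mul_left_comm, e1, e2]
    exact_mod_cast e3
  have h3 := congrArg (fun z => (T.tau z).re) h2
  simp only [map_add, map_smul, Complex.add_re, smul_eq_mul, Complex.re_ofReal_mul, T.tau_sq,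
    Complex.ofReal_re] at h3
  rw [waa_sq sa (by fun_prop)] at h3
  rw [mul_pow] at h1
  linarith

theorem Lim.norm_le {a : ℕ → R} {x : R} (h : T.Lim a x) {C : ℝ} (hC : ∀ n, ‖a n‖ ≤ C) :
    ‖x‖ ≤ C := by
  refine norm_le_of_l2 (T := T) (p := 1) (D := Set.univ)
    ⟨univ_w, Pr.one, trivial, fun _ => one_mul _⟩ trivial ((norm_nonneg _).trans (hC 0))
    fun y _ => ?_
  exact le_of_tendsto' (Tendsto.norm (h.mulR y)) fun n =>
    (T.norm_mul _ _).trans (mul_le_mul_of_nonneg_right (hC n) (norm_nonneg _))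

theorem norm_le_of_moments {x : R} {C r : ℝ} (hr : 0 ≤ r)
    (h : ∀ n : ℕ, ‖T.tau ((star x * x) ^ (n + 1))‖ ≤ C * (r ^ 2) ^ (n + 1)) : ‖x‖ ≤ r := by
  have sa : SA 1 (star x * x) := ⟨Pr.one, by rw [star_mul, star_star], one_mul _⟩
  have pw : ∀ n : ℕ, (star x * x) ^ (n + 1) =
      Ph 1 (star x * x) fun t => ((t ^ (n + 1) : ℝ) : ℂ) := by
    intro n
    induction n with
    | zero => simp only [zero_add, pow_one, sa.ph_id]
    | succ n ih =>
      rw [pow_succ, ih]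
      nth_rewrite 2 [← sa.ph_id]
      rw [← sa.ph_mul (by fun_prop) (by fun_prop)]
      exact sa.ph_congr fun t _ => by rw [pow_succ t (n + 1), Complex.ofReal_mul]
  refine le_of_pow_le_pow_left₀ two_ne_zero hr (le_of_forall_gt_imp_ge_of_dense fun s hs => ?_)
  have hs0 : 0 < s := (sq_nonneg r).trans_lt hs
  refine waa_cut (T := T) sa hs0.le ?_
  obtain ⟨M, hM⟩ : ∃ M, M = ‖star x * x‖ := ⟨_, rfl⟩
  have key : ∀ n : ℕ, ‖T.ι (Ph 1 (star x * x) fun t => ((max (t - s) 0 : ℝ) : ℂ))‖ ^ 2 ≤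
      M ^ 2 * C * (r ^ 2 / s) ^ (n + 1) := by
    intro n
    have h1 := waa_nonneg (T := T) sa
      (g := fun t => M ^ 2 / s ^ (n + 1) * t ^ (n + 1) - max (t - s) 0 * max (t - s) 0)
      (by fun_prop) fun t ht => by
        have a1 := waa_spec ht
        have a2 : t ≤ M := hM ▸ (le_abs_self t).trans (SA.spec_le ht)
        rcases le_total (t - s) 0 with h5 | h5
        · rw [max_eq_right h5, mul_zero, sub_zero]
          positivity
        · rw [max_eq_left h5, sub_nonneg]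
          have a3 : s ^ (n + 1) ≤ t ^ (n + 1) := pow_le_pow_left₀ hs0.le (by linarith) _
          have a4 : (t - s) * (t - s) ≤ M ^ 2 := by nlinarith
          calc _ ≤ M ^ 2 / s ^ (n + 1) * s ^ (n + 1) := by
                rwa [div_mul_cancel₀ _ (by positivity)]
            _ ≤ _ := mul_le_mul_of_nonneg_left a3 (by positivity)
    have h2 : (Ph 1 (star x * x) fun t => ((M ^ 2 / s ^ (n + 1) * t ^ (n + 1)
        - max (t - s) 0 * max (t - s) 0 : ℝ) : ℂ)) =
        ((M ^ 2 / s ^ (n + 1) : ℝ) : ℂ) • (star x * x) ^ (n + 1)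
          - Ph 1 (star x * x) fun t => ((max (t - s) 0 * max (t - s) 0 : ℝ) : ℂ) := by
      rw [pw, ← SA.ph_smul _ (by fun_prop), ← SA.ph_sub (by fun_prop) (by fun_prop)]
      exact sa.ph_congr fun t _ => by rw [Complex.ofReal_sub, Complex.ofReal_mul]
    rw [h2, map_sub, map_smul, Complex.sub_re, smul_eq_mul, Complex.re_ofReal_mul,
      waa_sq sa (by fun_prop), sub_nonneg] at h1
    refine h1.trans ?_
    have h3 := mul_le_mul_of_nonneg_left ((Complex.re_le_norm _).trans (h n))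
      (show 0 ≤ M ^ 2 / s ^ (n + 1) by positivity)
    refine h3.trans (le_of_eq ?_)
    rw [div_pow]
    ring
  have lim : Tendsto (fun n : ℕ => M ^ 2 * C * (r ^ 2 / s) ^ (n + 1)) atTop (𝓝 (M ^ 2 * C * 0)) :=
    ((tendsto_pow_atTop_nhds_zero_of_lt_one (by positivity) ((div_lt_one hs0).2 hs)).comp
      (tendsto_add_atTop_nat 1)).const_mul _
  rw [mul_zero] at lim
  exact ge_of_tendsto' lim key

theorem exists_lim {a : ℕ → R} {C : ℝ} (hC : ∀ n, ‖a n‖ ≤ C)
    (h : ∀ ε > 0, ∃ N, ∀ m ≥ N, ∀ n ≥ N, ‖T.ι (a m - a n)‖ ≤ ε) : ∃ x, T.Lim a x := by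
  refine T.compl a C hC (Metric.cauchySeq_iff.2 fun ε hε => ?_)
  obtain ⟨N, hN⟩ := h (ε / 2) (half_pos hε)
  refine ⟨N, fun m hm n hn => ?_⟩
  rw [dist_eq_norm, ← map_sub]
  exact (hN m hm n hn).trans_lt (half_lt_self hε)

theorem IsSub.of_approx {V : Set R} (hV : T.IsSub V) {x : R}
    (h : ∀ ε > 0, ∃ y ∈ V, ‖T.ι (x - y)‖ ≤ ε) : x ∈ V := by
  choose y hy hy' using fun n : ℕ => h (1 / ((n : ℝ) + 1)) (by positivity)
  refine hV.lim y hy (lim_iff.2 (squeeze_zero (fun _ => norm_nonneg _) (fun n => ?_)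
    tendsto_one_div_add_atTop_nhds_zero_nat))
  rw [map_sub, norm_sub_rev, ← map_sub]
  exact hy' n

/-- Projection onto a bounded closed convex set. -/
theorem exists_proj {F : Set R} (hc : Convex ℝ F) (hn : F.Nonempty) {C : ℝ} (hb : ∀ y ∈ F, ‖y‖ ≤ C)
    (hl : ∀ (a : ℕ → R) y, (∀ n, a n ∈ F) → T.Lim a y → y ∈ F) (x : R) :
    ∃ y ∈ F, ∀ w ∈ F, T.ip (x - y) (w - y) ≤ 0 := by
  let := InnerProductSpace.rclikeToReal ℂ H
  have hK : Convex ℝ (T.ι '' F) := by
    rintro _ ⟨y, hy, rfl⟩ _ ⟨z, hz, rfl⟩ a b ha hb' hab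
    refine ⟨_, hc hy hz ha hb' hab, ?_⟩
    rw [map_add, ← Complex.coe_smul, ← Complex.coe_smul, map_smul, map_smul]
    rfl
  have hcomp : IsComplete (T.ι '' F) := by
    rw [← completeSpace_coe_iff_isComplete]
    refine Metric.complete_of_cauchySeq_tendsto fun u hu => ?_
    choose a ha ha' using fun n => (u n).2
    have hu' : CauchySeq fun n => T.ι (a n) := by
      simp only [ha']
      exact uniformContinuous_subtype_val.comp_cauchySeq hu
    obtain ⟨y, hy⟩ := T.compl a C (fun n => hb _ (ha n)) hu'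
    refine ⟨⟨T.ι y, y, hl a y ha hy, rfl⟩, tendsto_subtype_rng.2 ?_⟩
    simpa only [ha'] using hy
  obtain ⟨_, ⟨y, hy, rfl⟩, hv⟩ :=
    exists_norm_eq_iInf_of_complete_convex (hn.image T.ι) hcomp hK (T.ι x)
  refine ⟨y, hy, fun w hw => ?_⟩
  have h1 := (norm_eq_iInf_iff_real_inner_le_zero hK ⟨y, hy, rfl⟩).1 hv _ ⟨w, hw, rfl⟩
  rw [ip_eq, map_sub, map_sub]
  exact h1

/-! ### Conditional expectations -/

section ce

variable {p : R} {D : Set R} (hD : T.Alg p D)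
include hD

/-- One side of the norm bound for the nearest point of a self-adjoint ball. -/
theorem waa_side {x y : R} (hy : y ∈ D) (sy : star y = y)
    (hp : ∀ w ∈ D, star w = w → ‖w‖ ≤ ‖y‖ → T.ip (x - y) (w - y) ≤ 0) {s : ℝ}
    (hs : s = 1 ∨ s = -1) : (Ph p y fun t => ((max (s * t - ‖x‖) 0 : ℝ) : ℂ)) = 0 := by
  have sa : SA p y := ⟨hD.pr, sy, hD.l hy⟩
  have hx := norm_nonneg x
  obtain ⟨k, hk⟩ : ∃ k, k = Ph p y fun t => ((max (s * t - ‖x‖) 0 : ℝ) : ℂ) := ⟨_, rfl⟩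
  obtain ⟨g, hg⟩ : ∃ g, g = Ph p y fun t => ((√(max (s * t - ‖x‖) 0) : ℝ) : ℂ) := ⟨_, rfl⟩
  have sk : star k = k := hk ▸ waa_sa sa _
  have sg : star g = g := hg ▸ waa_sa sa _
  have gg : g * g = k := by
    rw [hg, hk, ← sa.ph_mul (by fun_prop) (by fun_prop)]
    exact sa.ph_congr fun t _ => by
      rw [← Complex.ofReal_mul, Real.mul_self_sqrt (le_max_right _ _)]
  have e1 : y - (s : ℂ) • k = Ph p y fun t => ((t - s * max (s * t - ‖x‖) 0 : ℝ) : ℂ) := by
    rw [hk]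
    nth_rewrite 1 [← sa.ph_id]
    rw [← SA.ph_smul _ (by fun_prop), ← SA.ph_sub (by fun_prop) (by fun_prop)]
    exact sa.ph_congr fun t _ => by rw [Complex.ofReal_sub, Complex.ofReal_mul]
  have h1 := hp (y - (s : ℂ) • k) (hD.sub hy (hD.smul _ (hk ▸ hD.ph_mem sa hD.one hy _)))
    (by rw [e1]; exact waa_sa sa _) (by
      rw [e1]
      refine sa.ph_norm (norm_nonneg _) fun t ht => ?_
      have a1 := abs_le.1 (SA.spec_le ht)
      rw [Complex.norm_real, Real.norm_eq_abs, abs_le]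
      rcases le_total (s * t - ‖x‖) 0 with h5 | h5
      · rw [max_eq_right h5]
        constructor <;> linarith [a1.1, a1.2]
      · rw [max_eq_left h5]
        rcases hs with rfl | rfl <;> constructor <;> linarith [a1.1, a1.2])
  have e2 : (s : ℂ) • (y * k) = k * k + ((‖x‖ : ℝ) : ℂ) • k := by
    rw [hk]
    nth_rewrite 1 [← sa.ph_id]
    rw [← sa.ph_mul (by fun_prop) (by fun_prop), ← sa.ph_mul (by fun_prop) (by fun_prop),
      ← SA.ph_smul _ (by fun_prop), ← SA.ph_smul _ (by fun_prop),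
      ← SA.ph_add (by fun_prop) (by fun_prop)]
    refine sa.ph_congr fun t _ => ?_
    have e3 : s * (t * max (s * t - ‖x‖) 0) =
        max (s * t - ‖x‖) 0 * max (s * t - ‖x‖) 0 + ‖x‖ * max (s * t - ‖x‖) 0 := by
      rcases le_total (s * t - ‖x‖) 0 with h5 | h5
      · rw [max_eq_right h5]
        ring
      · rw [max_eq_left h5]
        ring
    exact_mod_cast e3
  have a1 : s * T.ip y k = ‖T.ι k‖ ^ 2 + ‖x‖ * ‖T.ι g‖ ^ 2 := by
    have h3 := congrArg (fun z => (T.tau z).re) e2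
    simp only [map_add, map_smul, Complex.add_re, smul_eq_mul, Complex.re_ofReal_mul] at h3
    rw [← ip_self, ← ip_self, ip, ip, ip, sy, sk, sg, gg, h3]
  have a2 : |T.ip x k| ≤ ‖x‖ * ‖T.ι g‖ ^ 2 := by
    have h3 : T.ip x k = T.ip g (star x * g) := by
      rw [ip, ip, sg, ← gg, ← mul_assoc, T.tau_comm]
    have h4 := T.norm_mul (star x) g
    rw [_root_.norm_star] at h4
    rw [h3]
    refine (ip_le _ _).trans ((mul_le_mul_of_nonneg_left h4 (norm_nonneg _)).trans (le_of_eq ?_))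
    ring
  have e4 : y - (s : ℂ) • k - y = ((-s : ℝ) : ℂ) • k := by
    rw [Complex.ofReal_neg, neg_smul]
    abel
  rw [e4, ip_smul_r, ip_sub_l] at h1
  have a3 := abs_le.1 a2
  have a4 : ‖T.ι k‖ ^ 2 ≤ 0 := by
    rcases hs with rfl | rfl <;> linarith [a3.1, a3.2]
  rw [← hk]
  exact T.inj _ (norm_eq_zero.1 (pow_eq_zero_iff two_ne_zero |>.1 (le_antisymm a4 (sq_nonneg _))))

theorem waa_re (x : R) : ∃ y ∈ D, star y = y ∧ ∀ d ∈ D, star d = d → T.ip d y = T.ip d x := by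
  have hx := norm_nonneg x
  obtain ⟨y, ⟨hy, sy, ny⟩, hp⟩ := exists_proj (T := T)
    (F := {y | y ∈ D ∧ star y = y ∧ ‖y‖ ≤ ‖x‖ + 1}) (C := ‖x‖ + 1) (by
      rintro y ⟨hy, sy, ny⟩ z ⟨hz, sz, nz⟩ a b ha hb hab
      refine ⟨?_, ?_, ?_⟩
      · rw [← Complex.coe_smul, ← Complex.coe_smul]
        exact hD.add (hD.smul _ hy) (hD.smul _ hz)
      · rw [← Complex.coe_smul, ← Complex.coe_smul, star_add, star_smul, star_smul, sy, sz,
          Complex.star_def, Complex.conj_ofReal, Complex.conj_ofReal]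
      · have := convex_closedBall (0 : R) (‖x‖ + 1) (mem_closedBall_zero_iff.2 ny)
          (mem_closedBall_zero_iff.2 nz) ha hb hab
        exact mem_closedBall_zero_iff.1 this)
    ⟨0, hD.zero, star_zero R, by rw [norm_zero]; linarith⟩ (fun _ h => h.2.2)
    (fun a y ha hl => ⟨hD.lim a (fun n => (ha n).1) hl,
      hl.star.unique (by simpa only [fun n => (ha n).2.1] using hl),
      hl.norm_le fun n => (ha n).2.2⟩) x
  have sa : SA p y := ⟨hD.pr, sy, hD.l hy⟩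
  have s1 := waa_side hD hy sy (fun w hw sw nw => hp w ⟨hw, sw, nw.trans ny⟩) (.inl rfl)
  have s2 := waa_side hD hy sy (fun w hw sw nw => hp w ⟨hw, sw, nw.trans ny⟩) (.inr rfl)
  have n1 : ‖y‖ ≤ ‖x‖ := by
    have e1 : y = Ph p y fun t => (t : ℂ) - ((max (1 * t - ‖x‖) 0 : ℝ) : ℂ)
        + ((max (-1 * t - ‖x‖) 0 : ℝ) : ℂ) := by
      rw [SA.ph_add (by fun_prop) (by fun_prop), SA.ph_sub (by fun_prop) (by fun_prop), s1, s2,
        sa.ph_id, sub_zero, add_zero]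
    rw [e1]
    refine sa.ph_norm hx fun t _ => ?_
    rw [← Complex.ofReal_sub, ← Complex.ofReal_add, Complex.norm_real, Real.norm_eq_abs, abs_le]
    rcases le_total (1 * t - ‖x‖) 0 with h5 | h5 <;> rcases le_total (-1 * t - ‖x‖) 0 with h6 | h6
    · rw [max_eq_right h5, max_eq_right h6]
      constructor <;> linarith
    · rw [max_eq_right h5, max_eq_left h6]
      constructor <;> linarith
    · rw [max_eq_left h5, max_eq_right h6]
      constructor <;> linarith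
    · rw [max_eq_left h5, max_eq_left h6]
      constructor <;> linarith
  refine ⟨y, hy, sy, fun d hd sd => ?_⟩
  have hd0 := norm_nonneg d
  have key : ∀ c : ℝ, |c| = (‖d‖ + 1)⁻¹ → c * T.ip (x - y) d ≤ 0 := by
    intro c hc
    have h1 := hp (y + (c : ℂ) • d) ⟨hD.add hy (hD.smul _ hd), by
      rw [star_add, star_smul, sy, sd, Complex.star_def, Complex.conj_ofReal], by
      refine (norm_add_le _ _).trans (add_le_add n1 ?_)
      rw [norm_smul, Complex.norm_real, Real.norm_eq_abs, hc, ← div_eq_inv_mul,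
        div_le_one (by positivity)]
      linarith⟩
    rwa [add_sub_cancel_left, ip_smul_r] at h1
  have c0 : 0 < (‖d‖ + 1)⁻¹ := by positivity
  have k1 := key _ (abs_of_pos c0)
  have k2 := key (-(‖d‖ + 1)⁻¹) (by rw [abs_neg, abs_of_pos c0])
  have k3 : T.ip (x - y) d = 0 := by
    have := mul_eq_zero.1 (show (‖d‖ + 1)⁻¹ * T.ip (x - y) d = 0 by linarith)
    exact this.resolve_left c0.ne'
  rw [ip_sub_l, ip_comm x, ip_comm y] at k3
  linarith

theorem Alg.exists_ce (x : R) : ∃ y ∈ D, ∀ d ∈ D, T.tau (d * y) = T.tau (d * x) := by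
  obtain ⟨y1, h1, s1, t1⟩ := waa_re hD x
  obtain ⟨y2, h2, s2, t2⟩ := waa_re hD ((-Complex.I) • x)
  have re : ∀ d y : R, star d = d → star y = y → (T.tau (d * y)).im = 0 := fun d y sd sy =>
    Complex.conj_eq_iff_im.1 (by rw [← T.tau_star, star_mul, sd, sy, T.tau_comm])
  have key : ∀ d ∈ D, star d = d → T.tau (d * (y1 + Complex.I • y2)) = T.tau (d * x) := by
    intro d hd sd
    have a1 := t1 d hd sd
    have a2 := t2 d hd sd
    rw [ip, ip, sd] at a1 a2
    rw [mul_smul_comm, map_smul, smul_eq_mul] at a2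
    rw [mul_add, mul_smul_comm, map_add, map_smul, smul_eq_mul]
    apply Complex.ext
    · simp [re d y2 sd s2, a1]
    · simp [re d y1 sd s1, a2]
  refine ⟨y1 + Complex.I • y2, hD.add h1 (hD.smul _ h2), fun d hd => ?_⟩
  have k1 := key (d + star d) (hD.add hd (hD.star hd)) (by rw [star_add, star_star, add_comm])
  have k2 := key (Complex.I • (d - star d)) (hD.smul _ (hD.sub hd (hD.star hd))) (by
    rw [star_smul, star_sub, star_star, Complex.star_def, Complex.conj_I, neg_smul, ← smul_neg,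
      neg_sub])
  generalize y1 + Complex.I • y2 = y at k1 k2 ⊢
  simp only [add_mul, sub_mul, smul_mul_assoc, map_add, map_sub, map_smul, smul_eq_mul] at k1 k2
  have k3 := mul_left_cancel₀ Complex.I_ne_zero k2
  linear_combination (k1 + k3) / 2

theorem Alg.ce_mem (x : R) : T.ce D x ∈ D := by
  rw [ce, dif_pos (hD.exists_ce x)]
  exact (hD.exists_ce x).choose_spec.1

theorem Alg.ce_tau (x : R) {d : R} (hd : d ∈ D) : T.tau (d * T.ce D x) = T.tau (d * x) := by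
  rw [ce, dif_pos (hD.exists_ce x)]
  exact (hD.exists_ce x).choose_spec.2 d hd

theorem Alg.ce_eq {x y : R} (hy : y ∈ D) (h : ∀ d ∈ D, T.tau (d * y) = T.tau (d * x)) :
    T.ce D x = y := by
  have h1 := hD.star (hD.sub (hD.ce_mem x) hy)
  refine sub_eq_zero.1 (T.eq_zero_of_tau ?_)
  rw [mul_sub, map_sub, hD.ce_tau x h1, h _ h1, sub_self]

theorem Alg.ce_self {x : R} (hx : x ∈ D) : T.ce D x = x := hD.ce_eq hx fun _ _ => rfl

theorem waa_sub (x y : R) : T.ce D (x - y) = T.ce D x - T.ce D y :=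
  hD.ce_eq (hD.sub (hD.ce_mem x) (hD.ce_mem y)) fun d hd => by
    rw [mul_sub, mul_sub, map_sub, map_sub, hD.ce_tau x hd, hD.ce_tau y hd]

theorem waa_ip (x : R) {d : R} (hd : d ∈ D) : T.ip d (T.ce D x) = T.ip d x := by
  rw [ip, ip, hD.ce_tau x (hD.star hd)]

theorem waa_pyth (x : R) :
    ‖T.ι (x - T.ce D x)‖ ^ 2 = ‖T.ι x‖ ^ 2 - ‖T.ι (T.ce D x)‖ ^ 2 := by
  rw [l2_sub_sq, ip_comm, ← waa_ip hD x (hD.ce_mem x), ip_self]
  ring

theorem waa_l2 (x : R) : ‖T.ι (T.ce D x)‖ ≤ ‖T.ι x‖ := by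
  refine le_of_pow_le_pow_left₀ two_ne_zero (norm_nonneg _) ?_
  have h1 := waa_pyth hD x
  have h2 := sq_nonneg ‖T.ι (x - T.ce D x)‖
  linarith

theorem waa_lower (x : R) {d : R} (hd : d ∈ D) :
    2 * T.ip d x - ‖T.ι d‖ ^ 2 ≤ ‖T.ι (T.ce D x)‖ ^ 2 := by
  have h1 := l2_sub_sq (T := T) d (T.ce D x)
  have h2 := sq_nonneg ‖T.ι (d - T.ce D x)‖
  rw [waa_ip hD x hd] at h1
  linarith

theorem Alg.ce_linC : T.LinC (T.ce D) := by
  refine ⟨fun x y => hD.ce_eq (hD.add (hD.ce_mem x) (hD.ce_mem y)) fun d hd => ?_,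
    fun c x => hD.ce_eq (hD.smul c (hD.ce_mem x)) fun d hd => ?_,
    fun a x h => h.of_le 1 fun n => ?_⟩
  · rw [mul_add, mul_add, map_add, map_add, hD.ce_tau x hd, hD.ce_tau y hd]
  · rw [mul_smul_comm, mul_smul_comm, map_smul, map_smul, hD.ce_tau x hd]
  · rw [← waa_sub hD, one_mul]
    exact waa_l2 hD _

theorem Alg.ce_sub (x y : R) : T.ce D (x - y) = T.ce D x - T.ce D y := waa_sub hD x y

theorem Alg.ce_sum {ι : Type*} (s : Finset ι) (f : ι → R) :
    T.ce D (∑ i ∈ s, f i) = ∑ i ∈ s, T.ce D (f i) := by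
  classical
  induction s using Finset.induction_on with
  | empty => simpa only [Finset.sum_empty] using hD.ce_linC.zero
  | insert i s hi ih => rw [Finset.sum_insert hi, Finset.sum_insert hi, hD.ce_linC.add, ih]

theorem Alg.ce_star (x : R) : T.ce D (star x) = star (T.ce D x) := by
  refine hD.ce_eq (hD.star (hD.ce_mem x)) fun d hd => ?_
  have h1 : ∀ y : R, T.tau (d * star y) = conj (T.tau (star d * y)) := fun y => by
    rw [← T.tau_star, star_mul, star_star, T.tau_comm]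
  rw [h1, h1, hD.ce_tau x (hD.star hd)]

theorem Alg.ce_mul_l {d : R} (hd : d ∈ D) (x : R) : T.ce D (d * x) = d * T.ce D x := by
  refine hD.ce_eq (hD.mul hd (hD.ce_mem x)) fun d' hd' => ?_
  rw [← mul_assoc, ← mul_assoc, hD.ce_tau x (hD.mul hd' hd)]

theorem Alg.ce_mul_r {d : R} (hd : d ∈ D) (x : R) : T.ce D (x * d) = T.ce D x * d := by
  refine hD.ce_eq (hD.mul (hD.ce_mem x) hd) fun d' hd' => ?_
  rw [← mul_assoc, ← mul_assoc, T.tau_comm _ d, T.tau_comm _ d, ← mul_assoc, ← mul_assoc,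
    hD.ce_tau x (hD.mul hd hd')]

theorem Alg.ce_norm (x : R) : ‖T.ce D x‖ ≤ ‖x‖ := by
  refine norm_le_of_l2 hD (hD.ce_mem x) (norm_nonneg x) fun y hy => ?_
  rw [← hD.ce_mul_r hy]
  exact (waa_l2 hD _).trans (T.norm_mul _ _)

theorem Alg.ce_ip (x : R) {d : R} (hd : d ∈ D) : T.ip d (T.ce D x) = T.ip d x := waa_ip hD x hd

theorem Alg.ce_l2 (x : R) : ‖T.ι (T.ce D x)‖ ≤ ‖T.ι x‖ := waa_l2 hD x

theorem Alg.ce_pyth (x : R) :
    ‖T.ι (x - T.ce D x)‖ ^ 2 = ‖T.ι x‖ ^ 2 - ‖T.ι (T.ce D x)‖ ^ 2 := waa_pyth hD x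

theorem Alg.ce_min (x : R) {d : R} (hd : d ∈ D) : ‖T.ι (x - T.ce D x)‖ ≤ ‖T.ι (x - d)‖ := by
  refine le_of_pow_le_pow_left₀ two_ne_zero (norm_nonneg _) ?_
  have h1 := waa_lower hD x hd
  rw [waa_pyth hD, l2_sub_sq, ip_comm]
  linarith

theorem Alg.ce_lower (x : R) {d : R} (hd : d ∈ D) :
    2 * T.ip d x - ‖T.ι d‖ ^ 2 ≤ ‖T.ι (T.ce D x)‖ ^ 2 := waa_lower hD x hd

theorem Alg.ce_tower {p' : R} {D' : Set R} (hD' : T.Alg p' D') (h : D ⊆ D') (x : R) :
    T.ce D (T.ce D' x) = T.ce D x :=   hD.ce_eq (hD.ce_mem x) fun d hd => by rw [hD.ce_tau x hd, hD'.ce_tau x (h hd)]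

end ce

theorem gen1_alg (S : Set R) : T.Alg 1 (T.gen (insert 1 S)) :=   gen_alg Pr.one (sub_gen (Set.mem_insert _ _)) fun s _ => ⟨one_mul s, mul_one s⟩

/-- An eigenvector can be taken in the algebra generated by the element. -/
theorem noEig_of {e x : R} (h : SA e x)
    (hi : ∀ (l : ℝ), ∀ z ∈ T.gen {e, x}, x * z = (l : ℂ) • z → z = 0) : NoEig e x := by
  intro l z ez xz
  have hD : T.Alg e (T.gen {e, x}) := gen_alg h.pr (sub_gen (.inl rfl)) (by
    rintro s (rfl | rfl)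
    exacts [⟨h.pr.sq, h.pr.sq⟩, ⟨h.l, h.r⟩])
  have h1 : T.ce (T.gen {e, x}) (z * star z) = 0 := hi l _ (hD.ce_mem _) (by
    rw [← hD.ce_mul_l (sub_gen (.inr rfl)), ← mul_assoc, xz, smul_mul_assoc, hD.ce_linC.smul])
  have h2 := hD.ce_tau (z * star z) hD.one
  rw [h1, mul_zero, map_zero, ← mul_assoc, ez, T.tau_comm] at h2
  exact T.eq_zero_of_tau h2.symm

end TW

end Pool.Agent.Lib.MP_263241_an
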