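import Pool.Agent.Lib.MP_263241_an.WS

/-! Numerical estimates for the gain of one move. -/

namespace Pool.Agent.Lib.MP_263241_an

open Finset
open scoped Real

/-- Sum over the words `V ^ p σ V ^ q` of total degree `r` or `-r`. -/
def sg {M : Type*} [AddCommMonoid M] (r : ℕ) (f : ℤ → ℤ → M) : M :=
  ∑ j ∈ range r, (f j (r - j) + f (-(r - j)) (-j))

/-- The order of the `i`-th term. -/
def od (K i : ℕ) : ℕ := K * (2 * i + 1)

/-- Gram matrix of the lost parts. -/
noncomputable def bb (u : ℤ → ℝ) (p p' : ℤ) : ℝ := (u (p - p') - u (p + p')) / 2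

/-- Gram matrix of the captured parts. -/
noncomputable def be (u : ℤ → ℝ) (p p' : ℤ) : ℝ := (if p = p' then 1 else 0) - bb u p p'

/-- The captured mass of the terms with one letter `σ`. -/
noncomputable def QQ (u : ℤ → ℝ) (K N : ℕ) (κ : ℕ → ℝ) : ℝ :=
  ∑ i ∈ range N, ∑ i' ∈ range N, κ i * κ i' *
    sg (od K i) fun p q => sg (od K i') fun p' q' => be u p p' * be u q q'

/-- Weights of the terms without letter `σ`. -/
noncomputable def al (s : ℝ) (K i : ℕ) : ℝ := cf i * Real.cos s ^ od K i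

/-- Weights of the terms with one letter `σ`. -/
noncomputable def ka (s : ℝ) (K i : ℕ) : ℝ := -(cf i * Real.sin s * Real.cos s ^ (od K i - 1) / 2)

/-- Mass of the terms without letter `σ`. -/
noncomputable def m0 (s : ℝ) (K N : ℕ) : ℝ := ∑ i ∈ range N, al s K i ^ 2 / 2

/-- Mass of the terms with one letter `σ`. -/
noncomputable def m1 (s : ℝ) (K N : ℕ) : ℝ := ∑ i ∈ range N, 2 * od K i * ka s K i ^ 2

/-- Mass of the other terms. -/
noncomputable def m2 (s : ℝ) (K N : ℕ) : ℝ :=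
  ∑ i ∈ range N, cf i ^ 2 / 2 - m0 s K N - m1 s K N

/-- The tail of the sequence beyond `A` has mass at most `t ^ 2`. -/
def WgTail (u : ℤ → ℝ) (A : ℕ) (t : ℝ) : Prop :=
  ∀ S : Finset ℤ, (∀ n ∈ S, (A : ℤ) ≤ |n|) → ∑ n ∈ S, u n ^ 2 ≤ t ^ 2

theorem wg_sg_add (r : ℕ) (f g : ℤ → ℤ → ℝ) :
    sg r (fun p q => f p q + g p q) = sg r f + sg r g := by
  simp only [sg, ← sum_add_distrib]
  exact sum_congr rfl fun j _ => by ring

theorem wg_sg_swap (r : ℕ) (f : ℤ → ℤ → ℝ) : sg r (fun p q => f (-q) (-p)) = sg r f := by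
  simp only [sg, neg_neg]
  exact sum_congr rfl fun j _ => add_comm _ _

theorem wg_sg_sym (r : ℕ) {f : ℤ → ℤ → ℝ} (h : ∀ p q, f (-p) (-q) = f p q)
    (h1 : f 0 r = 0) (h2 : f r 0 = 0) : sg r f = 2 * ∑ j ∈ range r, f j (r - j) := by
  simp only [sg, h, sum_add_distrib]
  have h3 := sum_range_reflect (fun j : ℕ => f j (r - j)) (r + 1)
  rw [sum_congr rfl (g := fun j : ℕ => f (r - j) j) fun j hj => by
    have := mem_range.1 hj
    congr 1 <;> omega, sum_range_succ, sum_range_succ, sub_self, h1, h2] at h3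
  linarith

theorem wg_in_pos (r j : ℕ) (g : ℤ → ℝ) :
    sg r (fun p' q' => (if (j : ℤ) = p' then 1 else 0) * g q') =
      if j < r then g (r - j) else 0 := by
  simp only [sg, sum_add_distrib]
  rw [sum_eq_zero (f := fun x : ℕ => (if (j : ℤ) = -((r : ℤ) - x) then 1 else 0) * g (-x))
    fun x hx => by rw [if_neg (by have := mem_range.1 hx; omega), zero_mul], add_zero]
  simp only [Nat.cast_inj, ite_mul, one_mul, zero_mul, sum_ite_eq, mem_range]

theorem wg_in_neg (r : ℕ) {p : ℤ} (hp : p < 0) (g : ℤ → ℝ) :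
    sg r (fun p' q' => (if p = p' then 1 else 0) * g q') =
      if -(r : ℤ) ≤ p then g (-r - p) else 0 := by
  simp only [sg, sum_add_distrib]
  rw [sum_eq_zero (f := fun x : ℕ => (if p = (x : ℤ) then 1 else 0) * g (r - x))
    fun x _ => by rw [if_neg (by omega), zero_mul], zero_add]
  split_ifs with h
  · rw [sum_eq_single (r + p).toNat (fun x _ hx => by rw [if_neg (by omega), zero_mul])
      (fun hx => (hx (mem_range.2 (by omega))).elim), if_pos (by omega), one_mul]
    congr 1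
    omega
  · exact sum_eq_zero fun x _ => by rw [if_neg (by omega), zero_mul]

theorem wg_double {N : ℕ} {F : ℕ → ℕ → ℝ} {d : ℕ → ℝ} {E : ℝ}
    (h : ∀ i < N, ∀ i' < N, (if i = i' then d i else 0) - E ≤ F i i') :
    ∑ i ∈ range N, d i - N ^ 2 * E ≤ ∑ i ∈ range N, ∑ i' ∈ range N, F i i' := by
  refine le_trans (le_of_eq ?_) (sum_le_sum fun i hi => sum_le_sum fun i' hi' =>
    h i (mem_range.1 hi) i' (mem_range.1 hi'))
  simp only [sum_sub_distrib, sum_ite_eq, sum_const, card_range, nsmul_eq_mul]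
  rw [sum_congr rfl fun i hi => if_pos hi]
  ring

theorem wg_od_far {K i i' : ℕ} (h : i ≠ i') : 2 * (K : ℤ) ≤ |(od K i : ℤ) - od K i'| := by
  have e : (od K i : ℤ) - od K i' = 2 * K * (i - i') := by simp only [od]; push_cast; ring
  have h1 : 1 ≤ |(i : ℤ) - i'| := Int.one_le_abs (by omega)
  rw [e, abs_mul, abs_of_nonneg (by positivity)]
  exact le_mul_of_one_le_right (by positivity) h1

theorem wg_od_ge (K i : ℕ) : K ≤ od K i := Nat.le_mul_of_pos_right _ (by omega)

section gain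

variable {u : ℤ → ℝ} {A : ℕ} {t : ℝ}

theorem wg_small (hA : WgTail u A t) (ht : 0 < t) {n : ℤ} (hn : (A : ℤ) ≤ |n|) : |u n| ≤ t := by
  have := hA {n} (by simpa using hn)
  rw [sum_singleton] at this
  exact abs_le_of_sq_le_sq this ht.le

theorem wg_tail_inj (hA : WgTail u A t) (B : Finset ℕ) {φ : ℕ → ℤ} (hφ : Function.Injective φ) :
    ∑ b ∈ B, (if (A : ℤ) ≤ |φ b| then u (φ b) ^ 2 else 0) ≤ t ^ 2 := by
  rw [← sum_filter, ← sum_image (f := fun n => u n ^ 2) hφ.injOn]
  refine hA _ fun n hn => ?_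
  obtain ⟨b, hb, rfl⟩ := mem_image.1 hn
  exact (mem_filter.1 hb).2

theorem wg_bb_neg (he : ∀ n, u (-n) = u n) (p p' : ℤ) : bb u (-p) p' = - bb u p p' := by
  unfold bb
  rw [← he (-p - p'), ← he (-p + p'), show -(-p - p') = p + p' by ring,
    show -(-p + p') = p - p' by ring]
  ring

theorem wg_bb_neg' (p p' : ℤ) : bb u p (-p') = - bb u p p' := by
  unfold bb
  rw [sub_neg_eq_add, ← sub_eq_add_neg]
  ring

theorem wg_bb_zero (he : ∀ n, u (-n) = u n) (p : ℤ) : bb u 0 p = 0 := by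
  simp [bb, he]

theorem wg_bb_zero' (p : ℤ) : bb u p 0 = 0 := by simp [bb]

/-- The terms with a Kronecker delta. -/
noncomputable def wgDX (u : ℤ → ℝ) (r r' : ℕ) : ℝ :=
  sg r fun p q => sg r' fun p' q' =>
    (if p = p' then 1 else 0) * ((if q = q' then 1 else 0) - 2 * bb u q q')

/-- The terms without a Kronecker delta. -/
noncomputable def wgBB (u : ℤ → ℝ) (r r' : ℕ) : ℝ :=
  sg r fun p q => sg r' fun p' q' => bb u p p' * bb u q q'

theorem wg_split (he : ∀ n, u (-n) = u n) (r r' : ℕ) :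
    (sg r fun p q => sg r' fun p' q' => be u p p' * be u q q') = wgDX u r r' + wgBB u r r' := by
  have h1 : (sg r fun p q => sg r' fun p' q' => (if p = p' then 1 else 0) * bb u q q') =
      sg r fun p q => sg r' fun p' q' => bb u p p' * (if q = q' then 1 else 0) := by
    rw [← wg_sg_swap r]
    congr 1
    funext p q
    rw [← wg_sg_swap r']
    congr 1
    funext p' q'
    rw [wg_bb_neg he, wg_bb_neg', neg_neg, mul_comm]
    simp only [neg_inj]
  have h2 : (sg r fun p q => sg r' fun p' q' => be u p p' * be u q q') +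
      (sg r fun p q => sg r' fun p' q' => bb u p p' * (if q = q' then 1 else 0)) =
      wgDX u r r' + wgBB u r r' +
      (sg r fun p q => sg r' fun p' q' => (if p = p' then 1 else 0) * bb u q q') := by
    simp only [wgDX, wgBB, ← wg_sg_add]
    congr 1
    funext p q
    congr 1
    funext p' q'
    unfold be
    ring
  linarith

theorem wg_DX_eq (he : ∀ n, u (-n) = u n) (r r' : ℕ) : wgDX u r r' = ∑ j ∈ range r,
    ((if j < r' then (if r = r' then 1 else 0) - u (r - r') + u (r + r' - 2 * j) else 0) +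
      if r ≤ r' + j then (if r = r' then 1 else 0) - u (r - r') + u (r - r' - 2 * j) else 0) := by
  unfold wgDX
  rw [sg]
  refine sum_congr rfl fun j hj => ?_
  have hj' := mem_range.1 hj
  rw [wg_in_pos r' j fun q' => (if (r : ℤ) - j = q' then 1 else 0) - 2 * bb u (r - j) q',
    wg_in_neg r' (by omega) fun q' => (if -(j : ℤ) = q' then 1 else 0) - 2 * bb u (-j) q']
  congr 1
  · refine if_congr Iff.rfl ?_ rfl
    rw [if_congr (Q := r = r') (by omega) rfl rfl, bb, show (r : ℤ) - j - (r' - j) = r - r' by ring,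
      show (r : ℤ) - j + (r' - j) = r + r' - 2 * j by ring]
    ring
  · refine if_congr (by omega) ?_ rfl
    rw [if_congr (Q := r = r') (by omega) rfl rfl, bb,
      show -(j : ℤ) - (-r' - -(r - j)) = -(r - r') by ring, he,
      show -(j : ℤ) + (-r' - -(r - j)) = r - r' - 2 * j by ring]
    ring

theorem wg_BB_eq (he : ∀ n, u (-n) = u n) (r r' : ℕ) : wgBB u r r' = ∑ a ∈ range r, ∑ b ∈ range r',
    (u (a - b) - u (a + b)) * (u (r - r' - (a - b)) - u (r + r' - a - b)) := by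
  have h1 : ∀ p q, (sg r' fun p' q' => bb u p p' * bb u q q') =
      2 * ∑ b ∈ range r', bb u p b * bb u q (r' - b) := fun p q =>
    wg_sg_sym r' (fun p' q' => by rw [wg_bb_neg', wg_bb_neg']; ring)
      (by rw [wg_bb_zero', zero_mul]) (by rw [wg_bb_zero', mul_zero])
  unfold wgBB
  simp only [h1]
  rw [wg_sg_sym r (fun p q => by simp only [wg_bb_neg he, neg_mul_neg])
    (by simp only [wg_bb_zero he, zero_mul, sum_const_zero, mul_zero])
    (by simp only [wg_bb_zero he, sum_const_zero, mul_zero])]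
  simp only [mul_sum]
  refine sum_congr rfl fun a _ => sum_congr rfl fun b _ => ?_
  unfold bb
  rw [show (r : ℤ) - a - (r' - b) = r - r' - (a - b) by ring,
    show (r : ℤ) - a + (r' - b) = r + r' - a - b by ring]
  ring

variable (hs : ∀ S : Finset ℤ, ∑ n ∈ S, u n ^ 2 ≤ 1)
include hs

theorem wg_tail (ht : 0 < t) : ∃ A, WgTail u A t := by
  obtain ⟨s, h⟩ := (summable_of_sum_le (fun n => sq_nonneg (u n)) hs).vanishing
    (Iio_mem_nhds (pow_pos ht 2))
  refine ⟨s.sup Int.natAbs + 1, fun S hS => le_of_lt (h S (disjoint_left.2 fun n h1 h2 => ?_))⟩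
  have h3 := hS n h1
  have h4 : n.natAbs ≤ s.sup Int.natAbs := le_sup h2
  rw [← Int.natCast_natAbs] at h3
  omega

theorem wg_inj (B : Finset ℕ) {φ : ℕ → ℤ} (hφ : Function.Injective φ) :
    ∑ b ∈ B, u (φ b) ^ 2 ≤ 1 := by
  rw [← sum_image (f := fun n => u n ^ 2) hφ.injOn]
  exact hs _

theorem wg_lin (ht : 0 < t) (r : ℕ) {φ : ℕ → ℤ} (hφ : Function.Injective φ) :
    ∑ b ∈ range r, |u (φ b)| ≤ t * r / 2 + 1 / (2 * t) := by
  have h1 : ∀ b ∈ range r, |u (φ b)| ≤ t / 2 + 1 / (2 * t) * u (φ b) ^ 2 := by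
    intro b _
    rw [← sq_abs]
    have : t / 2 + 1 / (2 * t) * |u (φ b)| ^ 2 - |u (φ b)| = (t - |u (φ b)|) ^ 2 / (2 * t) := by
      field_simp
      ring
    have h2 : 0 ≤ (t - |u (φ b)|) ^ 2 / (2 * t) := by positivity
    linarith
  refine (sum_le_sum h1).trans ?_
  rw [sum_add_distrib, ← mul_sum, sum_const, card_range, nsmul_eq_mul]
  have := mul_le_mul_of_nonneg_left (wg_inj hs (range r) hφ) (by positivity : 0 ≤ 1 / (2 * t))
  linarith

theorem wg_one (B : Finset ℕ) {φ ψ : ℕ → ℤ} (hφ : Function.Injective φ)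
    (hψ : Function.Injective ψ) : |∑ b ∈ B, u (φ b) * u (ψ b)| ≤ 1 := by
  refine (abs_sum_le_sum_abs _ _).trans ?_
  have h1 : ∀ b ∈ B, |u (φ b) * u (ψ b)| ≤ u (φ b) ^ 2 / 2 + u (ψ b) ^ 2 / 2 := fun b _ =>
    abs_le.2 ⟨by nlinarith [sq_nonneg (u (φ b) + u (ψ b))],
      by nlinarith [sq_nonneg (u (φ b) - u (ψ b))]⟩
  refine (sum_le_sum h1).trans ?_
  rw [sum_add_distrib, ← sum_div, ← sum_div]
  linarith [wg_inj hs B hφ, wg_inj hs B hψ]

theorem wg_far (hA : WgTail u A t) (ht : 0 < t) (B : Finset ℕ) {φ ψ : ℕ → ℤ}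
    (hφ : Function.Injective φ) (hψ : Function.Injective ψ)
    (h : ∀ b ∈ B, (A : ℤ) ≤ |φ b| ∨ (A : ℤ) ≤ |ψ b|) : |∑ b ∈ B, u (φ b) * u (ψ b)| ≤ 2 * t := by
  refine (abs_sum_le_sum_abs _ _).trans ?_
  have key : ∀ x y : ℝ, |x * y| ≤ t / 2 * y ^ 2 + 1 / (2 * t) * x ^ 2 := by
    intro x y
    rw [abs_mul, ← sq_abs x, ← sq_abs y]
    have : t / 2 * |y| ^ 2 + 1 / (2 * t) * |x| ^ 2 - |x| * |y| = (t * |y| - |x|) ^ 2 / (2 * t) := by
      field_simp
      ring
    have h2 : 0 ≤ (t * |y| - |x|) ^ 2 / (2 * t) := by positivity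
    linarith
  have h1 : ∀ b ∈ B, |u (φ b) * u (ψ b)| ≤ t / 2 * (u (φ b) ^ 2 + u (ψ b) ^ 2) + 1 / (2 * t) *
      ((if (A : ℤ) ≤ |φ b| then u (φ b) ^ 2 else 0) +
        if (A : ℤ) ≤ |ψ b| then u (ψ b) ^ 2 else 0) := by
    intro b hb
    have a1 : 0 ≤ t / 2 * u (φ b) ^ 2 := by positivity
    have a2 : 0 ≤ t / 2 * u (ψ b) ^ 2 := by positivity
    have a3 : 0 ≤ 1 / (2 * t) * if (A : ℤ) ≤ |φ b| then u (φ b) ^ 2 else 0 := by positivity
    have a4 : 0 ≤ 1 / (2 * t) * if (A : ℤ) ≤ |ψ b| then u (ψ b) ^ 2 else 0 := by positivity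
    rcases h b hb with h2 | h2
    · have := key (u (φ b)) (u (ψ b))
      rw [if_pos h2]
      linarith
    · have := key (u (ψ b)) (u (φ b))
      rw [if_pos h2, mul_comm]
      linarith
  refine (sum_le_sum h1).trans ?_
  rw [sum_add_distrib, ← mul_sum, ← mul_sum, sum_add_distrib, sum_add_distrib]
  have b1 : t / 2 * (∑ b ∈ B, u (φ b) ^ 2 + ∑ b ∈ B, u (ψ b) ^ 2) ≤ t / 2 * (1 + 1) :=
    mul_le_mul_of_nonneg_left (add_le_add (wg_inj hs B hφ) (wg_inj hs B hψ)) (by positivity)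
  have b2 := mul_le_mul_of_nonneg_left (add_le_add (wg_tail_inj hA B hφ) (wg_tail_inj hA B hψ))
    (by positivity : 0 ≤ 1 / (2 * t))
  have b3 : 1 / (2 * t) * (t ^ 2 + t ^ 2) = t := by field_simp; ring
  linarith

theorem wg_row (hA : WgTail u A t) (ht : 0 < t) (r : ℕ) (B : Finset ℕ) {φ ψ : ℕ → ℕ → ℤ}
    (hφ : ∀ a, Function.Injective (φ a)) (hψ : ∀ a, Function.Injective (ψ a)) (T : Finset ℕ)
    (hT : T.card ≤ A) (h : ∀ a < r, a ∉ T → ∀ b ∈ B, (A : ℤ) ≤ |φ a b| ∨ (A : ℤ) ≤ |ψ a b|) :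
    |∑ a ∈ range r, ∑ b ∈ B, u (φ a b) * u (ψ a b)| ≤ 2 * t * r + A := by
  refine (abs_sum_le_sum_abs _ _).trans ?_
  have h1 : ∀ a ∈ range r, |∑ b ∈ B, u (φ a b) * u (ψ a b)| ≤ 2 * t + if a ∈ T then 1 else 0 := by
    intro a ha
    split_ifs with h2
    · linarith [wg_one hs B (hφ a) (hψ a)]
    · linarith [wg_far hs hA ht B (hφ a) (hψ a) (h a (mem_range.1 ha) h2)]
  refine (sum_le_sum h1).trans ?_
  rw [sum_add_distrib, sum_const, card_range, nsmul_eq_mul, sum_ite_mem, sum_const, nsmul_eq_mul]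
  have h3 : ((range r ∩ T).card : ℝ) ≤ A := by
    exact_mod_cast (card_le_card inter_subset_right).trans hT
  linarith

theorem wg_BB (he : ∀ n, u (-n) = u n) (hA : WgTail u A t) (ht : 0 < t) (r r' : ℕ) :
    |wgBB u r r' - ∑ a ∈ range r, ∑ b ∈ range r', u (a - b) * u (r - r' - (a - b))| ≤
      6 * t * r + 3 * A := by
  have h1 := wg_row hs hA ht r (range r') (φ := fun a b => a - b) (ψ := fun a b => r + r' - a - b)
    (fun a b b' h => by simpa using h) (fun a b b' h => by simpa using h) (Ico (r - A) r)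
    (by rw [Nat.card_Ico]; omega) fun a ha h b hb => Or.inr (le_trans (by
      have := mem_range.1 hb
      simp only [mem_Ico] at h
      omega) (le_abs_self _))
  have h2 := wg_row hs hA ht r (range r') (φ := fun a b => a + b)
    (ψ := fun a b => r - r' - (a - b)) (fun a b b' h => by simpa using h)
    (fun a b b' h => by simpa using h) (range A) (card_range A).le
    fun a ha h b hb => Or.inl (le_trans (by simp only [mem_range] at h; omega) (le_abs_self _))
  have h3 := wg_row hs hA ht r (range r') (φ := fun a b => a + b)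
    (ψ := fun a b => r + r' - a - b) (fun a b b' h => by simpa using h)
    (fun a b b' h => by simpa using h) (range A) (card_range A).le
    fun a ha h b hb => Or.inl (le_trans (by simp only [mem_range] at h; omega) (le_abs_self _))
  rw [wg_BB_eq he]
  simp only [sub_mul, mul_sub, sum_sub_distrib]
  rw [abs_le] at *
  constructor <;> linarith [h1.1, h1.2, h2.1, h2.2, h3.1, h3.2]

theorem wg_diag (he : ∀ n, u (-n) = u n) (hA : WgTail u A t) (ht : 0 < t) (r : ℕ) :
    2 * r * (1 - u 0 + u 0 ^ 2 / 2) - (11 * t * r + 1 / t + 4 * A) ≤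
      wgDX u r r + wgBB u r r := by
  have h1 := (abs_le.1 (wg_BB hs he hA ht r r)).1
  have h2 : r * u 0 ^ 2 ≤ ∑ a ∈ range r, ∑ b ∈ range r, u (a - b) * u (r - r - (a - b)) := by
    refine le_trans (by simp) (sum_le_sum (f := fun _ => u 0 ^ 2) fun a ha => ?_)
    refine le_trans (by simp [sq]) (single_le_sum (fun b _ => ?_) ha)
    rw [sub_self, zero_sub, he]
    exact mul_self_nonneg _
  have h3 := wg_lin hs ht r (φ := fun j => r + r - 2 * j) (fun a b h => by simpa using h)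
  have h4 := wg_lin hs ht r (φ := fun j => r - r - 2 * j) (fun a b h => by simpa using h)
  have h5 : ∑ j ∈ range r, (2 * (1 - u 0) - |u (r + r - 2 * j)| - |u (r - r - 2 * j)|) ≤
      wgDX u r r := by
    rw [wg_DX_eq he]
    refine sum_le_sum fun j hj => ?_
    rw [if_pos (mem_range.1 hj), if_pos rfl, if_pos (Nat.le_add_right _ _), sub_self]
    linarith [neg_abs_le (u (r + r - 2 * j)), neg_abs_le (u (0 - 2 * j))]
  rw [sum_sub_distrib, sum_sub_distrib, sum_const, card_range, nsmul_eq_mul] at h5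
  have h6 : 1 / (2 * t) + 1 / (2 * t) = 1 / t := by field_simp; ring
  have h7 : 0 ≤ t * r := by positivity
  have h8 : (0 : ℝ) ≤ A := by positivity
  linarith

theorem wg_off (he : ∀ n, u (-n) = u n) (hA : WgTail u A t) (ht : 0 < t) {r r' : ℕ}
    (h0 : r ≠ r') (h : 2 * (A : ℤ) ≤ |(r : ℤ) - r'|) :
    |wgDX u r r' + wgBB u r r'| ≤ 11 * t * r + 1 / t + 4 * A := by
  have h1 := abs_le.1 (wg_BB hs he hA ht r r')
  have h2 := wg_row hs (A := A) hA ht r (range r') (φ := fun a b => a - b)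
    (ψ := fun a b => r - r' - (a - b)) (fun a b b' h => by simpa using h)
    (fun a b b' h => by simpa using h) ∅ (by simp) fun a _ _ b _ => by
      have := abs_add_le ((a : ℤ) - b) (r - r' - (a - b))
      rw [add_sub_cancel] at this
      omega
  have h3 := wg_lin hs ht r (φ := fun j => r + r' - 2 * j) (fun a b h => by simpa using h)
  have h4 := wg_lin hs ht r (φ := fun j => r - r' - 2 * j) (fun a b h => by simpa using h)
  have h5 := wg_small hA ht (n := r - r') (by omega)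
  have h6 : |wgDX u r r'| ≤
      ∑ j ∈ range r, (2 * t + |u (r + r' - 2 * j)| + |u (r - r' - 2 * j)|) := by
    rw [wg_DX_eq he]
    refine (abs_sum_le_sum_abs _ _).trans (sum_le_sum fun j _ => ?_)
    have a1 := neg_abs_le (u (r + r' - 2 * j))
    have a2 := neg_abs_le (u (r - r' - 2 * j))
    have a3 := abs_nonneg (u (r + r' - 2 * j))
    have a4 := abs_nonneg (u (r - r' - 2 * j))
    have a5 := abs_le.1 h5
    have a6 := le_abs_self (u (r + r' - 2 * j))
    have a7 := le_abs_self (u (r - r' - 2 * j))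
    rw [if_neg h0, abs_le]
    split_ifs <;> constructor <;> linarith [a5.1, a5.2]
  rw [sum_add_distrib, sum_add_distrib, sum_const, card_range, nsmul_eq_mul] at h6
  have h7 : 1 / (2 * t) + 1 / (2 * t) = 1 / t := by field_simp; ring
  rw [abs_le] at *
  constructor <;> linarith [h1.1, h1.2, h2.1, h2.2, h6.1, h6.2]

end gain

section gain

variable {u : ℤ → ℝ} (he : ∀ n, u (-n) = u n) (hs : ∀ S : Finset ℤ, ∑ n ∈ S, u n ^ 2 ≤ 1)
include he hs

theorem gain0 (N : ℕ) {δ : ℝ} (hδ : 0 < δ) : ∃ K₀ : ℕ, ∀ K ≥ K₀, ∀ α : ℕ → ℝ, (∀ i, |α i| ≤ 2) →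
    ∑ i ∈ range N, ∑ i' ∈ range N, α i * α i' * bb u (od K i) (od K i') ≤
      (∑ i ∈ range N, α i ^ 2 / 2) * u 0 + δ := by
  have _ := he
  obtain ⟨t, ht, h0⟩ : ∃ t : ℝ, 0 < t ∧ (N : ℝ) ^ 2 * (4 * t) ≤ δ := by
    refine ⟨δ / (4 * (N ^ 2 + 1)), by positivity, ?_⟩
    rw [← mul_assoc, mul_div_assoc', div_le_iff₀ (by positivity)]
    nlinarith
  obtain ⟨A, hA⟩ := wg_tail hs ht
  refine ⟨A, fun K hK α hα => ?_⟩
  have h1 := wg_double (N := N) (F := fun i i' => -(α i * α i' * bb u (od K i) (od K i')))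
    (d := fun i => -(α i ^ 2 / 2 * u 0)) (E := 4 * t) fun i _ i' _ => by
      have a1 : |α i * α i'| ≤ 4 := by
        rw [abs_mul]
        nlinarith [hα i, hα i', abs_nonneg (α i), abs_nonneg (α i')]
      have a2 : |u (od K i + od K i')| ≤ t := wg_small hA ht (le_trans (by
        have := wg_od_ge K i
        omega) (le_abs_self _))
      have a3 : ∀ x : ℝ, |x| ≤ t → |α i * α i' * x| ≤ 4 * t := fun x hx => by
        rw [abs_mul]
        exact mul_le_mul a1 hx (abs_nonneg _) (by norm_num)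
      have a4 := abs_le.1 (a3 _ a2)
      unfold bb
      split_ifs with h
      · subst h
        rw [sub_self]
        linarith [a4.1]
      · have a5 := abs_le.1 (a3 _ (wg_small hA ht (n := od K i - od K i') (by
          have := wg_od_far (K := K) h
          omega)))
        linarith [a4.1, a5.2]
  simp only [sum_neg_distrib] at h1
  rw [sum_mul]
  linarith

theorem gain1 (N : ℕ) {δ : ℝ} (hδ : 0 < δ) : ∃ K₀ : ℕ, ∀ K ≥ K₀, ∀ κ : ℕ → ℝ,
    (∀ i, κ i ^ 2 * K ≤ 1) →
    (∑ i ∈ range N, 2 * od K i * κ i ^ 2) * (1 - u 0 + u 0 ^ 2 / 2) - δ ≤ QQ u K N κ := by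
  obtain ⟨t, ht, h0⟩ : ∃ t : ℝ, 0 < t ∧ (N : ℝ) ^ 2 * (11 * t * (2 * N + 1)) ≤ δ / 2 := by
    refine ⟨δ / 2 / (N ^ 2 * (11 * (2 * N + 1)) + 1), by positivity, ?_⟩
    rw [show ∀ x : ℝ, (N : ℝ) ^ 2 * (11 * x * (2 * N + 1)) = N ^ 2 * (11 * (2 * N + 1)) * x from
      fun x => by ring, mul_div_assoc', div_le_iff₀ (by positivity)]
    nlinarith
  obtain ⟨A, hA⟩ := wg_tail hs ht
  obtain ⟨B, hB⟩ := exists_nat_ge ((N : ℝ) ^ 2 * (1 / t + 4 * A) / (δ / 2))
  refine ⟨A + B + 1, fun K hK κ hκ => ?_⟩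
  have hK0 : (0 : ℝ) < K := by exact_mod_cast (by omega : 0 < K)
  have hKB : (B : ℝ) ≤ K := by exact_mod_cast (by omega : B ≤ K)
  have h1 : (N : ℝ) ^ 2 * ((1 / t + 4 * A) / K) ≤ δ / 2 := by
    rw [mul_div_assoc', div_le_iff₀ hK0]
    rw [div_le_iff₀ (by positivity)] at hB
    nlinarith
  have h2 := wg_double (N := N) (F := fun i i' => κ i * κ i' *
      sg (od K i) fun p q => sg (od K i') fun p' q' => be u p p' * be u q q')
    (d := fun i => 2 * od K i * κ i ^ 2 * (1 - u 0 + u 0 ^ 2 / 2))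
    (E := 11 * t * (2 * N + 1) + (1 / t + 4 * A) / K) fun i hi i' _ => by
      rw [wg_split he]
      have a1 : |κ i * κ i'| ≤ 1 / K := by
        rw [le_div_iff₀ hK0, abs_mul]
        have b1 := hκ i
        have b2 := hκ i'
        rw [← sq_abs] at b1 b2
        nlinarith [mul_nonneg (sq_nonneg (|κ i| - |κ i'|)) hK0.le]
      have a2 : (od K i : ℝ) ≤ K * (2 * N + 1) := by
        exact_mod_cast Nat.mul_le_mul_left K (by omega : 2 * i + 1 ≤ 2 * N + 1)
      have a3 : |κ i * κ i'| * (11 * t * od K i + 1 / t + 4 * A) ≤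
          11 * t * (2 * N + 1) + (1 / t + 4 * A) / K := by
        calc _ ≤ 1 / K * (11 * t * (K * (2 * N + 1)) + 1 / t + 4 * A) := by gcongr
          _ = _ := by field_simp; ring
      split_ifs with h
      · subst h
        have a4 := mul_le_mul_of_nonneg_left (wg_diag hs he hA ht (od K i))
          (mul_self_nonneg (κ i))
        rw [abs_mul_self] at a3
        linarith
      · have b1 := wg_od_far (K := K) h
        have b2 := wg_off hs he hA ht (r := od K i) (r' := od K i')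
          (fun h' => by rw [h', sub_self, abs_zero] at b1; omega) (by omega)
        have b3 := mul_le_mul_of_nonneg_left b2 (abs_nonneg (κ i * κ i'))
        rw [← abs_mul] at b3
        linarith [neg_abs_le (κ i * κ i' * (wgDX u (od K i) (od K i') + wgBB u (od K i) (od K i')))]
  rw [sum_mul]
  unfold QQ
  linarith

end gain

end Pool.Agent.Lib.MP_263241_an
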