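import Pool.Agent.Lib.MP_263241_an.WA

/-! Real and imaginary part of `(a + b) / 2`; free pairs of self-adjoint elements. -/

namespace Pool.Agent.Lib.MP_263241_an

open Complex

variable {R R' H H' : Type*} [CStarAlgebra R] [NormedAddCommGroup H] [InnerProductSpace ℂ H]
  [CStarAlgebra R'] [NormedAddCommGroup H'] [InnerProductSpace ℂ H']

/-- Real part of `(a + b) / 2`. -/
noncomputable def hh (a b : R) : R := (4⁻¹ : ℂ) • (a + star a + b + star b)

/-- Imaginary part of `(a + b) / 2`. -/
noncomputable def kk (a b : R) : R := (-I / 4) • (a + b - star a - star b)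

theorem hh_sa (a b : R) : star (hh a b) = hh a b := by
  simp only [hh, star_smul, star_add, star_star, star_inv₀, star_ofNat]
  congr 1; abel

theorem kk_sa (a b : R) : star (kk a b) = kk a b := by
  simp only [kk, star_smul, star_add, star_sub, star_star, star_div₀, star_neg, star_ofNat,
    RCLike.star_def, conj_I]
  module

theorem hh_add_kk (a b : R) : hh a b + I • kk a b = (2⁻¹ : ℂ) • (a + b) := by
  have : I * (-I / 4) = 4⁻¹ := by rw [← mul_div_assoc, mul_neg, I_mul_I]; norm_num
  rw [hh, kk, smul_smul, this]
  module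

namespace TW

variable (T : TW R H)

/-- Two free self-adjoint elements without eigenvectors. -/
structure FS (e x y : R) : Prop where
  sx : SA e x
  sy : SA e y
  nx : NoEig e x
  ny : NoEig e y
  free : T.Free (T.gen {e, x}) (T.gen {e, y})

end TW

/-- A frame with a regular representation of a free group. -/
theorem exists_frame (ι : Type) : ∃ (R H : Type) (_ : CStarAlgebra R) (_ : NormedAddCommGroup H)
    (_ : InnerProductSpace ℂ H) (T : TW R H) (φ : FreeGroup ι → R), T.Reg 1 φ ∧ T.tau 1 = 1 := by
  classical
  obtain ⟨u, hu⟩ := exists_isL (G := FreeGroup ι)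
  exact ⟨_, _, _, _, _, hu.tw, lam u, hu.reg, hu.tau_one⟩

end Pool.Agent.Lib.MP_263241_an
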