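import Pool.Agent.Lib.MP_263241_an.WH
import Pool.Agent.Lib.MP_263241_an.WF

/-! The real part of `(a + b) / 2`: norm below one, no eigenvectors. -/

namespace Pool.Agent.Lib.MP_263241_an

open Complex Filter Topology
open FreeGroup hiding map_mul map_inv map_one
open scoped InnerProductSpace

variable {R H : Type*} [CStarAlgebra R] [NormedAddCommGroup H] [InnerProductSpace ℂ H]

theorem wk_pyth {ι : Type*} (s : Finset ι) (v : ι → H)
    (h : ∀ i ∈ s, ∀ j ∈ s, i ≠ j → ⟪v i, v j⟫_ℂ = 0) : ‖∑ i ∈ s, v i‖ ^ 2 = ∑ i ∈ s, ‖v i‖ ^ 2 := by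
  classical
  induction s using Finset.induction_on with
  | empty => simp
  | insert a s ha ih =>
    rw [Finset.sum_insert ha, Finset.sum_insert ha, ← ih fun i hi j hj =>
      h i (Finset.mem_insert_of_mem hi) j (Finset.mem_insert_of_mem hj), sq, sq, sq]
    refine norm_add_sq_eq_norm_sq_add_norm_sq_of_inner_eq_zero (𝕜 := ℂ) _ _ ?_
    rw [inner_sum]
    exact Finset.sum_eq_zero fun j hj => h a (Finset.mem_insert_self _ _) j
      (Finset.mem_insert_of_mem hj) fun e => ha (e ▸ hj)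

namespace TW

variable {T : TW R H} {φ : F2 → R} (h : T.Reg 1 φ)
include h

theorem Reg.wk_orth {W W' : Set F2} (hW : Disjoint W W') {x y : R} (hx : x ∈ T.cls (φ '' W))
    (hy : y ∈ T.cls (φ '' W')) : ⟪T.ι x, T.ι y⟫_ℂ = 0 := by
  have : star x ∈ T.cls (star '' (φ '' W)) := by
    induction hx with
    | base hs => exact .base ⟨_, hs, rfl⟩
    | zero => rw [star_zero]; exact .zero
    | add _ _ h1 h2 => rw [star_add]; exact .add h1 h2
    | smul c _ h1 => rw [star_smul]; exact .smul _ h1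
    | lim a _ h1 h2 => exact .lim _ h2 h1.star
  rw [T.inner_tau]
  refine ker_sub.mul_cls ?_ this hy
  rintro _ ⟨_, ⟨g, hg, rfl⟩, rfl⟩ _ ⟨g', hg', rfl⟩
  rw [← h.inv, ← h.mul]
  exact h.tau _ fun e => hW.ne_of_mem hg hg' (inv_mul_eq_one.1 e)

theorem Reg.wk_iso (g : F2) (y : R) : ‖T.ι (φ g * y)‖ = ‖T.ι y‖ := by
  have := T.tau_sq (φ g * y)
  rw [star_mul, mul_assoc, ← mul_assoc (star (φ g)), ← h.inv, ← h.mul, inv_mul_cancel, h.one,
    one_mul, T.tau_sq] at this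
  exact ((sq_eq_sq₀ (norm_nonneg _) (norm_nonneg _)).1 (by exact_mod_cast this)).symm

theorem Reg.wk_bound {y : R} {f : Fin 2 × Bool → R} (hf : ∀ w, f w ∈ T.cls (φ '' startsWith w))
    (h0 : y - ∑ w, f w ∈ T.cls (φ '' {1})) :
    ‖T.ι ((∑ w : Fin 2 × Bool, φ (.mk [w])) * y)‖ ≤ 15 / 4 * ‖T.ι y‖ := by
  have c1 : ∀ w, y - f w ∈ T.cls (φ '' (startsWith w)ᶜ) := fun w => by
    rw [show y - f w = y - ∑ w, f w + ∑ w' ∈ Finset.univ.erase w, f w' by
      rw [← Finset.add_sum_erase _ _ (Finset.mem_univ w)]; abel]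
    refine (cls_sub _).add (cls_mono (Set.image_mono ?_) h0) ((cls_sub _).sum _ fun w' hw' =>
      cls_mono (Set.image_mono ?_) (hf w'))
    · rintro _ rfl hw
      exact startsWith.ne_one _ hw rfl
    · exact (startsWith.disjoint_iff_ne.2 (Finset.ne_of_mem_erase hw')).subset_compl_right
  have c2 : ∀ w : Fin 2 × Bool, φ (.mk [w]) * (y - f (w.1, !w.2)) ∈ T.cls (φ '' startsWith w) :=
    fun w => (cls_sub _).map (LinC.id.mulL _) (by
      rintro _ ⟨g, hg, rfl⟩
      exact sub_cls ⟨_, startsWith_mk_mul g hg, h.mul _ _⟩) (c1 _)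
  have c3 : ∀ w, ‖T.ι (y - f w)‖ ^ 2 = ‖T.ι y‖ ^ 2 - ‖T.ι (f w)‖ ^ 2 := fun w => by
    have := norm_add_sq_eq_norm_sq_add_norm_sq_of_inner_eq_zero (𝕜 := ℂ) _ _
      (h.wk_orth disjoint_compl_left (c1 w) (hf w))
    rw [← map_add, sub_add_cancel] at this
    rw [sq, sq, sq, this]; ring
  have c4 := wk_pyth Finset.univ (fun w => T.ι (f w)) fun i _ j _ e =>
    h.wk_orth (startsWith.disjoint_iff_ne.2 e) (hf i) (hf j)
  have c5 := norm_add_sq_eq_norm_sq_add_norm_sq_of_inner_eq_zero (𝕜 := ℂ) (T.ι (y - ∑ w, f w))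
    (∑ w, T.ι (f w)) (by
      rw [inner_sum]
      exact Finset.sum_eq_zero fun w _ => h.wk_orth (Set.disjoint_singleton_left.2 fun hw =>
        startsWith.ne_one _ hw rfl) h0 (hf w))
  rw [← map_sum, ← map_add, sub_add_cancel, map_sum, ← sq, ← sq, ← sq, c4] at c5
  have c6 := wk_pyth Finset.univ (fun w => T.ι (φ (.mk [w]) * (y - f (w.1, !w.2)))) fun i _ j _ e =>
    h.wk_orth (startsWith.disjoint_iff_ne.2 e) (c2 i) (c2 j)
  have c7 := norm_sum_le Finset.univ fun w : Fin 2 × Bool => T.ι (φ (.mk [w]) * f (w.1, !w.2))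
  have c8 : T.ι ((∑ w : Fin 2 × Bool, φ (.mk [w])) * y) =
      ∑ w : Fin 2 × Bool, T.ι (φ (.mk [w]) * (y - f (w.1, !w.2))) +
        ∑ w : Fin 2 × Bool, T.ι (φ (.mk [w]) * f (w.1, !w.2)) := by
    rw [← Finset.sum_add_distrib, Finset.sum_mul, map_sum]
    exact Finset.sum_congr rfl fun w _ => by rw [← map_add, ← mul_add, sub_add_cancel]
  simp only [h.wk_iso, c3] at c6 c7
  rw [c8]
  refine (norm_add_le _ _).trans ?_
  generalize ‖∑ w : Fin 2 × Bool, T.ι (φ (.mk [w]) * (y - f (w.1, !w.2)))‖ = A at c6 ⊢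
  generalize ‖∑ w : Fin 2 × Bool, T.ι (φ (.mk [w]) * f (w.1, !w.2))‖ = B at c7 ⊢
  simp only [Fintype.sum_prod_type, Fin.sum_univ_two, Fintype.sum_bool, Bool.not_true,
    Bool.not_false] at c5 c6 c7
  have n0 := norm_nonneg (T.ι y)
  have n1 := sq_nonneg ‖T.ι (y - (f (0, true) + f (0, false) + (f (1, true) + f (1, false))))‖
  generalize ‖T.ι (f (0, true))‖ = a at *
  generalize ‖T.ι (f (0, false))‖ = b at *
  generalize ‖T.ι (f (1, true))‖ = c at *
  generalize ‖T.ι (f (1, false))‖ = d at *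
  generalize ‖T.ι y‖ = n at *
  have s1 : (b + a + (d + c)) ^ 2 ≤ 4 * (a ^ 2 + b ^ 2 + c ^ 2 + d ^ 2) := by
    nlinarith [sq_nonneg (a - b), sq_nonneg (a - c), sq_nonneg (a - d), sq_nonneg (b - c),
      sq_nonneg (b - d), sq_nonneg (c - d)]
  have s2 : b + a + (d + c) ≤ 2 * n := le_of_sq_le_sq (by nlinarith) (by positivity)
  have s3 : A ≤ 15 / 4 * n - (b + a + (d + c)) := le_of_sq_le_sq (by
    nlinarith [mul_nonneg n0 (sub_nonneg.2 s2), sq_nonneg (2 * n - (b + a + (d + c)))])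
    (by linarith)
  linarith

/-- The bound of Kesten (any constant below one would do). -/
theorem Reg.kesten (h1 : T.tau 1 = 1) : ‖hh (φ (.of 0)) (φ (.of 1))‖ < 1 := by
  have A := hom_alg (T := T) h.toHom
  have e : ∑ w : Fin 2 × Bool, φ (.mk [w]) = (4 : ℂ) • hh (φ (.of 0)) (φ (.of 1)) := by
    simp only [Fintype.sum_prod_type, Fin.sum_univ_two, Fintype.sum_bool, hh, smul_smul, ← h.inv]
    rw [mul_inv_cancel₀ (by norm_num), one_smul, add_assoc (_ + _)]
    rfl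
  have := norm_le_of_l2 A (x := ∑ w : Fin 2 × Bool, φ (.mk [w])) (C := 15 / 4)
    (A.sum _ fun w _ => sub_cls ⟨_, rfl⟩) (by norm_num) fun y hy => by
    have hV := mem_closure_sub (T := T) (V := {y | ∃ f : Fin 2 × Bool → R,
      (∀ w, f w ∈ T.cls (φ '' startsWith w)) ∧ y - ∑ w, f w ∈ T.cls (φ '' {1})})
      ⟨0, fun _ => .zero, by simpa using (cls_sub _).zero⟩
      (fun x ⟨f, f1, f2⟩ y ⟨g, g1, g2⟩ => ⟨f + g, fun w => .add (f1 w) (g1 w), by
        simp only [Pi.add_apply, Finset.sum_add_distrib, add_sub_add_comm]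
        exact .add f2 g2⟩)
      (fun c x ⟨f, f1, f2⟩ => ⟨c • f, fun w => .smul c (f1 w), by
        simp only [Pi.smul_apply, ← Finset.smul_sum, ← smul_sub]
        exact .smul c f2⟩)
    obtain ⟨a, a1, a2⟩ := exists_seq (hV.cls_le (by
      rintro _ ⟨g, rfl⟩
      refine subset_closure ⟨_, ?_, rfl⟩
      by_cases hg : g = 1
      · exact ⟨0, fun _ => .zero, by simpa [hg] using sub_cls (T := T) (S := {φ 1}) rfl⟩
      · obtain ⟨w, hw⟩ : ∃ w, g ∈ startsWith w :=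
          have := List.length_pos_iff.2 fun e => hg (toWord_eq_nil_iff.1 e)
          ⟨g.toWord[0], List.getElem?_eq_getElem this⟩
        refine ⟨Pi.single w (φ g), fun w' => ?_, by simpa using (cls_sub _).zero⟩
        by_cases e : w' = w
        · rw [e, Pi.single_eq_same]; exact sub_cls ⟨g, hw, rfl⟩
        · rw [Pi.single_eq_of_ne e]; exact .zero) hy)
    exact le_of_tendsto_of_tendsto' (a2.mulL _).norm (a2.norm.const_mul _) fun n =>
      (a1 n).elim fun f hf => h.wk_bound hf.1 hf.2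
  rw [e, norm_smul] at this
  norm_num at this
  linarith

theorem Reg.hh_noEig (h1 : T.tau 1 = 1) : NoEig 1 (hh (φ (.of 0)) (φ (.of 1))) := by
  classical
  obtain ⟨L, hL⟩ := exists_isL (G := Equiv.Perm F2)
  obtain ⟨ρ, r1, r2, r3, r4⟩ := final_abs h h1 hL.reg hL.tau_one (fun _ => rfl)
  set x := hh (φ (.of 0)) (φ (.of 1)) with hx
  have e : φ (of 0) + φ (sh (of 0)) + φ (sh (sh (of 0))) + φ (sh (sh (sh (of 0)))) = (4 : ℂ) • x := by
    simp only [sh0, sh1, map_inv, h.inv, hx, hh, smul_smul]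
    rw [mul_inv_cancel₀ (by norm_num), one_smul]; abel
  have g : T.gen {1, (4 : ℂ) • x} = T.gen {1, x} := by
    refine Set.Subset.antisymm ((gen_w _).gen_le ?_) ((gen_w _).gen_le ?_)
    · rintro _ (rfl | rfl)
      exacts [sub_gen (.inl rfl), Gen.smul _ (.base (.inr rfl))]
    · rintro _ (rfl | h)
      · exact sub_gen (.inl rfl)
      · have := Gen.smul (T := T) (S := {1, (4 : ℂ) • x}) 4⁻¹ (.base (.inr rfl))
        rw [smul_smul, inv_mul_cancel₀ (by norm_num), one_smul] at this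
        exact h ▸ this
  rw [e, g] at r4
  refine noEig_of (T := T) ⟨Pr.one, hh_sa _ _, one_mul _⟩ fun l z hz hl => ?_
  obtain ⟨z', -, h2⟩ := r1.gen univ_w (S := {1, (4 : ℂ) • x}) (by
    rintro _ (rfl | rfl)
    · obtain ⟨y, -, h2⟩ := r2 _ (Cls.smul 4⁻¹ (.base ⟨1, rfl⟩))
      simp only [map_one, h.one] at h2
      exact ⟨y, trivial, by convert h2 using 1; module⟩
    · obtain ⟨y, -, h2⟩ := r2 _ (.base ⟨of 0, rfl⟩)
      exact ⟨y, trivial, e ▸ h2⟩) (g ▸ hz)
  obtain ⟨U, -, h3⟩ := r3 _ (.base ⟨FreeGroup.map .inl (of ()), rfl⟩)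
  beta_reduce at h3
  rw [show ps (FreeGroup.map .inl (of ())) = of 0 by simp [ps]] at h3
  have hU := (r4 _ _ h3).2 (sub_gen (.inr rfl))
  have cm : ∀ a ∈ T.gen {1, x}, a * z = z * a := fun a ha => gen_comm (by
    rintro _ (rfl | rfl) _ (rfl | rfl) <;> simp [hx, hh_sa]) ha hz
  by_contra hz0
  have n0 : T.tau (star z * z) ≠ 0 := fun e => hz0 (T.eq_zero_of_tau e)
  have W : T.IsW {a | a ∈ T.gen {1, x} ∧
      a * z - (T.tau (star z * (a * z)) * (T.tau (star z * z))⁻¹) • z = 0} := by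
    have sc : ∀ {a} (c : ℂ), a * z = c • z →
        a * z - (T.tau (star z * (a * z)) * (T.tau (star z * z))⁻¹) • z = 0 := fun c ha => by
      rw [ha, mul_smul_comm, map_smul, smul_eq_mul, mul_assoc, mul_inv_cancel₀ n0, mul_one, sub_self]
    refine ⟨(gen_w _).toIsSub.inter (zero_sub'.comap ((LinC.id.mulR z).sub
      (((LinC.id.mulR z).mulL (star z)).tau _ z))), fun {a b} ha hb => ⟨(gen_w _).mul ha.1 hb.1,
        sc _ (by rw [mul_assoc, sub_eq_zero.1 hb.2, mul_smul_comm, sub_eq_zero.1 ha.2, smul_smul])⟩,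
      fun {a} ha => ⟨(gen_w _).star ha.1, ?_⟩⟩
    obtain ⟨c, hc⟩ : ∃ c : ℂ, a * z = c • z := ⟨_, sub_eq_zero.1 ha.2⟩
    refine sc (star c) (sub_eq_zero.1 (T.eq_zero_of_tau ?_))
    have k1 : (a - c • 1) * z = 0 := by rw [sub_mul, hc, smul_one_mul, sub_self]
    have m1 := (gen_w (T := T) {1, x}).sub ha.1 ((gen_w _).smul c (sub_gen (.inl rfl)))
    have k2 : star a * z - star c • z = star (a - c • 1) * z := by
      rw [star_sub, star_smul, star_one, sub_mul, smul_one_mul]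
    rw [k2, star_mul, star_star, mul_assoc, ← mul_assoc (a - c • 1), gen_comm (by
      rintro _ (rfl | rfl) _ (rfl | rfl) <;> simp [hx, hh_sa]) m1 ((gen_w _).star m1), mul_assoc, k1,
      mul_zero, mul_zero, map_zero]
  have hc := (W.gen_le (by
    rintro _ (rfl | rfl)
    · exact ⟨sub_gen (.inl rfl), by rw [one_mul, mul_inv_cancel₀ n0, one_smul, sub_self]⟩
    · exact ⟨sub_gen (.inr rfl), by
        rw [hl, mul_smul_comm, map_smul, smul_eq_mul, mul_assoc, mul_inv_cancel₀ n0, mul_one,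
          sub_self]⟩) hU).2
  have h4 := r1.mul h3 h2
  rw [sub_eq_zero.1 hc] at h4
  have h5 := (h.haar 0).eq_zero Pr.one (one_mul z') (r1.uniq h4 (r1.smul _ h2))
  exact hz0 (r1.inj (h5 ▸ h2))

end TW

end Pool.Agent.Lib.MP_263241_an
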