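import Pool.Agent.Lib.MP_263241_an.WS
import Pool.Agent.Lib.MP_263241_an.WH

/-! The model `M₂ * ℂ²`. -/

namespace Pool.Agent.Lib.MP_263241_an

open Complex
open scoped Real

variable {R H : Type*} [CStarAlgebra R] [NormedAddCommGroup H] [InnerProductSpace ℂ H]

theorem wm_int (n : ℕ) : ∫ θ in (0 : ℝ)..π,
    ((((√(1 - Real.cos θ ^ 2) : ℝ) : ℂ) + I * (Real.cos θ : ℝ)) *
      (((√(1 - Real.cos θ ^ 2) : ℝ) : ℂ) + I * (Real.cos θ : ℝ))) ^ (n + 1) = 0 := by
  set c : ℂ := ((n + 1 : ℕ) : ℂ) * (-2 * I) with hc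
  have c0 : c ≠ 0 := mul_ne_zero (Nat.cast_ne_zero.2 n.succ_ne_zero) (by simp)
  rw [intervalIntegral.integral_congr (g := fun θ : ℝ => (-1) ^ (n + 1) * exp (c * θ)),
    intervalIntegral.integral_const_mul, integral_exp_mul_complex c0]
  · have : exp (c * π) = 1 := by
      rw [show c * π = -(((n + 1 : ℕ) : ℂ) * (2 * π * I)) by rw [hc]; ring, exp_neg,
        exp_nat_mul_two_pi_mul_I, inv_one]
    simp [this]
  · intro θ hθ
    rw [Set.uIcc_of_le Real.pi_pos.le] at hθ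
    have h1 : (Real.sin θ : ℂ) + I * (Real.cos θ : ℝ) = I * exp (-θ * I) := by
      rw [exp_mul_I, cos_neg, sin_neg]
      push_cast
      linear_combination (sin θ) * I_mul_I
    have h2 : exp (-θ * I) * exp (-θ * I) = exp (-2 * I * θ) := by
      rw [← exp_add]; congr 1; ring
    simp only
    rw [← Real.sin_eq_sqrt_one_sub_cos_sq hθ.1 hθ.2, h1, hc, mul_assoc _ (-2 * I), exp_nat_mul,
      ← mul_pow, ← h2]
    congr 1
    linear_combination (exp (-θ * I) * exp (-θ * I)) * I_mul_I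

namespace TW

variable {T : TW R H} {σ η V e : R} {φ : F2 → R}

variable (T) in
/-- The model. -/
structure Mo (σ η V e : R) (φ : F2 → R) : Prop where
  st : T.St σ V
  e1 : star η = η
  e2 : η * η = 1
  e3 : η * σ = -(σ * η)
  eV : η * V * η = -star V
  perp : ∀ y ∈ T.gen {1, V, σ}, T.tau (η * y) = 0
  he : e = (2⁻¹ : ℂ) • (1 + η)
  reg : T.Reg e φ
  gen : T.cls (Set.range φ) = cor e (T.gen {1, V, σ, η})
  sum : φ (.of 0) + φ (.of 1) = I • (XX V * σ * e)

theorem wm_polar {y q : R} (sq : SA e q) (hy : y * e = y) (h : star y * y = q * q)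
    (hi : ∀ z, e * z = z → q * z = 0 → z = 0) :
    ∃ t, star t * t = e ∧ t * e = t ∧ y = t * q ∧
      ∀ A, T.IsW A → e ∈ A → y ∈ A → q ∈ A → t ∈ A := by
  have he := sq.pr
  have hi2 : ∀ z, e * z = z → q * q * z = 0 → z = 0 := fun z h1 h2 =>
    hi z h1 (hi _ (by rw [← mul_assoc, sq.l]) (by rw [← mul_assoc, h2]))
  obtain ⟨v, v1, v2, v3, v4⟩ := polar' (T := T) he hy (by rwa [h])
  obtain ⟨r, r1, r2, r3, r4⟩ := polar' (T := T) he sq.r (by rwa [sq.st])
  rw [h] at v3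
  rw [sq.st] at r3
  have rs : Ph e (q * q) (fun t => (√t : ℝ)) = star r * q := by
    have s2 : SA e (q * q) := ⟨he, by rw [star_mul, sq.st], by rw [← mul_assoc, sq.l]⟩
    conv_rhs => rw [r3]
    rw [← mul_assoc, r1, s2.ph_l]
  have er : e * r = r :=
    (r4 _ (univ_w.cor he) ⟨trivial, he.sq, he.sq⟩ ⟨trivial, sq.l, sq.r⟩).2.1
  have rr : r * star r = e :=
    (T.pr_eq he (pr_range r1 r2) (by rw [← mul_assoc, er]) (by rw [T.tau_comm, r1])).symm
  refine ⟨v * star r, ?_, ?_, by rw [mul_assoc, ← rs, ← v3], fun A hA h1 h2 h3 =>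
    hA.mul (v4 A hA h1 h2) (hA.star (r4 A hA h1 h3))⟩
  · rw [star_mul, star_star, mul_assoc, ← mul_assoc (star v), v1, ← mul_assoc, r2, rr]
  · rw [mul_assoc, ← he.st, ← star_mul, er]

theorem wm_root {c : R} (sc : SA e c) (hn : ‖c‖ ≤ 1) (ne : NoEig e c) {κ : ℂ}
    (ht : ∀ f : ℝ → ℂ, Continuous f →
      T.tau (Ph e c f) = κ * ∫ θ in (0 : ℝ)..π, f (Real.cos θ)) :
    ∃ q, SA e q ∧ q * q = e - c * c ∧ q * c = c * q ∧ (∀ z, e * z = z → q * z = 0 → z = 0) ∧
      (∀ n : ℕ, T.tau (((q + I • c) * (q + I • c)) ^ (n + 1)) = 0) ∧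
      ∀ A, T.IsW A → e ∈ A → c * c ∈ A → q ∈ A := by
  have he := sc.pr
  let s : ℝ → ℂ := fun t => (√(1 - t ^ 2) : ℝ)
  have cs : Continuous s := by fun_prop
  have e1 : Ph e c (fun t => ((1 - t ^ 2 : ℝ) : ℂ)) = e - c * c := by
    have := SA.ph_sub (e := e) (x := c) (f := fun _ => 1) (g := fun t => (t : ℂ) * t)
      continuous_const (by fun_prop)
    rw [sc.ph_const, one_smul, sc.ph_mul (by fun_prop) (by fun_prop), sc.ph_id] at this
    rw [← this]
    congr 1
    ext t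
    push_cast
    ring
  have e2 : Ph e c s * Ph e c s = e - c * c := by
    rw [← sc.ph_mul cs cs, ← e1]
    refine sc.ph_congr fun t ht => ?_
    have h1 := abs_le.1 ((SA.spec_le ht).trans hn)
    simp only [s]
    rw [← ofReal_mul, Real.mul_self_sqrt (by nlinarith)]
  refine ⟨Ph e c s, ⟨he, ?_, sc.ph_l _⟩, e2, (sc.ph_comm rfl (by rw [sc.l, sc.r]) _).symm,
    fun z z1 z2 => ?_, fun n => ?_, fun A hA h1 h2 => ?_⟩
  · rw [← sc.ph_star]
    exact sc.ph_congr fun t _ => conj_ofReal _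
  · have h1 : (e - c * c) * z = 0 := by rw [← e2, mul_assoc, z2, mul_zero]
    have h2 := ne 1 (z + c * z) (by rw [mul_add, z1, ← mul_assoc, sc.l]) (by
      rw [sub_mul, z1, sub_eq_zero] at h1
      rw [mul_add, ← mul_assoc, ← h1, ofReal_one, one_smul, add_comm])
    exact ne (-1) z z1 (by
      rw [ofReal_neg, ofReal_one, neg_one_smul]; exact eq_neg_of_add_eq_zero_right h2)
  · let p : ℝ → ℂ := fun t => s t + I * t
    have cp : Continuous p := by fun_prop
    have h1 : Ph e c s + I • c = Ph e c p := by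
      rw [SA.ph_add cs (by fun_prop), SA.ph_smul _ (by fun_prop), sc.ph_id]
    have h2 : ∀ n : ℕ, (Ph e c p * Ph e c p) ^ (n + 1) = Ph e c fun t => (p t * p t) ^ (n + 1) := by
      intro n
      induction n with
      | zero => simp [sc.ph_mul cp cp]
      | succ n ih =>
        rw [pow_succ, ih, ← sc.ph_mul cp cp, ← sc.ph_mul (by fun_prop) (by fun_prop)]
        simp only [← pow_succ]
    rw [h1, h2, ht _ (by fun_prop), wm_int, mul_zero]
  · exact hA.ph_comp sc h1 (f := fun t => ((1 - t ^ 2 : ℝ) : ℂ)) (by fun_prop)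
      (e1 ▸ hA.sub h1 h2) (F := fun w => (√w.re : ℝ)) (by fun_prop)

theorem wm_pair {c q u : R} {D : Set R} (ht : T.tau e ≠ 0) (sc : SA e c) (sq : SA e q)
    (h1 : q * q = e - c * c) (h2 : q * c = c * q) (h3 : ∀ z, e * z = z → q * z = 0 → z = 0)
    (h4 : ∀ n : ℕ, T.tau (((q + I • c) * (q + I • c)) ^ (n + 1)) = 0)
    (h5 : ∀ A, T.IsW A → e ∈ A → c * c ∈ A → q ∈ A) (hD : T.Alg e D) (hc : c ∈ D)
    (hu : T.Haar e u) (hF : T.Free (T.gen {e, u}) D) :
    ∃ φ : F2 → R, T.Reg e φ ∧ φ (.of 0) + φ (.of 1) = (2 : ℂ) • (q * u) ∧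
      T.cls (Set.range φ) = T.gen {e, c, u} := by
  have he := sc.pr
  obtain ⟨P, hP⟩ : ∃ P, P = q + I • c := ⟨_, rfl⟩
  rw [← hP] at h4
  have sP : star P = q - I • c := by
    rw [hP, star_add, star_smul, sq.st, sc.st, RCLike.star_def, conj_I, neg_smul, sub_eq_add_neg]
  have P1 : star P * P = e := by
    rw [sP, hP]
    simp only [sub_mul, mul_add, smul_mul_assoc, mul_smul_comm, h1, h2]
    match_scalars <;> grind [I_mul_I]
  have P2 : P * star P = e := by
    rw [sP, hP]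
    simp only [add_mul, mul_sub, smul_mul_assoc, mul_smul_comm, h1, h2]
    match_scalars <;> grind [I_mul_I]
  have eP := he.pi_l P2
  have Pe := he.pi_r P1
  have PD : P ∈ D := hP ▸ hD.add (h5 D hD.toIsW hD.one (hD.mul hc hc)) (hD.smul _ hc)
  have hz : T.Haar e (P * P) := ⟨by rw [← mul_assoc, eP], (pi_comp he P1 P2 P1 P2).1,
    (pi_comp he P1 P2 P1 P2).2, h4⟩
  obtain ⟨ha, hF'⟩ := hu.mul_free ht hD hF PD hD.one P1 P2 (by rw [he.st, he.sq])
    (by rw [he.st, he.sq])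
  rw [mul_assoc, hu.r he] at ha hF'
  obtain ⟨χ, hχ, χ0, χ1⟩ := reg_of_free he ha hz (hF'.mono le_rfl (hD.gen_le (by
    rintro _ (rfl | rfl)
    exacts [hD.one, hD.mul PD PD])))
  let f : F2 →* F2 := FreeGroup.lift ![.of 0, (FreeGroup.of 1)⁻¹ * .of 0]
  let g : F2 →* F2 := FreeGroup.lift ![.of 0, .of 0 * (FreeGroup.of 1)⁻¹]
  have gf : g.comp f = MonoidHom.id _ :=
    FreeGroup.ext_hom _ _ (Fin.forall_fin_two.2 ⟨by simp [f, g], by simp [f, g]⟩)
  have hr := hχ.comp_inj f (Function.LeftInverse.injective (g := g) (DFunLike.congr_fun gf))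
  have f0 : χ (f (.of 0)) = P * u := by simpa [f] using χ0
  have f1 : χ (f (.of 1)) = star P * u := by
    rw [show f (.of 1) = (FreeGroup.of 1)⁻¹ * .of 0 by simp [f], hχ.mul, hχ.inv, χ0, χ1, star_mul,
      mul_assoc, ← mul_assoc _ P, P1, hu.l]
  refine ⟨_, hr, ?_, Set.Subset.antisymm (hom_mem hr.toHom (gen_w _) (sub_gen (.inl rfl)) ?_) ?_⟩
  · rw [f0, f1, ← add_mul, sP, hP, ← smul_mul_assoc]
    congr 1
    module
  · have W := gen_w (T := T) {e, c, u}
    have a1 : c ∈ T.gen {e, c, u} := sub_gen (.inr (.inl rfl))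
    have a2 : u ∈ T.gen {e, c, u} := sub_gen (.inr (.inr rfl))
    have a3 : P ∈ T.gen {e, c, u} :=
      hP ▸ W.add (h5 _ W (sub_gen (.inl rfl)) (W.mul a1 a1)) (W.smul _ a1)
    exact Fin.forall_fin_two.2 ⟨f0 ▸ W.mul a3 a2, f1 ▸ W.mul (W.star a3) a2⟩
  · have W := hom_alg (T := T) hr.toHom
    set X := T.cls (Set.range fun g => χ (f g))
    have a0 : P * u ∈ X := f0 ▸ sub_cls ⟨_, rfl⟩
    have a1 : star P * u ∈ X := f1 ▸ sub_cls ⟨_, rfl⟩
    have a2 : P * P ∈ X := by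
      have := W.mul a0 (W.star a1)
      rwa [star_mul, star_star, mul_assoc, ← mul_assoc u, hu.us, eP] at this
    have a3 := W.star a2
    rw [star_mul] at a3
    have a4 : c * c ∈ X := by
      have := W.smul (4⁻¹) (W.sub (W.smul 2 W.one) (W.add a2 a3))
      convert this using 1
      rw [sP, hP]
      simp only [add_mul, mul_add, sub_mul, mul_sub, smul_mul_assoc, mul_smul_comm, h1, h2]
      match_scalars <;> grind [I_mul_I]
    have a5 := h5 X W.toIsW W.one a4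
    have a6 : c ∈ X := mem_of_mul W.toIsW W.one sq a5 h3 sc.l (by
      have := W.smul (-I / 4) (W.sub a2 a3)
      convert this using 1
      rw [sP, hP]
      simp only [add_mul, mul_add, sub_mul, mul_sub, smul_mul_assoc, mul_smul_comm, h1, h2]
      match_scalars <;> grind [I_mul_I])
    have a7 : P ∈ X := hP ▸ W.add a5 (W.smul _ a6)
    refine W.gen_le ?_
    rintro _ (rfl | rfl | rfl)
    · exact W.one
    · exact a6
    · have := W.mul (W.star a7) a0
      rwa [← mul_assoc, P1, hu.l] at this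

theorem wm_half {S : R} (h1 : T.tau 1 = 1) (s1 : star S = S) (s2 : S * S = 1) (s0 : T.tau S = 0) :
    ∃ f l, Pr f ∧ Pr l ∧ f * l = 0 ∧ 1 = f + l ∧ S = f - l ∧ T.tau f = 2⁻¹ ∧ T.tau l = 2⁻¹ ∧
      T.cls {f, l} = T.cls {1, S} := by
  have V := fun S => cls_sub (T := T) S
  refine ⟨(2⁻¹ : ℂ) • (1 + S), (2⁻¹ : ℂ) • (1 - S), ⟨by simp [s1], ?_⟩, ⟨by simp [s1], ?_⟩, ?_,
    by module, by module, by simp [h1, s0], by simp [h1, s0],
    Set.Subset.antisymm ((V _).cls_le ?_) ((V _).cls_le ?_)⟩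
  · simp only [smul_mul_assoc, mul_smul_comm, add_mul, mul_add, one_mul, mul_one, s2]
    module
  · simp only [smul_mul_assoc, mul_smul_comm, sub_mul, mul_sub, one_mul, mul_one, s2]
    module
  · simp only [smul_mul_assoc, mul_smul_comm, add_mul, mul_sub, one_mul, mul_one, s2]
    module
  · rintro _ (rfl | rfl)
    · exact (V _).smul _ ((V _).add (sub_cls (.inl rfl)) (sub_cls (.inr rfl)))
    · exact (V _).smul _ ((V _).sub (sub_cls (.inl rfl)) (sub_cls (.inr rfl)))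
  · intro x hx
    rcases hx with hx | hx
    · have := (V {(2⁻¹ : ℂ) • (1 + S), (2⁻¹ : ℂ) • (1 - S)}).add (sub_cls (.inl rfl))
        (sub_cls (.inr rfl))
      convert this using 1
      rw [hx]
      module
    · have := (V {(2⁻¹ : ℂ) • (1 + S), (2⁻¹ : ℂ) • (1 - S)}).sub (sub_cls (.inl rfl))
        (sub_cls (.inr rfl))
      convert this using 1
      rw [show x = S from hx]
      module

theorem wm_core {k w S : R} (h1 : T.tau 1 = 1) (he : Pr e) (hk : Pr k) (o : e * k = 0)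
    (hp : 1 = e + k) (te : T.tau e = 2⁻¹) (tk : T.tau k = 2⁻¹) (w1 : star w * w = e)
    (w2 : w * star w = k) (s1 : star S = S) (s2 : S * S = 1) (s0 : T.tau S = 0)
    (hF : T.Free (T.cls {e, k, w, star w}) (T.cls {1, S})) :
    ∃ φ, T.Mo (w + star w) (e - k) ((-I • (e - k)) * S) e φ := by
  have hA := alg_m2 (T := T) he hk o hp w1 w2
  have o' := he.orth hk o
  have a1 := hk.pi_l w2
  have a2 := he.pi_r w1
  have a3 : e * w = 0 := by rw [← a1, ← mul_assoc, o, zero_mul]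
  have a4 : w * k = 0 := by rw [← a2, mul_assoc, o, mul_zero]
  have b1 : star w * k = star w := by rw [← hk.st, ← star_mul, a1]
  have b2 : e * star w = star w := by rw [← he.st, ← star_mul, a2]
  have b3 : star w * e = 0 := by rw [← he.st, ← star_mul, a3, star_zero]
  have b4 : k * star w = 0 := by rw [← hk.st, ← star_mul, a4, star_zero]
  have c1 : w * w = 0 := by rw [← a2, mul_assoc, ← mul_assoc e, a3, zero_mul, mul_zero]
  have c2 : star w * star w = 0 := by rw [← star_mul, c1, star_zero]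
  have m1 : e ∈ T.cls {e, k, w, star w} := sub_cls (.inl rfl)
  have m2 : k ∈ T.cls {e, k, w, star w} := sub_cls (.inr (.inl rfl))
  have m3 : w ∈ T.cls {e, k, w, star w} := sub_cls (.inr (.inr (.inl rfl)))
  have tw : T.tau w = 0 := by rw [← a2, T.tau_comm, a3, map_zero]
  have tw' : T.tau (star w) = 0 := by rw [T.tau_star, tw, map_zero]
  have te0 : T.tau e ≠ 0 := by rw [te]; norm_num
  have tk0 : T.tau k ≠ 0 := by rw [tk]; norm_num
  have t10 : T.tau 1 ≠ 0 := by rw [h1]; norm_num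
  obtain ⟨η, hη⟩ : ∃ η, η = e - k := ⟨_, rfl⟩
  obtain ⟨σ, hσ⟩ : ∃ σ, σ = w + star w := ⟨_, rfl⟩
  rw [← hη, ← hσ]
  have η1 : star η = η := by rw [hη, star_sub, he.st, hk.st]
  have η2 : η * η = 1 := by
    rw [hη, sub_mul, mul_sub, mul_sub, he.sq, hk.sq, o, o', hp]; abel
  have η0 : T.tau η = 0 := by rw [hη, map_sub, te, tk, sub_self]
  have σ1 : star σ = σ := by rw [hσ, star_add, star_star, add_comm]
  have σ2 : σ * σ = 1 := by
    rw [hσ, add_mul, mul_add, mul_add, c1, c2, w1, w2, hp]; abel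
  have σ0 : T.tau σ = 0 := by rw [hσ, map_add, tw, tw', add_zero]
  have ησ : η * σ = star w - w := by
    rw [hη, hσ, sub_mul, mul_add, mul_add, a1, a3, b2, b4]; abel
  have ση : σ * η = w - star w := by
    rw [hη, hσ, add_mul, mul_sub, mul_sub, a2, a4, b1, b3]; abel
  have σe : σ * e = w := by rw [hσ, add_mul, a2, b3, add_zero]
  have ee : e = (2⁻¹ : ℂ) • (1 + η) := by rw [hη, hp]; module
  have kk : k = (2⁻¹ : ℂ) • (1 - η) := by rw [hη, hp]; module
  have eη : e * η = e := by rw [hη, mul_sub, he.sq, o, sub_zero]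
  have ηe : η * e = e := by rw [hη, sub_mul, he.sq, o', sub_zero]
  have ηA : η ∈ T.cls {e, k, w, star w} := hη ▸ hA.sub m1 m2
  have sg : star (-I • η) = I • η := by rw [star_smul, η1]; simp
  obtain ⟨V1, V2, V3⟩ := sym_haar s1 s2 h1 s0 hA hF (g := -I • η) (κ := σ) (hA.smul _ ηA)
    (by rw [sg, smul_mul_smul_comm, η2]; simp) (by rw [sg, smul_mul_smul_comm, η2]; simp)
    (by rw [map_smul, η0, smul_zero]) (hσ ▸ hA.add m3 (hA.star m3)) σ1 σ2 σ0
    (by rw [mul_smul_comm, ση, map_smul, map_sub, tw, tw', sub_self, smul_zero])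
  replace V3 := V3 η ηA η0 (by rw [ησ, map_sub, tw, tw', sub_self])
  obtain ⟨V, hV⟩ : ∃ V, V = (-I • η) * S := ⟨_, rfl⟩
  rw [← hV] at V1 V2 V3 ⊢
  have sV : star V = I • (S * η) := by rw [hV, star_mul, sg, s1, mul_smul_comm]
  have IV : I • V = η * S := by rw [hV, smul_mul_assoc, smul_smul]; simp
  -- the diagonal algebra
  obtain ⟨f, l, hf, hl, o2, hp2, hS, tf, -, hfl⟩ := wm_half h1 s1 s2 s0
  rw [← hfl] at hF
  have hs : T.cls {e, k} ⊆ T.cls {e, k, w, star w} := cls_mono (by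
    rintro _ (rfl | rfl)
    exacts [.inl rfl, .inr (.inl rfl)])
  have hA0 := alg2 (T := T) he hk o hp
  have hC := alg2 (T := T) hf hl o2 hp2
  have eA : e ∈ T.cls {e, k} := sub_cls (.inl rfl)
  have fC : f ∈ T.cls {f, l} := sub_cls (.inl rfl)
  have hN := hA0.gen_union hC
  have i1 : T.tau e = ((1 / 2 : ℝ) : ℂ) * T.tau 1 := by rw [te, h1]; push_cast; ring
  obtain ⟨-, -, -, -, -, -, -, -, -, -, -, -, -, -, -, -, -, -, -, -, -, hG, -⟩ :=
    tp Pr.one he hf (one_mul e) (one_mul f) t10 (by norm_num) le_rfl (by norm_num) i1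
      ((hF.mono hs le_rfl).z_pr hA0 hC eA fC i1 (by rw [tf, h1]; push_cast; ring))
      (gen_w (T.cls {e, k} ∪ T.cls {f, l})) (sub_gen (.inl eA)) (sub_gen (.inr fC)) hN.one
      (gen2_le hp hp2)
  set N := T.gen (T.cls {e, k} ∪ T.cls {f, l}) with hNd
  have eN : e ∈ N := sub_gen (.inl eA)
  have kN : k ∈ N := sub_gen (.inl (sub_cls (.inr rfl)))
  have SN : S ∈ N := sub_gen (.inr (hfl ▸ sub_cls (.inr rfl)))
  have hD := hN.cor_alg he eN
  -- the element `c`
  obtain ⟨c, hc⟩ : ∃ c, c = e * S * e := ⟨_, rfl⟩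
  have cD : c ∈ cor e N := hc ▸ hN.mem_cor he eN SN
  have sc : SA e c := ⟨he, by rw [hc, star_mul, star_mul, he.st, s1, mul_assoc], cD.2.1⟩
  have nc : ‖c‖ ≤ 1 := by
    have n1 : ‖S‖ ≤ 1 := by
      have := CStarRing.norm_star_mul_self (x := S)
      rw [s1, s2] at this
      nlinarith [(Pr.one (R := R)).norm_le, norm_nonneg S]
    rw [hc]
    exact (norm_mul_le _ _).trans (mul_le_one₀ ((norm_mul_le _ _).trans
      (mul_le_one₀ he.norm_le (norm_nonneg _) n1)) (norm_nonneg _) he.norm_le)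
  have hW : T.Haar 1 (I • V) := V1.smul norm_I
  have WV : I • V ∈ T.gen {1, V, σ} := (gen_w _).smul _ (sub_gen (.inr (.inl rfl)))
  obtain ⟨C, hC'⟩ : ∃ C, C = (2⁻¹ : ℂ) • (I • V + star (I • V)) := ⟨_, rfl⟩
  have CV : C ∈ T.gen {1, V, σ} :=
    hC' ▸ (gen_w _).smul _ ((gen_w _).add WV ((gen_w _).star WV))
  have sC : SA 1 C := ⟨Pr.one, by rw [hC']; simp [add_comm], one_mul _⟩
  have Cη : C = (2⁻¹ : ℂ) • (η * S + S * η) := by rw [hC', IV, star_mul, s1, η1]
  have eC : e * C = c := by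
    have : e * S * η = (2 : ℂ) • (e * S * e) - e * S := by
      nth_rewrite 3 [ee]
      rw [mul_smul_comm, mul_add, mul_one]
      module
    rw [Cη, hc, mul_smul_comm, mul_add, ← mul_assoc, ← mul_assoc, eη, this]
    module
  have Ce : C * e = c := by rw [← sc.st, ← eC, star_mul, sC.st, he.st]
  have cp : ∀ n : ℕ, c ^ (n + 1) = e * C ^ (n + 1) := fun n => by
    induction n with
    | zero => simp [eC]
    | succ n ih => rw [pow_succ', ih, ← mul_assoc, sc.r, ← eC, mul_assoc, ← pow_succ']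
  have hGr := gr_sa (T := T) (T' := T) (c := 1 / 2) (by norm_num) sC sc i1 fun n => by
    have : C ^ (n + 1) ∈ T.gen {1, V, σ} := by
      induction n with
      | zero => simpa using CV
      | succ n ih => rw [pow_succ]; exact (gen_w _).mul ih CV
    rw [cp, ee, smul_mul_assoc, add_mul, one_mul, map_smul, map_add, V3 _ this]
    simp
  obtain ⟨q, sq, q1, q2, q3, q4, q5⟩ := wm_root (T := T) sc nc (fun r z z1 z2 =>
    hW.re_noEig Pr.one r z (one_mul z) (by rw [← hC', ← z2, ← Ce, mul_assoc, z1]))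
    (κ := (1 / 2 : ℝ) * (T.tau 1 * (π⁻¹ : ℝ))) fun g hg => by
      have := hGr.tr _ (hGr.ph sC sc (sub_gen (.inl rfl)) (sub_gen (.inr rfl)) hg)
      simp only at this
      rw [this, hC', hW.re_int Pr.one hg]
      ring
  have qD : q ∈ cor e N := q5 _ hD.toIsW hD.one (hD.mul cD cD)
  -- the polar part `t`
  have ke : k = 1 - e := by rw [hp, add_sub_cancel_left]
  obtain ⟨t, t1, t2, t3, t4⟩ := wm_polar (T := T) (y := k * S * e) sq
    (by rw [mul_assoc, he.sq]) (by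
      rw [q1, hc, star_mul, star_mul, he.st, hk.st, s1]
      simp only [mul_assoc, hk.l, he.l]
      rw [ke, sub_mul, one_mul, mul_sub, mul_sub, ← mul_assoc S S, s2, one_mul, he.sq]) q3
  have tN : t ∈ N := t4 N hN.toIsW eN (hN.mul (hN.mul kN SN) eN) qD.1
  have kt : k * t = t := by
    have := q3 (star (k * t - t)) (by rw [← he.st, ← star_mul, sub_mul, mul_assoc, t2]) (by
      rw [← sq.st, ← star_mul, sub_mul, mul_assoc, ← t3, ← mul_assoc, ← mul_assoc, hk.sq, sub_self,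
        star_zero])
    rwa [star_eq_zero, sub_eq_zero] at this
  have t5 : t * star t = k :=
    (T.pr_eq hk (pr_range t1 t2) (by rw [← mul_assoc, kt]) (by rw [T.tau_comm, t1, te, tk])).symm
  have Z := haar_free t10 hA hC hF he hk o te0 tk0 hA0 hs m3 a1 a2 tN t1 kt t2
  have et : e * star t = star t := by rw [← he.st, ← star_mul, t2]
  have su : star (star t * w) = star w * t := by rw [star_mul, star_star]
  have hu : T.Haar e (star t * w) := ⟨by rw [← mul_assoc, et], by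
    rw [su, mul_assoc, ← mul_assoc t, t5, a1, w1], by
    rw [su, mul_assoc, ← mul_assoc w, w2, kt, t1], fun n => Z _ _ (.x1 ⟨n, .inl rfl⟩)⟩
  obtain ⟨φ, φ1, φ2, φ3⟩ := wm_pair te0 sc sq q1 q2 q3 q4 q5 hD cD hu
    (hu.free_of_z he te0 (by rwa [su]))
  refine ⟨φ, ⟨h1, σ1, σ2, σ0, V1, V2⟩, η1, η2, by rw [ησ, ση, neg_sub], ?_, V3, ee, φ1, ?_, ?_⟩
  · rw [sV, hV, smul_mul_assoc, mul_smul_comm, ← mul_assoc, η2, one_mul, smul_mul_assoc, neg_smul]
  · have W := gen_w (T := T) {1, V, σ, η}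
    have n1 : (1 : R) ∈ T.gen {1, V, σ, η} := sub_gen (.inl rfl)
    have n2 : V ∈ T.gen {1, V, σ, η} := sub_gen (.inr (.inl rfl))
    have n3 : σ ∈ T.gen {1, V, σ, η} := sub_gen (.inr (.inr (.inl rfl)))
    have n4 : η ∈ T.gen {1, V, σ, η} := sub_gen (.inr (.inr (.inr rfl)))
    have n5 : e ∈ T.gen {1, V, σ, η} := ee ▸ W.smul _ (W.add n1 n4)
    have n6 : k ∈ T.gen {1, V, σ, η} := kk ▸ W.smul _ (W.sub n1 n4)
    have n7 : S ∈ T.gen {1, V, σ, η} := by
      have := W.mul n4 (W.smul I n2)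
      rwa [IV, ← mul_assoc, η2, one_mul] at this
    have n8 : N ⊆ T.gen {1, V, σ, η} := W.gen_le (Set.union_subset (W.cls_le (by
      rintro _ (rfl | rfl)
      exacts [n5, n6])) (hfl ▸ W.cls_le (by
      rintro _ (rfl | rfl)
      exacts [n1, n7])))
    rw [φ3]
    refine Set.Subset.antisymm ((W.cor he).gen_le ?_) ?_
    · rintro _ (rfl | rfl | rfl)
      exacts [⟨n5, he.sq, he.sq⟩, cor_mono n8 cD,
        ⟨W.mul (W.star (n8 tN)) (σe ▸ W.mul n3 n5), hu.l, hu.r he⟩]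
    have U := gen_w (T := T) (T.cls {e, k, w, star w} ∪ T.cls {f, l})
    have X := gen_w (T := T) {e, c, star t * w}
    have x1 : e ∈ T.gen {e, c, star t * w} := sub_gen (.inl rfl)
    refine (cor_mono (U.gen_le ?_)).trans ((gen_corner (D0 := {e, star t * w}) hN he eN ?_
      (fun s hs => hs.imp hA.star hC.star) ?_).trans (X.gen_le (Set.union_subset ?_ ?_)))
    · have := sub_gen (T := T) (S := T.cls {e, k, w, star w} ∪ T.cls {f, l})
      rintro _ (rfl | rfl | rfl | rfl)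
      · exact this (.inl hA.one)
      · exact hV ▸ U.mul (U.smul _ (this (.inl ηA))) (this (.inr (hfl ▸ sub_cls (.inr rfl))))
      · exact this (.inl (hσ ▸ hA.add m3 (hA.star m3)))
      · exact this (.inl ηA)
    · rintro _ (rfl | rfl)
      exacts [⟨he.sq, he.sq⟩, ⟨hu.l, hu.r he⟩]
    · rintro s (hs | hs)
      · refine cls_mono ?_ hs
        rintro _ (rfl | rfl | rfl | rfl)
        · exact .inl eN
        · exact .inl kN
        · exact .inr ⟨t, tN, _, sub_gen (.inr rfl), e, eN, by rw [← mul_assoc, t5, a1, a2]⟩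
        · exact .inr ⟨e, eN, _, (gen_w _).star (sub_gen (.inr rfl)), star t, hN.star tN, by
            rw [su, mul_assoc, mul_assoc, t5, b1, b2]⟩
      · exact sub_cls (.inl (sub_gen (.inr hs)))
    · rintro _ (rfl | rfl)
      exacts [x1, sub_gen (.inr (.inr rfl))]
    · rw [← hG]
      refine X.gen_le ?_
      rintro _ (rfl | rfl)
      · exact x1
      · have := X.smul 2⁻¹ (X.add x1 (sub_gen (.inr (.inl rfl))))
        convert this using 1
        have f2 : f = (2⁻¹ : ℂ) • (1 + S) := by rw [hS, hp2]; module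
        rw [hc, f2, mul_smul_comm, smul_mul_assoc, mul_add, add_mul, mul_one, he.sq]
  · have y1 : q * star t = e * S * k := by
      have := congrArg star t3
      rw [star_mul, star_mul, star_mul, he.st, s1, hk.st, sq.st, ← mul_assoc] at this
      exact this.symm
    have ηw : η * w = -w := by rw [hη, sub_mul, a3, a1, zero_sub]
    rw [φ2, ← mul_assoc, y1, mul_assoc, a1, mul_assoc (XX V), σe, XX, sV, hV, ee]
    simp only [add_mul, smul_mul_assoc, one_mul, mul_assoc, ηw, mul_neg]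
    match_scalars <;> grind [I_mul_I]

theorem Reg.exists_mo {ψ : FreeGroup (Fin 3) → R} (h : T.Reg 1 ψ) (h1 : T.tau 1 = 1) :
    ∃ σ η V e φ, T.Mo σ η V e φ := by
  obtain ⟨x, xm, x1, x2, x0⟩ := (h.haar 0).exists_sym h1
  obtain ⟨y, ym, y1, y2, y0⟩ := (h.haar 1).exists_sym h1
  obtain ⟨S, Sm, s1, s2, s0⟩ := (h.haar 2).exists_sym h1
  obtain ⟨e, k, he, hk, o, hp, -, te, tk, hx⟩ := wm_half h1 x1 x2 x0
  obtain ⟨f, l, hf, hl, o', hp', -, tf, -, hy⟩ := wm_half h1 y1 y2 y0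
  have sub : ∀ {x u : R}, x ∈ T.gen {1, u} → T.cls {1, x} ⊆ T.gen {1, u} := fun hx =>
    (gen_w _).cls_le (by
      rintro _ (rfl | rfl)
      exacts [sub_gen (.inl rfl), hx])
  obtain ⟨⟨w, wN, w1, w2⟩, -⟩ := tp_half (by norm_num) he hk hf hl o o' hp hp' te tk tf
    ((h.free2 (i := 0) (j := 1) (by decide)).mono (hx ▸ sub xm) (hy ▸ sub ym))
  have hF := h.free_fam (S := {0, 1}) (S' := {2}) (by simp)
  have W := gen_w (T := T) (insert 1 ((fun i => ψ (.of i)) '' {0, 1}))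
  have hN : T.gen (T.cls {e, k} ∪ T.cls {f, l}) ⊆ T.gen (insert 1 ((fun i => ψ (.of i)) '' {0, 1})) := by
    rw [hx, hy]
    refine W.gen_le (Set.union_subset ((sub xm).trans (gen_mono ?_)) ((sub ym).trans (gen_mono ?_)))
    · rintro _ (rfl | rfl)
      exacts [.inl rfl, .inr ⟨0, .inl rfl, rfl⟩]
    · rintro _ (rfl | rfl)
      exacts [.inl rfl, .inr ⟨1, .inr rfl, rfl⟩]
  obtain ⟨φ, hφ⟩ := wm_core h1 he hk o hp te tk w1 w2 s1 s2 s0 (hF.mono (W.cls_le (by
    rintro _ (rfl | rfl | rfl | rfl)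
    exacts [hN (sub_gen (.inl (sub_cls (.inl rfl)))), hN (sub_gen (.inl (sub_cls (.inr rfl)))),
      hN wN, W.star (hN wN)])) (by rw [Set.image_singleton]; exact sub Sm))
  exact ⟨_, _, _, _, _, hφ⟩

end TW

end Pool.Agent.Lib.MP_263241_an
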