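import Pool.Agent.Lib.MP_263241_an.WM
import Pool.Agent.Lib.MP_263241_an.WA2

/-! The absorption of the sign in the corner of the model. -/

namespace Pool.Agent.Lib.MP_263241_an

open Complex Filter Topology

variable {R H : Type*} [CStarAlgebra R] [NormedAddCommGroup H] [InnerProductSpace ℂ H]

theorem wm2_alg {X σ η e : R} (hX : star X = X) (s1 : star σ = σ) (s2 : σ * σ = 1)
    (e1 : star η = η) (e2 : η * η = 1) (e3 : η * σ = -(σ * η)) (e4 : η * X = -(X * η))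
    (he : e = (2⁻¹ : ℂ) • (1 + η)) : Pr e ∧ e * η = e ∧ e * σ * η = -(e * σ) ∧ e * σ * e = 0 ∧
      e * X = X * σ * e * (e * σ) ∧ e * σ * X = star (X * σ * e) * e ∧
      e * (X * σ * e) = X * σ * e ∧
      X * σ * e - star (X * σ * e) = (X - σ * X * σ) * σ * e := by
  have a2 : ∀ x, σ * (σ * x) = x := fun x => by rw [← mul_assoc, s2, one_mul]
  have a3 : ∀ x, η * (σ * x) = -(σ * (η * x)) := fun x => by
    rw [← mul_assoc, e3, neg_mul, mul_assoc]
  have a4 : ∀ x, η * (X * x) = -(X * (η * x)) := fun x => by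
    rw [← mul_assoc, e4, neg_mul, mul_assoc]
  have st : star e = e := by simp [he, e1]
  simp only [star_mul, st, hX, s1]
  refine ⟨⟨st, ?_⟩, ?_, ?_, ?_, ?_, ?_, ?_, ?_⟩ <;>
    simp only [he, mul_add, add_mul, sub_mul, smul_mul_assoc, mul_smul_comm, mul_assoc,
      one_mul, mul_one, a2, a3, a4, e2, e3, e4, s2, mul_neg, neg_mul, neg_neg] <;>
    module

namespace TW

variable {T : TW R H} {σ η V e : R} {φ : F2 → R}

theorem wm2_fst {R' H' : Type*} [CStarAlgebra R'] [NormedAddCommGroup H'] [InnerProductSpace ℂ H']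
    {T' : TW R' H'} {A : Set R} {B : Set R'} (hA : T.IsW A) (hB : T'.IsW B) :
    (T.prod T').IsW (A ×ˢ B) :=
  ⟨⟨⟨hA.zero, hB.zero⟩, fun a b => ⟨hA.add a.1 b.1, hB.add a.2 b.2⟩,
    fun c _ a => ⟨hA.smul c a.1, hB.smul c a.2⟩, fun _ _ ha hl =>
      ⟨hA.lim _ (fun n => (ha n).1) (lim_prod.1 hl).1, hB.lim _ (fun n => (ha n).2) (lim_prod.1 hl).2⟩⟩,
    fun a b => ⟨hA.mul a.1 b.1, hB.mul a.2 b.2⟩, fun a => ⟨hA.star a.1, hB.star a.2⟩⟩

theorem IsW.hh_mem {A : Set R} (hA : T.IsW A) {a b : R} (ha : a ∈ A) (hb : b ∈ A) :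
    hh a b ∈ A ∧ kk a b ∈ A :=
  ⟨hA.smul _ (hA.add (hA.add (hA.add ha (hA.star ha)) hb) (hA.star hb)),
    hA.smul _ (hA.sub (hA.sub (hA.add ha hb) (hA.star ha)) (hA.star hb))⟩

theorem wm2_ext {A S : Set R} (hA : T.IsW A) {E : R} (e1 : star E = E) (e2 : E * E = 1)
    (hc : ∀ z ∈ A, E * z * E ∈ A) (hS : ∀ s ∈ S, s ∈ A ∨ E * s ∈ A) :
    T.gen S ⊆ T.cls {z | z ∈ A ∨ E * z ∈ A} := by
  have a1 : ∀ x, E * (E * x) = x := fun x => by rw [← mul_assoc, e2, one_mul]
  refine (cls_w ?_ ?_).gen_le fun s hs => sub_cls (hS s hs)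
  · rintro s (h | h)
    · exact sub_cls (.inl (hA.star h))
    · refine sub_cls (.inr ?_)
      simpa only [star_mul, e1, mul_assoc, e2, mul_one] using hc _ (hA.star h)
  · rintro s (h | h) t (k | k)
    · exact sub_cls (.inl (hA.mul h k))
    · refine sub_cls (.inr ?_)
      simpa only [mul_assoc, a1] using hA.mul (hc _ h) k
    · exact sub_cls (.inr (mul_assoc E s t ▸ hA.mul h k))
    · refine sub_cls (.inl ?_)
      simpa only [mul_assoc, a1] using hA.mul (hc _ h) k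

theorem wm2_conj {A : Set R} (hA : T.IsW A) {E : R} (e1 : star E = E) (e2 : E * E = 1) :
    T.IsW {z | E * z * E ∈ A} :=
  ⟨hA.toIsSub.comap ((LinC.id.mulL E).mulR E), fun {x y} a b => by
    simpa only [Set.mem_ofPred_eq, mul_assoc, ← mul_assoc E E, e2, one_mul] using hA.mul a b,
    fun {x} a => by simpa only [Set.mem_ofPred_eq, star_mul, e1, mul_assoc] using hA.star a⟩

/-- Generators of the corner. -/
theorem cor_eta {X : R} (hX : star X = X) (s1 : star σ = σ) (s2 : σ * σ = 1) (e1 : star η = η)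
    (e2 : η * η = 1) (e3 : η * σ = -(σ * η)) (e4 : η * X = -(X * η))
    (he : e = (2⁻¹ : ℂ) • (1 + η)) : cor e (T.gen {1, X, σ, η}) ⊆ T.gen {e, X * σ * e} := by
  obtain ⟨p, a1, a2, a3, a4, a5, -⟩ := wm2_alg hX s1 s2 e1 e2 e3 e4 he
  have w := gen_w (T := T) {e, X * σ * e}
  have m1 : e ∈ T.gen {e, X * σ * e} := sub_gen (.inl rfl)
  have m2 : X * σ * e ∈ T.gen {e, X * σ * e} := sub_gen (.inr rfl)
  intro x hx
  have := ((w.toIsSub.comap ((LinC.id.mulL e).mulR e)).inter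
    (w.toIsSub.comap ((LinC.id.mulL (e * σ)).mulR e))).stab ?_ ?_ hx.1 1 ⟨?_, ?_⟩
  · simpa only [mul_one, Set.mem_ofPred_eq, hx.2.1, hx.2.2] using this.1
  · rintro s (rfl | rfl | rfl | rfl) <;> simp [*]
  · rintro s (rfl | rfl | rfl | rfl) v ⟨h1, h2⟩ <;> simp only [Set.mem_ofPred_eq] at h1 h2 <;>
      refine ⟨?_, ?_⟩ <;> simp only [Set.mem_ofPred_eq, ← mul_assoc]
    · rwa [mul_one]
    · rwa [mul_one]
    · rw [a4]
      simpa only [mul_assoc] using w.mul m2 h2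
    · rw [a5]
      simpa only [mul_assoc] using w.mul (w.star m2) h1
    · exact h2
    · rwa [mul_assoc e, s2, mul_one]
    · rwa [a1]
    · rw [a2]
      simpa only [neg_mul, neg_smul, one_smul] using w.smul (-1) h2
  · simpa only [Set.mem_ofPred_eq, mul_one, p.sq] using m1
  · simpa only [Set.mem_ofPred_eq, mul_one, a3] using w.zero

/-- The graph of the pair of triples. -/
theorem Mo.gr (h : T.Mo σ η V e φ) {W : R} (hW : T.St σ W) (eW : η * W * η = -star W)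
    (hg : T.gen {1, W, σ} = T.gen {1, V, σ}) :
    T.Gr T 1 1 ((T.prod T).gen {1, (V, W), (σ, σ), (η, η)}) := by
  have hG := h.st.gr hW
  have w := hG.alg.toIsW
  have e1 : star (η, η) = (η, η) := Prod.ext h.e1 h.e1
  have e2 : (η, η) * (η, η) = 1 := Prod.ext h.e2 h.e2
  have m1 : (V, W) ∈ (T.prod T).gen {1, (V, W), (σ, σ)} := sub_gen (.inr (.inl rfl))
  have m2 : (σ, σ) ∈ (T.prod T).gen {1, (V, W), (σ, σ)} := sub_gen (.inr (.inr rfl))
  have e3 : η * σ * η = -σ := by rw [h.e3, neg_mul, mul_assoc, h.e2, mul_one]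
  have pr := (wm2_fst (gen_w (T := T) {1, V, σ}) (gen_w (T := T) {1, W, σ})).gen_le
    (S := {1, (V, W), (σ, σ)}) (by
      rintro _ (rfl | rfl | rfl)
      exacts [⟨sub_gen (.inl rfl), sub_gen (.inl rfl)⟩,
        ⟨sub_gen (.inr (.inl rfl)), sub_gen (.inr (.inl rfl))⟩,
        ⟨sub_gen (.inr (.inr rfl)), sub_gen (.inr (.inr rfl))⟩])
  have K : (T.prod T).IsSub {z | T.tau z.2 = T.tau z.1} :=
    ⟨rfl, fun {x y} (a : _ = _) (b : _ = _) => by simp [a, b],
      fun c x (a : _ = _) => by simp [a], fun a x ha hl => tendsto_nhds_unique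
        (lim_prod.1 hl).2.tau ((lim_prod.1 hl).1.tau.congr fun n => (ha n).symm)⟩
  refine ⟨gen1_alg _, one_pos, fun z hz => ?_⟩
  rw [ofReal_one, one_mul]
  refine K.cls_le ?_ (wm2_ext w e1 e2 ((wm2_conj w e1 e2).gen_le ?_) ?_ hz)
  · rintro z (a | a)
    · simpa using hG.tr z a
    · have b1 := h.perp _ (pr a).1
      have b2 := h.perp _ (hg ▸ (pr a).2)
      simp only [Prod.fst_mul, Prod.snd_mul, ← mul_assoc, h.e2, one_mul] at b1 b2
      exact b2.trans b1.symm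
  · rintro _ (rfl | rfl | rfl)
    · simpa only [Set.mem_ofPred_eq, mul_one, e2] using hG.alg.one
    · simpa only [Set.mem_ofPred_eq, Prod.mk_mul_mk, h.eV, eW, neg_smul, one_smul, Prod.star_def,
        Prod.neg_mk] using w.smul (-1) (w.star m1)
    · simpa only [Set.mem_ofPred_eq, Prod.mk_mul_mk, e3, neg_smul, one_smul, Prod.neg_mk]
        using w.smul (-1) m2
  · rintro _ (rfl | rfl | rfl | rfl)
    exacts [.inl hG.alg.one, .inl m1, .inl m2, .inr (e2 ▸ hG.alg.one)]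

theorem wm2_XX {W : R} (e1 : star η = η) (e2 : η * η = 1) (eW : η * W * η = -star W) :
    η * XX W = -(XX W * η) := by
  have a := congrArg star eW
  simp only [star_mul, e1, star_neg, star_star, ← mul_assoc] at a
  rw [← mul_one (η * XX W), ← e2, ← mul_assoc, XX, mul_add, add_mul, eW, a]
  noncomm_ring

/-- A generator of the corner with the same law and the same real part as `(a + b) / 2`. -/
theorem Mo.absorb (h : T.Mo σ η V e φ) : ∃ (G : Set (R × R)) (k : R), T.Gr T 1 (e, e) G ∧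
    (hh (φ (.of 0)) (φ (.of 1)), hh (φ (.of 0)) (φ (.of 1))) ∈ G ∧
    (kk (φ (.of 0)) (φ (.of 1)), k) ∈ G ∧
    T.gen {e, hh (φ (.of 0)) (φ (.of 1)), k} = T.cls (Set.range φ) := by
  obtain ⟨L, X, hL, lim, hV⟩ := h.st.absorb false
  have r := fun n => h.st.run (md := false) (hL n)
  have t := fun n => h.st.run_eta (hL n) h.e1 h.e2 h.e3 h.eV
  have x1 : star X = X := tendsto_nhds_unique lim.star (lim.congr fun n => (XX_sa _).symm)
  have x2 : η * X = -(X * η) := tendsto_nhds_unique (lim.const_mul η)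
    ((lim.mul_const η).neg.congr fun n => (wm2_XX h.e1 h.e2 (t n)).symm)
  have x3 : X - σ * X * σ = XX V - σ * XX V * σ := tendsto_nhds_unique
    (lim.sub ((lim.const_mul σ).mul_const σ)) (tendsto_const_nhds.congr fun n => (r n).2.2.1.symm)
  have x4 : X ∈ T.gen {1, V, σ} := (gen_w _).lim _ (fun n => (r n).2.1 ▸ (gen_w _).add
    (sub_gen (.inr (.inl rfl))) ((gen_w _).star (sub_gen (.inr (.inl rfl))))) (Lim.of_norm lim)
  obtain ⟨C, hC⟩ := lim.norm.bddAbove_range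
  have C1 := fun n => hC ⟨n, rfl⟩
  have C0 := (norm_nonneg _).trans (C1 0)
  have q : T.Eqv T ![XX V, σ, η] ![X, σ, η] := by
    refine Eqv.lim (a := fun _ => ![XX V, σ, η])
      (b := fun n => ![XX (T.run false σ (L n) V), σ, η]) (C := C + ‖XX V‖ + ‖σ‖ + ‖η‖)
      (fun n => ?_) (fun n i => ?_) (fun n i => ?_) (fun i => Lim.const _) fun i => ?_
    · have g := h.gr (r n).1 (t n) (r n).2.1
      refine g.eqv fun i => ?_
      fin_cases i
      · exact g.alg.add (sub_gen (.inr (.inl rfl))) (g.alg.star (sub_gen (.inr (.inl rfl))))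
      · exact sub_gen (.inr (.inr (.inl rfl)))
      · exact sub_gen (.inr (.inr (.inr rfl)))
    · fin_cases i <;> simp <;> linarith [norm_nonneg (XX V), norm_nonneg σ, norm_nonneg η]
    · fin_cases i <;> simp <;> linarith [norm_nonneg (XX V), norm_nonneg σ, norm_nonneg η, C1 n]
    · fin_cases i
      exacts [Lim.of_norm lim, Lim.const _, Lim.const _]
  have g := q.gr fun i => ⟨i, by fin_cases i <;> simp [XX_sa, x1, h.st.s1, h.e1]⟩
  have w := g.alg.toIsW
  obtain ⟨p, -, -, -, -, -, a1, a2⟩ := wm2_alg x1 h.st.s1 h.st.s2 h.e1 h.e2 h.e3 x2 h.he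
  obtain ⟨-, -, -, -, -, -, b1, b2⟩ := wm2_alg (XX_sa V) h.st.s1 h.st.s2 h.e1 h.e2 h.e3
    (wm2_XX h.e1 h.e2 h.eV) h.he
  have m0 := w.smul 2⁻¹ (w.add g.alg.one (sub_gen (.inr ⟨2, rfl⟩)))
  rw [show (2⁻¹ : ℂ) • (1 + _) = (e, e) from Prod.ext h.he.symm h.he.symm] at m0
  have w' := w.cor_alg (e := (e, e)) ⟨Prod.ext p.st p.st, Prod.ext p.sq p.sq⟩ m0
  have rr : ∀ Y, Y * σ * e * e = Y * σ * e := fun Y => by rw [mul_assoc, p.sq]
  have m1 := w'.hh_mem (w'.smul I (x := (XX V * σ * e, X * σ * e))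
    ⟨w.mul (w.mul (sub_gen (.inr ⟨0, rfl⟩)) (sub_gen (.inr ⟨1, rfl⟩))) m0, Prod.ext b1 a1,
      Prod.ext (rr _) (rr _)⟩) w'.zero
  have c1 : ∀ a b : R, hh a b = hh (a + b) 0 ∧ kk a b = kk (a + b) 0 := fun a b => by
    simp only [hh, kk, star_add, star_zero]
    exact ⟨by module, by module⟩
  have c2 : ∀ y : R, hh (I • y) 0 = (4⁻¹ * I) • (y - star y) := fun y => by
    simp only [hh, star_smul, star_zero, RCLike.star_def, conj_I]
    module
  have c3 : hh (φ (.of 0)) (φ (.of 1)) = hh (I • (X * σ * e)) 0 := by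
    rw [(c1 _ _).1, h.sum, c2, c2, a2, b2, x3]
  refine ⟨_, kk (I • (X * σ * e)) 0, g.sub w' fun z hz => hz.1, ?_, ?_, ?_⟩
  · nth_rewrite 2 [c3]
    rw [(c1 _ _).1, h.sum]
    exact m1.1
  · rw [(c1 _ _).2, h.sum]
    exact m1.2
  have v := gen_w (T := T) {1, V, σ, η}
  have v0 : e ∈ T.gen {1, V, σ, η} :=
    h.he ▸ v.smul 2⁻¹ (v.add (sub_gen (.inl rfl)) (sub_gen (.inr (.inr (.inr rfl)))))
  have v' := v.cor_alg p v0
  rw [h.gen, c3]
  refine Set.Subset.antisymm (v'.gen_le ?_) (((cor_mono ((gen_w _).gen_le ?_)).trans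
    (cor_eta x1 h.st.s1 h.st.s2 h.e1 h.e2 h.e3 x2 h.he)).trans ((gen_w _).gen_le ?_))
  · have m2 := v'.hh_mem (v'.smul I (x := X * σ * e) ⟨v.mul (v.mul
      (gen_mono (by rintro _ (rfl | rfl | rfl) <;> simp) x4) (sub_gen (by simp))) v0, a1, rr _⟩)
      v'.zero
    rintro _ (rfl | rfl | rfl)
    exacts [v'.one, m2.1, m2.2]
  · rintro _ (rfl | rfl | rfl | rfl)
    exacts [sub_gen (by simp), gen_mono (by rintro _ (rfl | rfl | rfl) <;> simp) hV,
      sub_gen (by simp), sub_gen (by simp)]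
  · rintro _ (rfl | rfl)
    · exact sub_gen (.inl rfl)
    have := (gen_w (T := T) {e, hh (I • (X * σ * e)) 0, kk (I • (X * σ * e)) 0}).smul (-2 * I)
      ((gen_w _).add (sub_gen (.inr (.inl rfl))) ((gen_w _).smul I (sub_gen (.inr (.inr rfl)))))
    rwa [hh_add_kk, add_zero, smul_smul, smul_smul, show -2 * I * 2⁻¹ * I = 1 by
      linear_combination (-1 : ℂ) * I_mul_I, one_smul] at this

end TW

end Pool.Agent.Lib.MP_263241_an
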