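import Pool.Agent.Lib.MP_263241_an.WU

/-! The sign of the imaginary part of a Haar unitary, flips, rotations and moves. -/

namespace Pool.Agent.Lib.MP_263241_an

open Complex Filter Topology
open scoped Real ComplexConjugate

variable {R H : Type*} [CStarAlgebra R] [NormedAddCommGroup H] [InnerProductSpace ℂ H]

/-- Integer powers of a unitary. -/
def zp (V : R) : ℤ → R
  | .ofNat n => V ^ n
  | .negSucc n => star V ^ (n + 1)

/-- Even part of a power. -/
noncomputable def EV (V : R) (n : ℤ) : R := (2⁻¹ : ℂ) • (zp V n + zp V (-n))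

/-- Odd part of a power. -/
noncomputable def OD (V : R) (n : ℤ) : R := (2⁻¹ : ℂ) • (zp V n - zp V (-n))

/-- Twice the real part. -/
def XX (V : R) : R := V + star V

/-- Fourier coefficients of the square wave. -/
noncomputable def cf (i : ℕ) : ℝ := 4 / (π * (2 * i + 1))

/-- Truncated Fourier series of the square wave. -/
noncomputable def eI (V : R) (N : ℕ) : R :=
  ∑ i ∈ Finset.range N, (-I * cf i) • OD V (2 * i + 1 : ℕ)

/-- The unitary `exp (i s σ)`. -/
noncomputable def rt (σ : R) (s : ℝ) : R := (Real.cos s : ℂ) • 1 + (I * Real.sin s) • σ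

/-- The angle of a move. -/
noncomputable def ang (m : ℕ × ℕ) : ℝ := 2 * π * m.1 / m.2

/-- The phase of a move. -/
noncomputable def mu (md : Bool) (s : ℝ) : ℂ := if md then exp (s * I) else 1

/-- The total angle of a list of moves. -/
noncomputable def disp (L : List (ℕ × ℕ)) : ℝ := (L.map ang).sum

/-- Lists of moves of odd order. -/
def Adm (L : List (ℕ × ℕ)) : Prop := ∀ m ∈ L, Odd m.2

/-- The part of `X` that the moves keep. -/
def kp (md : Bool) (σ X : R) : R := if md then (1 + σ) * X * (1 + σ) else X - σ * X * σ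

theorem zp_nat (V : R) (n : ℕ) : zp V n = V ^ n := rfl

theorem zp_neg_nat (V : R) (n : ℕ) : zp V (-n) = star V ^ n := by
  cases n with
  | zero => exact (pow_zero V).trans (pow_zero _).symm
  | succ n => rfl

theorem zp_star (V : R) (n : ℤ) : star (zp V n) = zp V (-n) := by
  obtain ⟨k, rfl | rfl⟩ := n.eq_nat_or_neg
  · rw [zp_neg_nat, zp_nat, star_pow]
  · rw [neg_neg, zp_neg_nat, zp_nat, star_pow, star_star]

theorem ws_zp_unit {V : R} (h1 : star V * V = 1) (h2 : V * star V = 1) (n : ℤ) :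
    zp V n = (((⟨V, star V, h2, h1⟩ : Rˣ) ^ n : Rˣ) : R) := by
  obtain ⟨k, rfl | rfl⟩ := n.eq_nat_or_neg
  · rw [zp_nat, zpow_natCast, Units.val_pow_eq_pow_val]
  · rw [zp_neg_nat, zpow_neg, zpow_natCast, ← inv_pow, Units.val_pow_eq_pow_val]; rfl

theorem zp_add {V : R} (h1 : star V * V = 1) (h2 : V * star V = 1) (m n : ℤ) :
    zp V (m + n) = zp V m * zp V n := by
  rw [ws_zp_unit h1 h2, ws_zp_unit h1 h2, ws_zp_unit h1 h2, zpow_add, Units.val_mul]

theorem zp_pow (V : R) (K : ℕ) (n : ℤ) : zp (V ^ K) n = zp V (K * n) := by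
  obtain ⟨k, rfl | rfl⟩ := n.eq_nat_or_neg
  · rw [← Nat.cast_mul, zp_nat, zp_nat, pow_mul]
  · rw [mul_neg, ← Nat.cast_mul, zp_neg_nat, zp_neg_nat, pow_mul, star_pow]

theorem zp_eq (V : R) (n : ℤ) : zp V n = EV V n + OD V n := by
  rw [EV, OD]; module

theorem zp_norm {V : R} (h : ‖V‖ ≤ 1) (h1 : ‖(1 : R)‖ ≤ 1) (n : ℤ) :
    ‖zp V n‖ ≤ 1 ∧ ‖EV V n‖ ≤ 1 ∧ ‖OD V n‖ ≤ 1 := by
  have p : ∀ W : R, ‖W‖ ≤ 1 → ∀ k : ℕ, ‖W ^ k‖ ≤ 1 := fun W hW k => by
    induction k with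
    | zero => rwa [pow_zero]
    | succ k ih =>
      rw [pow_succ]
      exact (norm_mul_le _ _).trans (mul_le_one₀ ih (norm_nonneg _) hW)
  have z : ∀ m : ℤ, ‖zp V m‖ ≤ 1 := fun m => by
    obtain ⟨k, rfl | rfl⟩ := m.eq_nat_or_neg
    · exact p V h k
    · rw [zp_neg_nat]; exact p _ (by rwa [norm_star]) k
  have a := z n
  have b := z (-n)
  have c : ‖(2⁻¹ : ℂ)‖ = 2⁻¹ := by simp
  refine ⟨a, ?_, ?_⟩
  · rw [EV, norm_smul, c]; linarith [norm_add_le (zp V n) (zp V (-n))]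
  · rw [OD, norm_smul, c]; linarith [norm_sub_le (zp V n) (zp V (-n))]

theorem ws_star_half : star (2⁻¹ : ℂ) = 2⁻¹ := by simp

theorem EV_star (V : R) (n : ℤ) : star (EV V n) = EV V n := by
  rw [EV, star_smul, star_add, zp_star, zp_star, neg_neg, ws_star_half, add_comm]

theorem OD_star (V : R) (n : ℤ) : star (OD V n) = -OD V n := by
  rw [OD, star_smul, star_sub, zp_star, zp_star, neg_neg, ws_star_half, ← smul_neg, neg_sub]

theorem EV_neg (V : R) (n : ℤ) : EV V (-n) = EV V n := by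
  rw [EV, EV, neg_neg, add_comm]

theorem OD_neg (V : R) (n : ℤ) : OD V (-n) = -OD V n := by
  rw [OD, OD, neg_neg, ← smul_neg, neg_sub]

theorem ws_zp_zero (V : R) : zp V 0 = 1 := pow_zero V

theorem ws_zp_one (V : R) : zp V 1 = V := pow_one V

theorem ws_zp_neg_one (V : R) : zp V (-1) = star V := pow_one (star V)

theorem ws_OD_zero (V : R) : OD V 0 = 0 := by rw [OD, neg_zero, sub_self, smul_zero]

theorem ws_EV_one (V : R) : EV V 1 = (2⁻¹ : ℂ) • (V + star V) := by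
  rw [EV, ws_zp_one, ws_zp_neg_one]

theorem ws_OD_one (V : R) : OD V 1 = (2⁻¹ : ℂ) • (V - star V) := by
  rw [OD, ws_zp_one, ws_zp_neg_one]

theorem ws_sa (V : R) : SA 1 ((2⁻¹ : ℂ) • (V + star V)) :=
  ⟨Pr.one, by rw [← ws_EV_one, EV_star], one_mul _⟩

theorem ws_OD_pow (V : R) (K : ℕ) (n : ℤ) : OD (V ^ K) n = OD V (K * n) := by
  rw [OD, OD, zp_pow, zp_pow, mul_neg]

theorem EV_zero (V : R) : EV V 0 = 1 := by
  rw [EV, neg_zero, ws_zp_zero]; module

theorem XX_eq (V : R) : XX V = (2 : ℂ) • EV V 1 := by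
  rw [ws_EV_one, XX]; module

theorem XX_sa (V : R) : star (XX V) = XX V := by
  rw [XX, star_add, star_star, add_comm]

theorem ws_prod {V : R} (h1 : star V * V = 1) (h2 : V * star V = 1) (m n : ℤ) :
    zp V m * zp V n = zp V (m + n) ∧ zp V m * zp V (-n) = zp V (m - n) ∧
      zp V (-m) * zp V n = zp V (-(m - n)) ∧ zp V (-m) * zp V (-n) = zp V (-(m + n)) := by
  refine ⟨(zp_add h1 h2 _ _).symm, ?_, ?_, ?_⟩ <;> rw [← zp_add h1 h2] <;> congr 1 <;> ring

theorem OD_mul_OD {V : R} (h1 : star V * V = 1) (h2 : V * star V = 1) (m n : ℤ) :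
    OD V m * OD V n = (2⁻¹ : ℂ) • (EV V (m + n) - EV V (m - n)) := by
  obtain ⟨a, b, c, d⟩ := ws_prod h1 h2 m n
  simp only [OD, EV, smul_mul_assoc, mul_smul_comm, sub_mul, mul_sub, a, b, c, d]
  module

theorem EV_mul_EV {V : R} (h1 : star V * V = 1) (h2 : V * star V = 1) (m n : ℤ) :
    EV V m * EV V n = (2⁻¹ : ℂ) • (EV V (m + n) + EV V (m - n)) := by
  obtain ⟨a, b, c, d⟩ := ws_prod h1 h2 m n
  simp only [EV, smul_mul_assoc, mul_smul_comm, add_mul, mul_add, a, b, c, d]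
  module

theorem EV_mul_OD {V : R} (h1 : star V * V = 1) (h2 : V * star V = 1) (m n : ℤ) :
    EV V m * OD V n = (2⁻¹ : ℂ) • (OD V (m + n) - OD V (m - n)) := by
  obtain ⟨a, b, c, d⟩ := ws_prod h1 h2 m n
  simp only [OD, EV, smul_mul_assoc, mul_smul_comm, add_mul, mul_sub, a, b, c, d]
  module

theorem rt_add {σ : R} (h : σ * σ = 1) (s t : ℝ) : rt σ (s + t) = rt σ s * rt σ t := by
  simp only [rt, add_mul, mul_add, smul_mul_assoc, mul_smul_comm, one_mul, mul_one, h,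
    Real.cos_add, Real.sin_add]
  push_cast
  match_scalars
  · linear_combination (-(Complex.sin s * Complex.sin t)) * I_mul_I
  · ring

theorem rt_zero (σ : R) : rt σ 0 = 1 := by simp [rt]

theorem rt_star {σ : R} (h : star σ = σ) (s : ℝ) : star (rt σ s) = rt σ (-s) := by
  rw [rt, rt, star_add, star_smul, star_smul, star_one, h, Real.cos_neg, Real.sin_neg,
    Complex.star_def, conj_ofReal, map_mul, conj_I, conj_ofReal, ofReal_neg, neg_mul, mul_neg]

theorem rt_sub_one {σ : R} (h : star σ = σ) (h' : σ * σ = 1) (s : ℝ) : ‖rt σ s - 1‖ ≤ |s| := by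
  have e : star (rt σ s - 1) * (rt σ s - 1) = ((2 - 2 * Real.cos s : ℝ) : ℂ) • (1 : R) := by
    rw [star_sub, star_one, rt_star h, sub_mul, mul_sub, mul_sub, ← rt_add h', neg_add_cancel,
      rt_zero, mul_one, one_mul, one_mul, rt, rt, Real.cos_neg, Real.sin_neg]
    push_cast
    module
  have n := CStarRing.norm_star_mul_self (x := rt σ s - 1)
  have c := Real.one_sub_sq_div_two_le_cos (x := s)
  have c1 := Real.cos_le_one s
  rw [e, norm_smul, Complex.norm_real, Real.norm_of_nonneg (by linarith)] at n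
  have o := (Pr.one (R := R)).norm_le
  refine Real.le_sqrt_of_sq_le ?_ |>.trans_eq (Real.sqrt_sq_eq_abs s)
  nlinarith

theorem ang_nonneg (m : ℕ × ℕ) : 0 ≤ ang m := by
  rw [ang]; positivity

theorem mu_norm (md : Bool) (s : ℝ) : ‖mu md s‖ = 1 := by
  cases md
  · simp [mu]
  · simp [mu]

theorem mu_pow (md : Bool) {m : ℕ × ℕ} (h : Odd m.2) : mu md (ang m) ^ m.2 = 1 := by
  cases md
  · simp [mu]
  · have h0 : (m.2 : ℂ) ≠ 0 := Nat.cast_ne_zero.2 h.pos.ne'
    rw [mu, if_pos rfl, ← Complex.exp_nat_mul, ← Complex.exp_nat_mul_two_pi_mul_I m.1, ang]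
    congr 1
    push_cast
    field_simp

theorem disp_cons (m : ℕ × ℕ) (L : List (ℕ × ℕ)) : disp (m :: L) = ang m + disp L := by
  simp [disp]

theorem disp_nonneg (L : List (ℕ × ℕ)) : 0 ≤ disp L := by
  induction L with
  | nil => simp [disp]
  | cons m L ih => rw [disp_cons]; exact add_nonneg (ang_nonneg m) ih

namespace TW

variable (T : TW R H)

open Classical in
/-- The sign of the imaginary part. -/
noncomputable def eps (V : R) : R := if h : ∃ ε, T.Lim (eI V) ε then h.choose else 0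

/-- `V` on the spectral set where `V` and `V ^ K` have imaginary parts of the same sign, the adjoint
of `V` elsewhere. -/
noncomputable def flip (K : ℕ) (V : R) : R := EV V 1 + T.eps (V ^ K) * T.eps V * OD V 1

/-- A move. -/
noncomputable def mv (md : Bool) (σ : R) (m : ℕ × ℕ) (V : R) : R :=
  conj (mu md (ang m)) • (rt σ (ang m / 2) * T.flip m.2 V * rt σ (ang m / 2))

/-- The inverse move. -/
noncomputable def um (md : Bool) (σ : R) (m : ℕ × ℕ) (V : R) : R :=
  T.flip m.2 (mu md (ang m) • (rt σ (-(ang m / 2)) * V * rt σ (-(ang m / 2))))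

/-- A list of moves. -/
noncomputable def run (md : Bool) (σ : R) : List (ℕ × ℕ) → R → R
  | [], V => V
  | m :: L, V => run md σ L (T.mv md σ m V)

/-- A Haar unitary free from a symmetry of trace zero. -/
structure St (σ V : R) : Prop where
  one : T.tau 1 = 1
  s1 : star σ = σ
  s2 : σ * σ = 1
  s0 : T.tau σ = 0
  haar : T.Haar 1 V
  free : T.Free (T.gen {1, V}) (T.cls {1, σ})

variable {T} {V σ : R} {md : Bool}

theorem run_append (L L' : List (ℕ × ℕ)) (V : R) :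
    T.run md σ (L ++ L') V = T.run md σ L' (T.run md σ L V) := by
  induction L generalizing V with
  | nil => rfl
  | cons m L ih => exact ih _

theorem zp_mem {A : Set R} (hA : T.IsW A) (h1 : 1 ∈ A) (hV : V ∈ A) (n : ℤ) :
    zp V n ∈ A ∧ EV V n ∈ A ∧ OD V n ∈ A := by
  have p : ∀ W ∈ A, ∀ k : ℕ, W ^ k ∈ A := fun W hW k => by
    induction k with
    | zero => rwa [pow_zero]
    | succ k ih => rw [pow_succ]; exact hA.mul ih hW
  have z : ∀ m : ℤ, zp V m ∈ A := fun m => by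
    obtain ⟨k, rfl | rfl⟩ := m.eq_nat_or_neg
    · exact p V hV k
    · rw [zp_neg_nat]; exact p _ (hA.star hV) k
  exact ⟨z n, hA.smul _ (hA.add (z _) (z _)), hA.smul _ (hA.sub (z _) (z _))⟩

theorem rt_mem {A : Set R} (hA : T.IsSub A) (h1 : 1 ∈ A) (hσ : σ ∈ A) (s : ℝ) : rt σ s ∈ A :=
  hA.add (hA.smul _ h1) (hA.smul _ hσ)

theorem ws_eps_eq {ε : R} (h : T.Lim (eI V) ε) : T.eps V = ε := by
  have hx : ∃ ε, T.Lim (eI V) ε := ⟨ε, h⟩
  rw [eps, dif_pos hx]
  exact hx.choose_spec.unique h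

theorem ws_eI_star (V : R) (N : ℕ) : star (eI V N) = eI V N := by
  rw [eI, star_sum]
  refine Finset.sum_congr rfl fun i _ => ?_
  rw [star_smul, OD_star, Complex.star_def, map_mul, map_neg, conj_I, conj_ofReal, smul_neg,
    ← neg_smul, ← neg_mul, neg_neg]

theorem cf_tendsto : Tendsto (fun N => ∑ i ∈ Finset.range N, cf i ^ 2 / 2) atTop (𝓝 1) := by
  have h := hasSum_zeta_two
  have he : HasSum (fun k : ℕ => (1 : ℝ) / ((2 * k : ℕ) : ℝ) ^ 2) (π ^ 2 / 6 / 4) := by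
    have e : (fun k : ℕ => (1 : ℝ) / ((2 * k : ℕ) : ℝ) ^ 2) =
        fun k : ℕ => (1 : ℝ) / (k : ℝ) ^ 2 / 4 := funext fun k => by
      push_cast
      rw [mul_pow, div_div, mul_comm]
      norm_num
    rw [e]
    exact h.div_const 4
  have ho : Summable (fun k : ℕ => (1 : ℝ) / ((2 * k + 1 : ℕ) : ℝ) ^ 2) :=
    h.summable.comp_injective (i := fun k : ℕ => 2 * k + 1) fun a b hab => by
      simpa using hab
  have h2 := HasSum.even_add_odd (f := fun n : ℕ => (1 : ℝ) / (n : ℝ) ^ 2) he ho.hasSum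
  have h3 := h.unique h2
  have h4 : HasSum (fun k : ℕ => (1 : ℝ) / ((2 * k + 1 : ℕ) : ℝ) ^ 2) (π ^ 2 / 8) := by
    convert ho.hasSum using 1
    linarith
  have h5 := (h4.mul_left (8 / π ^ 2)).tendsto_sum_nat
  have hp := Real.pi_pos
  convert h5 using 3 with N i
  · rw [cf]
    push_cast
    field_simp
    ring
  · field_simp

section haar

variable (h1 : T.tau 1 = 1) (h : T.Haar 1 V)
include h

theorem Haar.tau_zp {n : ℤ} (hn : n ≠ 0) : T.tau (zp V n) = 0 := by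
  obtain ⟨k, rfl | rfl⟩ := n.eq_nat_or_neg
  · obtain ⟨j, rfl⟩ := Nat.exists_eq_succ_of_ne_zero (show k ≠ 0 by simpa using hn)
    exact h.tau j
  · obtain ⟨j, rfl⟩ := Nat.exists_eq_succ_of_ne_zero (show k ≠ 0 by simpa using hn)
    rw [← zp_star, T.tau_star, zp_nat, h.tau j, map_zero]

theorem Haar.ws_tau_OD (n : ℤ) : T.tau (OD V n) = 0 := by
  by_cases hn : n = 0
  · rw [hn, ws_OD_zero, map_zero]
  · rw [OD, map_smul, map_sub, h.tau_zp hn, h.tau_zp (neg_ne_zero.2 hn), sub_self, smul_zero]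

theorem Haar.ws_tau_EV {n : ℤ} (hn : n ≠ 0) : T.tau (EV V n) = 0 := by
  rw [EV, map_smul, map_add, h.tau_zp hn, h.tau_zp (neg_ne_zero.2 hn), add_zero, smul_zero]

theorem Haar.EV_mem (n : ℤ) : EV V n ∈ T.gen {1, XX V} := by
  have W := gen_w (T := T) {1, XX V}
  have w1 : (1 : R) ∈ T.gen {1, XX V} := sub_gen (.inl rfl)
  have wX : XX V ∈ T.gen {1, XX V} := sub_gen (.inr rfl)
  have p : ∀ k : ℕ, EV V k ∈ T.gen {1, XX V} := fun k => by
    induction k using Nat.twoStepInduction with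
    | zero => rwa [Nat.cast_zero, EV_zero]
    | one =>
      have e : EV V 1 = (2⁻¹ : ℂ) • XX V := ws_EV_one V
      rw [Nat.cast_one, e]; exact W.smul _ wX
    | more k i0 i1 =>
      have e := EV_mul_EV h.su h.us 1 ((k + 1 : ℕ) : ℤ)
      have e2 : EV V ((k + 2 : ℕ) : ℤ) = XX V * EV V ((k + 1 : ℕ) : ℤ) - EV V k := by
        rw [XX_eq, smul_mul_assoc, e, show (1 : ℤ) + ((k + 1 : ℕ) : ℤ) = ((k + 2 : ℕ) : ℤ) by
          push_cast; ring, show (1 : ℤ) - ((k + 1 : ℕ) : ℤ) = -(k : ℤ) by push_cast; ring, EV_neg]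
        module
      rw [e2]; exact W.sub (W.mul wX i1) i0
  obtain ⟨k, rfl | rfl⟩ := n.eq_nat_or_neg
  · exact p k
  · rw [EV_neg]; exact p k

theorem Haar.genX_sub : T.gen {1, XX V} ⊆ T.cls (Set.range (EV V)) := by
  have S := cls_sub (T := T) (Set.range (EV V))
  have b : ∀ n, EV V n ∈ T.cls (Set.range (EV V)) := fun n => sub_cls ⟨n, rfl⟩
  refine (cls_w ?_ ?_).gen_le ?_
  · rintro _ ⟨n, rfl⟩
    rw [EV_star]; exact b n
  · rintro _ ⟨m, rfl⟩ _ ⟨n, rfl⟩
    rw [EV_mul_EV h.su h.us]; exact S.smul _ (S.add (b _) (b _))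
  · rintro _ (rfl | rfl)
    · rw [← EV_zero V]; exact b 0
    · rw [XX_eq]; exact S.smul _ (b 1)

theorem Haar.tau_even_odd {x : R} (hx : x ∈ T.gen {1, XX V}) (n : ℤ) : T.tau (x * OD V n) = 0 := by
  refine ker_sub.map (LinC.id.mulR (OD V n)) ?_ (h.genX_sub hx)
  rintro _ ⟨m, rfl⟩
  change T.tau _ = 0
  rw [EV_mul_OD h.su h.us, map_smul, map_sub, h.ws_tau_OD, h.ws_tau_OD, sub_self, smul_zero]

theorem Haar.comm {x y : R} (hx : x ∈ T.gen {1, V}) (hy : y ∈ T.gen {1, V}) : x * y = y * x := by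
  refine gen_comm ?_ hx hy
  rintro a (rfl | rfl) b (rfl | rfl)
  · simp
  · simp
  · simp
  · exact ⟨rfl, h.su.trans h.us.symm⟩

omit h in
theorem ws_OD_mem (n : ℤ) : OD V n ∈ T.gen {1, V} :=
  (zp_mem (gen_w _) (sub_gen (.inl rfl)) (sub_gen (.inr rfl)) n).2.2

theorem Haar.ws_OD_OD (m n : ℤ) : OD V m * OD V n ∈ T.gen {1, XX V} := by
  rw [OD_mul_OD h.su h.us]
  exact (gen_w _).smul _ ((gen_w _).sub (h.EV_mem _) (h.EV_mem _))

omit h in
theorem ws_eI_mem (N : ℕ) : eI V N ∈ T.gen {1, V} :=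
  (gen_w _).sum _ fun _ _ => (gen_w _).smul _ (ws_OD_mem _)

/-- Odd parts as functions of the real part. -/
theorem Haar.ws_cheb (n : ℕ) : ∃ f : ℝ → ℂ, Continuous f ∧
    OD V n = OD V 1 * Ph 1 ((2⁻¹ : ℂ) • (V + Star.star V)) f ∧
      ∀ θ : ℝ, (Real.sin θ : ℂ) * f (Real.cos θ) = Real.sin (n * θ) := by
  have sa := (ws_sa V)
  induction n using Nat.twoStepInduction with
  | zero => exact ⟨fun _ => 0, continuous_const, by
      rw [sa.ph_const, zero_smul, mul_zero, Nat.cast_zero, ws_OD_zero], by simp⟩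
  | one => exact ⟨fun _ => 1, continuous_const, by
      rw [sa.ph_const, one_smul, mul_one, Nat.cast_one], by simp⟩
  | more k i0 i1 =>
    obtain ⟨f, f1, f2, f3⟩ := i0
    obtain ⟨g, g1, g2, g3⟩ := i1
    refine ⟨fun t => 2 * ((t : ℂ) * g t) - f t, by fun_prop, ?_, fun θ => ?_⟩
    · have e := EV_mul_OD h.su h.us 1 ((k + 1 : ℕ) : ℤ)
      have c : EV V 1 * OD V 1 = OD V 1 * EV V 1 := h.comm
        (zp_mem (gen_w _) (sub_gen (.inl rfl)) (sub_gen (.inr rfl)) 1).2.1 (ws_OD_mem 1)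
      rw [show (1 : ℤ) + ((k + 1 : ℕ) : ℤ) = ((k + 2 : ℕ) : ℤ) by push_cast; ring,
        show (1 : ℤ) - ((k + 1 : ℕ) : ℤ) = -(k : ℤ) by push_cast; ring, OD_neg] at e
      rw [SA.ph_sub (by fun_prop) f1, SA.ph_smul _ (by fun_prop), sa.ph_mul (by fun_prop) g1,
        sa.ph_id, mul_sub, ← f2, mul_smul_comm, ← mul_assoc, ← ws_EV_one, ← c, mul_assoc,
        ws_EV_one, ← g2, ← ws_EV_one, e]
      module
    · have a := f3 θ
      have b := g3 θ
      have e : Real.sin (((k + 2 : ℕ) : ℝ) * θ) =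
          2 * Real.cos θ * Real.sin (((k + 1 : ℕ) : ℝ) * θ) - Real.sin (k * θ) := by
        rw [show ((k + 2 : ℕ) : ℝ) * θ = ((k + 1 : ℕ) : ℝ) * θ + θ by push_cast; ring,
          show (k : ℝ) * θ = ((k + 1 : ℕ) : ℝ) * θ - θ by push_cast; ring, Real.sin_add,
          Real.sin_sub]
        ring
      rw [e, ofReal_sub, ofReal_mul, ofReal_mul, ← a, ← b, ofReal_ofNat]
      ring

include h1

/-- A Haar unitary in the algebra of the real part. -/
theorem Haar.exists_even : ∃ v ∈ T.gen {1, XX V}, T.Haar 1 v := by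
  obtain ⟨u, u1, u2, u3, u4, u5⟩ := haarify (T := T) (ws_sa V) (by rw [h1]; exact one_ne_zero)
    (h.re_noEig Pr.one)
  refine ⟨u, ?_, u1, u2, u3, u4⟩
  have hu : u ∈ T.gen {1, u} := sub_gen (.inr rfl)
  rw [u5] at hu
  refine (gen_w _).gen_le ?_ hu
  rintro _ (rfl | rfl)
  · exact sub_gen (.inl rfl)
  · exact (gen_w _).smul _ (sub_gen (.inr rfl))

theorem Haar.eI_l2 (N : ℕ) : ‖T.ι (eI V N)‖ ^ 2 = ∑ i ∈ Finset.range N, cf i ^ 2 / 2 := by
  have e : T.tau (Star.star (eI V N) * eI V N) =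
      ((∑ i ∈ Finset.range N, cf i ^ 2 / 2 : ℝ) : ℂ) := by
    rw [ws_eI_star, eI, Finset.sum_mul_sum, map_sum, ofReal_sum]
    refine Finset.sum_congr rfl fun i hi => ?_
    rw [map_sum, Finset.sum_eq_single i]
    · rw [smul_mul_smul_comm, OD_mul_OD h.su h.us, sub_self, EV_zero, map_smul, map_smul, map_sub,
        h.ws_tau_EV (by positivity), h1]
      simp only [smul_eq_mul]
      push_cast
      linear_combination (-(cf i : ℂ) ^ 2 / 2) * I_mul_I
    · intro j _ hj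
      rw [smul_mul_smul_comm, OD_mul_OD h.su h.us, map_smul, map_smul, map_sub,
        h.ws_tau_EV (by positivity), h.ws_tau_EV (by omega), sub_self, smul_zero, smul_zero]
    · exact fun hn => absurd hi hn
  rw [T.tau_sq] at e
  exact_mod_cast e

/-- The polar part of the imaginary part and its Fourier coefficients. -/
theorem Haar.ws_polar : ∃ ε, Star.star ε = ε ∧ ε * ε = 1 ∧
    ∀ i : ℕ, T.tau (ε * OD V (2 * i + 1 : ℕ)) = I * cf i / 2 := by
  have sa := (ws_sa V)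
  set x := (2⁻¹ : ℂ) • (V + Star.star V) with hx
  set y := (-I) • OD V 1 with hy
  have ys : Star.star y = y := by
    rw [hy, star_smul, OD_star, Complex.star_def, map_neg, conj_I, neg_neg, smul_neg, neg_smul]
  have inj : ∀ z, y * z = 0 → z = 0 := fun z hz => by
    rw [hy, ws_OD_one, smul_mul_assoc, smul_mul_assoc, smul_eq_zero, smul_eq_zero, sub_mul,
      sub_eq_zero] at hz
    have hz' : V * z = Star.star V * z := (hz.resolve_left (by simp)).resolve_left (by simp)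
    refine (h.pow Pr.one two_ne_zero).eq_zero Pr.one (c := 1) (one_mul z) ?_
    rw [pow_two, mul_assoc, hz', ← mul_assoc, h.us, one_mul, one_smul]
  have yy : Star.star y * y = Ph 1 x fun t => 1 - (t : ℂ) * t := by
    rw [SA.ph_sub (by fun_prop) (by fun_prop), sa.ph_mul (by fun_prop) (by fun_prop), sa.ph_id,
      sa.ph_const, ys, hy, hx, ← ws_EV_one, smul_mul_smul_comm, OD_mul_OD h.su h.us,
      EV_mul_EV h.su h.us, sub_self, EV_zero, neg_mul_neg, I_mul_I]
    module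
  obtain ⟨v, v1, -, v3, v4⟩ := polar' (T := T) (y := y) Pr.one (mul_one y) fun z _ hz =>
    inj z (inj _ (by rwa [ys, mul_assoc] at hz))
  have cmp : Ph 1 (Star.star y * y) (fun t => (√t : ℝ)) = Ph 1 x fun t => (√(1 - t * t) : ℝ) := by
    have := sa.normal
    rw [yy, Ph, Ph, Ph, one_mul, one_mul, one_mul,
      ← cfc_comp' (fun z : ℂ => ((√z.re : ℝ) : ℂ)) _ x (by fun_prop) (by fun_prop)]
    refine cfc_congr fun z _ => ?_
    rw [← ofReal_mul, ← ofReal_one, ← ofReal_sub, ofReal_re]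
  rw [cmp] at v3
  set s := Ph 1 x fun t => (√(1 - t * t) : ℝ) with hs
  have W := gen_w (T := T) {1, V}
  have w1 : (1 : R) ∈ T.gen {1, V} := sub_gen (.inl rfl)
  have wV : V ∈ T.gen {1, V} := sub_gen (.inr rfl)
  have wv : v ∈ T.gen {1, V} := v4 _ W w1 (W.smul _ (ws_OD_mem 1))
  have ws : s ∈ T.gen {1, V} := W.ph_mem sa w1 (W.smul _ (W.add wV (W.star wV))) _
  have ss : Star.star s = s := by
    rw [hs, ← sa.ph_star]
    exact sa.ph_congr fun t _ => conj_ofReal _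
  have vs : Star.star v = v := by
    have a : s * Star.star v = s * v := by
      rw [h.comm ws wv, ← v3, ← ys, v3, star_mul, ss]
    refine sub_eq_zero.1 (inj _ ?_)
    rw [v3, mul_assoc, mul_sub, a, sub_self, mul_zero]
  rw [vs] at v1
  refine ⟨v, vs, v1, fun i => ?_⟩
  obtain ⟨f, f1, f2, f3⟩ := h.ws_cheb (2 * i + 1)
  have o1 : OD V 1 = I • y := by rw [hy, smul_smul, mul_neg, I_mul_I, neg_neg, one_smul]
  have c : Continuous fun t : ℝ => ((√(1 - t * t) : ℝ) : ℂ) := by fun_prop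
  rw [f2, o1, v3, smul_mul_assoc, mul_smul_comm, ← mul_assoc, ← mul_assoc, v1, one_mul, ← hx, hs,
    ← sa.ph_mul c f1, map_smul, hx, h.re_int Pr.one (c.fun_mul f1), h1, one_mul]
  have e : ∫ θ in (0 : ℝ)..π, ((√(1 - Real.cos θ * Real.cos θ) : ℝ) : ℂ) * f (Real.cos θ) =
      ∫ θ in (0 : ℝ)..π, ((Real.sin (((2 * i + 1 : ℕ) : ℝ) * θ) : ℝ) : ℂ) := by
    refine intervalIntegral.integral_congr fun θ hθ => ?_
    rw [Set.uIcc_of_le Real.pi_pos.le] at hθ
    rw [← f3 θ, ← pow_two, ← Real.sin_eq_sqrt_one_sub_cos_sq hθ.1 hθ.2]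
  have k0 : ((2 * i + 1 : ℕ) : ℝ) ≠ 0 := by positivity
  have e2 : Real.cos (((2 * i + 1 : ℕ) : ℝ) * π) = -1 := by
    rw [Real.cos_nat_mul_pi, pow_succ, pow_mul]; norm_num
  rw [e, intervalIntegral.integral_ofReal, intervalIntegral.integral_comp_mul_left _ k0,
    integral_sin, mul_zero, Real.cos_zero, e2, cf, smul_eq_mul, smul_eq_mul]
  have hp : (π : ℂ) ≠ 0 := by exact_mod_cast Real.pi_pos.ne'
  have k1 : (2 * (i : ℂ) + 1) ≠ 0 := by exact_mod_cast k0
  push_cast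
  field_simp
  ring

theorem Haar.ws_main : ∃ ε, T.Lim (eI V) ε ∧ Star.star ε = ε ∧ ε * ε = 1 ∧
    ∀ N, ‖T.ι (ε - eI V N)‖ ^ 2 = 1 - ∑ i ∈ Finset.range N, cf i ^ 2 / 2 := by
  obtain ⟨ε, e1, e2, e3⟩ := h.ws_polar h1
  have tail : ∀ N, ‖T.ι (ε - eI V N)‖ ^ 2 = 1 - ∑ i ∈ Finset.range N, cf i ^ 2 / 2 := fun N => by
    have a : ‖T.ι ε‖ ^ 2 = 1 := by
      have := T.tau_sq ε
      rw [e1, e2, h1] at this
      exact_mod_cast this.symm
    have b : T.tau (Star.star ε * eI V N) = ((∑ i ∈ Finset.range N, cf i ^ 2 / 2 : ℝ) : ℂ) := by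
      rw [e1, eI, Finset.mul_sum, map_sum, ofReal_sum]
      refine Finset.sum_congr rfl fun i _ => ?_
      rw [mul_smul_comm, map_smul, e3, smul_eq_mul]
      push_cast
      linear_combination (-(cf i : ℂ) ^ 2 / 2) * I_mul_I
    rw [l2_sub_sq, a, h.eI_l2 h1, ip, b, ofReal_re]
    ring
  refine ⟨ε, lim_iff.2 ?_, e1, e2, tail⟩
  have t := ((cf_tendsto.const_sub 1).sqrt)
  rw [sub_self, Real.sqrt_zero] at t
  refine t.congr fun N => ?_
  rw [← tail, Real.sqrt_sq (norm_nonneg _), ← neg_sub, map_neg, norm_neg]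

/-- The Fourier series of the square wave converges to a symmetry. -/
theorem Haar.exists_eps : ∃ ε, T.Lim (eI V) ε ∧ Star.star ε = ε ∧ ε * ε = 1 :=
  (h.ws_main h1).imp fun _ a => ⟨a.1, a.2.1, a.2.2.1⟩

theorem Haar.eps_lim : T.Lim (eI V) (T.eps V) := by
  obtain ⟨ε, a, -⟩ := h.ws_main h1
  rwa [ws_eps_eq a]

theorem Haar.eps_star : Star.star (T.eps V) = T.eps V := by
  obtain ⟨ε, a, b, -⟩ := h.ws_main h1
  rwa [ws_eps_eq a]

theorem Haar.eps_sq : T.eps V * T.eps V = 1 := by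
  obtain ⟨ε, a, -, b, -⟩ := h.ws_main h1
  rwa [ws_eps_eq a]

theorem Haar.eps_mem : T.eps V ∈ T.gen {1, V} :=
  (gen_w _).lim _ ws_eI_mem (h.eps_lim h1)

theorem Haar.eps_tail (N : ℕ) :
    ‖T.ι (T.eps V - eI V N)‖ ^ 2 = 1 - ∑ i ∈ Finset.range N, cf i ^ 2 / 2 := by
  obtain ⟨ε, a, -, -, b⟩ := h.ws_main h1
  rw [ws_eps_eq a, b]

theorem Haar.eps_mul_OD (n : ℤ) : T.eps V * OD V n ∈ T.gen {1, XX V} := by
  refine (gen_w _).lim _ (fun N => ?_) ((h.eps_lim h1).mulR _)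
  rw [eI, Finset.sum_mul]
  refine (gen_w _).sum _ fun i _ => ?_
  rw [smul_mul_assoc]
  exact (gen_w _).smul _ (h.ws_OD_OD _ _)

theorem Haar.eps_mul_eps {K : ℕ} (hK : K ≠ 0) : T.eps (V ^ K) * T.eps V ∈ T.gen {1, XX V} := by
  refine (gen_w _).lim _ (fun N => ?_) (((h.pow Pr.one hK).eps_lim h1).mulR _)
  rw [eI, Finset.sum_mul]
  refine (gen_w _).sum _ fun i _ => ?_
  rw [smul_mul_assoc, ws_OD_pow, h.comm (ws_OD_mem _) (h.eps_mem h1)]
  exact (gen_w _).smul _ (h.eps_mul_OD h1 _)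

theorem Haar.mem_gen_eps : V ∈ T.gen {1, XX V, T.eps V} := by
  have s : T.gen {1, XX V} ⊆ T.gen {1, XX V, T.eps V} := gen_mono (by
    rintro _ (rfl | rfl)
    exacts [.inl rfl, .inr (.inl rfl)])
  have e : V = EV V 1 + T.eps V * (T.eps V * OD V 1) := by
    rw [← mul_assoc, h.eps_sq h1, one_mul, ← zp_eq, ws_zp_one]
  have := (gen_w _).add (s (h.EV_mem 1))
    ((gen_w _).mul (sub_gen (.inr (.inr rfl))) (s (h.eps_mul_OD h1 1)))
  rwa [← e] at this

theorem Haar.eps_conj {g : R} (g1 : Star.star g * g = 1) (g2 : g * Star.star g = 1) :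
    T.eps (g * V * Star.star g) = g * T.eps V * Star.star g := by
  have p : ∀ (W : R) (k : ℕ), (g * W * Star.star g) ^ k = g * W ^ k * Star.star g := fun W k => by
    induction k with
    | zero => rw [pow_zero, pow_zero, mul_one, g2]
    | succ k ih =>
      rw [pow_succ, ih, pow_succ, mul_assoc, mul_assoc g W, ← mul_assoc (Star.star g), g1, one_mul,
        ← mul_assoc, mul_assoc g]
  have o : ∀ k : ℕ, OD (g * V * Star.star g) k = g * OD V k * Star.star g := fun k => by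
    rw [OD, OD, zp_nat, zp_nat, zp_neg_nat, zp_neg_nat, star_mul, star_mul, star_star,
      ← mul_assoc, p, p, mul_smul_comm, smul_mul_assoc, mul_sub, sub_mul]
  refine ws_eps_eq ?_
  convert ((h.eps_lim h1).mulL g).mulR (Star.star g) using 2 with N
  rw [eI, eI, Finset.mul_sum, Finset.sum_mul]
  refine Finset.sum_congr rfl fun i _ => ?_
  rw [o, mul_smul_comm, smul_mul_assoc]

theorem Haar.eps_eta {η : R} (e1 : Star.star η = η) (e2 : η * η = 1)
    (hη : η * V * η = -Star.star V) : η * T.eps V * η = T.eps V := by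
  have p : ∀ (W : R) (k : ℕ), η * W ^ k * η = (η * W * η) ^ k := fun W k => by
    induction k with
    | zero => rw [pow_zero, pow_zero, mul_one, e2]
    | succ k ih =>
      rw [pow_succ _ k, pow_succ _ k, ← ih, mul_assoc (η * W ^ k), mul_assoc η W, ← mul_assoc η η,
        e2, one_mul, ← mul_assoc, ← mul_assoc]
  have hη' : η * Star.star V * η = -V := by
    have := congrArg Star.star hη
    rwa [star_mul, star_mul, e1, star_neg, star_star, ← mul_assoc] at this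
  have o : ∀ i : ℕ, η * OD V (2 * i + 1 : ℕ) * η = OD V (2 * i + 1 : ℕ) := fun i => by
    rw [OD, zp_nat, zp_neg_nat, mul_smul_comm, smul_mul_assoc, mul_sub, sub_mul, p, p, hη, hη',
      (odd_two_mul_add_one i).neg_pow, (odd_two_mul_add_one i).neg_pow, neg_sub_neg]
  refine (((h.eps_lim h1).mulL η).mulR η).unique ?_
  convert h.eps_lim h1 using 2 with N
  rw [eI, Finset.mul_sum, Finset.sum_mul]
  refine Finset.sum_congr rfl fun i _ => ?_
  rw [mul_smul_comm, smul_mul_assoc, o]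

end haar

end TW

end Pool.Agent.Lib.MP_263241_an
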