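import Pool.Agent.Lib.MP_263241_an.WS

/-! Flips, moves and their naturality. -/

namespace Pool.Agent.Lib.MP_263241_an

open Complex Filter Topology
open scoped Real ComplexConjugate

variable {R R' H H' : Type*} [CStarAlgebra R] [NormedAddCommGroup H] [InnerProductSpace ℂ H]
  [CStarAlgebra R'] [NormedAddCommGroup H'] [InnerProductSpace ℂ H']

theorem ws2_mul {V t : R} (h1 : star V * V = 1) (h2 : V * star V = 1) (ht : t * t = 1)
    (hc : ∀ n, zp V n * t = t * zp V n) (m n : ℤ) :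
    (EV V m + t * OD V m) * (EV V n + t * OD V n) = EV V (m + n) + t * OD V (m + n) := by
  have a1 : ∀ k x, zp V k * (t * x) = t * (zp V k * x) := fun k x => by
    rw [← mul_assoc, hc, mul_assoc]
  have a2 : ∀ x, t * (t * x) = x := fun x => by rw [← mul_assoc, ht, one_mul]
  simp only [EV, OD, neg_add, zp_add h1 h2, mul_add, add_mul, mul_sub, sub_mul, smul_mul_assoc,
    mul_smul_comm, mul_assoc, a1, a2]
  module

theorem ws2_OD_zero (V : R) : OD V 0 = 0 := by simp [OD]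

theorem ws2_zp_one (V : R) : zp V 1 = V := pow_one V

theorem ws2_zp_neg_one (V : R) : zp V (-1) = star V := by rw [← zp_star, ws2_zp_one]

theorem ws2_OD_pow (V : R) (K : ℕ) (n : ℤ) : OD (V ^ K) n = OD V (K * n) := by
  simp only [OD, zp_pow, mul_neg]

theorem ws2_conj_pow {g g' : R} (h1 : g' * g = 1) (h2 : g * g' = 1) (y : R) (n : ℕ) :
    (g * y * g') ^ n = g * y ^ n * g' := by
  induction n with
  | zero => simp [h2]
  | succ n ih =>
    rw [pow_succ, ih, pow_succ]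
    calc g * y ^ n * g' * (g * y * g') = g * y ^ n * (g' * g) * y * g' := by
          simp only [mul_assoc]
      _ = _ := by rw [h1, mul_one, mul_assoc g (y ^ n)]

theorem ws2_rt_inv {σ : R} (h : σ * σ = 1) (s : ℝ) :
    rt σ (-s) * rt σ s = 1 ∧ rt σ s * rt σ (-s) = 1 := by
  rw [← rt_add h, ← rt_add h, neg_add_cancel, add_neg_cancel, rt_zero]
  exact ⟨rfl, rfl⟩

theorem ws2_rt_norm {σ : R} (h : star σ = σ) (h' : σ * σ = 1) (s : ℝ) : ‖rt σ s‖ ≤ 1 := by
  have h1 := CStarRing.norm_star_mul_self (x := rt σ s)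
  rw [rt_star h, (ws2_rt_inv h' s).1] at h1
  have h2 := (Pr.one (R := R)).norm_le
  nlinarith [norm_nonneg (rt σ s)]

theorem ws2_kp_add (md : Bool) (σ x y : R) : kp md σ (x + y) = kp md σ x + kp md σ y := by
  cases md <;> simp only [kp, mul_add, add_mul, if_true, Bool.false_eq_true, if_false] <;> abel

theorem ws2_kp_star (md : Bool) {σ : R} (h : star σ = σ) (x : R) :
    kp md σ (star x) = star (kp md σ x) := by
  cases md <;>
    simp only [kp, if_true, Bool.false_eq_true, if_false, star_sub, star_mul, star_add, star_one, h,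
      mul_assoc]

theorem ws2_kp_rot (md : Bool) {σ : R} (h : σ * σ = 1) (a : ℝ) (y : R) :
    kp md σ (conj (mu md a) • (rt σ (a / 2) * y * rt σ (a / 2))) = kp md σ y := by
  have a1 : ∀ x, σ * (σ * x) = x := fun x => by rw [← mul_assoc, h, one_mul]
  cases md
  · have e : ((Real.cos (a / 2) : ℂ)) ^ 2 + (Real.sin (a / 2) : ℂ) ^ 2 = 1 := by
      exact_mod_cast Real.cos_sq_add_sin_sq (a / 2)
    simp only [kp, mu, rt, Bool.false_eq_true, if_false, map_one, one_smul, mul_add, add_mul,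
      smul_mul_assoc, mul_smul_comm, mul_assoc, a1, h, one_mul, mul_one]
    generalize (Real.cos (a / 2) : ℂ) = c at e ⊢
    generalize (Real.sin (a / 2) : ℂ) = d at e ⊢
    match_scalars
    · linear_combination e - d ^ 2 * I_sq
    · ring
    · ring
    · linear_combination -e + d ^ 2 * I_sq
  · have b1 : (1 + σ) * rt σ (a / 2) = exp ((a / 2 : ℝ) * I) • (1 + σ) := by
      rw [exp_mul_I, ← ofReal_cos, ← ofReal_sin]
      simp only [rt, mul_add, add_mul, mul_smul_comm, h, one_mul, mul_one]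
      module
    have b2 : rt σ (a / 2) * (1 + σ) = exp ((a / 2 : ℝ) * I) • (1 + σ) := by
      rw [exp_mul_I, ← ofReal_cos, ← ofReal_sin]
      simp only [rt, mul_add, add_mul, smul_mul_assoc, h, one_mul, mul_one]
      module
    have b3 : conj (exp (a * I)) * (exp ((a / 2 : ℝ) * I) * exp ((a / 2 : ℝ) * I)) = 1 := by
      rw [← exp_conj, ← exp_add, ← exp_add, map_mul, conj_ofReal, conj_I]
      push_cast
      rw [show (a : ℂ) * -I + (a / 2 * I + a / 2 * I) = 0 by ring, exp_zero]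
    simp only [kp, mu, if_true, mul_smul_comm, smul_mul_assoc]
    rw [show (1 + σ) * (rt σ (a / 2) * y * rt σ (a / 2)) * (1 + σ) =
      (1 + σ) * rt σ (a / 2) * y * (rt σ (a / 2) * (1 + σ)) by simp only [mul_assoc], b1, b2]
    simp only [mul_smul_comm, smul_mul_assoc, smul_smul]
    rw [b3, one_smul]

theorem ws2_mu_sub (md : Bool) (a : ℝ) : ‖conj (mu md a) - 1‖ ≤ |a| := by
  rw [← map_one (starRingEnd ℂ), ← map_sub, RCLike.norm_conj]
  cases md
  · simp [mu]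
  · simp only [mu, if_true]
    rw [mul_comm]
    exact Real.norm_exp_I_mul_ofReal_sub_one_le

theorem ws2_rot_norm (md : Bool) {σ : R} (h : star σ = σ) (h' : σ * σ = 1) {a : ℝ} (ha : 0 ≤ a)
    {y : R} (hy : ‖y‖ ≤ 1) :
    ‖conj (mu md a) • (rt σ (a / 2) * y * rt σ (a / 2)) - y‖ ≤ 2 * a := by
  have b1 := ws2_rt_norm h h' (a / 2)
  have b2 := rt_sub_one h h' (a / 2)
  have b3 := ws2_mu_sub md a
  rw [abs_of_nonneg (by positivity)] at b2 b3
  generalize rt σ (a / 2) = g at b1 b2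
  have e : conj (mu md a) • (g * y * g) - y =
      (conj (mu md a) - 1) • (g * y * g) + ((g - 1) * (y * g) + y * (g - 1)) := by
    simp only [sub_smul, one_smul, sub_mul, mul_sub, one_mul, mul_one, mul_assoc]
    abel
  have c1 : ‖y * g‖ ≤ 1 := (norm_mul_le _ _).trans (mul_le_one₀ hy (norm_nonneg _) b1)
  have c2 : ‖g * y * g‖ ≤ 1 := by
    rw [mul_assoc]
    exact (norm_mul_le _ _).trans (mul_le_one₀ b1 (norm_nonneg _) c1)
  have c3 : ‖(conj (mu md a) - 1) • (g * y * g)‖ ≤ a := by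
    rw [norm_smul]
    exact (mul_le_of_le_one_right (norm_nonneg _) c2).trans b3
  have c4 : ‖(g - 1) * (y * g)‖ ≤ a / 2 :=
    (norm_mul_le _ _).trans ((mul_le_of_le_one_right (norm_nonneg _) c1).trans b2)
  have c5 : ‖y * (g - 1)‖ ≤ a / 2 :=
    (norm_mul_le _ _).trans ((mul_le_of_le_one_left (norm_nonneg _) hy).trans b2)
  rw [e]
  refine (norm_add_le _ _).trans ?_
  linarith [norm_add_le ((g - 1) * (y * g)) (y * (g - 1))]

theorem ws2_XX_sub (x y : R) : ‖XX x - XX y‖ ≤ 2 * ‖x - y‖ := by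
  have e : XX x - XX y = (x - y) + star (x - y) := by
    simp only [XX, star_sub]
    abel
  rw [e, two_mul]
  exact (norm_add_le _ _).trans (by rw [norm_star])

theorem ws2_zp_prod (V : R) (V' : R') (n : ℤ) : zp (V, V') n = (zp V n, zp V' n) := by
  cases n <;> rfl

theorem ws2_EV_prod (V : R) (V' : R') (n : ℤ) : EV (V, V') n = (EV V n, EV V' n) := by
  simp only [EV, ws2_zp_prod]
  rfl

theorem ws2_OD_prod (V : R) (V' : R') (n : ℤ) : OD (V, V') n = (OD V n, OD V' n) := by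
  simp only [OD, ws2_zp_prod]
  rfl

namespace TW

variable {T : TW R H} {T' : TW R' H'} {V σ : R} {md : Bool}

theorem ws2_mem1 (V : R) : (1 : R) ∈ T.gen {1, V} ∧ V ∈ T.gen {1, V} :=
  ⟨sub_gen (by simp), sub_gen (by simp)⟩

theorem ws2_gen_le {A : Set R} (hA : T.IsW A) (h1 : 1 ∈ A) (hV : V ∈ A) : T.gen {1, V} ⊆ A :=
  hA.gen_le (by rintro _ (rfl | rfl); exacts [h1, hV])

theorem ws2_mem3 (V σ : R) :
    (1 : R) ∈ T.gen {1, V, σ} ∧ V ∈ T.gen {1, V, σ} ∧ σ ∈ T.gen {1, V, σ} :=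
  ⟨sub_gen (by simp), sub_gen (by simp), sub_gen (by simp)⟩

theorem ws2_gen3 {W : R} (h : W ∈ T.gen {1, V, σ}) : T.gen {1, W, σ} ⊆ T.gen {1, V, σ} :=
  (gen_w _).gen_le (by
    rintro _ (rfl | rfl | rfl)
    exacts [(ws2_mem3 V _).1, h, (ws2_mem3 V _).2.2])

theorem ws2_eps {W t : R} (h1 : T.tau 1 = 1) (h : T.Haar 1 V) (h' : T.Haar 1 W)
    (hO : ∀ n, OD W n = t * OD V n) : T.eps W = t * T.eps V := by
  refine (h'.eps_lim h1).unique ?_
  have e : eI W = fun N => t * eI V N := by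
    funext N
    simp only [eI, hO, Finset.mul_sum, mul_smul_comm]
  rw [e]
  exact (h.eps_lim h1).mulL t

section haar

variable (h1 : T.tau 1 = 1) (h : T.Haar 1 V) {K : ℕ} (hK : K ≠ 0)
include h1 h hK

theorem ws2_epsK : T.eps (V ^ K) ∈ T.gen {1, V} :=
  ws2_gen_le (gen_w _) (ws2_mem1 V).1 (zp_mem (gen_w _) (ws2_mem1 V).1 (ws2_mem1 V).2 K).1
    ((h.pow Pr.one hK).eps_mem h1)

theorem ws2_t : T.eps (V ^ K) * T.eps V ∈ T.gen {1, V} ∧
    Star.star (T.eps (V ^ K) * T.eps V) = T.eps (V ^ K) * T.eps V ∧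
    T.eps (V ^ K) * T.eps V * (T.eps (V ^ K) * T.eps V) = 1 := by
  have a1 := ws2_epsK h1 h hK
  have a2 := h.eps_mem h1
  refine ⟨(gen_w _).mul a1 a2, ?_, ?_⟩
  · rw [star_mul, h.eps_star h1, (h.pow Pr.one hK).eps_star h1, h.comm a2 a1]
  · nth_rewrite 2 [h.comm a1 a2]
    rw [mul_assoc, ← mul_assoc (T.eps V), h.eps_sq h1, one_mul, (h.pow Pr.one hK).eps_sq h1]

theorem ws2_tmul (m n : ℤ) :
    (EV V m + T.eps (V ^ K) * T.eps V * OD V m) * (EV V n + T.eps (V ^ K) * T.eps V * OD V n) =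
      EV V (m + n) + T.eps (V ^ K) * T.eps V * OD V (m + n) :=
  ws2_mul h.su h.us (ws2_t h1 h hK).2.2 (fun k => h.comm
    (zp_mem (gen_w _) (ws2_mem1 V).1 (ws2_mem1 V).2 k).1 (ws2_t h1 h hK).1) m n

theorem ws2_tstar (n : ℤ) : Star.star (EV V n + T.eps (V ^ K) * T.eps V * OD V n) =
    EV V (-n) + T.eps (V ^ K) * T.eps V * OD V (-n) := by
  rw [star_add, star_mul, (ws2_t h1 h hK).2.1, EV_star, OD_star, EV_neg, OD_neg, neg_mul, mul_neg,
    h.comm (zp_mem (gen_w _) (ws2_mem1 V).1 (ws2_mem1 V).2 n).2.2 (ws2_t h1 h hK).1]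

theorem Haar.flip_zp (n : ℤ) :
    zp (T.flip K V) n = EV V n + T.eps (V ^ K) * T.eps V * OD V n := by
  have a : ∀ k : ℕ, zp (T.flip K V) k = EV V k + T.eps (V ^ K) * T.eps V * OD V k := by
    intro k
    rw [zp_nat]
    induction k with
    | zero => simp [EV_zero, ws2_OD_zero]
    | succ k ih => rw [pow_succ, ih, TW.flip, ws2_tmul h1 h hK, Nat.cast_succ]
  obtain ⟨k, rfl | rfl⟩ := n.eq_nat_or_neg
  · exact a k
  · rw [← zp_star, a, ws2_tstar h1 h hK]

theorem Haar.flip_haar : T.Haar 1 (T.flip K V) := by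
  refine ⟨one_mul _, ?_, ?_, fun n => ?_⟩
  · rw [TW.flip, ws2_tstar h1 h hK, ws2_tmul h1 h hK]
    simp [EV_zero, ws2_OD_zero]
  · rw [TW.flip, ws2_tstar h1 h hK, ws2_tmul h1 h hK]
    simp [EV_zero, ws2_OD_zero]
  · have hn : ((n + 1 : ℕ) : ℤ) ≠ 0 := by omega
    rw [← zp_nat, h.flip_zp h1 hK, map_add, h.tau_even_odd (h.eps_mul_eps h1 hK), EV, map_smul,
      map_add, h.tau_zp hn, h.tau_zp (neg_ne_zero.2 hn)]
    simp

theorem ws2_EV (n : ℤ) : EV (T.flip K V) n = EV V n := by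
  rw [EV, h.flip_zp h1 hK, h.flip_zp h1 hK, EV_neg, OD_neg, mul_neg]
  module

theorem ws2_OD (n : ℤ) : OD (T.flip K V) n = T.eps (V ^ K) * T.eps V * OD V n := by
  rw [OD, h.flip_zp h1 hK, h.flip_zp h1 hK, EV_neg, OD_neg, mul_neg]
  module

theorem Haar.flip_XX : XX (T.flip K V) = XX V := by
  rw [XX_eq, XX_eq, ws2_EV h1 h hK]

theorem Haar.flip_eps : T.eps (T.flip K V) = T.eps (V ^ K) := by
  rw [ws2_eps h1 h (h.flip_haar h1 hK) (ws2_OD h1 h hK), mul_assoc, h.eps_sq h1, mul_one]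

theorem Haar.flip_flip : T.flip K (T.flip K V) = V := by
  have a1 : T.eps (T.flip K V ^ K) = T.eps (V ^ K) * T.eps V * T.eps (V ^ K) :=
    ws2_eps h1 (h.pow Pr.one hK) ((h.flip_haar h1 hK).pow Pr.one hK) fun n => by
      rw [ws2_OD_pow, ws2_OD_pow, ws2_OD h1 h hK]
  rw [TW.flip, ws2_EV h1 h hK, ws2_OD h1 h hK, h.flip_eps h1 hK, a1,
    mul_assoc (T.eps (V ^ K) * T.eps V) (T.eps (V ^ K)), (h.pow Pr.one hK).eps_sq h1, mul_one,
    ← mul_assoc, (ws2_t h1 h hK).2.2, one_mul, ← zp_eq, ws2_zp_one]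

theorem ws2_flip_mem : T.flip K V ∈ T.gen {1, V} :=
  (gen_w _).add (zp_mem (gen_w _) (ws2_mem1 V).1 (ws2_mem1 V).2 1).2.1
    ((gen_w _).mul (ws2_t h1 h hK).1 (zp_mem (gen_w _) (ws2_mem1 V).1 (ws2_mem1 V).2 1).2.2)

theorem Haar.flip_gen : T.gen {1, T.flip K V} = T.gen {1, V} := by
  refine (ws2_gen_le (gen_w _) (ws2_mem1 V).1 (ws2_flip_mem h1 h hK)).antisymm
    (ws2_gen_le (gen_w _) (ws2_mem1 _).1 ?_)
  have := ws2_flip_mem h1 (h.flip_haar h1 hK) hK
  rwa [h.flip_flip h1 hK] at this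

end haar

theorem Haar.flip_eta (h1 : T.tau 1 = 1) (h : T.Haar 1 V) {K : ℕ} (hK : Odd K) {η : R}
    (e1 : Star.star η = η) (e2 : η * η = 1) (hη : η * V * η = -Star.star V) :
    η * T.flip K V * η = -Star.star (T.flip K V) := by
  have hK0 : K ≠ 0 := hK.pos.ne'
  have a1 : η * Star.star V * η = -V := by
    have := congrArg Star.star hη
    rwa [star_mul, star_mul, e1, star_neg, star_star, ← mul_assoc] at this
  have a2 := h.eps_eta h1 e1 e2 hη
  have a3 := (h.pow Pr.one hK0).eps_eta h1 e1 e2 (by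
    rw [← ws2_conj_pow e2 e2, hη, hK.neg_pow, star_pow])
  have a4 : η * EV V 1 * η = -EV V 1 := by
    simp only [EV, ws2_zp_one, ws2_zp_neg_one, mul_smul_comm, smul_mul_assoc, mul_add, add_mul, hη,
      a1]
    module
  have a5 : η * OD V 1 * η = OD V 1 := by
    simp only [OD, ws2_zp_one, ws2_zp_neg_one, mul_smul_comm, smul_mul_assoc, mul_sub, sub_mul, hη,
      a1]
    module
  have a6 : ∀ x y : R, η * (x * y) * η = η * x * η * (η * y * η) := fun x y => by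
    simp only [mul_assoc]
    rw [← mul_assoc η η, e2, one_mul]
  rw [TW.flip, ws2_tstar h1 h hK0, mul_add, add_mul, a6, a6, a2, a3, a4, a5, EV_neg, OD_neg, mul_neg,
    neg_add, neg_neg]

/-! ### Moves -/

theorem St.rot (h : T.St σ V) {c : ℂ} (hc : ‖c‖ = 1) (s t : ℝ) :
    T.St σ (c • (rt σ s * V * rt σ t)) ∧
      T.gen {1, c • (rt σ s * V * rt σ t), σ} = T.gen {1, V, σ} := by
  have hD := sym_alg (T := T) h.s1 h.s2
  have hm : ∀ r, rt σ r ∈ T.cls {1, σ} :=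
    rt_mem (cls_sub _) (sub_cls (by simp)) (sub_cls (by simp))
  have hcc : conj c * c = 1 := by
    rw [mul_comm, mul_conj, normSq_eq_norm_sq, hc]
    simp
  have a := h.haar.mul_free (by rw [h.one]; exact one_ne_zero) hD h.free
    ((cls_sub _).smul c (hm s)) (hm t)
    (by rw [star_smul, smul_mul_smul_comm, rt_star h.s1, (ws2_rt_inv h.s2 s).1, RCLike.star_def,
      hcc, one_smul])
    (by rw [star_smul, smul_mul_smul_comm, rt_star h.s1, (ws2_rt_inv h.s2 s).2, RCLike.star_def,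
      mul_comm, hcc, one_smul])
    (by rw [rt_star h.s1, (ws2_rt_inv h.s2 t).1]) (by rw [rt_star h.s1, (ws2_rt_inv h.s2 t).2])
  rw [smul_mul_assoc, smul_mul_assoc] at a
  have b : ∀ (W : R) (c : ℂ) (s t : ℝ), c • (rt σ s * W * rt σ t) ∈ T.gen {1, W, σ} :=
    fun W c s t => (gen_w _).smul c ((gen_w _).mul ((gen_w _).mul
      (rt_mem (gen_w _).toIsSub (ws2_mem3 W σ).1 (ws2_mem3 W σ).2.2 s) (ws2_mem3 W σ).2.1)
      (rt_mem (gen_w _).toIsSub (ws2_mem3 W σ).1 (ws2_mem3 W σ).2.2 t))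
  refine ⟨⟨h.one, h.s1, h.s2, h.s0, a.1, a.2⟩, (ws2_gen3 (b V c s t)).antisymm (ws2_gen3 ?_)⟩
  have e : conj c • (rt σ (-s) * (c • (rt σ s * V * rt σ t)) * rt σ (-t)) = V := by
    rw [mul_smul_comm, smul_mul_assoc, smul_smul, hcc, one_smul, ← mul_assoc, ← mul_assoc,
      (ws2_rt_inv h.s2 s).1, one_mul, mul_assoc, (ws2_rt_inv h.s2 t).2, mul_one]
  have := b (c • (rt σ s * V * rt σ t)) (conj c) (-s) (-t)
  rwa [e] at this

theorem St.flip (h : T.St σ V) {K : ℕ} (hK : K ≠ 0) :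
    T.St σ (T.flip K V) ∧ T.gen {1, T.flip K V, σ} = T.gen {1, V, σ} := by
  have a := h.haar.flip_gen h.one hK
  refine ⟨⟨h.one, h.s1, h.s2, h.s0, h.haar.flip_haar h.one hK, a ▸ h.free⟩,
    (ws2_gen3 ?_).antisymm (ws2_gen3 ?_)⟩
  · exact ws2_gen_le (gen_w _) (ws2_mem3 V σ).1 (ws2_mem3 V σ).2.1 (a ▸ (ws2_mem1 _).2)
  · exact ws2_gen_le (gen_w _) (ws2_mem3 _ σ).1 (ws2_mem3 _ σ).2.1 (a.symm ▸ (ws2_mem1 V).2)

theorem St.mv (h : T.St σ V) {m : ℕ × ℕ} (hm : Odd m.2) :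
    T.St σ (T.mv md σ m V) ∧ T.gen {1, T.mv md σ m V, σ} = T.gen {1, V, σ} ∧
      kp md σ (XX (T.mv md σ m V)) = kp md σ (XX V) ∧
      ‖XX (T.mv md σ m V) - XX V‖ ≤ 4 * ang m := by
  have hK : m.2 ≠ 0 := hm.pos.ne'
  obtain ⟨a1, a2⟩ := h.flip hK
  obtain ⟨b1, b2⟩ := a1.rot (c := conj (mu md (ang m))) (by rw [RCLike.norm_conj, mu_norm])
    (ang m / 2) (ang m / 2)
  refine ⟨b1, b2.trans a2, ?_, ?_⟩
  · rw [← h.haar.flip_XX h.one hK, XX, XX, ws2_kp_add, ws2_kp_add, ws2_kp_star md h.s1,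
      ws2_kp_star md h.s1, TW.mv, ws2_kp_rot md h.s2]
  · rw [← h.haar.flip_XX h.one hK]
    have := ws2_rot_norm md h.s1 h.s2 (ang_nonneg m) (a1.haar.norm_le Pr.one)
    refine (ws2_XX_sub _ _).trans ?_
    rw [TW.mv]
    linarith

theorem St.um (h : T.St σ V) {m : ℕ × ℕ} (hm : Odd m.2) :
    T.St σ (T.um md σ m V) ∧ T.mv md σ m (T.um md σ m V) = V ∧ T.eps (T.um md σ m V) =
      rt σ (ang m / 2) * T.eps ((rt σ (-ang m) * V) ^ m.2) * star (rt σ (ang m / 2)) := by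
  have hK : m.2 ≠ 0 := hm.pos.ne'
  obtain ⟨a1, -⟩ := h.rot (mu_norm md (ang m)) (-(ang m / 2)) (-(ang m / 2))
  obtain ⟨i1, i2⟩ := ws2_rt_inv h.s2 (ang m / 2)
  refine ⟨(a1.flip hK).1, ?_, ?_⟩
  · have hcc : conj (mu md (ang m)) * mu md (ang m) = 1 := by
      rw [mul_comm, mul_conj, normSq_eq_norm_sq, mu_norm]
      simp
    rw [TW.mv, TW.um, a1.haar.flip_flip h.one hK, mul_smul_comm, smul_mul_assoc, smul_smul, hcc,
      one_smul, ← mul_assoc, ← mul_assoc, i2, one_mul, mul_assoc, i1, mul_one]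
  · have b1 := (h.rot (c := 1) norm_one (-ang m) 0).1.haar
    rw [one_smul, rt_zero, mul_one] at b1
    have b2 : rt σ (-(ang m / 2)) * V = rt σ (ang m / 2) * (rt σ (-ang m) * V) := by
      rw [← mul_assoc, ← rt_add h.s2]
      congr 2
      ring
    rw [TW.um, a1.haar.flip_eps h.one hK, smul_pow, mu_pow md hm, one_smul, b2,
      ws2_conj_pow i1 i2, ← rt_star h.s1 (ang m / 2)]
    exact (b1.pow Pr.one hK).eps_conj h.one (by rw [rt_star h.s1, i1]) (by rw [rt_star h.s1, i2])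

theorem St.run (h : T.St σ V) {L : List (ℕ × ℕ)} (hL : Adm L) :
    T.St σ (T.run md σ L V) ∧ T.gen {1, T.run md σ L V, σ} = T.gen {1, V, σ} ∧
      kp md σ (XX (T.run md σ L V)) = kp md σ (XX V) ∧
      ‖XX (T.run md σ L V) - XX V‖ ≤ 4 * disp L := by
  induction L generalizing V with
  | nil =>
    rw [TW.run, sub_self, norm_zero]
    exact ⟨h, rfl, rfl, by simp [disp]⟩
  | cons m L ih =>
    obtain ⟨a1, a2, a3, a4⟩ := h.mv (md := md) (hL m List.mem_cons_self)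
    obtain ⟨b1, b2, b3, b4⟩ := ih a1 fun x hx => hL x (List.mem_cons_of_mem m hx)
    refine ⟨b1, b2.trans a2, b3.trans a3, ?_⟩
    rw [disp_cons, TW.run]
    linarith [norm_sub_le_norm_sub_add_norm_sub (XX (T.run md σ L (T.mv md σ m V)))
      (XX (T.mv md σ m V)) (XX V)]

theorem St.run_eta (h : T.St σ V) {L : List (ℕ × ℕ)} (hL : Adm L) {η : R} (e1 : star η = η)
    (e2 : η * η = 1) (e3 : η * σ = -(σ * η)) (hη : η * V * η = -star V) :
    η * T.run false σ L V * η = -star (T.run false σ L V) := by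
  induction L generalizing V with
  | nil => exact hη
  | cons m L ih =>
    have hm := hL m List.mem_cons_self
    refine ih (h.mv hm).1 (fun x hx => hL x (List.mem_cons_of_mem m hx)) ?_
    have a1 : ∀ s, η * rt σ s * η = star (rt σ s) := fun s => by
      rw [rt_star h.s1]
      simp only [rt, mul_add, add_mul, mul_smul_comm, smul_mul_assoc, mul_one, e2, e3, neg_mul,
        mul_assoc, Real.cos_neg, Real.sin_neg, ofReal_neg]
      module
    have a2 : ∀ x y : R, η * (x * y) * η = η * x * η * (η * y * η) := fun x y => by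
      simp only [mul_assoc]
      rw [← mul_assoc η η, e2, one_mul]
    have a3 : conj (mu false (ang m)) = 1 := by simp [mu]
    rw [TW.mv, a3, one_smul, a2, a2, a1, h.haar.flip_eta h.one hm e1 e2 hη, star_mul, star_mul,
      mul_neg, neg_mul, mul_assoc]

/-! ### Naturality -/

section nat

variable {V' σ' : R'} {G : Set (R × R')}

theorem Gr.eps (hG : T.Gr T' 1 1 G) (h1 : T.tau 1 = 1) (h : T.Haar 1 V) (hV : (V, V') ∈ G) :
    (T.eps V, T'.eps V') ∈ G := by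
  have h' : T'.Haar 1 V' := hG.haar hG.alg.one hV h
  have h1' : T'.tau 1 = 1 := by simpa [h1] using hG.tr 1 hG.alg.one
  refine hG.alg.lim (fun N => (eI V N, eI V' N)) (fun N => ?_)
    (lim_prod.2 ⟨h.eps_lim h1, h'.eps_lim h1'⟩)
  have e : (eI V N, eI V' N) = eI (V, V') N := by
    simp only [eI, ws2_OD_prod]
    exact Prod.ext (by simp [Prod.fst_sum]) (by simp [Prod.snd_sum])
  rw [e]
  exact hG.alg.toIsSub.sum _ fun i _ =>
    hG.alg.smul _ (zp_mem hG.alg.toIsW hG.alg.one hV _).2.2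

theorem ws2_fst {A : Set R} (hA : T.IsW A) {S : Set (R × R')} (hS : ∀ z ∈ S, z.1 ∈ A) :
    Prod.fst '' (T.prod T').gen S ⊆ A := by
  have hW : (T.prod T').IsW {z | z.1 ∈ A} :=
    ⟨⟨hA.zero, hA.add, fun c _ hx => hA.smul c hx,
      fun a _ ha hl => hA.lim _ ha (lim_prod.1 hl).1⟩, hA.mul, hA.star⟩
  rintro _ ⟨z, hz, rfl⟩
  exact hW.gen_le hS hz

theorem ws2_snd {A : Set R'} (hA : T'.IsW A) {S : Set (R × R')} (hS : ∀ z ∈ S, z.2 ∈ A) :
    Prod.snd '' (T.prod T').gen S ⊆ A := by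
  have hW : (T.prod T').IsW {z | z.2 ∈ A} :=
    ⟨⟨hA.zero, hA.add, fun c _ hx => hA.smul c hx,
      fun a _ ha hl => hA.lim _ ha (lim_prod.1 hl).2⟩, hA.mul, hA.star⟩
  rintro _ ⟨z, hz, rfl⟩
  exact hW.gen_le hS hz

theorem ws2_mom (h : T.St σ V) (n : ℕ) : T.tau (σ ^ n) = if Even n then 1 else 0 := by
  obtain ⟨k, rfl | rfl⟩ := n.even_or_odd'
  · rw [pow_mul, pow_two, h.s2, one_pow, h.one, if_pos (even_two_mul k)]
  · rw [pow_succ, pow_mul, pow_two, h.s2, one_pow, one_mul, h.s0, if_neg (by simp)]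

theorem St.gr (h : T.St σ V) (h' : T'.St σ' V') :
    T.Gr T' 1 1 ((T.prod T').gen {1, (V, V'), (σ, σ')}) := by
  have ht : T'.tau 1 = ((1 : ℝ) : ℂ) * T.tau 1 := by simp [h.one, h'.one]
  have g1 := gr_haar one_pos Pr.one Pr.one h.haar h'.haar ht
  have g2 := gr_sa (T := T) (T' := T') one_pos ⟨Pr.one, h.s1, one_mul σ⟩
    ⟨Pr.one, h'.s1, one_mul σ'⟩ ht fun n => by simp [ws2_mom h, ws2_mom h']
  have g3 := g1.join g2 (by rw [h.one]; exact one_ne_zero)
    (h.free.mono (ws2_fst (gen_w _) (by rintro _ (rfl | rfl); exacts [(ws2_mem1 V).1, (ws2_mem1 V).2]))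
      (ws2_fst (sym_alg h.s1 h.s2).toIsW (by rintro _ (rfl | rfl) <;> exact sub_cls (by simp))))
    (h'.free.mono
      (ws2_snd (gen_w _) (by rintro _ (rfl | rfl); exacts [(ws2_mem1 V').1, (ws2_mem1 V').2]))
      (ws2_snd (sym_alg h'.s1 h'.s2).toIsW (by rintro _ (rfl | rfl) <;> exact sub_cls (by simp))))
  refine g3.sub (gen1_alg _) (gen_mono ?_)
  rintro _ (rfl | rfl | rfl)
  · exact .inl (sub_gen (.inl rfl))
  · exact .inl (sub_gen (.inr rfl))
  · exact .inr (sub_gen (.inr rfl))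

theorem Gr.run (hG : T.Gr T' 1 1 G) (h : T.St σ V) (h' : T'.St σ' V') (hV : (V, V') ∈ G)
    (hσ : (σ, σ') ∈ G) {L : List (ℕ × ℕ)} (hL : Adm L) :
    (T.run md σ L V, T'.run md σ' L V') ∈ G := by
  induction L generalizing V V' with
  | nil => exact hV
  | cons m L ih =>
    have hm := hL m List.mem_cons_self
    refine ih (h.mv hm).1 (h'.mv hm).1 ?_ fun x hx => hL x (List.mem_cons_of_mem m hx)
    have a1 := fun n => zp_mem hG.alg.toIsW hG.alg.one hV n
    simp only [ws2_zp_prod, ws2_EV_prod, ws2_OD_prod] at a1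
    have a2 : (T.flip m.2 V, T'.flip m.2 V') ∈ G :=
      hG.alg.add (a1 1).2.1 (hG.alg.mul (hG.alg.mul
        (hG.eps h.one (h.haar.pow Pr.one hm.pos.ne') (a1 m.2).1) (hG.eps h.one h.haar hV))
        (a1 1).2.2)
    have a3 : ∀ s, (rt σ s, rt σ' s) ∈ G := fun s => rt_mem hG.alg.toIsSub hG.alg.one hσ s
    exact hG.alg.smul _ (hG.alg.mul (hG.alg.mul (a3 _) a2) (a3 _))

end nat

end TW

end Pool.Agent.Lib.MP_263241_an
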