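import Pool.Agent.Lib.MP_263241_an.WA
import Pool.Agent.Lib.MP_263241_an.WF

/-! Spectral tools. -/

namespace Pool.Agent.Lib.MP_263241_an

open MeasureTheory Filter Topology ProbabilityTheory Set
open scoped Real ComplexConjugate

variable {R H : Type*} [CStarAlgebra R] [NormedAddCommGroup H] [InnerProductSpace ℂ H]

namespace TW

variable {T : TW R H} {e x u : R}

theorem polar' {y : R} (he : Pr e) (hy : y * e = y)
    (hi : ∀ z, e * z = z → star y * y * z = 0 → z = 0) :
    ∃ v, star v * v = e ∧ v * e = v ∧ y = v * Ph e (star y * y) (fun t => (√t : ℝ)) ∧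
      ∀ A, T.IsW A → e ∈ A → y ∈ A → v ∈ A := by
  set m := star y * y with hm
  have sa : SA e m := ⟨he, by rw [hm, star_mul, star_star], by
    rw [hm, ← mul_assoc, ← he.st, ← star_mul, hy]⟩
  obtain ⟨μ, h⟩ := exists_sm (T := T) sa
  have nn : ∀ t : ℝ, (t : ℂ) ∈ spectrum ℂ m → 0 ≤ t := fun t ht =>
    spectrum_star_mul_self_nonneg t ((spectrum.algebraMap_mem_iff ℂ).1 ht)
  have pos : ∀ᵐ t ∂μ, 0 < t := by
    have h0 := h.atom (l := 0) fun z h1 h2 => hi z h1 (by simpa using h2)
    filter_upwards [h.supp, compl_mem_ae_iff.2 h0] with t h1 h2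
    exact (nn t h1).lt_of_ne (Ne.symm h2)
  let sq : ℝ → ℂ := fun t => (√t : ℝ)
  have csq : Continuous sq := by fun_prop
  have yy : ∀ g, Continuous g → star (y * Ph e m g) * (y * Ph e m g) =
      Ph e m fun t => conj (sq t * g t) * (sq t * g t) := fun g hg => by
    rw [star_mul, mul_assoc, ← mul_assoc (star y), ← hm, ← sa.ph_star]
    nth_rewrite 2 [← sa.ph_id]
    rw [← sa.ph_mul (by fun_prop) hg, ← sa.ph_mul (by fun_prop) (by fun_prop)]
    refine sa.ph_congr fun t ht => ?_
    have : (t : ℂ) = sq t * sq t := by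
      simp only [sq]; rw [← Complex.ofReal_mul, Real.mul_self_sqrt (nn t ht)]
    rw [map_mul, show conj (sq t) = sq t from Complex.conj_ofReal _]
    linear_combination (conj (g t) * g t) * this
  have ny : ∀ g, Continuous g → ‖T.ι (y * Ph e m g)‖ = ‖T.ι (Ph e m fun t => sq t * g t)‖ :=
    fun g hg => by
    have h1 := T.tau_sq (y * Ph e m g)
    rw [yy g hg, sa.ph_mul (by fun_prop) (by fun_prop), sa.ph_star, T.tau_sq] at h1
    exact ((sq_eq_sq₀ (norm_nonneg _) (norm_nonneg _)).1 (by exact_mod_cast h1)).symm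
  let f : ℕ → ℝ → ℂ := fun n t => ((√(|t| + 1 / (n + 1)))⁻¹ : ℝ)
  have p1 : ∀ (n : ℕ) (t : ℝ), 0 < √(|t| + 1 / (n + 1)) := fun n t => Real.sqrt_pos.2 (by positivity)
  have hf : ∀ n, Continuous (f n) := fun n =>
    Complex.continuous_ofReal.comp (Continuous.inv₀ (by fun_prop) fun t => (p1 n t).ne')
  have hb : ∀ n t, ‖sq t * f n t‖ ≤ 1 := fun n t => by
    simp only [sq, f]
    rw [← Complex.ofReal_mul, Complex.norm_real, Real.norm_of_nonneg (by positivity),
      ← div_eq_mul_inv, div_le_one (p1 n t)]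
    exact Real.sqrt_le_sqrt ((le_abs_self t).trans (le_add_of_nonneg_right (by positivity)))
  have hl : ∀ᵐ t ∂μ, Tendsto (fun n => sq t * f n t) atTop (𝓝 1) := by
    filter_upwards [pos] with t ht
    have h1 : Tendsto (fun n : ℕ => √t * (√(|t| + 1 / ((n : ℝ) + 1)))⁻¹) atTop
        (𝓝 (√t * (√(|t| + 0))⁻¹)) :=
      ((tendsto_one_div_add_atTop_nhds_zero_nat.const_add |t|).sqrt.inv₀ (by
        rw [add_zero, abs_of_pos ht]; exact (Real.sqrt_pos.2 ht).ne')).const_mul _
    rw [add_zero, abs_of_pos ht, mul_inv_cancel₀ (Real.sqrt_pos.2 ht).ne'] at h1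
    have := (Complex.continuous_ofReal.tendsto 1).comp h1
    rw [← abs_of_pos ht] at this
    simpa [Function.comp_def, sq, f, abs_of_pos ht] using this
  have cc : ∀ n, Continuous fun t => sq t * f n t := fun n => csq.mul (hf n)
  have nb : ∀ n, ‖y * Ph e m (f n)‖ ≤ 1 := fun n => by
    have h1 := CStarRing.norm_star_mul_self (x := y * Ph e m (f n))
    have h2 : ‖star (y * Ph e m (f n)) * (y * Ph e m (f n))‖ ≤ 1 := by
      rw [yy _ (hf n)]
      refine sa.ph_norm zero_le_one fun t _ => ?_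
      rw [_root_.norm_mul, Complex.norm_conj]
      exact mul_le_one₀ (hb n t) (norm_nonneg _) (hb n t)
    nlinarith [norm_nonneg (y * Ph e m (f n))]
  obtain ⟨v, hv⟩ := T.compl _ 1 nb (by
    have := h.cauchy cc (fun n t _ => hb n t) hl
    rw [Metric.cauchySeq_iff] at this ⊢
    refine fun ε hε => (this ε hε).imp fun N hN a ha b hb => ?_
    have := hN a ha b hb
    rw [dist_eq_norm, ← map_sub, ← SA.ph_sub (cc a) (cc b)] at this
    rw [dist_eq_norm, ← map_sub, ← mul_sub, ← SA.ph_sub (hf a) (hf b), ny _ ((hf a).fun_sub (hf b))]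
    simpa only [mul_sub] using this)
  replace hv : T.Lim _ v := hv
  refine ⟨v, ?_, ?_, ?_, fun A hA h1 h2 => ?_⟩
  · refine (hv.star.mul hv (C := 1) fun n => by rw [_root_.norm_star]; exact nb n).unique ?_
    simp only [yy _ (hf _)]
    have := h.approx (f := fun n t => conj (sq t * f n t) * (sq t * f n t)) (g := fun _ => 1)
      (fun n => by have := cc n; fun_prop) continuous_const (C := 1) (fun n t _ => by
        rw [_root_.norm_mul, Complex.norm_conj]
        exact mul_le_one₀ (hb n t) (norm_nonneg _) (hb n t)) (by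
        filter_upwards [hl] with t ht
        simpa using ((Complex.continuous_conj.tendsto 1).comp ht).mul ht)
    rwa [sa.ph_const, one_smul] at this
  · exact (hv.mulR e).unique (by simpa only [mul_assoc, sa.ph_r] using hv)
  · refine Lim.unique ?_ (hv.mulR _)
    have := h.approx (f := fun n t => sq t * (f n t * sq t - 1)) (g := fun _ => 0)
      (fun n => by have := hf n; fun_prop) continuous_const (C := √‖m‖ * 2) (fun n t ht => by
        rw [_root_.norm_mul]
        refine mul_le_mul ?_ ((norm_sub_le _ _).trans ?_) (norm_nonneg _) (by positivity)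
        · simp only [sq]
          rw [Complex.norm_real, Real.norm_of_nonneg (by positivity)]
          exact Real.sqrt_le_sqrt ((le_abs_self t).trans (SA.spec_le ht))
        · rw [mul_comm, norm_one]; linarith [hb n t]) (by
        filter_upwards [hl] with t ht
        simpa [mul_comm (sq t)] using (ht.sub_const 1).const_mul (sq t))
    refine this.of_le 1 fun n => le_of_eq ?_
    rw [sa.ph_const, zero_smul, sub_zero, one_mul, ← ny _ (by have := hf n; fun_prop),
      SA.ph_sub (by have := hf n; fun_prop) (by fun_prop), sa.ph_const, one_smul, mul_sub, hy,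
      sa.ph_mul (hf n) csq, mul_assoc]
  · exact hA.lim _ (fun n => hA.mul h2 (hA.ph_mem sa h1 (hA.mul (hA.star h2) h2) _)) hv

/-- Approximations of the spectral projection of a null level set tend to zero. -/
theorem wu_lim {μ : Measure ℝ} (h : T.SM e x μ) {G : ℝ → ℝ} (hG : Continuous G)
    (h0 : ∀ᵐ t ∂μ, G t ≠ 0) : ∃ f : ℕ → ℝ → ℂ, (∀ n, Continuous (f n)) ∧
      (∀ (n : ℕ) t, f n t * (1 + n * (G t * G t)) = 1) ∧ T.Lim (fun n => Ph e x (f n)) 0 := by
  have pos : ∀ (n : ℕ) (t : ℝ), 1 ≤ 1 + n * (G t * G t) := fun n t =>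
    le_add_of_nonneg_right (mul_nonneg n.cast_nonneg (mul_self_nonneg _))
  have hf : ∀ n : ℕ, Continuous fun t => (((1 + n * (G t * G t) : ℝ)⁻¹ : ℝ) : ℂ) := fun n =>
    Complex.continuous_ofReal.comp (Continuous.inv₀ (by fun_prop) fun t => by linarith [pos n t])
  refine ⟨_, hf, fun n t => by
    exact_mod_cast inv_mul_cancel₀ (one_pos.trans_le (pos n t)).ne', ?_⟩
  have := h.approx (g := fun _ => 0) hf continuous_const (C := 1) (fun n t _ => by
    rw [Complex.norm_real, Real.norm_of_nonneg (inv_nonneg.2 (by linarith [pos n t]))]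
    exact inv_le_one_of_one_le₀ (pos n t)) (by
    filter_upwards [h0] with t ht
    rw [← Complex.ofReal_zero]
    refine (Complex.continuous_ofReal.tendsto 0).comp (Tendsto.inv_tendsto_atTop ?_)
    exact tendsto_atTop_add_const_left _ _ (tendsto_natCast_atTop_atTop.atTop_mul_const
      (mul_self_pos.2 ht)))
  rwa [h.sa.ph_const, zero_smul] at this

theorem wu_kill {μ : Measure ℝ} (h : T.SM e x μ) {G : ℝ → ℝ} (hG : Continuous G) {l : ℝ}
    (h0 : ∀ᵐ t ∂μ, G t ≠ l) {z : R} (hz : e * z = z)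
    (h1 : Ph e x (fun t => (G t : ℝ)) * z = (l : ℂ) • z) : z = 0 := by
  obtain ⟨f, hf, e1, hl⟩ := wu_lim h (G := fun t => G t - l) (by fun_prop)
    (h0.mono fun t ht => sub_ne_zero.2 ht)
  have h2 : Ph e x (fun t => ((G t - l : ℝ) : ℂ)) * z = 0 := by
    simp only [Complex.ofReal_sub]
    rw [SA.ph_sub (by fun_prop) continuous_const, h.sa.ph_const, sub_mul, h1, smul_mul_assoc, hz,
      sub_self]
  have h3 : ∀ n, Ph e x (f n) * z = z := fun n => by
    have := hf n
    have e2 : Ph e x (fun _ => 1) = Ph e x fun t => f n t +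
        f n t * n * ((G t - l : ℝ) : ℂ) * ((G t - l : ℝ) : ℂ) :=
      h.sa.ph_congr fun t _ => by linear_combination -e1 n t
    rw [h.sa.ph_const, one_smul, SA.ph_add (hf n) (by fun_prop),
      h.sa.ph_mul (by fun_prop) (by fun_prop)] at e2
    conv_rhs => rw [← hz, e2, add_mul, mul_assoc, h2, mul_zero, add_zero]
  have h4 := hl.mulR z
  simp only [h3, zero_mul] at h4
  exact (Lim.const z).unique h4

theorem SM.noEig {μ : Measure ℝ} (h : T.SM e x μ) (h0 : ∀ l, μ {l} = 0) : NoEig e x := by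
  intro l z hz h1
  exact wu_kill h continuous_id (compl_mem_ae_iff.2 (h0 l)) hz (by rwa [← h.sa.ph_id] at h1)

/-- Division by an injective element. -/
theorem mem_of_mul {A : Set R} (hA : T.IsW A) (heA : e ∈ A) {c y : R} (hc : SA e c) (hcA : c ∈ A)
    (hi : ∀ z, e * z = z → c * z = 0 → z = 0) (hy : e * y = y) (h : c * y ∈ A) : y ∈ A := by
  obtain ⟨μ, hμ⟩ := exists_sm (T := T) hc
  obtain ⟨f, hf, e1, hl⟩ := wu_lim hμ continuous_id (compl_mem_ae_iff.2
    (hμ.atom (l := 0) fun z h1 h2 => hi z h1 (by simpa using h2)))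
  have h2 := (Lim.const y).sub (hl.mulR y)
  rw [zero_mul, sub_zero] at h2
  refine hA.lim _ (fun n => ?_) h2
  have := hf n
  have e2 : Ph e c (fun t => 1 - f n t) = Ph e c fun t => f n t * n * t * t :=
    hc.ph_congr fun t _ => by linear_combination (norm := (simp only [id]; ring)) -e1 n t
  rw [SA.ph_sub continuous_const (hf n), hc.ph_const, one_smul,
    hc.ph_mul (by fun_prop) (by fun_prop), hc.ph_id] at e2
  have h3 := hA.mul (hA.ph_mem hc heA hcA fun t => f n t * n * t) h
  rwa [← mul_assoc, ← e2, sub_mul, hy] at h3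

/-- The distribution function of an element without eigenvectors. -/
theorem unif (sa : SA e x) (ht : T.tau e ≠ 0) (hi : NoEig e x) :
    ∃ F : ℝ → ℝ, Continuous F ∧ Monotone F ∧
      (∀ g : ℝ → ℂ, Continuous g →
        T.tau (Ph e x fun t => g (F t)) = T.tau e * ∫ s in (0 : ℝ)..1, g s) ∧
      x ∈ T.gen {e, Ph e x fun t => (F t : ℝ)} ∧
      ∀ (g : ℝ → ℝ) (a b : ℝ), Continuous g → (∀ t, 0 ≤ g t ∧ g t ≤ 1) → (∀ t ≤ a, g t = 1) →
        (∀ t ≥ b, g t = 0) → F a * (T.tau e).re ≤ (T.tau (Ph e x fun t => (g t : ℝ))).re ∧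
          (T.tau (Ph e x fun t => (g t : ℝ))).re ≤ F b * (T.tau e).re := by
  obtain ⟨μ, h⟩ := exists_sm (T := T) sa
  have := h.fin
  have te : T.tau e = (μ.real univ : ℝ) := by
    have := h.int (fun _ => 1) continuous_const
    rw [sa.ph_const, one_smul] at this
    simp [this]
  have m0 : μ univ ≠ 0 := fun h0 => ht (by simp [te, Measure.real, h0])
  set ν := (μ univ)⁻¹ • μ with hν
  have hμ : μ = μ univ • ν := by
    rw [hν, smul_smul, ENNReal.mul_inv_cancel m0 (measure_ne_top _ _), one_smul]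
  have : IsProbabilityMeasure ν := ⟨by
    rw [hν, Measure.smul_apply, smul_eq_mul, ENNReal.inv_mul_cancel m0 (measure_ne_top _ _)]⟩
  have na : ∀ l, ν {l} = 0 := fun l => by
    rw [hν, Measure.smul_apply, h.atom (hi l), smul_zero]
  have hc := continuous_cdf' ν na
  have hm := map_cdf' ν na
  have hint : ∀ g : ℝ → ℂ, Continuous g → T.tau (Ph e x g) = T.tau e * ∫ t, g t ∂ν := fun g hg => by
    rw [h.int g hg, te, hμ, integral_smul_measure, ← hμ, Complex.real_smul]
    rfl
  have lev : ∀ c, ∀ᵐ t ∂μ, cdf ν t ≠ c := fun c => by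
    have h1 : ν.map (cdf ν) {c} = 0 := by rw [hm]; exact measure_singleton c
    rw [Measure.map_apply hc.measurable (measurableSet_singleton c)] at h1
    rw [hμ]
    exact Measure.ae_smul_measure (compl_mem_ae_iff.2 h1) _
  refine ⟨cdf ν, hc, monotone_cdf ν, fun g hg => ?_, ?_, fun g a b hg g1 g2 g3 => ?_⟩
  · rw [hint (fun t => g (cdf ν t)) (hg.comp hc), ← integral_map hc.aemeasurable hg.aestronglyMeasurable, hm,
      integral_Icc_eq_integral_Ioc, ← intervalIntegral.integral_of_le zero_le_one]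
  · have W := gen_w (T := T) {e, Ph e x fun t => (cdf ν t : ℝ)}
    obtain ⟨g, g1, g2, g3⟩ := exists_quantile (monotone_cdf ν) ‖x‖ (norm_nonneg _)
    have h2 := h.approx (f := fun n t => (g n (cdf ν t) : ℝ)) (g := fun t => (t : ℂ))
      (fun n => by have := g1 n; fun_prop) (by fun_prop) (C := ‖x‖) (fun n t ht => by
        rw [Complex.norm_real]; exact g2 n t (SA.spec_le ht)) (by
        filter_upwards [h.supp, ae_all_iff.2 fun q : ℚ => lev (cdf ν q)] with t h1 h2
        refine (Complex.continuous_ofReal.tendsto _).comp (g3 t (SA.spec_le h1) fun a ha => ?_)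
        obtain ⟨q, q1, q2⟩ := exists_rat_btwn ha
        exact (monotone_cdf ν q1.le).trans_lt ((monotone_cdf ν q2.le).lt_of_ne (h2 q).symm))
    rw [sa.ph_id] at h2
    refine W.lim _ (fun n => ?_) h2
    exact W.ph_comp sa (sub_gen (.inl rfl)) (by fun_prop) (sub_gen (.inr rfl))
      (F := fun z => (g n z.re : ℝ)) (by have := g1 n; fun_prop)
  · have ig : Integrable g ν := (integrable_const (1 : ℝ)).mono' hg.aestronglyMeasurable
      (.of_forall fun t => by rw [Real.norm_of_nonneg (g1 t).1]; exact (g1 t).2)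
    have ii : ∀ c, Integrable ((Iic c).indicator (1 : ℝ → ℝ)) ν := fun c =>
      (integrable_const 1).indicator measurableSet_Iic
    have l1 : cdf ν a ≤ ∫ t, g t ∂ν := by
      rw [cdf_eq_real, ← integral_indicator_one measurableSet_Iic]
      refine integral_mono (ii a) ig fun t => ?_
      by_cases ht : t ∈ Iic a
      · rw [indicator_of_mem ht, g2 t ht]; rfl
      · rw [indicator_of_notMem ht]; exact (g1 t).1
    have l2 : ∫ t, g t ∂ν ≤ cdf ν b := by
      rw [cdf_eq_real, ← integral_indicator_one measurableSet_Iic]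
      refine integral_mono ig (ii b) fun t => ?_
      by_cases ht : t ∈ Iic b
      · rw [indicator_of_mem ht]; exact (g1 t).2
      · rw [indicator_of_notMem ht, g3 t (le_of_not_ge ht)]
    rw [hint _ (by fun_prop), integral_complex_ofReal, te, ← Complex.ofReal_mul, Complex.ofReal_re,
      Complex.ofReal_re, mul_comm (μ.real univ)]
    exact ⟨mul_le_mul_of_nonneg_right l1 measureReal_nonneg,
      mul_le_mul_of_nonneg_right l2 measureReal_nonneg⟩

theorem wu_sa (he : Pr e) (h : T.Haar e u) : SA e ((2⁻¹ : ℂ) • (u + Star.star u)) := by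
  refine ⟨he, by rw [star_smul, star_add, star_star, add_comm]; simp, ?_⟩
  have h1 : e * Star.star u = Star.star u := by rw [← he.st, ← star_mul, h.r he]
  rw [mul_smul_comm, mul_add, h.l, h1]

theorem wu_spec (he : Pr e) (h : T.Haar e u) {t : ℝ}
    (ht : (t : ℂ) ∈ spectrum ℂ ((2⁻¹ : ℂ) • (u + Star.star u))) : t ∈ Icc (-1 : ℝ) 1 := by
  refine abs_le.1 ((SA.spec_le ht).trans ?_)
  have h1 := norm_add_le u (Star.star u)
  rw [_root_.norm_star] at h1
  rw [norm_smul, norm_inv, Complex.norm_two]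
  linarith [h.norm_le he]

theorem wu_zp (he : Pr e) (h : T.Haar e u) : ∃ φ : ℤ → R, φ 0 = e ∧ (∀ n, u * φ n = φ (n + 1)) ∧
    (∀ n, Star.star u * φ n = φ (n - 1)) ∧ ∀ n, n ≠ 0 → T.tau (φ n) = 0 := by
  obtain ⟨φ, h1, h2⟩ := exists_hom he (fun _ : Unit => u) (fun _ => h.su) fun _ => h.us
  have pw : ∀ n : ℕ, φ (.of () ^ (n + 1)) = u ^ (n + 1) := fun n => by
    induction n with
    | zero => simpa using h2 ()
    | succ n ih => rw [pow_succ, h1.mul, ih, h2, ← pow_succ]
  refine ⟨fun n => φ (.of () ^ n), h1.one, fun n => ?_, fun n => ?_, fun n hn => ?_⟩ <;>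
    beta_reduce
  · rw [← h2 (), ← h1.mul, add_comm, zpow_one_add]
  · rw [← h2 (), ← h1.inv, ← h1.mul, sub_eq_neg_add, zpow_add, zpow_neg_one]
  · rcases n with (_ | n) | n
    · exact (hn rfl).elim
    · exact (congrArg T.tau (pw n)).trans (h.tau n)
    · rw [zpow_negSucc, h1.inv, pw, T.tau_star, h.tau, map_zero]

theorem wu_mom (he : Pr e) (h : T.Haar e u) (k : ℕ) :
    T.tau (Ph e ((2⁻¹ : ℂ) • (u + Star.star u)) fun t => (t : ℂ) ^ k) =
      T.tau e * (((π⁻¹ : ℝ) : ℂ) * ∫ θ in (0 : ℝ)..π, (Real.cos θ : ℂ) ^ k) := by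
  obtain ⟨φ, h0, h1, h2, h3⟩ := wu_zp he h
  have sa := wu_sa he h
  set x := (2⁻¹ : ℂ) • (u + Star.star u) with hx
  have key : ∀ (k : ℕ) (n : ℤ), T.tau (x ^ k * φ n) =
      T.tau e * (((π⁻¹ : ℝ) : ℂ) * ((∫ θ in (0 : ℝ)..π, Real.cos θ ^ k * Real.cos (n * θ) : ℝ) : ℂ)) := by
    intro k
    induction k with
    | zero =>
      intro n
      simp only [pow_zero, one_mul]
      by_cases hn : n = 0
      · simp [hn, h0]
      · rw [h3 n hn, intervalIntegral.integral_comp_mul_left _ (Int.cast_ne_zero.2 hn)]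
        simp
    | succ k ih =>
      intro n
      have e1 : ∫ θ in (0 : ℝ)..π, Real.cos θ ^ (k + 1) * Real.cos (n * θ) =
          2⁻¹ * ((∫ θ in (0 : ℝ)..π, Real.cos θ ^ k * Real.cos ((n + 1 : ℤ) * θ)) +
            ∫ θ in (0 : ℝ)..π, Real.cos θ ^ k * Real.cos ((n - 1 : ℤ) * θ)) := by
        rw [← intervalIntegral.integral_add ((by fun_prop : Continuous _).intervalIntegrable _ _)
          ((by fun_prop : Continuous _).intervalIntegrable _ _),
          ← intervalIntegral.integral_const_mul]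
        refine intervalIntegral.integral_congr fun θ _ => ?_
        push_cast
        rw [add_mul, sub_mul, one_mul, Real.cos_add, Real.cos_sub]
        ring
      rw [pow_succ, mul_assoc, hx, smul_mul_assoc, add_mul, h1, h2, mul_smul_comm, mul_add,
        map_smul, map_add, ← hx, ih, ih, e1, smul_eq_mul]
      push_cast
      ring
  have pw : Ph e x (fun t => (t : ℂ) ^ k) = x ^ k * e := by
    induction k with
    | zero => simp [sa.ph_const]
    | succ k ih =>
      simp only [pow_succ']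
      rw [sa.ph_mul (by fun_prop) (by fun_prop), ih, sa.ph_id, mul_assoc]
  rw [pw, ← h0, key, h0, ← intervalIntegral.integral_ofReal]
  simp

/-- The real part of a Haar unitary has the arcsine law. -/
theorem Haar.re_int (he : Pr e) (h : T.Haar e u) {f : ℝ → ℂ} (hf : Continuous f) :
    T.tau (Ph e ((2⁻¹ : ℂ) • (u + Star.star u)) f) =
      T.tau e * (((π⁻¹ : ℝ) : ℂ) * ∫ θ in (0 : ℝ)..π, f (Real.cos θ)) := by
  have sa := wu_sa he h
  set x := (2⁻¹ : ℂ) • (u + Star.star u) with hx
  let D : (ℝ → ℂ) → ℂ := fun f => T.tau (Ph e x f) -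
    T.tau e * (((π⁻¹ : ℝ) : ℂ) * ∫ θ in (0 : ℝ)..π, f (Real.cos θ))
  have D1 : ∀ f g, Continuous f → Continuous g → D (fun t => f t + g t) = D f + D g :=
    fun f g hf hg => by
      simp only [D]
      rw [SA.ph_add hf hg, map_add, intervalIntegral.integral_add
        ((by fun_prop : Continuous _).intervalIntegrable _ _)
        ((by fun_prop : Continuous _).intervalIntegrable _ _)]
      ring
  have D2 : ∀ (c : ℂ) f, Continuous f → D (fun t => c * f t) = c * D f := fun c f hf => by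
    simp only [D]
    rw [SA.ph_smul c hf, map_smul, intervalIntegral.integral_const_mul, smul_eq_mul]
    ring
  have D3 : ∀ p : Polynomial ℝ, D (fun t => (p.eval t : ℝ)) = 0 := fun p => by
    induction p using Polynomial.induction_on' with
    | add p q hp hq =>
      simp only [Polynomial.eval_add, Complex.ofReal_add]
      rw [D1 _ _ (by fun_prop) (by fun_prop), hp, hq, add_zero]
    | monomial n a =>
      simp only [Polynomial.eval_monomial, Complex.ofReal_mul, Complex.ofReal_pow]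
      rw [D2 _ _ (by fun_prop), show D _ = 0 from sub_eq_zero.2 (wu_mom he h n), mul_zero]
  have D4 : ∀ f (ε : ℝ), 0 ≤ ε → (∀ t ∈ Icc (-1 : ℝ) 1, ‖f t‖ ≤ ε) →
      ‖D f‖ ≤ (‖T.tau‖ + ‖T.tau e‖) * ε := fun f ε hε hf => by
    have h1 : ‖T.tau (Ph e x f)‖ ≤ ‖T.tau‖ * ε :=
      T.tau.le_of_opNorm_le_of_le le_rfl (sa.ph_norm hε fun t ht => hf t (wu_spec he h ht))
    have h2 := intervalIntegral.norm_integral_le_of_norm_le_const (a := 0) (b := π)
      (f := fun θ => f (Real.cos θ)) fun θ _ => hf _ ⟨Real.neg_one_le_cos θ, Real.cos_le_one θ⟩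
    have h3 : ‖((π⁻¹ : ℝ) : ℂ) * ∫ θ in (0 : ℝ)..π, f (Real.cos θ)‖ ≤ ε := by
      rw [sub_zero, abs_of_pos Real.pi_pos] at h2
      rw [_root_.norm_mul, Complex.norm_real, Real.norm_of_nonneg (by positivity),
        inv_mul_le_iff₀ Real.pi_pos, mul_comm]
      exact h2
    refine (norm_sub_le _ _).trans ?_
    rw [_root_.norm_mul, add_mul]
    gcongr
  have D5 : ∀ g : ℝ → ℝ, Continuous g → D (fun t => (g t : ℝ)) = 0 := fun g hg => by
    refine norm_le_zero_iff.1 (le_of_forall_pos_le_add fun ε hε => ?_)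
    have hK : 0 < ‖T.tau‖ + ‖T.tau e‖ + 1 := by positivity
    obtain ⟨p, hp⟩ := exists_polynomial_near_of_continuousOn (-1) 1 g hg.continuousOn _
      (div_pos hε hK)
    have h1 := D1 (fun t => ((g t - p.eval t : ℝ) : ℂ)) (fun t => (p.eval t : ℝ)) (by fun_prop)
      (by fun_prop)
    simp only [← Complex.ofReal_add, sub_add_cancel, D3, add_zero] at h1
    rw [h1, zero_add]
    refine (D4 _ _ (div_pos hε hK).le fun t ht => ?_).trans ?_
    · rw [Complex.norm_real, Real.norm_eq_abs, abs_sub_comm]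
      exact (hp t ht).le
    · rw [← mul_div_assoc, div_le_iff₀ hK]
      nlinarith
  have h1 := D1 (fun t => ((f t).re : ℝ)) (fun t => Complex.I * ((f t).im : ℝ)) (by fun_prop)
    (by fun_prop)
  rw [D2 _ _ (by fun_prop), D5 _ (by fun_prop), D5 _ (by fun_prop), mul_zero, add_zero] at h1
  simp only [mul_comm Complex.I, Complex.re_add_im] at h1
  exact sub_eq_zero.1 h1

theorem Haar.re_noEig (he : Pr e) (h : T.Haar e u) : NoEig e ((2⁻¹ : ℂ) • (u + Star.star u)) := by
  intro l z hz h1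
  obtain ⟨s, hs⟩ := IsAlgClosed.exists_eq_mul_self ((l : ℂ) * l - 1)
  have h2 : u * z + Star.star u * z = (2 * l : ℂ) • z := by
    rw [mul_smul, ← h1, smul_mul_assoc, smul_inv_smul₀ two_ne_zero, add_mul]
  have h3 : u * (u * z) + z = (2 * l : ℂ) • (u * z) := by
    rw [← mul_smul_comm, ← h2, mul_add, ← mul_assoc u (Star.star u), h.us, hz]
  have h4 := h.eq_zero he (z := u * z - (l - s) • z) (c := l + s)
    (by rw [mul_sub, ← mul_assoc, h.l, mul_smul_comm, hz]) (by
      rw [mul_sub, mul_smul_comm, eq_sub_of_add_eq h3, smul_sub, smul_smul,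
        show ((l : ℂ) + s) * (l - s) = 1 by linear_combination hs]
      module)
  exact h.eq_zero he hz (sub_eq_zero.1 h4)

theorem wu_ramp (s : ℝ) : Tendsto (fun n : ℕ => ((min 1 (max 0 (n * s)) : ℝ) : ℂ)) atTop
    (𝓝 (if 0 < s then 1 else 0)) := by
  split_ifs with hs
  · refine tendsto_const_nhds.congr' ?_
    filter_upwards [(tendsto_natCast_atTop_atTop.atTop_mul_const hs).eventually_ge_atTop 1] with n hn
    rw [min_eq_left (le_max_of_le_right hn), Complex.ofReal_one]
  · refine tendsto_const_nhds.congr fun n => ?_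
    rw [max_eq_left (mul_nonpos_of_nonneg_of_nonpos n.cast_nonneg (not_lt.1 hs)),
      min_eq_right zero_le_one, Complex.ofReal_zero]

theorem wu_ramp_le (s : ℝ) : ‖((min 1 (max 0 s) : ℝ) : ℂ)‖ ≤ 1 := by
  rw [Complex.norm_real, Real.norm_of_nonneg (le_min zero_le_one (le_max_left _ _))]
  exact min_le_left _ _

/-- A flag of projections in the algebra of a Haar unitary. -/
theorem Haar.flag (he : Pr e) (ht : T.tau e ≠ 0) (h : T.Haar e u) :
    ∃ q : ℝ → R, (∀ α, Pr (q α) ∧ q α ∈ T.gen {e, u}) ∧ (∀ α β, α ≤ β → q β * q α = q α) ∧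
      (∀ α, 0 ≤ α → α ≤ 1 → T.tau (q α) = α * T.tau e) ∧
      ∀ α, 0 < α → α ≤ 1 → ∃ w ∈ cor (q α) (T.gen {e, u}), T.Haar (q α) w := by
  have sa := wu_sa he h
  have hn := h.re_noEig he
  set x := (2⁻¹ : ℂ) • (u + Star.star u) with hx
  have W := gen_w (T := T) {e, u}
  have eW : e ∈ T.gen {e, u} := sub_gen (.inl rfl)
  have xW : x ∈ T.gen {e, u} :=
    W.smul _ (W.add (sub_gen (.inr rfl)) (W.star (sub_gen (.inr rfl))))
  obtain ⟨F, hF, -, hint, -, -⟩ := unif sa ht hn
  obtain ⟨μ, hμ⟩ := exists_sm (T := T) sa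
  let f : ℝ → ℕ → ℝ → ℂ := fun α n t => ((min 1 (max 0 (n * (α - F t))) : ℝ) : ℂ)
  have hf : ∀ α n, Continuous (f α n) := fun α n => by fun_prop
  have nb : ∀ α n, ‖Ph e x (f α n)‖ ≤ 1 := fun α n =>
    sa.ph_norm zero_le_one fun t _ => wu_ramp_le _
  have ex : ∀ α, ∃ q, T.Lim (fun n => Ph e x (f α n)) q := fun α => T.compl _ 1 (nb α)
    (hμ.cauchy (hf α) (fun n t _ => wu_ramp_le _) (.of_forall fun t => wu_ramp _))
  choose q hq using ex
  have q1 : ∀ α β, α ≤ β → q β * q α = q α := fun α β hab => by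
    have h1 := hμ.approx (f := fun n t => f β n t * f α n t - f α n t) (g := fun _ => 0)
      (fun n => ((hf β n).mul (hf α n)).sub (hf α n)) continuous_const (C := 2) (fun n t _ => by
        refine (norm_sub_le _ _).trans ?_
        rw [_root_.norm_mul]
        linarith [mul_le_one₀ (wu_ramp_le (n * (β - F t))) (norm_nonneg (f α n t)) (wu_ramp_le _),
          wu_ramp_le (n * (α - F t))]) (.of_forall fun t => by
        have := ((wu_ramp (β - F t)).mul (wu_ramp (α - F t))).sub (wu_ramp (α - F t))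
        convert this using 2
        by_cases h1 : 0 < α - F t
        · rw [if_pos h1, if_pos (by linarith), mul_one, sub_self]
        · rw [if_neg h1, mul_zero, sub_self])
    rw [sa.ph_const, zero_smul] at h1
    refine sub_eq_zero.1 ((((hq β).mul (hq α) (nb β)).sub (hq α)).unique ?_)
    convert h1 using 2 with n
    rw [SA.ph_sub (by fun_prop) (hf α n), sa.ph_mul (hf β n) (hf α n)]
  have q2 : ∀ α, Pr (q α) := fun α => ⟨(hq α).star.unique (by
    convert hq α using 2 with n
    rw [← sa.ph_star]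
    exact sa.ph_congr fun t _ => Complex.conj_ofReal _), q1 α α le_rfl⟩
  have q3 : ∀ α, q α ∈ T.gen {e, u} := fun α => W.lim _ (fun n => W.ph_mem sa eW xW _) (hq α)
  have q4 : ∀ α, 0 ≤ α → α ≤ 1 → T.tau (q α) = α * T.tau e := fun α h0 h1 => by
    have h2 := intervalIntegral.tendsto_integral_filter_of_dominated_convergence (μ := volume)
      (a := 0) (b := 1) (l := atTop)
      (F := fun (n : ℕ) s => ((min 1 (max 0 (n * (α - s))) : ℝ) : ℂ)) (fun _ => 1)
      (.of_forall fun n => (by fun_prop : Continuous _).aestronglyMeasurable)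
      (.of_forall fun n => .of_forall fun s _ => wu_ramp_le _) intervalIntegrable_const
      (.of_forall fun s _ => wu_ramp _)
    have h3 : ∫ s in (0 : ℝ)..1, (if 0 < α - s then (1 : ℂ) else 0) = α := by
      have e1 : (fun s : ℝ => if 0 < α - s then (1 : ℂ) else 0) = (Iio α).indicator 1 := by
        funext s
        simp [indicator]
      rw [e1, intervalIntegral.integral_of_le zero_le_one, setIntegral_indicator measurableSet_Iio,
        show Ioc 0 1 ∩ Iio α = Ioo 0 α from Set.ext fun s =>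
          ⟨fun hs => ⟨hs.1.1, hs.2⟩, fun hs => ⟨⟨hs.1, hs.2.le.trans h1⟩, hs.2⟩⟩]
      simp [h0]
    rw [h3] at h2
    rw [mul_comm]
    refine tendsto_nhds_unique (hq α).tau ((h2.const_mul (T.tau e)).congr fun n => ?_)
    exact (hint (fun s => ((min 1 (max 0 (n * (α - s))) : ℝ) : ℂ)) (by fun_prop)).symm
  refine ⟨q, fun α => ⟨q2 α, q3 α⟩, q1, q4, fun α h0 h1 => ?_⟩
  have c1 : x * q α = q α * x := ((hq α).mulL x).unique (by
    simpa only [← sa.ph_comm rfl (sa.r.trans sa.l.symm)] using (hq α).mulR x)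
  have c2 : e * q α = q α := ((hq α).mulL e).unique (by simpa only [sa.ph_l] using hq α)
  obtain ⟨w, w1, w2, w3, w4, w5⟩ := haarify (T := T) (e := q α) (x := q α * x)
    ⟨q2 α, by rw [star_mul, sa.st, (q2 α).st, c1], (q2 α).l x⟩
    (by rw [q4 α h0.le h1]; exact mul_ne_zero (Complex.ofReal_ne_zero.2 h0.ne') ht)
    fun l z z1 z2 => hn l z (by rw [← z1, ← mul_assoc, c2]) (by
      rwa [← c1, mul_assoc, z1] at z2)
  refine ⟨w, ⟨W.gen_le (S := {q α, q α * x}) ?_ (w5 ▸ sub_gen (.inr rfl)), w1, (q2 α).pi_r w2⟩,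
    w1, w2, w3, w4⟩
  rintro _ (rfl | rfl)
  exacts [q3 α, W.mul (q3 α) xW]

theorem Haar.exists_sym (h1 : T.tau 1 = 1) (h : T.Haar 1 u) :
    ∃ σ ∈ T.gen {1, u}, Star.star σ = σ ∧ σ * σ = 1 ∧ T.tau σ = 0 := by
  obtain ⟨q, q1, -, q2, -⟩ := h.flag Pr.one (by rw [h1]; exact one_ne_zero)
  obtain ⟨p1, p2⟩ := q1 (1 / 2)
  have W := gen_w (T := T) {1, u}
  refine ⟨1 - (q (1 / 2) + q (1 / 2)), W.sub (sub_gen (.inl rfl)) (W.add p2 p2),
    by rw [star_sub, star_add, star_one, p1.st], ?_, ?_⟩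
  · simp only [sub_mul, mul_sub, add_mul, mul_add, one_mul, mul_one, p1.sq]
    abel
  · rw [map_sub, map_add, q2 _ (by norm_num) (by norm_num), h1]
    norm_num

theorem wu_inv : ∃ g : ℝ → ℝ, Continuous g ∧ StrictMono g ∧
    ∀ a, g (a - Real.sin a * Real.cos a) = a := by
  have e : ∀ a, a - Real.sin a * Real.cos a = a - Real.sin (2 * a) / 2 := fun a => by
    rw [Real.sin_two_mul]; ring
  have hm : StrictMono fun a => a - Real.sin a * Real.cos a := fun a b hab => by
    have h1 := Real.sin_sub_sin (2 * b) (2 * a)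
    have h2 : |Real.sin ((2 * b - 2 * a) / 2)| < |(2 * b - 2 * a) / 2| :=
      Real.abs_sin_lt_abs (by linarith)
    have h3 := mul_le_of_le_one_right (abs_nonneg (Real.sin ((2 * b - 2 * a) / 2)))
      (Real.abs_cos_le_one ((2 * b + 2 * a) / 2))
    rw [← abs_mul] at h3
    rw [abs_of_pos (a := (2 * b - 2 * a) / 2) (by linarith)] at h2
    simp only [e]
    linarith [le_abs_self (Real.sin ((2 * b - 2 * a) / 2) * Real.cos ((2 * b + 2 * a) / 2))]
  have hs : Function.Surjective fun a => a - Real.sin a * Real.cos a := by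
    refine Continuous.surjective (by fun_prop)
      (tendsto_atTop_mono (fun a => ?_) (tendsto_atTop_add_const_right _ (-1) tendsto_id))
      (tendsto_atBot_mono (fun a => ?_) (tendsto_atBot_add_const_right _ 1 tendsto_id))
    · simp only [e, id]; linarith [Real.sin_le_one (2 * a)]
    · simp only [e, id]; linarith [Real.neg_one_le_sin (2 * a)]
  exact ⟨(hm.orderIsoOfSurjective _ hs).symm, OrderIso.continuous _, OrderIso.strictMono _,
    fun a => (hm.orderIsoOfSurjective _ hs).symm_apply_apply a⟩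

theorem wu_even {f : ℕ → ℂ} (h : ∀ i, f (2 * i + 1) = 0) (j : ℕ) :
    ∑ k ∈ Finset.range (2 * j + 1), f k = ∑ i ∈ Finset.range (j + 1), f (2 * i) := by
  induction j with
  | zero => simp
  | succ j ih =>
    rw [show 2 * (j + 1) + 1 = 2 * j + 1 + 1 + 1 by ring, Finset.sum_range_succ,
      Finset.sum_range_succ, ih, h, add_zero, Finset.sum_range_succ _ (j + 1)]
    rfl

theorem wu_cat {m : ℕ → ℂ} (h0 : m 0 = 1) (h1 : m 1 = 0)
    (h : ∀ k : ℕ, (k + 4) * m (k + 2) = 4 * (k + 1) * m k) (n : ℕ) :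
    m (n + 1) = ∑ k ∈ Finset.range n, m k * m (n - 1 - k) := by
  have ne : ∀ k : ℕ, (k + 4 : ℂ) ≠ 0 := fun k => by exact_mod_cast (by omega : k + 4 ≠ 0)
  have od : ∀ i, m (2 * i + 1) = 0 := fun i => by
    induction i with
    | zero => exact h1
    | succ i ih =>
      have := h (2 * i + 1)
      rw [ih, mul_zero] at this
      exact (mul_eq_zero.1 this).resolve_left (ne _)
  have ev : ∀ i, m (2 * i) = catalan i := fun i => by
    induction i with
    | zero => simpa using h0
    | succ i ih =>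
      have e1 := h (2 * i)
      have e2 := congrArg (Nat.cast (R := ℂ)) (succ_mul_catalan_eq_centralBinom i)
      have e3 := congrArg (Nat.cast (R := ℂ)) (succ_mul_catalan_eq_centralBinom (i + 1))
      have e4 := congrArg (Nat.cast (R := ℂ)) (Nat.succ_mul_centralBinom_succ i)
      have n1 : (i + 1 : ℂ) ≠ 0 := by exact_mod_cast i.succ_ne_zero
      refine mul_left_cancel₀ (mul_ne_zero (ne (2 * i)) n1) ?_
      rw [ih] at e1
      rw [show 2 * (i + 1) = 2 * i + 2 from rfl]
      push_cast at e1 e2 e3 e4 ⊢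
      linear_combination (i + 1) * e1 + 4 * (2 * i + 1) * e2 - 2 * (i + 1) * e3 - 2 * e4
  obtain ⟨j, rfl | rfl⟩ := Nat.even_or_odd' n
  · rw [od]
    refine (Finset.sum_eq_zero fun k hk => ?_).symm
    have := Finset.mem_range.1 hk
    obtain ⟨i, rfl | rfl⟩ := Nat.even_or_odd' k
    · rw [show 2 * j - 1 - 2 * i = 2 * (j - 1 - i) + 1 by omega, od, mul_zero]
    · rw [od, zero_mul]
  · rw [wu_even fun i => by rw [od, zero_mul], show 2 * j + 1 + 1 = 2 * (j + 1) from rfl, ev,
      catalan_succ, Finset.sum_range, Nat.cast_sum]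
    refine Finset.sum_congr rfl fun i _ => ?_
    rw [show 2 * j + 1 - 1 - 2 * i = 2 * (j - i) by omega, ev, ev, Nat.cast_mul]

/-- A semicircular element in the algebra of a Haar unitary. -/
theorem Haar.exists_semi (h1 : T.tau 1 = 1) (h : T.Haar 1 u) :
    ∃ s ∈ T.gen {1, u}, Star.star s = s ∧ NoEig 1 s ∧ ∀ n : ℕ, T.tau (s ^ (n + 1)) =
      ∑ k ∈ Finset.range n, T.tau (s ^ k) * T.tau (s ^ (n - 1 - k)) := by
  have sa := wu_sa Pr.one h
  have W := gen_w (T := T) {1, u}
  obtain ⟨g, g1, g2, g3⟩ := wu_inv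
  obtain ⟨μ, hμ⟩ := exists_sm (T := T) sa
  have ca := Real.continuous_arccos
  let G : ℝ → ℝ := fun t => 2 * Real.cos (g (Real.arccos t))
  have hG : Continuous G := by fun_prop
  refine ⟨Ph 1 ((2⁻¹ : ℂ) • (u + Star.star u)) fun t => (G t : ℝ), W.ph_mem sa (sub_gen (.inl rfl))
    (W.smul _ (W.add (sub_gen (.inr rfl)) (W.star (sub_gen (.inr rfl))))) _, ?_,
    fun l z hz h2 => wu_kill hμ hG ?_ hz h2, ?_⟩
  · rw [← sa.ph_star]
    exact sa.ph_congr fun t _ => Complex.conj_ofReal _
  · have g0 : g 0 = 0 := by simpa using g3 0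
    have gp : g π = π := by simpa using g3 π
    have mm : ∀ t, g (Real.arccos t) ∈ Icc 0 π := fun t =>
      ⟨g0.ge.trans (g2.monotone (Real.arccos_nonneg t)),
        (g2.monotone (Real.arccos_le_pi t)).trans gp.le⟩
    by_cases hl : ∃ t0 ∈ Icc (-1 : ℝ) 1, G t0 = l
    · obtain ⟨t0, t1, rfl⟩ := hl
      filter_upwards [hμ.supp, compl_mem_ae_iff.2 (hμ.atom (h.re_noEig Pr.one t0))] with t h3 h4 h5
      exact h4 (Real.arccos_injOn (wu_spec Pr.one h h3) t1
        (g2.injective (Real.injOn_cos (mm t) (mm t0) (mul_left_cancel₀ two_ne_zero h5))))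
    · filter_upwards [hμ.supp] with t h3 h4
      exact hl ⟨t, wu_spec Pr.one h h3, h4⟩
  have pw : ∀ k : ℕ, (Ph 1 ((2⁻¹ : ℂ) • (u + Star.star u)) fun t => (G t : ℝ)) ^ k =
      Ph 1 ((2⁻¹ : ℂ) • (u + Star.star u)) fun t => (G t ^ k : ℝ) := fun k => by
    induction k with
    | zero => simp only [pow_zero, Complex.ofReal_one, sa.ph_const, one_smul]
    | succ k ih =>
      rw [pow_succ, ih, ← sa.ph_mul (by fun_prop) (by fun_prop)]
      simp only [← Complex.ofReal_mul, ← pow_succ]
  let c : ℕ → ℝ := fun k => ∫ a in (0 : ℝ)..π, Real.cos a ^ k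
  have c1 : ∀ k : ℕ, (k + 2) * c (k + 2) = (k + 1) * c k := fun k => by
    simp only [c]
    rw [integral_cos_pow]
    simp only [Real.sin_pi, Real.sin_zero, mul_zero, sub_self, zero_div, zero_add]
    field_simp
  have mom : ∀ k : ℕ, T.tau ((Ph 1 ((2⁻¹ : ℂ) • (u + Star.star u)) fun t => (G t : ℝ)) ^ k) =
      ((π⁻¹ * (2 ^ (k + 1) * (c k - c (k + 2))) : ℝ) : ℂ) := fun k => by
    rw [pw, h.re_int Pr.one (by fun_prop), h1, one_mul, intervalIntegral.integral_ofReal,
      ← Complex.ofReal_mul]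
    congr 2
    have e1 := intervalIntegral.integral_comp_mul_deriv (a := 0) (b := π)
      (f := fun a => a - Real.sin a * Real.cos a) (f' := fun a => 2 * (1 - Real.cos a ^ 2))
      (g := fun θ => (2 * Real.cos (g θ)) ^ k) (fun a _ =>
        ((hasDerivAt_id a).sub ((Real.hasDerivAt_sin a).mul (Real.hasDerivAt_cos a))).congr_deriv
          (by linear_combination Real.sin_sq_add_cos_sq a)) (by fun_prop) (by fun_prop)
    simp only [Real.sin_zero, Real.sin_pi, zero_mul, sub_zero, Function.comp_apply, g3] at e1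
    rw [intervalIntegral.integral_congr (g := fun θ => (2 * Real.cos (g θ)) ^ k) fun θ hθ => by
      rw [uIcc_of_le Real.pi_pos.le] at hθ
      simp only [G, Real.arccos_cos hθ.1 hθ.2], ← e1,
      ← intervalIntegral.integral_sub ((by fun_prop : Continuous _).intervalIntegrable _ _)
        ((by fun_prop : Continuous _).intervalIntegrable _ _), ← intervalIntegral.integral_const_mul]
    exact intervalIntegral.integral_congr fun a _ => by ring
  refine wu_cat (m := fun k => T.tau ((Ph 1 ((2⁻¹ : ℂ) • (u + Star.star u))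
    fun t => (G t : ℝ)) ^ k)) (by rw [pow_zero, h1]) ?_ fun k => ?_
  · have e1 : c 1 = 0 := by simp [c]
    have e2 := c1 1
    rw [mom, e1, show c (1 + 2) = 0 by rw [e1] at e2; push_cast at e2; linarith]
    simp
  · have e1 := c1 k
    have e2 := c1 (k + 2)
    have e3 : (k + 4) * (π⁻¹ * (2 ^ (k + 2 + 1) * (c (k + 2) - c (k + 2 + 2)))) =
        4 * (k + 1) * (π⁻¹ * (2 ^ (k + 1) * (c k - c (k + 2)))) := by
      push_cast at e2
      linear_combination π⁻¹ * 2 ^ (k + 3) * (e1 - e2)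
    rw [mom, mom]
    exact_mod_cast e3

end TW

end Pool.Agent.Lib.MP_263241_an
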