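import Pool.Agent.Lib.MP_263241_an.WG
import Pool.Agent.Lib.MP_263241_an.WS2

/-! Expansion in reduced words. -/

namespace Pool.Agent.Lib.MP_263241_an

open Complex Filter Topology Finset

variable {R H : Type*} [CStarAlgebra R] [NormedAddCommGroup H] [InnerProductSpace ℂ H]

/-- Terms without letter `σ`. -/
noncomputable def x0 (V : R) (s : ℝ) (K N : ℕ) : R :=
  ∑ i ∈ range N, (-I * al s K i) • OD V (od K i)

/-- Terms with one letter `σ`, with `f n` in place of the `n`-th power. -/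
noncomputable def x1 (f : ℤ → R) (σ : R) (s : ℝ) (K N : ℕ) : R :=
  ∑ i ∈ range N, (ka s K i : ℂ) • sg (od K i) fun p q => f p * σ * f q

/-- The words of degree `r` with one letter `σ`. -/
noncomputable def wxS (σ V : R) (r : ℕ) : R := ∑ j ∈ range r, V ^ j * σ * V ^ (r - j)

theorem wxS_succ (σ V : R) (r : ℕ) : wxS σ V (r + 1) = σ * (V * V ^ r) + V * wxS σ V r := by
  rw [wxS, wxS, sum_range_succ', add_comm, pow_zero, one_mul, Nat.sub_zero, pow_succ', mul_sum]
  congr 1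
  refine sum_congr rfl fun j _ => ?_
  rw [Nat.add_sub_add_right, pow_succ', mul_assoc, mul_assoc, mul_assoc]

theorem wx_sg {σ : R} (hσ : star σ = σ) (V : R) (r : ℕ) :
    (sg r fun p q => zp V p * σ * zp V q) = wxS σ V r + star (wxS σ V r) := by
  rw [sg, wxS, star_sum, ← sum_add_distrib]
  refine sum_congr rfl fun j hj => ?_
  rw [← zp_star, ← zp_star, ← Nat.cast_sub (mem_range.1 hj).le, zp_nat, zp_nat, star_mul, star_mul,
    hσ, mul_assoc (star _)]

theorem wx_OD (V : R) (r : ℕ) : OD V r = (2⁻¹ : ℂ) • (V ^ r - star (V ^ r)) := by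
  rw [OD, zp_nat, zp_neg_nat, star_pow]

namespace TW

variable {T : TW R H} {σ V : R}

variable (T) in
/-- Words with at least two letters `σ`. -/
def wxW (σ V : R) : Set R :=
  {z | ∃ p : ℕ, ∃ x ∈ T.cen (T.gen {1, V}), ∃ u,
    Core (T.cen (T.gen {1, V})) (T.cen (T.cls {1, σ})) u ∧ ∃ a ∈ T.gen {1, V},
      z = V ^ p * (σ * (x * u)) * a}

variable (T) in
/-- Words with one letter `σ`. -/
def wxY (σ V : R) : Set R := {w | ∃ a ∈ T.gen {1, V}, ∃ b ∈ T.gen {1, V}, w = a * σ * b}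

theorem wx_norm (v : ℕ → R) (c : ℕ → ℂ) (n : ℕ → ℝ) (N : ℕ)
    (h : ∀ i i', T.tau (star (v i) * v i') = if i = i' then (n i : ℂ) else 0) :
    ‖T.ι (∑ i ∈ range N, c i • v i)‖ ^ 2 = ∑ i ∈ range N, ‖c i‖ ^ 2 * n i := by
  have e := T.tau_sq (∑ i ∈ range N, c i • v i)
  rw [star_sum, sum_mul_sum, map_sum] at e
  have e2 : ∀ i ∈ range N, T.tau (∑ j ∈ range N, star (c i • v i) * c j • v j) =
      ((‖c i‖ ^ 2 * n i : ℝ) : ℂ) := fun i hi => by
    simp only [star_smul, smul_mul_smul_comm, map_sum, map_smul, h, smul_eq_mul, mul_ite, mul_zero,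
      sum_ite_eq, if_pos hi]
    rw [Complex.star_def, Complex.conj_mul']
    push_cast
    rfl
  rw [sum_congr rfl e2] at e
  exact_mod_cast e.symm

theorem wx_zp (n : ℤ) : zp V n ∈ T.gen {1, V} :=
  (zp_mem (gen_w _) (sub_gen (by simp)) (sub_gen (by simp)) n).1

theorem wx_pow (n : ℕ) : V ^ n ∈ T.gen {1, V} := wx_zp n

section st

variable (h : T.St σ V)
include h

theorem St.wx_cen : σ ∈ T.cen (T.cls {1, σ}) := ⟨sub_cls (by simp), h.s0⟩

theorem St.wx_core {a u : R} (ha : a ∈ T.gen {1, V})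
    (hu : Core (T.cen (T.gen {1, V})) (T.cen (T.cls {1, σ})) u) : T.tau (a * u) = 0 :=
  tau_core (by rw [h.one]; exact one_ne_zero) (h.haar.alg Pr.one) (sym_alg h.s1 h.s2) h.free ha hu

theorem St.wx_tau_zp (n : ℤ) : T.tau (zp V n) = if n = 0 then 1 else 0 := by
  split_ifs with hn
  · rw [hn, show zp V 0 = 1 from pow_zero V, h.one]
  · exact h.haar.tau_zp hn

/-- Expansion of a power. -/
theorem St.wx_exp (c e : ℂ) (r : ℕ) : (c • V + e • (σ * V)) ^ (r + 1) - c ^ (r + 1) • V ^ (r + 1) -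
    (c ^ r * e) • wxS σ V (r + 1) ∈ T.cls (T.wxW σ V) := by
  have hS := cls_sub (T := T) (T.wxW σ V)
  induction r with
  | zero =>
    have : (c • V + e • (σ * V)) ^ (0 + 1) - c ^ (0 + 1) • V ^ (0 + 1) -
        (c ^ 0 * e) • wxS σ V (0 + 1) = 0 := by simp [wxS]
    rw [this]
    exact hS.zero
  | succ r ih =>
    have h1 := hS.map (LinC.id.mulL V) (by
      rintro _ ⟨p, x, hx, u, hu, a, ha, rfl⟩
      exact sub_cls ⟨p + 1, x, hx, u, hu, a, ha, by simp only [pow_succ', mul_assoc]⟩) ih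
    have h2 := hS.map ((LinC.id.mulL V).mulL σ) (by
      rintro _ ⟨p, x, hx, u, hu, a, ha, rfl⟩
      exact sub_cls ⟨0, V ^ (p + 1), ⟨wx_pow _, h.haar.tau p⟩, _, .cons h.wx_cen hx hu, a, ha, by
        simp only [pow_succ', pow_zero, one_mul, mul_assoc]⟩) ih
    have h3 : σ * (V * wxS σ V (r + 1)) ∈ T.cls (T.wxW σ V) := by
      rw [wxS, mul_sum, mul_sum]
      exact hS.sum _ fun j _ => sub_cls ⟨0, V ^ (j + 1), ⟨wx_pow _, h.haar.tau j⟩, σ,
        .one h.wx_cen, _, wx_pow (r + 1 - j), by simp only [pow_succ', pow_zero, one_mul, mul_assoc]⟩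
    convert hS.add (hS.add (hS.smul c h1) (hS.smul e h2)) (hS.smul (c ^ r * e * e) h3) using 1
    rw [wxS_succ σ V (r + 1), pow_succ' (c • V + e • (σ * V)) (r + 1), pow_succ' V (r + 1)]
    generalize (c • V + e • (σ * V)) ^ (r + 1) = P
    simp only [add_mul, mul_sub, smul_mul_assoc, mul_smul_comm, mul_assoc]
    module

theorem St.wx_W {z : R} (hz : z ∈ T.cls (T.wxW σ V)) :
    (∀ a ∈ T.gen {1, V}, T.tau (a * z) = 0) ∧ ∀ w ∈ T.wxY σ V, T.tau (w * z) = 0 := by
  have hA := h.haar.alg Pr.one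
  refine ⟨fun a ha => ker_sub.map (LinC.id.mulL a) ?_ hz,
    fun w hw => ker_sub.map (LinC.id.mulL w) ?_ hz⟩
  · rintro _ ⟨p, x, hx, u, hu, a', ha', rfl⟩
    change T.tau (a * _) = 0
    rw [← mul_assoc, T.tau_comm, ← mul_assoc, ← mul_assoc]
    exact h.wx_core (hA.mul (hA.mul ha' ha) (wx_pow p)) (.cons h.wx_cen hx hu)
  · rintro _ ⟨p, x, hx, u, hu, a', ha', rfl⟩
    obtain ⟨a, ha, b, hb, rfl⟩ := hw
    obtain ⟨b0, hb0, c, e⟩ := hA.dec (by rw [h.one]; exact one_ne_zero) (hA.mul hb (wx_pow p))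
    change T.tau (a * σ * b * _) = 0
    have e1 : a' * (a * σ * b * (V ^ p * (σ * (x * u)))) =
        a' * a * (σ * (b0 * (σ * (x * u)))) + c • (a' * a * x * u) := by
      calc _ = a' * a * (σ * (b * V ^ p * (σ * (x * u)))) := by simp only [mul_assoc]
        _ = _ := by
          rw [e, add_mul, smul_mul_assoc, one_mul, mul_add, mul_smul_comm, ← mul_assoc σ σ, h.s2,
            one_mul, mul_add, mul_smul_comm, mul_assoc _ x]
    rw [← mul_assoc, T.tau_comm, e1, map_add, map_smul,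
      h.wx_core (hA.mul ha' ha) (.cons h.wx_cen hb0 (.cons h.wx_cen hx hu)),
      h.wx_core (hA.mul (hA.mul ha' ha) hx.1) hu, smul_zero, add_zero]

theorem St.wx_Y_star {w : R} (hw : w ∈ T.wxY σ V) : star w ∈ T.wxY σ V := by
  obtain ⟨a, ha, b, hb, rfl⟩ := hw
  exact ⟨_, (gen_w _).star hb, _, (gen_w _).star ha, by rw [star_mul, star_mul, h.s1, mul_assoc]⟩

theorem St.wx_W_star {z : R} (hz : z ∈ T.cls (T.wxW σ V)) :
    (∀ a ∈ T.gen {1, V}, T.tau (a * star z) = 0) ∧ ∀ w ∈ T.wxY σ V, T.tau (w * star z) = 0 := by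
  have e : ∀ a : R, T.tau (star a * z) = 0 → T.tau (a * star z) = 0 := fun a ha => by
    have := T.tau_star (star a * z)
    rwa [star_mul, star_star, ha, map_zero, T.tau_comm] at this
  exact ⟨fun a ha => e a ((h.wx_W hz).1 _ ((gen_w _).star ha)),
    fun w hw => e w ((h.wx_W hz).2 _ (h.wx_Y_star hw))⟩

/-- The words with one letter `σ` are orthonormal. -/
theorem St.wx_on (p q p' q' : ℤ) : T.tau (star (zp V p * σ * zp V q) * (zp V p' * σ * zp V q')) =
    if p = p' ∧ q = q' then 1 else 0 := by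
  have e : zp V q' * (star (zp V p * σ * zp V q) * (zp V p' * σ)) =
      zp V (q' + -q) * (σ * (zp V (-p + p') * σ)) := by
    rw [star_mul, star_mul, zp_star, zp_star, h.s1, zp_add h.haar.su h.haar.us,
      zp_add h.haar.su h.haar.us]
    simp only [mul_assoc]
  rw [← mul_assoc, T.tau_comm, e]
  by_cases hp : p = p'
  · rw [hp, neg_add_cancel, show zp V 0 = 1 from pow_zero V, one_mul, h.s2, mul_one, h.wx_tau_zp]
    exact if_congr (by omega) rfl rfl
  · rw [if_neg fun h' => hp h'.1]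
    exact h.wx_core (wx_zp _) (.cons h.wx_cen ⟨wx_zp _, h.haar.tau_zp (by omega)⟩ (.one h.wx_cen))

theorem St.wx_sg_on (r r' : ℕ) :
    T.tau (star (sg r fun p q => zp V p * σ * zp V q) * sg r' fun p q => zp V p * σ * zp V q) =
      if r = r' then ((2 * r : ℝ) : ℂ) else 0 := by
  rw [sg, sg, star_sum, sum_mul_sum, map_sum]
  have e : ∀ j ∈ range r, T.tau (∑ j' ∈ range r',
      star (zp V j * σ * zp V (r - j) + zp V (-(r - j)) * σ * zp V (-j)) *
        (zp V j' * σ * zp V (r' - j') + zp V (-(r' - j')) * σ * zp V (-j'))) =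
      if r = r' then 2 else 0 := fun j hj => by
    have hj' := mem_range.1 hj
    rw [map_sum, sum_congr rfl (g := fun j' => if j = j' then if r = r' then 2 else 0 else 0)
      fun j' hj' => ?_, sum_ite_eq]
    · split_ifs with h1 h2
      · rfl
      · rfl
      · exact absurd (by rwa [← ‹r = r'›]) h1
      · rfl
    · have := mem_range.1 hj'
      rw [star_add, add_mul, mul_add, mul_add, map_add, map_add, map_add, h.wx_on, h.wx_on, h.wx_on,
        h.wx_on, if_neg (show ¬ ((j : ℤ) = -(r' - j') ∧ _) by omega),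
        if_neg (show ¬ (-((r : ℤ) - j) = j' ∧ _) by omega)]
      by_cases h1 : j = j' ∧ r = r'
      · rw [if_pos (by omega), if_pos (by omega), if_pos h1.1, if_pos h1.2]
        norm_num
      · rw [if_neg (by omega), if_neg (by omega)]
        split_ifs with h2 h3
        · exact absurd ⟨h2, h3⟩ h1
        · norm_num
        · norm_num
  rw [sum_congr rfl e, sum_const, card_range]
  split_ifs <;> simp [mul_comm]

theorem St.wx_OD_on {r r' : ℕ} (hr : r ≠ 0) :
    T.tau (star (OD V r) * OD V r') = if r = r' then ((2⁻¹ : ℝ) : ℂ) else 0 := by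
  rw [OD_star, neg_mul, OD_mul_OD h.haar.su h.haar.us]
  simp only [EV, map_neg, map_smul, map_sub, map_add, h.wx_tau_zp]
  rw [if_neg (by omega), if_neg (by omega)]
  by_cases h1 : r = r'
  · rw [if_pos (by omega), if_pos (by omega), if_pos h1]
    norm_num
  · rw [if_neg (by omega), if_neg (by omega), if_neg h1]
    norm_num

end st

/-- Expansion of the truncated sign of `(exp (-i s σ) V) ^ K` in reduced words. -/
theorem St.expand (h : T.St σ V) (s : ℝ) {K : ℕ} (hK : K ≠ 0) (N : ℕ) {y : R}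
    (hy : y = eI ((rt σ (-s) * V) ^ K) N) :
    (∀ a ∈ T.gen {1, V}, T.tau (a * (y - x0 V s K N)) = 0) ∧
      ‖T.ι (x0 V s K N)‖ ^ 2 = m0 s K N ∧ ‖T.ι (x1 (zp V) σ s K N)‖ ^ 2 = m1 s K N ∧
      ‖T.ι (y - x0 V s K N - x1 (zp V) σ s K N)‖ ^ 2 = m2 s K N := by
  have hA := h.haar.alg Pr.one
  have hod : ∀ i, od K i ≠ 0 := fun i => mul_ne_zero hK (by omega)
  have hoi : ∀ i i', od K i = od K i' ↔ i = i' := fun i i' =>
    (mul_right_inj' hK).trans (by omega)
  have hU : rt σ (-s) * V = (Real.cos s : ℂ) • V + (-I * Real.sin s) • (σ * V) := by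
    rw [rt, Real.cos_neg, Real.sin_neg, add_mul, smul_mul_assoc, smul_mul_assoc, one_mul,
      ofReal_neg, mul_neg, neg_mul]
  obtain ⟨Z, hZ, hZ'⟩ : ∃ Z : ℕ → R, (∀ i, Z i ∈ T.cls (T.wxW σ V)) ∧
      y - x0 V s K N - x1 (zp V) σ s K N =
        ∑ i ∈ range N, (-I * cf i * 2⁻¹) • (Z i - star (Z i)) := by
    refine ⟨fun i => (rt σ (-s) * V) ^ od K i - (Real.cos s : ℂ) ^ od K i • V ^ od K i -
      ((Real.cos s : ℂ) ^ (od K i - 1) * (-I * Real.sin s)) • wxS σ V (od K i), fun i => ?_, ?_⟩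
    · obtain ⟨r, hr⟩ := Nat.exists_eq_succ_of_ne_zero (hod i)
      beta_reduce
      rw [hU, hr]
      exact h.wx_exp _ _ r
    · rw [hy, eI, x0, x1, ← sum_sub_distrib, ← sum_sub_distrib]
      refine sum_congr rfl fun i _ => ?_
      beta_reduce
      rw [wx_sg h.s1, wx_OD, wx_OD, ← pow_mul, show K * (2 * i + 1) = od K i from rfl, al, ka]
      generalize (rt σ (-s) * V) ^ od K i = P
      simp only [star_sub, star_smul, star_mul', star_pow, star_neg, Complex.star_def, conj_ofReal,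
        conj_I]
      push_cast
      match_scalars
      all_goals first
        | ring1
        | linear_combination (cf i * sin s * cos s ^ (od K i - 1) / 2 : ℂ) * I_mul_I
  have r1 : ∀ a ∈ T.gen {1, V}, T.tau (a * (y - x0 V s K N - x1 (zp V) σ s K N)) = 0 :=
    fun a ha => by
      rw [hZ', mul_sum, map_sum]
      refine sum_eq_zero fun i _ => ?_
      rw [mul_smul_comm, map_smul, mul_sub, map_sub, (h.wx_W (hZ i)).1 a ha,
        (h.wx_W_star (hZ i)).1 a ha, sub_self, smul_zero]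
  have r2 : ∀ w ∈ T.wxY σ V, T.tau (w * (y - x0 V s K N - x1 (zp V) σ s K N)) = 0 :=
    fun w hw => by
      rw [hZ', mul_sum, map_sum]
      refine sum_eq_zero fun i _ => ?_
      rw [mul_smul_comm, map_smul, mul_sub, map_sub, (h.wx_W (hZ i)).2 w hw,
        (h.wx_W_star (hZ i)).2 w hw, sub_self, smul_zero]
  have hx1 : x1 (zp V) σ s K N ∈ T.cls (T.wxY σ V) :=
    (cls_sub _).sum _ fun i _ => (cls_sub _).smul _ ((cls_sub _).sum _ fun j _ =>
      (cls_sub _).add (sub_cls ⟨_, wx_zp _, _, wx_zp _, rfl⟩) (sub_cls ⟨_, wx_zp _, _, wx_zp _, rfl⟩))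
  have hx0 : x0 V s K N ∈ T.gen {1, V} :=
    hA.sum _ fun i _ => hA.smul _ (zp_mem hA.toIsW hA.one (sub_gen (by simp)) _).2.2
  have r3 : ∀ a ∈ T.gen {1, V}, T.tau (a * (y - x0 V s K N)) = 0 := fun a ha => by
    have e : T.tau (a * x1 (zp V) σ s K N) = 0 := ker_sub.map (LinC.id.mulL a) (by
      rintro _ ⟨b, hb, b', hb', rfl⟩
      change T.tau (a * _) = 0
      rw [← mul_assoc, T.tau_comm, ← mul_assoc, ← mul_assoc]
      exact h.wx_core (hA.mul (hA.mul hb' ha) hb) (.one h.wx_cen)) hx1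
    rw [← sub_add_cancel (y - x0 V s K N) (x1 (zp V) σ s K N), mul_add, map_add, r1 a ha, e,
      add_zero]
  have n0 : ‖T.ι (x0 V s K N)‖ ^ 2 = m0 s K N := by
    rw [x0, wx_norm _ _ (fun _ => 2⁻¹) N fun i i' => by
      rw [h.wx_OD_on (hod i), if_congr (hoi i i') rfl rfl], m0]
    refine sum_congr rfl fun i _ => ?_
    rw [_root_.norm_mul, norm_neg, norm_I, one_mul, norm_real, Real.norm_eq_abs, sq_abs, div_eq_mul_inv]
  have n1 : ‖T.ι (x1 (zp V) σ s K N)‖ ^ 2 = m1 s K N := by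
    rw [x1, wx_norm _ _ (fun i => 2 * od K i) N fun i i' => by
      rw [h.wx_sg_on, if_congr (hoi i i') rfl rfl], m1]
    refine sum_congr rfl fun i _ => ?_
    rw [norm_real, Real.norm_eq_abs, sq_abs, mul_comm]
  refine ⟨r3, n0, n1, ?_⟩
  have hH : T.Haar 1 (rt σ (-s) * V) := by
    have := (h.rot (c := 1) norm_one (-s) 0).1.haar
    rwa [one_smul, rt_zero, mul_one] at this
  have n2 := (hH.pow Pr.one hK).eI_l2 h.one N
  have n3 := l2_add_sq (T := T) (x0 V s K N) (y - x0 V s K N)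
  have n4 := l2_add_sq (T := T) (x1 (zp V) σ s K N) (y - x0 V s K N - x1 (zp V) σ s K N)
  have e1 : T.ip (x0 V s K N) (y - x0 V s K N) = 0 := by
    rw [ip, r3 _ (hA.star hx0), zero_re]
  have e2 : T.ip (x1 (zp V) σ s K N) (y - x0 V s K N - x1 (zp V) σ s K N) = 0 := by
    have e : T.tau (star (x1 (zp V) σ s K N) * (y - x0 V s K N - x1 (zp V) σ s K N)) = 0 :=
      ker_sub.map (LinC.id.mulR _) r2 (cls_star (fun w hw => sub_cls (h.wx_Y_star hw)) hx1)
    rw [ip, e, zero_re]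
  rw [add_sub_cancel, e1, n0] at n3
  rw [add_sub_cancel, e2, n1] at n4
  rw [← hy] at n2
  rw [m2]
  linarith

end TW

end Pool.Agent.Lib.MP_263241_an
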