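import Pool.Agent.Lib.MP_263241_an.WM2

/-! The radial algebra is freely complemented, given the transport theorem. -/

namespace Pool.Agent.Lib.MP_263241_an

variable {R R' H H' : Type*} [CStarAlgebra R] [NormedAddCommGroup H] [InnerProductSpace ℂ H]
  [CStarAlgebra R'] [NormedAddCommGroup H'] [InnerProductSpace ℂ H']

namespace TW

variable {T : TW R H} {T' : TW R' H'}

theorem wz_gen {ρ : R → R' → Prop} (h : T.Corr T' ρ) {S : Set R} {S' : Set R'}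
    (hS : ∀ s ∈ S, ∃ b ∈ S', ρ s b) {x : R} {y : R'} (hx : x ∈ T.gen S) (hy : ρ x y) :
    y ∈ T'.gen S' := by
  obtain ⟨b, hb, e⟩ := h.gen (gen_w S') (fun s hs => (hS s hs).imp fun _ k => ⟨sub_gen k.1, k.2⟩) hx
  exact h.uniq e hy ▸ hb

theorem wz_cls {ρ : R → R' → Prop} (h : T.Corr T' ρ) {Γ : Type*} [Group Γ] {e' : R'} {φ : Γ → R}
    {ψ : Γ → R'} (hψ : Hom e' ψ) (hS : ∀ g, ρ (φ g) (ψ g)) {x : R}
    (hx : x ∈ T.cls (Set.range φ)) : ∃ y ∈ T'.cls (Set.range ψ), ρ x y :=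
  h.gen (hom_alg hψ).toIsW (S := Set.range φ)
    (by rintro _ ⟨g, rfl⟩; exact ⟨_, sub_cls ⟨g, rfl⟩, hS g⟩) ((gen_w _).cls_le sub_gen hx)

theorem wz_equiv {ρ : R → R' → Prop} (h : T.Corr T' ρ) (h1 : ∀ x, ∃ y, ρ x y)
    (h2 : ∀ y, ∃ x, ρ x y) : ∃ θ : R ≃⋆ₐ[ℂ] R', ∀ x, ρ x (θ x) := by
  choose f f2 using h1
  choose g g2 using h2
  exact ⟨{ toFun := f
           invFun := g
           left_inv := fun x => h.symm.uniq (g2 _) (f2 _)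
           right_inv := fun y => h.uniq (f2 _) (g2 _)
           map_mul' := fun x y => h.uniq (f2 _) (h.mul (f2 _) (f2 _))
           map_add' := fun x y => h.uniq (f2 _) (h.add (f2 _) (f2 _))
           map_star' := fun x => h.uniq (f2 _) (h.star (f2 _))
           map_smul' := fun c x => h.uniq (f2 _) (h.smul c (f2 _)) }, f2⟩

theorem Gr.fs {c : ℝ} {e x y : R} {e' x' y' : R'} {G : Set (R × R')} (hG : T.Gr T' c (e, e') G)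
    (hx : (x, x') ∈ G) (hy : (y, y') ∈ G) (h : T.FS e x y) : T'.FS e' x' y' := by
  have a : ∀ {x x'}, (x, x') ∈ G → SA e x → SA e' x' := fun {x x'} hx h =>
    ⟨⟨congrArg Prod.snd hG.alg.pr.st, congrArg Prod.snd hG.alg.pr.sq⟩,
      hG.uniq (h.st ▸ hG.alg.star hx : (x, star x') ∈ G) hx, congrArg Prod.snd (hG.alg.l hx)⟩
  have b : ∀ {x x'}, (x, x') ∈ G → ∀ y ∈ T'.gen {e', x'}, ∃ z ∈ T.gen {e, x}, (z, y) ∈ G :=
    fun {x x'} hx y hy => hG.corr.symm.gen (gen_w _) (by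
      rintro _ (rfl | rfl)
      exacts [⟨_, sub_gen (.inl rfl), hG.alg.one⟩, ⟨_, sub_gen (.inr rfl), hx⟩]) hy
  exact ⟨a hx h.sx, a hy h.sy, hG.noEig hG.alg.one hx h.sx h.nx, hG.noEig hG.alg.one hy h.sy h.ny,
    hG.free h.free (b hx) (b hy)⟩

theorem Reg.absorb {φ : F2 → R} (h : T.Reg 1 φ) (h1 : T.tau 1 = 1) :
    ∃ (G : Set (R × R)) (k : R), T.Gr T 1 1 G ∧
    (hh (φ (.of 0)) (φ (.of 1)), hh (φ (.of 0)) (φ (.of 1))) ∈ G ∧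
    (kk (φ (.of 0)) (φ (.of 1)), k) ∈ G ∧
    T.gen {1, hh (φ (.of 0)) (φ (.of 1)), k} = T.cls (Set.range φ) := by
  obtain ⟨R0, H0, _, _, _, T0, ψ, p1, p2⟩ := exists_frame (Fin 3)
  obtain ⟨σ, η, V, e, φ0, m⟩ := p1.exists_mo p2
  obtain ⟨G0, k0, g1, g2, g3, g4⟩ := m.absorb
  have P := gr_reg (c := 2⁻¹) (by norm_num) h m.reg (by
    have := m.perp 1 (sub_gen (.inl rfl))
    rw [mul_one] at this
    simp [m.he, p2, h1, this])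
  have q : ∀ g, (φ g, φ0 g) ∈ (T.prod T0).cls (Set.range fun g => (φ g, φ0 g)) :=
    fun g => sub_cls ⟨g, rfl⟩
  obtain ⟨q1, q2⟩ := P.alg.toIsW.hh_mem (q (.of 0)) (q (.of 1))
  obtain ⟨k, k1, k2⟩ := wz_cls P.corr.symm h.toHom q
    (g4.le (sub_gen (.inr (.inr rfl))))
  have G := (P.comp g1).comp P.symm
  rw [one_mul, inv_mul_cancel₀ (by norm_num)] at G
  have w := hom_alg (T := T) h.toHom
  refine ⟨_, k, G, ⟨_, ⟨_, q1, g2⟩, q1⟩, ⟨_, ⟨_, q2, g3⟩, k2⟩,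
    Set.Subset.antisymm (w.gen_le ?_) ((gen_w _).cls_le ?_)⟩
  · rintro _ (rfl | rfl | rfl)
    exacts [w.one, (w.hh_mem (sub_cls ⟨_, rfl⟩) (sub_cls ⟨_, rfl⟩)).1, k1]
  · rintro _ ⟨g, rfl⟩
    refine wz_gen P.corr.symm ?_ (g4.ge (sub_cls ⟨g, rfl⟩)) (q g)
    rintro _ (rfl | rfl | rfl)
    exacts [⟨_, .inl rfl, P.alg.one⟩, ⟨_, .inr (.inl rfl), q1⟩, ⟨_, .inr (.inr rfl), k2⟩]

theorem Reg.fc {φ : F2 → R} (h : T.Reg 1 φ) (h1 : T.tau 1 = 1)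
    (hC : ∃ S ∈ T.gen {1, hh (φ (.of 0)) (φ (.of 1)), kk (φ (.of 0)) (φ (.of 1))},
      T.FS 1 (hh (φ (.of 0)) (φ (.of 1))) S ∧
      kk (φ (.of 0)) (φ (.of 1)) ∈ T.gen {1, hh (φ (.of 0)) (φ (.of 1)), S}) :
    ∃ ψ : F2 → R, T.Reg 1 ψ ∧ T.cls (Set.range ψ) = T.cls (Set.range φ) ∧
      T.gen {1, ψ (.of 0)} = T.gen {1, hh (φ (.of 0)) (φ (.of 1))} := by
  obtain ⟨S, s1, s2, s3⟩ := hC
  obtain ⟨G, k, g1, g2, g3, g4⟩ := h.absorb h1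
  have w := hom_alg (T := T) h.toHom
  have m : hh (φ (.of 0)) (φ (.of 1)) ∈ T.cls (Set.range φ) := g4 ▸ sub_gen (.inr (.inl rfl))
  obtain ⟨S', a1, a2⟩ := g1.corr.gen w.toIsW (by
    rintro _ (rfl | rfl | rfl)
    exacts [⟨_, w.one, g1.alg.one⟩, ⟨_, m, g2⟩, ⟨_, g4 ▸ sub_gen (.inr (.inr rfl)), g3⟩]) s1
  have f := Gr.fs (e := 1) (e' := 1) g1 g2 a2 s2
  have a3 : k ∈ T.gen {1, hh (φ (.of 0)) (φ (.of 1)), S'} := wz_gen g1.corr (by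
    rintro _ (rfl | rfl | rfl)
    exacts [⟨_, .inl rfl, g1.alg.one⟩, ⟨_, .inr (.inl rfl), g2⟩, ⟨_, .inr (.inr rfl), a2⟩]) s3 g3
  have t : T.tau 1 ≠ 0 := h1 ▸ one_ne_zero
  obtain ⟨u, u1, u2, u3, u4, u5⟩ := haarify f.sx t f.nx
  obtain ⟨v, v1, v2, v3, v4, v5⟩ := haarify f.sy t f.ny
  obtain ⟨ψ, p1, rfl, rfl⟩ := reg_of_free Pr.one ⟨u1, u2, u3, u4⟩ ⟨v1, v2, v3, v4⟩
    (u5 ▸ v5 ▸ f.free)
  have w' := hom_alg (T := T) p1.toHom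
  have b : ∀ i, T.gen {1, ψ (.of i)} ⊆ T.cls (Set.range ψ) := fun i => w'.gen_le (by
    rintro _ (rfl | rfl)
    exacts [w'.one, sub_cls ⟨_, rfl⟩])
  have b' : ∀ x ∈ T.cls (Set.range φ), T.gen {1, x} ⊆ T.cls (Set.range φ) := fun x hx =>
    w.gen_le (by
      rintro _ (rfl | rfl)
      exacts [w.one, hx])
  refine ⟨ψ, p1, Set.Subset.antisymm ?_ ?_, u5⟩
  · rw [cls_eq_gen p1.toHom]
    refine w.gen_le ?_
    rintro _ (rfl | ⟨i, rfl⟩)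
    · exact w.one
    · fin_cases i
      exacts [b' _ m (u5 ▸ sub_gen (.inr rfl)), b' _ a1 (v5 ▸ sub_gen (.inr rfl))]
  · have c1 := b 0 (u5 ▸ sub_gen (.inr rfl) : hh (φ (.of 0)) (φ (.of 1)) ∈ _)
    rw [← g4]
    refine w'.gen_le ?_
    rintro _ (rfl | rfl | rfl)
    exacts [w'.one, c1, w'.gen_le (by
      rintro _ (rfl | rfl | rfl)
      exacts [w'.one, c1, b 1 (v5 ▸ sub_gen (.inr rfl))]) a3]

end TW

theorem final_of {u : F2 → L2 F2 →L[ℂ] L2 F2} (hu : IsL u) {ψ : F2 → MM u} (h : hu.tw.Reg 1 ψ)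
    (hg : hu.tw.cls (Set.range ψ) = hu.tw.cls (Set.range (lam u))) :
    ∃ θ : MM u ≃⋆ₐ[ℂ] MM u, ∀ x, x ∈ hu.tw.gen {1, ψ (.of 0)} ↔
      θ x ∈ hu.tw.gen {1, lam u (.of 0)} := by
  have P := TW.gr_reg one_pos h hu.reg (by simp)
  have q : ∀ g, (ψ g, lam u g) ∈ (hu.tw.prod hu.tw).cls (Set.range fun g => (ψ g, lam u g)) :=
    fun g => TW.sub_cls ⟨g, rfl⟩
  obtain ⟨θ, hθ⟩ := TW.wz_equiv P.corr
    (fun x => (TW.wz_cls P.corr hu.hom q (hg ▸ hu.mem_cls x)).imp fun _ k => k.2)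
    fun y => (TW.wz_cls P.corr.symm h.toHom q (hu.mem_cls y)).imp fun _ k => k.2
  refine ⟨θ, fun x => ⟨fun a => TW.wz_gen P.corr ?_ a (hθ x),
    fun a => TW.wz_gen P.corr.symm ?_ a (hθ x)⟩⟩ <;> rintro _ (rfl | rfl)
  exacts [⟨_, .inl rfl, P.alg.one⟩, ⟨_, .inr rfl, q _⟩, ⟨_, .inl rfl, P.alg.one⟩,
    ⟨_, .inr rfl, q _⟩]

end Pool.Agent.Lib.MP_263241_an
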