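import Pool.Agent.Lib.MP_263241_an.WU

/-! Elements with a formal derivative. -/

namespace Pool.Agent.Lib.MP_263241_an

open Filter Topology TrivSqZeroExt MulOpposite
open scoped InnerProductSpace ComplexConjugate

/-- Bilinear forms on `R`, as an `R`-bimodule. -/
def Bf (R : Type*) [Ring R] [Algebra ℂ R] : Type _ := R →ₗ[ℂ] R →ₗ[ℂ] ℂ

namespace Bf

variable {R : Type*} [Ring R] [Algebra ℂ R]

noncomputable instance : AddCommGroup (Bf R) := inferInstanceAs (AddCommGroup (R →ₗ[ℂ] R →ₗ[ℂ] ℂ))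

noncomputable instance : Module ℂ (Bf R) := inferInstanceAs (Module ℂ (R →ₗ[ℂ] R →ₗ[ℂ] ℂ))

/-- Evaluation. -/
def ev (β : Bf R) : R →ₗ[ℂ] R →ₗ[ℂ] ℂ := β

/-- A bilinear map as an element of the bimodule. -/
def mk (β : R →ₗ[ℂ] R →ₗ[ℂ] ℂ) : Bf R := β

theorem ext {β γ : Bf R} (h : ∀ p q, β.ev p q = γ.ev p q) : β = γ :=
  LinearMap.ext fun p => LinearMap.ext (h p)

@[simp] theorem ev_mk (β : R →ₗ[ℂ] R →ₗ[ℂ] ℂ) : (mk β).ev = β := rfl

@[simp] theorem ev_zero : (0 : Bf R).ev = 0 := rfl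

@[simp] theorem ev_add (β γ : Bf R) : (β + γ).ev = β.ev + γ.ev := rfl

@[simp] theorem ev_neg (β : Bf R) : (-β).ev = -β.ev := rfl

@[simp] theorem ev_sub (β γ : Bf R) : (β - γ).ev = β.ev - γ.ev := rfl

@[simp] theorem ev_smul (c : ℂ) (β : Bf R) : (c • β).ev = c • β.ev := rfl

noncomputable instance : SMul R (Bf R) := ⟨fun x β => mk (β.ev.comp (LinearMap.mulRight ℂ x))⟩

noncomputable instance : SMul Rᵐᵒᵖ (Bf R) :=
  ⟨fun y β => mk (β.ev.compl₂ (LinearMap.mulLeft ℂ y.unop))⟩

@[simp] theorem ev_l (x : R) (β : Bf R) (p q : R) : (x • β).ev p q = β.ev (p * x) q := rfl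

@[simp] theorem ev_r (y : Rᵐᵒᵖ) (β : Bf R) (p q : R) : (y • β).ev p q = β.ev p (y.unop * q) := rfl

noncomputable instance : Module R (Bf R) where
  one_smul β := ext fun p q => by simp
  mul_smul x y β := ext fun p q => by simp [mul_assoc]
  smul_zero x := ext fun p q => by simp
  smul_add x β γ := ext fun p q => by simp
  add_smul x y β := ext fun p q => by simp [mul_add]
  zero_smul β := ext fun p q => by simp

noncomputable instance : Module Rᵐᵒᵖ (Bf R) where
  one_smul β := ext fun p q => by simp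
  mul_smul x y β := ext fun p q => by simp [mul_assoc]
  smul_zero x := ext fun p q => by simp
  smul_add x β γ := ext fun p q => by simp
  add_smul x y β := ext fun p q => by simp [add_mul]
  zero_smul β := ext fun p q => by simp

instance : SMulCommClass R Rᵐᵒᵖ (Bf R) := ⟨fun _ _ _ => rfl⟩

instance : IsScalarTower ℂ R (Bf R) := ⟨fun c x β => ext fun p q => by simp⟩

instance : IsScalarTower ℂ Rᵐᵒᵖ (Bf R) := ⟨fun c x β => ext fun p q => by simp⟩

end Bf

/-- Elements with a formal derivative. -/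
abbrev DA (R : Type*) [Ring R] [Algebra ℂ R] : Type _ := TrivSqZeroExt R (Bf R)

/-- The element `x` with derivative `β`. -/
def dm {R : Type*} [Ring R] [Algebra ℂ R] (x : R) (β : Bf R) : DA R := (x, β)

@[simp] theorem dm_fst {R : Type*} [Ring R] [Algebra ℂ R] (x : R) (β : Bf R) : (dm x β).fst = x :=
  rfl

@[simp] theorem dm_snd {R : Type*} [Ring R] [Algebra ℂ R] (x : R) (β : Bf R) : (dm x β).snd = β :=
  rfl

theorem DA.snd_mul {R : Type*} [Ring R] [Algebra ℂ R] (z w : DA R) (p q : R) :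
    (z * w).snd.ev p q = z.snd.ev p (w.fst * q) + w.snd.ev (p * z.fst) q := by
  rw [TrivSqZeroExt.snd_mul, add_comm]; rfl

theorem DA.ext' {R : Type*} [Ring R] [Algebra ℂ R] {z w : DA R} (h1 : z.fst = w.fst)
    (h2 : ∀ p q, z.snd.ev p q = w.snd.ev p q) : z = w :=
  TrivSqZeroExt.ext h1 (Bf.ext h2)

/-- The weight rule. -/
theorem DA.weight {R : Type*} [Ring R] [Algebra ℂ R] (x p z : DA R) (l r : R) :
    p.snd.ev (l * x.fst) (z.fst * r) = (x * p * z).snd.ev l r -
      x.snd.ev l (p.fst * (z.fst * r)) - z.snd.ev (l * (x.fst * p.fst)) r := by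
  rw [DA.snd_mul, DA.snd_mul, TrivSqZeroExt.fst_mul]; ring

variable {R H : Type*} [CStarAlgebra R] [NormedAddCommGroup H] [InnerProductSpace ℂ H]

namespace TW

variable (T : TW R H)

/-- The form `(p, q) ↦ τ(p l) τ(r q)`. -/
noncomputable def bil (l r : R) : Bf R :=
  .mk (LinearMap.mk₂ ℂ (fun p q => T.tau (p * l) * T.tau (r * q))
    (fun _ _ _ => by simp [add_mul]) (fun _ _ _ => by simp [mul_assoc])
    (fun _ _ _ => by simp [mul_add]) (fun _ _ _ => by simp [mul_left_comm]))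

/-- The letter `x` with derivative `l ⊗ r`. -/
noncomputable def lt (x l r : R) : DA R := dm x (T.bil l r)

variable {T}

@[simp] theorem bil_ev (l r p q : R) : (T.bil l r).ev p q = T.tau (p * l) * T.tau (r * q) := rfl

@[simp] theorem lt_fst (x l r : R) : (T.lt x l r).fst = x := rfl

@[simp] theorem lt_snd (x l r : R) : (T.lt x l r).snd = T.bil l r := rfl

end TW

end Pool.Agent.Lib.MP_263241_an
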