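import Pool.Agent.Lib.MP_263241_an.X0

/-! Tools: closed worlds of derivations, a freeness criterion, the `L¹` norm, positivity. -/

namespace Pool.Agent.Lib.MP_263241_an

open Filter Topology MeasureTheory

variable {R H : Type*} [CStarAlgebra R] [NormedAddCommGroup H] [InnerProductSpace ℂ H]

/-- The form of `z` is bounded. -/
def BdF (z : DA R) : Prop := ∃ C : ℝ, ∀ p q, ‖z.snd.ev p q‖ ≤ C * (‖p‖ * ‖q‖)

/-- A subalgebra that contains the inverses of its invertible elements. -/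
def InvCl (G : Subalgebra ℂ (DA R)) : Prop :=
  ∀ z ∈ G, ∀ z' ∈ G, z'.fst = star z.fst → ∀ v : R, v * z.fst = 1 → z.fst * v = 1 →
    ∃ y ∈ G, y.fst = v ∧ ∀ p q, y.snd.ev p q = -z.snd.ev (p * v) (v * q)

/-- The product of a list of pairs. -/
def pw (L : List (R × R)) : R := (L.map fun z => z.1 * z.2).prod

/-- Self-adjoint with non-negative spectrum. -/
def Nn (x : R) : Prop := star x = x ∧ ∀ t : ℝ, (t : ℂ) ∈ spectrum ℂ x → 0 ≤ t

/-- Self-adjoint with spectrum in `[c, C]`. -/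
def Bd (x : R) (c C : ℝ) : Prop := star x = x ∧ ∀ t : ℝ, (t : ℂ) ∈ spectrum ℂ x → c ≤ t ∧ t ≤ C

@[simp] theorem pw_nil : pw ([] : List (R × R)) = 1 := rfl

@[simp] theorem pw_cons (z : R × R) (L : List (R × R)) : pw (z :: L) = z.1 * z.2 * pw L := rfl

theorem pw_append (L L' : List (R × R)) : pw (L ++ L') = pw L * pw L' := by
  simp only [pw, List.map_append, List.prod_append]

theorem sa_one {x : R} (h : star x = x) : SA 1 x := ⟨Pr.one, h, one_mul x⟩

theorem ph_comp {x : R} (h : star x = x) {f : ℝ → ℝ} (hf : Continuous f) {g : ℝ → ℂ}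
    (hg : Continuous g) : Ph 1 (Ph 1 x fun t => (f t : ℂ)) g = Ph 1 x fun t => g (f t) := by
  simp only [Ph, one_mul]
  have := (sa_one h).normal
  rw [← cfc_comp' (fun z : ℂ => g z.re) (fun z : ℂ => (f z.re : ℂ)) x (by fun_prop) (by fun_prop)]
  simp only [Complex.ofReal_re]

theorem ph_sa {x : R} (h : star x = x) (f : ℝ → ℝ) :
    star (Ph 1 x fun t => (f t : ℂ)) = Ph 1 x fun t => (f t : ℂ) := by
  rw [← (sa_one h).ph_star]
  simp only [Complex.conj_ofReal]

theorem ph_pow {x : R} (h : star x = x) (n : ℕ) : (Ph 1 x fun t => (t : ℂ) ^ n) = x ^ n := by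
  induction n with
  | zero => simpa only [pow_zero, one_smul] using (sa_one h).ph_const 1
  | succ n ih =>
    simp only [pow_succ]
    rw [(sa_one h).ph_mul (by fun_prop) (by fun_prop), ih, (sa_one h).ph_id]

section

attribute [local instance] CStarAlgebra.spectralOrder CStarAlgebra.spectralOrderedRing

theorem xa_nn {x : R} : Nn x ↔ 0 ≤ x := by
  have k : ∀ t : ℝ, (t : ℂ) ∈ spectrum ℂ x ↔ t ∈ spectrum ℝ x := fun t =>
    spectrum.algebraMap_mem_iff (R := ℝ) ℂ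
  refine ⟨fun h => (StarOrderedRing.nonneg_iff_spectrum_nonneg (R := ℝ) x
    (show IsSelfAdjoint x from h.1)).2
    fun t ht => h.2 t ((k t).2 ht), fun h => ⟨(IsSelfAdjoint.of_nonneg h).star_eq, fun t ht => ?_⟩⟩
  exact (StarOrderedRing.nonneg_iff_spectrum_nonneg (R := ℝ) x (.of_nonneg h)).1 h t ((k t).1 ht)

theorem nn_star_mul (z : R) : Nn (star z * z) := xa_nn.2 (star_mul_self_nonneg z)

theorem Nn.add {x y : R} (hx : Nn x) (hy : Nn y) : Nn (x + y) :=
  xa_nn.2 (add_nonneg (xa_nn.1 hx) (xa_nn.1 hy))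

theorem Nn.conj {x : R} (hx : Nn x) (a : R) : Nn (star a * x * a) :=
  xa_nn.2 (star_left_conjugate_nonneg (xa_nn.1 hx) a)

end

theorem Nn.smul {x : R} (hx : Nn x) {c : ℝ} (hc : 0 ≤ c) : Nn ((c : ℂ) • x) := by
  have e : star ((√c : ℂ) • (1 : R)) * x * (√c : ℂ) • (1 : R) = (c : ℂ) • x := by
    simp only [star_smul, star_one, smul_mul_assoc, mul_smul_comm, one_mul, mul_one, smul_smul,
      RCLike.star_def, Complex.conj_ofReal, ← Complex.ofReal_mul, Real.mul_self_sqrt hc]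
  exact e ▸ hx.conj _

theorem Pr.nn {e : R} (he : Pr e) : Nn e := by
  have := nn_star_mul e
  rwa [he.st, he.sq] at this

theorem nn_ph {x : R} (h : star x = x) {f : ℝ → ℝ} (hf : Continuous f)
    (h0 : ∀ t : ℝ, (t : ℂ) ∈ spectrum ℂ x → 0 ≤ f t) : Nn (Ph 1 x fun t => (f t : ℂ)) := by
  refine ⟨ph_sa h f, fun t ht => ?_⟩
  have := (sa_one h).normal
  rw [Ph, one_mul, cfc_map_spectrum _ x (hf := by fun_prop)] at ht
  obtain ⟨z, hz, e⟩ := ht
  rw [← Complex.ofReal_injective e]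
  exact h0 _ (by rwa [← IsSelfAdjoint.mem_spectrum_eq_re h hz])

theorem bd_iff {x : R} {c C : ℝ} :
    Bd x c C ↔ Nn (x - (c : ℂ) • (1 : R)) ∧ Nn ((C : ℂ) • (1 : R) - x) := by
  have k1 : ∀ t : ℝ, ((t - c : ℝ) : ℂ) ∈ spectrum ℂ (x - (c : ℂ) • (1 : R)) ↔
      (t : ℂ) ∈ spectrum ℂ x := fun t => by
    simp only [spectrum.mem_iff, Algebra.algebraMap_eq_smul_one, Complex.ofReal_sub, sub_smul,
      sub_sub_sub_cancel_right]
  have k2 : ∀ t : ℝ, ((C - t : ℝ) : ℂ) ∈ spectrum ℂ ((C : ℂ) • (1 : R) - x) ↔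
      (t : ℂ) ∈ spectrum ℂ x := fun t => by
    simp only [spectrum.mem_iff, Algebra.algebraMap_eq_smul_one, Complex.ofReal_sub, sub_smul,
      sub_sub_sub_cancel_left]
    rw [← neg_sub, IsUnit.neg_iff]
  have s : ∀ a : ℝ, star ((a : ℂ) • (1 : R)) = (a : ℂ) • (1 : R) := fun a => by
    rw [star_smul, star_one, RCLike.star_def, Complex.conj_ofReal]
  refine ⟨fun h => ⟨⟨by rw [star_sub, s, h.1], fun t ht => ?_⟩, by rw [star_sub, s, h.1],
    fun t ht => ?_⟩, fun h => ⟨?_, fun t ht => ⟨sub_nonneg.1 (h.1.2 _ ((k1 t).2 ht)),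
      sub_nonneg.1 (h.2.2 _ ((k2 t).2 ht))⟩⟩⟩
  · have := (h.2 (t + c) ((k1 _).1 (by rwa [add_sub_cancel_right]))).1
    linarith
  · have := (h.2 (C - t) ((k2 _).1 (by rwa [sub_sub_cancel]))).2
    linarith
  · have := h.1.1
    rwa [star_sub, s, sub_left_inj] at this

theorem Bd.norm_le {x : R} {c C K : ℝ} (h : Bd x c C) (hK : 0 ≤ K) (h1 : -K ≤ c) (h2 : C ≤ K) :
    ‖x‖ ≤ K := by
  rw [← (sa_one h.1).ph_id]
  refine (sa_one h.1).ph_norm hK fun t ht => ?_
  rw [Complex.norm_real, Real.norm_eq_abs]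
  exact abs_le.2 ⟨h1.trans (h.2 t ht).1, (h.2 t ht).2.trans h2⟩

theorem bd_of_norm {x : R} (h : star x = x) {K : ℝ} (hK : ‖x‖ ≤ K) : Bd x (-K) K :=
  ⟨h, fun _ ht => abs_le.1 ((SA.spec_le ht).trans hK)⟩

theorem Bd.isUnit {x : R} {c C : ℝ} (h : Bd x c C) (hc : 0 < c) : IsUnit x := by
  by_contra hx
  exact (h.2 0 (by rwa [Complex.ofReal_zero, spectrum.zero_mem_iff])).1.not_gt hc

namespace TW

variable (T : TW R H)

/-- The `L¹` norm. -/
noncomputable def n1 (x : R) : ℝ := ‖T.tau.comp (ContinuousLinearMap.mul ℂ R x)‖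

/-- The deviation of `q x q` from a scalar. -/
noncomputable def dev (q x : R) : R := q * x * q - (T.tau (q * x) / T.tau q) • q

variable {T}

theorem n1_nonneg (x : R) : 0 ≤ T.n1 x := norm_nonneg _

theorem n1_zero : T.n1 0 = 0 := by simp [n1]

theorem tau_le_n1 (x y : R) : ‖T.tau (x * y)‖ ≤ T.n1 x * ‖y‖ :=
  (T.tau.comp (ContinuousLinearMap.mul ℂ R x)).le_opNorm y

theorem n1_le {x : R} {C : ℝ} (hC : 0 ≤ C) (h : ∀ y, ‖T.tau (x * y)‖ ≤ C * ‖y‖) : T.n1 x ≤ C :=
  ContinuousLinearMap.opNorm_le_bound _ hC h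

theorem n1_add (x y : R) : T.n1 (x + y) ≤ T.n1 x + T.n1 y := by
  simp only [n1, map_add, ContinuousLinearMap.comp_add]
  exact norm_add_le _ _

theorem n1_neg (x : R) : T.n1 (-x) = T.n1 x := by
  simp only [n1, map_neg, ContinuousLinearMap.comp_neg, norm_neg]

theorem n1_sub (x y : R) : T.n1 (x - y) ≤ T.n1 x + T.n1 y := by
  rw [sub_eq_add_neg, ← n1_neg y]
  exact n1_add _ _

theorem n1_smul (c : ℂ) (x : R) : T.n1 (c • x) = ‖c‖ * T.n1 x := by
  simp only [n1, map_smul, ContinuousLinearMap.comp_smul, norm_smul]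

theorem n1_star (x : R) : T.n1 (star x) = T.n1 x := by
  have k : ∀ x : R, T.n1 (star x) ≤ T.n1 x := fun x => n1_le (n1_nonneg x) fun y => by
    rw [← star_star y, ← star_mul, T.tau_star, RCLike.norm_conj, T.tau_comm, _root_.norm_star]
    exact tau_le_n1 _ _
  exact (k x).antisymm ((congrArg T.n1 (star_star x)).symm.le.trans (k _))

theorem n1_mul_l (a x : R) : T.n1 (a * x) ≤ ‖a‖ * T.n1 x := by
  refine n1_le (mul_nonneg (norm_nonneg _) (n1_nonneg _)) fun y => ?_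
  rw [mul_assoc, T.tau_comm, mul_assoc]
  calc _ ≤ T.n1 x * (‖y‖ * ‖a‖) := (tau_le_n1 _ _).trans
        (mul_le_mul_of_nonneg_left (norm_mul_le _ _) (n1_nonneg _))
    _ = _ := by ring

theorem n1_mul_r (x a : R) : T.n1 (x * a) ≤ T.n1 x * ‖a‖ := by
  refine n1_le (mul_nonneg (n1_nonneg _) (norm_nonneg _)) fun y => ?_
  rw [mul_assoc, mul_assoc]
  exact (tau_le_n1 _ _).trans (mul_le_mul_of_nonneg_left (norm_mul_le _ _) (n1_nonneg _))

theorem n1_mul (x y : R) : T.n1 (x * y) ≤ ‖T.ι x‖ * ‖T.ι y‖ := by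
  refine n1_le (by positivity) fun z => ?_
  rw [mul_assoc, ← star_star x, ← T.inner_tau, star_star, ← T.norm_star x, mul_assoc, mul_comm _ ‖z‖]
  exact (norm_inner_le_norm _ _).trans
    (mul_le_mul_of_nonneg_left (T.norm_mul' _ _) (norm_nonneg _))

theorem l2_sq_le_n1 (x : R) : ‖T.ι x‖ ^ 2 ≤ T.n1 x * ‖x‖ := by
  have := tau_le_n1 (T := T) x (star x)
  rwa [T.tau_comm, T.tau_sq, _root_.norm_star, Complex.norm_real, Real.norm_of_nonneg (sq_nonneg _)]
    at this

theorem n1_pr {q : R} (hq : Pr q) : T.n1 q ≤ (T.tau q).re := by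
  have := n1_mul (T := T) q q
  rwa [hq.sq, ← sq, ← Complex.ofReal_re (_ ^ 2), ← T.tau_pr hq] at this

theorem l2_pr {q : R} (hq : Pr q) : ‖T.ι q‖ = √(T.tau q).re := by
  rw [T.tau_pr hq, Complex.ofReal_re, Real.sqrt_sq (norm_nonneg _)]

theorem tau_pr_re {q : R} (hq : Pr q) : T.tau q = ((T.tau q).re : ℝ) ∧ 0 ≤ (T.tau q).re := by
  rw [T.tau_pr hq, Complex.ofReal_re]
  exact ⟨rfl, sq_nonneg _⟩

theorem xa_sq {x : R} (hx : Nn x) : ∃ a, star a = a ∧ x = a * a := by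
  refine ⟨_, ph_sa hx.1 fun t => √t, ?_⟩
  rw [← (sa_one hx.1).ph_mul (by fun_prop) (by fun_prop)]
  refine (sa_one hx.1).ph_id.symm.trans ((sa_one hx.1).ph_congr fun t ht => ?_)
  rw [← Complex.ofReal_mul, Real.mul_self_sqrt (hx.2 t ht)]

theorem nn_tau {x y : R} (hx : Nn x) (hy : Nn y) :
    T.tau (x * y) = ((T.tau (x * y)).re : ℝ) ∧ 0 ≤ (T.tau (x * y)).re := by
  obtain ⟨a, ha, rfl⟩ := xa_sq hx
  obtain ⟨b, hb, rfl⟩ := xa_sq hy
  have e : T.tau (a * a * (b * b)) = T.tau (star (b * a) * (b * a)) := by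
    rw [star_mul, ha, hb, mul_assoc, T.tau_comm]
    simp only [mul_assoc]
  rw [e, T.tau_sq, Complex.ofReal_re]
  exact ⟨rfl, sq_nonneg _⟩

theorem dev_add (q x y : R) : T.dev q (x + y) = T.dev q x + T.dev q y := by
  simp only [dev, mul_add, add_mul, map_add, add_div, add_smul]
  abel

theorem dev_sub (q x y : R) : T.dev q (x - y) = T.dev q x - T.dev q y := by
  simp only [dev, mul_sub, sub_mul, map_sub, sub_div, sub_smul]
  abel

theorem dev_smul (q : R) (c : ℂ) (x : R) : T.dev q (c • x) = c • T.dev q x := by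
  simp only [dev, mul_smul_comm, smul_mul_assoc, map_smul, smul_sub, smul_smul, smul_eq_mul,
    mul_div_assoc]

theorem dev_one {q : R} (hq : Pr q) : T.dev q 1 = 0 := by
  by_cases h : T.tau q = 0
  · simp [dev, T.pr_eq_zero hq h]
  · rw [dev, mul_one, hq.sq, div_self h, one_smul, sub_self]

theorem dev_le {q : R} (hq : Pr q) (x : R) : ‖T.ι (T.dev q x)‖ ≤ ‖T.ι (q * x * q)‖ := by
  by_cases h : T.tau q = 0
  · simp [dev, T.pr_eq_zero hq h]
  have e : T.ι (q * x * q) = (T.tau (q * x) / T.tau q) • T.ι q + T.ι (T.dev q x) := by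
    rw [dev, map_sub, map_smul, add_sub_cancel]
  have o : inner ℂ (T.ι q) (T.ι (T.dev q x)) = 0 := by
    rw [T.inner_tau, hq.st, dev, mul_sub, map_sub, mul_smul_comm, map_smul, hq.sq, mul_assoc, hq.l,
      ← mul_assoc, T.tau_comm, hq.l, smul_eq_mul, div_mul_cancel₀ _ h, sub_self]
  refine abs_le_of_sq_le_sq' ?_ (norm_nonneg _) |>.2
  rw [e, sq, sq, norm_add_sq_eq_norm_sq_add_norm_sq_of_inner_eq_zero (𝕜 := ℂ) _ _
    (by rw [inner_smul_left, o, mul_zero])]
  exact le_add_of_nonneg_left (mul_self_nonneg _)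

theorem dev_le' {q : R} (hq : Pr q) (x : R) : ‖T.ι (T.dev q x)‖ ≤ ‖T.ι (q * x)‖ :=
  (dev_le hq x).trans ((T.norm_mul' _ _).trans (mul_le_of_le_one_left (norm_nonneg _) hq.norm_le))

theorem dev_conj {U : R} (h1 : star U * U = 1) (h2 : U * star U = 1) (q x : R) :
    T.dev (star U * q * U) x = star U * T.dev q (U * x * star U) * U := by
  have e1 : T.tau (star U * q * U) = T.tau q := by
    rw [T.tau_comm, ← mul_assoc, h2, one_mul]
  have e2 : T.tau (star U * q * U * x) = T.tau (q * (U * x * star U)) := by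
    rw [mul_assoc, mul_assoc, T.tau_comm]
    simp only [mul_assoc]
  simp only [dev, e1, e2, mul_sub, sub_mul, mul_smul_comm, smul_mul_assoc]
  simp only [mul_assoc]

theorem l2_unit {U : R} (h1 : star U * U = 1) (x : R) : ‖T.ι (U * x)‖ = ‖T.ι x‖ := by
  have := T.tau_sq (U * x)
  rw [star_mul, mul_assoc, ← mul_assoc (star U), h1, one_mul, T.tau_sq] at this
  exact (pow_left_inj₀ (norm_nonneg _) (norm_nonneg _) two_ne_zero).1
    (Complex.ofReal_injective this).symm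

theorem l2_unit' {U : R} (h2 : U * star U = 1) (x : R) : ‖T.ι (x * U)‖ = ‖T.ι x‖ := by
  rw [← T.norm_star, star_mul, l2_unit (by rwa [star_star]), T.norm_star]

/-- Orthogonal projections: Bessel's inequality. -/
theorem pyth_flag {f : ℕ → R} (hf : ∀ j, Pr (f j)) (hm : ∀ j, f (j + 1) * f j = f j) (N : ℕ) (x : R) :
    ∑ j ∈ Finset.range N, ‖T.ι ((f (j + 1) - f j) * x)‖ ^ 2 = ‖T.ι ((f N - f 0) * x)‖ ^ 2 := by
  have k : ∀ n, f n * f 0 = f 0 := fun n => by
    induction n with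
    | zero => exact (hf 0).sq
    | succ n ih => rw [← ih, ← mul_assoc, hm]
  induction N with
  | zero => simp
  | succ N ih =>
    have o : inner ℂ (T.ι ((f (N + 1) - f N) * x)) (T.ι ((f N - f 0) * x)) = 0 := by
      rw [T.inner_tau, star_mul, star_sub, (hf _).st, (hf _).st, mul_assoc,
        ← mul_assoc (f (N + 1) - f N), sub_mul, mul_sub, mul_sub, hm, k, k, (hf N).sq, sub_self,
        zero_mul, mul_zero, map_zero]
    rw [Finset.sum_range_succ, ih, add_comm, ← sub_add_sub_cancel (f (N + 1)) (f N) (f 0), add_mul,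
      map_add, sq, sq, sq, norm_add_sq_eq_norm_sq_add_norm_sq_of_inner_eq_zero (𝕜 := ℂ) _ _ o]

end TW

/-- The discrete Gronwall inequality. -/
theorem gronwall {x d b : ℕ → ℝ} {K : ℝ} {N : ℕ} (hK : 0 ≤ K) (hx : 0 ≤ x 0) (hd : ∀ i, 0 ≤ d i)
    (hb : ∀ i, 0 ≤ b i) (hs : ∑ i ∈ Finset.range N, d i ≤ 1)
    (h : ∀ i < N, x (i + 1) ≤ (1 + K * d i) * x i + b i) :
    x N ≤ Real.exp K * (x 0 + ∑ i ∈ Finset.range N, b i) := by
  have p : ∀ n, 0 ≤ x 0 + ∑ i ∈ Finset.range n, b i := fun n =>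
    add_nonneg hx (Finset.sum_nonneg fun i _ => hb i)
  have k : ∀ n ≤ N, x n ≤ Real.exp (K * ∑ i ∈ Finset.range n, d i) *
      (x 0 + ∑ i ∈ Finset.range n, b i) := fun n hn => by
    induction n with
    | zero => simp
    | succ n ih =>
      have a0 := mul_nonneg hK (hd n)
      have a1 : 1 + K * d n ≤ Real.exp (K * d n) := by linarith [Real.add_one_le_exp (K * d n)]
      have a2 : 1 ≤ Real.exp (K * ∑ i ∈ Finset.range (n + 1), d i) :=
        Real.one_le_exp (mul_nonneg hK (Finset.sum_nonneg fun i _ => hd i))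
      have a3 := (mul_le_mul_of_nonneg_left (ih (by omega)) (by linarith : 0 ≤ 1 + K * d n)).trans
        (mul_le_mul_of_nonneg_right a1 (mul_nonneg (Real.exp_pos _).le (p n)))
      rw [← mul_assoc, ← Real.exp_add, ← mul_add, add_comm (d n), ← Finset.sum_range_succ] at a3
      have a4 := le_mul_of_one_le_left (hb n) a2
      rw [Finset.sum_range_succ b, ← add_assoc, mul_add]
      linarith [h n hn]
  exact (k N le_rfl).trans (mul_le_mul_of_nonneg_right
    (Real.exp_le_exp.2 (mul_le_of_le_one_right hK hs)) (p N))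

theorem sum_blocks {M : Type*} [AddCommMonoid M] (J m : ℕ) (F : ℕ → M) :
    ∑ i ∈ Finset.range (J * m), F i = ∑ c ∈ Finset.range J, ∑ r ∈ Finset.range m, F (c * m + r) := by
  induction J with
  | zero => simp
  | succ J ih => rw [add_one_mul, Finset.sum_range_add, ih, Finset.sum_range_succ]

end Pool.Agent.Lib.MP_263241_an
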