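import Pool.Agent.Lib.MP_263241_an.XG

/-! Spectral tools: Lipschitz functions in `L²`, vector measures, spectral flags. -/

namespace Pool.Agent.Lib.MP_263241_an

open Filter Topology MeasureTheory
open scoped ComplexConjugate CompactlySupported unitInterval

variable {R H : Type*} [CStarAlgebra R] [NormedAddCommGroup H] [InnerProductSpace ℂ H]

/-- The rescaled Bernstein basis. -/
noncomputable def xb_b (K : ℝ) (n k : ℕ) (t : ℝ) : ℝ :=
  bernstein n k (Set.projIcc 0 1 zero_le_one ((t + K) / (2 * K)))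

/-- The rescaled nodes. -/
noncomputable def xb_t (K : ℝ) {n : ℕ} (k : Fin (n + 1)) : ℝ := 2 * K * bernstein.z k - K

theorem xb_b_cont (K : ℝ) (n k : ℕ) : Continuous fun t => (xb_b K n k t : ℂ) :=
  Complex.continuous_ofReal.comp ((bernstein n k).continuous.comp
    (continuous_projIcc.comp (by fun_prop)))

theorem xb_ph_sum {ι : Type*} (x : R) (s : Finset ι) (c : ι → ℂ) {f : ι → ℝ → ℂ}
    (hf : ∀ i, Continuous (f i)) :
    Ph 1 x (fun t => ∑ i ∈ s, c i * f i t) = ∑ i ∈ s, c i • Ph 1 x (f i) := by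
  classical
  induction s using Finset.induction_on with
  | empty => simp [Ph]
  | insert a s ha ih =>
    simp only [Finset.sum_insert ha]
    rw [SA.ph_add (by have := hf a; fun_prop) (by fun_prop), ih, SA.ph_smul _ (hf a)]

theorem xb_one {x : R} (hx : star x = x) (K : ℝ) (n : ℕ) :
    ∑ k : Fin (n + 1), (Ph 1 x fun t => (xb_b K n k t : ℂ)) = 1 := by
  have h := xb_ph_sum x Finset.univ (fun _ : Fin (n + 1) => 1) fun k => xb_b_cont K n k
  simp only [one_mul, one_smul] at h
  rw [← h]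
  refine Eq.trans ((sa_one hx).ph_congr fun t _ => ?_) (((sa_one hx).ph_const 1).trans (one_smul _ _))
  exact_mod_cast bernstein.probability n _

theorem xb_conv {x : R} (hx : star x = x) {K : ℝ} (hK : 0 < K) (hxK : ‖x‖ ≤ K) {g : ℝ → ℝ}
    (hg : Continuous g) :
    Tendsto (fun n => ∑ k : Fin (n + 1), (g (xb_t K k) : ℂ) • Ph 1 x fun t => (xb_b K n k t : ℂ))
      atTop (𝓝 (Ph 1 x fun t => (g t : ℂ))) := by
  let G : C(I, ℝ) := ⟨fun s => g (2 * K * s - K), by fun_prop⟩
  have h := tendsto_iff_norm_sub_tendsto_zero.1 (bernsteinApproximation_uniform G)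
  refine tendsto_iff_norm_sub_tendsto_zero.2 (squeeze_zero (fun _ => norm_nonneg _) (fun n => ?_) h)
  rw [← xb_ph_sum x _ _ fun k : Fin (n + 1) => xb_b_cont K n k, ← SA.ph_sub
    (continuous_finsetSum _ fun (k : Fin (n + 1)) _ => continuous_const.fun_mul (xb_b_cont K n k))
    (by fun_prop)]
  refine (sa_one hx).ph_norm (norm_nonneg _) fun t ht => ?_
  have h1 := abs_le.1 ((SA.spec_le ht).trans hxK)
  have h2 : (t + K) / (2 * K) ∈ Set.Icc (0 : ℝ) 1 :=
    ⟨div_nonneg (by linarith) (by linarith), (div_le_one (by linarith)).2 (by linarith)⟩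
  have h3 := (bernsteinApproximation n G - G).norm_coe_le_norm
    (Set.projIcc 0 1 zero_le_one ((t + K) / (2 * K)))
  have h4 : G (Set.projIcc 0 1 zero_le_one ((t + K) / (2 * K))) = g t := by
    rw [Set.projIcc_of_mem _ h2]
    change g (2 * K * ((t + K) / (2 * K)) - K) = g t
    congr 1
    field_simp
    ring
  rw [ContinuousMap.sub_apply, h4, bernsteinApproximation.apply] at h3
  refine le_of_eq_of_le ?_ h3
  rw [← Complex.norm_real]
  congr 1
  push_cast
  congr 1
  refine Finset.sum_congr rfl fun k _ => ?_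
  rw [mul_comm, smul_eq_mul, Complex.ofReal_mul]
  rfl

namespace TW

variable {T : TW R H}

theorem xb_quad {ι : Type*} [Fintype ι] (e : R) {a b : ι → R} (ha : ∑ k, a k = 1)
    (hb : ∑ k, b k = 1) (c : ι → ℂ) :
    ∑ k, ∑ l, (c k - c l) ^ 2 * T.tau (e * a k * b l) =
      T.tau (e * ∑ k, c k ^ 2 • a k) + T.tau (e * ∑ k, c k ^ 2 • b k) -
        2 * T.tau (e * (∑ k, c k • a k) * ∑ k, c k • b k) := by
  have h1 : e * ∑ k, c k ^ 2 • a k = (e * ∑ k, c k ^ 2 • a k) * ∑ k, b k := by rw [hb, mul_one]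
  have h2 : e * ∑ k, c k ^ 2 • b k = (e * ∑ k, a k) * ∑ k, c k ^ 2 • b k := by rw [ha, mul_one]
  rw [h1, h2]
  simp only [Finset.mul_sum _ _ e, Finset.sum_mul_sum, map_sum, mul_smul_comm, smul_mul_assoc,
    map_smul, smul_eq_mul, Finset.mul_sum _ _ (2 : ℂ), ← Finset.sum_add_distrib,
    ← Finset.sum_sub_distrib]
  exact Finset.sum_congr rfl fun k _ => Finset.sum_congr rfl fun l _ => by ring

theorem xb_lim {e x y : R} (he : Pr e) (hx : star x = x) (hy : star y = y) (ex : e * x = x * e)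
    {K : ℝ} (hK : 0 < K) (hxK : ‖x‖ ≤ K) (hyK : ‖y‖ ≤ K) {g : ℝ → ℝ} (hg : Continuous g) :
    Tendsto (fun n => ∑ k : Fin (n + 1), ∑ l : Fin (n + 1), (g (xb_t K k) - g (xb_t K l)) ^ 2 *
      (T.tau (e * (Ph 1 x fun t => (xb_b K n k t : ℂ)) * Ph 1 y fun t => (xb_b K n l t : ℂ))).re)
      atTop (𝓝 (‖T.ι (e * ((Ph 1 x fun t => (g t : ℂ)) - Ph 1 y fun t => (g t : ℂ)))‖ ^ 2)) := by
  have c1 : Continuous fun t => (g t : ℂ) := by fun_prop
  have sq : ∀ {z : R}, star z = z → (Ph 1 z fun t => ((g t ^ 2 : ℝ) : ℂ)) =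
      (Ph 1 z fun t => (g t : ℂ)) * Ph 1 z fun t => (g t : ℂ) := fun hz => by
    rw [← (sa_one hz).ph_mul c1 c1]
    simp only [sq, Complex.ofReal_mul]
  have t1 := xb_conv hx hK hxK (hg.fun_pow 2)
  have t2 := xb_conv hy hK hyK (hg.fun_pow 2)
  rw [sq hx] at t1
  rw [sq hy] at t2
  have sx := ph_sa hx g
  have sy := ph_sa hy g
  have cx := (sa_one hx).ph_comm ex (by rw [mul_one, one_mul]) fun t => (g t : ℂ)
  have t3 := xb_conv hx hK hxK hg
  have t4 := xb_conv hy hK hyK hg
  set X := Ph 1 x fun t => (g t : ℂ)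
  set Y := Ph 1 y fun t => (g t : ℂ)
  have ct := T.tau.continuous
  have t5 := (((ct.tendsto _).comp (t1.const_mul e)).add ((ct.tendsto _).comp (t2.const_mul e))).sub
    (((ct.tendsto _).comp ((t3.const_mul e).mul t4)).const_mul 2)
  have e1 : T.tau (e * (X * X)) + T.tau (e * (Y * Y)) - 2 * T.tau (e * X * Y) =
      ((‖T.ι (e * (X - Y))‖ ^ 2 : ℝ) : ℂ) := by
    rw [← T.tau_sq, star_mul, he.st, star_sub, sx, sy, mul_assoc (X - Y), he.l, T.tau_comm (X - Y),
      mul_assoc e (X - Y), sub_mul, mul_sub, mul_sub, mul_sub, mul_sub, mul_sub, map_sub, map_sub,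
      map_sub, ← mul_assoc e Y X, T.tau_comm (e * Y) X, ← mul_assoc X e Y, ← cx, mul_assoc e X Y]
    ring
  rw [e1] at t5
  refine ((Complex.continuous_re.tendsto _).comp t5).congr fun n => ?_
  have := xb_quad (T := T) e (xb_one hx K n) (xb_one hy K n) fun k => (g (xb_t K k) : ℂ)
  simp only [Function.comp_apply, Complex.ofReal_pow]
  rw [← this, Complex.re_sum]
  refine Finset.sum_congr rfl fun k _ => ?_
  rw [Complex.re_sum]
  refine Finset.sum_congr rfl fun l _ => ?_
  rw [← Complex.ofReal_sub, ← Complex.ofReal_pow, Complex.re_ofReal_mul]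

/-- Lipschitz functions are Lipschitz for the `L²` norm. -/
theorem lip {e x y : R} (he : Pr e) (hx : star x = x) (hy : star y = y) (ex : e * x = x * e)
    (ey : e * y = y * e) {g : ℝ → ℝ} {L : ℝ} (hL : 0 ≤ L) (hg : ∀ s t, |g s - g t| ≤ L * |s - t|) :
    ‖T.ι (e * ((Ph 1 x fun t => (g t : ℂ)) - Ph 1 y fun t => (g t : ℂ)))‖ ≤
      L * ‖T.ι (e * (x - y))‖ := by
  have _ := ey
  have cg : Continuous g := (LipschitzWith.of_dist_le_mul (K := ⟨L, hL⟩) hg).continuous
  have hK : 0 < ‖x‖ + ‖y‖ + 1 := by positivity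
  have hxK : ‖x‖ ≤ ‖x‖ + ‖y‖ + 1 := by linarith [norm_nonneg y]
  have hyK : ‖y‖ ≤ ‖x‖ + ‖y‖ + 1 := by linarith [norm_nonneg x]
  have t1 := xb_lim (T := T) he hx hy ex hK hxK hyK cg
  have t2 := (xb_lim (T := T) he hx hy ex hK hxK hyK continuous_id').const_mul (L ^ 2)
  rw [(sa_one hx).ph_id, (sa_one hy).ph_id, ← mul_pow] at t2
  refine (sq_le_sq₀ (norm_nonneg _) (by positivity)).1
    (le_of_tendsto_of_tendsto' t1 t2 fun n => ?_)
  simp only [Finset.mul_sum]
  refine Finset.sum_le_sum fun k _ => Finset.sum_le_sum fun l _ => ?_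
  rw [← mul_assoc]
  refine mul_le_mul_of_nonneg_right ?_ ?_
  · rw [← mul_pow, ← sq_abs, ← sq_abs (L * _), abs_mul, abs_of_nonneg hL]
    exact pow_le_pow_left₀ (abs_nonneg _) (hg _ _) 2
  · have cb : ∀ k, Continuous (xb_b (‖x‖ + ‖y‖ + 1) n k) := fun k =>
      Complex.continuous_re.comp (xb_b_cont _ n k)
    have n1 := (nn_ph hx (cb k) fun _ _ => bernstein_nonneg).conj e
    rw [he.st, mul_assoc, ← (sa_one hx).ph_comm ex (by rw [mul_one, one_mul]), he.l] at n1
    exact (nn_tau n1 (nn_ph hy (cb l) fun _ _ => bernstein_nonneg)).2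

/-- The spectral measure of `x` in the state given by a projection. -/
theorem exists_vm {x q : R} (hx : star x = x) (hq : Pr q) :
    ∃ ν : Measure ℝ, IsFiniteMeasure ν ∧ (∀ᵐ t ∂ν, ((t : ℝ) : ℂ) ∈ spectrum ℂ x) ∧
      ∀ g : ℝ → ℂ, Continuous g → T.tau (q * Ph 1 x g) = ∫ t, g t ∂ν := by
  have hN := (sa_one hx).normal
  let φ := cfcHom (R := ℂ) hN
  let c : C_c(spectrum ℂ x, ℝ) → C(spectrum ℂ x, ℂ) := fun g => ⟨fun x => (g x : ℂ), by fun_prop⟩
  let L : C_c(spectrum ℂ x, ℝ) →ₗ[ℝ] ℝ :=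
    { toFun := fun g => (T.tau (q * φ (c g))).re
      map_add' := fun g h => by
        have : c (g + h) = c g + c h := by ext x; simp [c]
        simp [this, mul_add]
      map_smul' := fun t g => by
        have : c (t • g) = (t : ℂ) • c g := by ext x; simp [c]
        simp [this] }
  let Λ := PositiveLinearMap.mk₀ L fun g hg => by
    let s : C(spectrum ℂ x, ℂ) := ⟨fun x => (√(g x) : ℝ), by fun_prop⟩
    have : c g = star s * s := by
      ext x
      simp [c, s, ← Complex.ofReal_mul, Real.mul_self_sqrt (hg x)]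
    change 0 ≤ (T.tau (q * φ (c g))).re
    have e2 : T.tau (q * φ (c g)) = T.tau (star (φ s * q) * (φ s * q)) := by
      rw [this, map_mul φ, map_star, star_mul, hq.st, ← mul_assoc (q * _), T.tau_comm _ q,
        mul_assoc q, hq.l]
    rw [e2, T.tau_sq, Complex.ofReal_re]
    positivity
  have e1 : ∀ g, T.tau (q * φ (c g)) = ((∫ x, g x ∂(RealRMK.rieszMeasure Λ) : ℝ) : ℂ) := fun g => by
    have h1 : star (c g) = c g := by ext x; simp [c]
    have h2 : conj (T.tau (q * φ (c g))) = T.tau (q * φ (c g)) := by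
      rw [← T.tau_star, star_mul, ← map_star, h1, hq.st, T.tau_comm]
    rw [RealRMK.integral_rieszMeasure]
    exact (Complex.conj_eq_iff_re.1 h2).symm
  have m : Measurable fun z : spectrum ℂ x => (z : ℂ).re := by fun_prop
  refine ⟨(RealRMK.rieszMeasure Λ).map fun z : spectrum ℂ x => (z : ℂ).re, inferInstance, ?_,
    fun f hf => ?_⟩
  · refine (ae_map_iff m.aemeasurable ?_).2 (.of_forall fun z => ?_)
    · exact ((spectrum.isClosed x).preimage Complex.continuous_ofReal).measurableSet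
    · rw [← IsSelfAdjoint.mem_spectrum_eq_re hx z.2]; exact z.2
  let a : C_c(spectrum ℂ x, ℝ) := ⟨⟨fun z => (f (z : ℂ).re).re, by fun_prop⟩, .of_compactSpace _⟩
  let b : C_c(spectrum ℂ x, ℝ) := ⟨⟨fun z => (f (z : ℂ).re).im, by fun_prop⟩, .of_compactSpace _⟩
  have h1 : cfc (fun z : ℂ => f z.re) x = φ (c a + Complex.I • c b) := by
    rw [cfc_apply _ x hN (by fun_prop)]
    congr 1
    ext x
    simp [c, a, b, mul_comm Complex.I]
  have i : Integrable (fun z : spectrum ℂ x => f (z : ℂ).re) (RealRMK.rieszMeasure Λ) :=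
    (by fun_prop : Continuous _).integrable_of_hasCompactSupport (.of_compactSpace _)
  rw [integral_map m.aemeasurable hf.aestronglyMeasurable, Ph, one_mul, h1, map_add, map_smul,
    mul_add, mul_smul_comm, map_add, map_smul, e1, e1, ← integral_re_add_im i, smul_eq_mul,
    mul_comm]
  rfl

theorem xb_ramp_le (s : ℝ) : ‖((min 1 (max 0 s) : ℝ) : ℂ)‖ ≤ 1 := by
  rw [Complex.norm_real, Real.norm_of_nonneg (le_min zero_le_one (le_max_left _ _))]
  exact min_le_left _ _

theorem xb_ramp (l t : ℝ) :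
    Tendsto (fun n : ℕ => ((min 1 (max 0 (1 + n * (t - l))) : ℝ) : ℂ)) atTop
      (𝓝 (if l ≤ t then 1 else 0)) := by
  split_ifs with h
  · refine tendsto_const_nhds.congr fun n => ?_
    rw [min_eq_left (le_max_of_le_right (le_add_of_nonneg_right
      (mul_nonneg n.cast_nonneg (sub_nonneg.2 h)))), Complex.ofReal_one]
  · have h1 : Tendsto (fun n : ℕ => 1 + (n : ℝ) * (t - l)) atTop atBot :=
      tendsto_atBot_add_const_left _ _
        (tendsto_natCast_atTop_atTop.atTop_mul_const_of_neg (by linarith [not_le.1 h]))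
    refine tendsto_const_nhds.congr' ?_
    filter_upwards [h1.eventually_le_atBot 0] with n hn
    rw [max_eq_left hn, min_eq_right zero_le_one, Complex.ofReal_zero]

/-- The spectral projections of half-lines. -/
theorem SM.flag {x : R} {μ : Measure ℝ} (h : T.SM 1 x μ) :
    ∃ P : ℝ → R, (∀ l, Pr (P l) ∧ P l ∈ T.gen {1, x}) ∧ (∀ l l', l ≤ l' → P l * P l' = P l') ∧
      ∀ l, ∀ g : ℝ → ℂ, Continuous g → T.tau (P l * Ph 1 x g) = ∫ t in Set.Ici l, g t ∂μ := by
  have := h.fin
  have sa := h.sa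
  have W := gen_w (T := T) {1, x}
  let f : ℝ → ℕ → ℝ → ℂ := fun l n t => ((min 1 (max 0 (1 + n * (t - l))) : ℝ) : ℂ)
  have hf : ∀ l n, Continuous (f l n) := fun l n => by fun_prop
  have nb : ∀ l n, ‖Ph 1 x (f l n)‖ ≤ 1 := fun l n =>
    sa.ph_norm zero_le_one fun t _ => xb_ramp_le _
  have ex : ∀ l, ∃ q, T.Lim (fun n => Ph 1 x (f l n)) q := fun l => T.compl _ 1 (nb l)
    (h.cauchy (hf l) (fun n t _ => xb_ramp_le _) (.of_forall fun t => xb_ramp l t))
  choose q hq using ex
  have q1 : ∀ l l', l ≤ l' → q l * q l' = q l' := fun l l' hl => by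
    have h1 := h.approx (f := fun n t => f l n t * f l' n t - f l' n t) (g := fun _ => 0)
      (fun n => ((hf l n).mul (hf l' n)).sub (hf l' n)) continuous_const (C := 2) (fun n t _ => by
        refine (norm_sub_le _ _).trans ?_
        rw [_root_.norm_mul]
        linarith [mul_le_one₀ (xb_ramp_le (1 + n * (t - l))) (norm_nonneg (f l' n t))
          (xb_ramp_le _), xb_ramp_le (1 + n * (t - l'))]) (.of_forall fun t => by
        have := ((xb_ramp l t).mul (xb_ramp l' t)).sub (xb_ramp l' t)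
        convert this using 2
        by_cases h1 : l' ≤ t
        · rw [if_pos h1, if_pos (hl.trans h1), mul_one, sub_self]
        · rw [if_neg h1, mul_zero, sub_self])
    rw [sa.ph_const, zero_smul] at h1
    refine sub_eq_zero.1 ((((hq l).mul (hq l') (nb l)).sub (hq l')).unique ?_)
    convert h1 using 2 with n
    rw [SA.ph_sub (by fun_prop) (hf l' n), sa.ph_mul (hf l n) (hf l' n)]
  refine ⟨q, fun l => ⟨⟨(hq l).star.unique (by
    convert hq l using 2 with n
    rw [← sa.ph_star]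
    exact sa.ph_congr fun t _ => Complex.conj_ofReal _), q1 l l le_rfl⟩,
    W.lim _ (fun n => W.ph_mem sa (sub_gen (.inl rfl)) (sub_gen (.inr rfl)) _) (hq l)⟩, q1,
    fun l g hg => ?_⟩
  obtain ⟨C, hC⟩ := (isCompact_Icc (a := -‖x‖) (b := ‖x‖)).exists_bound_of_continuousOn
    hg.continuousOn
  have h1 := ((hq l).mulR (Ph 1 x g)).tau
  simp only [← sa.ph_mul (hf l _) hg, h.int _ ((hf l _).fun_mul hg)] at h1
  have h2 := tendsto_integral_of_dominated_convergence (μ := μ) (F := fun n t => f l n t * g t)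
    (f := fun t => (if l ≤ t then 1 else 0) * g t) (fun _ => C)
    (fun n => ((hf l n).mul hg).aestronglyMeasurable) (integrable_const _) (fun n => by
      filter_upwards [h.supp] with t ht
      rw [_root_.norm_mul]
      exact (mul_le_of_le_one_left (norm_nonneg _) (xb_ramp_le _)).trans
        (hC t (abs_le.1 (SA.spec_le ht)))) (.of_forall fun t => (xb_ramp l t).mul_const _)
  rw [tendsto_nhds_unique h1 h2, ← integral_indicator measurableSet_Ici]
  congr 1
  funext t
  simp [Set.indicator]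

end TW

end Pool.Agent.Lib.MP_263241_an
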