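import Pool.Agent.Lib.MP_263241_an.XG
import Pool.Agent.Lib.MP_263241_an.WK

/-! Coordinates on the algebra of `(a + b) / 2` and their Schwinger-Dyson equations. -/

namespace Pool.Agent.Lib.MP_263241_an

open TrivSqZeroExt

variable {R H : Type*} [CStarAlgebra R] [NormedAddCommGroup H] [InnerProductSpace ℂ H]

theorem xc_alg {s si A A' r : R} (h1 : s * si = 1) (h2 : si * s = 1) (h3 : A + A' = (2 : ℂ) • 1)
    (h4 : r * (A * A') = 1) (h5 : A * A' * r = 1) :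
    r * A * ((2⁻¹ : ℂ) • si * (1 - (1 - (2 : ℂ) • (s * A' * s)) * (1 - (2 : ℂ) • (s * A * s))) *
      (2⁻¹ : ℂ) • si) * (A' * r) = r - s * s := by
  have e1 : 1 - (1 - (2 : ℂ) • (s * A' * s)) * (1 - (2 : ℂ) • (s * A * s)) =
      (4 : ℂ) • (s * (1 - A' * (s * s) * A) * s) := by
    have : s * s = (2⁻¹ : ℂ) • (s * A * s + s * A' * s) := by
      rw [← add_mul, ← mul_add, h3, mul_smul_comm, smul_mul_assoc, smul_smul, mul_one]
      norm_num
    simp only [mul_sub, sub_mul, mul_one, one_mul, smul_mul_assoc, mul_smul_comm, mul_assoc]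
      at this ⊢
    rw [this]
    module
  have e2 : si * (s * (1 - A' * (s * s) * A) * s) * si = 1 - A' * (s * s) * A := by
    rw [← mul_assoc, ← mul_assoc, h2, one_mul, mul_assoc, h1, mul_one]
  rw [e1]
  simp only [smul_mul_assoc, mul_smul_comm, smul_smul]
  rw [e2, show (2⁻¹ * (4 * 2⁻¹) : ℂ) = 1 by norm_num, one_smul]
  calc r * A * (1 - A' * (s * s) * A) * (A' * r)
      = r * (A * A' * r) - r * (A * A') * (s * s) * (A * A' * r) := by noncomm_ring
    _ = _ := by rw [h4, h5, mul_one, mul_one, one_mul]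

theorem xc_sqrt (T : TW R H) {x : R} {c C : ℝ} (hx : Bd x c C) (hc : 0 < c) :
    ∃ s si, s ∈ T.gen {1, x} ∧ si ∈ T.gen {1, x} ∧ star s = s ∧ star si = si ∧ s * s = x ∧
      s * si = 1 ∧ si * s = 1 := by
  have S := sa_one hx.1
  have p : ∀ t : ℝ, 0 < √(max t c) := fun t => Real.sqrt_pos.2 (lt_max_of_lt_right hc)
  have c1 : Continuous fun t : ℝ => ((√(max t c) : ℝ) : ℂ) := by fun_prop
  have c2 : Continuous fun t : ℝ => (((√(max t c))⁻¹ : ℝ) : ℂ) :=
    Complex.continuous_ofReal.comp (Continuous.inv₀ (by fun_prop) fun t => (p t).ne')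
  have m : ∀ f, Ph 1 x f ∈ T.gen {1, x} :=
    (TW.gen_w _).ph_mem S (TW.sub_gen (.inl rfl)) (TW.sub_gen (.inr rfl))
  refine ⟨_, _, m fun t => ((√(max t c) : ℝ) : ℂ), m fun t => (((√(max t c))⁻¹ : ℝ) : ℂ),
    ph_sa hx.1 _, ph_sa hx.1 _, ?_, ?_, ?_⟩
  · rw [← S.ph_mul c1 c1]
    refine (S.ph_congr fun t ht => ?_).trans S.ph_id
    rw [← Complex.ofReal_mul, Real.mul_self_sqrt (le_max_of_le_right hc.le),
      max_eq_left (hx.2 t ht).1]
  · rw [← S.ph_mul c1 c2]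
    refine (S.ph_congr (g := fun _ => 1) fun t _ => ?_).trans ((S.ph_const 1).trans (one_smul _ _))
    rw [← Complex.ofReal_mul, mul_inv_cancel₀ (p t).ne', Complex.ofReal_one]
  · rw [← S.ph_mul c2 c1]
    refine (S.ph_congr (g := fun _ => 1) fun t _ => ?_).trans ((S.ph_const 1).trans (one_smul _ _))
    rw [← Complex.ofReal_mul, inv_mul_cancel₀ (p t).ne', Complex.ofReal_one]

theorem xc_res {κ : R} (h : star κ = κ) :
    Bd (Ph 1 κ fun t => (((1 + t ^ 2)⁻¹ : ℝ) : ℂ)) (1 + ‖κ‖ ^ 2)⁻¹ 1 ∧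
    (Ph 1 κ fun t => (((1 + t ^ 2)⁻¹ : ℝ) : ℂ)) * (1 + κ * κ) = 1 ∧
    (1 + κ * κ) * (Ph 1 κ fun t => (((1 + t ^ 2)⁻¹ : ℝ) : ℂ)) = 1 := by
  have S := sa_one h
  have p : ∀ t : ℝ, 0 < 1 + t ^ 2 := fun t => by positivity
  have c0 : Continuous fun t : ℝ => (1 + t ^ 2)⁻¹ :=
    Continuous.inv₀ (by fun_prop) fun t => (p t).ne'
  have c1 : Continuous fun t : ℝ => (((1 + t ^ 2)⁻¹ : ℝ) : ℂ) := Complex.continuous_ofReal.comp c0
  have c2 : Continuous fun t : ℝ => 1 + (t : ℂ) * t := by fun_prop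
  have e : 1 + κ * κ = Ph 1 κ fun t => 1 + (t : ℂ) * t := by
    rw [SA.ph_add (by fun_prop) (by fun_prop), S.ph_mul (by fun_prop) (by fun_prop), S.ph_id,
      S.ph_const, one_smul]
  have q : ∀ t : ℝ, (((1 + t ^ 2)⁻¹ : ℝ) : ℂ) * (1 + (t : ℂ) * t) = 1 := fun t => by
    have := inv_mul_cancel₀ (p t).ne'
    rw [sq] at this ⊢
    exact_mod_cast this
  refine ⟨bd_iff.2 ⟨?_, ?_⟩, ?_, ?_⟩
  · have := nn_ph h (f := fun t => (1 + t ^ 2)⁻¹ - (1 + ‖κ‖ ^ 2)⁻¹) (c0.sub continuous_const)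
      fun t ht => sub_nonneg.2 (inv_anti₀ (p t) (by
        have := SA.spec_le ht
        rw [← sq_abs t]
        gcongr))
    simp only [Complex.ofReal_sub] at this
    rwa [SA.ph_sub c1 continuous_const, S.ph_const] at this
  · have := nn_ph h (f := fun t => 1 - (1 + t ^ 2)⁻¹) (continuous_const.sub c0)
      fun t _ => sub_nonneg.2 (inv_le_one_of_one_le₀ (by nlinarith [sq_nonneg t]))
    simp only [Complex.ofReal_sub] at this
    rwa [SA.ph_sub continuous_const c1, S.ph_const] at this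
  · rw [e, ← S.ph_mul c1 c2]
    exact (S.ph_congr (g := fun _ => 1) fun t _ => q t).trans
      ((S.ph_const 1).trans (one_smul _ _))
  · rw [e, ← S.ph_mul c2 c1]
    exact (S.ph_congr (g := fun _ => 1) fun t _ => (mul_comm _ _).trans (q t)).trans
      ((S.ph_const 1).trans (one_smul _ _))

theorem xc_nn_one : Nn (1 : R) := Pr.nn Pr.one

theorem Bd.xc_mono {x : R} {c c' C : ℝ} (h : Bd x c C) (hc : c' ≤ c) : Bd x c' C :=
  ⟨h.1, fun t ht => ⟨hc.trans (h.2 t ht).1, (h.2 t ht).2⟩⟩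

namespace TW

variable (T : TW R H)

/-- The coordinates. -/
structure Co (h k κ s si r ρ ρi u : R) (c0 : ℝ) : Prop where
  c0p : 0 < c0
  sm : s ∈ T.gen {1, h}
  sim : si ∈ T.gen {1, h}
  ss : star s = s
  s2 : s * s = (2⁻¹ : ℂ) • (1 - h)
  s3 : s * si = 1
  s4 : si * s = 1
  κd : κ = (2⁻¹ : ℂ) • (si * k * si)
  rd : r = Ph 1 κ fun t => (((1 + t ^ 2)⁻¹ : ℝ) : ℂ)
  ρm : ρ ∈ T.gen {1, r}
  ρim : ρi ∈ T.gen {1, r}
  ρs : star ρ = ρ
  ρρ : ρ * ρ = r
  ρ1 : ρ * ρi = 1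
  ρ2 : ρi * ρ = 1
  ud : u = ρi * (s * s) * ρi
  rb : Bd r c0 1
  ub : Bd u c0 1

variable {T} {φ : F2 → R} (hφ : T.Reg 1 φ) (h1 : T.tau 1 = 1)
include hφ h1

theorem Reg.exists_co : ∃ κ s si r ρ ρi u c0, T.Co (hh (φ (.of 0)) (φ (.of 1)))
    (kk (φ (.of 0)) (φ (.of 1))) κ s si r ρ ρi u c0 := by
  have hk := hφ.kesten h1
  have u0 := (hφ.haar 0).su
  have u1 := (hφ.haar 1).su
  have e0 := hh_add_kk (φ (.of 0)) (φ (.of 1))
  have sh := hh_sa (φ (.of 0)) (φ (.of 1))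
  have sk := kk_sa (φ (.of 0)) (φ (.of 1))
  have n0 : Nn (1 - star ((2⁻¹ : ℂ) • (φ (.of 0) + φ (.of 1))) *
      ((2⁻¹ : ℂ) • (φ (.of 0) + φ (.of 1)))) := by
    convert nn_star_mul ((2⁻¹ : ℂ) • (φ (.of 0) - φ (.of 1))) using 1
    simp only [star_smul, star_add, star_sub, star_inv₀, star_ofNat, smul_mul_assoc, mul_smul_comm,
      mul_add, add_mul, mul_sub, sub_mul, u0, u1]
    module
  rw [← e0] at n0
  generalize hh (φ (.of 0)) (φ (.of 1)) = h at *
  generalize kk (φ (.of 0)) (φ (.of 1)) = k at *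
  have b0 := bd_iff.1 (bd_of_norm sh le_rfl)
  have b1 : Bd ((2⁻¹ : ℂ) • (1 - h)) ((1 - ‖h‖) / 2) ((1 + ‖h‖) / 2) := by
    refine bd_iff.2 ⟨?_, ?_⟩
    · convert b0.2.smul (c := 2⁻¹) (by norm_num) using 1
      push_cast
      module
    · convert b0.1.smul (c := 2⁻¹) (by norm_num) using 1
      push_cast
      module
  have d0 : 0 < (1 - ‖h‖) / 2 := by linarith
  obtain ⟨s, si, m1, m2, s1, s2, s3, s4, s5⟩ := xc_sqrt T b1 d0
  have g : T.gen {1, (2⁻¹ : ℂ) • (1 - h)} ⊆ T.gen {1, h} := (gen_w _).gen_le (by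
    rintro _ (rfl | rfl)
    · exact sub_gen (.inl rfl)
    · exact (gen_w _).smul _ ((gen_w _).sub (sub_gen (.inl rfl)) (sub_gen (.inr rfl))))
  obtain ⟨κ, hκ⟩ : ∃ κ, κ = (2⁻¹ : ℂ) • (si * k * si) := ⟨_, rfl⟩
  have k1 : star κ = κ := by
    simp only [hκ, star_smul, star_mul, s2, sk, star_inv₀, star_ofNat, mul_assoc]
  have k2 : s * κ * s = (2⁻¹ : ℂ) • k := by
    rw [hκ, mul_smul_comm, smul_mul_assoc, ← mul_assoc, ← mul_assoc, s4, one_mul, mul_assoc, s5,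
      mul_one]
  obtain ⟨r1, r2, r3⟩ := xc_res k1
  obtain ⟨r, hr⟩ : ∃ r, r = Ph 1 κ fun t => (((1 + t ^ 2)⁻¹ : ℝ) : ℂ) := ⟨_, rfl⟩
  rw [← hr] at r1 r2 r3
  have d1 : 0 < (1 + ‖κ‖ ^ 2)⁻¹ := by positivity
  obtain ⟨ρ, ρi, m3, m4, t1, t2, t3, t4, t5⟩ := xc_sqrt T r1 d1
  have t6 : ρi * r * ρi = 1 := by rw [← t3, ← mul_assoc, t5, one_mul, t4]
  have a1 : (1 - Complex.I • κ) * (1 + Complex.I • κ) = 1 + κ * κ := by
    simp only [mul_add, sub_mul, mul_one, one_mul, smul_mul_assoc, mul_smul_comm, smul_sub,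
      smul_smul, Complex.I_mul_I]
    module
  have n1 : Nn (r - s * s) := by
    have a2 : star (1 + Complex.I • κ) = 1 - Complex.I • κ := by
      rw [star_add, star_one, star_smul, k1, RCLike.star_def, Complex.conj_I, neg_smul,
        sub_eq_add_neg]
    have a3 : h + Complex.I • k = 1 - (2 : ℂ) • (s * (1 - Complex.I • κ) * s) := by
      rw [mul_sub, sub_mul, mul_one, s3, mul_smul_comm, smul_mul_assoc, k2]
      module
    have a4 : star (h + Complex.I • k) = 1 - (2 : ℂ) • (s * (1 + Complex.I • κ) * s) := by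
      rw [mul_add, add_mul, mul_one, s3, mul_smul_comm, smul_mul_assoc, k2, star_add, star_smul, sh,
        sk, RCLike.star_def, Complex.conj_I]
      module
    have := (n0.conj ((2⁻¹ : ℂ) • si)).conj ((1 + Complex.I • κ) * r)
    rw [star_mul, a2, r1.1, star_smul, s2, star_inv₀, star_ofNat, a4, a3,
      xc_alg s4 s5 (by module) (by rw [a1, r2]) (by rw [a1, r3])] at this
    exact this
  have c0 : 0 < min ((1 - ‖h‖) / 2) (1 + ‖κ‖ ^ 2)⁻¹ := lt_min d0 d1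
  refine ⟨κ, s, si, r, ρ, ρi, _, _, c0, g m1, g m2, s1, s3, s4, s5, hκ, hr, m3, m4, t1, t3, t4, t5,
    rfl, r1.xc_mono (min_le_right _ _), bd_iff.2 ⟨?_, ?_⟩⟩
  · have := ((bd_iff.1 (b1.xc_mono (min_le_left _ (1 + ‖κ‖ ^ 2)⁻¹))).1.add
      ((bd_iff.1 r1).2.smul c0.le)).conj ρi
    rw [t2, ← s3] at this
    convert this using 1
    conv_lhs => rw [← t6]
    simp only [mul_add, add_mul, mul_sub, sub_mul, mul_smul_comm, smul_mul_assoc, smul_sub,
      Complex.ofReal_one, one_smul, mul_one]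
    abel
  · have := n1.conj ρi
    rwa [t2, mul_sub, sub_mul, t6, ← one_smul ℂ (1 : R), ← Complex.ofReal_one] at this

/-- The equation for the first generator. -/
theorem Reg.sd_a : ∀ z ∈ Algebra.adjoin ℂ ({T.lt (φ (.of 0)) (φ (.of 0)) 1,
    T.lt (star (φ (.of 0))) (-1) (star (φ (.of 0))), inl (φ (.of 1)), inl (star (φ (.of 1)))} :
    Set (DA R)), z.snd.ev 1 1 = 0 := by
  have _ := h1
  have u0 := (hφ.haar 0).su
  have u1 := (hφ.haar 1).su
  have v0 := (hφ.haar 0).us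
  have v1 := (hφ.haar 1).us
  let A : (DA R)ˣ := ⟨T.lt (φ (.of 0)) (φ (.of 0)) 1,
    T.lt (star (φ (.of 0))) (-1) (star (φ (.of 0))),
    DA.ext' (by simpa using v0) fun p q => by rw [DA.snd_mul]; simp,
    DA.ext' (by simpa using u0) fun p q => by
      rw [DA.snd_mul]; simp [mul_assoc p, ← mul_assoc _ _ q, u0]⟩
  let B : (DA R)ˣ := ⟨inl (φ (.of 1)), inl (star (φ (.of 1))), by rw [← inl_mul, v1]; rfl,
    by rw [← inl_mul, u1]; rfl⟩
  let ψ : F2 →* (DA R)ˣ := FreeGroup.lift ![A, B]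
  have p0 : ψ (.of 0) = A := by simp [ψ]
  have p1 : ψ (.of 1) = B := by simp [ψ]
  have tz : ∀ x z : F2, x * z ≠ 1 → T.tau (φ x) * T.tau (φ z) = 0 := fun x z h => by
    by_cases hx : x = 1
    · rw [hφ.tau z (by simpa [hx] using h), mul_zero]
    · rw [hφ.tau x hx, zero_mul]
  have key : ∀ g, (ψ g : DA R).fst = φ g ∧
      ∀ x z, x * g * z ≠ 1 → (ψ g : DA R).snd.ev (φ x) (φ z) = 0 := fun g => by
    induction g using FreeGroup.induction_on with
    | C1 => exact ⟨by simp [hφ.one], fun _ _ _ => by simp⟩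
    | of i =>
      fin_cases i
      · refine ⟨congrArg (fun w : (DA R)ˣ => (w : DA R).fst) p0, fun x z h => ?_⟩
        refine (congrArg (fun w : (DA R)ˣ => (w : DA R).snd.ev (φ x) (φ z)) p0).trans ?_
        simpa [A, hφ.mul] using tz _ _ h
      · exact ⟨congrArg (fun w : (DA R)ˣ => (w : DA R).fst) p1, fun x z _ =>
          congrArg (fun w : (DA R)ˣ => (w : DA R).snd.ev (φ x) (φ z)) p1⟩
    | inv_of i _ =>
      rw [map_inv, hφ.inv]
      fin_cases i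
      · refine ⟨congrArg (fun w : (DA R)ˣ => ((w⁻¹ : (DA R)ˣ) : DA R).fst) p0, fun x z h => ?_⟩
        refine (congrArg (fun w : (DA R)ˣ => ((w⁻¹ : (DA R)ˣ) : DA R).snd.ev (φ x) (φ z))
          p0).trans ?_
        rw [mul_assoc] at h
        simpa [A, hφ.mul, hφ.inv] using tz _ _ h
      · exact ⟨congrArg (fun w : (DA R)ˣ => ((w⁻¹ : (DA R)ˣ) : DA R).fst) p1, fun x z _ =>
          congrArg (fun w : (DA R)ˣ => ((w⁻¹ : (DA R)ˣ) : DA R).snd.ev (φ x) (φ z)) p1⟩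
    | mul a b ha hb =>
      rw [map_mul, Units.val_mul]
      refine ⟨by rw [fst_mul, ha.1, hb.1, hφ.mul], fun x z h => ?_⟩
      rw [DA.snd_mul, ha.1, hb.1, ← hφ.mul, ← hφ.mul, ha.2 _ _ (by simpa [mul_assoc] using h),
        hb.2 _ _ (by simpa [mul_assoc] using h), add_zero]
  intro z hz
  rw [← Subalgebra.mem_toSubmodule, Algebra.adjoin_eq_span] at hz
  induction hz using Submodule.span_induction with
  | mem w hw =>
    obtain ⟨g, rfl⟩ : w ∈ MonoidHom.mrange ((Units.coeHom (DA R)).comp ψ) := by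
      refine Submonoid.closure_le.2 ?_ hw
      rintro _ (rfl | rfl | rfl | rfl)
      · exact ⟨.of 0, congrArg Units.val p0⟩
      · exact ⟨(.of 0)⁻¹, congrArg Units.val ((map_inv ψ _).trans (congrArg _ p0))⟩
      · exact ⟨.of 1, congrArg Units.val p1⟩
      · exact ⟨(.of 1)⁻¹, congrArg Units.val ((map_inv ψ _).trans (congrArg _ p1))⟩
    by_cases hg : g = 1
    · simp [hg]
    · have := (key g).2 1 1 (by simpa using hg)
      rwa [hφ.one] at this
  | zero => simp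
  | add x y _ _ hx hy => simp [hx, hy]
  | smul c x _ hx => simp [hx]

/-- The symmetry that exchanges the generators. -/
theorem Reg.swap {x : R} (hx : x ∈ T.gen {1, (2⁻¹ : ℂ) • (φ (.of 0) + φ (.of 1))}) :
    T.tau (x * φ (.of 0)) = T.tau (x * ((2⁻¹ : ℂ) • (φ (.of 0) + φ (.of 1)))) ∧
    T.tau (x * star (φ (.of 0))) = T.tau (x * star ((2⁻¹ : ℂ) • (φ (.of 0) + φ (.of 1)))) := by
  have _ := h1
  let σ : F2 →* F2 := FreeGroup.lift ![.of 1, .of 0]
  have s0 : σ (.of 0) = .of 1 := by simp [σ]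
  have s1 : σ (.of 1) = .of 0 := by simp [σ]
  have ss : σ.comp σ = MonoidHom.id _ := FreeGroup.ext_hom _ _ fun i => by
    fin_cases i <;> simp [s0, s1]
  have hG := gr_reg one_pos hφ (hφ.comp_inj σ (Function.LeftInverse.injective
    (g := σ) fun g => DFunLike.congr_fun ss g)) (by simp)
  generalize hS : (T.prod T).cls (Set.range fun g => (φ g, φ (σ g))) = G at hG
  have m0 : (φ (.of 0), φ (.of 1)) ∈ G := hS ▸ sub_cls ⟨.of 0, by simp only [s0]⟩
  have m1 : (φ (.of 1), φ (.of 0)) ∈ G := hS ▸ sub_cls ⟨.of 1, by simp only [s1]⟩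
  have W : T.IsW {x | (x, x) ∈ G} :=
    ⟨⟨hG.alg.zero, fun a b => hG.alg.add a b, fun c _ a => hG.alg.smul c a,
      fun a x ha hl => hG.alg.lim (fun n => (a n, a n)) ha (lim_prod.2 ⟨hl, hl⟩)⟩,
      fun a b => hG.alg.mul a b, fun a => hG.alg.star a⟩
  have mx : (x, x) ∈ G := W.gen_le (by
    rintro _ (rfl | rfl)
    · exact hG.alg.one
    · have := hG.alg.smul (2⁻¹ : ℂ) (hG.alg.add m0 m1)
      rwa [Prod.mk_add_mk, Prod.smul_mk, add_comm (φ (.of 1))] at this) hx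
  have t0 : T.tau (x * φ (.of 1)) = T.tau (x * φ (.of 0)) := by
    simpa using hG.tr _ (hG.alg.mul mx m0)
  have t1 : T.tau (x * star (φ (.of 1))) = T.tau (x * star (φ (.of 0))) := by
    simpa using hG.tr _ (hG.alg.mul mx (hG.alg.star m0))
  constructor
  · rw [mul_smul_comm, mul_add, map_smul, map_add, t0, smul_eq_mul]
    ring
  · rw [star_smul, star_add, star_inv₀, star_ofNat, mul_smul_comm, mul_add, map_smul, map_add, t1,
      smul_eq_mul]
    ring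

end TW

end Pool.Agent.Lib.MP_263241_an
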