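import Pool.Agent.Lib.MP_263241_an.XH

/-! A white flag with thin slices is free from the initial algebra. -/

namespace Pool.Agent.Lib.MP_263241_an

open Filter Topology Finset

variable {R H : Type*} [CStarAlgebra R] [NormedAddCommGroup H] [InnerProductSpace ℂ H]

/-- Dyadic times. -/
def xd_Dy (s : ℝ) : Prop := ∃ n j, s = tm n j

theorem xd_dy (n j : ℕ) : xd_Dy (tm n j) := ⟨n, j, rfl⟩

theorem xd_Dy.min {s t : ℝ} (hs : xd_Dy s) (ht : xd_Dy t) : xd_Dy (min s t) := by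
  rcases min_choice s t with h | h <;> rwa [h]

theorem xd_Dy.max {s t : ℝ} (hs : xd_Dy s) (ht : xd_Dy t) : xd_Dy (max s t) := by
  rcases max_choice s t with h | h <;> rwa [h]

theorem xd_Dy.nonneg {s : ℝ} (hs : xd_Dy s) : 0 ≤ s := by
  obtain ⟨n, j, rfl⟩ := hs
  exact (tm_zero n).ge.trans (tm_mono j.zero_le)

theorem xd_sq {a : ℕ} {f g g' : ℕ → ℕ → ℝ} (K K' : ℝ) (h0 : ∀ n j, 0 ≤ f n j)
    (h : ∀ᶠ n in atTop, ∀ j < a * 2 ^ n, f n j ≤ K * g n j + K' * g' n j)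
    (hg : Tendsto (fun n => ∑ j ∈ range (a * 2 ^ n), g n j) atTop (𝓝 0))
    (hg' : Tendsto (fun n => ∑ j ∈ range (a * 2 ^ n), g' n j) atTop (𝓝 0)) :
    Tendsto (fun n => ∑ j ∈ range (a * 2 ^ n), f n j) atTop (𝓝 0) := by
  refine squeeze_zero' (Eventually.of_forall fun n => sum_nonneg fun j _ => h0 n j)
    (h.mono fun n hn => ?_) (by simpa using (hg.const_mul K).add (hg'.const_mul K'))
  rw [mul_sum, mul_sum, ← sum_add_distrib]
  exact sum_le_sum fun j hj => hn j (mem_range.1 hj)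

namespace TW

variable (T : TW R H) (p : ℝ → R)

/-- The normalized unrevealed part. -/
noncomputable def xd_h (u : ℝ) : R := (((T.te p u)⁻¹ : ℝ) : ℂ) • (1 - p u)

/-- The stopped martingale. -/
noncomputable def xd_g (s t : ℝ) : R := T.xd_h p (min s t) - 1

/-- The martingale increment. -/
noncomputable def xd_v (n j : ℕ) : R := T.xd_h p (tm n (j + 1)) - T.xd_h p (tm n j)

/-- Words at time `t`. -/
noncomputable def xd_wd (t : ℝ) (L : List (R × ℝ)) : R :=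
  pw (L.map fun z => (z.1, T.xd_g p z.2 t))

/-- The algebra of the flag. -/
noncomputable def xd_Y (p : ℝ → R) : Subalgebra ℂ R :=
  Algebra.adjoin ℂ {x | ∃ u, xd_Dy u ∧ x = 1 - p u}

variable {T p} {S : ℝ → Set R} {M : Set R}

theorem xd_nil (t : ℝ) : T.xd_wd p t [] = 1 := rfl

theorem xd_cons (t : ℝ) (z : R × ℝ) (L : List (R × ℝ)) :
    T.xd_wd p t (z :: L) = z.1 * T.xd_g p z.2 t * T.xd_wd p t L := rfl

theorem xd_snoc (t : ℝ) (z : R × ℝ) (L : List (R × ℝ)) :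
    T.xd_wd p t (L ++ [z]) = T.xd_wd p t L * (z.1 * T.xd_g p z.2 t) := by
  rw [xd_wd, List.map_append, pw_append]
  simp [xd_wd]

theorem xd_e_mem {u : ℝ} (hu : xd_Dy u) : 1 - p u ∈ xd_Y p := Algebra.subset_adjoin ⟨u, hu, rfl⟩

theorem xd_p_mem {u : ℝ} (hu : xd_Dy u) : p u ∈ xd_Y p := by
  simpa using sub_mem (one_mem (xd_Y p)) (xd_e_mem hu)

theorem xd_lin {A W : Set R} {N : ℕ}
    (h : ∀ L : List (R × R), L.length = N → (∀ z ∈ L, z.1 ∈ A ∧ z.2 ∈ W) → T.tau (pw L) = 0)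
    (L2 : List (R × R)) (h2 : ∀ z ∈ L2, z.1 ∈ A ∧ z.2 ∈ Submodule.span ℂ W) :
    ∀ L1 : List (R × R), (∀ z ∈ L1, z.1 ∈ A ∧ z.2 ∈ W) → L1.length + L2.length = N →
      T.tau (pw L1 * pw L2) = 0 := by
  induction L2 with
  | nil => exact fun L1 h1 hN => by simpa using h L1 (by simpa using hN) h1
  | cons z L ih =>
    intro L1 h1 hN
    obtain ⟨hz, hz'⟩ := h2 z List.mem_cons_self
    rw [pw_cons]
    generalize z.2 = c at hz'
    induction hz' using Submodule.span_induction with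
    | mem c hc =>
      have := ih (fun y hy => h2 y (List.mem_cons_of_mem _ hy)) (L1 ++ [(z.1, c)])
        (fun y hy => by
          rcases List.mem_append.1 hy with hy | hy
          · exact h1 y hy
          · rw [List.mem_singleton.1 hy]; exact ⟨hz, hc⟩)
        (by simp at hN ⊢; omega)
      simpa [pw_append, mul_assoc] using this
    | zero => simp
    | add x y _ _ hx hy => rw [mul_add, add_mul, mul_add, map_add, hx, hy, add_zero]
    | smul c x _ hx =>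
      rw [mul_smul_comm, smul_mul_assoc, mul_smul_comm, map_smul, hx, smul_zero]

section fl

variable (h : T.Fl p S M)
include h

theorem Fl.xd_pos {u : ℝ} (hu : xd_Dy u) : 0 < T.te p u := by
  obtain ⟨n, j, rfl⟩ := hu
  exact h.te_pos n j

theorem Fl.xd_mem {u t : ℝ} (hu : xd_Dy u) (hut : u ≤ t) : T.xd_h p u ∈ S t := by
  obtain ⟨n, j, rfl⟩ := hu
  exact (h.alg t).smul _ ((h.alg t).sub (h.alg t).one (h.smono _ _ hut (h.mem n j)))

theorem Fl.xd_tau {u : ℝ} (hu : xd_Dy u) : T.tau (T.xd_h p u - 1) = 0 := by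
  rw [map_sub, xd_h, map_smul, h.tau_te, h.one, smul_eq_mul, ← Complex.ofReal_mul,
    inv_mul_cancel₀ (h.xd_pos hu).ne', Complex.ofReal_one, sub_self]

theorem Fl.xd_epr (u : ℝ) : Pr (1 - p u) := Pr.one.sub (h.pr u) (one_mul _)

theorem Fl.xd_min (s t : ℝ) : p s * p t = p (min s t) := by
  rcases le_total s t with hst | hst
  · rw [min_eq_left hst, (h.pr t).comm_of (h.pr s) (h.mono s t hst)]
  · rw [min_eq_right hst, h.mono t s hst]

theorem Fl.xd_max (s t : ℝ) : (1 - p s) * (1 - p t) = 1 - p (max s t) := by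
  rw [sub_mul, one_mul, mul_sub, mul_one, h.xd_min]
  rcases le_total s t with hst | hst
  · rw [min_eq_left hst, max_eq_right hst]; abel
  · rw [min_eq_right hst, max_eq_left hst]; abel

theorem Fl.xd_g_zero {s : ℝ} (hs : xd_Dy s) : T.xd_g p s 0 = 0 := by
  simp [xd_g, xd_h, min_eq_right hs.nonneg, te, h.zero, h.one]

theorem Fl.xd_g_mem {s : ℝ} (hs : xd_Dy s) (n j : ℕ) : T.xd_g p s (tm n j) ∈ S (tm n j) :=
  (h.alg _).sub (h.xd_mem (hs.min (xd_dy n j)) (min_le_right _ _)) (h.alg _).one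

theorem Fl.xd_g_cen {s : ℝ} (hs : xd_Dy s) (n j : ℕ) : T.xd_g p s (tm n j) ∈ T.cen (xd_Y p) :=
  ⟨sub_mem ((xd_Y p).smul_mem (xd_e_mem (hs.min (xd_dy n j))) _) (one_mem _),
    h.xd_tau (hs.min (xd_dy n j))⟩

theorem Fl.xd_g_norm {s : ℝ} (hs : xd_Dy s) (t : ℝ) : ‖T.xd_g p s t‖ ≤ (T.te p s)⁻¹ + 1 := by
  have h1 := h.xd_pos hs
  have h2 := h.te_anti (min_le_left s t)
  refine (norm_sub_le _ _).trans (add_le_add ?_ Pr.one.norm_le)
  rw [xd_h, norm_smul, Complex.norm_real, Real.norm_of_nonneg (inv_pos.2 (h1.trans_le h2)).le]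
  exact (mul_le_of_le_one_right (inv_pos.2 (h1.trans_le h2)).le (h.xd_epr _).norm_le).trans
    (inv_anti₀ h1 h2)

theorem Fl.xd_h_lip {u u' s : ℝ} (hs : xd_Dy s) (h1 : u ≤ u') (h2 : u' ≤ s) :
    ‖T.ι (T.xd_h p u' - T.xd_h p u)‖ ≤
      ((T.te p s)⁻¹ + (T.te p s)⁻¹ * (T.te p s)⁻¹) * ‖T.ι (p u' - p u)‖ := by
  have s0 := h.xd_pos hs
  have s1 := h.te_anti h2
  have s2 := h.te_anti h1
  have s3 := h.te_le u
  have p1 := s0.trans_le s1
  have p2 := p1.trans_le s2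
  have e1 : T.te p u - T.te p u' = ‖T.ι (p u' - p u)‖ ^ 2 := by
    have := T.tau_pr ((h.pr u').sub (h.pr u) (h.mono u u' h1))
    rw [show p u' - p u = (1 - p u) - (1 - p u') by abel, map_sub, h.tau_te, h.tau_te] at this
    rw [show p u' - p u = (1 - p u) - (1 - p u') by abel]
    exact_mod_cast this
  have e2 : T.xd_h p u' - T.xd_h p u = (((T.te p u')⁻¹ - (T.te p u)⁻¹ : ℝ) : ℂ) • (1 - p u) -
      (((T.te p u')⁻¹ : ℝ) : ℂ) • (p u' - p u) := by
    simp only [xd_h, Complex.ofReal_sub]; module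
  set d := ‖T.ι (p u' - p u)‖ with hd
  have d0 : 0 ≤ d := norm_nonneg _
  have d2 : d ≤ 1 := (le_abs_self d).trans (abs_le_one_iff_mul_self_le_one.2 (by nlinarith))
  have d1 : d ^ 2 ≤ d := by nlinarith
  have i1 := inv_anti₀ s0 s1
  have i2 := inv_anti₀ s0 (s1.trans s2)
  have e3 : (T.te p u')⁻¹ - (T.te p u)⁻¹ = (T.te p u')⁻¹ * (T.te p u)⁻¹ * d ^ 2 := by
    rw [← e1]; field_simp
  have q1 := (inv_pos.2 p1).le
  have q2 := (inv_pos.2 p2).le
  rw [e2, map_sub, map_smul, map_smul]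
  refine (norm_sub_le _ _).trans ?_
  rw [norm_smul, norm_smul, Complex.norm_real, Complex.norm_real, e3, Real.norm_of_nonneg q1,
    Real.norm_of_nonneg (by positivity), add_mul, add_comm]
  refine add_le_add (mul_le_mul_of_nonneg_right i1 d0) ((mul_le_of_le_one_right (by positivity)
    ((l2_le h.one _).trans (h.xd_epr u).norm_le)).trans ?_)
  exact mul_le_mul (mul_le_mul i1 i2 q2 (q1.trans i1)) d1 (by positivity) (by positivity)

theorem Fl.xd_g_ac {s : ℝ} (hs : xd_Dy s) (a : ℕ) : T.AvC p a fun n j => T.xd_g p s (tm n j) := by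
  refine h.ac_of_inc (K := (T.te p s)⁻¹ + (T.te p s)⁻¹ * (T.te p s)⁻¹) fun n j j' hj _ => ?_
  have := (h.xd_pos hs).le
  rw [xd_g, xd_g, sub_sub_sub_cancel_right]
  refine (h.xd_h_lip hs (min_le_min_left s (tm_mono hj)) (min_le_left _ _)).trans
    (mul_le_mul_of_nonneg_left ?_ (by positivity))
  rw [← h.xd_min, ← h.xd_min, ← mul_sub]
  exact (T.norm_mul _ _).trans (mul_le_of_le_one_left (norm_nonneg _) (h.pr s).norm_le)

omit h in
theorem xd_inc {s : ℝ} (hs : xd_Dy s) : ∀ᶠ n in atTop, ∀ j, ∃ α : ℂ, ‖α‖ ≤ 1 ∧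
    T.xd_g p s (tm n (j + 1)) - T.xd_g p s (tm n j) = α • T.xd_v p n j := by
  obtain ⟨m, i, rfl⟩ := hs
  refine (eventually_ge_atTop m).mono fun n hn j => ?_
  obtain ⟨k, rfl⟩ := Nat.exists_eq_add_of_le hn
  rw [← tm_mul m k i, xd_g, xd_g, sub_sub_sub_cancel_right]
  rcases lt_or_ge j (i * 2 ^ k) with hj | hj
  · exact ⟨1, norm_one.le, by
      rw [min_eq_right (tm_mono hj), min_eq_right (tm_mono hj.le), one_smul, xd_v]⟩
  · exact ⟨0, by simp, by
      rw [min_eq_left (tm_mono hj), min_eq_left (tm_mono (hj.trans j.le_succ)), sub_self, zero_smul]⟩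

theorem Fl.xd_mart (hw : T.Wh p S) {n j : ℕ} {y : R} (hy : y ∈ S (tm n j)) :
    T.tau (y * T.xd_v p n j) = 0 := by
  have h1 := hw n j (j + 1) j.le_succ y hy
  have h2 : (T.te p (tm n j) : ℂ) ≠ 0 := Complex.ofReal_ne_zero.2 (h.te_pos n j).ne'
  have h3 : (T.te p (tm n (j + 1)) : ℂ) ≠ 0 := Complex.ofReal_ne_zero.2 (h.te_pos n (j + 1)).ne'
  rw [xd_v, xd_h, xd_h, mul_sub, mul_smul_comm, mul_smul_comm, map_sub, map_smul, map_smul,
    smul_eq_mul, smul_eq_mul, Complex.ofReal_inv, Complex.ofReal_inv, sub_eq_zero]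
  field_simp
  linear_combination h1

theorem Fl.xd_wd_mem {L : List (R × ℝ)} (hL : ∀ z ∈ L, z.1 ∈ T.cen (S 0) ∧ xd_Dy z.2) (n j : ℕ) :
    T.xd_wd p (tm n j) L ∈ S (tm n j) := by
  induction L with
  | nil => exact (h.alg _).one
  | cons z L ih =>
    obtain ⟨h1, h2⟩ := hL z List.mem_cons_self
    exact (h.alg _).mul ((h.alg _).mul (h.smono _ _ (xd_dy n j).nonneg h1.1) (h.xd_g_mem h2 n j))
      (ih fun y hy => hL y (List.mem_cons_of_mem _ hy))

theorem Fl.xd_wd_norm {L : List (R × ℝ)} (hL : ∀ z ∈ L, z.1 ∈ T.cen (S 0) ∧ xd_Dy z.2) :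
    ∃ K, 0 ≤ K ∧ ∀ t, ‖T.xd_wd p t L‖ ≤ K := by
  induction L with
  | nil => exact ⟨1, zero_le_one, fun _ => Pr.one.norm_le⟩
  | cons z L ih =>
    obtain ⟨-, h2⟩ := hL z List.mem_cons_self
    obtain ⟨K, K0, hK⟩ := ih fun y hy => hL y (List.mem_cons_of_mem _ hy)
    have := (h.xd_pos h2).le
    refine ⟨‖z.1‖ * ((T.te p z.2)⁻¹ + 1) * K, by positivity, fun t => ?_⟩
    exact (norm_mul_le _ _).trans (mul_le_mul ((norm_mul_le _ _).trans
      (mul_le_mul_of_nonneg_left (h.xd_g_norm h2 t) (norm_nonneg _))) (hK t) (norm_nonneg _)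
      (by positivity))

theorem Fl.xd_ac_mul {a : ℕ} {x y : ℕ → ℕ → R} {K K' : ℝ} (hx : T.AvC p a x) (hy : T.AvC p a y)
    (bx : ∀ n j, ‖x n j‖ ≤ K) (by' : ∀ n j, ‖y n j‖ ≤ K') :
    T.AvC p a fun n j => x n j * y n j :=
  h.ac_mul hx hy (fun n j _ => (bx n j).trans (le_max_left K K'))
    fun n j _ => (by' n j).trans (le_max_right K K')

theorem Fl.xd_wd_ac {L : List (R × ℝ)} (hL : ∀ z ∈ L, z.1 ∈ T.cen (S 0) ∧ xd_Dy z.2) (a : ℕ) :
    T.AvC p a fun n j => T.xd_wd p (tm n j) L := by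
  induction L with
  | nil => exact h.ac_const a 1
  | cons z L ih =>
    obtain ⟨-, h2⟩ := hL z List.mem_cons_self
    have hL' := fun y hy => hL y (List.mem_cons_of_mem _ hy)
    obtain ⟨K, -, hK⟩ := h.xd_wd_norm hL'
    exact h.xd_ac_mul (K := ‖z.1‖ * ((T.te p z.2)⁻¹ + 1)) (h.xd_ac_mul (K := ‖z.1‖)
      (h.ac_const a z.1) (h.xd_g_ac h2 a) (fun _ _ => le_rfl) fun _ _ => h.xd_g_norm h2 _) (ih hL')
      (fun n j => (norm_mul_le z.1 (T.xd_g p z.2 (tm n j))).trans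
        (mul_le_mul_of_nonneg_left (h.xd_g_norm h2 _) (norm_nonneg _))) fun _ _ => hK _

/-- The second order terms. -/
theorem Fl.xd_two {a n j : ℕ} (hj : j < a * 2 ^ n) {y : R} (hy : T.tau (sl p n j * y) = 0) :
    T.n1 (T.xd_v p n j * y * T.xd_v p n j) ≤
      (T.te p a)⁻¹ ^ 2 * (√(T.dl p n j) * |‖T.ι (T.dev (sl p n j) y)‖|) +
        (T.te p a)⁻¹ ^ 2 * (2 * (T.te p a)⁻¹ + (T.te p a)⁻¹ ^ 2) * ‖y‖ * T.dl p n j ^ 2 := by
  have a0 : 0 < T.te p a := tm_top n a ▸ h.te_pos n _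
  have a1 : T.te p a ≤ T.te p (tm n (j + 1)) := h.te_anti (tm_top n a ▸ tm_mono hj)
  have a2 : T.te p a ≤ T.te p (tm n j) := h.te_anti (tm_top n a ▸ tm_mono hj.le)
  have p1 := h.te_pos n (j + 1)
  have p2 := h.te_pos n j
  have d0 := h.pos n j
  have hq := h.sl_pr n j
  have he := h.xd_epr (tm n j)
  set q := sl p n j with hqd
  set e := 1 - p (tm n j) with hed
  set κ : ℝ := (T.te p (tm n j))⁻¹ * T.dl p n j with hκ
  set c : ℝ := (T.te p (tm n (j + 1)))⁻¹ with hc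
  set A := (T.te p a)⁻¹ with hA
  have k0 : 0 ≤ κ := by positivity
  have c0 : 0 ≤ c := by positivity
  have A0 : 0 ≤ A := by positivity
  have k1 : κ ≤ A * T.dl p n j := mul_le_mul_of_nonneg_right (inv_anti₀ a0 a2) d0.le
  have c1 : c ≤ A := inv_anti₀ a0 a1
  have hv : T.xd_v p n j = (c : ℂ) • ((κ : ℂ) • e - q) := by
    have e1 : (T.te p (tm n j))⁻¹ = c - c * κ := by
      rw [hc, hκ, h.te_succ] at *; field_simp
    rw [xd_v, xd_h, xd_h, e1, ← hc, hqd, hed, sl]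
    push_cast
    module
  have hx : T.xd_v p n j * y * T.xd_v p n j = ((c ^ 2 : ℝ) : ℂ) • (q * (q * y * q) -
      (κ : ℂ) • (q * (y * e)) - (κ : ℂ) • (e * y * q) + ((κ ^ 2 : ℝ) : ℂ) • (e * y * e)) := by
    rw [hv, mul_assoc q y q, hq.l]
    simp only [smul_mul_assoc, mul_smul_comm, sub_mul, mul_sub, mul_assoc]
    push_cast
    module
  have b0 : T.n1 q ≤ T.dl p n j := n1_pr hq
  have by1 : ‖y * e‖ ≤ ‖y‖ := (norm_mul_le _ _).trans (mul_le_of_le_one_right (norm_nonneg _) he.norm_le)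
  have by2 : ‖e * y‖ ≤ ‖y‖ := (norm_mul_le _ _).trans (mul_le_of_le_one_left (norm_nonneg _) he.norm_le)
  have b1 : T.n1 (q * (q * y * q)) ≤ √(T.dl p n j) * |‖T.ι (T.dev q y)‖| := by
    rw [dev, hy, zero_div, zero_smul, sub_zero, abs_norm, ← h.l2_sl]
    exact n1_mul _ _
  have b2 : T.n1 (q * (y * e)) ≤ T.dl p n j * ‖y‖ :=
    (n1_mul_r _ _).trans (mul_le_mul b0 by1 (norm_nonneg _) d0.le)
  have b3 : T.n1 (e * y * q) ≤ ‖y‖ * T.dl p n j :=
    (n1_mul_l _ _).trans (mul_le_mul by2 b0 (n1_nonneg _) (norm_nonneg _))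
  have b4 : T.n1 (e * y * e) ≤ ‖y‖ * 1 :=
    (n1_mul_l _ _).trans (mul_le_mul by2 ((n1_pr he).trans (h.te_le _)) (n1_nonneg _) (norm_nonneg _))
  have b5 := (n1_add (T := T) (q * (q * y * q) - (κ : ℂ) • (q * (y * e)) - (κ : ℂ) • (e * y * q))
    (((κ ^ 2 : ℝ) : ℂ) • (e * y * e))).trans (add_le_add_left ((n1_sub _ _).trans
      (add_le_add_left (n1_sub _ _) _)) _)
  rw [n1_smul, n1_smul, n1_smul, Complex.norm_real, Complex.norm_real, Real.norm_of_nonneg k0,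
    Real.norm_of_nonneg (sq_nonneg κ)] at b5
  rw [hx, n1_smul, Complex.norm_real, Real.norm_of_nonneg (sq_nonneg c), mul_assoc (A ^ 2),
    mul_assoc (A ^ 2), ← mul_add]
  refine mul_le_mul (pow_le_pow_left₀ c0 c1 2) (b5.trans ?_) (n1_nonneg _) (sq_nonneg A)
  have f2 := mul_le_mul k1 b2 (n1_nonneg _) (by positivity)
  have f3 := mul_le_mul k1 b3 (n1_nonneg _) (by positivity)
  have f4 := mul_le_mul (pow_le_pow_left₀ k0 k1 2) b4 (n1_nonneg _) (by positivity)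
  nlinarith

variable {N : ℕ} (hN : ∀ L' : List (R × R), L'.length < N →
  (∀ z ∈ L', z.1 ∈ T.cen (S 0) ∧ z.2 ∈ T.cen (xd_Y p)) →
    (L' ≠ [] → T.tau (pw L') = 0) ∧ ∀ x ∈ T.cen (S 0), T.tau (pw L' * x) = 0)
include hN

theorem Fl.xd_key (a : ℕ) {L : List (R × ℝ)} (hL : ∀ z ∈ L, z.1 ∈ T.cen (S 0) ∧ xd_Dy z.2)
    (hl : L.length + 1 < N) {b : R} (hb : b ∈ T.cen (S 0)) :
    Tendsto (fun n => ∑ j ∈ range (a * 2 ^ n),
      T.n1 (T.xd_v p n j * (T.xd_wd p (tm n j) L * b) * T.xd_v p n j)) atTop (𝓝 0) := by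
  obtain ⟨K, K0, hK⟩ := h.xd_wd_norm hL
  have a0 : 0 < T.te p a := tm_top 0 a ▸ h.te_pos 0 _
  refine xd_sq ((T.te p a)⁻¹ ^ 2) ((T.te p a)⁻¹ ^ 2 * (2 * (T.te p a)⁻¹ + (T.te p a)⁻¹ ^ 2) *
    (K * ‖b‖)) (fun _ _ => n1_nonneg _) (Eventually.of_forall fun n j hj => ?_)
    (h.sum_sqrt (h.ts_proc (x := fun n j => T.xd_wd p (tm n j) L * b)
      (fun n j => (h.alg _).mul (h.xd_wd_mem hL n j) (h.smono _ _ (xd_dy n j).nonneg hb.1))
      (h.xd_ac_mul (h.xd_wd_ac hL a) (h.ac_const a b) (fun _ _ => hK _) fun _ _ => le_rfl)))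
    (h.sum_sq a)
  refine (h.xd_two hj ?_).trans (add_le_add_right (mul_le_mul_of_nonneg_right
    (mul_le_mul_of_nonneg_left ((norm_mul_le _ _).trans
      (mul_le_mul_of_nonneg_right (hK _) (norm_nonneg _))) (by positivity)) (sq_nonneg _)) _)
  have h0 : ∀ z ∈ L.map fun z => (z.1, T.xd_g p z.2 (tm n j)),
      z.1 ∈ T.cen (S 0) ∧ z.2 ∈ T.cen (xd_Y p) := fun z hz => by
    obtain ⟨y, hy, rfl⟩ := List.mem_map.1 hz
    exact ⟨(hL y hy).1, h.xd_g_cen (hL y hy).2 n j⟩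
  have h1 := (hN _ (by rw [List.length_map]; omega) h0).2 b hb
  have h2 := (hN ((L.map fun z => (z.1, T.xd_g p z.2 (tm n j))) ++
    [(b, sl p n j - T.tau (sl p n j) • (1 : R))]) (by simpa using hl) (fun z hz => by
      rcases List.mem_append.1 hz with hz | hz
      · exact h0 z hz
      · rw [List.mem_singleton.1 hz]
        exact ⟨hb, sub_mem (sub_mem (xd_p_mem (xd_dy _ _)) (xd_p_mem (xd_dy _ _)))
          ((xd_Y p).smul_mem (one_mem _) _), by simp [h.one]⟩)).1 (by simp)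
  rw [pw_append, pw_cons, pw_nil, mul_one, ← mul_assoc, mul_sub, mul_smul_comm, mul_one, map_sub,
    map_smul, h1, smul_zero, sub_zero, T.tau_comm] at h2
  exact h2

theorem Fl.xd_c2 (a : ℕ) {L : List (R × ℝ)} (hL : ∀ z ∈ L, z.1 ∈ T.cen (S 0) ∧ xd_Dy z.2) :
    ∀ L0 : List (R × ℝ), (∀ z ∈ L0, z.1 ∈ T.cen (S 0) ∧ xd_Dy z.2) → L0.length + L.length < N →
    Tendsto (fun n => ∑ j ∈ range (a * 2 ^ n), T.n1 (T.xd_v p n j * (T.xd_wd p (tm n j) L0 *
      (T.xd_wd p (tm n (j + 1)) L - T.xd_wd p (tm n j) L)))) atTop (𝓝 0) := by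
  induction L with
  | nil => exact fun L0 _ _ => by simp [xd_nil, n1_zero]
  | cons z L ih =>
    intro L0 h0 hl
    have hz := hL z List.mem_cons_self
    have hL' := fun y hy => hL y (List.mem_cons_of_mem _ hy)
    obtain ⟨K, K0, hK⟩ := h.xd_wd_norm hL'
    refine xd_sq K 1 (fun _ _ => n1_nonneg _) ((xd_inc (T := T) (p := p) hz.2).mono fun n hn j _ => ?_)
      (h.xd_key hN a h0 (by simp at hl; omega) hz.1) (ih hL' (L0 ++ [z]) (fun y hy => by
        rcases List.mem_append.1 hy with hy | hy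
        · exact h0 y hy
        · rwa [List.mem_singleton.1 hy]) (by simp at hl ⊢; omega))
    obtain ⟨α, h1, h2⟩ := hn j
    rw [show T.xd_v p n j * (T.xd_wd p (tm n j) L0 *
        (T.xd_wd p (tm n (j + 1)) (z :: L) - T.xd_wd p (tm n j) (z :: L))) =
        α • (T.xd_v p n j * (T.xd_wd p (tm n j) L0 * z.1) * T.xd_v p n j *
          T.xd_wd p (tm n (j + 1)) L) + T.xd_v p n j * (T.xd_wd p (tm n j) (L0 ++ [z]) *
          (T.xd_wd p (tm n (j + 1)) L - T.xd_wd p (tm n j) L)) by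
      rw [xd_cons, xd_cons, xd_snoc, eq_add_of_sub_eq h2]
      simp only [mul_add, add_mul, mul_sub, mul_assoc, mul_smul_comm, smul_mul_assoc]
      abel, one_mul, mul_comm K]
    refine (n1_add _ _).trans (add_le_add_left ?_ _)
    rw [n1_smul]
    exact (mul_le_of_le_one_left (n1_nonneg _) h1).trans ((n1_mul_r _ _).trans
      (mul_le_mul_of_nonneg_left (hK _) (n1_nonneg _)))

theorem Fl.xd_c1 (hw : T.Wh p S) (a : ℕ) {L : List (R × ℝ)}
    (hL : ∀ z ∈ L, z.1 ∈ T.cen (S 0) ∧ xd_Dy z.2) (hl : L.length ≤ N) :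
    ∀ L0 : List (R × ℝ), (∀ z ∈ L0, z.1 ∈ T.cen (S 0) ∧ xd_Dy z.2) →
    Tendsto (fun n => ∑ j ∈ range (a * 2 ^ n), ‖T.tau (T.xd_wd p (tm n j) L0 *
      (T.xd_wd p (tm n (j + 1)) L - T.xd_wd p (tm n j) L))‖) atTop (𝓝 0) := by
  induction L with
  | nil => exact fun L0 _ => by simp [xd_nil]
  | cons z L ih =>
    intro L0 h0
    have hz := hL z List.mem_cons_self
    have hL' := fun y hy => hL y (List.mem_cons_of_mem _ hy)
    obtain ⟨K, K0, hK⟩ := h.xd_wd_norm h0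
    refine xd_sq (K * ‖z.1‖) 1 (fun _ _ => norm_nonneg _)
      ((xd_inc (T := T) (p := p) hz.2).mono fun n hn j _ => ?_)
      (h.xd_c2 hN a hL' [] (by simp) (by simpa using hl))
      (ih hL' (by simp at hl; omega) (L0 ++ [z]) fun y hy => by
        rcases List.mem_append.1 hy with hy | hy
        · exact h0 y hy
        · rwa [List.mem_singleton.1 hy])
    obtain ⟨α, h1, h2⟩ := hn j
    have h3 := h.xd_mart hw ((h.alg _).mul (h.xd_wd_mem hL' n j) ((h.alg _).mul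
      (h.xd_wd_mem h0 n j) (h.smono _ _ (xd_dy n j).nonneg hz.1.1)))
    rw [mul_assoc, T.tau_comm] at h3
    rw [show T.xd_wd p (tm n j) L0 *
        (T.xd_wd p (tm n (j + 1)) (z :: L) - T.xd_wd p (tm n j) (z :: L)) =
        α • (T.xd_wd p (tm n j) L0 * z.1 * T.xd_v p n j * T.xd_wd p (tm n j) L) +
        (α • (T.xd_wd p (tm n j) L0 * z.1 * (T.xd_v p n j *
          (T.xd_wd p (tm n (j + 1)) L - T.xd_wd p (tm n j) L))) +
          T.xd_wd p (tm n j) (L0 ++ [z]) *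
          (T.xd_wd p (tm n (j + 1)) L - T.xd_wd p (tm n j) L)) by
      rw [xd_cons, xd_cons, xd_snoc, eq_add_of_sub_eq h2]
      simp only [mul_add, add_mul, mul_sub, mul_assoc, mul_smul_comm, smul_mul_assoc, smul_sub]
      abel, map_add, map_smul, h3, smul_zero, zero_add, map_add, map_smul, xd_nil, one_mul, one_mul,
      mul_comm (K * _)]
    refine (norm_add_le _ _).trans (add_le_add_left ?_ _)
    rw [norm_smul, T.tau_comm]
    exact (mul_le_of_le_one_left (norm_nonneg _) h1).trans ((tau_le_n1 _ _).trans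
      (mul_le_mul_of_nonneg_left ((norm_mul_le _ _).trans
        (mul_le_mul_of_nonneg_right (hK _) (norm_nonneg _))) (n1_nonneg _)))

theorem Fl.xd_main (hw : T.Wh p S) (a : ℕ) {L : List (R × ℝ)}
    (hL : ∀ z ∈ L, z.1 ∈ T.cen (S 0) ∧ xd_Dy z.2) (hl : L.length ≤ N) (h0 : L ≠ []) :
    T.tau (T.xd_wd p a L) = 0 := by
  have h1 : T.xd_wd p 0 L = 0 := by
    obtain ⟨z, L, rfl⟩ := List.exists_cons_of_ne_nil h0
    rw [xd_cons, h.xd_g_zero (hL z List.mem_cons_self).2, mul_zero, zero_mul]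
  refine norm_le_zero_iff.1 (ge_of_tendsto' (h.xd_c1 hN hw a hL hl [] (by simp)) fun n => ?_)
  refine le_trans (le_of_eq ?_) (norm_sum_le _ _)
  simp only [xd_nil, one_mul]
  rw [← map_sum, sum_range_sub fun j => T.xd_wd p (tm n j) L, tm_top, tm_zero, h1, sub_zero]

end fl

theorem xd_lift {A : Set R} {L : List (R × R)}
    (hL : ∀ z ∈ L, z.1 ∈ A ∧ z.2 ∈ {x | ∃ s, xd_Dy s ∧ x = T.xd_h p s - 1}) :
    ∃ L' : List (R × ℝ), L'.length = L.length ∧ (∀ z ∈ L', z.1 ∈ A ∧ xd_Dy z.2) ∧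
      ∀ᶠ a : ℕ in atTop, T.xd_wd p a L' = pw L := by
  induction L with
  | nil => exact ⟨[], rfl, by simp, Eventually.of_forall fun _ => rfl⟩
  | cons z L ih =>
    obtain ⟨h1, s, hs, h2⟩ := hL z List.mem_cons_self
    obtain ⟨L', e1, e2, e3⟩ := ih fun y hy => hL y (List.mem_cons_of_mem _ hy)
    refine ⟨(z.1, s) :: L', by simp [e1], fun y hy => ?_, ?_⟩
    · rcases List.mem_cons.1 hy with rfl | hy
      · exact ⟨h1, hs⟩
      · exact e2 y hy
    · filter_upwards [e3, tendsto_natCast_atTop_atTop.eventually_ge_atTop s] with a ha hsa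
      rw [xd_cons, ha, pw_cons, h2, xd_g, min_eq_left hsa]

theorem Fl.xd_span (h : T.Fl p S M) {y : R} (hy : y ∈ T.cen (xd_Y p)) :
    y ∈ Submodule.span ℂ {x | ∃ s, xd_Dy s ∧ x = T.xd_h p s - 1} := by
  let E : Submonoid R :=
    { carrier := {x | ∃ u, xd_Dy u ∧ x = 1 - p u}
      mul_mem' := by
        rintro _ _ ⟨u, hu, rfl⟩ ⟨u', hu', rfl⟩
        exact ⟨_, hu.max hu', h.xd_max u u'⟩
      one_mem' := ⟨_, xd_dy 0 0, by rw [tm_zero, h.zero, sub_zero]⟩ }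
  have h1 : y ∈ Submodule.span ℂ (E : Set R) := by
    rw [← E.closure_eq, ← Algebra.adjoin_eq_span]
    exact hy.1
  have h2 : y - T.tau y • (1 : R) ∈ Submodule.span ℂ {x | ∃ s, xd_Dy s ∧ x = T.xd_h p s - 1} := by
    clear hy
    induction h1 using Submodule.span_induction with
    | mem x hx =>
      obtain ⟨u, hu, rfl⟩ := hx
      have := Submodule.smul_mem (Submodule.span ℂ {x | ∃ s, xd_Dy s ∧ x = T.xd_h p s - 1})
        ((T.te p u : ℝ) : ℂ) (Submodule.subset_span ⟨u, hu, rfl⟩)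
      rwa [smul_sub, xd_h, smul_smul, ← Complex.ofReal_mul, mul_inv_cancel₀ (h.xd_pos hu).ne',
        Complex.ofReal_one, one_smul, ← h.tau_te] at this
    | zero => simp
    | add x y _ _ hx hy =>
      rw [map_add, add_smul, add_sub_add_comm]
      exact add_mem hx hy
    | smul c x _ hx =>
      rw [map_smul, smul_assoc, ← smul_sub]
      exact Submodule.smul_mem _ c hx
  rwa [hy.2, zero_smul, sub_zero] at h2

theorem Fl.levy (h : T.Fl p S M) (hw : T.Wh p S) :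
    T.Free (S 0) (T.gen (insert 1 {x | ∃ n j, x = p (tm n j)})) := by
  let X : Subalgebra ℂ R :=
    { carrier := S 0
      mul_mem' := (h.alg 0).mul
      add_mem' := (h.alg 0).add
      algebraMap_mem' := fun c => by
        rw [Algebra.algebraMap_eq_smul_one]
        exact (h.alg 0).smul c (h.alg 0).one }
  refine (free_crit h.one X (xd_Y p) fun L h0 hL hN => ?_).mono (sub_cls (S := S 0))
    ((gen_sub_adjoin ?_).trans (cls_mono (Algebra.adjoin_le ?_)))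
  · have := xd_lin (T := T) (N := L.length) (fun L' hl hL' => ?_) L
      (fun z hz => ⟨(hL z hz).1, h.xd_span (hL z hz).2⟩) [] (by simp) (by simp)
    · simpa using this
    · obtain ⟨L'', e1, e2, e3⟩ := xd_lift hL'
      obtain ⟨a, ha⟩ := e3.exists
      rw [← ha]
      exact h.xd_main hN hw a e2 (e1.trans hl).le fun h' => h0 (by
        rw [← List.length_eq_zero_iff, ← hl, ← e1, h', List.length_nil])
  · rintro _ ⟨n, j, rfl⟩
    exact ⟨n, j, (h.pr _).st⟩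
  · rintro _ ⟨n, j, rfl⟩
    exact xd_p_mem (xd_dy n j)

end TW

end Pool.Agent.Lib.MP_263241_an
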