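import Pool.Agent.Lib.MP_263241_an.XP

/-! The laws of `κ` and `r`. -/

namespace Pool.Agent.Lib.MP_263241_an

open Filter Topology MeasureTheory Set
open scoped Real

/-- The density of `κ`. -/
noncomputable def dk (x : ℝ) : ℝ := √(3 - x ^ 2) / (π * (1 + x ^ 2))

theorem xq_cont : Continuous dk :=
  Continuous.div (by fun_prop) (by fun_prop) fun x => by positivity

theorem xq_nonneg (x : ℝ) : 0 ≤ dk x := by
  unfold dk
  positivity

theorem xq_zero {x : ℝ} (h : 3 ≤ x ^ 2) : dk x = 0 := by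
  rw [dk, Real.sqrt_eq_zero'.2 (by linarith), zero_div]

theorem xq_le_one (x : ℝ) : dk x ≤ 1 := by
  rw [dk, div_le_one (by positivity), Real.sqrt_le_left (by positivity)]
  have h1 : 2 ≤ π * (1 + x ^ 2) := by nlinarith [Real.pi_gt_three, sq_nonneg x]
  nlinarith [sq_nonneg x]

instance xq_fin : IsFiniteMeasure (volume.withDensity fun x => ENNReal.ofReal (dk x)) :=
  isFiniteMeasure_withDensity_ofReal (xq_cont.integrable_of_hasCompactSupport
    (HasCompactSupport.intro (isCompact_Icc (a := -2) (b := 2)) fun x hx => xq_zero (by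
      rw [mem_Icc, not_and_or, not_le, not_le] at hx
      rcases hx with h | h <;> nlinarith))).2

theorem xq_meas : Measurable fun x => ENNReal.ofReal (dk x) := xq_cont.measurable.ennreal_ofReal

theorem xq_ae : ∀ᵐ x ∂(volume.withDensity fun x => ENNReal.ofReal (dk x)), x ^ 2 ≤ 3 :=
  (ae_withDensity_iff xq_meas).2 (ae_of_all _ fun x hx => by
    by_contra h
    exact hx (by rw [xq_zero (not_le.1 h).le, ENNReal.ofReal_zero]))

/-- The imaginary part of a square root of `z ^ 2 - 3`. -/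
theorem xq_b {a b x e : ℝ} (h1 : a ^ 2 - b ^ 2 = x ^ 2 - e ^ 2 - 3) (h2 : a * b = x * e) :
    |(|b| - √(3 - x ^ 2))| ≤ √(|x * e| + e ^ 2) := by
  have h3 : (a * b) ^ 2 = |x * e| ^ 2 := by rw [h2, sq_abs]
  have h4 : ∀ m, 0 ≤ m → b ^ 2 - a ^ 2 ≤ m → m ≤ b ^ 2 → b ^ 2 - m ≤ |x * e| := fun m m0 m1 m2 =>
    (pow_le_pow_iff_left₀ (by linarith) (abs_nonneg _) two_ne_zero).1 (by
      rw [← h3, mul_pow, pow_two]
      exact mul_le_mul (by linarith) (by linarith) (by linarith) (sq_nonneg a))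
  have h5 : √(3 - x ^ 2) ^ 2 = max (3 - x ^ 2) 0 := Real.sq_sqrt'
  have h6 : 0 ≤ √(3 - x ^ 2) := Real.sqrt_nonneg _
  have h7 := sq_abs b
  have h8 := abs_nonneg b
  have h9 := abs_nonneg (x * e)
  have k1 : b ^ 2 - √(3 - x ^ 2) ^ 2 ≤ |x * e| + e ^ 2 := by
    have := le_max_left (3 - x ^ 2) 0
    have := le_max_right (3 - x ^ 2) 0
    rcases le_total 0 (b ^ 2 - a ^ 2) with h | h
    · have := h4 _ h le_rfl (by nlinarith [sq_nonneg a])
      linarith
    · have := h4 0 le_rfl h (sq_nonneg b)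
      nlinarith [sq_nonneg e]
  have k2 : √(3 - x ^ 2) ^ 2 ≤ b ^ 2 := by
    rw [h5]
    exact max_le (by nlinarith [sq_nonneg a, sq_nonneg e]) (sq_nonneg b)
  refine Real.abs_le_sqrt ?_
  have k3 : √(3 - x ^ 2) ≤ |b| := (pow_le_pow_iff_left₀ h6 h8 two_ne_zero).1 (by rwa [h7])
  nlinarith

/-- The imaginary part of a solution of the quadratic equation near the real axis. -/
theorem xq_est {x e L : ℝ} {G : ℂ} (hx : |x| ≤ L) (he : 0 < e) (he1 : e ≤ 1 / 2) (hG : G.im ≤ 0)
    (h : (1 + (x + e * Complex.I) ^ 2) * G ^ 2 - 4 * (x + e * Complex.I) * G + 3 = 0) :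
    |-G.im - π * dk x| ≤ e * ((4 * L + 7) * (1 + 2 * L) + 2) + √(L * e + e ^ 2) := by
  obtain ⟨z, hz⟩ : ∃ z : ℂ, z = x + e * Complex.I := ⟨_, rfl⟩
  have z1 : z.re = x := by simp [hz]
  have z2 : z.im = e := by simp [hz]
  rw [← hz] at h
  obtain ⟨W, hW⟩ : ∃ W : ℂ, W = (1 + z ^ 2) * G - 2 * z := ⟨_, rfl⟩
  have w : W ^ 2 = z ^ 2 - 3 := by
    rw [hW]
    linear_combination (1 + z ^ 2) * h
  have hL : 0 ≤ L := (abs_nonneg x).trans hx
  have n1 : ‖z‖ ≤ L + 1 := (Complex.norm_le_abs_re_add_abs_im z).trans (by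
    rw [z1, z2, abs_of_pos he]
    linarith)
  have n2 : ‖W‖ ≤ L + 3 := by
    refine (pow_le_pow_iff_left₀ (norm_nonneg _) (by linarith) two_ne_zero).1 ?_
    rw [← norm_pow, w]
    refine (norm_sub_le _ _).trans ?_
    rw [norm_pow, Complex.norm_ofNat]
    nlinarith [norm_nonneg z]
  have n3 : 3 / 4 ≤ ‖1 + z ^ 2‖ := le_trans (by
    simp only [Complex.add_re, Complex.one_re, pow_two, Complex.mul_re, z1, z2]
    nlinarith [mul_self_nonneg x]) (Complex.re_le_norm _)
  have n4 : ‖G‖ ≤ 4 * L + 7 := by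
    have e1 : ‖1 + z ^ 2‖ * ‖G‖ ≤ ‖W‖ + 2 * ‖z‖ := by
      rw [← norm_mul, show (1 + z ^ 2) * G = W + 2 * z by rw [hW]; ring]
      exact (norm_add_le _ _).trans (by rw [norm_mul, Complex.norm_ofNat])
    nlinarith [norm_nonneg G]
  have g1 := (Complex.abs_re_le_norm G).trans n4
  have g2 := (Complex.abs_im_le_norm G).trans n4
  have b1 := xq_b (a := W.re) (b := W.im) (x := x) (e := e)
    (by
      have := congrArg Complex.re w
      simp only [pow_two, Complex.mul_re, Complex.sub_re, Complex.re_ofNat, z1, z2] at this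
      linarith)
    (by
      have := congrArg Complex.im w
      simp only [pow_two, Complex.mul_im, Complex.sub_im, Complex.im_ofNat, z1, z2] at this
      linarith)
  have b2 : √(|x * e| + e ^ 2) ≤ √(L * e + e ^ 2) := Real.sqrt_le_sqrt (by
    rw [abs_mul, abs_of_pos he]
    nlinarith)
  have b3 : (1 + x ^ 2) * -G.im - -W.im = e * (-(e * G.im) + 2 * (x * G.re) - 2) := by
    rw [hW]
    simp only [pow_two, Complex.mul_im, Complex.sub_im, Complex.add_im, Complex.add_re,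
      Complex.mul_re, Complex.one_re, Complex.one_im, Complex.re_ofNat, Complex.im_ofNat, z1, z2]
    ring
  have b4 : |(1 + x ^ 2) * -G.im - -W.im| ≤ e * ((4 * L + 7) * (1 + 2 * L) + 2) := by
    rw [b3, abs_mul, abs_of_pos he]
    refine mul_le_mul_of_nonneg_left ?_ he.le
    have c1 : |e * G.im| ≤ 1 * (4 * L + 7) := by
      rw [abs_mul, abs_of_pos he]
      exact mul_le_mul (by linarith) g2 (abs_nonneg _) zero_le_one
    have c2 : |x * G.re| ≤ L * (4 * L + 7) := by
      rw [abs_mul]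
      exact mul_le_mul hx g1 (abs_nonneg _) hL
    rw [abs_le] at c1 c2 ⊢
    constructor <;> nlinarith
  have b5 := (abs_abs_sub_abs_le_abs_sub _ _).trans b4
  rw [abs_neg, abs_of_nonneg (a := (1 + x ^ 2) * -G.im) (by nlinarith [sq_nonneg x])] at b5
  have b6 : -G.im - π * dk x = ((1 + x ^ 2) * -G.im - √(3 - x ^ 2)) / (1 + x ^ 2) := by
    rw [dk]
    field_simp
  rw [b6, abs_div, abs_of_pos (a := 1 + x ^ 2) (by positivity)]
  refine (div_le_self (abs_nonneg _) (by nlinarith [sq_nonneg x])).trans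
    ((abs_sub_le _ |W.im| _).trans (add_le_add b5 (b1.trans b2)))

theorem law_kappa {μ : Measure ℝ} [IsFiniteMeasure μ] {K : ℝ} (s : ∀ᵐ l ∂μ, |l| ≤ K)
    (h : ∀ z : ℂ, 0 < z.im → (1 + z ^ 2) * (∫ l, (z - l)⁻¹ ∂μ) ^ 2 -
      4 * z * (∫ l, (z - l)⁻¹ ∂μ) + 3 = 0) :
    μ = volume.withDensity fun x => ENNReal.ofReal (dk x) := by
  refine ext_of_forall_integral_eq_of_IsFiniteMeasure fun f => ?_
  obtain ⟨L, hL⟩ : ∃ L, L = |K| + 3 := ⟨_, rfl⟩
  have hχ : ∀ x, |x| ≤ |K| + 2 → max 0 (min 1 (L - |x|)) = 1 := fun x hx => by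
    rw [min_eq_left (by linarith), max_eq_right zero_le_one]
  have key := poisson (ν₁ := μ) (ν₂ := 0) (α := -L) (β := L) (K := K)
    (g := fun x => f x * max 0 (min 1 (L - |x|))) (φ := fun _ => 0) (p := fun x => π * dk x)
    (ρ := fun _ => 1) (by fun_prop) continuous_const (continuous_const.mul xq_cont) continuous_const
    (fun x hx => by
      rw [mem_Icc, ← abs_le, not_le] at hx
      rw [max_eq_left ((min_le_right _ _).trans (by linarith)), mul_zero])
    s (by simp) fun d hd => by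
      have c : ContinuousAt
          (fun e : ℝ => e * ((4 * L + 7) * (1 + 2 * L) + 2) + √(L * e + e ^ 2)) 0 := by fun_prop
      obtain ⟨δ, hδ, H⟩ := Metric.eventually_nhds_iff.1 (c.eventually (gt_mem_nhds (a := d)
        (by simpa using hd)))
      refine ⟨min (δ / 2) (1 / 2), by positivity, fun e he he' x hx => ?_⟩
      have hz : 0 < ((x : ℂ) + e * Complex.I).im := by simpa using he
      have e1 := po_im s (ρ := fun _ => 1) continuous_const hz
      simp only [Complex.ofReal_one, one_div] at e1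
      rw [show ((x : ℂ) + e * Complex.I).im = e by simp,
        show ((x : ℂ) + e * Complex.I).re = x by simp] at e1
      have e2 := xq_est (abs_le.2 hx) he (he'.trans (min_le_right _ _)) (by
        rw [e1, neg_nonpos]
        exact integral_nonneg fun l => by positivity) (h _ hz)
      rw [e1, neg_neg] at e2
      have e3 := H (y := e) (by
        rw [Real.dist_eq, sub_zero, abs_of_pos he]
        linarith [he'.trans (min_le_left _ _)])
      simpa [Po] using e2.trans e3.le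
  rw [integral_zero_measure, mul_zero, zero_add,
    integral_congr_ae (g := fun l => f l) (s.mono fun l hl => by
      simp only [hχ l (by linarith [le_abs_self K]), mul_one])] at key
  rw [integral_withDensity_eq_integral_toReal_smul xq_meas (by simp)]
  refine mul_left_cancel₀ Real.pi_ne_zero (key.trans ?_)
  rw [← integral_const_mul]
  refine integral_congr_ae (ae_of_all _ fun x => ?_)
  simp only [ENNReal.toReal_ofReal (xq_nonneg x), smul_eq_mul]
  rcases le_total |x| 2 with hx | hx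
  · rw [hχ x (by linarith [abs_nonneg K])]
    ring
  · rw [xq_zero (by nlinarith [sq_abs x])]
    ring

theorem xq_low {l c x : ℝ} (h1 : 1 / 4 ≤ l) (h2 : 0 ≤ c) (h3 : l + c ≤ 1)
    (hx : x ∈ Icc √((l + c)⁻¹ - 1) (√((l + c)⁻¹ - 1) + c / 8)) :
    (1 + x ^ 2)⁻¹ ∈ Icc l (l + c) ∧ √c / (8 * π) ≤ dk x := by
  have hl : 0 < l := by linarith
  have hlc : 0 < l + c := by linarith
  have a0 : 1 ≤ (l + c)⁻¹ := (one_le_inv₀ hlc).2 h3
  have a1 : l⁻¹ ≤ 4 := by
    rw [inv_le_comm₀ hl (by norm_num)]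
    linarith
  have a2 : (l + c)⁻¹ + c ≤ l⁻¹ := by
    have e : l⁻¹ - (l + c)⁻¹ = c * (l⁻¹ * (l + c)⁻¹) := by
      field_simp
      ring
    have : 1 ≤ l⁻¹ := (one_le_inv₀ hl).2 (by linarith)
    nlinarith [mul_le_mul this a0 zero_le_one (by linarith)]
  have a3 := Real.sq_sqrt (show 0 ≤ (l + c)⁻¹ - 1 by linarith)
  have a4 := Real.sqrt_nonneg ((l + c)⁻¹ - 1)
  generalize √((l + c)⁻¹ - 1) = y at hx a3 a4
  have a5 : y ≤ 7 / 4 := by nlinarith
  have a6 : y ^ 2 ≤ x ^ 2 := pow_le_pow_left₀ a4 hx.1 2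
  have a7 : x ^ 2 ≤ (y + c / 8) ^ 2 := pow_le_pow_left₀ (a4.trans hx.1) hx.2 2
  have a8 : x ^ 2 ≤ l⁻¹ - 1 - c / 2 := by nlinarith
  refine ⟨⟨?_, ?_⟩, ?_⟩
  · rw [le_inv_comm₀ hl (by positivity)]
    linarith
  · rw [inv_le_comm₀ (by positivity) hlc]
    linarith
  · have b : √c ≤ 2 * √(3 - x ^ 2) := by
      rw [Real.sqrt_le_left (by positivity), mul_pow, Real.sq_sqrt (by linarith)]
      linarith
    rw [dk, div_le_div_iff₀ (by positivity) (by positivity)]
    have b2 : π * (1 + x ^ 2) ≤ π * 4 := mul_le_mul_of_nonneg_left (by linarith) Real.pi_pos.le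
    nlinarith [mul_le_mul b b2 (by positivity) (by positivity)]

theorem xq_diam {l d x y : ℝ} (hx : (1 + x ^ 2)⁻¹ ∈ Icc (l - d) (l + d))
    (hy : (1 + y ^ 2)⁻¹ ∈ Icc (l - d) (l + d)) (x3 : x ^ 2 ≤ 3) (y3 : y ^ 2 ≤ 3) (h : 0 ≤ x * y) :
    dist x y ≤ 6 * √d := by
  have hd : 0 ≤ d := by linarith [hx.1, hx.2]
  have key : ∀ u v : ℝ, (1 + u ^ 2)⁻¹ - (1 + v ^ 2)⁻¹ ≤ 2 * d → u ^ 2 ≤ 3 → v ^ 2 ≤ 3 →
      v ^ 2 - u ^ 2 ≤ 32 * d := fun u v a b c => by
    have e : v ^ 2 - u ^ 2 = ((1 + u ^ 2)⁻¹ - (1 + v ^ 2)⁻¹) * ((1 + u ^ 2) * (1 + v ^ 2)) := by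
      field_simp
      ring
    have e2 : (1 + u ^ 2) * (1 + v ^ 2) ≤ 4 * 4 :=
      mul_le_mul (by linarith) (by linarith) (by positivity) (by norm_num)
    have e3 := mul_le_mul_of_nonneg_right a (show 0 ≤ (1 + u ^ 2) * (1 + v ^ 2) by positivity)
    nlinarith
  have k1 := key x y (by linarith [hx.2, hy.1]) x3 y3
  have k2 := key y x (by linarith [hx.1, hy.2]) y3 x3
  rw [Real.dist_eq]
  refine abs_le_of_sq_le_sq ?_ (by positivity)
  rw [mul_pow, Real.sq_sqrt hd]
  rcases le_total (x ^ 2) (x * y) with a | a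
  · nlinarith
  · rcases le_total (y ^ 2) (x * y) with b | b
    · nlinarith
    · nlinarith [sq_nonneg (x - y), mul_nonneg (sub_nonneg.2 a) (sub_nonneg.2 b),
        mul_nonneg h (sq_nonneg (x - y))]

theorem law_r {ν : Measure ℝ} [IsFiniteMeasure ν]
    (h : ∀ g : ℝ → ℂ, Continuous g → ∫ l, g l ∂ν =
      ∫ x, g (1 + x ^ 2)⁻¹ ∂(volume.withDensity fun x => ENNReal.ofReal (dk x))) :
    (∀ᵐ l ∂ν, l ∈ Icc (1 / 4 : ℝ) 1) ∧
      (∀ l c, 1 / 4 ≤ l → 0 ≤ c → l + c ≤ 1 → c * √c / 300 ≤ ν.real (Icc l (l + c))) ∧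
      ∀ l d, 0 ≤ d → ν.real (Icc (l - d) (l + d)) ≤ 12 * √d := by
  have hm : Measurable fun x : ℝ => (1 + x ^ 2)⁻¹ := by fun_prop
  have e : ν = (volume.withDensity fun x => ENNReal.ofReal (dk x)).map fun x => (1 + x ^ 2)⁻¹ := by
    refine ext_of_forall_integral_eq_of_IsFiniteMeasure fun f => ?_
    have := h (fun l => (f l : ℂ)) (by fun_prop)
    rw [integral_complex_ofReal, integral_complex_ofReal] at this
    rw [integral_map hm.aemeasurable f.continuous.aestronglyMeasurable]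
    exact_mod_cast this
  refine ⟨?_, fun l c h1 h2 h3 => ?_, fun l d hd => ?_⟩
  · rw [e]
    refine (ae_map_iff hm.aemeasurable measurableSet_Icc).2 (xq_ae.mono fun x hx =>
      ⟨?_, inv_le_one_of_one_le₀ (by nlinarith [sq_nonneg x])⟩)
    rw [one_div]
    exact inv_anti₀ (by positivity) (by linarith)
  · rw [Measure.real, ← ENNReal.ofReal_le_iff_le_toReal (measure_ne_top _ _), e,
      Measure.map_apply hm measurableSet_Icc]
    refine le_trans ?_ (measure_mono fun x hx => (xq_low h1 h2 h3 hx).1)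
    rw [withDensity_apply _ measurableSet_Icc]
    refine le_trans ?_ (setLIntegral_mono xq_meas fun x hx =>
      ENNReal.ofReal_le_ofReal (xq_low h1 h2 h3 hx).2)
    rw [setLIntegral_const, Real.volume_Icc, add_sub_cancel_left,
      ← ENNReal.ofReal_mul (by positivity)]
    refine ENNReal.ofReal_le_ofReal ?_
    rw [div_mul_div_comm, mul_comm c]
    exact div_le_div_of_nonneg_left (by positivity) (by positivity) (by linarith [Real.pi_le_four])
  · refine ENNReal.toReal_le_of_le_ofReal (by positivity) ?_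
    rw [e, Measure.map_apply hm measurableSet_Icc]
    have hle : (volume.withDensity fun x => ENNReal.ofReal (dk x)) ≤ volume :=
      (withDensity_mono (g := 1) (ae_of_all _ fun x =>
        ENNReal.ofReal_le_one.2 (xq_le_one x))).trans_eq withDensity_one
    refine (measure_mono_ae (t := {x | (1 + x ^ 2)⁻¹ ∈ Icc (l - d) (l + d) ∧ x ^ 2 ≤ 3 ∧ 0 ≤ x} ∪
      {x | (1 + x ^ 2)⁻¹ ∈ Icc (l - d) (l + d) ∧ x ^ 2 ≤ 3 ∧ x ≤ 0})
      (xq_ae.mono fun x hx hx' => (le_total 0 x).imp (fun a => ⟨hx', hx, a⟩)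
        fun a => ⟨hx', hx, a⟩)).trans ((hle _).trans ((measure_union_le _ _).trans ?_))
    rw [show 12 * √d = 6 * √d + 6 * √d by ring, ENNReal.ofReal_add (by positivity) (by positivity)]
    exact add_le_add ((Real.volume_le_diam _).trans (Metric.ediam_le_of_forall_dist_le
      fun x hx y hy => xq_diam hx.1 hy.1 hx.2.1 hy.2.1 (mul_nonneg hx.2.2 hy.2.2)))
      ((Real.volume_le_diam _).trans (Metric.ediam_le_of_forall_dist_le fun x hx y hy =>
        xq_diam hx.1 hy.1 hx.2.1 hy.2.1 (mul_nonneg_of_nonpos_of_nonpos hx.2.2 hy.2.2)))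

end Pool.Agent.Lib.MP_263241_an
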