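import Pool.Agent.Lib.MP_263241_an.XB
import Pool.Agent.Lib.MP_263241_an.XQ

/-! Consequences of the equation for `κ`. -/

namespace Pool.Agent.Lib.MP_263241_an

open TrivSqZeroExt MeasureTheory Set

variable {R H : Type*} [CStarAlgebra R] [NormedAddCommGroup H] [InnerProductSpace ℂ H]

/-- The commutator form. -/
noncomputable def xe_D (κ : R) (p : DA R) (x z : R) : ℂ :=
  p.snd.ev (κ * x) z - p.snd.ev x (z * κ)

theorem xe_D_mul (κ : R) (p q : DA R) (x z : R) :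
    xe_D κ (p * q) x z = xe_D κ p x (q.fst * z) + xe_D κ q (x * p.fst) z := by
  simp only [xe_D, DA.snd_mul, mul_assoc]
  ring

theorem xe_D_inl (κ c x z : R) : xe_D κ (inl c : DA R) x z = 0 := by
  simp [xe_D]

theorem xe_f : Continuous fun t : ℝ => (1 + t ^ 2)⁻¹ :=
  Continuous.inv₀ (by fun_prop) fun t => by positivity

theorem xe_fc : Continuous fun t : ℝ => (((1 + t ^ 2)⁻¹ : ℝ) : ℂ) :=
  Complex.continuous_ofReal.comp xe_f

theorem xe_c1 : Continuous fun t : ℝ => (t : ℂ) * (((1 + t ^ 2)⁻¹ : ℝ) : ℂ) :=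
  Complex.continuous_ofReal.mul xe_fc

theorem xe_inl_mem {S : Set (DA R)} {u c : R} (hS : (inl u : DA R) ∈ S)
    (hc : c ∈ Algebra.adjoin ℂ ({u} : Set R)) : (inl c : DA R) ∈ Algebra.adjoin ℂ S := by
  induction hc using Algebra.adjoin_induction with
  | mem x hx => rw [mem_singleton_iff.1 hx]; exact Algebra.subset_adjoin hS
  | algebraMap a =>
    rw [← TrivSqZeroExt.algebraMap_eq_inl']; exact Subalgebra.algebraMap_mem _ _
  | add x y _ _ hx hy => rw [inl_add]; exact Subalgebra.add_mem _ hx hy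
  | mul x y _ _ hx hy => rw [inl_mul]; exact Subalgebra.mul_mem _ hx hy

namespace TW

theorem xe_lift {T : TW R H} {S : Set (DA R)} {κ g : R} (hS : T.lt κ 1 1 ∈ S)
    (hg : g ∈ Algebra.adjoin ℂ ({κ} : Set R)) :
    ∃ p ∈ Algebra.adjoin ℂ S, p.fst = g ∧
      ∀ x z, xe_D κ p x z = T.tau (x * g) * T.tau z - T.tau x * T.tau (g * z) := by
  induction hg using Algebra.adjoin_induction with
  | mem x hx =>
    rw [mem_singleton_iff.1 hx]
    refine ⟨_, Algebra.subset_adjoin hS, rfl, fun x z => ?_⟩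
    simp only [xe_D, lt_snd, bil_ev, mul_one, one_mul]
    rw [T.tau_comm κ x, T.tau_comm z κ]
  | algebraMap a =>
    refine ⟨_, Subalgebra.algebraMap_mem _ a, ?_, fun x z => ?_⟩
    · rw [TrivSqZeroExt.algebraMap_eq_inl', fst_inl]
    · rw [TrivSqZeroExt.algebraMap_eq_inl', xe_D_inl, Algebra.algebraMap_eq_smul_one]
      simp only [mul_smul_comm, smul_mul_assoc, mul_one, one_mul, map_smul, smul_eq_mul]
      ring
  | add x y _ _ hx hy =>
    obtain ⟨p, hp, p1, p2⟩ := hx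
    obtain ⟨q, hq, q1, q2⟩ := hy
    refine ⟨p + q, Subalgebra.add_mem _ hp hq, by rw [fst_add, p1, q1], fun a b => ?_⟩
    have e : xe_D κ (p + q) a b = xe_D κ p a b + xe_D κ q a b := by
      simp only [xe_D, snd_add, Bf.ev_add, LinearMap.add_apply]
      ring
    rw [e, p2, q2, mul_add, add_mul, map_add, map_add]
    ring
  | mul x y _ _ hx hy =>
    obtain ⟨p, hp, p1, p2⟩ := hx
    obtain ⟨q, hq, q1, q2⟩ := hy
    refine ⟨p * q, Subalgebra.mul_mem _ hp hq, by rw [fst_mul, p1, q1], fun a b => ?_⟩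
    rw [xe_D_mul, p2, q2, p1, q1]
    simp only [mul_assoc]
    ring

/-- After a non-empty beginning every term vanishes. -/
theorem xe_tail {T : TW R H} {S : Set (DA R)} {κ u : R} (hS : T.lt κ 1 1 ∈ S)
    (hS' : (inl u : DA R) ∈ S) {n : ℕ}
    (ih : ∀ L' : List (R × R), L'.length < n →
      (∀ z ∈ L', z.1 ∈ T.cen (Algebra.adjoin ℂ ({κ} : Set R)) ∧
        z.2 ∈ T.cen (Algebra.adjoin ℂ ({u} : Set R))) →
      (L' ≠ [] → T.tau (pw L') = 0) ∧
        ∀ x ∈ T.cen (Algebra.adjoin ℂ ({κ} : Set R)), T.tau (pw L' * x) = 0)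
    (L : List (R × R)) (hL : ∀ z ∈ L, z.1 ∈ T.cen (Algebra.adjoin ℂ ({κ} : Set R)) ∧
        z.2 ∈ T.cen (Algebra.adjoin ℂ ({u} : Set R))) :
    ∀ L0 : List (R × R), L0 ≠ [] → L0.length + L.length ≤ n →
      (∀ z ∈ L0, z.1 ∈ T.cen (Algebra.adjoin ℂ ({κ} : Set R)) ∧
        z.2 ∈ T.cen (Algebra.adjoin ℂ ({u} : Set R))) →
      ∃ p ∈ Algebra.adjoin ℂ S, p.fst = pw L ∧ xe_D κ p (pw L0) 1 = 0 := by
  induction L with
  | nil =>
    exact fun L0 _ _ _ => ⟨1, Subalgebra.one_mem _, rfl, by rw [← inl_one]; exact xe_D_inl _ _ _ _⟩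
  | cons w L ihL =>
    intro L0 h0 hn hL0
    have hw := hL w (by simp)
    rw [List.length_cons] at hn
    obtain ⟨q, hq, q1, q2⟩ := ihL (fun z hz => hL z (by simp [hz])) (L0 ++ [w]) (by simp)
      (by simp; omega) (by
        intro z hz
        rcases List.mem_append.1 hz with hz | hz
        · exact hL0 z hz
        · rw [List.mem_singleton.1 hz]; exact hw)
    obtain ⟨p, hp, p1, p2⟩ := xe_lift hS hw.1.1
    obtain ⟨i1, i2⟩ := ih L0 (by omega) hL0
    refine ⟨p * inl w.2 * q, Subalgebra.mul_mem _ (Subalgebra.mul_mem _ hp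
      (xe_inl_mem hS' hw.2.1)) hq, by rw [fst_mul, fst_mul, p1, q1, fst_inl, pw_cons], ?_⟩
    rw [pw_append, pw_cons, pw_nil, mul_one] at q2
    rw [xe_D_mul, xe_D_mul, xe_D_inl, p2, fst_mul, p1, fst_inl, q2, i1 h0, i2 _ hw.1]
    ring

variable {T : TW R H} {κ r u : R} (h1 : T.tau 1 = 1) (hκ : star κ = κ) (hu : star u = u)
  (hr : r = Ph 1 κ fun t => (((1 + t ^ 2)⁻¹ : ℝ) : ℂ))
  (h : ∀ z ∈ Algebra.adjoin ℂ ({T.lt κ 1 1, inl u} : Set (DA R)),
    z.snd.ev 1 1 = T.tau ((4 : ℂ) • (κ * r) * z.fst))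

include hκ hr in
theorem xe_comm : κ * r = r * κ := by
  rw [hr]
  exact (sa_one hκ).ph_comm rfl (by simp) _

include hκ hr in
theorem xe_kr : κ * r = Ph 1 κ fun t => (t : ℂ) * (((1 + t ^ 2)⁻¹ : ℝ) : ℂ) := by
  rw [(sa_one hκ).ph_mul Complex.continuous_ofReal xe_fc, (sa_one hκ).ph_id, ← hr]

include hκ hr in
theorem xe_krk : κ * r * κ = 1 - r := by
  have s := sa_one hκ
  have e : (Ph 1 κ fun t => (t : ℂ) * (((1 + t ^ 2)⁻¹ : ℝ) : ℂ) * (t : ℂ)) =
      Ph 1 κ fun t => 1 - (((1 + t ^ 2)⁻¹ : ℝ) : ℂ) := by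
    refine s.ph_congr fun t _ => ?_
    have : (1 + t ^ 2 : ℝ) ≠ 0 := by positivity
    norm_cast
    field_simp
    ring
  rwa [s.ph_mul xe_c1 Complex.continuous_ofReal, s.ph_id,
    ← xe_kr hκ hr, SA.ph_sub continuous_const xe_fc, s.ph_const, one_smul, ← hr] at e

include hκ hr h in
theorem xe_D0 {p : DA R} (hp : p ∈ Algebra.adjoin ℂ ({T.lt κ 1 1, inl u} : Set (DA R))) :
    xe_D κ p 1 1 = 0 := by
  have hk : T.lt κ 1 1 ∈ Algebra.adjoin ℂ ({T.lt κ 1 1, inl u} : Set (DA R)) :=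
    Algebra.subset_adjoin (by simp)
  have a := h _ (Subalgebra.mul_mem _ hk hp)
  have b := h _ (Subalgebra.mul_mem _ hp hk)
  simp only [DA.snd_mul, lt_snd, lt_fst, bil_ev, mul_one, one_mul, fst_mul, smul_mul_assoc,
    map_smul] at a b
  have e : T.tau (κ * r * (p.fst * κ)) = T.tau (κ * r * (κ * p.fst)) := by
    rw [← mul_assoc, T.tau_comm, ← mul_assoc, ← mul_assoc (κ * r), mul_assoc κ r κ,
      ← xe_comm hκ hr]
  rw [e, ← a] at b
  simp only [xe_D, mul_one, one_mul]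
  linear_combination -b

include h1 hκ hu hr h

theorem sdk_free : T.Free (T.gen {1, κ}) (T.gen {1, u}) := by
  refine (free_crit h1 (Algebra.adjoin ℂ {κ}) (Algebra.adjoin ℂ {u}) ?_).mono
    (gen_sub_adjoin (by simp [hκ])) (gen_sub_adjoin (by simp [hu]))
  intro L h0 hL ih
  obtain ⟨w, L, rfl⟩ := List.exists_cons_of_ne_nil h0
  have hw := hL w (by simp)
  obtain ⟨q, hq, q1, q2⟩ := xe_tail (S := {T.lt κ 1 1, inl u}) (by simp) (by simp) ih L
    (fun z hz => hL z (by simp [hz])) [w] (by simp) (by simp; omega) (by simpa using hw)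
  obtain ⟨p, hp, p1, p2⟩ := xe_lift (T := T) (S := {T.lt κ 1 1, inl u}) (by simp) hw.1.1
  have e := xe_D0 hκ hr h (Subalgebra.mul_mem _ (Subalgebra.mul_mem _ hp
    (xe_inl_mem (by simp) hw.2.1)) hq)
  rw [pw_cons, pw_nil, mul_one] at q2
  rw [xe_D_mul, xe_D_mul, xe_D_inl, p2, fst_mul, p1, fst_inl, one_mul, one_mul, q2, q1, hw.1.2, h1,
    mul_one, ← mul_assoc] at e
  rw [pw_cons]
  linear_combination -e

theorem sdk_r : T.tau r = 3 / 4 := by
  have a := h _ (Algebra.subset_adjoin (mem_insert _ _))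
  rw [lt_snd, lt_fst, bil_ev, mul_one, h1, smul_mul_assoc, xe_krk hκ hr, map_smul, map_sub, h1,
    smul_eq_mul] at a
  linear_combination a / 4

theorem sdk_law {μ : Measure ℝ} (hμ : T.SM 1 κ μ) :
    μ = volume.withDensity fun x => ENNReal.ofReal (dk x) := by
  have := hμ.fin
  have s := sa_one hκ
  have h0 : T.tau (κ * r) = 0 := by
    have a := h 1 (Subalgebra.one_mem _)
    rw [snd_one, fst_one, mul_one, map_smul, smul_eq_mul] at a
    have a' : (0 : ℂ) = 4 * T.tau (κ * r) := a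
    linear_combination -a' / 4
  obtain ⟨G, hG, hI, hE⟩ := exists_world (T := T) (L := {T.lt κ 1 1, inl u}) (by
    rintro z (rfl | rfl)
    exacts [bdF_lt _ _ _, bdF_inl _]) (I := {(1, 1, (4 : ℂ) • (κ * r))}) (by
    rintro i rfl
    exact h)
  refine law_kappa (K := ‖κ‖) (hμ.supp.mono fun t ht => SA.spec_le ht) fun z hz => ?_
  have hne : ∀ t : ℝ, z - t ≠ 0 := fun t ht => by
    have := congrArg Complex.im ht
    simp at this
    exact hz.ne' this
  have hg : Continuous fun t : ℝ => (z - t)⁻¹ := Continuous.inv₀ (by fun_prop) hne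
  have hk : T.lt κ 1 1 ∈ G := hG (mem_insert _ _)
  have hf : ∀ c : ℂ, (algebraMap ℂ (DA R) c - T.lt κ 1 1).fst = c • (1 : R) - κ := fun c => by
    rw [fst_sub, TrivSqZeroExt.algebraMap_eq_inl', fst_inl, lt_fst,
      Algebra.algebraMap_eq_smul_one]
  have hp : z • (1 : R) - κ = Ph 1 κ fun t => z - t := by
    rw [SA.ph_sub continuous_const Complex.continuous_ofReal, s.ph_const, s.ph_id]
  obtain ⟨y, hy, y1, y2⟩ := hI _ (G.sub_mem (G.algebraMap_mem z) hk) _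
    (G.sub_mem (G.algebraMap_mem (star z)) hk)
    (by rw [hf, hf, star_sub, star_smul, star_one, hκ]) (Ph 1 κ fun t => (z - t)⁻¹)
    (by
      rw [hf, hp, ← s.ph_mul hg (by fun_prop), s.ph_congr fun t _ => inv_mul_cancel₀ (hne t),
        s.ph_const, one_smul])
    (by
      rw [hf, hp, ← s.ph_mul (by fun_prop) hg, s.ph_congr fun t _ => mul_inv_cancel₀ (hne t),
        s.ph_const, one_smul])
  have a := hE _ rfl y hy
  rw [y2, y1, snd_sub, TrivSqZeroExt.algebraMap_eq_inl', snd_inl, zero_sub] at a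
  simp only [Bf.ev_neg, LinearMap.neg_apply, neg_neg, lt_snd, bil_ev, mul_one, one_mul,
    smul_mul_assoc, map_smul, smul_eq_mul] at a
  have c1 := xe_c1
  have c2 : Continuous fun t : ℝ => (t : ℂ) * (((1 + t ^ 2)⁻¹ : ℝ) : ℂ) * (z - t)⁻¹ := c1.mul hg
  have c3 : Continuous fun t : ℝ => z * (z - t)⁻¹ := continuous_const.mul hg
  have c4 : Continuous fun t : ℝ => z * ((t : ℂ) * (((1 + t ^ 2)⁻¹ : ℝ) : ℂ)) :=
    continuous_const.mul c1
  have c5 : Continuous fun t : ℝ => z * (z - t)⁻¹ + z * ((t : ℂ) * (((1 + t ^ 2)⁻¹ : ℝ) : ℂ)) :=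
    c3.add c4
  have e : (Ph 1 κ fun t => (1 + z ^ 2) * ((t : ℂ) * (((1 + t ^ 2)⁻¹ : ℝ) : ℂ) * (z - t)⁻¹)) =
      Ph 1 κ fun t => z * (z - t)⁻¹ + z * ((t : ℂ) * (((1 + t ^ 2)⁻¹ : ℝ) : ℂ)) -
        (((1 + t ^ 2)⁻¹ : ℝ) : ℂ) := by
    refine s.ph_congr fun t _ => ?_
    have a1 : (1 + (t : ℂ) ^ 2) ≠ 0 := by
      have : (1 + t ^ 2 : ℝ) ≠ 0 := by positivity
      exact_mod_cast this
    have a2 := hne t
    push_cast
    field_simp
    ring
  rw [SA.ph_smul _ c2, s.ph_mul c1 hg, SA.ph_sub c5 xe_fc, SA.ph_add c3 c4, SA.ph_smul _ hg,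
    SA.ph_smul _ c1, ← xe_kr hκ hr, ← hr] at e
  have e' := congrArg T.tau e
  simp only [map_smul, map_sub, map_add, smul_eq_mul, h0, sdk_r h1 hκ hu hr h] at e'
  rw [← hμ.int _ hg]
  linear_combination (1 + z ^ 2) * a + 4 * e'

theorem sdk_noEig : NoEig 1 κ := by
  obtain ⟨μ, hμ⟩ := T.exists_sm (sa_one hκ)
  refine hμ.noEig fun l => ?_
  rw [sdk_law h1 hκ hu hr h hμ]
  exact withDensity_absolutelyContinuous _ _ (measure_singleton l)

theorem sdk_lawr {ν : Measure ℝ} (hν : T.SM 1 r ν) : (∀ᵐ l ∂ν, l ∈ Icc (1 / 4 : ℝ) 1) ∧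
    (∀ l c, 1 / 4 ≤ l → 0 ≤ c → l + c ≤ 1 → c * √c / 300 ≤ ν.real (Icc l (l + c))) ∧
    ∀ l d, 0 ≤ d → ν.real (Icc (l - d) (l + d)) ≤ 12 * √d := by
  have := hν.fin
  obtain ⟨μ, hμ⟩ := T.exists_sm (sa_one hκ)
  refine law_r fun g hg => ?_
  rw [← sdk_law h1 hκ hu hr h hμ, ← hν.int g hg, hr, ph_comp hκ xe_f hg]
  exact hμ.int _ (hg.comp xe_f)

end TW

end Pool.Agent.Lib.MP_263241_an
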