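import Pool.Agent.Lib.MP_263241_an.XW

/-! The spectral flag. -/

namespace Pool.Agent.Lib.MP_263241_an

open Filter Topology MeasureTheory Set

variable {R H : Type*} [CStarAlgebra R] [NormedAddCommGroup H] [InnerProductSpace ℂ H]

/-- The level at time `t`. -/
noncomputable def lv (t : ℝ) : ℝ := 1 / 4 + 3 / 4 / (1 + max t 0)

theorem xf_gt (t : ℝ) : 1 / 4 < lv t := lt_add_of_pos_right _ (by positivity)

theorem xf_anti {s t : ℝ} (h : s ≤ t) : lv t ≤ lv s := by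
  unfold lv
  gcongr

theorem xf_zero : lv 0 = 1 := by norm_num [lv]

theorem xf_le (t : ℝ) : lv t ≤ 1 := by
  have h : 3 / 4 / (1 + max t 0) ≤ (3 / 4 : ℝ) :=
    div_le_self (by norm_num) (le_add_of_nonneg_right (le_max_right _ _))
  unfold lv
  linarith

theorem xf_tm_le (n j : ℕ) : tm n j ≤ tm n (j + 1) := by
  unfold tm
  gcongr
  exact j.le_succ

theorem xf_step (n j : ℕ) : 0 < lv (tm n j) - lv (tm n (j + 1)) ∧
    lv (tm n j) - lv (tm n (j + 1)) ≤ (2 ^ n)⁻¹ := by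
  have h0 : 0 ≤ tm n j := by unfold tm; positivity
  have h1 : tm n (j + 1) = tm n j + (2 ^ n)⁻¹ := by unfold tm; push_cast; ring
  have h2 : (0 : ℝ) < (2 ^ n)⁻¹ := by positivity
  rw [h1]
  generalize tm n j = s at h0
  generalize ((2 : ℝ) ^ n)⁻¹ = d at h2
  have e : lv s - lv (s + d) = 3 / 4 * d / ((1 + s) * (1 + (s + d))) := by
    rw [lv, lv, max_eq_left h0, max_eq_left (by linarith)]
    field_simp
    ring
  rw [e]
  refine ⟨by positivity, (div_le_self (by positivity) (by nlinarith)).trans (by linarith)⟩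

namespace TW

variable (T : TW R H)

/-- The spectral flag of `r`. -/
structure SF (r : R) (μ : Measure ℝ) (f : ℝ → R) : Prop where
  sm : T.SM 1 r μ
  supp : ∀ᵐ l ∂μ, l ∈ Icc (1 / 4 : ℝ) 1
  lo : ∀ l c, 1 / 4 ≤ l → 0 ≤ c → l + c ≤ 1 → c * √c / 300 ≤ μ.real (Icc l (l + c))
  up : ∀ l d, 0 ≤ d → μ.real (Icc (l - d) (l + d)) ≤ 12 * √d
  pr : ∀ t, Pr (f t)
  mem : ∀ t, f t ∈ T.gen {1, r}
  mono : ∀ s t, s ≤ t → f t * f s = f s
  int : ∀ t, ∀ g : ℝ → ℂ, Continuous g → T.tau (f t * Ph 1 r g) = ∫ l in Ici (lv t), g l ∂μ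

variable {T} {r : R} {μ : Measure ℝ} {f : ℝ → R}

theorem SM.exists_sf (h : T.SM 1 r μ) (h1 : ∀ᵐ l ∂μ, l ∈ Icc (1 / 4 : ℝ) 1)
    (h2 : ∀ l c, 1 / 4 ≤ l → 0 ≤ c → l + c ≤ 1 → c * √c / 300 ≤ μ.real (Icc l (l + c)))
    (h3 : ∀ l d, 0 ≤ d → μ.real (Icc (l - d) (l + d)) ≤ 12 * √d) : ∃ f, T.SF r μ f := by
  obtain ⟨P, p1, p2, p3⟩ := h.flag
  exact ⟨fun t => P (lv t), h, h1, h2, h3, fun t => (p1 _).1, fun t => (p1 _).2,
    fun s t hst => p2 _ _ (xf_anti hst), fun t => p3 _⟩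

theorem xf_l2 {q : R} {ν : Measure ℝ} (hr : star r = r) (hq : Pr q)
    (h : ∀ g : ℝ → ℂ, Continuous g → T.tau (q * Ph 1 r g) = ∫ l, g l ∂ν) {g : ℝ → ℂ}
    (hg : Continuous g) : ‖T.ι (Ph 1 r g * q)‖ ^ 2 = ∫ l, ‖g l‖ ^ 2 ∂ν := by
  have := T.tau_sq (Ph 1 r g * q)
  rw [star_mul, hq.st, ← mul_assoc, T.tau_comm, ← mul_assoc, ← mul_assoc, hq.sq, mul_assoc,
    ← (sa_one hr).ph_star, ← (sa_one hr).ph_mul (by fun_prop) hg, h _ (by fun_prop)] at this
  simp only [Complex.conj_mul'] at this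
  exact_mod_cast this.symm

section sf

variable (h : T.SF r μ f)
include h

theorem xf_int {g : ℝ → ℂ} (hg : Continuous g) : Integrable g μ := by
  have := h.sm.fin
  rw [← Measure.restrict_eq_self_of_ae_mem h.supp]
  exact hg.continuousOn.integrableOn_Icc

theorem xf_one {q : R} {s : Set ℝ}
    (hq : T.tau (q * Ph 1 r fun _ => 1) = ∫ _ in s, (1 : ℂ) ∂μ) : T.tau q = μ.real s := by
  rw [h.sm.sa.ph_const, one_smul, mul_one] at hq
  simpa using hq

theorem xf_sl_pr (n j : ℕ) : Pr (sl f n j) := (h.pr _).sub (h.pr _) (h.mono _ _ (xf_tm_le n j))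

theorem SF.atom (l : ℝ) : μ {l} = 0 := by
  have := h.sm.fin
  have h1 := h.up l 0 le_rfl
  rw [sub_zero, add_zero, Icc_self, Real.sqrt_zero, mul_zero] at h1
  exact (measureReal_eq_zero_iff (measure_ne_top _ _)).1 (le_antisymm h1 measureReal_nonneg)

theorem SF.zero : f 0 = 0 := by
  refine T.pr_eq_zero (h.pr 0) ?_
  rw [xf_one h (h.int 0 _ continuous_const), xf_zero, Measure.real,
    measure_eq_zero_iff_ae_notMem.2, ENNReal.toReal_zero, Complex.ofReal_zero]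
  filter_upwards [h.supp, measure_eq_zero_iff_ae_notMem.1 (h.atom 1)] with l h1 h2 h3
  exact h2 (le_antisymm h1.2 h3)

theorem SF.int_sl (n j : ℕ) {g : ℝ → ℂ} (hg : Continuous g) : T.tau (sl f n j * Ph 1 r g) =
    ∫ l in Ico (lv (tm n (j + 1))) (lv (tm n j)), g l ∂μ := by
  rw [sl, sub_mul, map_sub, h.int _ _ hg, h.int _ _ hg,
    ← Ico_union_Ici_eq_Ici (xf_anti (xf_tm_le n j)), setIntegral_union
      (disjoint_left.2 fun _ h1 h2 => h1.2.not_ge h2) measurableSet_Ici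
      (xf_int h hg).integrableOn (xf_int h hg).integrableOn, add_sub_cancel_right]

theorem SF.int_e (t : ℝ) {g : ℝ → ℂ} (hg : Continuous g) :
    T.tau ((1 - f t) * Ph 1 r g) = ∫ l in Iio (lv t), g l ∂μ := by
  rw [sub_mul, one_mul, map_sub, h.int _ _ hg, h.sm.int _ hg,
    ← integral_add_compl (s := Ici (lv t)) measurableSet_Ici (xf_int h hg), compl_Ici,
    add_sub_cancel_left]

theorem SF.dl_eq (n j : ℕ) : T.dl f n j = μ.real (Ico (lv (tm n (j + 1))) (lv (tm n j))) := by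
  rw [dl, xf_one h (h.int_sl n j continuous_const), Complex.ofReal_re]

theorem SF.te_eq (t : ℝ) : T.te f t = μ.real (Iio (lv t)) := by
  rw [te, xf_one h (h.int_e t continuous_const), Complex.ofReal_re]

theorem xf_pos {a b : ℝ} (h1 : 1 / 4 ≤ a) (h2 : a < b) (h3 : b ≤ 1) {s : Set ℝ}
    (hs : Ico a b ⊆ s) : 0 < μ.real s := by
  have := h.sm.fin
  have h4 : 0 < (b - a) / 2 := by linarith
  refine lt_of_lt_of_le (by positivity) ((h.lo a _ h1 h4.le (by linarith)).trans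
    (measureReal_mono fun l hl => hs ⟨hl.1, ?_⟩))
  linarith [hl.2]

theorem SF.pos (n j : ℕ) : 0 < T.dl f n j := by
  rw [h.dl_eq]
  exact xf_pos h (xf_gt _).le (sub_pos.1 (xf_step n j).1) (xf_le _) le_rfl

theorem SF.ne_one (t : ℝ) : f t ≠ 1 := fun e => by
  have := xf_pos h le_rfl (xf_gt t) (xf_le t) Ico_subset_Iio_self
  rw [← h.te_eq, te, e] at this
  simp at this

theorem SF.full : Tendsto (fun a : ℕ => T.te f a) atTop (𝓝 0) := by
  have := h.sm.fin
  have h1 : Tendsto (fun a : ℕ => 12 * √(1 / ((a : ℝ) + 1))) atTop (𝓝 (12 * √0)) :=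
    tendsto_one_div_add_atTop_nhds_zero_nat.sqrt.const_mul 12
  rw [Real.sqrt_zero, mul_zero] at h1
  refine squeeze_zero (fun a => by rw [h.te_eq]; exact measureReal_nonneg) (fun a => ?_) h1
  rw [h.te_eq]
  refine le_trans ?_ (h.up (1 / 4) _ (by positivity))
  refine ENNReal.toReal_mono (measure_ne_top _ _) (measure_mono_ae ?_)
  filter_upwards [h.supp] with l h2 h3
  have h4 : lv a ≤ 1 / 4 + 1 / ((a : ℝ) + 1) := by
    rw [lv, max_eq_left a.cast_nonneg, add_comm 1 (a : ℝ)]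
    gcongr
    norm_num
  exact ⟨(sub_le_self _ (by positivity)).trans h2.1, (show l < lv a from h3).le.trans h4⟩

theorem SF.mesh : ∀ ε > 0, ∃ N, ∀ n ≥ N, ∀ j, T.dl f n j ≤ ε := by
  have := h.sm.fin
  have h1 : Tendsto (fun n : ℕ => 12 * √(((2 : ℝ) ^ n)⁻¹)) atTop (𝓝 (12 * √0)) :=
    (tendsto_pow_atTop_atTop_of_one_lt one_lt_two).inv_tendsto_atTop.sqrt.const_mul 12
  rw [Real.sqrt_zero, mul_zero] at h1
  intro ε hε
  refine (eventually_atTop.1 (h1.eventually (ge_mem_nhds hε))).imp fun N hN n hn j => ?_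
  rw [h.dl_eq]
  refine le_trans ?_ ((h.up (lv (tm n j)) _ (by positivity)).trans (hN n hn))
  exact measureReal_mono fun l hl => ⟨by linarith [hl.1, (xf_step n j).2],
    hl.2.le.trans (le_add_of_nonneg_right (by positivity))⟩

theorem SF.osc (n j k : ℕ) :
    ‖T.ι ((r ^ k - ((lv (tm n j) : ℝ) : ℂ) ^ k • (1 : R)) * sl f n j)‖ ≤
      k * (2 ^ n)⁻¹ * ‖T.ι (sl f n j)‖ := by
  have := h.sm.fin
  have h1 := xf_l2 h.sm.sa.st (xf_sl_pr h n j) (fun _ => h.int_sl n j)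
    (g := fun l => (l : ℂ) ^ k - ((lv (tm n j) : ℝ) : ℂ) ^ k) (by fun_prop)
  rw [SA.ph_sub (by fun_prop) (by fun_prop), ph_pow h.sm.sa.st, h.sm.sa.ph_const] at h1
  have h2 : ‖T.ι (sl f n j)‖ ^ 2 = μ.real (Ico (lv (tm n (j + 1))) (lv (tm n j))) := by
    rw [← h.dl_eq, dl, T.tau_pr (xf_sl_pr h n j), Complex.ofReal_re]
  refine le_of_pow_le_pow_left₀ two_ne_zero (by positivity) ?_
  rw [h1, mul_pow, h2]
  refine (Real.le_norm_self _).trans (norm_setIntegral_le_of_norm_le_const (measure_lt_top _ _)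
    fun l hl => ?_)
  rw [Real.norm_of_nonneg (by positivity), ← Complex.ofReal_pow, ← Complex.ofReal_pow,
    ← Complex.ofReal_sub, Complex.norm_real, Real.norm_eq_abs]
  refine pow_le_pow_left₀ (abs_nonneg _) ((abs_pow_sub_pow_le _ _ _).trans ?_) 2
  have h3 : |l - lv (tm n j)| ≤ (2 ^ n)⁻¹ :=
    abs_le.2 ⟨by linarith [hl.1, (xf_step n j).2], (sub_nonpos.2 hl.2.le).trans (by positivity)⟩
  have h4 : max |l| |lv (tm n j)| ^ (k - 1) ≤ 1 := pow_le_one₀ (by positivity) (max_le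
    (abs_le.2 ⟨by linarith [hl.1, xf_gt (tm n (j + 1))], hl.2.le.trans (xf_le _)⟩)
    (abs_le.2 ⟨by linarith [xf_gt (tm n j)], xf_le _⟩))
  rw [mul_comm (k : ℝ)]
  exact (mul_le_of_le_one_right (by positivity) h4).trans (by gcongr)

theorem xf_approx (n N : ℕ) : ∃ y ∈ T.gen (insert 1 {x | ∃ n j, x = f (tm n j)}),
    f (tm n N) * y = y ∧
      ‖T.ι (f (tm n N) * r - y)‖ ^ 2 ≤ (2 ^ n)⁻¹ ^ 2 * (T.tau (f (tm n N))).re := by
  have W := gen_w (T := T) (insert 1 {x | ∃ n j, x = f (tm n j)})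
  induction N with
  | zero => exact ⟨0, W.zero, mul_zero _, by simp [tm_zero, h.zero]⟩
  | succ N ih =>
    obtain ⟨y, y1, y2, y3⟩ := ih
    have m := h.mono _ _ (xf_tm_le n N)
    have hq := xf_sl_pr h n N
    have o := h.osc n N 1
    rw [← T.norm_star, star_mul, hq.st, star_sub, star_smul, pow_one, pow_one, h.sm.sa.st,
      star_one, Complex.star_def, Complex.conj_ofReal, Nat.cast_one, one_mul] at o
    have e : f (tm n (N + 1)) = f (tm n N) + sl f n N := (add_sub_cancel _ _).symm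
    have q0 : f (tm n N) * sl f n N = 0 := by
      rw [sl, mul_sub, (h.pr _).comm_of (h.pr _) m, (h.pr _).sq, sub_self]
    refine ⟨y + ((lv (tm n N) : ℝ) : ℂ) • sl f n N, W.add y1 (W.smul _ (W.sub
      (sub_gen (.inr ⟨_, _, rfl⟩)) (sub_gen (.inr ⟨_, _, rfl⟩)))), ?_, ?_⟩
    · rw [mul_add, mul_smul_comm, ← y2, ← mul_assoc, m, e, add_mul, q0, hq.sq, zero_add]
    · have e2 : f (tm n (N + 1)) * r - (y + ((lv (tm n N) : ℝ) : ℂ) • sl f n N) =
          (f (tm n N) * r - y) + sl f n N * (r - ((lv (tm n N) : ℝ) : ℂ) • (1 : R)) := by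
        rw [e, add_mul, mul_sub, mul_smul_comm, mul_one]; abel
      have e3 : T.ip (f (tm n N) * r - y)
          (sl f n N * (r - ((lv (tm n N) : ℝ) : ℂ) • (1 : R))) = 0 := by
        rw [ip, ← y2, ← mul_sub, star_mul, (h.pr _).st, mul_assoc, ← mul_assoc (f _), q0]
        simp
      have o2 := pow_le_pow_left₀ (norm_nonneg _) o 2
      rw [e2, l2_add_sq, e3, e, map_add, Complex.add_re, T.tau_pr hq, Complex.ofReal_re]
      linarith

theorem SF.gen : r ∈ T.gen (insert 1 {x | ∃ n j, x = f (tm n j)}) := by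
  choose y y1 _ y3 using fun a : ℕ => xf_approx h a (a * 2 ^ a)
  simp only [tm_top] at y3
  have h1 := (h.full.sqrt.const_mul ‖r‖).add ((tendsto_pow_atTop_atTop_of_one_lt
    (one_lt_two (α := ℝ))).inv_tendsto_atTop.mul_const ‖T.ι 1‖)
  rw [Real.sqrt_zero, mul_zero, zero_mul, add_zero] at h1
  refine (gen_w _).lim y y1 (lim_iff.2 (squeeze_zero (fun _ => norm_nonneg _) (fun a => ?_) h1))
  have e : y a - r = -((1 - f a) * r + (f a * r - y a)) := by rw [sub_mul, one_mul]; abel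
  have he := Pr.one.sub (h.pr a) (one_mul _)
  rw [e, map_neg, norm_neg, map_add]
  refine (norm_add_le _ _).trans (add_le_add ((T.norm_mul' _ _).trans ?_) ?_)
  · rw [te, T.tau_pr he, Complex.ofReal_re, Real.sqrt_sq (norm_nonneg _)]
  · rw [Pi.inv_apply]
    refine le_of_pow_le_pow_left₀ two_ne_zero (by positivity) ((y3 a).trans ?_)
    have h2 := T.norm_mul (f a) 1
    rw [mul_one] at h2
    rw [mul_pow, T.tau_pr (h.pr a), Complex.ofReal_re]
    exact mul_le_mul_of_nonneg_left (pow_le_pow_left₀ (norm_nonneg _)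
      (h2.trans (mul_le_of_le_one_left (norm_nonneg _) (h.pr a).norm_le)) 2) (by positivity)

end sf

end TW

end Pool.Agent.Lib.MP_263241_an
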