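import Pool.Agent.Lib.MP_263241_an.XA

/-! Closed worlds of derivations and a criterion for freeness. -/

namespace Pool.Agent.Lib.MP_263241_an

open Filter Topology

variable {R H : Type*} [CStarAlgebra R] [NormedAddCommGroup H] [InnerProductSpace ℂ H]

/-- Both components of `z` are bounded by `c`. -/
def xg_Le (z : DA R) (c : ℝ) : Prop :=
  ‖z.fst‖ ≤ c ∧ ∀ p q, ‖z.snd.ev p q‖ ≤ c * (‖p‖ * ‖q‖)

theorem xg_le_of_bd {z : DA R} (h : BdF z) : ∃ c, xg_Le z c := by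
  obtain ⟨C, hC⟩ := h
  refine ⟨max C ‖z.fst‖, le_max_right _ _, fun p q => (hC p q).trans ?_⟩
  exact mul_le_mul_of_nonneg_right (le_max_left _ _) (by positivity)

theorem xg_le_nonneg {z : DA R} {c : ℝ} (h : xg_Le z c) : 0 ≤ c := (norm_nonneg _).trans h.1

theorem xg_le_mul {z w : DA R} {a b : ℝ} (hz : xg_Le z a) (hw : xg_Le w b) :
    xg_Le (z * w) (2 * (a * b)) := by
  have ha := xg_le_nonneg hz
  have hb := xg_le_nonneg hw
  refine ⟨?_, fun p q => ?_⟩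
  · rw [TrivSqZeroExt.fst_mul]
    have := (norm_mul_le z.fst w.fst).trans (mul_le_mul hz.1 hw.1 (norm_nonneg _) ha)
    nlinarith [mul_nonneg ha hb]
  · rw [DA.snd_mul]
    have h1 : ‖w.fst * q‖ ≤ b * ‖q‖ :=
      (norm_mul_le _ _).trans (mul_le_mul_of_nonneg_right hw.1 (norm_nonneg _))
    have h2 : ‖p * z.fst‖ ≤ ‖p‖ * a :=
      (norm_mul_le _ _).trans (mul_le_mul_of_nonneg_left hz.1 (norm_nonneg _))
    calc _ ≤ ‖z.snd.ev p (w.fst * q)‖ + ‖w.snd.ev (p * z.fst) q‖ := norm_add_le _ _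
      _ ≤ a * (‖p‖ * ‖w.fst * q‖) + b * (‖p * z.fst‖ * ‖q‖) := add_le_add (hz.2 _ _) (hw.2 _ _)
      _ ≤ a * (‖p‖ * (b * ‖q‖)) + b * (‖p‖ * a * ‖q‖) := by gcongr
      _ = 2 * (a * b) * (‖p‖ * ‖q‖) := by ring

theorem xg_bd_mul {z w : DA R} (hz : BdF z) (hw : BdF w) : BdF (z * w) := by
  obtain ⟨a, ha⟩ := xg_le_of_bd hz
  obtain ⟨b, hb⟩ := xg_le_of_bd hw
  exact ⟨_, (xg_le_mul ha hb).2⟩

theorem xg_bd_add {z w : DA R} (hz : BdF z) (hw : BdF w) : BdF (z + w) := by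
  obtain ⟨a, ha⟩ := hz
  obtain ⟨b, hb⟩ := hw
  refine ⟨a + b, fun p q => ?_⟩
  have e : (z + w).snd.ev p q = z.snd.ev p q + w.snd.ev p q := rfl
  rw [e, add_mul]
  exact (norm_add_le _ _).trans (add_le_add (ha p q) (hb p q))

theorem xg_bd_inl (x : R) : BdF (TrivSqZeroExt.inl x : DA R) :=
  ⟨0, fun p q => by simp⟩

theorem xg_bd_alg (c : ℂ) : BdF (algebraMap ℂ (DA R) c) := by
  rw [TrivSqZeroExt.algebraMap_eq_inl']
  exact xg_bd_inl _

/-- The elements with a bounded form. -/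
def xg_B (R : Type*) [CStarAlgebra R] : Subalgebra ℂ (DA R) where
  carrier := {z | BdF z}
  mul_mem' := xg_bd_mul
  add_mem' := xg_bd_add
  algebraMap_mem' := xg_bd_alg

theorem xg_le_pow {x : DA R} {C : ℝ} (h : xg_Le x C) (n : ℕ) (p q : R) :
    ‖(x ^ (n + 1)).snd.ev p q‖ ≤ C * ((n + 1) * ‖x.fst‖ ^ n) * (‖p‖ * ‖q‖) := by
  have hC := xg_le_nonneg h
  induction n generalizing p q with
  | zero => simpa using h.2 p q
  | succ n ih =>
    rw [pow_succ x (n + 1), DA.snd_mul, TrivSqZeroExt.fst_pow]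
    have h1 : ‖x.fst * q‖ ≤ ‖x.fst‖ * ‖q‖ := norm_mul_le _ _
    have h2 : ‖p * x.fst ^ (n + 1)‖ ≤ ‖p‖ * ‖x.fst‖ ^ (n + 1) :=
      (norm_mul_le _ _).trans
        (mul_le_mul_of_nonneg_left (norm_pow_le' _ (Nat.succ_pos n)) (norm_nonneg _))
    calc _ ≤ ‖(x ^ (n + 1)).snd.ev p (x.fst * q)‖ + ‖x.snd.ev (p * x.fst ^ (n + 1)) q‖ :=
          norm_add_le _ _
      _ ≤ C * ((n + 1) * ‖x.fst‖ ^ n) * (‖p‖ * ‖x.fst * q‖) + C * (‖p * x.fst ^ (n + 1)‖ * ‖q‖) :=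
          add_le_add (ih _ _) (h.2 _ _)
      _ ≤ C * ((n + 1) * ‖x.fst‖ ^ n) * (‖p‖ * (‖x.fst‖ * ‖q‖)) +
            C * (‖p‖ * ‖x.fst‖ ^ (n + 1) * ‖q‖) := by gcongr
      _ = _ := by push_cast; ring

/-- Powers of a contraction with a bounded form tend to zero. -/
theorem xg_pow_small {x : DA R} (hb : BdF x) (hx : ‖x.fst‖ < 1) :
    ∃ e : ℕ → ℝ, Tendsto e atTop (𝓝 0) ∧ ∀ n, xg_Le (x ^ (n + 1)) (e n) := by
  obtain ⟨C, hC⟩ := xg_le_of_bd hb
  have h0 := xg_le_nonneg hC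
  have hr := norm_nonneg x.fst
  refine ⟨fun n => C * ((n + 1) * ‖x.fst‖ ^ n), ?_, fun n => ⟨?_, xg_le_pow hC n⟩⟩
  · have h1 := tendsto_self_mul_const_pow_of_lt_one hr hx
    have h2 := tendsto_pow_atTop_nhds_zero_of_lt_one hr hx
    simpa [add_mul] using (h1.add h2).const_mul C
  · rw [TrivSqZeroExt.fst_pow]
    have h1 : (0 : ℝ) ≤ ‖x.fst‖ ^ n := by positivity
    have h2 : (0 : ℝ) ≤ n := Nat.cast_nonneg n
    calc _ ≤ ‖x.fst‖ ^ (n + 1) := norm_pow_le' _ (Nat.succ_pos n)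
      _ = ‖x.fst‖ * (1 * ‖x.fst‖ ^ n) := by ring
      _ ≤ C * ((n + 1) * ‖x.fst‖ ^ n) := by
        gcongr
        · exact hC.1
        · linarith

/-- The formal inverse. -/
noncomputable def xg_inv (z : DA R) (v : R) : DA R :=
  dm v (.mk (-(z.snd.ev.compl₁₂ (LinearMap.mulRight ℂ v) (LinearMap.mulLeft ℂ v))))

theorem xg_inv_snd (z : DA R) (v p q : R) :
    (xg_inv z v).snd.ev p q = -z.snd.ev (p * v) (v * q) := rfl

theorem xg_inv_fst (z : DA R) (v : R) : (xg_inv z v).fst = v := rfl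

theorem xg_mul_inv {z : DA R} {v : R} (h2 : z.fst * v = 1) : z * xg_inv z v = 1 := by
  refine DA.ext' ?_ fun p q => ?_
  · rw [TrivSqZeroExt.fst_mul, xg_inv_fst, h2, TrivSqZeroExt.fst_one]
  · rw [DA.snd_mul, xg_inv_fst, xg_inv_snd, mul_assoc, h2, mul_one, add_neg_cancel]
    simp

theorem xg_inv_bd {z : DA R} (hz : BdF z) (v : R) : BdF (xg_inv z v) := by
  obtain ⟨C, hC⟩ := xg_le_of_bd hz
  have h0 := xg_le_nonneg hC
  refine ⟨C * (‖v‖ * ‖v‖), fun p q => ?_⟩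
  rw [xg_inv_snd, norm_neg]
  calc _ ≤ C * (‖p * v‖ * ‖v * q‖) := hC.2 _ _
    _ ≤ C * (‖p‖ * ‖v‖ * (‖v‖ * ‖q‖)) := by gcongr <;> exact norm_mul_le _ _
    _ = _ := by ring

/-- An invertible positive element, suitably scaled, is close to the unit. -/
theorem xg_contr {p v : R} (h1 : v * p = 1) (h2 : p * v = 1) :
    ∃ c : ℂ, ‖1 - c • (p * star p)‖ < 1 := by
  have hu : IsUnit (p * star p) := by
    have hp : IsUnit p := ⟨⟨p, v, h2, h1⟩, rfl⟩
    exact hp.mul hp.star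
  have hs : IsSelfAdjoint (p * star p) := IsSelfAdjoint.mul_star_self p
  set a := p * star p with ha
  set K : ℝ := ‖a‖ * ‖(1 : R)‖ + 1 with hK
  have hK0 : 0 < K := by positivity
  have e : cfc (fun t : ℝ => 1 - K⁻¹ * t) a = 1 - ((K⁻¹ : ℝ) : ℂ) • a := by
    rw [cfc_sub _ _ a, cfc_const_one ℝ a, cfc_const_mul_id K⁻¹ a hs, Complex.coe_smul]
  refine ⟨((K⁻¹ : ℝ) : ℂ), ?_⟩
  rw [← e]
  refine norm_cfc_lt one_pos fun t ht => ?_
  have t0 : 0 ≤ t := by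
    have := spectrum_star_mul_self_nonneg (b := star p) t (by rwa [star_star])
    exact this
  have t1 : t ≠ 0 := fun h => (spectrum.zero_notMem_iff ℝ).2 hu (h ▸ ht)
  have t2 : ‖t‖ ≤ ‖a‖ * ‖(1 : R)‖ := spectrum.norm_le_norm_mul_of_mem ht
  rw [Real.norm_eq_abs, abs_of_nonneg t0] at t2
  have t3 : 0 < K⁻¹ * t := mul_pos (inv_pos.2 hK0) (lt_of_le_of_ne t0 t1.symm)
  have t4 : K⁻¹ * t < 1 := by
    rw [inv_mul_lt_iff₀ hK0]; linarith
  rw [Real.norm_eq_abs, abs_lt]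
  constructor <;> linarith

namespace TW

variable {T : TW R H}

theorem bdF_inl (x : R) : BdF (TrivSqZeroExt.inl x : DA R) := xg_bd_inl x

theorem bdF_lt (x l r : R) : BdF (T.lt x l r) := by
  refine ⟨‖T.tau‖ * ‖l‖ * (‖T.tau‖ * ‖r‖), fun p q => ?_⟩
  rw [lt_snd, bil_ev, _root_.norm_mul]
  calc _ ≤ ‖T.tau‖ * ‖p * l‖ * (‖T.tau‖ * ‖r * q‖) := by
        gcongr <;> exact T.tau.le_opNorm _
    _ ≤ ‖T.tau‖ * (‖p‖ * ‖l‖) * (‖T.tau‖ * (‖r‖ * ‖q‖)) := by gcongr <;> exact norm_mul_le _ _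
    _ = _ := by ring

variable (T) in
/-- The defect in the equation attached to `i`. -/
noncomputable def xg_lam (i : R × R × R) : DA R →ₗ[ℂ] ℂ where
  toFun z := z.snd.ev i.1 i.2.1 - T.tau (i.2.2 * z.fst)
  map_add' z w := by
    have e : (z + w).snd.ev i.1 i.2.1 = z.snd.ev i.1 i.2.1 + w.snd.ev i.1 i.2.1 := rfl
    rw [e, TrivSqZeroExt.fst_add, mul_add, map_add]; ring
  map_smul' c z := by
    have e : (c • z).snd.ev i.1 i.2.1 = c * z.snd.ev i.1 i.2.1 := rfl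
    rw [e, TrivSqZeroExt.fst_smul, mul_smul_comm, map_smul, RingHom.id_apply, smul_eq_mul,
      smul_eq_mul]; ring

theorem xg_lam_zero {i : R × R × R} {z : DA R} :
    T.xg_lam i z = 0 ↔ z.snd.ev i.1 i.2.1 = T.tau (i.2.2 * z.fst) := sub_eq_zero

theorem xg_lam_le (i : R × R × R) {z : DA R} {c : ℝ} (h : xg_Le z c) :
    ‖T.xg_lam i z‖ ≤ (‖i.1‖ * ‖i.2.1‖ + ‖T.tau‖ * ‖i.2.2‖) * c := by
  have h1 := h.1
  calc _ ≤ ‖z.snd.ev i.1 i.2.1‖ + ‖T.tau (i.2.2 * z.fst)‖ := norm_sub_le _ _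
    _ ≤ c * (‖i.1‖ * ‖i.2.1‖) + ‖T.tau‖ * ‖i.2.2 * z.fst‖ :=
        add_le_add (h.2 _ _) (T.tau.le_opNorm _)
    _ ≤ c * (‖i.1‖ * ‖i.2.1‖) + ‖T.tau‖ * (‖i.2.2‖ * c) := by
        gcongr
        exact (norm_mul_le _ _).trans (by gcongr)
    _ = _ := by ring

variable (T) in
/-- The vectors of the world. -/
def xg_V (L : Set (DA R)) (I : Set (R × R × R)) : Set (DA R) :=
  {w | BdF w ∧ ∀ i ∈ I, ∀ a ∈ Algebra.adjoin ℂ L, T.xg_lam i (a * w) = 0}

variable (T) in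
/-- The world. -/
def xg_G (L : Set (DA R)) (I : Set (R × R × R)) : Subalgebra ℂ (DA R) where
  carrier := {z | BdF z ∧ ∀ w ∈ T.xg_V L I, z * w ∈ T.xg_V L I}
  mul_mem' hz hw := ⟨xg_bd_mul hz.1 hw.1, fun u hu => by
    rw [mul_assoc]; exact hz.2 _ (hw.2 u hu)⟩
  add_mem' hz hw := ⟨xg_bd_add hz.1 hw.1, fun u hu => by
    rw [add_mul]
    refine ⟨xg_bd_add (hz.2 u hu).1 (hw.2 u hu).1, fun i hi a ha => ?_⟩
    rw [mul_add, map_add, (hz.2 u hu).2 i hi a ha, (hw.2 u hu).2 i hi a ha, add_zero]⟩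
  algebraMap_mem' c := ⟨xg_bd_alg c, fun u hu => ⟨xg_bd_mul (xg_bd_alg c) hu.1, fun i hi a ha => by
    rw [← mul_assoc]
    exact hu.2 i hi _ (Subalgebra.mul_mem _ ha (Subalgebra.algebraMap_mem _ c))⟩⟩

theorem xg_neumann {L : Set (DA R)} (hL : ∀ z ∈ L, BdF z) {I : Set (R × R × R)} {x : DA R}
    (hx : x ∈ T.xg_G L I) (h1 : ‖x.fst‖ < 1) : ∃ y ∈ T.xg_G L I, (1 - x) * y = 1 := by
  have hu : 1 - x ∈ T.xg_G L I := Subalgebra.sub_mem _ (Subalgebra.one_mem _) hx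
  have hv : (1 - x).fst * ((Units.oneSub x.fst h1)⁻¹ : Rˣ) = 1 := by
    rw [TrivSqZeroExt.fst_sub, TrivSqZeroExt.fst_one]
    exact (Units.oneSub x.fst h1).mul_inv
  set y : DA R := xg_inv (1 - x) (((Units.oneSub x.fst h1)⁻¹ : Rˣ) : R) with hy
  have hm : (1 - x) * y = 1 := xg_mul_inv hv
  have hb : BdF y := xg_inv_bd hu.1 _
  refine ⟨y, ⟨hb, fun w hw => ⟨xg_bd_mul hb hw.1, fun i hi a ha => ?_⟩⟩, hm⟩
  have hy1 : y = 1 + x * y := by
    rw [sub_mul, one_mul] at hm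
    exact eq_add_of_sub_eq hm
  have key : ∀ n : ℕ, T.xg_lam i (a * (y * w)) = T.xg_lam i (a * (x ^ n * (y * w))) := by
    intro n
    induction n with
    | zero => rw [pow_zero, one_mul]
    | succ n ih =>
      have e : x ^ n * (y * w) = x ^ n * w + x ^ (n + 1) * (y * w) := by
        conv_lhs => rw [hy1]
        rw [add_mul, one_mul, mul_add, pow_succ, mul_assoc, mul_assoc]
      rw [ih, e, mul_add, map_add, ((Subalgebra.pow_mem _ hx n).2 w hw).2 i hi a ha, zero_add]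
  have hab : BdF a := (Algebra.adjoin_le (S := xg_B R) hL) ha
  obtain ⟨A, hA⟩ := xg_le_of_bd hab
  obtain ⟨B, hB⟩ := xg_le_of_bd (xg_bd_mul hb hw.1)
  obtain ⟨e, he, hle⟩ := xg_pow_small hx.1 h1
  have ht : Tendsto (fun n => (‖i.1‖ * ‖i.2.1‖ + ‖T.tau‖ * ‖i.2.2‖) * (2 * (A * (2 * (e n * B)))))
      atTop (𝓝 0) := by
    simpa using (((((he.mul_const B).const_mul 2).const_mul A).const_mul 2).const_mul
      (‖i.1‖ * ‖i.2.1‖ + ‖T.tau‖ * ‖i.2.2‖))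
  refine norm_le_zero_iff.1 (ge_of_tendsto' ht fun n => ?_)
  rw [key (n + 1)]
  exact xg_lam_le i (xg_le_mul hA (xg_le_mul (hle n) hB))

/-- A closed world. -/
theorem exists_world {L : Set (DA R)} (hL : ∀ z ∈ L, BdF z) {I : Set (R × R × R)}
    (h : ∀ i ∈ I, ∀ z ∈ Algebra.adjoin ℂ L, z.snd.ev i.1 i.2.1 = T.tau (i.2.2 * z.fst)) :
    ∃ G : Subalgebra ℂ (DA R), L ⊆ G ∧ InvCl G ∧
      ∀ i ∈ I, ∀ z ∈ G, z.snd.ev i.1 i.2.1 = T.tau (i.2.2 * z.fst) := by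
  refine ⟨T.xg_G L I, fun z hz => ⟨hL z hz, fun w hw => ⟨xg_bd_mul (hL z hz) hw.1,
    fun i hi a ha => ?_⟩⟩, fun z hz z' hz' hs v h1 h2 => ?_, fun i hi z hz => ?_⟩
  · rw [← mul_assoc]
    exact hw.2 i hi _ (Subalgebra.mul_mem _ ha (Algebra.subset_adjoin hz))
  · obtain ⟨c, hc⟩ := xg_contr h1 h2
    have hx : 1 - c • (z * z') ∈ T.xg_G L I :=
      Subalgebra.sub_mem _ (Subalgebra.one_mem _)
        (Subalgebra.smul_mem _ (Subalgebra.mul_mem _ hz hz') c)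
    obtain ⟨y, hy, hm⟩ := xg_neumann hL hx (by
      rwa [TrivSqZeroExt.fst_sub, TrivSqZeroExt.fst_one, TrivSqZeroExt.fst_smul,
        TrivSqZeroExt.fst_mul, hs])
    have hm' : z * (c • (z' * y)) = 1 := by
      rw [sub_sub_cancel, smul_mul_assoc, mul_assoc] at hm
      rw [mul_smul_comm, hm]
    set y' := c • (z' * y) with hy'
    have hf : y'.fst = v := by
      have := congrArg TrivSqZeroExt.fst hm'
      rw [TrivSqZeroExt.fst_mul, TrivSqZeroExt.fst_one] at this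
      rw [← one_mul y'.fst, ← h1, mul_assoc, this, mul_one]
    refine ⟨y', Subalgebra.smul_mem _ (Subalgebra.mul_mem _ hz' hy) c, hf, fun p q => ?_⟩
    have e := DA.snd_mul z y' (p * v) q
    rw [hm', hf, mul_assoc, h1, mul_one] at e
    have e0 : (1 : DA R).snd.ev (p * v) q = 0 := by simp
    rw [e0] at e
    exact eq_neg_of_add_eq_zero_right e.symm
  · have h1 : (1 : DA R) ∈ T.xg_V L I :=
      ⟨(xg_B R).one_mem, fun i hi a ha => by rw [mul_one]; exact xg_lam_zero.2 (h i hi a ha)⟩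
    have h2 := (hz.2 1 h1).2 i hi 1 (Subalgebra.one_mem _)
    rw [one_mul, mul_one] at h2
    exact xg_lam_zero.1 h2

theorem xg_dec (h1 : T.tau 1 = 1) {X : Subalgebra ℂ R} {x : R} (hx : x ∈ X) :
    x - T.tau x • (1 : R) ∈ T.cen X :=
  ⟨X.sub_mem hx (X.smul_mem X.one_mem _), by
    rw [map_sub, map_smul, h1, smul_eq_mul, mul_one, sub_self]⟩

theorem xg_split (a x b : R) (c : ℂ) (h : T.tau (a * (x - c • (1 : R)) * b) = 0)
    (h' : T.tau (a * b) = 0) : T.tau (a * x * b) = 0 := by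
  rw [mul_sub, sub_mul, mul_smul_comm, mul_one, smul_mul_assoc, map_sub, map_smul, h',
    smul_zero, sub_zero] at h
  exact h

/-- Words that start with a letter of the second algebra. -/
theorem xg_left (h1 : T.tau 1 = 1) {X Y : Subalgebra ℂ R} {n : ℕ}
    (h : ∀ L' : List (R × R), L'.length < n → (∀ z ∈ L', z.1 ∈ T.cen X ∧ z.2 ∈ T.cen Y) →
      (L' ≠ [] → T.tau (pw L') = 0) ∧ ∀ x ∈ T.cen X, T.tau (pw L' * x) = 0)
    {L : List (R × R)} (hn : L.length < n) (hL : ∀ z ∈ L, z.1 ∈ T.cen X ∧ z.2 ∈ T.cen Y)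
    {y : R} (hy : y ∈ T.cen Y) : T.tau (y * pw L) = 0 := by
  rcases List.eq_nil_or_concat L with rfl | ⟨L3, z, rfl⟩
  · rw [pw_nil, mul_one]; exact hy.2
  · rw [List.concat_eq_append] at hn hL ⊢
    have hz := hL z (by simp)
    have hL3 : ∀ w ∈ L3, w.1 ∈ T.cen X ∧ w.2 ∈ T.cen Y := fun w hw => hL w (by simp [hw])
    have hyy : z.2 * y ∈ Y := Y.mul_mem hz.2.1 hy.1
    have e1 := (h (L3 ++ [(z.1, z.2 * y - T.tau (z.2 * y) • (1 : R))]) (by simpa using hn) (by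
      intro w hw
      rcases List.mem_append.1 hw with hw | hw
      · exact hL3 w hw
      · rw [List.mem_singleton.1 hw]; exact ⟨hz.1, xg_dec h1 hyy⟩)).1 (by simp)
    have e2 := (h L3 (by simp at hn; omega) hL3).2 z.1 hz.1
    rw [pw_append, pw_cons, pw_nil, mul_one, ← mul_assoc] at e1
    have := xg_split (T := T) (pw L3 * z.1) (z.2 * y) 1 _ (by rw [mul_one]; exact e1)
      (by rw [mul_one]; exact e2)
    rw [T.tau_comm, pw_append, pw_cons, pw_nil, mul_one]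
    simpa only [mul_one, mul_assoc] using this

theorem xg_all (h1 : T.tau 1 = 1) {X Y : Subalgebra ℂ R}
    (h : ∀ L : List (R × R), L ≠ [] → (∀ z ∈ L, z.1 ∈ T.cen X ∧ z.2 ∈ T.cen Y) →
      (∀ L' : List (R × R), L'.length < L.length → (∀ z ∈ L', z.1 ∈ T.cen X ∧ z.2 ∈ T.cen Y) →
        (L' ≠ [] → T.tau (pw L') = 0) ∧ ∀ x ∈ T.cen X, T.tau (pw L' * x) = 0) →
      T.tau (pw L) = 0) (n : ℕ) :
    ∀ L' : List (R × R), L'.length < n → (∀ z ∈ L', z.1 ∈ T.cen X ∧ z.2 ∈ T.cen Y) →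
      (L' ≠ [] → T.tau (pw L') = 0) ∧ ∀ x ∈ T.cen X, T.tau (pw L' * x) = 0 := by
  induction n with
  | zero => exact fun L hL => absurd hL (Nat.not_lt_zero _)
  | succ n ih =>
    have first : ∀ L : List (R × R), L.length < n + 1 →
        (∀ z ∈ L, z.1 ∈ T.cen X ∧ z.2 ∈ T.cen Y) → L ≠ [] → T.tau (pw L) = 0 :=
      fun L hn hL h0 => h L h0 hL fun L' hl => ih L' (by omega)
    refine fun L hn hL => ⟨first L hn hL, fun x hx => ?_⟩
    rcases L with _ | ⟨z, L⟩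
    · rw [pw_nil, one_mul]; exact hx.2
    · have hz := hL z (by simp)
      have hL2 : ∀ w ∈ L, w.1 ∈ T.cen X ∧ w.2 ∈ T.cen Y := fun w hw => hL w (by simp [hw])
      have hxx : x * z.1 ∈ X := X.mul_mem hx.1 hz.1.1
      have e1 := first ((x * z.1 - T.tau (x * z.1) • (1 : R), z.2) :: L) hn (by
        intro w hw
        rcases List.mem_cons.1 hw with hw | hw
        · rw [hw]; exact ⟨xg_dec h1 hxx, hz.2⟩
        · exact hL2 w hw) (by simp)
      have e2 := xg_left h1 ih (by simpa using hn) hL2 hz.2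
      rw [pw_cons, mul_assoc] at e1
      have := xg_split (T := T) 1 (x * z.1) (z.2 * pw L) _ (by rw [one_mul]; exact e1)
        (by rw [one_mul]; exact e2)
      rw [T.tau_comm, pw_cons]
      simpa only [one_mul, mul_assoc] using this

theorem xg_alt {X Y : Set R} {b : Bool} {w : R} (hw : Alt X Y b w) :
    ∃ (L : List (R × R)) (t : R), (∀ z ∈ L, z.1 ∈ X ∧ z.2 ∈ Y) ∧ (t = 1 ∨ t ∈ X) ∧
      ((b = true ∧ w = pw L * t ∧ (L ≠ [] ∨ t ∈ X)) ∨
        (b = false ∧ ∃ y ∈ Y, w = y * (pw L * t))) := by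
  induction hw with
  | @x1 x hx => exact ⟨[], x, by simp, .inr hx, .inl ⟨rfl, by simp, .inr hx⟩⟩
  | @y1 y hy => exact ⟨[], 1, by simp, .inl rfl, .inr ⟨rfl, y, hy, by simp⟩⟩
  | @xc x w hx _ ih =>
    obtain ⟨L, t, hL, ht, ⟨hb, -⟩ | ⟨-, y, hy, rfl⟩⟩ := ih
    · cases hb
    · refine ⟨(x, y) :: L, t, ?_, ht, .inl ⟨rfl, by simp only [pw_cons, mul_assoc], .inl (by simp)⟩⟩
      intro z hz
      rcases List.mem_cons.1 hz with hz | hz
      · rw [hz]; exact ⟨hx, hy⟩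
      · exact hL z hz
  | @yc y w hy _ ih =>
    obtain ⟨L, t, hL, ht, ⟨-, rfl, -⟩ | ⟨hb, -⟩⟩ := ih
    · exact ⟨L, t, hL, ht, .inr ⟨rfl, y, hy, rfl⟩⟩
    · cases hb

theorem xg_cen (h1 : T.tau 1 = 1) (X : Subalgebra ℂ R) :
    T.cen (T.cls (X : Set R)) ⊆ T.cls (T.cen X) := by
  intro x hx
  have := (cls_sub (T.cen (X : Set R))).map (LinC.id.sub (LinC.id.tau 1 (1 : R)))
    (S := (X : Set R)) (fun s hs => by rw [mul_one]; exact sub_cls (xg_dec h1 hs)) hx.1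
  simpa [hx.2] using this

/-- A criterion for freeness. -/
theorem free_crit (h1 : T.tau 1 = 1) (X Y : Subalgebra ℂ R)
    (h : ∀ L : List (R × R), L ≠ [] → (∀ z ∈ L, z.1 ∈ T.cen X ∧ z.2 ∈ T.cen Y) →
      (∀ L' : List (R × R), L'.length < L.length → (∀ z ∈ L', z.1 ∈ T.cen X ∧ z.2 ∈ T.cen Y) →
        (L' ≠ [] → T.tau (pw L') = 0) ∧ ∀ x ∈ T.cen X, T.tau (pw L' * x) = 0) →
      T.tau (pw L) = 0) :
    T.Free (T.cls X) (T.cls Y) := by
  have hall := fun L : List (R × R) => xg_all h1 h (L.length + 1) L (Nat.lt_succ_self _)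
  have hZ : T.Z (T.cen X) (T.cen Y) := by
    intro b w hw
    obtain ⟨L, t, hL, ht, ⟨-, rfl, h2⟩ | ⟨-, y, hy, rfl⟩⟩ := xg_alt hw
    · rcases ht with rfl | ht
      · rcases h2 with h2 | h2
        · rw [mul_one]; exact (hall L hL).1 h2
        · exact (hall L hL).2 _ h2
      · exact (hall L hL).2 t ht
    · rcases ht with rfl | ht
      · rw [mul_one]
        exact xg_left h1 (xg_all h1 h (L.length + 1)) (Nat.lt_succ_self _) hL hy
      · have := (hall ((t, y) :: L) (by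
          intro z hz
          rcases List.mem_cons.1 hz with hz | hz
          · rw [hz]; exact ⟨ht, hy⟩
          · exact hL z hz)).1 (by simp)
        rw [← mul_assoc, T.tau_comm]
        simpa only [pw_cons, mul_assoc] using this
  exact hZ.cls.mono (xg_cen h1 X) (xg_cen h1 Y)

theorem gen_sub_adjoin {S : Set R} (hS : ∀ s ∈ S, star s ∈ S) :
    T.gen (insert 1 S) ⊆ T.cls (Algebra.adjoin ℂ S) := by
  have hst : ∀ s ∈ Algebra.adjoin ℂ S, star s ∈ Algebra.adjoin ℂ S := by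
    intro s hs
    induction hs using Algebra.adjoin_induction with
    | mem x hx => exact Algebra.subset_adjoin (hS x hx)
    | algebraMap r =>
      rw [← algebraMap_star_comm]; exact Subalgebra.algebraMap_mem _ _
    | add x y _ _ hx hy => rw [star_add]; exact Subalgebra.add_mem _ hx hy
    | mul x y _ _ hx hy => rw [star_mul]; exact Subalgebra.mul_mem _ hy hx
  refine (cls_w (fun s hs => sub_cls (hst s hs))
    fun s hs t ht => sub_cls (Subalgebra.mul_mem _ hs ht)).gen_le ?_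
  rintro s (rfl | hs)
  · exact sub_cls (Subalgebra.one_mem _)
  · exact sub_cls (Algebra.subset_adjoin hs)

theorem gen_sub_pow {e x : R} (he : Pr e) (hx : star x = x) (hc : e * x = x * e) :
    T.gen {e, e * x} ⊆ T.cls (Set.range fun n : ℕ => e * x ^ n) := by
  have hp : ∀ n : ℕ, x ^ n * e = e * x ^ n := fun n => (Commute.pow_right hc n).eq.symm
  refine (cls_w ?_ ?_).gen_le ?_
  · rintro _ ⟨n, rfl⟩
    exact sub_cls ⟨n, by simp only [star_mul, star_pow, hx, he.st, hp]⟩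
  · rintro _ ⟨n, rfl⟩ _ ⟨m, rfl⟩
    refine sub_cls ⟨n + m, ?_⟩
    simp only
    rw [mul_assoc, ← mul_assoc (x ^ n), hp, mul_assoc, he.l, pow_add]
  · rintro s (rfl | rfl)
    · exact sub_cls ⟨0, by simp⟩
    · exact sub_cls ⟨1, by simp⟩

end TW

end Pool.Agent.Lib.MP_263241_an
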