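import Pool.Agent.Lib.MP_263241_an.XW

/-! Averaged Cauchy processes. -/

namespace Pool.Agent.Lib.MP_263241_an

open Filter Topology Finset

variable {R H : Type*} [CStarAlgebra R] [NormedAddCommGroup H] [InnerProductSpace ℂ H]

theorem xh_div {a n k i : ℕ} (hi : i < a * 2 ^ (n + k)) : i / 2 ^ k < a * 2 ^ n := by
  rw [Nat.div_lt_iff_lt_mul (by positivity), mul_assoc, ← pow_add]
  exact hi

theorem xh_sq {u v w K : ℝ} (hu : 0 ≤ u) (h : u ≤ K * (v + w)) :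
    u ^ 2 ≤ 2 * K ^ 2 * (v ^ 2 + w ^ 2) := by
  have h1 : u ^ 2 ≤ (K * (v + w)) ^ 2 := pow_le_pow_left₀ hu h 2
  have h2 : (v + w) ^ 2 ≤ 2 * (v ^ 2 + w ^ 2) := by nlinarith [sq_nonneg (v - w)]
  have h3 := mul_le_mul_of_nonneg_left h2 (sq_nonneg K)
  rw [mul_pow] at h1
  linarith

namespace TW

variable {T : TW R H} {f : ℝ → R} {S : ℝ → Set R} {M : Set R} (h : T.Fl f S M)
include h

theorem Fl.sum_sqrt {a : ℕ} {e : ℕ → ℕ → ℝ}
    (he : Tendsto (fun n => ∑ j ∈ range (a * 2 ^ n), e n j ^ 2) atTop (𝓝 0)) :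
    Tendsto (fun n => ∑ j ∈ range (a * 2 ^ n), √(T.dl f n j) * |e n j|) atTop (𝓝 0) := by
  have h1 := he.sqrt
  rw [Real.sqrt_zero] at h1
  refine squeeze_zero (fun n => sum_nonneg fun j _ => by positivity) (fun n => ?_) h1
  refine Real.le_sqrt_of_sq_le ((sum_mul_sq_le_sq_mul_sq _ _ _).trans ?_)
  simp only [sq_abs]
  refine mul_le_of_le_one_left (sum_nonneg fun j _ => sq_nonneg _) ?_
  rw [sum_congr rfl fun j _ => Real.sq_sqrt (h.pos n j).le]
  exact h.sum_dl n _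

theorem Fl.sum_sq (a : ℕ) :
    Tendsto (fun n => ∑ j ∈ range (a * 2 ^ n), T.dl f n j ^ 2) atTop (𝓝 0) := by
  refine Metric.tendsto_atTop.2 fun ε hε => ?_
  obtain ⟨N, hN⟩ := h.mesh (ε / 2) (half_pos hε)
  refine ⟨N, fun n hn => ?_⟩
  rw [Real.dist_0_eq_abs, abs_of_nonneg (sum_nonneg fun j _ => sq_nonneg _)]
  calc ∑ j ∈ range (a * 2 ^ n), T.dl f n j ^ 2
      ≤ ∑ j ∈ range (a * 2 ^ n), ε / 2 * T.dl f n j := sum_le_sum fun j _ => by
        rw [sq]
        exact mul_le_mul_of_nonneg_right (hN n hn j) (h.pos n j).le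
    _ ≤ ε / 2 := by
        rw [← mul_sum]
        exact mul_le_of_le_one_right (half_pos hε).le (h.sum_dl n _)
    _ < ε := half_lt_self hε

theorem Fl.xh_sub (n k i : ℕ) : S (tm n (i / 2 ^ k)) ⊆ S (tm (n + k) i) :=
  h.smono _ _ (tm_div n k i).1

/-- Thin slices for adapted processes. -/
theorem Fl.ts_proc {a : ℕ} {x : ℕ → ℕ → R} (hx : ∀ n j, x n j ∈ S (tm n j)) (hc : T.AvC f a x) :
    Tendsto (fun n => ∑ j ∈ range (a * 2 ^ n), ‖T.ι (T.dev (sl f n j) (x n j))‖ ^ 2) atTop (𝓝 0) := by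
  obtain ⟨C, hC, hb⟩ := h.ce_bd a
  refine Metric.tendsto_atTop.2 fun ε hε => ?_
  obtain ⟨N, hN⟩ := hc (ε / (4 * C)) (by positivity)
  have h1 : Tendsto (fun n => ∑ c ∈ range (a * 2 ^ N),
      ∑ j ∈ range (a * 2 ^ n), ‖T.ι (T.dev (sl f n j) (x N c))‖ ^ 2) atTop (𝓝 0) := by
    simpa using tendsto_finsetSum (range (a * 2 ^ N)) fun c _ => h.ts a _ (h.sub _ (hx N c))
  obtain ⟨N', hN'⟩ := Metric.tendsto_atTop.1 h1 (ε / 4) (by positivity)
  refine ⟨max N N', fun n hn => ?_⟩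
  obtain ⟨k, rfl⟩ := Nat.exists_eq_add_of_le ((le_max_left _ _).trans hn)
  have h2 := hN' _ ((le_max_right _ _).trans hn)
  have h3 := hN N le_rfl k
  rw [Real.dist_0_eq_abs] at h2 ⊢
  rw [abs_of_nonneg (sum_nonneg fun j _ => sq_nonneg _)]
  have h4 := (le_abs_self _).trans_lt h2
  rw [sum_comm] at h4
  have h5 : ∑ j ∈ range (a * 2 ^ (N + k)), ‖T.ι (T.dev (sl f (N + k) j) (x (N + k) j))‖ ^ 2 ≤
      ∑ j ∈ range (a * 2 ^ (N + k)),
        (2 * C * (T.dl f (N + k) j * ‖T.ι (x (N + k) j - x N (j / 2 ^ k))‖ ^ 2) +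
          2 * ∑ c ∈ range (a * 2 ^ N), ‖T.ι (T.dev (sl f (N + k) j) (x N c))‖ ^ 2) := by
    refine sum_le_sum fun j hj => ?_
    have hj' := mem_range.1 hj
    have k1 : x (N + k) j - x N (j / 2 ^ k) ∈ S (tm (N + k) j) :=
      (h.alg _).sub (hx _ _) (h.xh_sub N k j (hx _ _))
    have k2 := (l2_slice (h.alg _) (h.sl_pr (N + k) j) (hb _ j hj') k1).1
    have k3 := pow_le_pow_left₀ (norm_nonneg _)
      (dev_le' (T := T) (h.sl_pr (N + k) j) (x (N + k) j - x N (j / 2 ^ k))) 2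
    have k4 : ‖T.ι (T.dev (sl f (N + k) j) (x N (j / 2 ^ k)))‖ ^ 2 ≤
        ∑ c ∈ range (a * 2 ^ N), ‖T.ι (T.dev (sl f (N + k) j) (x N c))‖ ^ 2 :=
      single_le_sum (f := fun c => ‖T.ι (T.dev (sl f (N + k) j) (x N c))‖ ^ 2)
        (fun c _ => sq_nonneg _) (mem_range.2 (xh_div hj'))
    have k5 : ‖T.ι (T.dev (sl f (N + k) j) (x (N + k) j))‖ ≤
        1 * (‖T.ι (T.dev (sl f (N + k) j) (x (N + k) j - x N (j / 2 ^ k)))‖ +
          ‖T.ι (T.dev (sl f (N + k) j) (x N (j / 2 ^ k)))‖) := by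
      rw [one_mul, dev_sub, map_sub]
      exact norm_le_norm_sub_add _ _
    have k6 := xh_sq (norm_nonneg _) k5
    linarith
  rw [sum_add_distrib, ← mul_sum, ← mul_sum] at h5
  have h6 := mul_le_mul_of_nonneg_left h3 (show 0 ≤ 2 * C by positivity)
  have h7 : 2 * C * (ε / (4 * C)) = ε / 2 := by field_simp; ring
  linarith

theorem Fl.ac_of_inc {a : ℕ} {x : ℝ → R} {K : ℝ} (hx : ∀ n j j', j ≤ j' → j' ≤ a * 2 ^ n →
    ‖T.ι (x (tm n j') - x (tm n j))‖ ≤ K * ‖T.ι (f (tm n j') - f (tm n j))‖) :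
    T.AvC f a fun n j => x (tm n j) := by
  intro ε hε
  obtain ⟨N, hN⟩ := h.mesh (ε / (K ^ 2 + 1)) (by positivity)
  refine ⟨N, fun n hn k => ?_⟩
  calc ∑ i ∈ range (a * 2 ^ (n + k)),
        T.dl f (n + k) i * ‖T.ι (x (tm (n + k) i) - x (tm n (i / 2 ^ k)))‖ ^ 2
      ≤ ∑ i ∈ range (a * 2 ^ (n + k)), T.dl f (n + k) i * ε := by
        refine sum_le_sum fun i hi => mul_le_mul_of_nonneg_left ?_ (h.pos _ _).le
        have k1 := hx (n + k) (i / 2 ^ k * 2 ^ k) i (Nat.div_mul_le_self _ _) (mem_range.1 hi).le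
        rw [tm_mul] at k1
        have k2 := pow_le_pow_left₀ (norm_nonneg _) k1 2
        have k3 : Pr (f (tm (n + k) i) - f (tm n (i / 2 ^ k))) :=
          (h.pr _).sub (h.pr _) (h.mono _ _ (tm_div n k i).1)
        have k4 : (T.tau (f (tm (n + k) i) - f (tm n (i / 2 ^ k)))).re =
            T.te f (tm n (i / 2 ^ k)) - T.te f (tm (n + k) i) := by
          simp only [te, map_sub, Complex.sub_re]
          ring
        have k5 := h.te_anti ((tm_mono (Nat.le_succ i)).trans (tm_div n k i).2)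
        rw [h.te_succ] at k5
        rw [mul_pow, l2_pr k3, Real.sq_sqrt (tau_pr_re k3).2, k4] at k2
        have k6 := hN n hn (i / 2 ^ k)
        have k7 : K ^ 2 * (T.te f (tm n (i / 2 ^ k)) - T.te f (tm (n + k) i)) ≤
            K ^ 2 * (ε / (K ^ 2 + 1)) := mul_le_mul_of_nonneg_left (by linarith) (sq_nonneg K)
        have k8 : K ^ 2 * (ε / (K ^ 2 + 1)) ≤ ε := by
          rw [← mul_div_assoc, div_le_iff₀ (by positivity)]
          nlinarith
        linarith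
    _ ≤ ε := by
        rw [← sum_mul]
        exact mul_le_of_le_one_left hε.le (h.sum_dl _ _)

theorem Fl.xh_two {a : ℕ} {x y z : ℕ → ℕ → R} {K : ℝ} (hx : T.AvC f a x) (hy : T.AvC f a y)
    (hz : ∀ n k i, i < a * 2 ^ (n + k) → ‖T.ι (z (n + k) i - z n (i / 2 ^ k))‖ ≤
      K * (‖T.ι (x (n + k) i - x n (i / 2 ^ k))‖ + ‖T.ι (y (n + k) i - y n (i / 2 ^ k))‖)) :
    T.AvC f a z := by
  intro ε hε
  obtain ⟨N, hN⟩ := hx (ε / (4 * (K ^ 2 + 1))) (by positivity)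
  obtain ⟨N', hN'⟩ := hy (ε / (4 * (K ^ 2 + 1))) (by positivity)
  refine ⟨max N N', fun n hn k => ?_⟩
  have h1 := hN n ((le_max_left _ _).trans hn) k
  have h2 := hN' n ((le_max_right _ _).trans hn) k
  calc ∑ i ∈ range (a * 2 ^ (n + k)),
        T.dl f (n + k) i * ‖T.ι (z (n + k) i - z n (i / 2 ^ k))‖ ^ 2
      ≤ ∑ i ∈ range (a * 2 ^ (n + k)), 2 * K ^ 2 *
          (T.dl f (n + k) i * ‖T.ι (x (n + k) i - x n (i / 2 ^ k))‖ ^ 2 +
            T.dl f (n + k) i * ‖T.ι (y (n + k) i - y n (i / 2 ^ k))‖ ^ 2) := by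
        refine sum_le_sum fun i hi => ?_
        have k1 := mul_le_mul_of_nonneg_left
          (xh_sq (norm_nonneg _) (hz n k i (mem_range.1 hi))) (h.pos (n + k) i).le
        linarith
    _ ≤ 2 * K ^ 2 * (ε / (4 * (K ^ 2 + 1)) + ε / (4 * (K ^ 2 + 1))) := by
        rw [← mul_sum, sum_add_distrib]
        exact mul_le_mul_of_nonneg_left (add_le_add h1 h2) (by positivity)
    _ ≤ ε := by
        rw [← add_div, ← mul_div_assoc, div_le_iff₀ (by positivity)]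
        nlinarith

theorem Fl.ac_const (a : ℕ) (x : R) : T.AvC f a fun _ _ => x := by
  have _ := h.one
  intro ε hε
  exact ⟨0, fun n _ k => by simpa using hε.le⟩

theorem Fl.ac_add {a : ℕ} {x y : ℕ → ℕ → R} (hx : T.AvC f a x) (hy : T.AvC f a y) :
    T.AvC f a fun n j => x n j + y n j := by
  refine h.xh_two (K := 1) hx hy fun n k i _ => ?_
  rw [one_mul, add_sub_add_comm, map_add]
  exact norm_add_le _ _

theorem Fl.ac_mul {a : ℕ} {x y : ℕ → ℕ → R} {K : ℝ} (hx : T.AvC f a x) (hy : T.AvC f a y)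
    (bx : ∀ n j, j < a * 2 ^ n → ‖x n j‖ ≤ K) (by' : ∀ n j, j < a * 2 ^ n → ‖y n j‖ ≤ K) :
    T.AvC f a fun n j => x n j * y n j := by
  refine h.xh_two (K := K) hx hy fun n k i hi => ?_
  have e : x (n + k) i * y (n + k) i - x n (i / 2 ^ k) * y n (i / 2 ^ k) =
      (x (n + k) i - x n (i / 2 ^ k)) * y n (i / 2 ^ k) +
        x (n + k) i * (y (n + k) i - y n (i / 2 ^ k)) := by noncomm_ring
  rw [e, map_add, mul_add]
  refine (norm_add_le _ _).trans (add_le_add ?_ ?_)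
  · exact (T.norm_mul' _ _).trans
      (mul_le_mul_of_nonneg_right (by' _ _ (xh_div hi)) (norm_nonneg _))
  · exact (T.norm_mul _ _).trans (mul_le_mul_of_nonneg_right (bx _ _ hi) (norm_nonneg _))

theorem Fl.ac_of_le {a : ℕ} {x y : ℕ → ℕ → R} {K : ℝ} (hx : T.AvC f a x)
    (hy : ∀ n j n' j', j < a * 2 ^ n → j' < a * 2 ^ n' →
      ‖T.ι (y n j - y n' j')‖ ≤ K * ‖T.ι (x n j - x n' j')‖) : T.AvC f a y := by
  refine h.xh_two (K := K / 2) hx hx fun n k i hi => ?_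
  have h1 := hy _ _ _ _ hi (xh_div hi)
  linarith

theorem Fl.xh_block (n k c : ℕ) :
    ∑ r ∈ range (2 ^ k), T.dl f (n + k) (c * 2 ^ k + r) = T.dl f n c := by
  simp only [dl]
  rw [← h.sum_block n k c, map_sum, Complex.re_sum]

/-- The pairing of an adapted element with the normalized covariance. -/
theorem Fl.xh_ip (n j : ℕ) {d : R} (hd : d ∈ S (tm n j)) :
    T.dl f n j * T.ip d ((((T.dl f n j)⁻¹ : ℝ) : ℂ) • T.ce (S (tm n j)) (sl f n j)) =
      T.ip d (sl f n j) := by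
  rw [ip_smul_r, mul_inv_cancel_left₀ (h.pos n j).ne', (h.alg _).ce_ip _ hd]

/-- The martingale argument. -/
theorem Fl.ac_ce (a : ℕ) :
    T.AvC f a fun n j => (((T.dl f n j)⁻¹ : ℝ) : ℂ) • T.ce (S (tm n j)) (sl f n j) := by
  obtain ⟨C, hC, hb⟩ := h.ce_bd a
  set x : ℕ → ℕ → R := fun n j => (((T.dl f n j)⁻¹ : ℝ) : ℂ) • T.ce (S (tm n j)) (sl f n j)
    with hx
  have hm : ∀ n j, x n j ∈ S (tm n j) := fun n j => (h.alg _).smul _ ((h.alg _).ce_mem _)
  let A : ℕ → ℝ := fun n => ∑ j ∈ range (a * 2 ^ n), T.dl f n j * ‖T.ι (x n j)‖ ^ 2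
  have key : ∀ n k, ∑ i ∈ range (a * 2 ^ (n + k)),
      T.dl f (n + k) i * ‖T.ι (x (n + k) i - x n (i / 2 ^ k))‖ ^ 2 = A (n + k) - A n := by
    intro n k
    simp only [A]
    rw [pow_add, ← mul_assoc, sum_blocks (a * 2 ^ n) (2 ^ k),
      sum_blocks (a * 2 ^ n) (2 ^ k) fun j => T.dl f (n + k) j * ‖T.ι (x (n + k) j)‖ ^ 2,
      ← sum_sub_distrib]
    refine sum_congr rfl fun c _ => ?_
    have k1 : ∀ r ∈ range (2 ^ k), T.dl f (n + k) (c * 2 ^ k + r) *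
        ‖T.ι (x (n + k) (c * 2 ^ k + r) - x n ((c * 2 ^ k + r) / 2 ^ k))‖ ^ 2 =
        T.dl f (n + k) (c * 2 ^ k + r) * ‖T.ι (x (n + k) (c * 2 ^ k + r))‖ ^ 2 -
          2 * T.ip (x n c) (sl f (n + k) (c * 2 ^ k + r)) +
          T.dl f (n + k) (c * 2 ^ k + r) * ‖T.ι (x n c)‖ ^ 2 := by
      intro r hr
      have e : (c * 2 ^ k + r) / 2 ^ k = c := by
        rw [add_comm, Nat.add_mul_div_right _ _ (by positivity), Nat.div_eq_of_lt (mem_range.1 hr),
          zero_add]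
      have k2 := h.xh_sub n k (c * 2 ^ k + r) (hm n _)
      rw [e] at k2 ⊢
      rw [l2_sub_sq, ip_comm, ← h.xh_ip (n + k) (c * 2 ^ k + r) k2]
      ring
    have k3 : ∑ r ∈ range (2 ^ k), T.ip (x n c) (sl f (n + k) (c * 2 ^ k + r)) =
        T.dl f n c * ‖T.ι (x n c)‖ ^ 2 := by
      rw [← ip_self, h.xh_ip n c (hm n c), ← h.sum_block n k c]
      simp only [ip, mul_sum, map_sum, Complex.re_sum]
    rw [sum_congr rfl k1, sum_add_distrib, sum_sub_distrib, ← mul_sum, ← sum_mul, k3, h.xh_block]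
    ring
  have mono : Monotone A := fun n m hnm => by
    obtain ⟨k, rfl⟩ := Nat.exists_eq_add_of_le hnm
    rw [← sub_nonneg, ← key]
    exact sum_nonneg fun i _ => mul_nonneg (h.pos _ _).le (sq_nonneg _)
  have bdd : BddAbove (Set.range A) := by
    refine ⟨C ^ 2, ?_⟩
    rintro _ ⟨n, rfl⟩
    calc A n ≤ ∑ j ∈ range (a * 2 ^ n), T.dl f n j * C ^ 2 := by
          refine sum_le_sum fun j hj => mul_le_mul_of_nonneg_left
            (pow_le_pow_left₀ (norm_nonneg _) ((l2_le h.one _).trans ?_) 2) (h.pos n j).le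
          have k1 := h.pos n j
          simp only [hx]
          rw [norm_smul, Complex.norm_real, Real.norm_of_nonneg (inv_nonneg.2 k1.le),
            inv_mul_le_iff₀ k1, mul_comm]
          exact hb n j (mem_range.1 hj)
      _ ≤ C ^ 2 := by
          rw [← sum_mul]
          exact mul_le_of_le_one_left (sq_nonneg C) (h.sum_dl _ _)
  intro ε hε
  obtain ⟨N, hN⟩ := exists_lt_of_lt_ciSup (show (⨆ n, A n) - ε < ⨆ n, A n by linarith)
  refine ⟨N, fun n hn k => ?_⟩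
  rw [key]
  have h1 := le_ciSup bdd (n + k)
  have h2 := mono hn
  linarith

end TW

end Pool.Agent.Lib.MP_263241_an
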