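import Pool.Agent.Lib.MP_263241_an.XF

/-! Thin slices; conjugation; transfer of freeness to a larger algebra. -/

namespace Pool.Agent.Lib.MP_263241_an

open Filter Topology MeasureTheory Set

variable {R H : Type*} [CStarAlgebra R] [NormedAddCommGroup H] [InnerProductSpace ℂ H]

namespace TW

variable {T : TW R H} {r : R} {μ : Measure ℝ} {f : ℝ → R}

theorem xi_cen_star {A : Set R} (hA : T.IsW A) {x : R} (hx : x ∈ T.cen A) : star x ∈ T.cen A :=
  ⟨hA.star hx.1, by rw [T.tau_star, hx.2, map_zero]⟩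

theorem xi_core_star {A C : Set R} (hA : T.IsW A) (hC : T.IsW C) {u : R}
    (hu : Core (T.cen A) (T.cen C) u) : Core (T.cen A) (T.cen C) (star u) := by
  induction hu with
  | one h => exact .one (xi_cen_star hC h)
  | cons h1 h2 _ ih =>
    rw [star_mul, star_mul, mul_assoc]
    exact ih.append (xi_cen_star hA h2) (.one (xi_cen_star hC h1))

/-- The `L²` norm of a core word between two elements of the first algebra. -/
theorem xi_l2_core (h1 : T.tau 1 = 1) {D C : Set R} (hD : T.Alg 1 D) (hC : T.Alg 1 C)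
    (hF : T.Free D C) {x y u : R} (hx : x ∈ D) (hy : y ∈ D) (hu : Core (T.cen D) (T.cen C) u) :
    ‖T.ι (x * u * y)‖ ^ 2 = ‖T.ι x‖ ^ 2 * ‖T.ι (u * y)‖ ^ 2 := by
  have hp : T.tau 1 ≠ 0 := by rw [h1]; exact one_ne_zero
  obtain ⟨d, hd, c, e⟩ := hD.dec hp (hD.mul (hD.star hx) hx)
  have hc : c = ((‖T.ι x‖ ^ 2 : ℝ) : ℂ) := by
    rw [← T.tau_sq, e, map_add, hd.2, map_smul, h1, smul_eq_mul, mul_one, zero_add]
  have h0 : T.tau (star y * (star u * (d * u)) * y) = 0 := by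
    rw [T.tau_comm, ← mul_assoc]
    exact tau_core hp hD hC hF (hD.mul hy (hD.star hy))
      ((xi_core_star hD.toIsW hC.toIsW hu).append hd hu)
  have h2 : star (x * u * y) * (x * u * y) =
      star y * (star u * (d * u)) * y + c • (star (u * y) * (u * y)) := by
    have : star (x * u * y) * (x * u * y) = star y * (star u * ((star x * x) * u)) * y := by
      simp only [star_mul, mul_assoc]
    rw [this, e]
    simp only [star_mul, add_mul, mul_add, smul_mul_assoc, mul_smul_comm, one_mul, mul_assoc]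
  have h3 := T.tau_sq (x * u * y)
  rw [h2, map_add, h0, zero_add, map_smul, T.tau_sq, hc, smul_eq_mul] at h3
  exact_mod_cast h3.symm

omit [InnerProductSpace ℂ H] in
theorem xi_sq_add (a b : H) : ‖a + b‖ ^ 2 ≤ 2 * ‖a‖ ^ 2 + 2 * ‖b‖ ^ 2 := by
  have := norm_add_le a b
  nlinarith [norm_nonneg a, norm_nonneg b, norm_nonneg (a + b), sq_nonneg (‖a‖ - ‖b‖)]

section sf

variable (h : T.SF r μ f)
include h

theorem xi_le (n j : ℕ) : f (tm n (j + 1)) * f (tm n j) = f (tm n j) :=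
  h.mono _ _ (tm_mono (Nat.le_succ j))

theorem xi_pr (n j : ℕ) : Pr (sl f n j) := (h.pr _).sub (h.pr _) (xi_le h n j)

theorem xi_mem (n j : ℕ) : sl f n j ∈ T.gen {1, r} := (gen_w _).sub (h.mem _) (h.mem _)

theorem xi_bessel (n N : ℕ) (x : R) :
    ∑ j ∈ Finset.range N, ‖T.ι (sl f n j * x)‖ ^ 2 ≤ ‖T.ι x‖ ^ 2 := by
  have h2 := pyth_flag (T := T) (f := fun j => f (tm n j)) (fun j => h.pr _) (xi_le h n) N x
  have h3 : Pr (f (tm n N) - f (tm n 0)) :=
    (h.pr _).sub (h.pr _) (h.mono _ _ (tm_mono (Nat.zero_le N)))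
  refine h2.le.trans (pow_le_pow_left₀ (norm_nonneg _) ((T.norm_mul _ _).trans ?_) 2)
  exact mul_le_of_le_one_left (norm_nonneg _) h3.norm_le

theorem xi_mass (h1 : T.tau 1 = 1) (n N : ℕ) :
    ∑ j ∈ Finset.range N, ‖T.ι (sl f n j)‖ ^ 2 ≤ 1 := by
  simpa only [mul_one, l2_one h1, one_pow] using xi_bessel h n N 1

theorem xi_dl (n j : ℕ) : ‖T.ι (sl f n j)‖ ^ 2 = T.dl f n j := by
  rw [dl, T.tau_pr (xi_pr h n j), Complex.ofReal_re]

theorem xi_sub (a : ℕ) : T.IsSub {x | Tendsto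
    (fun n => ∑ j ∈ Finset.range (a * 2 ^ n), ‖T.ι (T.dev (sl f n j) x)‖ ^ 2) atTop (𝓝 0)} := by
  have nn : ∀ n x, 0 ≤ ∑ j ∈ Finset.range (a * 2 ^ n), ‖T.ι (T.dev (sl f n j) x)‖ ^ 2 :=
    fun n x => Finset.sum_nonneg fun _ _ => sq_nonneg _
  have ad : ∀ n x y, ∑ j ∈ Finset.range (a * 2 ^ n), ‖T.ι (T.dev (sl f n j) (x + y))‖ ^ 2 ≤
      2 * ∑ j ∈ Finset.range (a * 2 ^ n), ‖T.ι (T.dev (sl f n j) x)‖ ^ 2 +
      2 * ∑ j ∈ Finset.range (a * 2 ^ n), ‖T.ι (T.dev (sl f n j) y)‖ ^ 2 := fun n x y => by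
    rw [Finset.mul_sum, Finset.mul_sum, ← Finset.sum_add_distrib]
    refine Finset.sum_le_sum fun j _ => ?_
    rw [dev_add, map_add]
    exact xi_sq_add _ _
  have sm : ∀ n (c : ℂ) x, ∑ j ∈ Finset.range (a * 2 ^ n), ‖T.ι (T.dev (sl f n j) (c • x))‖ ^ 2 =
      ‖c‖ ^ 2 * ∑ j ∈ Finset.range (a * 2 ^ n), ‖T.ι (T.dev (sl f n j) x)‖ ^ 2 := fun n c x => by
    simp only [Finset.mul_sum, dev_smul, map_smul, norm_smul, mul_pow]
  have bd : ∀ n x, ∑ j ∈ Finset.range (a * 2 ^ n), ‖T.ι (T.dev (sl f n j) x)‖ ^ 2 ≤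
      ‖T.ι x‖ ^ 2 := fun n x => (Finset.sum_le_sum fun j _ =>
    pow_le_pow_left₀ (norm_nonneg _) (dev_le' (xi_pr h n j) x) 2).trans (xi_bessel h n _ x)
  refine ⟨?_, fun {x y} hx hy => ?_, fun c x hx => ?_, fun b x hb hl => ?_⟩
  · exact squeeze_zero (nn · 0) (bd · 0) (by simp)
  · refine squeeze_zero (nn · _) (ad · x y) ?_
    simpa using (hx.out.const_mul 2).add (hy.out.const_mul 2)
  · simp only [Set.mem_ofPred_eq, sm]
    simpa using hx.out.const_mul (‖c‖ ^ 2)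
  · refine Metric.tendsto_atTop.2 fun ε hε => ?_
    have h2 : Tendsto (fun k => ‖T.ι (b k - x)‖ ^ 2) atTop (𝓝 0) := by
      simpa using (lim_iff.1 hl).pow 2
    obtain ⟨k, hk⟩ := (h2.eventually (gt_mem_nhds (show 0 < ε / 4 by positivity))).exists
    obtain ⟨N, hN⟩ := eventually_atTop.1
      ((hb k).out.eventually (gt_mem_nhds (show 0 < ε / 4 by positivity)))
    refine ⟨N, fun n hn => ?_⟩
    rw [Real.dist_eq, sub_zero, abs_of_nonneg (nn n x)]
    have h3 := ad n (b k) (x - b k)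
    have h4 := bd n (x - b k)
    rw [add_sub_cancel] at h3
    rw [map_sub, norm_sub_rev, ← map_sub] at h4
    linarith [hN n hn]

theorem xi_pow (h1 : T.tau 1 = 1) (a k : ℕ) : Tendsto
    (fun n => ∑ j ∈ Finset.range (a * 2 ^ n), ‖T.ι (T.dev (sl f n j) (r ^ k))‖ ^ 2) atTop
      (𝓝 0) := by
  refine squeeze_zero (g := fun n : ℕ => ((k : ℝ) * ((2 : ℝ) ^ n)⁻¹) ^ 2)
    (fun n => Finset.sum_nonneg fun _ _ => sq_nonneg _) (fun n => ?_) ?_
  · refine le_trans (Finset.sum_le_sum fun j _ => ?_) ((Finset.mul_sum _ _ _).symm.le.trans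
      (mul_le_of_le_one_right (sq_nonneg _) (xi_mass h h1 n (a * 2 ^ n))))
    have hq := xi_pr h n j
    have e : T.dev (sl f n j) (r ^ k) =
        T.dev (sl f n j) (r ^ k - ((lv (tm n j) : ℝ) : ℂ) ^ k • (1 : R)) := by
      rw [dev_sub, dev_smul, dev_one hq, smul_zero, sub_zero]
    rw [e, ← mul_pow]
    refine pow_le_pow_left₀ (norm_nonneg _) ((dev_le hq _).trans ?_) 2
    rw [mul_assoc]
    exact (T.norm_mul _ _).trans
      ((mul_le_of_le_one_left (norm_nonneg _) hq.norm_le).trans (h.osc n j k))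
  · have := ((tendsto_inv_atTop_zero.comp
      (tendsto_pow_atTop_atTop_of_one_lt (one_lt_two (α := ℝ)))).const_mul (k : ℝ)).pow 2
    simpa using this

theorem xi_tt (h1 : T.tau 1 = 1) {C : Set R} (hC : T.Alg 1 C) (hF : T.Free (T.gen {1, r}) C)
    (a : ℕ) {x : R} (hx : x ∈ T.TT (T.gen {1, r}) C) : Tendsto
    (fun n => ∑ j ∈ Finset.range (a * 2 ^ n), ‖T.ι (T.dev (sl f n j) x)‖ ^ 2) atTop (𝓝 0) := by
  obtain ⟨b, hb, u, hu, b', hb', rfl⟩ := hx
  have hD : T.Alg 1 (T.gen {1, r}) := gen1_alg _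
  refine Metric.tendsto_atTop.2 fun ε hε => ?_
  set K : ℝ := (‖b‖ * (‖u‖ * ‖b'‖)) ^ 2 with hK
  have K0 : 0 ≤ K := sq_nonneg _
  obtain ⟨N, hN⟩ := h.mesh (ε / (K + 1)) (by positivity)
  refine ⟨N, fun n hn => ?_⟩
  rw [Real.dist_eq, sub_zero, abs_of_nonneg (Finset.sum_nonneg fun _ _ => sq_nonneg _)]
  have h2 : K * (ε / (K + 1)) < ε := by
    rw [← mul_div_assoc, div_lt_iff₀ (by positivity)]
    nlinarith
  refine lt_of_le_of_lt (le_trans (Finset.sum_le_sum fun j _ => ?_)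
    ((Finset.mul_sum _ _ _).symm.le.trans
      (mul_le_of_le_one_right (by positivity) (xi_mass h h1 n (a * 2 ^ n))))) h2
  have hq := xi_pr h n j
  have hm := xi_mem h n j
  refine (pow_le_pow_left₀ (norm_nonneg _) (dev_le hq _) 2).trans ?_
  have e : sl f n j * (b * u * b') * sl f n j = sl f n j * b * u * (b' * sl f n j) := by
    simp only [mul_assoc]
  rw [e, xi_l2_core h1 hD hC hF (hD.mul hm hb) (hD.mul hb' hm) hu]
  have i1 : ‖T.ι (sl f n j * b)‖ ≤ ‖b‖ * ‖T.ι (sl f n j)‖ := T.norm_mul' _ _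
  have i2 : ‖T.ι (u * (b' * sl f n j))‖ ≤ ‖u‖ * ‖b'‖ * ‖T.ι (sl f n j)‖ := by
    rw [mul_assoc]
    exact (T.norm_mul _ _).trans (mul_le_mul_of_nonneg_left (T.norm_mul _ _) (norm_nonneg _))
  refine (mul_le_mul (pow_le_pow_left₀ (norm_nonneg _) i1 2) (pow_le_pow_left₀ (norm_nonneg _) i2 2)
    (sq_nonneg _) (sq_nonneg _)).trans ?_
  have i3 : ‖T.ι (sl f n j)‖ ^ 2 ≤ ε / (K + 1) := (xi_dl h n j).trans_le (hN n hn j)
  calc (‖b‖ * ‖T.ι (sl f n j)‖) ^ 2 * (‖u‖ * ‖b'‖ * ‖T.ι (sl f n j)‖) ^ 2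
      = K * ‖T.ι (sl f n j)‖ ^ 2 * ‖T.ι (sl f n j)‖ ^ 2 := by rw [hK]; ring
    _ ≤ _ := mul_le_mul_of_nonneg_right (mul_le_mul_of_nonneg_left i3 K0) (sq_nonneg _)

end sf

/-- Thin slices. -/
theorem SF.ts (h : T.SF r μ f) (h1 : T.tau 1 = 1) {C : Set R} (hC : T.Alg 1 C)
    (hF : T.Free (T.gen {1, r}) C) (a : ℕ) {x : R} (hx : x ∈ T.gen (T.gen {1, r} ∪ C)) : Tendsto
    (fun n => ∑ j ∈ Finset.range (a * 2 ^ n), ‖T.ι (T.dev (sl f n j) x)‖ ^ 2) atTop (𝓝 0) := by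
  have hp : T.tau 1 ≠ 0 := by rw [h1]; exact one_ne_zero
  refine (xi_sub h a).cls_le ?_ (normal_form hp (gen1_alg _) hC hx)
  rintro y (hy | hy)
  · have h2 := gen_sub_pow (T := T) Pr.one h.sm.sa.st (by rw [one_mul, mul_one])
    rw [one_mul] at h2
    refine (xi_sub h a).cls_le ?_ (h2 hy)
    rintro _ ⟨k, rfl⟩
    simpa only [one_mul, Set.mem_ofPred_eq] using xi_pow h h1 a k
  · exact xi_tt h h1 hC hF a hy

theorem xi_conj_mul {U : R} (h2 : U * star U = 1) (x y : R) :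
    star U * (x * y) * U = star U * x * U * (star U * y * U) := by
  simp only [mul_assoc]
  rw [← mul_assoc U, h2, one_mul]

theorem xi_conj_star (U x : R) : star U * star x * U = star (star U * x * U) := by
  simp only [star_mul, star_star, mul_assoc]

theorem gr_conj {U : R} (h1 : star U * U = 1) (h2 : U * star U = 1) :
    T.Gr T 1 1 {z | z.2 = star U * z.1 * U} := by
  refine ⟨⟨⟨⟨by simp, fun {x y} hx hy => ?_, fun c x hx => ?_, fun a x ha hl => ?_⟩,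
    fun {x y} hx hy => ?_, fun {x} hx => ?_⟩, Pr.one, ?_, fun _ => one_mul _⟩, one_pos,
    fun z hz => ?_⟩
  · rw [Set.mem_ofPred_eq, Prod.snd_add, Prod.fst_add, hx.out, hy.out, mul_add, add_mul]
  · rw [Set.mem_ofPred_eq, Prod.smul_snd, Prod.smul_fst, hx.out, mul_smul_comm, smul_mul_assoc]
  · have := ((lim_prod.1 hl).1.mulL (star U)).mulR U
    simp only [← (ha _).out] at this
    exact (lim_prod.1 hl).2.unique this
  · rw [Set.mem_ofPred_eq, Prod.snd_mul, Prod.fst_mul, hx.out, hy.out, xi_conj_mul h2]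
  · rw [Set.mem_ofPred_eq, Prod.snd_star, Prod.fst_star, hx.out, xi_conj_star]
  · rw [Set.mem_ofPred_eq, Prod.snd_one, Prod.fst_one, mul_one, h1]
  · rw [hz.out, T.tau_comm, ← mul_assoc, h2, one_mul, Complex.ofReal_one, one_mul]

theorem conj_mem_gen {U : R} (h1 : star U * U = 1) (h2 : U * star U = 1) {S : Set R} {x : R}
    (hx : x ∈ T.gen S) : star U * x * U ∈ T.gen ((fun s => star U * s * U) '' S) := by
  have _ := h1
  have W := gen_w (T := T) ((fun s => star U * s * U) '' S)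
  refine IsW.gen_le (A := {x | star U * x * U ∈ T.gen ((fun s => star U * s * U) '' S)})
    ⟨W.toIsSub.comap ((LinC.id.mulL (star U)).mulR U), fun {x y} hx hy => ?_, fun {x} hx => ?_⟩
    (fun s hs => sub_gen ⟨s, hs, rfl⟩) hx
  · rw [Set.mem_ofPred_eq, xi_conj_mul h2]
    exact W.mul hx hy
  · rw [Set.mem_ofPred_eq, xi_conj_star]
    exact W.star hx

theorem xi_perp (h1 : T.tau 1 = 1) {C D : Set R} (hC : T.Alg 1 C) (hD : T.Alg 1 D)
    (hF : T.Free D C) : T.perp (T.gen (D ∪ C)) D ⊆ T.cls (T.TT D C) := by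
  have hp : T.tau 1 ≠ 0 := by rw [h1]; exact one_ne_zero
  have z : ∀ x, (∀ d ∈ D, T.tau (d * x) = 0) → T.ce D x = 0 := fun x hx =>
    hD.ce_eq hD.zero fun d hd => by rw [mul_zero, map_zero, hx d hd]
  intro x hx
  have := (cls_sub (T.TT D C)).map (LinC.id.sub hD.ce_linC) ?_ (normal_form hp hD hC hx.1)
  · rwa [z x hx.2, sub_zero] at this
  · rintro s (hs | hs)
    · rw [hD.ce_self hs, sub_self]; exact (cls_sub _).zero
    · rw [z s fun d hd => tau_TT hp hD hC hF hd hs, sub_zero]; exact sub_cls hs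

/-- An algebra that is free from `D` inside `D * C` is free from every `A ⊇ D` free from `C`. -/
theorem free_up (h1 : T.tau 1 = 1) {A B C D : Set R} (hA : T.Alg 1 A) (hB : T.Alg 1 B)
    (hC : T.Alg 1 C) (hD : T.Alg 1 D) (hDA : D ⊆ A) (hF : T.Free A C) (hs : B ⊆ T.gen (D ∪ C))
    (hBD : T.Free B D) : T.Free B A := by
  have hp : T.tau 1 ≠ 0 := by rw [h1]; exact one_ne_zero
  have hZ : T.Z (T.perp A D) (T.cls (T.TT D C)) :=
    (amalg hp hA hC hF hD hDA).cls.mono sub_cls le_rfl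
  set P := T.perp A D with hP
  set Q := T.cls (T.TT D C) with hQ
  have W := gen_w (T := T) (D ∪ C)
  have cm : ∀ k, Core (T.cen D) (T.cen B) k → k ∈ T.gen (D ∪ C) := fun k hk => by
    induction hk with
    | one h => exact hs h.1
    | cons h h' _ ih => exact W.mul (hs h.1) (W.mul (sub_gen (.inl h'.1)) ih)
  have tq : ∀ d ∈ D, ∀ k, Core (T.cen D) (T.cen B) k → ∀ d' ∈ D, d * k * d' ∈ Q :=
    fun d hd k hk d' hd' => xi_perp h1 hC hD (hF.mono hDA le_rfl)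
      ⟨W.mul (W.mul (sub_gen (.inl hd)) (cm k hk)) (sub_gen (.inl hd')), fun a ha =>
        tau_TT hp hD hB hBD.symm ha ⟨d, hd, k, hk, d', hd', rfl⟩⟩
  let W1 : Set R := {w | ∃ k, Core (T.cen D) (T.cen B) k ∧ ∃ e, (e ∈ D ∨ Alt P Q true e) ∧ w = k * e}
  have al : ∀ d ∈ D, ∀ w ∈ W1, Alt P Q false (d * w) := by
    rintro d hd _ ⟨k, hk, e, he | he, rfl⟩
    · rw [← mul_assoc]; exact .y1 (tq d hd k hk e he)
    · have := tq d hd k hk 1 hD.one
      rw [mul_one] at this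
      rw [← mul_assoc]; exact .yc this he
  let W2 : Set R := {w | w ∈ T.cen D ∨ Alt P Q true w ∨ ∃ d ∈ T.cen D, ∃ t ∈ W1, w = d * t}
  have dc : ∀ a ∈ T.cen A, ∃ d ∈ T.cen D, ∃ p ∈ P, a = d + p := fun a ha =>
    ⟨T.ce D a, ⟨hD.ce_mem a, by
      have := hD.ce_tau a hD.one
      rwa [one_mul, one_mul, ha.2] at this⟩, a - T.ce D a,
      ⟨hA.sub ha.1 (hDA (hD.ce_mem a)), fun d hd => by
        rw [mul_sub, map_sub, hD.ce_tau a hd, sub_self]⟩, (add_sub_cancel _ _).symm⟩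
  have key : ∀ b w, Alt (T.cen B) (T.cen A) b w → w ∈ T.cls (if b then W1 else W2) := by
    intro b w hw
    induction hw with
    | @x1 x h => exact sub_cls ⟨x, .one h, 1, .inl hD.one, (mul_one x).symm⟩
    | y1 h =>
      obtain ⟨d, hd, p, hp', rfl⟩ := dc _ h
      exact (cls_sub _).add (sub_cls (.inl hd)) (sub_cls (.inr (.inl (.x1 hp'))))
    | @xc x w h _ ih =>
      refine (cls_sub _).map (LinC.id.mulL x) ?_ ih
      rintro s (hs' | hs' | ⟨d, hd, _, ⟨k, hk, e, he, rfl⟩, rfl⟩)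
      · exact sub_cls ⟨x, .one h, s, .inl hs'.1, rfl⟩
      · exact sub_cls ⟨x, .one h, s, .inr hs', rfl⟩
      · exact sub_cls ⟨_, .cons h hd hk, e, he, by simp only [mul_assoc]⟩
    | @yc y w h _ ih =>
      obtain ⟨d, hd, p, hp', rfl⟩ := dc _ h
      refine (cls_sub _).map (LinC.id.mulL (d + p)) (fun s hs' => ?_) ih
      rw [add_mul]
      refine (cls_sub _).add (sub_cls (.inr (.inr ⟨d, hd, s, hs', rfl⟩)))
        (sub_cls (.inr (.inl (.xc hp' ?_))))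
      simpa only [one_mul] using al 1 hD.one s hs'
  intro b w hw
  refine ker_sub.cls_le (fun s hs' => ?_) (key b w hw)
  cases b
  · rcases hs' with hs' | hs' | ⟨d, hd, t, ht, rfl⟩
    exacts [hs'.2, hZ _ _ hs', hZ _ _ (al d hd.1 t ht)]
  · exact hZ _ _ (by simpa only [one_mul] using al 1 hD.one s hs')

end TW

end Pool.Agent.Lib.MP_263241_an
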