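import Pool.Agent.Lib.MP_263241_an.XC

/-! The Schwinger-Dyson equations in the coordinates. -/

namespace Pool.Agent.Lib.MP_263241_an

open TrivSqZeroExt Complex

variable {R H : Type*} [CStarAlgebra R] [NormedAddCommGroup H] [InnerProductSpace ℂ H]

namespace TW

variable {T : TW R H}

theorem xj_bd (x l r : R) : BdF (T.lt x l r) :=
  ⟨‖T.tau‖ * ‖l‖ * (‖T.tau‖ * ‖r‖), fun p q => by
    rw [lt_snd, bil_ev, _root_.norm_mul]
    refine (mul_le_mul ((T.tau.le_opNorm _).trans (mul_le_mul_of_nonneg_left (norm_mul_le _ _)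
      (norm_nonneg _))) ((T.tau.le_opNorm _).trans (mul_le_mul_of_nonneg_left (norm_mul_le _ _)
      (norm_nonneg _))) (norm_nonneg _) (by positivity)).trans_eq (by ring)⟩

theorem xj_world (h1 : T.tau 1 = 1) {N : Set R} (hN : T.Alg 1 N) {a b y p u : R}
    (a2 : a * star a = 1) (hy : y = (2⁻¹ : ℂ) • (a + b))
    (s1 : ∀ x ∈ N, T.tau (x * a) = T.tau (x * y))
    (s2 : ∀ x ∈ N, T.tau (x * star a) = T.tau (x * star y)) (pN : p ∈ N) (uN : u ∈ N)
    (p1 : p * (1 - y) = 1) (p2 : (1 - y) * p = 1) (u1 : u * (p + star p) = 1)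
    (u2 : (p + star p) * u = 1)
    (hw : ∀ z ∈ Algebra.adjoin ℂ ({T.lt a a 1, T.lt (star a) (-1) (star a), inl b, inl (star b)} :
      Set (DA R)), z.snd.ev 1 1 = 0) :
    ∃ (G : Subalgebra ℂ (DA R)) (U K : DA R), U ∈ G ∧ K ∈ G ∧ U.fst = u ∧
      K.fst = (-I) • ((p - star p) * u) ∧
      (∀ x ∈ N, ∀ z ∈ N, U.snd.ev ((star a - 1) * x) (z * (1 - a)) = 0) ∧
      (∀ x ∈ N, ∀ z ∈ N, K.snd.ev ((star a - 1) * x) (z * (1 - a)) = -I * (T.tau x * T.tau (u * z))) ∧
      (∀ x ∈ N, ∀ z ∈ N,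
        U.snd.ev ((star a - 1) * x) (z * (1 + a)) = -(T.tau (x * u) * T.tau (z * (1 - u)))) ∧
      (∀ w ∈ G, w.fst ∈ N → w.snd.ev (star a - 1) ((p + star p) * (1 - a)) =
        T.tau (w.fst * (p + star p) * (star y - y))) ∧
      ∀ w ∈ G, w.fst ∈ N → w.snd.ev (star a - 1) (1 + a) = T.tau (w.fst * (y + star y)) := by
  obtain ⟨G, g1, g2, g3⟩ := exists_world (T := T) (I := {(1, 1, 0)}) (L := {T.lt a a 1,
    T.lt (star a) (-1) (star a), inl b, inl (star b)}) (by
      rintro _ (rfl | rfl | rfl | rfl)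
      exacts [xj_bd _ _ _, xj_bd _ _ _, ⟨0, fun _ _ => by simp⟩, ⟨0, fun _ _ => by simp⟩])
    (by rintro _ rfl z hz; simpa using hw z hz)
  replace g3 : ∀ z ∈ G, z.snd.ev 1 1 = 0 := fun z hz => by simpa using g3 _ rfl z hz
  have mA : T.lt a a 1 ∈ G := g1 (.inl rfl)
  have mA' : T.lt (star a) (-1) (star a) ∈ G := g1 (.inr (.inl rfl))
  have mY := G.sub_mem G.one_mem (G.smul_mem (G.add_mem mA (g1 (.inr (.inr (.inl rfl))))) 2⁻¹)
  have mY' := G.sub_mem G.one_mem (G.smul_mem (G.add_mem mA' (g1 (.inr (.inr (.inr rfl))))) 2⁻¹)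
  have p3 : star p * (1 - star y) = 1 := by simpa using congrArg star p2
  have p4 : (1 - star y) * star p = 1 := by simpa using congrArg star p1
  obtain ⟨P, mP, P1, P2⟩ := g2 _ mY _ mY' (by simp) p (by simpa [hy] using p1)
    (by simpa [hy] using p2)
  obtain ⟨P', mP', P3, P4⟩ := g2 _ mY' _ mY (by simp) (star p) (by simpa [hy] using p3)
    (by simpa [hy] using p4)
  have mR := G.add_mem mP mP'
  obtain ⟨U, mU, U1, U2⟩ := g2 _ mR _ mR (by simp [P1, P3, add_comm]) u (by simpa [P1, P3] using u1)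
    (by simpa [P1, P3] using u2)
  have qN := hN.star pN
  have c1 : ∀ x, T.tau ((star a - 1) * x * a) = T.tau x - T.tau (x * a) := fun x => by
    rw [mul_assoc, T.tau_comm, mul_assoc, mul_sub, a2, mul_one, mul_sub, mul_one, map_sub]
  have c2 : ∀ x, T.tau (star a * (x * a)) = T.tau x := fun x => by
    rw [T.tau_comm, mul_assoc, a2, mul_one]
  have d1 : ∀ x, T.tau (x * p) - T.tau (x * p * y) = T.tau x := fun x => by
    rw [← map_sub, ← mul_one_sub, mul_assoc, p1, mul_one]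
  have d2 : ∀ x, T.tau (p * x) - T.tau (p * x * y) = T.tau x := fun x => by
    rw [← map_sub, ← mul_one_sub, mul_assoc, T.tau_comm, mul_assoc, p2, mul_one]
  have d3 : ∀ x, T.tau (x * star p) - T.tau (x * star p * star y) = T.tau x := fun x => by
    rw [← map_sub, ← mul_one_sub, mul_assoc, p3, mul_one]
  have d4 : ∀ x, T.tau (star p * x) - T.tau (star p * x * star y) = T.tau x := fun x => by
    rw [← map_sub, ← mul_one_sub, mul_assoc, T.tau_comm, mul_assoc, p4, mul_one]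
  have e1 : ∀ x ∈ N, ∀ w, P.snd.ev ((star a - 1) * x) w = 2⁻¹ * (T.tau x * T.tau (p * w)) :=
    fun x hx w => by
      rw [P2, mul_assoc, ← d1 x, ← s1 _ (hN.mul hx pN), ← c1]
      simp
  have e2 : ∀ x ∈ N, ∀ w, P'.snd.ev ((star a - 1) * x) w =
      2⁻¹ * (T.tau x * T.tau (star a * (star p * w))) := fun x hx w => by
    rw [P4, mul_assoc, ← d3 x, ← s2 _ (hN.mul hx qN), T.tau_comm _ (star a)]
    simp [sub_mul]
    ring
  have f1 : ∀ z ∈ N, T.tau (p * (z * (1 - a))) = T.tau z := fun z hz => by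
    rw [← mul_assoc, mul_one_sub, map_sub, s1 _ (hN.mul pN hz), d2]
  have f2 : ∀ z ∈ N, T.tau (star a * (star p * (z * (1 - a)))) = -T.tau z := fun z hz => by
    rw [← mul_assoc (star p), mul_one_sub, mul_sub, map_sub, c2, T.tau_comm, s2 _ (hN.mul qN hz),
      ← d4 z, neg_sub]
  have f3 : ∀ z ∈ N, T.tau (p * (z * (1 + a))) = 2 * T.tau (z * p) - T.tau z := fun z hz => by
    rw [← mul_assoc, mul_one_add, map_add, s1 _ (hN.mul pN hz), ← d2 z, T.tau_comm z]; ring
  have f4 : ∀ z ∈ N, T.tau (star a * (star p * (z * (1 + a)))) =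
      2 * T.tau (z * star p) - T.tau z := fun z hz => by
    rw [← mul_assoc (star p), mul_one_add, mul_add, map_add, c2, T.tau_comm, s2 _ (hN.mul qN hz),
      ← d4 z, T.tau_comm z]; ring
  have r1 : ∀ x ∈ N, ∀ z ∈ N, (P + P').snd.ev ((star a - 1) * x) (z * (1 - a)) = 0 :=
    fun x hx z hz => by
      rw [snd_add, Bf.ev_add, LinearMap.add_apply, LinearMap.add_apply, e1 x hx, e2 x hx, f1 z hz,
        f2 z hz]
      ring
  have k1 : ∀ x ∈ N, ∀ z ∈ N, U.snd.ev ((star a - 1) * x) (z * (1 - a)) = 0 := fun x hx z hz => by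
    rw [U2, mul_assoc, ← mul_assoc u, r1 _ (hN.mul hx uN) _ (hN.mul uN hz), neg_zero]
  have x1 : ∀ w, (T.lt (star a) (-1) (star a) - 1 : DA R).snd.ev 1 w = -T.tau (star a * w) :=
    fun w => by simp [h1]
  refine ⟨G, U, (-I) • ((P - P') * U), mU, G.smul_mem (G.mul_mem (G.sub_mem mP mP') mU) _, U1,
    by simp [P1, P3, U1], k1, fun x hx z hz => ?_, fun x hx z hz => ?_, fun w hw wN => ?_,
    fun w hw wN => ?_⟩
  · rw [snd_smul, Bf.ev_smul, LinearMap.smul_apply, LinearMap.smul_apply, DA.snd_mul, mul_assoc,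
      fst_sub, P1, P3, k1 _ (hN.mul hx (hN.sub pN qN)) z hz, U1, ← mul_assoc u, snd_sub, Bf.ev_sub,
      LinearMap.sub_apply, LinearMap.sub_apply, e1 x hx, e2 x hx, f1 _ (hN.mul uN hz),
      f2 _ (hN.mul uN hz), smul_eq_mul]
    ring
  · have : T.tau (u * z * p) + T.tau (u * z * star p) = T.tau z := by
      rw [← map_add, ← mul_add, mul_assoc, T.tau_comm, mul_assoc, u2, mul_one]
    rw [U2, mul_assoc, ← mul_assoc u, snd_add, Bf.ev_add, LinearMap.add_apply, LinearMap.add_apply,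
      e1 _ (hN.mul hx uN), e2 _ (hN.mul hx uN), f3 _ (hN.mul uN hz), f4 _ (hN.mul uN hz),
      mul_one_sub, map_sub, ← this, T.tau_comm z u]
    ring
  · have := DA.weight (T.lt (star a) (-1) (star a) - 1) w ((P + P') * (1 - T.lt a a 1)) 1 1
    rw [g3 _ (G.mul_mem (G.mul_mem (G.sub_mem mA' G.one_mem) hw)
      (G.mul_mem mR (G.sub_mem G.one_mem mA))), x1, DA.snd_mul] at this
    simp only [fst_sub, fst_mul, fst_add, fst_one, lt_fst, P1, P3, one_mul, mul_one] at this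
    have r2 := r1 _ wN _ hN.one
    have mw := hN.mul wN (hN.add pN qN)
    rw [one_mul] at r2
    rw [this, r2, mul_sub _ (star y), map_sub, ← s1 _ mw, ← s2 _ mw, mul_assoc (star a - 1),
      ← mul_assoc w.fst, mul_one_sub, mul_sub, map_sub, c2, T.tau_comm (star a)]
    simp [c1, h1]
  · have := DA.weight (T.lt (star a) (-1) (star a) - 1) w (1 + T.lt a a 1) 1 1
    rw [g3 _ (G.mul_mem (G.mul_mem (G.sub_mem mA' G.one_mem) hw) (G.add_mem G.one_mem mA)), x1]
      at this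
    simp only [fst_sub, fst_add, fst_one, lt_fst, one_mul, mul_one] at this
    rw [this, mul_add _ y, map_add, ← s1 _ wN, ← s2 _ wN, mul_one_add, mul_add, map_add, c2,
      T.tau_comm (star a)]
    simp [c1, h1]
    ring

variable {φ : F2 → R} (hφ : T.Reg 1 φ) (h1 : T.tau 1 = 1)
include hφ h1

variable {κ s si r ρ ρi u : R} {c0 : ℝ}
  (hc : T.Co (hh (φ (.of 0)) (φ (.of 1))) (kk (φ (.of 0)) (φ (.of 1))) κ s si r ρ ρi u c0)
include hc

theorem Reg.xj_main : ∃ (N : Set R) (G : Subalgebra ℂ (DA R)) (U K : DA R) (a g gi v : R),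
    T.Alg 1 N ∧ U ∈ G ∧ K ∈ G ∧ U.fst ∈ N ∧ K.fst ∈ N ∧ v ∈ N ∧ g * gi = 1 ∧ gi * g = 1 ∧
      u = g * U.fst * gi ∧ κ = g * K.fst * gi ∧ v * U.fst = 1 ∧
      (∀ x ∈ N, ∀ z ∈ N, U.snd.ev ((star a - 1) * x) (z * (1 - a)) = 0) ∧
      (∀ x ∈ N, ∀ z ∈ N,
        K.snd.ev ((star a - 1) * x) (z * (1 - a)) = -I * (T.tau x * T.tau (U.fst * z))) ∧
      (∀ x ∈ N, ∀ z ∈ N, U.snd.ev ((star a - 1) * x) (z * (1 + a)) =
        -(T.tau (x * U.fst) * T.tau (z * (1 - U.fst)))) ∧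
      (∀ w ∈ G, w.fst ∈ N → I * w.snd.ev (star a - 1) (v * (1 - a)) =
        T.tau ((4 : ℂ) • (κ * r) * (g * w.fst * gi))) ∧
      ∀ w ∈ G, w.fst ∈ N → w.snd.ev (star a - 1) (1 + a) =
        2 * T.tau w.fst - 4 * T.tau (g * w.fst * gi * u * r) := by
  obtain ⟨y, hy⟩ : ∃ y, y = (2⁻¹ : ℂ) • (φ (.of 0) + φ (.of 1)) := ⟨_, rfl⟩
  have hs := hh_sa (φ (.of 0)) (φ (.of 1))
  have ks := kk_sa (φ (.of 0)) (φ (.of 1))
  have hk := (hh_add_kk (φ (.of 0)) (φ (.of 1))).trans hy.symm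
  have sw := fun x (hx : x ∈ T.gen {1, y}) => hφ.swap h1 (hy ▸ hx)
  have sd := hφ.sd_a h1
  have ua := hφ.haar 0
  rw [← hy] at sw
  generalize hh (φ (.of 0)) (φ (.of 1)) = h at *
  generalize kk (φ (.of 0)) (φ (.of 1)) = k at *
  have N := gen1_alg (T := T) {y}
  have yN : y ∈ T.gen {1, y} := sub_gen (.inr rfl)
  have hk' : h - I • k = star y := by
    rw [← hk, star_add, star_smul, hs, ks, star_def, conj_I, neg_smul, sub_eq_add_neg]
  have hN : h ∈ T.gen {1, y} := by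
    rw [show h = (2⁻¹ : ℂ) • (y + star y) by rw [← hk', ← hk]; module]
    exact N.smul _ (N.add yN (N.star yN))
  have kN : k ∈ T.gen {1, y} := by
    rw [show k = (-I / 2) • (y - star y) by
      rw [← hk', ← hk, add_sub_sub_cancel, ← add_smul, smul_smul,
        show -I / 2 * (I + I) = -(I * I) by ring, I_mul_I, neg_neg, one_smul]]
    exact N.smul _ (N.sub yN (N.star yN))
  have gN : ∀ {x}, x ∈ T.gen {1, y} → T.gen {1, x} ⊆ T.gen {1, y} := fun hx => N.gen_le (by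
    rintro _ (rfl | rfl)
    exacts [N.one, hx])
  have sN := gN hN hc.sm
  have siN := gN hN hc.sim
  have sis : star si = si := by
    have := congrArg star hc.s3
    rw [star_mul, hc.ss, star_one] at this
    rw [← mul_one (star si), ← hc.s3, ← mul_assoc, this, one_mul]
  have κs : star κ = κ := by
    rw [hc.κd, star_smul, star_mul, star_mul, sis, ks, mul_assoc]; simp
  have κN : κ ∈ T.gen {1, y} := hc.κd ▸ N.smul _ (N.mul (N.mul siN kN) siN)
  have ct : Continuous fun t : ℝ => (((1 + t ^ 2)⁻¹ : ℝ) : ℂ) :=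
    continuous_ofReal.comp (Continuous.inv₀ (by fun_prop) fun t => by positivity)
  have sa := sa_one κs
  have rN : r ∈ T.gen {1, y} := hc.rd ▸ N.ph_mem sa N.one κN _
  have κr : κ * r = r * κ := hc.rd ▸ sa.ph_comm rfl (by simp) _
  have r1 : r * (1 + κ * κ) = 1 := by
    have e : 1 + κ * κ = Ph 1 κ fun t => 1 + (t : ℂ) * t := by
      rw [SA.ph_add continuous_const (by fun_prop), sa.ph_mul (by fun_prop) (by fun_prop), sa.ph_id,
        sa.ph_const, one_smul]
    rw [e, hc.rd, ← sa.ph_mul ct (by fun_prop)]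
    refine (sa.ph_congr fun t _ => ?_).trans ((sa.ph_const 1).trans (one_smul _ _))
    have : (1 + t ^ 2 : ℝ) ≠ 0 := by positivity
    rw [show 1 + (t : ℂ) * t = ((1 + t ^ 2 : ℝ) : ℂ) by push_cast; ring, ← ofReal_mul,
      inv_mul_cancel₀ this, ofReal_one]
  have r2 : (1 + κ * κ) * r = 1 := by
    refine Eq.trans ?_ r1
    rw [add_mul, mul_add, mul_assoc, κr, ← mul_assoc, κr, mul_assoc, one_mul, mul_one]
  have rs : star r = r := hc.rb.1
  have cρ : ∀ {x}, x ∈ T.gen {1, r} → κ * x = x * κ := fun hx => comm_of_gen (by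
    rintro _ (rfl | rfl)
    exacts [by simp, ⟨κr, by rw [rs, κr]⟩]) hx
  have ρκ := cρ hc.ρm
  have ρr : r * ρ = ρ * r := by rw [← hc.ρρ, mul_assoc]
  have ρ3 : (1 + κ * κ) * ρ = ρi := by
    have : (1 + κ * κ) * ρ * (ρ * ρi) = ρi := by
      rw [← mul_assoc, mul_assoc (1 + κ * κ), hc.ρρ, r2, one_mul]
    rwa [hc.ρ1, mul_one] at this
  have s3 : ∀ x, s * (si * x) = x := fun x => by rw [← mul_assoc, hc.s3, one_mul]
  have s4 : ∀ x, si * (s * x) = x := fun x => by rw [← mul_assoc, hc.s4, one_mul]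
  have ρ1 : ∀ x, ρ * (ρi * x) = x := fun x => by rw [← mul_assoc, hc.ρ1, one_mul]
  have ρ2 : ∀ x, ρi * (ρ * x) = x := fun x => by rw [← mul_assoc, hc.ρ2, one_mul]
  have ek : k = (2 : ℂ) • (s * κ * s) := by
    rw [hc.κd, mul_smul_comm, smul_mul_assoc, smul_smul, mul_inv_cancel₀ two_ne_zero, one_smul]
    simp only [mul_assoc, s3, hc.s4, mul_one]
  have eh : h = 1 - (2 : ℂ) • (s * s) := by rw [hc.s2]; module
  have ey : 1 - y = (2 : ℂ) • (s * (1 - I • κ) * s) := by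
    rw [← hk, ek, mul_sub, sub_mul, mul_one, mul_smul_comm, smul_mul_assoc, hc.s2]; module
  have i1 : (1 + I • κ) * r * (1 - I • κ) = 1 := by
    refine Eq.trans ?_ r1
    simp only [add_mul, mul_add, mul_sub, smul_mul_assoc, mul_smul_comm, one_mul, mul_one, κr,
      smul_add, smul_smul, I_mul_I, mul_assoc]
    module
  have i2 : (1 - I • κ) * ((1 + I • κ) * r) = 1 := by
    refine Eq.trans ?_ r2
    rw [← mul_assoc]
    simp only [add_mul, mul_add, sub_mul, smul_mul_assoc, mul_smul_comm, one_mul, mul_one,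
      smul_sub, smul_smul, I_mul_I]
    module
  obtain ⟨p, hp⟩ : ∃ p, p = (2⁻¹ : ℂ) • (si * ((1 + I • κ) * r) * si) := ⟨_, rfl⟩
  have ps : star p = (2⁻¹ : ℂ) • (si * ((1 - I • κ) * r) * si) := by
    rw [hp, star_smul, star_mul, star_mul, star_mul, star_add, star_smul, sis, rs, κs, star_one,
      star_def, conj_I, mul_add, mul_smul_comm, ← κr, sub_mul, smul_mul_assoc]
    simp [mul_assoc, sub_eq_add_neg, map_ofNat]
  have pa : p + star p = si * r * si := by
    rw [ps, hp]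
    simp only [add_mul, sub_mul, mul_add, mul_sub, one_mul]
    module
  have pb : p - star p = I • (si * (κ * r) * si) := by
    rw [ps, hp]
    simp only [add_mul, sub_mul, mul_add, mul_sub, one_mul, smul_mul_assoc, mul_smul_comm]
    module
  have uN := N.mul (N.mul sN (N.add N.one (N.mul κN κN))) sN
  have u2 : (p + star p) * (s * (1 + κ * κ) * s) = 1 := by
    rw [pa]
    simp only [mul_assoc, s4]
    rw [← mul_assoc r, r1, one_mul, hc.s4]
  obtain ⟨G, U, K, m1, m2, U1, K1, t1, t2, t3, t4, t5⟩ := xj_world h1 N ua.us hy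
    (fun x hx => (sw x hx).1) (fun x hx => (sw x hx).2) (p := p) (u := s * (1 + κ * κ) * s)
    (hp ▸ N.smul _ (N.mul (N.mul siN (N.mul (N.add N.one (N.smul _ κN)) rN)) siN)) uN
    (by
      rw [hp, ey, smul_mul_smul_comm, inv_mul_cancel₀ two_ne_zero, one_smul]
      simp only [mul_assoc, s4]
      rw [← mul_assoc r, ← mul_assoc (1 + I • κ), ← mul_assoc (1 + I • κ), i1, one_mul, hc.s4])
    (by
      rw [hp, ey, smul_mul_smul_comm, mul_inv_cancel₀ two_ne_zero, one_smul]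
      simp only [mul_assoc, s3]
      rw [← mul_assoc (1 + I • κ), ← mul_assoc (1 - I • κ), i2, one_mul, hc.s3])
    (by
      rw [pa]
      simp only [mul_assoc, s3]
      rw [← mul_assoc _ r, r2, one_mul, hc.s3]) u2 sd
  have K2 : K.fst = si * κ * s := by
    rw [K1, pb, smul_mul_assoc, smul_smul, neg_mul, I_mul_I, neg_neg, one_smul]
    simp only [mul_assoc, s4]
    rw [← mul_assoc r, r1, one_mul]
  rw [← U1] at t2 t3 u2 uN
  refine ⟨_, G, U, K, _, ρi * s, si * ρ, p + star p, N, m1, m2, uN,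
    K2 ▸ N.mul (N.mul siN κN) sN, pa ▸ N.mul (N.mul siN rN) siN, ?_, ?_, ?_, ?_, u2, t1, t2, t3,
    fun w hw wN => ?_, fun w hw wN => ?_⟩
  · simp only [mul_assoc, s3, hc.ρ2]
  · simp only [mul_assoc, ρ1, hc.s4]
  · rw [U1, hc.ud]
    simp only [mul_assoc, s3, ρ3]
  · rw [K2]
    simp only [mul_assoc, s3, ρκ, ρ2]
  · rw [t4 w hw wN, pa, ← hk', ← hk, show h - I • k - (h + I • k) = -((I + I) • k) by module,
      ek, smul_mul_assoc, map_smul, T.tau_comm (κ * r), mul_assoc (ρi * s),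
      mul_assoc (ρi * s), T.tau_comm (ρi * s)]
    simp only [mul_neg, mul_smul_comm, map_neg, map_smul, mul_assoc, s4, smul_eq_mul]
    rw [← mul_assoc ρ κ, ← ρκ, mul_assoc κ, ← mul_assoc ρ r, ← ρr, mul_assoc r, ρ1, ← mul_assoc κ,
      κr, mul_assoc r]
    linear_combination (-4 * T.tau (w.fst * (si * (r * (κ * s))))) * I_mul_I
  · rw [t5 w hw wN, ← hk', ← hk, add_add_sub_cancel, eh, hc.ud, ← hc.ρρ, mul_assoc (ρi * s),
      mul_assoc (ρi * s), mul_assoc (ρi * s), T.tau_comm (ρi * s)]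
    simp only [mul_add, mul_sub, mul_smul_comm, map_add, map_sub, map_smul, mul_assoc, s4, ρ1, ρ2,
      smul_eq_mul, mul_one]
    ring

theorem Reg.sd_κ : ∀ z ∈ Algebra.adjoin ℂ ({T.lt κ 1 1, inl u} : Set (DA R)),
    z.snd.ev 1 1 = T.tau ((4 : ℂ) • (κ * r) * z.fst) := by
  obtain ⟨N, G, U, K, a, g, gi, v, hN, m1, m2, m3, m4, m5, g1, g2, e1, e2, e3, t1, t2, -, t4, -⟩ :=
    hφ.xj_main h1 hc
  have cj : ∀ x z, g * x * gi * (g * z * gi) = g * (x * z) * gi := fun x z => by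
    simp only [mul_assoc]
    rw [← mul_assoc gi g, g2, one_mul]
  have tj : ∀ x, T.tau (g * x * gi) = T.tau x := fun x => by
    rw [T.tau_comm, ← mul_assoc, g2, one_mul]
  suffices ∀ z ∈ Algebra.adjoin ℂ ({T.lt κ 1 1, inl u} : Set (DA R)), ∃ w ∈ G, w.fst ∈ N ∧
      z.fst = g * w.fst * gi ∧ ∀ x ∈ N, ∀ y ∈ N, z.snd.ev (g * x * gi) (g * y * gi) =
        I * w.snd.ev ((star a - 1) * x) (y * v * (1 - a)) by
    intro z hz
    obtain ⟨w, h2, h3, h4, h5⟩ := this z hz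
    have := h5 1 hN.one 1 hN.one
    rwa [mul_one, g1, mul_one, one_mul, t4 w h2 h3, ← h4] at this
  intro z hz
  induction hz using Algebra.adjoin_induction with
  | mem z hz =>
    rcases hz with rfl | rfl
    · refine ⟨K, m2, m4, e2, fun x hx y hy => ?_⟩
      rw [t2 x hx _ (hN.mul hy m5), T.tau_comm U.fst, mul_assoc y, e3, lt_snd, bil_ev, mul_one,
        mul_one, one_mul, tj, tj]
      linear_combination (T.tau x * T.tau y) * I_mul_I
    · exact ⟨U, m1, m3, e1, fun x hx y hy => by rw [t1 x hx _ (hN.mul hy m5)]; simp⟩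
  | algebraMap c =>
    refine ⟨algebraMap ℂ _ c, G.algebraMap_mem c, ?_, ?_, fun x _ y _ => ?_⟩
    · rw [Algebra.algebraMap_eq_smul_one, fst_smul, fst_one]; exact hN.smul _ hN.one
    · rw [Algebra.algebraMap_eq_smul_one, fst_smul, fst_one, mul_smul_comm, smul_mul_assoc, mul_one,
        g1]
    · simp [Algebra.algebraMap_eq_smul_one]
  | add z z' _ _ i1 i2 =>
    obtain ⟨w, a1, a2, a3, a4⟩ := i1
    obtain ⟨w', b1, b2, b3, b4⟩ := i2
    refine ⟨w + w', G.add_mem a1 b1, hN.add a2 b2, by rw [fst_add, fst_add, a3, b3, mul_add, add_mul],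
      fun x hx y hy => ?_⟩
    simp only [snd_add, Bf.ev_add, LinearMap.add_apply, a4 x hx y hy, b4 x hx y hy, mul_add]
  | mul z z' _ _ i1 i2 =>
    obtain ⟨w, a1, a2, a3, a4⟩ := i1
    obtain ⟨w', b1, b2, b3, b4⟩ := i2
    refine ⟨w * w', G.mul_mem a1 b1, hN.mul a2 b2, by rw [fst_mul, fst_mul, a3, b3, cj],
      fun x hx y hy => ?_⟩
    rw [DA.snd_mul, DA.snd_mul, a3, b3, cj, cj, a4 x hx _ (hN.mul b2 hy), b4 _ (hN.mul hx a2) y hy]
    simp only [mul_assoc, mul_add]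

theorem Reg.sd_u (n : ℕ) : 4 * T.tau (u ^ (n + 1) * r) = 2 * T.tau (u ^ n) +
    ∑ i ∈ Finset.range n, T.tau (u ^ (i + 1)) * (T.tau (u ^ (n - 1 - i)) - T.tau (u ^ (n - i))) := by
  obtain ⟨N, G, U, K, a, g, gi, v, hN, m1, -, m3, -, -, g1, g2, e1, -, -, -, -, t3, -, t5⟩ :=
    hφ.xj_main h1 hc
  have pN : ∀ n : ℕ, U.fst ^ n ∈ N := fun n => by
    induction n with
    | zero => rw [pow_zero]; exact hN.one
    | succ n ih => rw [pow_succ]; exact hN.mul ih m3
  have pu : ∀ n : ℕ, g * U.fst ^ n * gi = u ^ n := fun n => by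
    induction n with
    | zero => rw [pow_zero, pow_zero, mul_one, g1]
    | succ n ih =>
      rw [pow_succ, pow_succ, ← ih, e1]
      simp only [mul_assoc]
      rw [← mul_assoc gi g, g2, one_mul]
  have tu : ∀ n : ℕ, T.tau (U.fst ^ n) = T.tau (u ^ n) := fun n => by
    rw [← pu, T.tau_comm, ← mul_assoc, g2, one_mul]
  have key : ∀ n : ℕ, ∀ z ∈ N, (U ^ n).snd.ev ((star a - 1) * 1) (z * (1 + a)) =
      -∑ i ∈ Finset.range n, T.tau (U.fst ^ (i + 1)) * T.tau (U.fst ^ (n - 1 - i) * z * (1 - U.fst)) := by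
    intro n
    induction n with
    | zero => simp
    | succ n ih =>
      intro z hz
      rw [pow_succ, DA.snd_mul, ← mul_assoc U.fst, ih _ (hN.mul m3 hz), mul_one, fst_pow,
        t3 _ (pN n) z hz, Finset.sum_range_succ, ← pow_succ, Nat.add_sub_cancel, Nat.sub_self,
        pow_zero, one_mul, neg_add]
      congr 2
      refine Finset.sum_congr rfl fun i hi => ?_
      rw [← mul_assoc, ← pow_succ, show n - 1 - i + 1 = n - i by
        have := Finset.mem_range.1 hi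
        omega]
  have k1 := key n 1 hN.one
  rw [mul_one, one_mul, t5 _ (G.pow_mem m1 n) (by rw [fst_pow]; exact pN n), fst_pow, pu, tu,
    ← pow_succ, Finset.sum_congr rfl (g := fun i => T.tau (u ^ (i + 1)) *
      (T.tau (u ^ (n - 1 - i)) - T.tau (u ^ (n - i)))) fun i hi => by
      rw [mul_one, mul_one_sub, map_sub, ← pow_succ, tu, tu, tu, show n - 1 - i + 1 = n - i by
        have := Finset.mem_range.1 hi
        omega]] at k1
  linear_combination -k1

end TW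

end Pool.Agent.Lib.MP_263241_an
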