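import Mathlib

/-! Inequalities for the subordination function. -/

namespace Pool.Agent.Lib.MP_263241_an

open MeasureTheory Set
open scoped ComplexConjugate ENNReal

/-- The measure `μ + 2 δ₀`. -/
noncomputable def mt (μ : Measure ℝ) : Measure ℝ := μ + (2 : ℝ≥0∞) • Measure.dirac 0

/-- The Cauchy transform. -/
noncomputable def G1 (μ : Measure ℝ) (p : ℂ) : ℂ := ∫ l, (p - l)⁻¹ ∂(mt μ)

/-- Minus the first divided difference of the Cauchy transform. -/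
noncomputable def G2 (μ : Measure ℝ) (p q : ℂ) : ℂ := ∫ l, (p - l)⁻¹ * (q - l)⁻¹ ∂(mt μ)

/-- The integral of `|p - l|⁻²`. -/
noncomputable def GI (μ : Measure ℝ) (p : ℂ) : ℝ := ∫ l, (‖p - l‖ ^ 2)⁻¹ ∂(mt μ)

/-- The inverse of the subordination function. -/
noncomputable def Hf (μ : Measure ℝ) (p : ℂ) : ℂ := p - (μ.real univ : ℝ) / G1 μ p

/-- Admissible measures. -/
structure MuOK (μ : Measure ℝ) (b M : ℝ) : Prop where
  fin : IsFiniteMeasure μ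
  supp : ∀ᵐ l ∂μ, l ∈ Icc (1 / 4 : ℝ) b
  b1 : b ≤ 1
  lo : M ≤ μ.real univ
  up : μ.real univ ≤ 1

/-- Points away from the support. -/
structure Gd (b c : ℝ) (p : ℂ) : Prop where
  lo : c ≤ ‖p‖
  up : ‖p‖ ≤ 13
  far : ∀ l ∈ Icc (1 / 4 : ℝ) b, c ≤ ‖p - (l : ℝ)‖

variable {μ : Measure ℝ} {b c M : ℝ} {p q : ℂ}

theorem Gd.conj (h : Gd b c p) : Gd b c (conj p) :=
  ⟨by rw [Complex.norm_conj]; exact h.lo, by rw [Complex.norm_conj]; exact h.up, fun l hl => by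
    rw [← Complex.conj_ofReal, ← map_sub, Complex.norm_conj]; exact h.far l hl⟩

theorem int_mt (h : MuOK μ b M) {E : Type*} [NormedAddCommGroup E] [NormedSpace ℝ E]
    [CompleteSpace E] {f : ℝ → E} (hf : Integrable f μ) :
    ∫ l, f l ∂(mt μ) = ∫ l, f l ∂μ + (2 : ℝ) • f 0 := by
  have _ := h.fin
  rw [mt, integral_add_measure hf ((integrable_dirac enorm_lt_top).smul_measure (by simp)),
    integral_smul_measure, integral_dirac]
  simp

theorem xk_fin (h : MuOK μ b M) : IsFiniteMeasure (mt μ) := by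
  have := h.fin
  refine ⟨?_⟩
  simp [mt]

theorem xk_mass (h : MuOK μ b M) : (mt μ).real univ ≤ 3 := by
  have := h.fin
  have h1 := int_mt h (integrable_const (1 : ℝ))
  simp only [integral_const, smul_eq_mul, mul_one] at h1
  linarith [h.up]

theorem xk_ae (h : MuOK μ b M) {P : ℝ → Prop} (h0 : P 0) (h1 : ∀ l ∈ Icc (1 / 4 : ℝ) b, P l) :
    ∀ᵐ l ∂(mt μ), P l := by
  rw [mt, ae_add_measure_iff]
  exact ⟨h.supp.mono h1, Measure.ae_smul_measure (by simpa using h0) _⟩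

theorem xk_far (h : MuOK μ b M) (hp : Gd b c p) : ∀ᵐ l : ℝ ∂(mt μ), c ≤ ‖p - l‖ :=
  xk_ae h (by simpa using hp.lo) hp.far

theorem xk_bd (h : MuOK μ b M) {E : Type*} [NormedAddCommGroup E] [NormedSpace ℝ E] {f : ℝ → E}
    {C : ℝ} (hC : 0 ≤ C) (hf : ∀ᵐ l ∂(mt μ), ‖f l‖ ≤ C) : ‖∫ l, f l ∂(mt μ)‖ ≤ 3 * C := by
  have := xk_fin h
  refine (norm_integral_le_of_norm_le_const hf).trans ?_
  rw [mul_comm]
  exact mul_le_mul_of_nonneg_right (xk_mass h) hC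

theorem xk_inv (hc : 0 < c) {z : ℂ} (h : c ≤ ‖z‖) : ‖z⁻¹‖ ≤ c⁻¹ := by
  rw [norm_inv]; exact inv_anti₀ hc h

theorem xk_inv2 (hc : 0 < c) {z : ℂ} (h : c ≤ ‖z‖) : ‖(‖z‖ ^ 2)⁻¹‖ ≤ (c ^ 2)⁻¹ := by
  rw [Real.norm_of_nonneg (by positivity)]
  exact inv_anti₀ (by positivity) (pow_le_pow_left₀ hc.le h 2)

theorem xk_i1 {ν : Measure ℝ} [IsFiniteMeasure ν] (hc : 0 < c) (hp : ∀ᵐ l : ℝ ∂ν, c ≤ ‖p - l‖) :
    Integrable (fun l : ℝ => (p - l)⁻¹) ν :=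
  .of_bound (by fun_prop : Measurable _).aestronglyMeasurable _ (hp.mono fun _ => xk_inv hc)

theorem xk_i2 {ν : Measure ℝ} [IsFiniteMeasure ν] (hc : 0 < c) (hp : ∀ᵐ l : ℝ ∂ν, c ≤ ‖p - l‖) :
    Integrable (fun l : ℝ => (‖p - l‖ ^ 2)⁻¹) ν :=
  .of_bound (by fun_prop : Measurable _).aestronglyMeasurable _ (hp.mono fun _ => xk_inv2 hc)

theorem xk_i3 {ν : Measure ℝ} [IsFiniteMeasure ν] (hc : 0 < c) (hp : ∀ᵐ l : ℝ ∂ν, c ≤ ‖p - l‖)
    (hq : ∀ᵐ l : ℝ ∂ν, c ≤ ‖q - l‖) : Integrable (fun l : ℝ => (p - l)⁻¹ * (q - l)⁻¹) ν :=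
  .of_bound (by fun_prop : Measurable _).aestronglyMeasurable (c⁻¹ * c⁻¹) (by
    filter_upwards [hp, hq] with l h1 h2
    exact (norm_mul_le _ _).trans
      (mul_le_mul (xk_inv hc h1) (xk_inv hc h2) (norm_nonneg _) (by positivity)))

theorem xk_ne (hc : 0 < c) {z : ℂ} (h : c ≤ ‖z‖) : z ≠ 0 := norm_pos_iff.1 (hc.trans_le h)

theorem xk_g2 (h : MuOK μ b M) (hc : 0 < c) (hp : Gd b c p) (hq : Gd b c q) :
    G1 μ q - G1 μ p = (p - q) * G2 μ p q := by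
  have := xk_fin h
  rw [G1, G1, G2, ← integral_sub (xk_i1 hc (xk_far h hq)) (xk_i1 hc (xk_far h hp)),
    ← integral_const_mul]
  refine integral_congr_ae ?_
  filter_upwards [xk_far h hp, xk_far h hq] with l h1 h2
  have := xk_ne hc h1
  have := xk_ne hc h2
  field_simp
  ring

theorem g1_lip (h : MuOK μ b M) (hc : 0 < c) (hp : Gd b c p) (hq : Gd b c q) :
    ‖G1 μ p - G1 μ q‖ ≤ 3 / c ^ 2 * ‖p - q‖ := by
  rw [norm_sub_rev, xk_g2 h hc hp hq, norm_mul, mul_comm]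
  refine mul_le_mul_of_nonneg_right ((xk_bd h (C := c⁻¹ * c⁻¹) (by positivity) ?_).trans_eq
    (by field_simp)) (norm_nonneg _)
  filter_upwards [xk_far h hp, xk_far h hq] with l h1 h2
  exact (norm_mul_le _ _).trans
    (mul_le_mul (xk_inv hc h1) (xk_inv hc h2) (norm_nonneg _) (by positivity))

theorem gi_lip (h : MuOK μ b M) (hc : 0 < c) (hp : Gd b c p) (hq : Gd b c q) :
    |GI μ p - GI μ q| ≤ 6 / c ^ 3 * ‖p - q‖ := by
  have := xk_fin h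
  rw [GI, GI, ← integral_sub (xk_i2 hc (xk_far h hp)) (xk_i2 hc (xk_far h hq)), ← Real.norm_eq_abs]
  refine (xk_bd h (C := ‖p - q‖ * (c⁻¹ * c⁻¹ * (c⁻¹ + c⁻¹))) (by positivity) ?_).trans_eq
    (by field_simp; ring)
  filter_upwards [xk_far h hp, xk_far h hq] with l h1 h2
  have h3 : |‖q - l‖ - ‖p - l‖| ≤ ‖p - q‖ := by
    simpa [norm_sub_rev q p] using abs_norm_sub_norm_le (q - l) (p - l)
  generalize ‖p - l‖ = x at h1 h3 ⊢
  generalize ‖q - l‖ = y at h2 h3 ⊢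
  have x0 := hc.trans_le h1
  have y0 := hc.trans_le h2
  have hx := inv_anti₀ hc h1
  have hy := inv_anti₀ hc h2
  rw [show (x ^ 2)⁻¹ - (y ^ 2)⁻¹ = (y - x) * (x⁻¹ * y⁻¹ * (x⁻¹ + y⁻¹)) by field_simp; ring,
    Real.norm_eq_abs, abs_mul, abs_of_pos (a := _ * _ * _) (by positivity)]
  gcongr

theorem gi_bd (h : MuOK μ b M) (hc : 0 < c) (hp : Gd b c p) :
    2 / 13 ^ 2 ≤ GI μ p ∧ GI μ p ≤ 3 / c ^ 2 ∧ ‖G1 μ p‖ ≤ 3 / c := by
  have := h.fin
  refine ⟨?_, (le_abs_self _).trans (xk_bd h (by positivity) ((xk_far h hp).mono fun _ =>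
    xk_inv2 hc)), xk_bd h (by positivity) ((xk_far h hp).mono fun _ => xk_inv hc)⟩
  rw [GI, int_mt h (xk_i2 hc (h.supp.mono hp.far))]
  have h1 : 0 ≤ ∫ l : ℝ, (‖p - l‖ ^ 2)⁻¹ ∂μ := integral_nonneg fun l => by positivity
  have h2 : ((13 : ℝ) ^ 2)⁻¹ ≤ (‖p‖ ^ 2)⁻¹ :=
    inv_anti₀ (pow_pos (hc.trans_le hp.lo) 2) (pow_le_pow_left₀ (norm_nonneg _) hp.up 2)
  simp only [Complex.ofReal_zero, sub_zero, smul_eq_mul]
  linarith

theorem xk_im (h : MuOK μ b M) (hc : 0 < c) (hp : ∀ᵐ l : ℝ ∂(mt μ), c ≤ ‖p - l‖) :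
    (G1 μ p).im = -p.im * GI μ p := by
  have := xk_fin h
  rw [G1, GI, ← integral_const_mul, ← Complex.imCLM_apply,
    ← Complex.imCLM.integral_comp_comm (xk_i1 hc hp)]
  refine integral_congr_ae (.of_forall fun l => ?_)
  simp [Complex.normSq_eq_norm_sq, div_eq_mul_inv]

theorem xk_abs (p : ℂ) (l : ℝ) : |p.im| ≤ ‖p - l‖ := by
  simpa using Complex.abs_im_le_norm (p - l)

theorem g1_im (h : MuOK μ b M) (hp : p.im ≠ 0) : (G1 μ p).im = -p.im * GI μ p :=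
  xk_im h (abs_pos.2 hp) (.of_forall (xk_abs p))

theorem g1_im' (h : MuOK μ b M) (hc : 0 < c) (hp : Gd b c p) : (G1 μ p).im = -p.im * GI μ p :=
  xk_im h hc (xk_far h hp)

theorem xk_sq (x y A B : ℂ) : ‖x⁻¹ / A - conj (y⁻¹ / B)‖ ^ 2 =
    (‖x‖ ^ 2)⁻¹ / ‖A‖ ^ 2 + (‖y‖ ^ 2)⁻¹ / ‖B‖ ^ 2 - 2 * (x⁻¹ * y⁻¹ / (A * B)).re := by
  rw [← Complex.normSq_eq_norm_sq, Complex.normSq_sub, Complex.conj_conj, Complex.normSq_conj,
    div_mul_div_comm]
  simp only [Complex.normSq_eq_norm_sq, norm_div, norm_inv, div_pow, inv_pow]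

theorem xk_pt (hc : 0 < c) (hp : Gd b c p) (hq : Gd b c q) (hb : b ≤ 1) {A B : ℂ} (hA : A ≠ 0)
    (hB : B ≠ 0) (hA' : ‖A‖ ≤ 3 / c) {l : ℝ} (hl : l ∈ Icc (1 / 4 : ℝ) b) :
    (c / 10 ^ 5) ^ 2 * ‖p - conj q‖ ^ 2 ≤
      ‖(p - l)⁻¹ / A - conj ((q - l)⁻¹ / B)‖ ^ 2 + ‖p⁻¹ / A - conj (q⁻¹ / B)‖ ^ 2 := by
  have p0 := xk_ne hc hp.lo
  have q0 := xk_ne hc hq.conj.lo
  have pl := xk_ne hc (hp.far l hl)
  have ql := xk_ne hc (hq.conj.far l hl)
  have B0 : conj B ≠ 0 := (map_ne_zero _).2 hB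
  have e : (l : ℂ) * (p - conj q) = A * p * (p - l) * ((p⁻¹ / A - conj (q⁻¹ / B)) * conj q -
      ((p - l)⁻¹ / A - conj ((q - l)⁻¹ / B)) * (conj q - l)) := by
    simp only [map_div₀, map_inv₀, map_sub, Complex.conj_ofReal]
    field_simp
    ring
  have l1 : ‖(l : ℂ)‖ = l := by rw [Complex.norm_real, Real.norm_of_nonneg (by linarith [hl.1])]
  have n1 : ‖p - l‖ ≤ 14 := (norm_sub_le _ _).trans (by linarith [hp.up, hl.2])
  have n2 : ‖conj q - l‖ ≤ 14 := (norm_sub_le _ _).trans (by linarith [hq.conj.up, hl.2])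
  have n3 : ‖conj q‖ ≤ 14 := by linarith [hq.conj.up]
  have n4 := hp.up
  have h1 := congrArg norm e
  rw [norm_mul, l1, norm_mul, norm_mul, norm_mul] at h1
  generalize p⁻¹ / A - conj (q⁻¹ / B) = u at h1 ⊢
  generalize (p - l)⁻¹ / A - conj ((q - l)⁻¹ / B) = v at h1 ⊢
  have h2 : ‖u * conj q - v * (conj q - l)‖ ≤ ‖u‖ * 14 + ‖v‖ * 14 := by
    refine (norm_sub_le _ _).trans ?_
    rw [norm_mul, norm_mul]
    gcongr
  have h3 : 1 / 4 * ‖p - conj q‖ ≤ 3 / c * 13 * 14 * (‖u‖ * 14 + ‖v‖ * 14) := by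
    refine (mul_le_mul_of_nonneg_right hl.1 (norm_nonneg _)).trans (h1.trans_le ?_)
    gcongr
  have h4 := mul_le_mul_of_nonneg_left h3 hc.le
  rw [show c * (3 / c * 13 * 14 * (‖u‖ * 14 + ‖v‖ * 14)) = 7644 * (‖u‖ + ‖v‖) by
    field_simp; ring] at h4
  have h5 : c / 10 ^ 5 * ‖p - conj q‖ ≤ (‖u‖ + ‖v‖) / 2 := by
    linarith [norm_nonneg u, norm_nonneg v]
  rw [← mul_pow]
  refine (pow_le_pow_left₀ (by positivity) h5 2).trans ?_
  nlinarith [sq_nonneg (‖u‖ - ‖v‖), sq_nonneg ‖u‖, sq_nonneg ‖v‖]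

/-- The cubic inequality. -/
theorem cubic (hc : 0 < c) (hM : 0 < M) : ∃ k > 0, ∀ (μ : Measure ℝ) (b : ℝ) (p q : ℂ),
    MuOK μ b M → Gd b c p → Gd b c q → μ.real univ * GI μ p ≤ ‖G1 μ p‖ ^ 2 →
    μ.real univ * GI μ q ≤ ‖G1 μ q‖ ^ 2 →
    k * (‖p - q‖ * ‖p - conj q‖ ^ 2) ≤ ‖Hf μ p - Hf μ q‖ := by
  refine ⟨M / 2 * (M * (c / 10 ^ 5) ^ 2), by positivity, fun μ b p q h hp hq h1 h2 => ?_⟩
  have := h.fin
  have := xk_fin h
  have m0 := hM.trans_le h.lo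
  have a0 : 0 < ‖G1 μ p‖ ^ 2 :=
    (mul_pos m0 (lt_of_lt_of_le (by norm_num) (gi_bd h hc hp).1)).trans_le h1
  have b0 : 0 < ‖G1 μ q‖ ^ 2 :=
    (mul_pos m0 (lt_of_lt_of_le (by norm_num) (gi_bd h hc hq).1)).trans_le h2
  have hA : G1 μ p ≠ 0 := fun e => by simp [e] at a0
  have hB : G1 μ q ≠ 0 := fun e => by simp [e] at b0
  have e1 : Hf μ p - Hf μ q =
      (p - q) * (1 - (μ.real univ : ℝ) * (G2 μ p q / (G1 μ p * G1 μ q))) := by
    have := xk_g2 h hc hp hq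
    rw [Hf, Hf]
    field_simp
    linear_combination (-(μ.real univ : ℂ)) * this
  have key : ∀ {ν : Measure ℝ} [IsFiniteMeasure ν], (∀ᵐ l : ℝ ∂ν, c ≤ ‖p - l‖) →
      (∀ᵐ l : ℝ ∂ν, c ≤ ‖q - l‖) →
      Integrable (fun l : ℝ => ‖(p - l)⁻¹ / G1 μ p - conj ((q - l)⁻¹ / G1 μ q)‖ ^ 2) ν :=
    fun f1 f2 => by
      simp only [xk_sq]
      exact (((xk_i2 hc f1).div_const _).add ((xk_i2 hc f2).div_const _)).sub
        (((xk_i3 hc f1 f2).div_const _).re.const_mul 2)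
  have f1 := xk_far h hp
  have f2 := xk_far h hq
  have e2 : ∫ l : ℝ, ‖(p - l)⁻¹ / G1 μ p - conj ((q - l)⁻¹ / G1 μ q)‖ ^ 2 ∂(mt μ) =
      GI μ p / ‖G1 μ p‖ ^ 2 + GI μ q / ‖G1 μ q‖ ^ 2 - 2 * (G2 μ p q / (G1 μ p * G1 μ q)).re := by
    simp only [xk_sq]
    refine (integral_sub (((xk_i2 hc f1).div_const _).add ((xk_i2 hc f2).div_const _))
      (((xk_i3 hc f1 f2).div_const _).re.const_mul 2)).trans ?_
    simp only [Pi.add_apply]
    rw [integral_add ((xk_i2 hc f1).div_const _)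
      ((xk_i2 hc f2).div_const _), integral_div, integral_div, integral_const_mul,
      integral_re ((xk_i3 hc f1 f2).div_const _), integral_div]
    rfl
  have k := key (h.supp.mono hp.far) (h.supp.mono hq.far)
  have e3 := integral_mono_ae (integrable_const _) (k.add (integrable_const _))
    (h.supp.mono fun l hl => xk_pt hc hp hq h.b1 hA hB (gi_bd h hc hp).2.2 hl)
  simp only [Pi.add_apply] at e3
  rw [integral_add k (integrable_const _), integral_const, integral_const, smul_eq_mul,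
    smul_eq_mul] at e3
  rw [int_mt h k] at e2
  simp only [Complex.ofReal_zero, sub_zero, smul_eq_mul] at e2
  have e4 := Complex.re_le_norm (1 - (μ.real univ : ℝ) * (G2 μ p q / (G1 μ p * G1 μ q)))
  rw [Complex.sub_re, Complex.one_re, Complex.re_ofReal_mul] at e4
  rw [e1, norm_mul, mul_left_comm]
  refine mul_le_mul_of_nonneg_left (le_trans ?_ e4) (norm_nonneg _)
  rw [← div_le_one a0, mul_div_assoc] at h1
  rw [← div_le_one b0, mul_div_assoc] at h2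
  have lo := h.lo
  have up := h.up
  generalize μ.real univ = m at *
  generalize (G2 μ p q / (G1 μ p * G1 μ q)).re = R at *
  generalize GI μ p / ‖G1 μ p‖ ^ 2 = X at *
  generalize GI μ q / ‖G1 μ q‖ ^ 2 = Y at *
  have u0 := sq_nonneg ‖p⁻¹ / G1 μ p - conj (q⁻¹ / G1 μ q)‖
  generalize ‖p⁻¹ / G1 μ p - conj (q⁻¹ / G1 μ q)‖ ^ 2 = U at *
  have t0 : 0 ≤ (c / 10 ^ 5) ^ 2 * ‖p - conj q‖ ^ 2 := by positivity
  rw [mul_assoc, mul_assoc M]
  generalize (c / 10 ^ 5) ^ 2 * ‖p - conj q‖ ^ 2 = t at *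
  have e5 : M * t ≤ X + Y - 2 * R := by nlinarith
  have e6 : M * (M * t) ≤ m * (X + Y - 2 * R) := mul_le_mul lo e5 (by positivity) m0.le
  linarith

/-- The subordination function stays away from the support. -/
theorem away {η : ℝ} (hc : 0 < c) (hM : 0 < M) (hη : 0 < η) : ∃ c' > 0,
    ∀ (μ : Measure ℝ) (b : ℝ) (p : ℂ), MuOK μ b M → 1 / 4 + η ≤ b →
    (∀ l x, 1 / 4 ≤ l → 0 ≤ x → l + x ≤ b → x * √x / 300 ≤ μ.real (Icc l (l + x))) →
    (∀ l d, 0 ≤ d → μ.real (Icc (l - d) (l + d)) ≤ 12 * √d) →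
    c ≤ ‖p‖ → p.im ≠ 0 → μ.real univ * GI μ p ≤ ‖G1 μ p‖ ^ 2 →
    ∀ l ∈ Icc (1 / 4 : ℝ) b, c' ≤ ‖p - (l : ℝ)‖ := by
  obtain ⟨e, he, e0⟩ : ∃ e : ℝ, M = 48 * e ∧ 0 < e := ⟨M / 48, by ring, by positivity⟩
  obtain ⟨K, hK, K0⟩ : ∃ K : ℝ, K = (e ^ 2 / 2)⁻¹ + 2 * c⁻¹ ∧ 0 < K := ⟨_, rfl, by positivity⟩
  obtain ⟨y, y0, y1, y2, y3, y4⟩ : ∃ y : ℝ, 0 < y ∧ y ≤ 1 ∧ y ≤ e ^ 2 / 2 ∧ y ≤ η / 2 ∧
      y ≤ M / (5000 * K ^ 2) :=
    ⟨min (min 1 (e ^ 2 / 2)) (min (η / 2) (M / (5000 * K ^ 2))), by positivity,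
      (min_le_left _ _).trans (min_le_left _ _), (min_le_left _ _).trans (min_le_right _ _),
      (min_le_right _ _).trans (min_le_left _ _), (min_le_right _ _).trans (min_le_right _ _)⟩
  refine ⟨y ^ 2, by positivity, fun μ b p h hb hlo hup hp him hI l0 hl0 => le_of_not_gt fun hn => ?_⟩
  have := h.fin
  have yy : y ^ 2 ≤ y := by nlinarith
  have f1 : ∀ᵐ l : ℝ ∂μ, |p.im| ≤ ‖p - l‖ := .of_forall (xk_abs p)
  have i1 := xk_i1 (abs_pos.2 him) f1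
  have i2 := xk_i2 (abs_pos.2 him) f1
  have pos : ∀ l : ℝ, 0 < ‖p - l‖ := fun l => (abs_pos.2 him).trans_le (xk_abs p l)
  have tri : ∀ l : ℝ, |‖p - l‖ - abs (l - l0)| ≤ ‖p - l0‖ := fun l => by
    have := abs_norm_sub_norm_le (p - l) ((l0 - l : ℝ) : ℂ)
    rw [Complex.norm_real, Real.norm_eq_abs, abs_sub_comm l0] at this
    rwa [show p - l - ((l0 - l : ℝ) : ℂ) = p - l0 by push_cast; ring] at this
  obtain ⟨I, hI'⟩ : ∃ I, I = ∫ l : ℝ, (‖p - l‖ ^ 2)⁻¹ ∂μ := ⟨_, rfl⟩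
  have a1 : y ^ 2 * y / 300 * ((2 * y ^ 2) ^ 2)⁻¹ ≤ I := by
    obtain ⟨x, x1, x2, x3, x4⟩ : ∃ x, 1 / 4 ≤ x ∧ x + y ^ 2 ≤ b ∧ x ≤ l0 ∧ l0 ≤ x + y ^ 2 := by
      rcases le_total (l0 + y ^ 2) b with h' | h'
      · exact ⟨l0, hl0.1, h', le_rfl, by nlinarith⟩
      · exact ⟨l0 - y ^ 2, by linarith, by linarith [hl0.2], by nlinarith, by linarith⟩
    have h1 := hlo x (y ^ 2) x1 (by positivity) x2
    rw [Real.sqrt_sq y0.le] at h1
    refine (mul_le_mul_of_nonneg_right h1 (by positivity)).trans ?_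
    rw [hI', ← smul_eq_mul, ← integral_indicator_const _ measurableSet_Icc]
    refine integral_mono ((integrable_const _).indicator measurableSet_Icc) i2 fun l => ?_
    by_cases hl : l ∈ Icc x (x + y ^ 2)
    · rw [indicator_of_mem hl]
      refine inv_anti₀ (pow_pos (pos l) 2) (pow_le_pow_left₀ (norm_nonneg _) ?_ 2)
      have : |l - l0| ≤ y ^ 2 := abs_le.2 ⟨by linarith [hl.1], by linarith [hl.2]⟩
      linarith [(abs_le.1 (tri l)).2]
    · rw [indicator_of_notMem hl]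
      positivity
  have I0 : 0 < I := lt_of_lt_of_le (by positivity) a1
  have a2 : M * I ≤ ‖G1 μ p‖ ^ 2 := by
    refine le_trans (mul_le_mul h.lo ?_ I0.le measureReal_nonneg) hI
    rw [GI, int_mt h i2, ← hI', smul_eq_mul]
    exact le_add_of_nonneg_right (by positivity)
  have g0 : 0 < ‖G1 μ p‖ := by
    refine (norm_nonneg _).lt_of_ne fun e => ?_
    rw [← e] at a2
    nlinarith [mul_pos hM I0]
  obtain ⟨t, ht, t0⟩ : ∃ t : ℝ, t = M / (2 * ‖G1 μ p‖) ∧ 0 < t := ⟨_, rfl, by positivity⟩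
  have a3 : ‖G1 μ p‖ ≤ K + t / 2 * I + M / 4 * (2 * t)⁻¹ := by
    have j := (integrable_const (μ := μ) (2 * t)⁻¹).indicator
      (measurableSet_Icc (a := l0 - e ^ 2) (b := l0 + e ^ 2))
    have h1 := integral_mono i1.norm
      (((integrable_const (e ^ 2 / 2)⁻¹).add (i2.const_mul (t / 2))).add j) fun l => by
      simp only [Pi.add_apply]
      by_cases hl : l ∈ Icc (l0 - e ^ 2) (l0 + e ^ 2)
      · rw [indicator_of_mem hl, norm_inv, ← inv_pow]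
        have : ‖p - l‖⁻¹ ≤ t / 2 * ‖p - l‖⁻¹ ^ 2 + (2 * t)⁻¹ := by
          rw [← sub_nonneg, show t / 2 * ‖p - l‖⁻¹ ^ 2 + (2 * t)⁻¹ - ‖p - l‖⁻¹ =
            (t * ‖p - l‖⁻¹ - 1) ^ 2 / (2 * t) by field_simp; ring]
          positivity
        have : 0 < (e ^ 2 / 2)⁻¹ := by positivity
        linarith
      · rw [indicator_of_notMem hl, add_zero]
        refine le_add_of_le_of_nonneg (xk_inv (by positivity) ?_) (by positivity)
        have : e ^ 2 < |l - l0| := lt_of_not_ge fun h' =>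
          hl ⟨by linarith [(abs_le.1 h').1], by linarith [(abs_le.1 h').2]⟩
        linarith [(abs_le.1 (tri l)).1]
    rw [integral_add' ((integrable_const _).add (i2.const_mul _)) j,
      integral_add' (integrable_const _) (i2.const_mul _), integral_const, integral_const_mul,
      integral_indicator_const _ measurableSet_Icc, ← hI', smul_eq_mul, smul_eq_mul] at h1
    have h2 := hup l0 (e ^ 2) (by positivity)
    rw [Real.sqrt_sq e0.le] at h2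
    have h3 := mul_le_mul_of_nonneg_right (h2.trans_eq (show 12 * e = M / 4 by rw [he]; ring))
      (show 0 ≤ (2 * t)⁻¹ by positivity)
    have h4 := mul_le_of_le_one_left (show 0 ≤ (e ^ 2 / 2)⁻¹ by positivity) h.up
    have h5 := xk_inv hc hp
    rw [G1, int_mt h i1]
    refine (norm_add_le _ _).trans ?_
    rw [norm_smul, Complex.ofReal_zero, sub_zero, Real.norm_two, hK]
    linarith [norm_integral_le_integral_norm (μ := μ) fun l : ℝ => (p - l)⁻¹]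
  generalize ‖G1 μ p‖ = g at *
  have a4 : t / 2 * I ≤ g / 4 := by
    rw [ht, show M / (2 * g) / 2 * I = M * I / (4 * g) by field_simp; ring,
      div_le_iff₀ (by positivity)]
    linarith
  have a5 : M / 4 * (2 * t)⁻¹ = g / 4 := by
    rw [ht]
    field_simp
  have a6 : g ^ 2 ≤ (2 * K) ^ 2 := pow_le_pow_left₀ g0.le (by linarith) 2
  rw [show y ^ 2 * y / 300 * ((2 * y ^ 2) ^ 2)⁻¹ = 1 / (1200 * y) by field_simp; ring,
    div_le_iff₀ (by positivity)] at a1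
  rw [le_div_iff₀ (by positivity)] at y4
  have a7 := mul_le_mul_of_nonneg_left a1 hM.le
  have a8 := mul_le_mul_of_nonneg_right (a2.trans a6) (show 0 ≤ 1200 * y by positivity)
  have a9 : 0 < y * K ^ 2 := by positivity
  linarith

end Pool.Agent.Lib.MP_263241_an
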