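import Pool.Agent.Lib.MP_263241_an.XK

/-! The boundary curve has no cusps. -/

namespace Pool.Agent.Lib.MP_263241_an

open MeasureTheory Set
open scoped ComplexConjugate ENNReal

variable {c M : ℝ}

section Aux

variable {μ : Measure ℝ} {b : ℝ}

/-- The second divided difference of the Cauchy transform. -/
noncomputable def xl_G3 (μ : Measure ℝ) (p p' q : ℂ) : ℂ :=
  ∫ l, (p - l)⁻¹ * (p' - l)⁻¹ * (q - l)⁻¹ ∂(mt μ)

/-- The numerator of the divided difference of `Hf`. -/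
noncomputable def xl_E (μ : Measure ℝ) (p q : ℂ) : ℂ :=
  G1 μ p * G1 μ q - (μ.real univ : ℝ) * G2 μ p q

/-- The divided difference of `xl_E`. -/
noncomputable def xl_F (μ : Measure ℝ) (p p' q : ℂ) : ℂ :=
  (μ.real univ : ℝ) * xl_G3 μ p p' q - G2 μ p p' * G1 μ q

theorem xl_fin (h : MuOK μ b M) : IsFiniteMeasure (mt μ) := by
  have := h.fin
  constructor
  simp only [mt, Measure.coe_add, Pi.add_apply, Measure.smul_apply, measure_univ, smul_eq_mul,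
    mul_one]
  exact ENNReal.add_lt_top.2 ⟨measure_lt_top _ _, by simp⟩

theorem xl_mass (h : MuOK μ b M) : (mt μ).real univ = μ.real univ + 2 := by
  have := h.fin
  have := int_mt (E := ℝ) h (f := fun _ => (1 : ℝ)) (integrable_const _)
  simpa using this

theorem xl_ae (h : MuOK μ b M) : ∀ᵐ l ∂(mt μ), l = 0 ∨ l ∈ Icc (1 / 4 : ℝ) b := by
  unfold mt
  rw [ae_add_measure_iff]
  refine ⟨h.supp.mono fun l hl => Or.inr hl, ?_⟩
  refine Measure.ae_smul_measure ?_ _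
  rw [ae_dirac_eq]
  exact Or.inl rfl

theorem xl_far (h : MuOK μ b M) {p : ℂ} (hp : Gd b c p) :
    ∀ᵐ l : ℝ ∂(mt μ), c ≤ ‖p - l‖ ∧ ‖p - l‖ ≤ 14 := by
  filter_upwards [xl_ae h] with l hl
  rcases hl with rfl | hl
  · simp only [Complex.ofReal_zero, sub_zero]
    exact ⟨hp.lo, by linarith [hp.up]⟩
  · refine ⟨hp.far l hl, ?_⟩
    have h1 : ‖(l : ℂ)‖ ≤ 1 := by
      rw [Complex.norm_real, Real.norm_eq_abs, abs_le]
      constructor <;> linarith [hl.1, hl.2, h.b1]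
    linarith [norm_sub_le p (l : ℂ), hp.up]

theorem xl_inv (h : MuOK μ b M) (hc : 0 < c) {p : ℂ} (hp : Gd b c p) :
    ∀ᵐ l : ℝ ∂(mt μ), p - l ≠ 0 ∧ ‖(p - l)⁻¹‖ ≤ c⁻¹ := by
  filter_upwards [xl_far h hp] with l hl
  refine ⟨fun h0 => ?_, ?_⟩
  · rw [h0, norm_zero] at hl
    linarith [hl.1]
  · rw [norm_inv]
    exact inv_anti₀ hc hl.1

theorem xl_meas (p : ℂ) : Measurable fun l : ℝ => (p - l)⁻¹ := by
  fun_prop

theorem xl_nint (h : MuOK μ b M) {f : ℝ → ℂ} {C : ℝ} (hC : 0 ≤ C)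
    (hf : ∀ᵐ l ∂(mt μ), ‖f l‖ ≤ C) : ‖∫ l, f l ∂(mt μ)‖ ≤ 3 * C := by
  have := xl_fin h
  have := norm_integral_le_of_norm_le_const hf
  rw [xl_mass h] at this
  nlinarith [h.up]

theorem xl_i1 (h : MuOK μ b M) (hc : 0 < c) {p : ℂ} (hp : Gd b c p) :
    Integrable (fun l : ℝ => (p - l)⁻¹) (mt μ) := by
  have := xl_fin h
  exact Integrable.of_bound (xl_meas p).aestronglyMeasurable c⁻¹
    ((xl_inv h hc hp).mono fun l hl => hl.2)

theorem xl_n2 {x y : ℂ} {u : ℝ} (hx : ‖x‖ ≤ u) (hy : ‖y‖ ≤ u) : ‖x * y‖ ≤ u ^ 2 := by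
  rw [norm_mul, sq]
  exact mul_le_mul hx hy (norm_nonneg _) ((norm_nonneg _).trans hx)

theorem xl_n3 {x y z : ℂ} {u : ℝ} (hx : ‖x‖ ≤ u) (hy : ‖y‖ ≤ u) (hz : ‖z‖ ≤ u) :
    ‖x * y * z‖ ≤ u ^ 3 := by
  rw [norm_mul, pow_succ]
  exact mul_le_mul (xl_n2 hx hy) hz (norm_nonneg _) (sq_nonneg _)

theorem xl_i2 (h : MuOK μ b M) (hc : 0 < c) {p q : ℂ} (hp : Gd b c p) (hq : Gd b c q) :
    Integrable (fun l : ℝ => (p - l)⁻¹ * (q - l)⁻¹) (mt μ) := by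
  have := xl_fin h
  refine Integrable.of_bound ((xl_meas p).mul (xl_meas q)).aestronglyMeasurable (c⁻¹ ^ 2) ?_
  filter_upwards [xl_inv h hc hp, xl_inv h hc hq] with l h1 h2
  exact xl_n2 h1.2 h2.2

theorem xl_i3 (h : MuOK μ b M) (hc : 0 < c) {p p' q : ℂ} (hp : Gd b c p) (hp' : Gd b c p')
    (hq : Gd b c q) :
    Integrable (fun l : ℝ => (p - l)⁻¹ * (p' - l)⁻¹ * (q - l)⁻¹) (mt μ) := by
  have := xl_fin h
  refine Integrable.of_bound
    (((xl_meas p).mul (xl_meas p')).mul (xl_meas q)).aestronglyMeasurable (c⁻¹ ^ 3) ?_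
  filter_upwards [xl_inv h hc hp, xl_inv h hc hp', xl_inv h hc hq] with l h1 h2 h3
  exact xl_n3 h1.2 h2.2 h3.2

theorem xl_dinv {p p' l : ℂ} (h1 : p - l ≠ 0) (h2 : p' - l ≠ 0) :
    (p - l)⁻¹ - (p' - l)⁻¹ = -(p - p') * ((p - l)⁻¹ * (p' - l)⁻¹) := by
  field_simp
  ring

theorem xl_d1 (h : MuOK μ b M) (hc : 0 < c) {p p' : ℂ} (hp : Gd b c p) (hp' : Gd b c p') :
    G1 μ p - G1 μ p' = -(p - p') * G2 μ p p' := by
  unfold G1 G2
  rw [← integral_sub (xl_i1 h hc hp) (xl_i1 h hc hp'), ← integral_const_mul]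
  refine integral_congr_ae ?_
  filter_upwards [xl_inv h hc hp, xl_inv h hc hp'] with l h1 h2
  exact xl_dinv h1.1 h2.1

theorem xl_d2 (h : MuOK μ b M) (hc : 0 < c) {p p' q : ℂ} (hp : Gd b c p) (hp' : Gd b c p')
    (hq : Gd b c q) : G2 μ p q - G2 μ p' q = -(p - p') * xl_G3 μ p p' q := by
  unfold G2 xl_G3
  rw [← integral_sub (xl_i2 h hc hp hq) (xl_i2 h hc hp' hq), ← integral_const_mul]
  refine integral_congr_ae ?_
  filter_upwards [xl_inv h hc hp, xl_inv h hc hp'] with l h1 h2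
  rw [← sub_mul, xl_dinv h1.1 h2.1]
  ring

theorem xl_G2_symm (μ : Measure ℝ) (p q : ℂ) : G2 μ p q = G2 μ q p := by
  unfold G2
  simp only [mul_comm]

theorem xl_E_symm (μ : Measure ℝ) (p q : ℂ) : xl_E μ p q = xl_E μ q p := by
  unfold xl_E
  rw [xl_G2_symm μ p q, mul_comm (G1 μ p)]

theorem xl_dE (h : MuOK μ b M) (hc : 0 < c) {p p' q : ℂ} (hp : Gd b c p) (hp' : Gd b c p')
    (hq : Gd b c q) : xl_E μ p q - xl_E μ p' q = (p - p') * xl_F μ p p' q := by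
  have h1 := xl_d1 h hc hp hp'
  have h2 := xl_d2 h hc hp hp' hq
  unfold xl_E xl_F
  linear_combination G1 μ q * h1 - (μ.real univ : ℝ) * h2

theorem xl_b1 (h : MuOK μ b M) (hc : 0 < c) {p : ℂ} (hp : Gd b c p) : ‖G1 μ p‖ ≤ 3 * c⁻¹ :=
  xl_nint h (by positivity) ((xl_inv h hc hp).mono fun l hl => hl.2)

theorem xl_b2 (h : MuOK μ b M) (hc : 0 < c) {p q : ℂ} (hp : Gd b c p) (hq : Gd b c q) :
    ‖G2 μ p q‖ ≤ 3 * c⁻¹ ^ 2 := by
  refine xl_nint h (by positivity) ?_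
  filter_upwards [xl_inv h hc hp, xl_inv h hc hq] with l h1 h2
  exact xl_n2 h1.2 h2.2

theorem xl_b3 (h : MuOK μ b M) (hc : 0 < c) {p p' q : ℂ} (hp : Gd b c p) (hp' : Gd b c p')
    (hq : Gd b c q) : ‖xl_G3 μ p p' q‖ ≤ 3 * c⁻¹ ^ 3 := by
  refine xl_nint h (by positivity) ?_
  filter_upwards [xl_inv h hc hp, xl_inv h hc hp', xl_inv h hc hq] with l h1 h2 h3
  exact xl_n3 h1.2 h2.2 h3.2

theorem xl_nm (h : MuOK μ b M) : ‖((μ.real univ : ℝ) : ℂ)‖ ≤ 1 := by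
  rw [Complex.norm_real, Real.norm_eq_abs, abs_of_nonneg measureReal_nonneg]
  exact h.up

theorem xl_bF (h : MuOK μ b M) (hc : 0 < c) {p p' q : ℂ} (hp : Gd b c p) (hp' : Gd b c p')
    (hq : Gd b c q) : ‖xl_F μ p p' q‖ ≤ 12 * c⁻¹ ^ 3 := by
  unfold xl_F
  have h1 := xl_b1 h hc hq
  have h2 := xl_b2 h hc hp hp'
  have h3 := xl_b3 h hc hp hp' hq
  have h4 := xl_nm h
  refine (norm_sub_le _ _).trans ?_
  rw [norm_mul, norm_mul]
  have h5 := mul_le_mul h4 h3 (norm_nonneg _) zero_le_one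
  have h6 := mul_le_mul h2 h1 (norm_nonneg _) (by positivity)
  nlinarith

theorem xl_ndinv {p a l : ℂ} {u : ℝ} (h1 : p - l ≠ 0 ∧ ‖(p - l)⁻¹‖ ≤ u)
    (h2 : a - l ≠ 0 ∧ ‖(a - l)⁻¹‖ ≤ u) : ‖(p - l)⁻¹ - (a - l)⁻¹‖ ≤ ‖p - a‖ * u ^ 2 := by
  rw [xl_dinv h1.1 h2.1, norm_mul, norm_neg]
  exact mul_le_mul_of_nonneg_left (xl_n2 h1.2 h2.2) (norm_nonneg _)

theorem xl_l3 (h : MuOK μ b M) (hc : 0 < c) {p p' q a a' d : ℂ} (hp : Gd b c p)
    (hp' : Gd b c p') (hq : Gd b c q) (ha : Gd b c a) (ha' : Gd b c a') (hd : Gd b c d) :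
    ‖xl_G3 μ p p' q - xl_G3 μ a a' d‖ ≤ 3 * ((‖p - a‖ + ‖p' - a'‖ + ‖q - d‖) * c⁻¹ ^ 4) := by
  unfold xl_G3
  rw [← integral_sub (xl_i3 h hc hp hp' hq) (xl_i3 h hc ha ha' hd)]
  refine xl_nint h (by positivity) ?_
  filter_upwards [xl_inv h hc hp, xl_inv h hc hp', xl_inv h hc hq, xl_inv h hc ha,
    xl_inv h hc ha', xl_inv h hc hd] with l h1 h2 h3 h4 h5 h6
  have e1 := xl_ndinv h1 h4
  have e2 := xl_ndinv h2 h5
  have e3 := xl_ndinv h3 h6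
  have e : (p - l)⁻¹ * (p' - l)⁻¹ * (q - l)⁻¹ - (a - l)⁻¹ * (a' - l)⁻¹ * (d - l)⁻¹ =
      ((p - l)⁻¹ - (a - l)⁻¹) * ((p' - l)⁻¹ * (q - l)⁻¹) +
      ((p' - l)⁻¹ - (a' - l)⁻¹) * ((a - l)⁻¹ * (q - l)⁻¹) +
      ((q - l)⁻¹ - (d - l)⁻¹) * ((a - l)⁻¹ * (a' - l)⁻¹) := by ring
  rw [e]
  refine (norm_add₃_le).trans ?_
  rw [norm_mul (_ - _), norm_mul (_ - _), norm_mul (_ - _)]
  have f1 := mul_le_mul e1 (xl_n2 h2.2 h3.2) (norm_nonneg _) (by positivity)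
  have f2 := mul_le_mul e2 (xl_n2 h4.2 h3.2) (norm_nonneg _) (by positivity)
  have f3 := mul_le_mul e3 (xl_n2 h4.2 h5.2) (norm_nonneg _) (by positivity)
  nlinarith

theorem xl_l2 (h : MuOK μ b M) (hc : 0 < c) {p p' a a' : ℂ} (hp : Gd b c p)
    (hp' : Gd b c p') (ha : Gd b c a) (ha' : Gd b c a') :
    ‖G2 μ p p' - G2 μ a a'‖ ≤ 3 * ((‖p - a‖ + ‖p' - a'‖) * c⁻¹ ^ 3) := by
  have h1 := xl_d2 h hc hp ha hp'
  have h2 := xl_d2 h hc hp' ha' ha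
  have e : G2 μ p p' - G2 μ a a' = -(p - a) * xl_G3 μ p a p' + -(p' - a') * xl_G3 μ p' a' a := by
    rw [← h1, ← h2, xl_G2_symm μ p' a, xl_G2_symm μ a' a]
    ring
  rw [e]
  refine (norm_add_le _ _).trans ?_
  rw [norm_mul, norm_mul, norm_neg, norm_neg]
  have f1 := mul_le_mul_of_nonneg_left (xl_b3 h hc hp ha hp') (norm_nonneg (p - a))
  have f2 := mul_le_mul_of_nonneg_left (xl_b3 h hc hp' ha' ha) (norm_nonneg (p' - a'))
  nlinarith

theorem xl_l1 (h : MuOK μ b M) (hc : 0 < c) {q d : ℂ} (hq : Gd b c q) (hd : Gd b c d) :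
    ‖G1 μ q - G1 μ d‖ ≤ 3 * (‖q - d‖ * c⁻¹ ^ 2) := by
  rw [xl_d1 h hc hq hd, norm_mul, norm_neg]
  have f1 := mul_le_mul_of_nonneg_left (xl_b2 h hc hq hd) (norm_nonneg (q - d))
  nlinarith

theorem xl_lF (h : MuOK μ b M) (hc : 0 < c) {p p' q a a' d : ℂ} (hp : Gd b c p)
    (hp' : Gd b c p') (hq : Gd b c q) (ha : Gd b c a) (ha' : Gd b c a') (hd : Gd b c d) :
    ‖xl_F μ p p' q - xl_F μ a a' d‖ ≤ 12 * c⁻¹ ^ 4 * (‖p - a‖ + ‖p' - a'‖ + ‖q - d‖) := by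
  have e : xl_F μ p p' q - xl_F μ a a' d =
      (μ.real univ : ℝ) * (xl_G3 μ p p' q - xl_G3 μ a a' d) +
      -((G2 μ p p' - G2 μ a a') * G1 μ q) + -(G2 μ a a' * (G1 μ q - G1 μ d)) := by
    unfold xl_F
    ring
  rw [e]
  refine (norm_add₃_le).trans ?_
  rw [norm_neg, norm_neg, norm_mul, norm_mul, norm_mul]
  have f1 := mul_le_mul (xl_nm h) (xl_l3 h hc hp hp' hq ha ha' hd) (norm_nonneg _) zero_le_one
  have f2 := mul_le_mul (xl_l2 h hc hp hp' ha ha') (xl_b1 h hc hq) (norm_nonneg _)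
    (by positivity)
  have f3 := mul_le_mul (xl_b2 h hc ha ha') (xl_l1 h hc hq hd) (norm_nonneg _) (by positivity)
  nlinarith

theorem xl_ipow (ν : Measure ℝ) [IsFiniteMeasure ν] {y : ℝ → ℝ} (hy : Measurable y) {C : ℝ}
    (hb : ∀ᵐ l ∂ν, |y l| ≤ C) (k : ℕ) : Integrable (fun l => y l ^ k) ν := by
  refine Integrable.of_bound (hy.pow_const k).aestronglyMeasurable (C ^ k) ?_
  filter_upwards [hb] with l hl
  rw [Real.norm_eq_abs, abs_pow]
  exact pow_le_pow_left₀ (abs_nonneg _) hl k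

theorem xl_poly (ν : Measure ℝ) [IsFiniteMeasure ν] {y : ℝ → ℝ} (hy : Measurable y) {C : ℝ}
    (hb : ∀ᵐ l ∂ν, |y l| ≤ C) (a₃ a₂ a₁ a₀ : ℝ)
    (hpos : ∀ᵐ l ∂ν, 0 ≤ a₃ * y l ^ 3 + a₂ * y l ^ 2 + a₁ * y l ^ 1 + a₀) :
    0 ≤ a₃ * ∫ l, y l ^ 3 ∂ν + a₂ * ∫ l, y l ^ 2 ∂ν + a₁ * ∫ l, y l ^ 1 ∂ν + a₀ * ν.real univ := by
  have h0 := integral_nonneg_of_ae hpos
  have i3 := (xl_ipow ν hy hb 3).const_mul a₃
  have i2 := (xl_ipow ν hy hb 2).const_mul a₂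
  have i1 := (xl_ipow ν hy hb 1).const_mul a₁
  have i32 : Integrable (fun l => a₃ * y l ^ 3 + a₂ * y l ^ 2) ν := i3.add i2
  have i321 : Integrable (fun l => a₃ * y l ^ 3 + a₂ * y l ^ 2 + a₁ * y l ^ 1) ν := i32.add i1
  rw [integral_add i321 (integrable_const _), integral_add i32 i1, integral_add i3 i2,
    integral_const_mul, integral_const_mul, integral_const_mul, integral_const, smul_eq_mul] at h0
  linarith

theorem xl_algA {m σ J1 J2 J3 B ε : ℝ} (hM : 0 < M) (hm : M ≤ m) (hm1 : m ≤ 1)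
    (hσ : σ = 1 ∨ σ = -1) (h2 : 2 / 169 ≤ J2) (hB : |J1| ≤ B) (hε : |J1 * J1 - m * J2| ≤ ε)
    (hε1 : (1 + B) * ε ≤ M / 2366)
    (h : 0 ≤ σ * m ^ 2 * J3 + (-2 * σ * m * J1 - m ^ 2 / 14) * J2 +
      (σ * J1 ^ 2 + 2 * m * J1 / 14) * J1 + -(J1 ^ 2 / 14) * (m + 2)) :
    M / 2366 ≤ |m * J3 - J2 * J1| := by
  set e := J1 * J1 - m * J2 with he
  set F := m * J3 - J2 * J1 with hF
  have h' : 0 ≤ σ * m * F + σ * J1 * e - (2 * (J1 * J1) - m * e) / 14 := by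
    rw [he, hF]
    linarith
  have hε0 : 0 ≤ ε := (abs_nonneg _).trans hε
  have hσ1 : |σ| = 1 := by rcases hσ with rfl | rfl <;> simp
  have a1 : σ * J1 * e ≤ B * ε := by
    refine (le_abs_self _).trans ?_
    rw [abs_mul, abs_mul, hσ1, one_mul]
    exact mul_le_mul hB hε (abs_nonneg _) ((abs_nonneg _).trans hB)
  have a2 : m * e ≤ ε := by
    refine (le_abs_self _).trans ?_
    rw [abs_mul, abs_of_nonneg (by linarith : 0 ≤ m)]
    nlinarith [abs_nonneg e]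
  have a3 : 2 * M / 169 - ε ≤ J1 * J1 := by
    have := (abs_le.1 hε).1
    have : M * (2 / 169) ≤ m * J2 := mul_le_mul hm h2 (by norm_num) (by linarith)
    linarith
  have a4 : σ * m * F ≤ |F| := by
    refine (le_abs_self _).trans ?_
    rw [abs_mul, abs_mul, hσ1, one_mul, abs_of_nonneg (by linarith : 0 ≤ m)]
    nlinarith [abs_nonneg F]
  nlinarith

theorem xl_algB {m y K1 K2 K3 ε : ℝ} (hM : 0 < M) (hm : M ≤ m) (hm1 : m ≤ 1) (hy : 4 ≤ y)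
    (h1 : K1 ≤ 0) (h2 : 0 ≤ K2) (h3 : K3 ≤ 0) (hcs : K1 ^ 2 ≤ m * K2)
    (hε : |(K1 + 2 * y) * (K1 + 2 * y) - m * (K2 + 2 * y ^ 2)| ≤ ε) (hε1 : ε ≤ M) :
    M ≤ |m * (K3 + 2 * y ^ 3) - (K2 + 2 * y ^ 2) * (K1 + 2 * y)| := by
  have hl := (abs_le.1 hε).1
  have hm0 : 0 < m := by linarith
  have hy2 : 16 ≤ y ^ 2 := by nlinarith
  have hmy : 16 * M ≤ m * y ^ 2 := by nlinarith
  set J := K1 + 2 * y with hJ
  have hJ0 : 0 ≤ J := by
    by_contra hn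
    have hn' : J < 0 := lt_of_not_ge hn
    have : J * J ≤ K1 ^ 2 := by
      rw [hJ]
      nlinarith
    nlinarith
  have hmK : 0 ≤ m * K2 := mul_nonneg hm0.le h2
  have hJ2 : 2 * (m * y ^ 2) - M ≤ J * J := by nlinarith
  have ht : m * y ≤ y := by nlinarith
  have ht0 : 0 ≤ m * y := by positivity
  have ht2 : (m * y) ^ 2 ≤ m * y ^ 2 := by nlinarith
  have hd : m * y ^ 2 / 2 ≤ (J - m * y) * (J + m * y) := by nlinarith
  have hd0 : 0 ≤ J - m * y := by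
    by_contra hn
    have hn' : J - m * y < 0 := lt_of_not_ge hn
    nlinarith
  have hs : J + m * y ≤ 3 * y := by linarith
  have hd1 : m * y ^ 2 / 2 ≤ (J - m * y) * (3 * y) :=
    hd.trans (mul_le_mul_of_nonneg_left hs hd0)
  have hd2 : m * y / 6 ≤ J - m * y := by
    have hy0 : 0 < 3 * y := by linarith
    refine le_of_mul_le_mul_right ?_ hy0
    linarith
  have hd3 : M / 2 ≤ J - m * y := by nlinarith
  have hK3 : m * K3 ≤ 0 := mul_nonpos_of_nonneg_of_nonpos hm0.le h3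
  have hK4 : 0 ≤ m * y * K2 := mul_nonneg ht0 h2
  have hf : M / 2 * 32 ≤ (J - m * y) * (K2 + 2 * y ^ 2) :=
    mul_le_mul hd3 (by linarith) (by norm_num) hd0
  refine le_trans ?_ (neg_le_abs _)
  nlinarith

theorem xl_real (hc : 0 < c) (hM : 0 < M) (h : MuOK μ b M) {v : ℝ} (hv : Gd b c v)
    (hE : ‖xl_E μ v v‖ ≤ M / 2366 / (1 + 3 * c⁻¹)) : M / 2366 ≤ ‖xl_F μ v v v‖ := by
  have := h.fin
  have := xl_fin h
  set y : ℝ → ℝ := fun l => (v - l)⁻¹ with hy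
  have hym : Measurable y := by fun_prop
  have hfar : ∀ᵐ l ∂(mt μ), c ≤ |v - l| ∧ |v - l| ≤ 14 := by
    filter_upwards [xl_far h hv] with l hl
    rwa [← Complex.ofReal_sub, Complex.norm_real, Real.norm_eq_abs] at hl
  have hb : ∀ᵐ l ∂(mt μ), |y l| ≤ c⁻¹ := by
    filter_upwards [hfar] with l hl
    rw [hy, abs_inv]
    exact inv_anti₀ hc hl.1
  have hbμ : ∀ᵐ l ∂μ, |y l| ≤ c⁻¹ := by
    have h' := hb
    unfold mt at h'
    exact (ae_add_measure_iff.1 h').1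
  have e1 : G1 μ v = ((∫ l, y l ^ 1 ∂(mt μ) : ℝ) : ℂ) := by
    rw [← integral_complex_ofReal]
    unfold G1
    congr 1
    ext l
    simp [hy]
  have e2 : G2 μ v v = ((∫ l, y l ^ 2 ∂(mt μ) : ℝ) : ℂ) := by
    rw [← integral_complex_ofReal]
    unfold G2
    congr 1
    ext l
    simp [hy, sq]
  have e3 : xl_G3 μ v v v = ((∫ l, y l ^ 3 ∂(mt μ) : ℝ) : ℂ) := by
    rw [← integral_complex_ofReal]
    unfold xl_G3
    congr 1
    ext l
    simp [hy, pow_succ]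
  have hB := xl_b1 h hc hv
  unfold xl_E at hE
  unfold xl_F
  rw [e1, Complex.norm_real, Real.norm_eq_abs] at hB
  rw [e1, e2, ← Complex.ofReal_mul, ← Complex.ofReal_mul, ← Complex.ofReal_sub, Complex.norm_real,
    Real.norm_eq_abs] at hE
  rw [e1, e2, e3, ← Complex.ofReal_mul, ← Complex.ofReal_mul, ← Complex.ofReal_sub,
    Complex.norm_real, Real.norm_eq_abs]
  have hci : 0 < c⁻¹ := inv_pos.2 hc
  have hε1 : (1 + 3 * c⁻¹) * (M / 2366 / (1 + 3 * c⁻¹)) ≤ M / 2366 := by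
    rw [mul_div_cancel₀ _ (by positivity)]
  have hlo : c ≤ |v| := by simpa using hv.lo
  have hup : |v| ≤ 13 := by simpa using hv.up
  have s1 := int_mt h (xl_ipow μ hym hbμ 1)
  have s2 := int_mt h (xl_ipow μ hym hbμ 2)
  have s3 := int_mt h (xl_ipow μ hym hbμ 3)
  have hy0 : y 0 = v⁻¹ := by simp [hy]
  simp only [smul_eq_mul, hy0] at s1 s2 s3
  have k2 : 0 ≤ ∫ l, y l ^ 2 ∂μ := integral_nonneg fun l => sq_nonneg _
  have hA : ∀ σ : ℝ, (σ = 1 ∨ σ = -1) → (∀ᵐ l ∂(mt μ), 0 < σ * (v - l)) →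
      M / 2366 ≤ |μ.real univ * ∫ l, y l ^ 3 ∂(mt μ) -
        (∫ l, y l ^ 2 ∂(mt μ)) * ∫ l, y l ^ 1 ∂(mt μ)| := by
    intro σ hσ hs
    have h2 : 2 / 169 ≤ ∫ l, y l ^ 2 ∂(mt μ) := by
      have hv0 : 0 < |v| := by linarith
      have : (13 : ℝ)⁻¹ ≤ |v⁻¹| := by
        rw [abs_inv]
        exact inv_anti₀ hv0 hup
      have h3 : (13 : ℝ)⁻¹ ^ 2 ≤ |v⁻¹| ^ 2 := pow_le_pow_left₀ (by norm_num) this 2
      rw [sq_abs] at h3
      rw [s2]
      norm_num at h3 ⊢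
      linarith
    refine xl_algA hM h.lo h.up hσ h2 hB hE hε1 ?_
    rw [← xl_mass h]
    refine xl_poly (mt μ) hym hb _ _ _ _ ?_
    filter_upwards [hfar, hs] with l hl hl'
    have h14 : 1 / 14 ≤ σ * y l := by
      have hne : v - l ≠ 0 := by
        intro h0
        rw [h0, mul_zero] at hl'
        exact lt_irrefl _ hl'
      have hyy : σ * y l = (σ * (v - l))⁻¹ := by
        rcases hσ with rfl | rfl <;> simp only [hy] <;> field_simp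
      have hle : σ * (v - l) ≤ 14 := by
        rcases hσ with rfl | rfl <;> linarith [(abs_le.1 hl.2).1, (abs_le.1 hl.2).2]
      rw [hyy, one_div]
      exact inv_anti₀ hl' hle
    have := mul_nonneg (sub_nonneg.2 h14)
      (sq_nonneg (μ.real univ * y l - ∫ l, y l ^ 1 ∂(mt μ)))
    linarith
  rcases lt_or_ge v 0 with hv0 | hv0
  · refine hA (-1) (Or.inr rfl) ?_
    filter_upwards [xl_ae h] with l hl
    rcases hl with rfl | hl
    · linarith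
    · linarith [hl.1]
  rcases lt_or_ge v (1 / 4) with hv1 | hv1
  · have hvp : 0 < v := by
      rw [abs_of_nonneg hv0] at hlo
      linarith
    have h4 : 4 ≤ v⁻¹ := by
      have := inv_anti₀ hvp hv1.le
      norm_num at this
      simpa using this
    have hneg : ∀ᵐ l ∂μ, y l < 0 := by
      filter_upwards [h.supp] with l hl
      exact inv_lt_zero.2 (by linarith [hl.1])
    have k1 : ∫ l, y l ^ 1 ∂μ ≤ 0 := by
      refine integral_nonpos_of_ae ?_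
      filter_upwards [hneg] with l hl
      simpa using hl.le
    have k3 : ∫ l, y l ^ 3 ∂μ ≤ 0 := by
      refine integral_nonpos_of_ae ?_
      filter_upwards [hneg] with l hl
      exact (Odd.pow_neg (by decide) hl).le
    have hm0 : 0 < μ.real univ := by linarith [h.lo]
    have hcs : (∫ l, y l ^ 1 ∂μ) ^ 2 ≤ μ.real univ * ∫ l, y l ^ 2 ∂μ := by
      have := xl_poly μ hym hbμ 0 (μ.real univ ^ 2) (-2 * μ.real univ * ∫ l, y l ^ 1 ∂μ)
        ((∫ l, y l ^ 1 ∂μ) ^ 2) (Filter.Eventually.of_forall fun l => by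
          nlinarith [sq_nonneg (μ.real univ * y l - ∫ l, y l ^ 1 ∂μ)])
      refine le_of_mul_le_mul_left ?_ hm0
      linarith
    rw [s1, s2, pow_one] at hE
    rw [s1, s2, s3, pow_one]
    have hε2 : M / 2366 / (1 + 3 * c⁻¹) ≤ M := by
      have : M / 2366 / (1 + 3 * c⁻¹) ≤ M / 2366 :=
        div_le_self (by positivity) (by linarith)
      linarith
    have := xl_algB hM h.lo h.up h4 k1 k2 k3 hcs hE hε2
    linarith
  · have hvb : b < v := by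
      by_contra hn
      have := hv.far v ⟨hv1, le_of_not_gt hn⟩
      rw [sub_self, norm_zero] at this
      linarith
    refine hA 1 (Or.inl rfl) ?_
    filter_upwards [xl_ae h] with l hl
    rcases hl with rfl | hl
    · linarith
    · linarith [hl.2]

theorem xl_G1_conj (μ : Measure ℝ) (q : ℂ) : G1 μ (conj q) = conj (G1 μ q) := by
  unfold G1
  rw [← integral_conj]
  congr 1
  ext l
  simp

theorem xl_G2_conj (μ : Measure ℝ) (q : ℂ) : G2 μ q (conj q) = (GI μ q : ℝ) := by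
  unfold G2 GI
  rw [← integral_complex_ofReal]
  congr 1
  ext l
  have e : conj q - (l : ℂ) = conj (q - l) := by simp
  rw [e, ← mul_inv, Complex.mul_conj, Complex.normSq_eq_norm_sq]
  simp

theorem xl_E_zero {q : ℂ} (hq : μ.real univ * GI μ q = ‖G1 μ q‖ ^ 2) :
    xl_E μ q (conj q) = 0 := by
  unfold xl_E
  rw [xl_G1_conj, xl_G2_conj, Complex.mul_conj, Complex.normSq_eq_norm_sq, ← hq]
  simp

theorem xl_mono {c' : ℝ} {p : ℂ} (hcc : c' ≤ c) (hp : Gd b c p) : Gd b c' p :=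
  ⟨hcc.trans hp.lo, hp.up, fun l hl => hcc.trans (hp.far l hl)⟩

theorem xl_G1_ne (hc : 0 < c) (hM : 0 < M) (h : MuOK μ b M) {p : ℂ} (hp : Gd b c p)
    (e : μ.real univ * GI μ p = ‖G1 μ p‖ ^ 2) : G1 μ p ≠ 0 := by
  intro h0
  rw [h0, norm_zero] at e
  have h1 := (gi_bd h hc hp).1
  have h2 := h.lo
  have : 0 < μ.real univ * GI μ p := mul_pos (by linarith) (by
    have : (0 : ℝ) < 2 / 13 ^ 2 := by norm_num
    linarith)
  rw [e] at this
  norm_num at this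

theorem xl_H (h : MuOK μ b M) (hc : 0 < c) {p q : ℂ} (hp : Gd b c p) (hq : Gd b c q)
    (h1 : G1 μ p ≠ 0) (h2 : G1 μ q ≠ 0) :
    (Hf μ p - Hf μ q) * (G1 μ p * G1 μ q) = (p - q) * xl_E μ p q := by
  have hd := xl_d1 h hc hp hq
  unfold Hf xl_E
  have e1 : (μ.real univ : ℝ) / G1 μ p * G1 μ p = (μ.real univ : ℝ) := div_mul_cancel₀ _ h1
  have e2 : (μ.real univ : ℝ) / G1 μ q * G1 μ q = (μ.real univ : ℝ) := div_mul_cancel₀ _ h2
  linear_combination (-G1 μ q) * e1 + G1 μ p * e2 + (μ.real univ : ℝ) * hd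

theorem xl_near (hc : 0 < c) (hM : 0 < M) : ∃ δ > 0, ∃ L > 0, ∀ (μ : Measure ℝ) (b : ℝ) (p q : ℂ),
    MuOK μ b M → Gd b c p → Gd b c q → 0 ≤ p.im → 0 ≤ q.im →
    μ.real univ * GI μ p = ‖G1 μ p‖ ^ 2 → μ.real univ * GI μ q = ‖G1 μ q‖ ^ 2 →
    ‖p - conj q‖ ≤ δ →
    |p.re - q.re| ≤ L * ‖Hf μ p - Hf μ q‖ ∧ ‖p - q‖ * ‖p - conj q‖ ≤ L * ‖Hf μ p - Hf μ q‖ := by
  have hc2 : 0 < c / 2 := by linarith
  obtain ⟨u, hu⟩ : ∃ u, u = (c / 2)⁻¹ := ⟨_, rfl⟩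
  have hu0 : 0 < u := hu ▸ inv_pos.2 hc2
  obtain ⟨κ, hκ⟩ : ∃ κ, κ = M / 2366 := ⟨_, rfl⟩
  have hκ0 : 0 < κ := by rw [hκ]; positivity
  refine ⟨min (c / 2) (min (κ / (1 + 3 * u) / (24 * u ^ 3)) (κ / (72 * u ^ 4))), by positivity,
    18 * u ^ 2 / κ + 72 * u ^ 4 / κ * (18 * u ^ 2 / κ), by positivity, ?_⟩
  intro μ b p q h hp hq hpi hqi ep eq hδ
  have d1 : ‖p - conj q‖ ≤ c / 2 := hδ.trans (min_le_left _ _)
  have d2 : ‖p - conj q‖ * (24 * u ^ 3) ≤ κ / (1 + 3 * u) :=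
    (le_div_iff₀ (by positivity)).1 (hδ.trans ((min_le_right _ _).trans (min_le_left _ _)))
  have d3 : ‖p - conj q‖ * (72 * u ^ 4) ≤ κ :=
    (le_div_iff₀ (by positivity)).1 (hδ.trans ((min_le_right _ _).trans (min_le_right _ _)))
  set δ := ‖p - conj q‖ with hδdef
  have hδ0 : 0 ≤ δ := norm_nonneg _
  have hsq : δ ^ 2 = (p.re - q.re) ^ 2 + (p.im + q.im) ^ 2 := by
    rw [hδdef, ← Complex.normSq_eq_norm_sq, Complex.normSq_apply]
    simp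
    ring
  have key : ∀ a : ℂ, a.re = p.re ∨ a.re = q.re → a.im ^ 2 = p.im ^ 2 ∨ a.im ^ 2 = q.im ^ 2 →
      ‖a - (p.re : ℝ)‖ ≤ δ := by
    intro a h1 h2
    refine pow_le_pow_left₀ (norm_nonneg _) ?_ 1 |>.trans_eq (pow_one δ) |> (pow_one _).ge.trans
    refine abs_le_of_sq_le_sq' ?_ hδ0 |>.2
    rw [← Complex.normSq_eq_norm_sq, Complex.normSq_apply, hsq]
    simp only [Complex.sub_re, Complex.ofReal_re, Complex.sub_im, Complex.ofReal_im, sub_zero]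
    have h3 := mul_nonneg hpi hqi
    rcases h1 with h1 | h1 <;> rcases h2 with h2 | h2 <;> rw [h1] <;>
      nlinarith [sq_nonneg (p.re - q.re), sq_nonneg p.im, sq_nonneg q.im]
  have kp := key p (Or.inl rfl) (Or.inl rfl)
  have kq := key q (Or.inr rfl) (Or.inr rfl)
  have kp' := key (conj p) (Or.inl rfl) (Or.inl (by simp))
  have kq' := key (conj q) (Or.inr rfl) (Or.inr (by simp))
  have gp : Gd b (c / 2) p := xl_mono (by linarith) hp
  have gq : Gd b (c / 2) q := xl_mono (by linarith) hq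
  have gp' := gp.conj
  have gq' := gq.conj
  have gv : Gd b (c / 2) (p.re : ℝ) := by
    refine ⟨?_, ?_, fun l hl => ?_⟩
    · have := norm_sub_norm_le p (p.re : ℝ)
      linarith [hp.lo]
    · rw [Complex.norm_real, Real.norm_eq_abs]
      exact (Complex.abs_re_le_norm p).trans hp.up
    · have h1 := hp.far l hl
      have h2 := norm_add_le (p - (p.re : ℝ)) ((p.re : ℝ) - (l : ℝ))
      rw [sub_add_sub_cancel] at h2
      linarith
  have hE : ‖xl_E μ (p.re : ℝ) (p.re : ℝ)‖ ≤ M / 2366 / (1 + 3 * (c / 2)⁻¹) := by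
    have a1 := xl_dE h hc2 gp gv gp'
    have a2 := xl_dE h hc2 gp' gv gv
    rw [xl_E_zero ep] at a1
    rw [xl_E_symm μ (conj p)] at a2
    have e : xl_E μ (p.re : ℝ) (p.re : ℝ) = -((p - (p.re : ℝ)) * xl_F μ p (p.re : ℝ) (conj p)) +
        -((conj p - (p.re : ℝ)) * xl_F μ (conj p) (p.re : ℝ) (p.re : ℝ)) := by
      linear_combination -a1 - a2
    rw [e, ← hu, ← hκ]
    refine (norm_add_le _ _).trans ?_
    rw [norm_neg, norm_neg, norm_mul, norm_mul]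
    have b1 := xl_bF h hc2 gp gv gp'
    have b2 := xl_bF h hc2 gp' gv gv
    rw [← hu] at b1 b2
    have f1 := mul_le_mul kp b1 (norm_nonneg _) hδ0
    have f2 := mul_le_mul kp' b2 (norm_nonneg _) hδ0
    linarith
  have hF := xl_real hc2 hM h gv hE
  rw [← hκ] at hF
  have clo : ∀ a a' d : ℂ, Gd b (c / 2) a → Gd b (c / 2) a' → Gd b (c / 2) d →
      ‖a - (p.re : ℝ)‖ ≤ δ → ‖a' - (p.re : ℝ)‖ ≤ δ → ‖d - (p.re : ℝ)‖ ≤ δ →
      ‖xl_F μ a a' d - xl_F μ (p.re : ℝ) (p.re : ℝ) (p.re : ℝ)‖ ≤ 36 * u ^ 4 * δ := by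
    intro a a' d ga ga' gd ka ka' kd
    have := xl_lF h hc2 ga ga' gd gv gv gv
    rw [← hu] at this
    refine this.trans ?_
    have h4 : 0 ≤ 12 * u ^ 4 := by positivity
    have := mul_le_mul_of_nonneg_left (add_le_add (add_le_add ka ka') kd) h4
    linarith
  have low : ∀ a a' d : ℂ, ‖xl_F μ a a' d - xl_F μ (p.re : ℝ) (p.re : ℝ) (p.re : ℝ)‖ ≤
      36 * u ^ 4 * δ → κ / 2 ≤ ‖xl_F μ a a' d‖ := by
    intro a a' d hh
    have := norm_sub_norm_le (xl_F μ (p.re : ℝ) (p.re : ℝ) (p.re : ℝ)) (xl_F μ a a' d)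
    rw [norm_sub_rev] at this
    linarith
  have n1 := xl_G1_ne hc hM h hp ep
  have n2 := xl_G1_ne hc hM h hq eq
  have hH := xl_H h hc hp hq n1 n2
  have a0 := xl_dE h hc2 gp gq' gq
  rw [xl_E_symm μ (conj q), xl_E_zero eq, sub_zero] at a0
  rw [a0] at hH
  have hHn := congrArg norm hH
  rw [norm_mul, norm_mul, norm_mul, norm_mul, ← hδdef] at hHn
  have l0 := low _ _ _ (clo _ _ _ gp gq' gq kp kq' kq)
  have b1 := xl_b1 h hc2 gp
  have b2 := xl_b1 h hc2 gq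
  rw [← hu] at b1 b2
  have hHp : 0 ≤ ‖Hf μ p - Hf μ q‖ := norm_nonneg _
  have r2 : ‖p - q‖ * δ ≤ 18 * u ^ 2 / κ * ‖Hf μ p - Hf μ q‖ := by
    have f1 := mul_le_mul b1 b2 (norm_nonneg _) (by positivity)
    have f2 := mul_le_mul_of_nonneg_left f1 hHp
    have f3 := mul_le_mul_of_nonneg_left l0 (mul_nonneg (norm_nonneg (p - q)) hδ0)
    rw [div_mul_eq_mul_div, le_div_iff₀ hκ0]
    linarith
  have a1 := xl_dE h hc2 gp gq gp'
  have a2 := xl_dE h hc2 gp' gq' gq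
  rw [xl_E_zero ep] at a1
  rw [xl_E_symm μ (conj q), xl_E_zero eq, xl_E_symm μ (conj p)] at a2
  have c1 := clo _ _ _ gp gq gp' kp kq kp'
  have c2 := clo _ _ _ gp' gq' gq kp' kq' kq
  have l1 := low _ _ _ c1
  have e : ((2 * (p.re - q.re) : ℝ) : ℂ) * xl_F μ p q (conj p) =
      conj (p - q) * (xl_F μ p q (conj p) - xl_F μ (conj p) (conj q) q) := by
    have e0 : ((2 * (p.re - q.re) : ℝ) : ℂ) = (p - q) + conj (p - q) := by
      rw [Complex.add_conj]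
      simp
    rw [e0, map_sub]
    linear_combination -a1 - a2
  have en := congrArg norm e
  rw [norm_mul, norm_mul, Complex.norm_conj, Complex.norm_real, Real.norm_eq_abs, abs_mul,
    abs_two] at en
  have c3 : ‖xl_F μ p q (conj p) - xl_F μ (conj p) (conj q) q‖ ≤ 72 * u ^ 4 * δ := by
    have := norm_sub_le_norm_sub_add_norm_sub (xl_F μ p q (conj p))
      (xl_F μ (p.re : ℝ) (p.re : ℝ) (p.re : ℝ)) (xl_F μ (conj p) (conj q) q)
    rw [norm_sub_rev (xl_F μ (p.re : ℝ) (p.re : ℝ) (p.re : ℝ))] at this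
    linarith
  have r1 : |p.re - q.re| ≤ 72 * u ^ 4 / κ * (‖p - q‖ * δ) := by
    have f1 := mul_le_mul_of_nonneg_left c3 (norm_nonneg (p - q))
    have f2 := mul_le_mul_of_nonneg_left l1 (abs_nonneg (p.re - q.re))
    rw [div_mul_eq_mul_div, le_div_iff₀ hκ0]
    linarith
  have r3 := mul_le_mul_of_nonneg_left r2 (by positivity : 0 ≤ 72 * u ^ 4 / κ)
  have p1 : 0 ≤ 18 * u ^ 2 / κ * ‖Hf μ p - Hf μ q‖ := by positivity
  have p2 : 0 ≤ 72 * u ^ 4 / κ * (18 * u ^ 2 / κ * ‖Hf μ p - Hf μ q‖) := by positivity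
  constructor <;> linarith

end Aux

/-- No cusps. -/
theorem nocusp (hc : 0 < c) (hM : 0 < M) : ∃ L > 0, ∀ (μ : Measure ℝ) (b : ℝ) (p q : ℂ),
    MuOK μ b M → Gd b c p → Gd b c q → 0 ≤ p.im → 0 ≤ q.im →
    μ.real univ * GI μ p = ‖G1 μ p‖ ^ 2 → μ.real univ * GI μ q = ‖G1 μ q‖ ^ 2 →
    |p.re - q.re| ≤ L * ‖Hf μ p - Hf μ q‖ ∧ ‖p - q‖ * ‖p - conj q‖ ≤ L * ‖Hf μ p - Hf μ q‖ := by
  obtain ⟨δ, hδ, L, hL, hn⟩ := xl_near hc hM
  obtain ⟨k, hk, hf⟩ := cubic hc hM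
  refine ⟨L + (1 / (k * δ) + 1 / (k * δ ^ 2)), by positivity, ?_⟩
  intro μ b p q h hp hq hpi hqi ep eq
  have hH : 0 ≤ ‖Hf μ p - Hf μ q‖ := norm_nonneg _
  have p0 : 0 ≤ L * ‖Hf μ p - Hf μ q‖ := by positivity
  have p1 : 0 ≤ 1 / (k * δ) * ‖Hf μ p - Hf μ q‖ := by positivity
  have p2 : 0 ≤ 1 / (k * δ ^ 2) * ‖Hf μ p - Hf μ q‖ := by positivity
  rcases le_total ‖p - conj q‖ δ with hd | hd
  · obtain ⟨h1, h2⟩ := hn μ b p q h hp hq hpi hqi ep eq hd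
    constructor <;> linarith
  · have h0 := hf μ b p q h hp hq ep.le eq.le
    have hpq : 0 ≤ ‖p - q‖ := norm_nonneg _
    have h1 : ‖p - q‖ * ‖p - conj q‖ ≤ 1 / (k * δ) * ‖Hf μ p - Hf μ q‖ := by
      rw [one_div_mul_eq_div, le_div_iff₀ (by positivity)]
      have := mul_le_mul_of_nonneg_left hd
        (by positivity : 0 ≤ k * (‖p - q‖ * ‖p - conj q‖))
      linarith
    have h2 : ‖p - q‖ ≤ 1 / (k * δ ^ 2) * ‖Hf μ p - Hf μ q‖ := by
      rw [one_div_mul_eq_div, le_div_iff₀ (by positivity)]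
      have := mul_le_mul_of_nonneg_left (pow_le_pow_left₀ hδ.le hd 2)
        (by positivity : 0 ≤ k * ‖p - q‖)
      linarith
    have h3 : |p.re - q.re| ≤ ‖p - q‖ := by simpa using Complex.abs_re_le_norm (p - q)
    constructor <;> linarith

end Pool.Agent.Lib.MP_263241_an
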