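import Mathlib

/-! The Poisson kernel. -/

namespace Pool.Agent.Lib.MP_263241_an

open Filter Topology MeasureTheory Set
open scoped Real

/-- The weighted Poisson integral. -/
noncomputable def Po (ν : Measure ℝ) (ρ : ℝ → ℝ) (e x : ℝ) : ℝ :=
  ∫ l, ρ l * (e / ((x - l) ^ 2 + e ^ 2)) ∂ν

theorem xp_rho {ν : Measure ℝ} [IsFiniteMeasure ν] {K : ℝ} (s : ∀ᵐ l ∂ν, |l| ≤ K) {ρ : ℝ → ℝ}
    (hρ : Continuous ρ) : Integrable ρ ν := by
  obtain ⟨C, hC⟩ := isCompact_Icc.exists_bound_of_continuousOn (s := Icc (-K) K) hρ.continuousOn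
  exact Integrable.of_bound hρ.aestronglyMeasurable C (s.mono fun l hl => hC l (abs_le.1 hl))

theorem xp_ker {e : ℝ} (he : 0 < e) (t : ℝ) : |e / (t ^ 2 + e ^ 2)| ≤ e⁻¹ := by
  have h : 0 < t ^ 2 + e ^ 2 := by positivity
  rw [abs_of_pos (div_pos he h), div_le_iff₀ h, inv_mul_eq_div, le_div_iff₀ he]
  nlinarith [sq_nonneg t]

theorem xp_int {ν : Measure ℝ} [IsFiniteMeasure ν] {G ρ : ℝ → ℝ} (hG : Integrable G)
    (hρ : Integrable ρ ν) {e : ℝ} (he : 0 < e) :
    Integrable (Function.uncurry fun x l => G x * (ρ l * (e / ((x - l) ^ 2 + e ^ 2))))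
      ((volume : Measure ℝ).prod ν) := by
  have h1 : Continuous fun q : ℝ × ℝ => e / ((q.1 - q.2) ^ 2 + e ^ 2) :=
    continuous_const.div (by fun_prop) fun q => by positivity
  refine ((hG.mul_prod hρ).mul_bdd (c := e⁻¹) h1.aestronglyMeasurable
    (Eventually.of_forall fun q => xp_ker he _)).congr (Eventually.of_forall fun q => ?_)
  exact mul_assoc _ _ _

theorem xp_int' {ν : Measure ℝ} [IsFiniteMeasure ν] {G ρ : ℝ → ℝ} (hG : Integrable G)
    (hρ : Integrable ρ ν) {e : ℝ} (he : 0 < e) : Integrable fun x => G x * Po ν ρ e x :=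
  (xp_int hG hρ he).integral_prod_left.congr (Eventually.of_forall fun x => by
    simp only [Function.uncurry_apply_pair, Po, integral_const_mul])

theorem xp_cov (G : ℝ → ℝ) {e : ℝ} (he : 0 < e) (l : ℝ) :
    ∫ x, G x * (e / ((x - l) ^ 2 + e ^ 2)) = ∫ y, G (l + e * y) * (1 + y ^ 2)⁻¹ := by
  have h1 := Measure.integral_comp_mul_left
    (fun x => G (l + x) * (e / ((l + x - l) ^ 2 + e ^ 2))) e
  rw [integral_add_left_eq_self (fun x => G x * (e / ((x - l) ^ 2 + e ^ 2))) l,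
    abs_of_pos (inv_pos.2 he), smul_eq_mul, eq_inv_mul_iff_mul_eq₀ he.ne',
    ← integral_const_mul] at h1
  rw [← h1]
  refine integral_congr_ae (Eventually.of_forall fun y => ?_)
  have h2 : (1 + y ^ 2) ≠ 0 := by positivity
  have h3 : (l + e * y - l) ^ 2 + e ^ 2 = e ^ 2 * (1 + y ^ 2) := by ring
  simp only [h3]
  field_simp

theorem xp_lim {ν : Measure ℝ} [IsFiniteMeasure ν] {α β : ℝ} {G ρ : ℝ → ℝ} (hG : Continuous G)
    (g0 : ∀ x, x ∉ Icc α β → G x = 0) (hρ : Integrable ρ ν) :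
    Tendsto (fun e => ∫ x, G x * Po ν ρ e x) (𝓝[>] 0) (𝓝 (π * ∫ l, G l * ρ l ∂ν)) := by
  have hs : HasCompactSupport G := HasCompactSupport.intro isCompact_Icc g0
  have hi : Integrable G := hG.integrable_of_hasCompactSupport hs
  obtain ⟨C, hC⟩ := hG.bounded_above_of_compact_support hs
  have hb : ∀ e l y : ℝ, ‖G (l + e * y) * (1 + y ^ 2)⁻¹‖ ≤ C * (1 + y ^ 2)⁻¹ := fun e l y => by
    have : 0 ≤ (1 + y ^ 2)⁻¹ := by positivity
    rw [norm_mul, Real.norm_of_nonneg this]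
    exact mul_le_mul_of_nonneg_right (hC _) this
  have hc : Continuous fun y : ℝ => (1 + y ^ 2)⁻¹ :=
    Continuous.inv₀ (by fun_prop) fun y => by positivity
  have h1 : ∀ l, Tendsto (fun e => ∫ y, G (l + e * y) * (1 + y ^ 2)⁻¹) (𝓝[>] 0)
      (𝓝 (G l * π)) := fun l => by
    rw [← integral_univ_inv_one_add_sq, ← integral_const_mul]
    refine tendsto_integral_filter_of_dominated_convergence (fun y => C * (1 + y ^ 2)⁻¹)
      (Eventually.of_forall fun e => Continuous.aestronglyMeasurable (by fun_prop))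
      (Eventually.of_forall fun e => Eventually.of_forall (hb e l))
      (integrable_inv_one_add_sq.const_mul C) (Eventually.of_forall fun y => ?_)
    have : Continuous fun e : ℝ => G (l + e * y) * (1 + y ^ 2)⁻¹ := by fun_prop
    simpa using (this.tendsto 0).mono_left nhdsWithin_le_nhds
  have h2 : ∀ e, 0 < e → ∀ l, ∫ x, G x * (ρ l * (e / ((x - l) ^ 2 + e ^ 2))) =
      ρ l * ∫ y, G (l + e * y) * (1 + y ^ 2)⁻¹ := fun e he l => by
    rw [← xp_cov G he, ← integral_const_mul]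
    exact integral_congr_ae (Eventually.of_forall fun x => mul_left_comm _ _ _)
  have h3 : Tendsto (fun e => ∫ l, ρ l * (∫ y, G (l + e * y) * (1 + y ^ 2)⁻¹) ∂ν) (𝓝[>] 0)
      (𝓝 (∫ l, ρ l * (G l * π) ∂ν)) := by
    refine tendsto_integral_filter_of_dominated_convergence (fun l => ‖ρ l‖ * (C * π))
      (eventually_mem_nhdsWithin.mono fun e he => ?_)
      (Eventually.of_forall fun e => Eventually.of_forall fun l => ?_)
      (hρ.norm.mul_const _) (Eventually.of_forall fun l => (h1 l).const_mul _)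
    · exact ((xp_int hi hρ he).integral_prod_right.congr
        (Eventually.of_forall fun l => h2 e he l)).aestronglyMeasurable
    · rw [norm_mul]
      refine mul_le_mul_of_nonneg_left ?_ (norm_nonneg _)
      rw [← integral_univ_inv_one_add_sq, ← integral_const_mul]
      exact norm_integral_le_of_norm_le (integrable_inv_one_add_sq.const_mul C)
        (Eventually.of_forall (hb e l))
  have h4 : ∫ l, ρ l * (G l * π) ∂ν = π * ∫ l, G l * ρ l ∂ν := by
    rw [← integral_const_mul]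
    exact integral_congr_ae (Eventually.of_forall fun l => by ring)
  rw [← h4]
  refine h3.congr' (eventually_mem_nhdsWithin.mono fun e he => ?_)
  simp only [← h2 e he, Po, ← integral_const_mul]
  exact (integral_integral_swap (xp_int hi hρ he)).symm

theorem poisson {ν₁ ν₂ : Measure ℝ} [IsFiniteMeasure ν₁] [IsFiniteMeasure ν₂] {α β K : ℝ}
    {g φ p ρ : ℝ → ℝ} (hg : Continuous g) (hφ : Continuous φ) (hp : Continuous p)
    (hρ : Continuous ρ) (g0 : ∀ x, x ∉ Icc α β → g x = 0) (s1 : ∀ᵐ l ∂ν₁, |l| ≤ K)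
    (s2 : ∀ᵐ l ∂ν₂, |l| ≤ K ∧ 0 ≤ ρ l)
    (h : ∀ d > 0, ∃ e0 > 0, ∀ e, 0 < e → e ≤ e0 → ∀ x ∈ Icc α β,
      |Po ν₁ ρ e x - φ x * Po ν₂ ρ e x - p x| ≤ d * (1 + Po ν₂ ρ e x)) :
    π * ∫ l, g l * ρ l ∂ν₁ = π * ∫ l, g l * φ l * ρ l ∂ν₂ + ∫ x, g x * p x := by
  have r1 := xp_rho s1 hρ
  have r2 := xp_rho (s2.mono fun l hl => hl.1) hρ
  have hi : ∀ G : ℝ → ℝ, Continuous G → (∀ x, x ∉ Icc α β → G x = 0) → Integrable G :=
    fun G hG h0 => hG.integrable_of_hasCompactSupport (HasCompactSupport.intro isCompact_Icc h0)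
  have g1 : ∀ x, x ∉ Icc α β → g x * φ x = 0 := fun x hx => by rw [g0 x hx, zero_mul]
  have g2 : ∀ x, x ∉ Icc α β → |g x| = 0 := fun x hx => by rw [g0 x hx, abs_zero]
  have g3 : ∀ x, x ∉ Icc α β → g x * p x = 0 := fun x hx => by rw [g0 x hx, zero_mul]
  have l1 := xp_lim hg g0 r1
  have l2 := xp_lim (hg.mul hφ) g1 r2
  have l3 := xp_lim hg.abs g2 r2
  have key : ∀ d > 0, |π * ∫ l, g l * ρ l ∂ν₁ - π * ∫ l, g l * φ l * ρ l ∂ν₂ - ∫ x, g x * p x| ≤
      d * ((∫ x, |g x|) + π * ∫ l, |g l| * ρ l ∂ν₂) := by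
    intro d hd
    obtain ⟨e0, he0, h0⟩ := h d hd
    refine le_of_tendsto_of_tendsto ((l1.sub l2).sub_const _).abs
      ((l3.const_add _).const_mul d) ?_
    filter_upwards [Ioc_mem_nhdsGT he0] with e he
    have i1 := xp_int' (hi g hg g0) r1 he.1
    have i2 := xp_int' (hi _ (hg.mul hφ) g1) r2 he.1
    have i3 := xp_int' (hi _ hg.abs g2) r2 he.1
    have i4 := (hi _ hg.abs g2).add i3
    have e1 := integral_sub (i1.sub i2) (hi _ (hg.mul hp) g3)
    have e2 := integral_add (hi _ hg.abs g2) i3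
    have e3 := integral_sub i1 i2
    simp only [Pi.sub_apply, Pi.mul_apply] at e1 e2 e3 ⊢
    rw [← e3, ← e1, ← e2, ← integral_const_mul, ← Real.norm_eq_abs]
    refine norm_integral_le_of_norm_le (i4.const_mul d) (Eventually.of_forall fun x => ?_)
    by_cases hx : x ∈ Icc α β
    · have a1 := mul_le_mul_of_nonneg_left (h0 e he.1 he.2 x hx) (abs_nonneg (g x))
      rw [← abs_mul] at a1
      rw [Real.norm_eq_abs]
      calc _ = |g x * (Po ν₁ ρ e x - φ x * Po ν₂ ρ e x - p x)| := congrArg abs (by ring)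
        _ ≤ _ := a1
        _ = _ := by ring
    · simp [g0 x hx]
  have h1 : Tendsto (fun d : ℝ => d * ((∫ x, |g x|) + π * ∫ l, |g l| * ρ l ∂ν₂)) (𝓝[>] 0)
      (𝓝 0) := by
    have : Continuous fun d : ℝ => d * ((∫ x, |g x|) + π * ∫ l, |g l| * ρ l ∂ν₂) := by fun_prop
    simpa using (this.tendsto 0).mono_left nhdsWithin_le_nhds
  have h2 := ge_of_tendsto h1 (eventually_mem_nhdsWithin.mono key)
  linarith [abs_nonpos_iff.1 h2]

theorem po_im {ν : Measure ℝ} [IsFiniteMeasure ν] {K : ℝ} (s : ∀ᵐ l ∂ν, |l| ≤ K) {ρ : ℝ → ℝ}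
    (hρ : Continuous ρ) {z : ℂ} (hz : 0 < z.im) :
    (∫ l, (ρ l : ℂ) / (z - l) ∂ν).im = -Po ν ρ z.im z.re := by
  have h0 : ∀ l : ℝ, z.im ≤ ‖z - l‖ := fun l => by
    simpa using (le_abs_self _).trans (Complex.abs_im_le_norm (z - l))
  have h1 : Integrable (fun l : ℝ => (ρ l : ℂ) / (z - l)) ν := by
    refine ((xp_rho s hρ).norm.div_const z.im).mono' (Continuous.aestronglyMeasurable
      (Continuous.div (by fun_prop) (by fun_prop) fun l => norm_pos_iff.1 (hz.trans_le (h0 l))))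
      (Eventually.of_forall fun l => ?_)
    rw [norm_div, Complex.norm_real]
    exact div_le_div_of_nonneg_left (norm_nonneg _) hz (h0 l)
  have h2 := integral_im h1
  simp only [RCLike.im_to_complex] at h2
  rw [← h2, Po, ← integral_neg]
  refine integral_congr_ae (Eventually.of_forall fun l => ?_)
  simp only [Complex.div_im, Complex.ofReal_re, Complex.ofReal_im, Complex.sub_re, Complex.sub_im,
    Complex.normSq_apply]
  ring

end Pool.Agent.Lib.MP_263241_an
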