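import Pool.Agent.Lib.MP_263241_an.XL
import Pool.Agent.Lib.MP_263241_an.XP

/-! The covariance of a slice is a Lipschitz function of the state. -/

namespace Pool.Agent.Lib.MP_263241_an

open MeasureTheory Set

section aux

open Filter Topology
open scoped ComplexConjugate

theorem xm_int {E : Type*} [NormedAddCommGroup E] {ν : Measure ℝ} [IsFiniteMeasure ν] {a b : ℝ}
    (hs : ∀ᵐ l ∂ν, l ∈ Icc a b) {f : ℝ → E} (hf : ContinuousOn f (Icc a b)) : Integrable f ν := by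
  rw [← Measure.restrict_eq_self_of_ae_mem hs]
  exact hf.integrableOn_compact isCompact_Icc

theorem xm_ne {p : ℂ} (hp : p.im ≠ 0) (l : ℝ) : p - l ≠ 0 := fun h => hp (by
  simpa using congrArg Complex.im h)

theorem xm_ne' {b c : ℝ} {p : ℂ} (hc : 0 < c) (hp : Gd b c p) :
    ∀ l ∈ Icc (1 / 4 : ℝ) b, p - l ≠ 0 := fun l hl => norm_pos_iff.1 (hc.trans_le (hp.far l hl))

/-- The weighted integral of `|p - l|⁻²`. -/
noncomputable def xm_D (ν : Measure ℝ) (p : ℂ) : ℝ := ∫ l, l / ‖p - l‖ ^ 2 ∂ν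

variable {ν : Measure ℝ} [IsFiniteMeasure ν] {a b c : ℝ} {p q : ℂ}

theorem xm_intD (hs : ∀ᵐ l ∂ν, l ∈ Icc a b) (hp : ∀ l ∈ Icc a b, p - l ≠ 0) :
    Integrable (fun l : ℝ => l / ‖p - l‖ ^ 2) ν :=
  xm_int hs (continuousOn_id.div (by fun_prop) fun l hl => pow_ne_zero 2 (norm_ne_zero_iff.2 (hp l hl)))

theorem xm_im (hs : ∀ᵐ l ∂ν, l ∈ Icc a b) (hp : ∀ l ∈ Icc a b, p - l ≠ 0) :
    (∫ l : ℝ, (l : ℂ) / (p - l) ∂ν).im = -p.im * xm_D ν p := by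
  have hi : Integrable (fun l : ℝ => (l : ℂ) / (p - l)) ν :=
    xm_int hs (ContinuousOn.div (by fun_prop) (by fun_prop) hp)
  have := Complex.imCLM.integral_comp_comm hi
  simp only [Complex.imCLM_apply] at this
  rw [← this, xm_D, ← integral_const_mul]
  refine integral_congr_ae (Eventually.of_forall fun l => ?_)
  simp only [Complex.div_im, Complex.normSq_eq_norm_sq, Complex.ofReal_im, Complex.ofReal_re,
    Complex.sub_im, Complex.sub_re]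
  ring

omit [IsFiniteMeasure ν] in
theorem xm_nn (hs : ∀ᵐ l ∂ν, l ∈ Icc a b) (ha : 0 ≤ a) (p : ℂ) : 0 ≤ xm_D ν p :=
  integral_nonneg_of_ae (hs.mono fun _ hl => div_nonneg (ha.trans hl.1) (sq_nonneg _))

theorem xm_tri (hb : b ≤ 1) {l : ℝ} (hl : l ∈ Icc (1 / 4 : ℝ) b) (p : ℂ) : ‖p - l‖ ≤ ‖p‖ + 1 := by
  refine (norm_sub_le _ _).trans (add_le_add le_rfl ?_)
  rw [Complex.norm_real, Real.norm_of_nonneg (by linarith [hl.1])]
  exact hl.2.trans hb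

theorem xm_lo (hs : ∀ᵐ l ∂ν, l ∈ Icc (1 / 4 : ℝ) b) (hb : b ≤ 1)
    (hp : ∀ l ∈ Icc (1 / 4 : ℝ) b, p - l ≠ 0) {R : ℝ} (hR : ‖p‖ ≤ R) :
    ν.real univ * (1 / 4 / (R + 1) ^ 2) ≤ xm_D ν p := by
  have := integral_mono_ae (integrable_const (1 / 4 / (R + 1) ^ 2)) (xm_intD hs hp)
    (hs.mono fun l hl => div_le_div₀ (by linarith [hl.1]) hl.1
      (pow_pos (norm_pos_iff.2 (hp l hl)) 2)
      (pow_le_pow_left₀ (norm_nonneg _) ((xm_tri hb hl p).trans (by linarith)) 2))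
  simpa [xm_D] using this

theorem xm_up (hs : ∀ᵐ l ∂ν, l ∈ Icc (1 / 4 : ℝ) b) (hb : b ≤ 1) (hc : 0 < c) (hp : Gd b c p) :
    xm_D ν p ≤ ν.real univ * (1 / c ^ 2) := by
  have := integral_mono_ae (xm_intD hs (xm_ne' hc hp)) (integrable_const (1 / c ^ 2))
    (hs.mono fun l hl => div_le_div₀ zero_le_one (hl.2.trans hb) (by positivity)
      (pow_le_pow_left₀ hc.le (hp.far l hl) 2))
  simpa [xm_D] using this

theorem xm_diff (hs : ∀ᵐ l ∂ν, l ∈ Icc (1 / 4 : ℝ) b) (hb : b ≤ 1) (hc : 0 < c) (hp : Gd b c p)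
    (hq : Gd b c q) {δ : ℝ} (h : ∀ l ∈ Icc (1 / 4 : ℝ) b, |‖p - l‖ ^ 2 - ‖q - l‖ ^ 2| ≤ δ) :
    |xm_D ν p - xm_D ν q| ≤ ν.real univ * (δ / c ^ 4) := by
  rw [xm_D, xm_D, ← integral_sub (xm_intD hs (xm_ne' hc hp)) (xm_intD hs (xm_ne' hc hq)),
    mul_comm, ← Real.norm_eq_abs]
  refine norm_integral_le_of_norm_le_const (hs.mono fun l hl => ?_)
  have h1 := hp.far l hl
  have h2 := hq.far l hl
  have h3 : 0 < ‖p - l‖ := hc.trans_le h1
  have h4 : 0 < ‖q - l‖ := hc.trans_le h2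
  have e : l / ‖p - l‖ ^ 2 - l / ‖q - l‖ ^ 2
      = l * -(‖p - l‖ ^ 2 - ‖q - l‖ ^ 2) / (‖p - l‖ ^ 2 * ‖q - l‖ ^ 2) := by field_simp; ring
  rw [e, Real.norm_eq_abs, abs_div, abs_mul, abs_neg, abs_of_nonneg (by linarith [hl.1] : 0 ≤ l),
    abs_of_pos (by positivity : 0 < ‖p - l‖ ^ 2 * ‖q - l‖ ^ 2)]
  refine div_le_div₀ ((abs_nonneg _).trans (h l hl))
    ((mul_le_of_le_one_left (abs_nonneg _) (hl.2.trans hb)).trans (h l hl)) (by positivity) ?_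
  calc c ^ 4 = c ^ 2 * c ^ 2 := by ring
    _ ≤ _ := by gcongr

theorem xm_sq (hb : b ≤ 1) (hp : Gd b c p) (hq : Gd b c q) {l : ℝ} (hl : l ∈ Icc (1 / 4 : ℝ) b) :
    |‖p - l‖ ^ 2 - ‖q - l‖ ^ 2| ≤ 28 * ‖p - q‖ := by
  have h1 := abs_norm_sub_norm_le (p - l) (q - l)
  rw [sub_sub_sub_cancel_right] at h1
  rw [sq_sub_sq, abs_mul, abs_of_nonneg (by positivity)]
  exact mul_le_mul (by linarith [xm_tri hb hl p, xm_tri hb hl q, hp.up, hq.up]) h1 (abs_nonneg _)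
    (by norm_num)

theorem xm_sq' (hb : b ≤ 1) (hp : Gd b c p) (hq : Gd b c q) {l t : ℝ}
    (hl : l ∈ Icc (1 / 4 : ℝ) b) (h1 : |p.re - q.re| ≤ t) (h2 : ‖p - q‖ * ‖p - conj q‖ ≤ t) :
    |‖p - l‖ ^ 2 - ‖q - l‖ ^ 2| ≤ 29 * t := by
  have e : ‖p - l‖ ^ 2 - ‖q - l‖ ^ 2 = ((p - l).re + (q - l).re) * (p.re - q.re)
      + (p - q).im * (p - conj q).im := by
    simp only [Complex.sq_norm, Complex.normSq_apply, Complex.sub_re, Complex.sub_im,
      Complex.ofReal_re, Complex.ofReal_im, Complex.conj_im]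
    ring
  have a1 : |(p - l).re + (q - l).re| ≤ 28 := by
    linarith [abs_add_le (p - l).re (q - l).re, Complex.abs_re_le_norm (p - l),
      Complex.abs_re_le_norm (q - l), xm_tri hb hl p, xm_tri hb hl q, hp.up, hq.up]
  have a2 : |((p - l).re + (q - l).re) * (p.re - q.re)| ≤ 28 * t := by
    rw [abs_mul]
    exact mul_le_mul a1 h1 (abs_nonneg _) (by norm_num)
  have a3 : |(p - q).im * (p - conj q).im| ≤ t := by
    rw [abs_mul]
    exact (mul_le_mul (Complex.abs_im_le_norm _) (Complex.abs_im_le_norm _) (abs_nonneg _)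
      (norm_nonneg _)).trans h2
  rw [e]
  linarith [abs_add_le (((p - l).re + (q - l).re) * (p.re - q.re)) ((p - q).im * (p - conj q).im)]

/-- The normalised density as a function of the subordination point. -/
noncomputable def xm_F (μ μq : Measure ℝ) (p : ℂ) : ℝ := xm_D μq p / μq.real univ / xm_D μ p

theorem xm_quot {x y u v m A d : ℝ} (hm : 0 < m) (hu : m ≤ u) (hv : m ≤ v) (hy0 : 0 ≤ y)
    (hy : y ≤ A) (h1 : |x - y| ≤ d) (h2 : |u - v| ≤ d) :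
    |x / u - y / v| ≤ (1 / m + A / m ^ 2) * d := by
  have hu0 : 0 < u := hm.trans_le hu
  have hv0 : 0 < v := hm.trans_le hv
  have hd : 0 ≤ d := (abs_nonneg _).trans h1
  have e : x / u - y / v = (x - y) / u + y * -(u - v) / (u * v) := by field_simp; ring
  have a1 : |(x - y) / u| ≤ d / m := by
    rw [abs_div, abs_of_pos hu0]
    exact div_le_div₀ hd h1 hm hu
  have a2 : |y * -(u - v) / (u * v)| ≤ A * d / m ^ 2 := by
    rw [abs_div, abs_mul, abs_neg, abs_of_nonneg hy0, abs_of_pos (mul_pos hu0 hv0), sq]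
    exact div_le_div₀ (mul_nonneg (hy0.trans hy) hd) (mul_le_mul hy h2 (abs_nonneg _) (hy0.trans hy))
      (by positivity) (mul_le_mul hu hv hm.le hu0.le)
  calc _ ≤ d / m + A * d / m ^ 2 := by rw [e]; exact (abs_add_le _ _).trans (add_le_add a1 a2)
    _ = _ := by ring

theorem xm_Fbd {M : ℝ} (hc : 0 < c) (hM : 0 < M) : ∃ c₁ C K : ℝ, 0 < c₁ ∧ 0 ≤ K ∧ c₁ ≤ C ∧
    ∀ (μ μq : Measure ℝ) (b : ℝ), MuOK μ b M → IsFiniteMeasure μq →
      (∀ᵐ l ∂μq, l ∈ Icc (1 / 4 : ℝ) b) → 0 < μq.real univ → ∀ p, Gd b c p →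
      0 < xm_D μ p ∧ c₁ ≤ xm_F μ μq p ∧ xm_F μ μq p ≤ C ∧ ∀ q δ, Gd b c q →
        (∀ l ∈ Icc (1 / 4 : ℝ) b, |‖p - l‖ ^ 2 - ‖q - l‖ ^ 2| ≤ δ) → 0 ≤ δ →
        |xm_F μ μq p - xm_F μ μq q| ≤ K * δ := by
  obtain ⟨a, ha⟩ : ∃ a : ℝ, a = 1 / 4 / (13 + 1) ^ 2 := ⟨_, rfl⟩
  have ha0 : 0 < a := by rw [ha]; norm_num
  refine ⟨a / (1 / c ^ 2), max (a / (1 / c ^ 2)) (1 / c ^ 2 / (M * a)),
    (1 / (M * a) + 1 / c ^ 2 / (M * a) ^ 2) / c ^ 4, by positivity, by positivity, le_max_left _ _,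
    fun μ μq b h hf hs hm => ?_⟩
  have := h.fin
  have b1 : ∀ p, Gd b c p → M * a ≤ xm_D μ p ∧ xm_D μ p ≤ 1 / c ^ 2 ∧
      a ≤ xm_D μq p / μq.real univ ∧ xm_D μq p / μq.real univ ≤ 1 / c ^ 2 := fun p hp => by
    refine ⟨?_, ?_, ?_, ?_⟩
    · exact (mul_le_mul_of_nonneg_right h.lo ha0.le).trans
        (ha ▸ xm_lo h.supp h.b1 (xm_ne' hc hp) hp.up)
    · exact (xm_up h.supp h.b1 hc hp).trans (mul_le_of_le_one_left (by positivity) h.up)
    · rw [le_div_iff₀' hm, ha]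
      exact xm_lo hs h.b1 (xm_ne' hc hp) hp.up
    · rw [div_le_iff₀' hm]
      exact xm_up hs h.b1 hc hp
  intro p hp
  obtain ⟨p1, p2, p3, p4⟩ := b1 p hp
  have hMa : 0 < M * a := by positivity
  refine ⟨hMa.trans_le p1, div_le_div₀ (ha0.le.trans p3) p3 (hMa.trans_le p1) p2,
    le_max_of_le_right (div_le_div₀ (by positivity) p4 hMa p1), fun q δ hq hδ hδ0 => ?_⟩
  obtain ⟨q1, -, q3, q4⟩ := b1 q hq
  have := xm_quot (d := δ / c ^ 4) (x := xm_D μq p / μq.real univ) hMa p1 q1 (ha0.le.trans q3) q4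
    (by
      rw [← sub_div, abs_div, abs_of_pos hm, div_le_iff₀' hm]
      exact xm_diff hs h.b1 hc hp hq hδ)
    ((xm_diff h.supp h.b1 hc hp hq hδ).trans (mul_le_of_le_one_left (by positivity) h.up))
  exact this.trans_eq (by ring)

/-- The defect in the Cauchy-Schwarz type inequality. -/
noncomputable def xm_chi (μ : Measure ℝ) (p : ℂ) : ℝ := ‖G1 μ p‖ ^ 2 - μ.real univ * GI μ p

theorem xm_chi_lip {μ : Measure ℝ} {M : ℝ} (h : MuOK μ b M) (hc : 0 < c) (hp : Gd b c p)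
    (hq : Gd b c q) : |xm_chi μ p - xm_chi μ q| ≤ 24 / c ^ 3 * ‖p - q‖ := by
  have a1 := (abs_norm_sub_norm_le (G1 μ p) (G1 μ q)).trans (g1_lip h hc hp hq)
  have a2 : |‖G1 μ p‖ ^ 2 - ‖G1 μ q‖ ^ 2| ≤ (3 / c + 3 / c) * (3 / c ^ 2 * ‖p - q‖) := by
    rw [sq_sub_sq, abs_mul, abs_of_nonneg (by positivity)]
    exact mul_le_mul (add_le_add (gi_bd h hc hp).2.2 (gi_bd h hc hq).2.2) a1 (abs_nonneg _)
      (by positivity)
  have a3 : |μ.real univ * (GI μ p - GI μ q)| ≤ 6 / c ^ 3 * ‖p - q‖ := by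
    rw [abs_mul, abs_of_nonneg measureReal_nonneg]
    exact (mul_le_of_le_one_left (abs_nonneg _) h.up).trans (gi_lip h hc hp hq)
  have e : xm_chi μ p - xm_chi μ q
      = (‖G1 μ p‖ ^ 2 - ‖G1 μ q‖ ^ 2) - μ.real univ * (GI μ p - GI μ q) := by
    unfold xm_chi; ring
  calc _ ≤ (3 / c + 3 / c) * (3 / c ^ 2 * ‖p - q‖) + 6 / c ^ 3 * ‖p - q‖ := by
        rw [e]; exact (abs_sub _ _).trans (add_le_add a2 a3)
    _ = _ := by field_simp; ring

/-- Consequences of the subordination equations at one point. -/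
theorem xm_sub {μ : Measure ℝ} {M : ℝ} (h : MuOK μ b M) (hM : 0 < M) {z ω ψ : ℂ} (hz : 0 < z.im)
    (hω : ω.im ≠ 0) (e1 : z * (2 + (μ.real univ : ℝ) + ψ) = ω * (2 + ψ)) (e2 : ψ.im ≤ 0)
    (e3 : ψ = ∫ l : ℝ, (l : ℂ) / (ω - l) ∂μ) :
    0 < ω.im ∧ (ω - z) * G1 μ ω = (μ.real univ : ℝ) ∧ z.im * ‖G1 μ ω‖ ^ 2 = ω.im * xm_chi μ ω ∧
      0 ≤ xm_chi μ ω ∧ ‖z‖ ≤ 2 * ‖ω‖ ∧ ‖ω‖ ≤ 4 * ‖z‖ := by
  have := h.fin
  have hm : 0 < μ.real univ := hM.trans_le h.lo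
  have hne : ∀ l ∈ Icc (1 / 4 : ℝ) b, ω - l ≠ 0 := fun l _ => xm_ne hω l
  have hω0 : ω ≠ 0 := by simpa using xm_ne hω 0
  have h1 : 0 < ω.im := by
    have a1 := xm_lo h.supp h.b1 hne le_rfl
    have a2 : 0 < xm_D μ ω := lt_of_lt_of_le (by positivity) a1
    rw [e3, xm_im h.supp hne, neg_mul, neg_nonpos] at e2
    exact lt_of_le_of_ne (nonneg_of_mul_nonneg_left e2 a2) hω.symm
  have i1 : Integrable (fun l : ℝ => (ω - l)⁻¹) μ :=
    xm_int h.supp (ContinuousOn.inv₀ (by fun_prop) hne)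
  have h2 : ω * G1 μ ω = 2 + (μ.real univ : ℝ) + ψ := by
    have a1 : ψ = ω * ∫ l : ℝ, (ω - l)⁻¹ ∂μ - (μ.real univ : ℝ) := by
      have a2 : ((μ.real univ : ℝ) : ℂ) = ∫ _ : ℝ, (1 : ℂ) ∂μ := by simp
      rw [e3, a2, ← integral_const_mul, ← integral_sub (i1.const_mul ω) (integrable_const _)]
      refine integral_congr_ae (Eventually.of_forall fun l => ?_)
      have := xm_ne hω l
      simp only
      field_simp
      ring
    rw [G1, int_mt h i1, a1]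
    simp only [Complex.ofReal_zero, sub_zero, Complex.real_smul, Complex.ofReal_ofNat]
    field_simp
    ring
  have h3 : (ω - z) * G1 μ ω = (μ.real univ : ℝ) :=
    mul_left_cancel₀ hω0 (by linear_combination (ω - z) * h2 - e1)
  have h4 : z.im * ‖G1 μ ω‖ ^ 2 = ω.im * xm_chi μ ω := by
    have a1 := congrArg Complex.im h3
    have a2 := congrArg Complex.re h3
    have a3 := g1_im h hω
    simp only [Complex.mul_im, Complex.mul_re, Complex.sub_re, Complex.sub_im, Complex.ofReal_re,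
      Complex.ofReal_im] at a1 a2
    rw [xm_chi, Complex.sq_norm, Complex.normSq_apply]
    linear_combination (-(G1 μ ω).re) * a1 + (G1 μ ω).im * a2 + μ.real univ * a3
  have h5 : 0 ≤ xm_chi μ ω := nonneg_of_mul_nonneg_right (h4 ▸ by positivity) h1
  have h6 : ‖ω - z‖ * ‖G1 μ ω‖ = μ.real univ := by
    rw [← norm_mul, h3, Complex.norm_real, Real.norm_of_nonneg hm.le]
  have h7 : 2 * (‖ω‖ ^ 2)⁻¹ ≤ GI μ ω := by
    have i2 : Integrable (fun l : ℝ => (‖ω - l‖ ^ 2)⁻¹) μ := xm_int h.supp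
      (ContinuousOn.inv₀ (by fun_prop) fun l hl => pow_ne_zero 2 (norm_ne_zero_iff.2 (hne l hl)))
    rw [GI, int_mt h i2]
    have : 0 ≤ ∫ l : ℝ, (‖ω - l‖ ^ 2)⁻¹ ∂μ := integral_nonneg fun l => by positivity
    simpa using this
  have hn : 0 < ‖ω‖ := norm_pos_iff.2 hω0
  have h8 : ‖ω - z‖ ≤ 3 / 4 * ‖ω‖ := by
    have a1 : μ.real univ * (2 * (‖ω‖ ^ 2)⁻¹) ≤ ‖G1 μ ω‖ ^ 2 :=
      (mul_le_mul_of_nonneg_left h7 hm.le).trans (sub_nonneg.1 h5)
    have a2 := mul_le_mul_of_nonneg_left a1 (sq_nonneg ‖ω - z‖)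
    rw [← mul_pow, h6] at a2
    have a3 : μ.real univ * (‖ω - z‖ ^ 2 * (2 * (‖ω‖ ^ 2)⁻¹)) ≤ μ.real univ * 1 := by
      nlinarith [h.up]
    have a4 := le_of_mul_le_mul_left a3 hm
    rw [← mul_assoc, mul_inv_le_iff₀ (by positivity)] at a4
    refine abs_le_of_sq_le_sq' ?_ (by positivity) |>.2
    nlinarith [sq_nonneg ‖ω‖]
  have h9 := abs_le.1 (abs_norm_sub_norm_le ω z)
  exact ⟨h1, h3, h4, h5, by linarith, by linarith⟩

theorem xm_cube {k t d : ℝ} (hk : 0 < k) (hd : 0 ≤ d) (h : k * t ^ 3 ≤ k * d ^ 3) : t ≤ d :=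
  le_of_pow_le_pow_left₀ (n := 3) (by norm_num) hd (le_of_mul_le_mul_left h hk)

/-- Boundary values of a Hoelder function. -/
theorem xm_ext {α β k : ℝ} (hαβ : α ≤ β) (hk : 0 < k) (w : ℝ → ℝ → ℂ)
    (h : ∀ x ∈ Icc α β, ∀ y ∈ Icc α β, ∀ e ∈ Ioc (0 : ℝ) 1, ∀ e' ∈ Ioc (0 : ℝ) 1,
      k * ‖w e x - w e' y‖ ^ 3 ≤ |x - y| + |e - e'|) :
    ∃ (W : ℝ → ℂ) (π : ℝ → ℝ), Continuous W ∧ (∀ x, π x ∈ Icc α β) ∧ (∀ x ∈ Icc α β, π x = x) ∧
      (∀ x, Tendsto (fun n : ℕ => w (1 / (n + 1)) (π x)) atTop (𝓝 (W x))) ∧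
      ∀ d > 0, ∃ e0 > 0, e0 ≤ 1 ∧ ∀ e, 0 < e → e ≤ e0 → ∀ x ∈ Icc α β, ‖w e x - W x‖ ≤ d := by
  have hn : ∀ n : ℕ, (1 / (n + 1) : ℝ) ∈ Ioc (0 : ℝ) 1 := fun n =>
    ⟨by positivity, (div_le_one (by positivity)).2 (by linarith [n.cast_nonneg (α := ℝ)])⟩
  have h0 : Tendsto (fun n : ℕ => (1 / (n + 1) : ℝ)) atTop (𝓝 0) :=
    tendsto_one_div_add_atTop_nhds_zero_nat
  have hc : ∀ x : Icc α β, ∃ p, Tendsto (fun n : ℕ => w (1 / (n + 1)) x) atTop (𝓝 p) := fun x => by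
    refine cauchySeq_tendsto_of_complete (Metric.cauchySeq_iff.2 fun ε hε => ?_)
    obtain ⟨N, hN⟩ := Metric.cauchySeq_iff.1 h0.cauchySeq (k * (ε / 2) ^ 3) (by positivity)
    refine ⟨N, fun m hm n hn' => ?_⟩
    have a1 := h x x.2 x x.2 _ (hn m) _ (hn n)
    rw [sub_self, abs_zero, zero_add] at a1
    have := xm_cube hk (by positivity) (a1.trans (hN m hm n hn').le)
    rw [dist_eq_norm]
    linarith
  choose W hW using hc
  have h1 : ∀ x y : Icc α β, k * ‖W x - W y‖ ^ 3 ≤ |x.1 - y.1| := fun x y =>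
    le_of_tendsto' ((((hW x).sub (hW y)).norm.pow 3).const_mul k) fun n => by
      simpa using h x x.2 y y.2 _ (hn n) _ (hn n)
  have h2 : ∀ x : Icc α β, ∀ e ∈ Ioc (0 : ℝ) 1, k * ‖w e x - W x‖ ^ 3 ≤ e := fun x e he => by
    have a1 : Tendsto (fun n : ℕ => |x.1 - x.1| + |e - 1 / (n + 1)|) atTop (𝓝 e) := by
      have := ((h0.const_sub e).abs).const_add |x.1 - x.1|
      simpa [abs_of_pos he.1] using this
    exact le_of_tendsto_of_tendsto' ((((hW x).const_sub (w e x)).norm.pow 3).const_mul k) a1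
      fun n => h x x.2 x x.2 _ he _ (hn n)
  have h3 : Continuous W := Metric.continuous_iff.2 fun x ε hε =>
    ⟨k * (ε / 2) ^ 3, by positivity, fun y hy => by
      have := xm_cube hk (by positivity) ((h1 y x).trans hy.le)
      rw [dist_eq_norm]
      linarith⟩
  refine ⟨fun x => W (projIcc α β hαβ x), fun x => projIcc α β hαβ x, h3.comp continuous_projIcc,
    fun x => (projIcc α β hαβ x).2, fun x hx => by simp only [projIcc_of_mem hαβ hx],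
    fun x => hW _, fun d hd => ⟨min 1 (k * d ^ 3), by positivity, min_le_left _ _,
      fun e he he' x hx => ?_⟩⟩
  simp only [projIcc_of_mem hαβ hx]
  exact xm_cube hk hd.le ((h2 ⟨x, hx⟩ e ⟨he, he'.trans (min_le_left _ _)⟩).trans
    (he'.trans (min_le_right _ _)))

theorem xm_gd {u : ℕ → ℂ} (hu : ∀ n, Gd b c (u n)) (h : Tendsto u atTop (𝓝 p)) : Gd b c p :=
  ⟨ge_of_tendsto' h.norm fun n => (hu n).lo, le_of_tendsto' h.norm fun n => (hu n).up,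
    fun l hl => ge_of_tendsto' (h.sub_const (l : ℂ)).norm fun n => (hu n).far l hl⟩

theorem xm_con {E : Type*} [NormedAddCommGroup E] {f : ℂ → E} {K : ℝ}
    (h : ∀ p q, Gd b c p → Gd b c q → ‖f p - f q‖ ≤ K * ‖p - q‖) :
    ContinuousOn f {p | Gd b c p} :=
  (LipschitzOnWith.of_dist_le' (K := K) fun p hp q hq => by
    rw [dist_eq_norm, dist_eq_norm]; exact h p q hp hq).continuousOn

theorem xm_tend {E : Type*} [NormedAddCommGroup E] {f : ℂ → E} (hf : ContinuousOn f {p | Gd b c p})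
    {u : ℕ → ℂ} (hu : ∀ n, Gd b c (u n)) (h : Tendsto u atTop (𝓝 p)) :
    Tendsto (fun n => f (u n)) atTop (𝓝 (f p)) :=
  (hf p (xm_gd hu h)).tendsto.comp (tendsto_nhdsWithin_iff.2 ⟨h, Eventually.of_forall hu⟩)

/-- The Poisson step with the weight removed. -/
theorem xm_po {ν₁ ν₂ : Measure ℝ} [IsFiniteMeasure ν₁] [IsFiniteMeasure ν₂] {c0 : ℝ} (hc : 0 < c0)
    (s1 : ∀ᵐ x ∂ν₁, x ∈ Icc c0 1) (s2 : ∀ᵐ x ∂ν₂, x ∈ Icc c0 1) {φ : ℝ → ℝ} (hφ : Continuous φ)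
    (h : ∀ d > 0, ∃ e0 > 0, ∀ e, 0 < e → e ≤ e0 → ∀ x ∈ Icc (c0 / 2) 2,
      |Po ν₁ (fun l => l) e x - φ x * Po ν₂ (fun l => l) e x| ≤ d * (1 + Po ν₂ (fun l => l) e x))
    {g : ℝ → ℝ} (hg : Continuous g) : ∫ x, g x ∂ν₁ = ∫ x, g x * φ x ∂ν₂ := by
  obtain ⟨κ, hκ⟩ : ∃ κ : ℝ → ℝ,
      κ = fun x => max 0 (min 1 (min (2 * x / c0 - 1) (2 - x))) / max x c0 := ⟨_, rfl⟩
  have k1 : Continuous κ := by
    rw [hκ]
    exact Continuous.div (by fun_prop) (by fun_prop) fun x => (hc.trans_le (le_max_right _ _)).ne'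
  have k2 : ∀ x ∈ Icc c0 1, κ x * x = 1 := fun x hx => by
    have a1 : 1 ≤ 2 * x / c0 - 1 := by
      rw [le_sub_iff_add_le, le_div_iff₀ hc]; linarith [hx.1]
    have a2 : x ≠ 0 := (hc.trans_le hx.1).ne'
    rw [hκ]
    simp only
    rw [min_eq_left (le_min a1 (by linarith [hx.2])), max_eq_right zero_le_one, max_eq_left hx.1]
    field_simp
  have k3 : ∀ x, x ∉ Icc (c0 / 2) 2 → g x * κ x = 0 := fun x hx => by
    have : min 1 (min (2 * x / c0 - 1) (2 - x)) ≤ 0 := by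
      refine (min_le_right _ _).trans (min_le_iff.2 ?_)
      rw [mem_Icc, not_and_or, not_le, not_le] at hx
      refine hx.imp (fun a => ?_) fun a => by linarith
      rw [sub_nonpos, div_le_one hc]; linarith
    rw [hκ]
    simp only
    rw [max_eq_left this, zero_div, mul_zero]
  have ab : ∀ x ∈ Icc c0 1, |x| ≤ 1 := fun x hx => abs_le.2 ⟨by linarith [hx.1], hx.2⟩
  have := poisson (ν₁ := ν₁) (ν₂ := ν₂) (K := 1) (p := fun _ => 0) (ρ := fun l => l) (hg.mul k1) hφ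
    continuous_const continuous_id k3 (s1.mono ab)
    (s2.mono fun x hx => ⟨ab x hx, hc.le.trans hx.1⟩) (by simpa using h)
  simp only [mul_zero, integral_zero, add_zero] at this
  have e := mul_left_cancel₀ Real.pi_ne_zero this
  calc _ = ∫ x, g x * κ x * x ∂ν₁ :=
        integral_congr_ae (s1.mono fun x hx => by simp only; rw [mul_assoc, k2 x hx, mul_one])
    _ = ∫ x, g x * κ x * φ x * x ∂ν₂ := e
    _ = _ := integral_congr_ae (s2.mono fun x hx => by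
        simp only; linear_combination g x * φ x * k2 x hx)

theorem xm_cx {ν₁ ν₂ : Measure ℝ} [IsFiniteMeasure ν₁] [IsFiniteMeasure ν₂]
    (s1 : ∀ᵐ x ∂ν₁, x ∈ Icc a b) (s2 : ∀ᵐ x ∂ν₂, x ∈ Icc a b) {φ : ℝ → ℝ} (hφ : Continuous φ)
    (h : ∀ g : ℝ → ℝ, Continuous g → ∫ x, g x ∂ν₁ = ∫ x, g x * φ x ∂ν₂)
    {g : ℝ → ℂ} (hg : Continuous g) : ∫ x, g x ∂ν₁ = ∫ x, g x * (φ x : ℝ) ∂ν₂ := by
  have i1 : Integrable g ν₁ := xm_int s1 hg.continuousOn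
  have i2 : Integrable (fun x => g x * (φ x : ℝ)) ν₂ := xm_int s2 (by fun_prop)
  apply Complex.ext
  · have a1 := Complex.reCLM.integral_comp_comm i1
    have a2 := Complex.reCLM.integral_comp_comm i2
    simp only [Complex.reCLM_apply, Complex.re_mul_ofReal] at a1 a2
    rw [← a1, ← a2]
    exact h _ (by fun_prop)
  · have a1 := Complex.imCLM.integral_comp_comm i1
    have a2 := Complex.imCLM.integral_comp_comm i2
    simp only [Complex.imCLM_apply, Complex.im_mul_ofReal] at a1 a2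
    rw [← a1, ← a2]
    exact h _ (by fun_prop)

theorem xm_Hf {μ : Measure ℝ} {z : ℂ} (hm : 0 < μ.real univ)
    (h : (p - z) * G1 μ p = (μ.real univ : ℝ)) : Hf μ p = z := by
  have h0 : G1 μ p ≠ 0 := fun e => by
    rw [e, mul_zero] at h
    exact hm.ne (by exact_mod_cast h)
  rw [Hf, ← h, mul_div_cancel_right₀ _ h0, sub_sub_cancel]

theorem xm_conj (hp : 0 ≤ p.im) (hq : 0 ≤ q.im) : ‖p - q‖ ^ 2 ≤ ‖p - conj q‖ ^ 2 := by
  simp only [Complex.sq_norm, Complex.normSq_apply, Complex.sub_re, Complex.sub_im,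
    Complex.conj_re, Complex.conj_im]
  nlinarith [mul_nonneg hp hq]

end aux

theorem slice_cov {c0 η : ℝ} (hc : 0 < c0) (hη : 0 < η) : ∃ c C L : ℝ, 0 < c ∧ 0 ≤ L ∧
    ∀ (μ μq ν νq : Measure ℝ) (b : ℝ), MuOK μ b 0 → IsFiniteMeasure μq → IsFiniteMeasure ν →
    IsFiniteMeasure νq → (∀ᵐ l ∂μq, l ∈ Icc (1 / 4 : ℝ) b) → 0 < μq.real univ →
    (∀ᵐ x ∂ν, x ∈ Icc c0 1) → (∀ᵐ x ∂νq, x ∈ Icc c0 1) → 1 / 4 + η ≤ b →
    (∀ l x, 1 / 4 ≤ l → 0 ≤ x → l + x ≤ b → x * √x / 300 ≤ μ.real (Icc l (l + x))) →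
    (∀ l d, 0 ≤ d → μ.real (Icc (l - d) (l + d)) ≤ 12 * √d) →
    (∀ z : ℂ, 0 < z.im → ∃ ω ψ : ℂ, ω.im ≠ 0 ∧
      z * (2 + (μ.real univ : ℝ) + ψ) = ω * (2 + ψ) ∧ ψ = ∫ x : ℝ, (x : ℂ) / (z - x) ∂ν ∧
      ψ = ∫ l : ℝ, (l : ℂ) / (ω - l) ∂μ ∧
      ∫ x : ℝ, (x : ℂ) / (z - x) ∂νq = ∫ l : ℝ, (l : ℂ) / (ω - l) ∂μq) →
    ∃ Φ : ℝ → ℝ, (∀ s t, |Φ s - Φ t| ≤ L * |s - t|) ∧ (∀ t, c ≤ Φ t ∧ Φ t ≤ C) ∧
      ∀ g : ℝ → ℂ, Continuous g →
        ∫ x, g x ∂νq = (μq.real univ : ℝ) * ∫ x, g x * (Φ x : ℝ) ∂ν := by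
  have hM : 0 < η * √η / 300 := by positivity
  obtain ⟨c', hc', haway⟩ := away (c := c0 / 4) (by positivity) hM hη
  obtain ⟨c, hcd⟩ : ∃ c, c = min (c0 / 4) c' := ⟨_, rfl⟩
  have hc1 : 0 < c := by rw [hcd]; positivity
  obtain ⟨k, hk, hcub⟩ := cubic hc1 hM
  obtain ⟨L, hL, hno⟩ := nocusp hc1 hM
  obtain ⟨c₁, C, K, hc₁, hK, hcC, hF⟩ := xm_Fbd hc1 hM
  refine ⟨c₁, C, K * (29 * L), hc₁, by positivity, ?_⟩
  intro μ μq ν νq b h0 f1 f2 f3 sq hmq sν sνq hb lo up hsub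
  have := h0.fin
  have h : MuOK μ b (η * √η / 300) := ⟨h0.fin, h0.supp, h0.b1,
    (lo _ η le_rfl hη.le hb).trans (measureReal_mono (subset_univ _)), h0.up⟩
  have hm : 0 < μ.real univ := hM.trans_le h.lo
  replace hF := hF μ μq b h f1 sq hmq
  rcases lt_or_ge 2 (c0 / 2) with hI | hI
  · have z : ∀ ρ : Measure ℝ, (∀ᵐ x ∂ρ, x ∈ Icc c0 1) → ρ = 0 := fun ρ hρ =>
      ae_eq_bot.1 (Filter.eventually_false_iff_eq_bot.1
        (hρ.mono fun x hx => by linarith [hx.1, hx.2]))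
    refine ⟨fun _ => c₁, fun s t => ?_, fun _ => ⟨le_rfl, hcC⟩, fun g _ => ?_⟩
    · rw [sub_self, abs_zero]; positivity
    · rw [z ν sν, z νq sνq]; simp
  choose! om ps o1 o2 o3 o4 o5 using hsub
  have ab : ∀ x ∈ Icc c0 1, |x| ≤ 1 := fun x hx => abs_le.2 ⟨by linarith [hx.1], hx.2⟩
  have key : ∀ x ∈ Icc (c0 / 2) 2, ∀ e ∈ Ioc (0 : ℝ) 1, 0 < (om ⟨x, e⟩).im ∧
      (om ⟨x, e⟩ - ⟨x, e⟩) * G1 μ (om ⟨x, e⟩) = (μ.real univ : ℝ) ∧
      e * ‖G1 μ (om ⟨x, e⟩)‖ ^ 2 = (om ⟨x, e⟩).im * xm_chi μ (om ⟨x, e⟩) ∧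
      0 ≤ xm_chi μ (om ⟨x, e⟩) ∧ Gd b c (om ⟨x, e⟩) ∧
      Po ν (fun l => l) e x = (om ⟨x, e⟩).im * xm_D μ (om ⟨x, e⟩) ∧
      Po νq (fun l => l) e x = (om ⟨x, e⟩).im * xm_D μq (om ⟨x, e⟩) := by
    intro x hx e he
    have hz : 0 < (⟨x, e⟩ : ℂ).im := he.1
    have a1 : (ps ⟨x, e⟩).im ≤ 0 := by
      rw [o3 _ hz, xm_im sν fun l _ => xm_ne hz.ne' l, neg_mul, neg_nonpos]
      exact mul_nonneg hz.le (xm_nn sν hc.le _)
    obtain ⟨b1, b2, b3, b4, b5, b6⟩ := xm_sub h hM hz (o1 _ hz) (o2 _ hz) a1 (o4 _ hz)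
    have n1 : x ≤ ‖(⟨x, e⟩ : ℂ)‖ := Complex.re_le_norm ⟨x, e⟩
    have n2 : ‖(⟨x, e⟩ : ℂ)‖ ≤ |x| + |e| := Complex.norm_le_abs_re_add_abs_im ⟨x, e⟩
    rw [abs_of_nonneg (by linarith [hx.1]), abs_of_pos he.1] at n2
    have n3 : c0 / 4 ≤ ‖om ⟨x, e⟩‖ := by linarith [hx.1]
    refine ⟨b1, b2, b3, b4, ⟨hcd ▸ (min_le_left _ _).trans n3, by linarith [hx.2, he.2],
      fun l hl => hcd ▸ (min_le_right _ _).trans
        (haway μ b _ h hb lo up n3 b1.ne' (sub_nonneg.1 b4) l hl)⟩, ?_, ?_⟩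
    · have a2 := po_im (ρ := fun l => l) (sν.mono ab) continuous_id hz
      rw [← o3 _ hz, o4 _ hz, xm_im h.supp fun l _ => xm_ne b1.ne' l, neg_mul, neg_inj] at a2
      exact a2.symm
    · have a2 := po_im (ρ := fun l => l) (sνq.mono ab) continuous_id hz
      rw [o5 _ hz, xm_im sq fun l _ => xm_ne b1.ne' l, neg_mul, neg_inj] at a2
      exact a2.symm
  obtain ⟨W, π, hW, hπ, hπ', hlim, hnear⟩ := xm_ext hI hk (fun e x => om ⟨x, e⟩) (by
    intro x hx y hy e he e' he'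
    obtain ⟨a1, a2, -, a4, a5, -⟩ := key x hx e he
    obtain ⟨b1, b2, -, b4, b5, -⟩ := key y hy e' he'
    have := hcub μ b _ _ h a5 b5 (sub_nonneg.1 a4) (sub_nonneg.1 b4)
    rw [xm_Hf hm a2, xm_Hf hm b2] at this
    refine le_trans (mul_le_mul_of_nonneg_left ?_ hk.le)
      (this.trans (Complex.norm_le_abs_re_add_abs_im _))
    rw [pow_succ']
    exact mul_le_mul_of_nonneg_left (xm_conj a1.le b1.le) (norm_nonneg _))
  have hn : ∀ n : ℕ, (1 / (n + 1) : ℝ) ∈ Ioc (0 : ℝ) 1 := fun n =>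
    ⟨by positivity, (div_le_one (by positivity)).2 (by linarith [n.cast_nonneg (α := ℝ)])⟩
  have hg : ∀ x (n : ℕ), Gd b c (om ⟨π x, 1 / (n + 1)⟩) := fun x n =>
    (key _ (hπ x) _ (hn n)).2.2.2.2.1
  have w1 : ∀ x, Gd b c (W x) := fun x => xm_gd (hg x) (hlim x)
  have w2 : ∀ x, 0 ≤ (W x).im := fun x =>
    ge_of_tendsto' ((Complex.continuous_im.tendsto _).comp (hlim x)) fun n =>
      (key _ (hπ x) _ (hn n)).1.le
  have w3 : ∀ x ∈ Icc (c0 / 2) 2, Hf μ (W x) = x := fun x hx => by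
    have t0 : Filter.Tendsto (fun n : ℕ => (⟨π x, 1 / (n + 1)⟩ : ℂ)) Filter.atTop (nhds x) := by
      have t1 : Continuous fun e : ℝ => (⟨x, e⟩ : ℂ) := by
        simp only [Complex.mk_eq_add_mul_I]; fun_prop
      rw [hπ' x hx]
      exact (t1.tendsto 0).comp tendsto_one_div_add_atTop_nhds_zero_nat
    have t2 := ((hlim x).sub t0).mul
      (xm_tend (xm_con fun p q hp hq => g1_lip h hc1 hp hq) (hg x) (hlim x))
    refine xm_Hf hm (tendsto_nhds_unique t2 ?_)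
    exact tendsto_const_nhds.congr fun n => (key _ (hπ x) _ (hn n)).2.1.symm
  have lF : ∀ p q, Gd b c p → Gd b c q → ‖xm_F μ μq p - xm_F μ μq q‖ ≤ K * 28 * ‖p - q‖ :=
    fun p q hp hq => ((hF p hp).2.2.2 q _ hq (fun l hl => xm_sq h.b1 hp hq hl)
      (by positivity)).trans_eq (mul_assoc _ _ _).symm
  have cF : Continuous fun x => xm_F μ μq (W x) := (xm_con lF).comp_continuous hW w1
  have cχ : Continuous fun x => xm_chi μ (W x) :=
    (xm_con (f := xm_chi μ) fun p q hp hq => xm_chi_lip h hc1 hp hq).comp_continuous hW w1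
  have cF' : Continuous fun x => μq.real univ * xm_F μ μq (W x) := continuous_const.mul cF
  have step1 : ∀ g : ℝ → ℝ, Continuous g →
      ∫ x, g x ∂νq = ∫ x, g x * (μq.real univ * xm_F μ μq (W x)) ∂ν := fun g hg' => by
    refine xm_po hc sνq sν cF' (fun d hd => ?_) hg'
    obtain ⟨e0, he0, he1, hn⟩ := hnear (d / (μq.real univ * (K * 28) + 1)) (by positivity)
    refine ⟨e0, he0, fun e he he' x hx => ?_⟩
    obtain ⟨a1, -, -, -, a5, a6, a7⟩ := key x hx e ⟨he, he'.trans he1⟩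
    have a8 := (hF _ a5).1
    have a9 : 0 ≤ Po ν (fun l => l) e x := a6 ▸ by positivity
    have e1 : Po νq (fun l => l) e x - μq.real univ * xm_F μ μq (W x) * Po ν (fun l => l) e x
        = μq.real univ * (xm_F μ μq (om ⟨x, e⟩) - xm_F μ μq (W x)) * Po ν (fun l => l) e x := by
      have : xm_D μq (om ⟨x, e⟩) = μq.real univ * xm_F μ μq (om ⟨x, e⟩) * xm_D μ (om ⟨x, e⟩) := by
        rw [xm_F]; field_simp
      rw [a7, a6, this]; ring
    have e2 : μq.real univ * |xm_F μ μq (om ⟨x, e⟩) - xm_F μ μq (W x)| ≤ d := by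
      have b1 := mul_le_mul_of_nonneg_left ((lF _ _ a5 (w1 x)).trans
        (mul_le_mul_of_nonneg_left (hn e he he' x hx) (by positivity))) hmq.le
      refine b1.trans ?_
      rw [← mul_assoc, ← mul_div_assoc, div_le_iff₀ (by positivity)]
      linarith
    rw [e1, abs_mul, abs_mul, abs_of_pos hmq, abs_of_nonneg a9]
    exact mul_le_mul e2 (by linarith) a9 hd.le
  have step2 : ∀ᵐ x ∂ν, xm_chi μ (W x) = 0 := by
    have a0 := xm_po (ν₁ := 0) hc (by simp) sν cχ (fun d hd => ?_) cχ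
    · rw [integral_zero_measure, eq_comm, integral_eq_zero_iff_of_nonneg
        (fun x => mul_self_nonneg _) (xm_int sν (cχ.mul cχ).continuousOn)] at a0
      exact a0.mono fun x hx => mul_self_eq_zero.1 hx
    obtain ⟨e0, he0, he1, hn⟩ := hnear (d / (24 / c ^ 3)) (by positivity)
    refine ⟨min e0 (d / ((3 / c) ^ 2 * (1 / c ^ 2))), by positivity, fun e he he' x hx => ?_⟩
    have he2 := he'.trans (min_le_left _ _)
    have he3 := (le_div_iff₀ (by positivity)).1 (he'.trans (min_le_right _ _))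
    obtain ⟨a1, -, a3, a4, a5, a6, -⟩ := key x hx e ⟨he, he2.trans he1⟩
    have a8 := (hF _ a5).1
    have a9 : 0 ≤ Po ν (fun l => l) e x := a6 ▸ by positivity
    have b1 : |xm_chi μ (om ⟨x, e⟩) - xm_chi μ (W x)| ≤ d :=
      (xm_chi_lip h hc1 a5 (w1 x)).trans ((mul_le_mul_of_nonneg_left (hn e he he2 x hx)
        (by positivity)).trans_eq (by field_simp))
    have b2 : xm_chi μ (om ⟨x, e⟩) * Po ν (fun l => l) e x ≤ d := by
      have c1 : xm_chi μ (om ⟨x, e⟩) * Po ν (fun l => l) e x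
          = e * (‖G1 μ (om ⟨x, e⟩)‖ ^ 2 * xm_D μ (om ⟨x, e⟩)) := by
        rw [a6, ← mul_assoc e, a3]; ring
      rw [c1]
      refine le_trans (mul_le_mul_of_nonneg_left (mul_le_mul
        (pow_le_pow_left₀ (norm_nonneg _) (gi_bd h hc1 a5).2.2 2) ((xm_up h.supp h.b1 hc1 a5).trans
          (mul_le_of_le_one_left (by positivity) h.up)) a8.le (by positivity)) he.le) he3
    have b3 : |xm_chi μ (W x)| ≤ xm_chi μ (om ⟨x, e⟩) + d := by
      have := abs_le.1 b1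
      exact abs_le.2 ⟨by linarith, by linarith⟩
    rw [Po, integral_zero_measure, zero_sub, abs_neg, abs_mul, abs_of_nonneg a9]
    linarith [mul_le_mul_of_nonneg_right b3 a9]
  have lip : LipschitzOnWith (K * (29 * L)).toNNReal (fun x => xm_F μ μq (W x))
      {x | x ∈ Icc (c0 / 2) 2 ∧ xm_chi μ (W x) = 0} :=
    LipschitzOnWith.of_dist_le' fun x hx y hy => by
      obtain ⟨a1, a2⟩ := hno μ b _ _ h (w1 x) (w1 y) (w2 x) (w2 y) (sub_eq_zero.1 hx.2).symm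
        (sub_eq_zero.1 hy.2).symm
      rw [w3 x hx.1, w3 y hy.1, ← Complex.ofReal_sub, Complex.norm_real, Real.norm_eq_abs] at a1 a2
      rw [Real.dist_eq, Real.dist_eq]
      exact ((hF _ (w1 x)).2.2.2 _ _ (w1 y) (fun l hl => xm_sq' h.b1 (w1 x) (w1 y) hl a1 a2)
        (by positivity)).trans_eq (by ring)
  obtain ⟨f, hf, hfe⟩ := lip.extend_real
  have hΦ := (hf.const_min C).const_max c₁
  refine ⟨fun x => max c₁ (min C (f x)), fun s t => ?_,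
    fun t => ⟨le_max_left _ _, max_le hcC (min_le_left _ _)⟩, fun g hg' => ?_⟩
  · have := hΦ.dist_le_mul s t
    rwa [Real.dist_eq, Real.dist_eq, Real.coe_toNNReal _ (by positivity)] at this
  · rw [xm_cx sνq sν cF' step1 hg', ← integral_const_mul]
    refine integral_congr_ae ?_
    filter_upwards [sν, step2] with x hx hx'
    have e : f x = xm_F μ μq (W x) := (hfe ⟨⟨by linarith [hx.1], by linarith [hx.2]⟩, hx'⟩).symm
    rw [e, min_eq_right (hF _ (w1 x)).2.2.1, max_eq_right (hF _ (w1 x)).2.1]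
    push_cast
    ring

end Pool.Agent.Lib.MP_263241_an
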