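import Pool.Agent.Lib.MP_263241_an.XO

/-! The Markov property. -/

namespace Pool.Agent.Lib.MP_263241_an

open Filter Topology MeasureTheory TrivSqZeroExt

variable {R H : Type*} [CStarAlgebra R] [NormedAddCommGroup H] [InnerProductSpace ℂ H]

/-- A difference of two twisted forms. -/
noncomputable def xn_dl (L : R × R × R × R) (z : DA R) (x y : R) : ℂ :=
  z.snd.ev (L.1 * x) (y * L.2.1) - z.snd.ev (L.2.2.1 * x) (y * L.2.2.2)

theorem xn_mul (L : R × R × R × R) (z w : DA R) (x y : R) :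
    xn_dl L (z * w) x y = xn_dl L z x (w.fst * y) + xn_dl L w (x * z.fst) y := by
  simp only [xn_dl, DA.snd_mul, mul_assoc]
  ring

/-- The constants. -/
def xn_C (G : Subalgebra ℂ (DA R)) (L : R × R × R × R) (c : DA R) : Prop :=
  c ∈ G ∧ ∀ x y, xn_dl L c x y = 0

theorem xn_C.mul {G : Subalgebra ℂ (DA R)} {L : R × R × R × R} {c d : DA R} (hc : xn_C G L c)
    (hd : xn_C G L d) : xn_C G L (c * d) :=
  ⟨G.mul_mem hc.1 hd.1, fun x y => by rw [xn_mul, hc.2, hd.2, add_zero]⟩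

theorem xn_C.inl {G : Subalgebra ℂ (DA R)} (L : R × R × R × R) {d : R} (hd : inl d ∈ G) :
    xn_C G L (inl d) := ⟨hd, fun x y => by simp [xn_dl]⟩

theorem xn_C.pow {G : Subalgebra ℂ (DA R)} {L : R × R × R × R} {c : DA R} (hc : xn_C G L c)
    (n : ℕ) : xn_C G L (c ^ n) := by
  induction n with
  | zero => rw [pow_zero]; exact xn_C.inl L (d := 1) G.one_mem
  | succ n ih => rw [pow_succ]; exact ih.mul hc

namespace TW

variable {T : TW R H}

theorem xn_lt (L : R × R × R × R) (a l r x y : R) : xn_dl L (T.lt a l r) x y =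
    T.tau (x * (l * L.1)) * T.tau (L.2.1 * r * y) -
      T.tau (x * (l * L.2.2.1)) * T.tau (L.2.2.2 * r * y) := by
  have e1 : ∀ p, T.tau (p * x * l) = T.tau (x * (l * p)) := fun p => by
    rw [mul_assoc, T.tau_comm, mul_assoc]
  have e2 : ∀ p, T.tau (r * (y * p)) = T.tau (p * r * y) := fun p => by
    rw [← mul_assoc, T.tau_comm, mul_assoc]
  simp only [xn_dl, lt_snd, bil_ev, e1, e2]

theorem xn_sand (a b x l r : R) :
    inl a * T.lt x l r * inl b = T.lt (a * x * b) (a * l) (r * b) :=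
  DA.ext' (by simp) fun p q => by simp [mul_assoc]

variable (T) in
/-- Words that can be replaced by elements of `B` when tested against constants. -/
structure xn_Gd (G : Subalgebra ℂ (DA R)) (L : R × R × R × R) (B : Set R) (X : DA R) : Prop where
  mem : X ∈ G
  t0 : ∃ Y ∈ B, ∀ d, xn_C G L d → T.tau (d.fst * X.fst) = T.tau (d.fst * Y)
  t1 : ∀ y, ∃ Y ∈ B, ∀ d, xn_C G L d → xn_dl L X d.fst y = T.tau (d.fst * Y)

section abs

variable {G : Subalgebra ℂ (DA R)} {L : R × R × R × R} {B : Set R} {X c k : DA R}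

theorem xn_shift (hc : xn_C G L c) {x Y : R}
    (h : ∀ d, xn_C G L d → T.tau (d.fst * x) = T.tau (d.fst * Y)) {d : DA R} (hd : xn_C G L d) :
    T.tau (d.fst * x * c.fst) = T.tau (d.fst * (Y * c.fst)) := by
  have := h _ (hc.mul hd)
  rw [fst_mul, mul_assoc, mul_assoc, T.tau_comm, T.tau_comm c.fst] at this
  rw [this, mul_assoc]

theorem xn_Gd.const (h : T.xn_Gd G L B X) (hc : xn_C G L c) (hB : ∀ y ∈ B, y * c.fst ∈ B) :
    T.xn_Gd G L B (X * c) := by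
  obtain ⟨Y, hY, h0⟩ := h.t0
  refine ⟨G.mul_mem h.mem hc.1, ⟨_, hB Y hY, fun d hd => ?_⟩, fun y => ?_⟩
  · rw [fst_mul, ← mul_assoc, xn_shift hc h0 hd]
  · obtain ⟨Y1, hY1, h1⟩ := h.t1 (c.fst * y)
    exact ⟨Y1, hY1, fun d hd => by rw [xn_mul, hc.2, add_zero, h1 d hd]⟩

theorem xn_Gd.letter (h : T.xn_Gd G L B X) (hB' : T.IsSub B) (hG : ∀ z ∈ G, xn_dl L z 1 1 = 0)
    (hc : xn_C G L c) (hB : ∀ y ∈ B, y * c.fst ∈ B) (ht : T.tau c.fst ≠ 0) (hk : k ∈ G)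
    (hk' : ∀ x y, xn_dl L k x y =
      T.tau (x * c.fst) * T.tau (k.fst * y) - T.tau (x * k.fst) * T.tau (c.fst * y)) :
    T.xn_Gd G L B (X * k) := by
  obtain ⟨Y, hY, h0⟩ := h.t0
  obtain ⟨Y1, hY1, h1⟩ := h.t1 k.fst
  have h2 : ∀ d, xn_C G L d → T.tau (d.fst * (X * k).fst) =
      T.tau (d.fst * ((T.tau c.fst)⁻¹ • (Y1 + T.tau k.fst • (Y * c.fst)))) := fun d hd => by
    have := hG _ (G.mul_mem hd.1 (G.mul_mem h.mem hk))
    rw [xn_mul, hd.2, zero_add, xn_mul, hk', one_mul, mul_one, mul_one, h1 d hd,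
      xn_shift hc h0 hd] at this
    simp only [mul_smul_comm, mul_add, map_smul, map_add, smul_eq_mul, fst_mul, ← mul_assoc]
      at this ⊢
    field_simp
    linear_combination -this
  have m2 := hB'.smul (T.tau c.fst)⁻¹ (hB'.add hY1 (hB'.smul (T.tau k.fst) (hB Y hY)))
  refine ⟨G.mul_mem h.mem hk, ⟨_, m2, h2⟩, fun y => ?_⟩
  obtain ⟨Y2, hY2, h3⟩ := h.t1 (k.fst * y)
  refine ⟨_, hB'.sub (hB'.add hY2 (hB'.smul (T.tau (k.fst * y)) (hB Y hY)))
    (hB'.smul (T.tau (c.fst * y)) m2), fun d hd => ?_⟩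
  rw [xn_mul, hk', h3 d hd, xn_shift hc h0 hd, mul_assoc, ← fst_mul, h2 d hd]
  simp only [mul_sub, mul_add, mul_smul_comm, map_sub, map_add, map_smul, smul_eq_mul]
  ring

end abs

theorem xn_ring {A : Type*} [Ring A] {f w n : A} (ff : f * f = f) (fn : f * n = n)
    (nf : n * f = n) (nwf : n * w * f = f) (fwn : f * w * n = f) {s p p' : A}
    (hs : s = 1 - f - (w - w * n * w)) (hp : p = 1 - w * n) (hp' : p' = 1 - n * w) :
    (f * s = 0 ∧ s * f = 0 ∧ n * s = 0 ∧ s * n = 0) ∧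
    ((1 - f - p) * s = 0 ∧ (1 - f - p) * w * p' = 0 ∧ p * s = s ∧
      (1 - f - p) * w * f = (1 - f) * w * f ∧ p * (1 - w) = s - (1 - f - p)) ∧
    (s * (1 - f - p') = 0 ∧ p * (w * (1 - f - p')) = 0 ∧ s * p' = s ∧
      f * (w * (1 - f - p')) = f * w * (1 - f) ∧ (1 - w) * p' = s - (1 - f - p')) ∧
    s = (1 - f) * (1 - w) * (1 - f) + (1 - f) * (1 - w) * n * ((1 - w) * (1 - f)) := by
  have nwn : n * (w * n) = n := by
    calc n * (w * n) = n * w * f * n := by rw [mul_assoc, fn, mul_assoc]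
      _ = n := by rw [nwf, fn]
  rw [mul_assoc] at nwf fwn
  have a2 : ∀ x, f * (n * x) = n * x := fun x => by rw [← mul_assoc, fn]
  have a5 : ∀ x, f * (w * (n * x)) = f * x := fun x => by
    rw [← mul_assoc w, ← mul_assoc, fwn]
  have a6 : ∀ x, n * (w * (n * x)) = n * x := fun x => by
    rw [← mul_assoc w, ← mul_assoc, nwn]
  subst hs hp hp'
  refine ⟨⟨?_, ?_, ?_, ?_⟩, ⟨?_, ?_, ?_, ?_, ?_⟩, ⟨?_, ?_, ?_, ?_, ?_⟩, ?_⟩ <;>
    simp only [mul_sub, sub_mul, mul_one, one_mul, mul_assoc, ff, fn, nf, nwf, fwn, nwn,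
      a2, a5, a6] <;> abel

/-- The liberation identity. -/
theorem xn_zero {G : Subalgebra ℂ (DA R)} {f w n v g s p p' : R} (ff : f * f = f) (fn : f * n = n)
    (nf : n * f = n) (nwf : n * w * f = f) (fwn : f * w * n = f) (hg : g = w - w * n * w)
    (hs : s = 1 - f - g) (hp : p = 1 - w * n) (hp' : p' = 1 - n * w) (vu : v * (1 - w) = 1)
    (uv : (1 - w) * v = 1) (he : inl (1 - f) ∈ G) (h1 : T.lt p (-p) n ∈ G)
    (h2 : T.lt p' (-n) p' ∈ G) (h3 : T.lt g p p' ∈ G)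
    (hL : ∀ z ∈ G, z.snd.ev 1 w = T.tau ((v - (2 : ℂ) • (1 : R)) * z.fst))
    (hR : ∀ z ∈ G, z.snd.ev w 1 = T.tau ((v - (2 : ℂ) • (1 : R)) * z.fst)) {z : DA R}
    (hz : z ∈ G) : z.snd.ev s ((1 - f - p) * w) = z.snd.ev (w * (1 - f - p')) s := by
  obtain ⟨-, ⟨b1, b2, b3, -, b4⟩, ⟨c1, c2, c3, -, c4⟩, -⟩ :=
    xn_ring ff fn nf nwf fwn (hg ▸ hs) hp hp'
  have b5 : (1 - f - p) * v = s * v - p := by
    rw [← sub_sub_cancel s (1 - f - p), ← b4, sub_mul, mul_assoc, uv, mul_one]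
  have c5 : v * (1 - f - p') = v * s - p' := by
    rw [← sub_sub_cancel s (1 - f - p'), ← c4, mul_sub, ← mul_assoc, vu, one_mul]
  have w1 := DA.weight (inl (1 - f) - T.lt g p p') z (inl (1 - f) - T.lt p (-p) n) 1 w
  have w2 := DA.weight (inl (1 - f) - T.lt p' (-n) p') z (inl (1 - f) - T.lt g p p') w 1
  rw [hL _ (G.mul_mem (G.mul_mem (G.sub_mem he h3) hz) (G.sub_mem he h1))] at w1
  rw [hR _ (G.mul_mem (G.mul_mem (G.sub_mem he h2) hz) (G.sub_mem he h3))] at w2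
  simp only [fst_mul, fst_sub, fst_inl, lt_fst, snd_sub, snd_inl, lt_snd, Bf.ev_sub, Bf.ev_zero,
    LinearMap.sub_apply, LinearMap.zero_apply, bil_ev, ← hs, one_mul, mul_one, mul_neg, map_neg]
    at w1 w2
  generalize 1 - f - p = P at *
  generalize 1 - f - p' = P' at *
  have d1 : T.tau ((v - (2 : ℂ) • (1 : R)) * (s * z.fst * P)) =
      T.tau (s * v * s * z.fst) - T.tau (s * z.fst) := by
    rw [← mul_assoc, T.tau_comm, ← mul_assoc, ← mul_assoc, mul_sub P, b5,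
      mul_smul_comm, mul_one, sub_mul, smul_mul_assoc, b1, smul_zero, sub_zero, sub_mul, b3,
      sub_mul, map_sub]
  have d2 : T.tau ((v - (2 : ℂ) • (1 : R)) * (P' * z.fst * s)) =
      T.tau (s * v * s * z.fst) - T.tau (s * z.fst) := by
    rw [← mul_assoc, T.tau_comm, ← mul_assoc _ P', ← mul_assoc, sub_mul, c5, smul_mul_assoc,
      one_mul, mul_sub, mul_smul_comm, c1, smul_zero, sub_zero, mul_sub, c3, ← mul_assoc, sub_mul,
      map_sub]
  have d3 : T.tau (p' * (z.fst * (P * w))) = 0 := by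
    rw [T.tau_comm, mul_assoc, b2, mul_zero, map_zero]
  have d4 : T.tau (w * (P' * z.fst) * p) = 0 := by
    rw [T.tau_comm, ← mul_assoc w, ← mul_assoc, c2, zero_mul, map_zero]
  have d5 : T.tau (s * z.fst * p) = T.tau (s * z.fst) := by rw [T.tau_comm, ← mul_assoc, b3]
  have d6 : T.tau (p' * (z.fst * s)) = T.tau (s * z.fst) := by
    rw [← mul_assoc, T.tau_comm, ← mul_assoc, c3]
  rw [w1, w2, d1, d2, d3, d4, d5, d6, T.tau_comm n w]
  ring

theorem xn_final {G : Subalgebra ℂ (DA R)} {L : R × R × R × R} {D : Set R} {f e m q Φ : R}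
    {M N a b c : DA R} (hD : T.Alg 1 D) (hf : Pr f) (fD : f ∈ D) (he : e = 1 - f)
    (hc : ∀ d ∈ D, d * f = f * d) (ms : star m = m) (hd : ∀ d ∈ D, inl d ∈ G)
    (hG : ∀ z ∈ G, xn_dl L z 1 1 = 0) (hM : xn_C G L M) (eM : e * M.fst = M.fst * e)
    (hN : xn_C G L N) (hcc : xn_C G L c) (ec : c.fst = f * m * f) (ha : a ∈ G)
    (ea : a.fst = e * m * f)
    (da : ∀ x y, xn_dl L a x y = T.tau (x * (e * M.fst)) * T.tau (a.fst * y)) (hb : b ∈ G)
    (eb : b.fst = f * m * e)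
    (db : ∀ x y, xn_dl L b x y = -(T.tau (x * b.fst) * T.tau (e * M.fst * y)))
    (hE : e * M.fst = e * m * e + a.fst * N.fst * b.fst) (tE : T.tau (e * M.fst) ≠ 0)
    (qD : q ∈ D) (fq : f * q = 0) (hΦ : Φ ∈ T.cls (Set.range fun n : ℕ => e * M.fst ^ n))
    (hg : ∀ n : ℕ, T.tau (q * M.fst ^ n) = T.tau (Φ * M.fst ^ n)) {Y : R}
    (hY : Y ∈ T.gen (insert 1 (insert m ((fun d => d * f) '' D)))) :
    T.tau (q * Y) = T.tau (Φ * Y) := by
  have eD : e ∈ D := he ▸ hD.sub hD.one fD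
  have ee : e * e = e := (he ▸ Pr.one.sub hf (one_mul f) : Pr e).sq
  have ef : e * f = 0 := by rw [he, sub_mul, one_mul, hf.sq, sub_self]
  have fe : f * e = 0 := by rw [he, mul_sub, mul_one, hf.sq, sub_self]
  have e1 : e + f = 1 := by rw [he, sub_add_cancel]
  have eP : ∀ n : ℕ, e * M.fst ^ n * e = e * M.fst ^ n := fun n => by
    rw [mul_assoc, ← (Commute.pow_right eM n).eq, ← mul_assoc, ee]
  have ce : xn_C G L (inl e) := xn_C.inl L (hd e eD)
  have cE : xn_C G L (inl e * M) := ce.mul hM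
  obtain ⟨B, hB⟩ : ∃ B, B = T.cls (Set.range fun n : ℕ => e * M.fst ^ n) := ⟨_, rfl⟩
  have sB : T.IsSub B := hB ▸ cls_sub _
  have mB : ∀ n : ℕ, e * M.fst ^ n ∈ B := fun n => hB ▸ sub_cls ⟨n, rfl⟩
  have b1 : ∀ y ∈ B, y * (inl e : DA R).fst ∈ B := fun y hy =>
    sB.map (LinC.id.mulR e) (by rintro _ ⟨n, rfl⟩; exact (eP n).symm ▸ mB n) (hB ▸ hy)
  have b2 : ∀ y ∈ B, y * (inl e * M).fst ∈ B := fun y hy =>
    sB.map (LinC.id.mulR _) (by
      rintro _ ⟨n, rfl⟩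
      rw [fst_mul, fst_inl, ← mul_assoc, eP, mul_assoc, ← pow_succ]
      exact mB _) (hB ▸ hy)
  have fΦ : f * Φ = 0 := cls_eq_zero (LinC.id.mulL f) (by
    rintro _ ⟨n, rfl⟩
    rw [← mul_assoc, fe, zero_mul]) hΦ
  have Φf : Φ * f = 0 := cls_eq_zero (LinC.id.mulR f) (by
    rintro _ ⟨n, rfl⟩
    beta_reduce
    rw [← eP, mul_assoc, ef, mul_zero]) hΦ
  have fδ : f * (q - Φ) = 0 := by rw [mul_sub, fq, fΦ, sub_zero]
  have δe : (q - Φ) * e = q - Φ := by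
    rw [he, mul_sub, mul_one, sub_mul, hc q qD, fq, Φf, sub_zero, sub_zero]
  have g0 : ∀ X, T.xn_Gd G L B X → T.tau ((q - Φ) * X.fst) = 0 := fun X hX => by
    obtain ⟨Y0, hY0, h0⟩ := hX.t0
    have k1 : T.tau (Φ * (X.fst - Y0)) = 0 := ker_sub.map (LinC.id.mulR _) (by
      rintro _ ⟨n, rfl⟩
      have := h0 _ (ce.mul (hM.pow n))
      rw [fst_mul, fst_inl, fst_pow] at this
      rw [Set.mem_ofPred_eq, mul_sub, map_sub, this, sub_self]) hΦ
    have k2 : T.tau ((q - Φ) * Y0) = 0 := ker_sub.map (LinC.id.mulL _) (by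
      rintro _ ⟨n, rfl⟩
      rw [Set.mem_ofPred_eq, ← mul_assoc, δe, sub_mul, map_sub, hg, sub_self]) (hB ▸ hY0)
    have k3 : T.tau (q * X.fst) = T.tau (q * Y0) := h0 _ (xn_C.inl L (hd q qD))
    rw [mul_sub, map_sub] at k1
    rw [sub_mul, map_sub] at k2 ⊢
    linear_combination k3 + k2 - k1
  have g1 : ∀ X ψ, T.xn_Gd G L B X → xn_C G L ψ → T.xn_Gd G L B (X * (a * ψ * b)) :=
    fun X ψ hX hψ => hX.letter sB hG cE b2 tE (G.mul_mem (G.mul_mem ha hψ.1) hb) fun x y => by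
      rw [xn_mul, xn_mul, hψ.2, da, db]
      simp only [fst_mul, fst_inl, mul_assoc, add_zero, sub_eq_add_neg]
  let V : Set R := {Y | ∀ X : {X // T.xn_Gd G L B X}, Y ∈
    {Y | (q - Φ) * X.1.fst * e * Y ∈ {x | T.tau x = 0}} ∩ {Y | ∀ ψ : {ψ // xn_C G L ψ},
      Y ∈ {Y | (q - Φ) * X.1.fst * a.fst * ψ.1.fst * f * Y ∈ {x | T.tau x = 0}}}}
  have sV : T.IsSub V := IsSub.all fun X => (ker_sub.comap (LinC.id.mulL _)).inter
    (IsSub.all fun ψ => ker_sub.comap (LinC.id.mulL _))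
  have mV : ∀ Y, Y ∈ V ↔ ∀ X, T.xn_Gd G L B X → T.tau ((q - Φ) * X.fst * e * Y) = 0 ∧
      ∀ ψ, xn_C G L ψ → T.tau ((q - Φ) * X.fst * a.fst * ψ.fst * f * Y) = 0 := fun Y =>
    ⟨fun h X hX => ⟨(h ⟨X, hX⟩).1, fun ψ hψ => (h ⟨X, hX⟩).2 ⟨ψ, hψ⟩⟩,
      fun h X => ⟨(h X.1 X.2).1, fun ψ => (h X.1 X.2).2 ψ.1 ψ.2⟩⟩
  clear_value V
  have h1 : (1 : R) ∈ V := (mV 1).2 fun X hX => ⟨by
    simpa only [fst_mul, fst_inl, mul_assoc, mul_one] using g0 _ (hX.const ce b1), fun ψ _ => by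
    rw [mul_one, T.tau_comm]
    simp only [← mul_assoc, fδ, zero_mul, map_zero]⟩
  have h2 := sV.stab (S := insert 1 (insert m ((fun d => d * f) '' D))) (by
    rintro _ (rfl | rfl | ⟨d, hd, rfl⟩)
    · exact .inl (star_one R)
    · exact .inr (.inl ms)
    · exact .inr (.inr ⟨_, hD.star hd, by rw [star_mul, hf.st, ← hc _ (hD.star hd)]⟩)) (by
    rintro s (rfl | rfl | ⟨d, hd', rfl⟩) y hy
    · rwa [one_mul]
    · rw [mV] at hy ⊢
      refine fun X hX => ⟨?_, fun ψ hψ => ?_⟩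
      · have k1 := (hy _ (hX.const cE b2)).1
        have k2 := (hy _ (g1 X N hX hN)).1
        have k3 := (hy X hX).2 _ (xn_C.inl L (hd 1 hD.one))
        have k4 : e * s = e * M.fst * e - a.fst * N.fst * b.fst * e + a.fst * f := by
          rw [← sub_mul, hE, add_sub_cancel_right, ea, mul_assoc _ e, ee, mul_assoc _ f, hf.sq,
            ← mul_add, e1, mul_one]
        rw [← mul_assoc, mul_assoc _ e, k4]
        simp only [fst_mul, fst_inl, mul_assoc, mul_add, mul_sub, add_mul, sub_mul _ _ y, map_add,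
          map_sub, one_mul] at k1 k2 k3 ⊢
        rw [k1, k2, k3, sub_zero, add_zero]
      · have k1 := (hy _ (g1 X ψ hX hψ)).1
        have k2 := (hy X hX).2 _ (hψ.mul hcc)
        have k4 : f * s = b.fst * e + c.fst * f := by
          rw [eb, ec, mul_assoc _ e, ee, mul_assoc _ f, hf.sq, ← mul_add, e1, mul_one]
        rw [← mul_assoc, mul_assoc _ f, k4]
        simp only [fst_mul, mul_assoc, mul_add, add_mul, map_add] at k1 k2 ⊢
        rw [k1, k2, add_zero]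
    · rw [mV] at hy ⊢
      refine fun X hX => ⟨?_, fun ψ hψ => ?_⟩
      · beta_reduce
        rw [hc d hd', mul_assoc _ e, ← mul_assoc e, ← mul_assoc e, ef, zero_mul, zero_mul,
          mul_zero, map_zero]
      · simpa only [fst_mul, fst_inl, mul_assoc] using
          (hy X hX).2 _ (hψ.mul (xn_C.inl L (hd _ (hD.mul fD hd'))))) hY 1 h1
  have h3 := ((mV _).1 h2 (inl e) ⟨ce.1, ⟨e, by simpa using mB 0, fun _ _ => rfl⟩,
    fun y => ⟨0, sB.zero, fun d _ => by rw [ce.2, mul_zero, map_zero]⟩⟩).1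
  rwa [fst_inl, δe, δe, mul_one, sub_mul, map_sub, sub_eq_zero] at h3

variable {r u ρ ρi f : R} {c0 : ℝ}
  (h : T.TD r u ρ ρi c0) (hf : Pr f) (fD : f ∈ T.gen {1, r}) (hθ : ‖f * u * f‖ < 1) (h1 : f ≠ 1)
include h hf fD hθ h1

theorem xn_tau : T.tau ((1 - f) * Stt ρ u f) ≠ 0 := by
  have he : Pr (1 - f) := Pr.one.sub hf (one_mul f)
  obtain ⟨-, a2⟩ := nn_tau (T := T) he.nn (bd_iff.1 (h.st_bd hf fD hθ)).1
  obtain ⟨a3, a4⟩ := tau_pr_re (T := T) he
  intro h0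
  rw [mul_sub, map_sub, h0, mul_smul_comm, mul_one, map_smul, smul_eq_mul, zero_sub,
    Complex.neg_re, Complex.re_ofReal_mul] at a2
  have a5 : (T.tau (1 - f)).re = 0 :=
    le_antisymm (nonpos_of_mul_nonpos_right (by linarith) (pow_pos h.c0p 2)) a4
  rw [a5] at a3
  exact h1 (sub_eq_zero.1 (T.pr_eq_zero he a3)).symm

theorem TD.markov {q : R} (qD : q ∈ T.gen {1, r}) (hq : f * q = 0) {φ : ℝ → ℂ} (hφ : Continuous φ)
    (hg : ∀ n : ℕ, T.tau (q * Stt ρ u f ^ n) = T.tau ((1 - f) * Ph 1 (Stt ρ u f) φ * Stt ρ u f ^ n)) :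
    ∀ Y ∈ T.Sf r (ρ * u * ρ) f, T.tau (q * Y) = T.tau ((1 - f) * Ph 1 (Stt ρ u f) φ * Y) := by
  intro Y hY
  obtain ⟨G, hG⟩ := h.world
  obtain ⟨v, vu, uv, hL, hR⟩ := h.rules hG
  have hD : T.Alg 1 (T.gen {1, r}) := gen1_alg _
  have hc : ∀ d ∈ T.gen {1, r}, d * f = f * d := fun d hd => gen_comm (by
    rintro _ (rfl | rfl) _ (rfl | rfl) <;> simp [h.rb.1]) hd fD
  have he : Pr (1 - f) := Pr.one.sub hf (one_mul f)
  have eD := hD.sub hD.one fD
  have eM : (1 - f) * Stt ρ u f = Stt ρ u f * (1 - f) := by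
    rw [sub_mul, mul_sub, h.st_l hf fD hθ, h.st_r hf fD hθ, one_mul, mul_one]
  have hΦ : (1 - f) * Ph 1 (Stt ρ u f) φ ∈
      T.cls (Set.range fun n : ℕ => (1 - f) * Stt ρ u f ^ n) := by
    rw [Ph, one_mul]
    exact gen_sub_pow he (h.st_bd hf fD hθ).1 eM ((gen_w _).cfc_mem he (sub_gen (.inl rfl))
      (sub_gen (.inr rfl)) eM.symm _)
  have tE := xn_tau h hf fD hθ h1
  have fn := nn_l hf hθ
  have nf := nn_r hf hθ
  have nwf := nn_inv_l hf hθ
  have fwn := nn_inv_r hf hθ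
  have hz := fun z => xn_zero (T := T) (G := G) (z := z) hf.sq fn nf nwf fwn rfl rfl rfl rfl
    (by rwa [sub_sub_cancel]) (by rwa [sub_sub_cancel]) (hG.d _ eD) (h.pi_hat hG hf fD hθ)
    (h.pi_hat' hG hf fD hθ) (h.sc_hat hG hf fD hθ) hL hR
  obtain ⟨⟨a1, a2, a3, a4⟩, ⟨-, b2, -, b3, -⟩, ⟨-, c2, -, c3, -⟩, e0⟩ :=
    xn_ring hf.sq fn nf nwf fwn rfl rfl rfl
  have hn := h.nn_hat hG hf fD hθ
  have hM := h.st_hat hG hf fD hθ
  have hu : T.lt u (-1) 1 ∈ G := by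
    convert G.sub_mem G.one_mem hG.w using 1
    exact DA.ext' (by simp) fun p q => by simp
  have hs : ∀ {a b x l r'}, a ∈ T.gen {1, r} → b ∈ T.gen {1, r} → T.lt x l r' ∈ G →
      T.lt (a * x * b) (a * l) (r' * b) ∈ G := fun ha hb hx =>
    xn_sand (T := T) _ _ _ _ _ ▸ G.mul_mem (G.mul_mem (hG.d _ ha) hx) (hG.d _ hb)
  have hS : Stt ρ u f = f + ρ * (1 - f - (1 - u - (1 - u) * nn u f * (1 - u))) * ρ := rfl
  rw [sub_sub_cancel] at e0
  generalize 1 - f - (1 - u - (1 - u) * nn u f * (1 - u)) = s at *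
  generalize hP : 1 - f - (1 - (1 - u) * nn u f) = P at *
  generalize hP' : 1 - f - (1 - nn u f * (1 - u)) = P' at *
  generalize 1 - (1 - u) * nn u f = p at *
  generalize 1 - nn u f * (1 - u) = p' at *
  generalize nn u f = n at *
  generalize Stt ρ u f = M at *
  have rf := hc ρ h.ρm
  have re : ρ * (1 - f) = (1 - f) * ρ := by rw [mul_sub, sub_mul, rf, mul_one, one_mul]
  have ef : (1 - f) * f = 0 := by rw [sub_mul, one_mul, hf.sq, sub_self]
  have fe : f * (1 - f) = 0 := by rw [mul_sub, mul_one, hf.sq, sub_self]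
  have s1 : f * ρ * -1 * (s * ρ) = 0 := by
    rw [← rf, mul_neg_one, neg_mul, mul_assoc, ← mul_assoc f, a1, zero_mul, mul_zero, neg_zero]
  have s2 : ρ * s * (1 * (ρ * f)) = 0 := by
    rw [one_mul, rf, mul_assoc, ← mul_assoc s, a2, zero_mul, mul_zero]
  have s3 : (1 - f) * M = ρ * s * ρ := by
    rw [hS, mul_add, ef, zero_add, ← mul_assoc, ← mul_assoc, ← re, mul_assoc ρ, sub_mul, a1,
      one_mul, sub_zero]
  have s4 : (1 - f) * ρ * -1 * (s * ρ) = -((1 - f) * M) := by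
    rw [mul_neg_one, neg_mul, ← he.l M, s3, mul_assoc, mul_assoc]
  have s5 : ρ * s * (1 * (ρ * (1 - f))) = (1 - f) * M := by
    rw [one_mul, ← mul_assoc, ← s3, eM, mul_assoc, he.sq]
  have s6 : ρ * (P * (1 - u)) * (1 * (ρ * f)) = -((1 - f) * ρ * u * (ρ * f)) := by
    rw [one_mul, rf, mul_assoc, ← mul_assoc _ f, b3, mul_assoc (1 - f), sub_mul 1 u, one_mul,
      mul_sub, ef, zero_sub, neg_mul, mul_neg, ← re]
    simp only [mul_assoc]
  have s7 : f * ρ * -1 * ((1 - u) * P' * ρ) = f * ρ * u * (ρ * (1 - f)) := by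
    rw [← rf, mul_neg_one, neg_mul, mul_assoc, ← mul_assoc f, c3, mul_sub f, mul_one, sub_mul, fe,
      zero_sub, neg_mul, mul_neg, neg_neg, re]
    simp only [mul_assoc]
  refine xn_final (G := G) (L := (s * ρ, ρ * (P * (1 - u)), (1 - u) * P' * ρ, ρ * s)) hD hf fD rfl
    hc (by rw [star_mul, star_mul, h.ρs, h.ub.1, mul_assoc]) hG.d (fun z hz' => ?_)
    ⟨hM, fun x y => ?_⟩ eM ⟨hs h.ρim h.ρim hn, fun x y => ?_⟩
    ⟨hs (hD.mul fD h.ρm) (hD.mul h.ρm fD) hu, fun x y => ?_⟩ (by simp only [lt_fst, mul_assoc])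
    (hs (hD.mul eD h.ρm) (hD.mul h.ρm fD) hu) (by simp only [lt_fst, mul_assoc]) (fun x y => ?_)
    (hs (hD.mul fD h.ρm) (hD.mul h.ρm eD) hu) (by simp only [lt_fst, mul_assoc]) (fun x y => ?_)
    ?_ tE qD hq hΦ hg hY
  · have := hz _ (G.mul_mem (G.mul_mem (hG.d _ h.ρm) hz') (hG.d _ h.ρm))
    simpa [xn_dl, sub_eq_zero] using this
  · rw [xn_lt, show ρ * (P * (1 - u)) * (p' * ρ) = ρ * (P * (1 - u) * p') * ρ by
      simp only [mul_assoc], show -(ρ * p) * ((1 - u) * P' * ρ) = -(ρ * (p * ((1 - u) * P')) * ρ) by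
      simp only [mul_assoc, neg_mul], b2, c2]
    simp
  · rw [xn_lt, show ρi * -n * (s * ρ) = -(ρi * (n * s) * ρ) by
      simp only [mul_assoc, neg_mul, mul_neg], show ρ * s * (n * ρi) = ρ * (s * n) * ρi by
      simp only [mul_assoc], a3, a4]
    simp
  · rw [xn_lt, s1, s2]
    simp
  · rw [xn_lt, s2, s4, s6]
    simp
  · rw [xn_lt, s1, s5, s7]
    simp
  · have i1 : ρ * f * (ρi * n) = n := by
      rw [rf, mul_assoc, ← mul_assoc ρ, h.ρ1, one_mul, fn]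
    have i2 : n * (ρi * (f * ρ)) = n := by rw [← rf, ← mul_assoc ρi, h.ρ2, one_mul, nf]
    have i3 : (1 - f) * ρ * u * (ρ * f) * (ρi * n * ρi) * (f * ρ * u * (ρ * (1 - f))) =
        (1 - f) * ρ * u * (ρ * f * (ρi * (n * (ρi * (f * ρ))))) * (u * (ρ * (1 - f))) := by
      simp only [mul_assoc]
    have re' : ∀ x, ρ * ((1 - f) * x) = (1 - f) * (ρ * x) := fun x => by
      rw [← mul_assoc, re, mul_assoc]
    rw [lt_fst, lt_fst, lt_fst, lt_fst, i3, i2, i1, s3, e0, mul_add, add_mul]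
    simp only [mul_assoc, re, re']

end TW

end Pool.Agent.Lib.MP_263241_an
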