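import Pool.Agent.Lib.MP_263241_an.XS

/-! The closed world of the data and the spectral gap. -/

namespace Pool.Agent.Lib.MP_263241_an

open Filter Topology MeasureTheory TrivSqZeroExt

variable {R H : Type*} [CStarAlgebra R] [NormedAddCommGroup H] [InnerProductSpace ℂ H]

/-- The recursion of the moments forces geometric decay. -/
theorem xo_decay {M : ℕ → ℝ} (h0 : ∀ n, 0 ≤ M n) (hm : ∀ n, M (n + 1) ≤ M n) (ht : M 0 < 1)
    (hr : ∀ n, 3 * M (n + 1) = 2 * M n +
      ∑ i ∈ Finset.range n, M (i + 1) * (M (n - 1 - i) - M (n - i))) :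
    ∃ S B : ℝ, 1 < S ∧ ∀ n, M (n + 1) * S ^ (n + 1) ≤ B := by
  obtain ⟨δ, hδ⟩ : ∃ δ, δ = 1 - M 0 := ⟨_, rfl⟩
  have δ0 : 0 < δ := by linarith
  have δ1 : δ ≤ 1 := by linarith [h0 0]
  obtain ⟨η, hη⟩ : ∃ η, η = δ ^ 2 / 40 := ⟨_, rfl⟩
  have η0 : 0 < η := by rw [hη]; positivity
  obtain ⟨B, hB⟩ : ∃ B, B = 4 / δ := ⟨_, rfl⟩
  have B0 : 0 < B := by rw [hB]; positivity
  have δB : δ * B = 4 := by rw [hB]; field_simp
  obtain ⟨S, hS⟩ : ∃ S, S = 1 + η := ⟨_, rfl⟩
  have S0 : 0 < S := by linarith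
  let A : ℕ → ℝ := fun N => ∑ n ∈ Finset.range N, M (n + 1) * S ^ (n + 1)
  have a0 : ∀ n, 0 ≤ M (n + 1) * S ^ (n + 1) := fun n => mul_nonneg (h0 _) (by positivity)
  have d0 : ∀ n, 0 ≤ (M n - M (n + 1)) * S ^ (n + 1) := fun n =>
    mul_nonneg (sub_nonneg.2 (hm n)) (by positivity)
  have A0 : ∀ N, 0 ≤ A N := fun N => Finset.sum_nonneg fun n _ => a0 n
  have tel : ∀ N, ∑ j ∈ Finset.range N, (M j - M (j + 1)) * S ^ (j + 1) + S * (M N * S ^ N) =
      S * M 0 + η * A N := by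
    intro N
    induction N with
    | zero => simp [A]
    | succ N ih =>
      simp only [A, Finset.sum_range_succ] at ih ⊢
      have e : η = S - 1 := by linarith
      rw [e] at ih ⊢
      linear_combination ih
  have sh : ∀ N, ∑ n ∈ Finset.range (N + 1), M n * S ^ n = M 0 + A N := fun N => by
    rw [Finset.sum_range_succ']; simp [A, add_comm]
  have step : ∀ N, 3 * A (N + 1) ≤ 2 * S * (M 0 + A N) + A N * (S * M 0 + η * A N) := by
    intro N
    have e1 : 3 * A (N + 1) = 2 * S * (M 0 + A N) + ∑ n ∈ Finset.range (N + 1),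
        ∑ i ∈ Finset.range n, M (i + 1) * S ^ (i + 1) *
          ((M (n - 1 - i) - M (n - 1 - i + 1)) * S ^ (n - 1 - i + 1)) := by
      rw [← sh, Finset.mul_sum, Finset.mul_sum, ← Finset.sum_add_distrib]
      refine Finset.sum_congr rfl fun n _ => ?_
      rw [← mul_assoc, hr n, add_mul, Finset.sum_mul]
      congr 1
      · ring
      refine Finset.sum_congr rfl fun i hi => ?_
      have hi' := Finset.mem_range.1 hi
      rw [show n - 1 - i + 1 = n - i by omega, show n + 1 = (i + 1) + (n - i) by omega, pow_add]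
      ring
    rw [e1, Finset.sum_range_succ', Finset.range_zero, Finset.sum_empty, add_zero]
    simp only [Nat.add_sub_cancel]
    rw [Finset.sum_range_diag_flip N fun i j => M (i + 1) * S ^ (i + 1) *
      ((M j - M (j + 1)) * S ^ (j + 1))]
    refine add_le_add le_rfl ?_
    rw [Finset.sum_mul]
    refine Finset.sum_le_sum fun i _ => ?_
    rw [← Finset.mul_sum]
    refine mul_le_mul_of_nonneg_left ?_ (a0 i)
    have h1 : ∑ j ∈ Finset.range (N - i), (M j - M (j + 1)) * S ^ (j + 1) ≤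
        ∑ j ∈ Finset.range N, (M j - M (j + 1)) * S ^ (j + 1) :=
      Finset.sum_le_sum_of_subset_of_nonneg (Finset.range_mono (Nat.sub_le _ _)) fun j _ _ => d0 j
    have h2 : 0 ≤ S * (M N * S ^ N) := mul_nonneg S0.le (mul_nonneg (h0 _) (by positivity))
    linarith [tel N]
  have bd : ∀ N, A N ≤ B := by
    intro N
    induction N with
    | zero => simpa [A] using B0.le
    | succ N ih =>
      have m0 : M 0 = 1 - δ := by linarith
      have h1 := step N
      rw [m0] at h1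
      have k1 : 0 ≤ S * (1 - δ) := mul_nonneg S0.le (by linarith)
      have h2 : A N * (S * (1 - δ) + η * A N) ≤ B * (S * (1 - δ) + η * B) :=
        mul_le_mul ih (by nlinarith) (by have := A0 N; positivity) B0.le
      have h3 : 2 * S * (1 - δ + A N) ≤ 2 * S * (1 - δ + B) :=
        mul_le_mul_of_nonneg_left (by linarith) (by linarith)
      have e1 : η * B = δ / 10 := by rw [hη, hB]; field_simp; ring
      have e2 : η * B * B = 2 / 5 := by rw [e1]; linarith
      have e3 : η ≤ 1 / 40 := by rw [hη]; nlinarith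
      have e4 : η * (δ * B) = 4 * η := by rw [δB]; ring
      have e5 : 0 ≤ η * δ := by positivity
      rw [hS] at h1 h2 h3
      nlinarith
  refine ⟨S, B, by linarith, fun n => le_trans ?_ (bd (n + 1))⟩
  exact Finset.single_le_sum (f := fun n => M (n + 1) * S ^ (n + 1)) (fun i _ => a0 i)
    (Finset.self_mem_range_succ n)

/-- Words that begin and end with a letter from `Y`. -/
inductive xo_Core (X : Set (DA R)) (Y : Set R) : DA R → Prop
  | one {d} : d ∈ Y → xo_Core X Y (inl d)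
  | cons {d c k} : d ∈ Y → c ∈ X → xo_Core X Y k → xo_Core X Y (inl d * (c * k))

namespace TW

variable {T : TW R H} {r u ρ ρi f : R} {c0 : ℝ} {G : Subalgebra ℂ (DA R)}

theorem xo_pow (x l s : R) (n : ℕ) (p q : R) : (T.lt x l s ^ n).snd.ev p q =
    ∑ i ∈ Finset.range n, T.tau (p * x ^ i * l) * T.tau (s * (x ^ (n - 1 - i) * q)) := by
  induction n generalizing q with
  | zero => simp
  | succ n ih =>
    rw [pow_succ, DA.snd_mul, ih, Finset.sum_range_succ, fst_pow]
    simp only [lt_fst, lt_snd, bil_ev, Nat.add_sub_cancel, Nat.sub_self, pow_zero, one_mul]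
    congr 1
    refine Finset.sum_congr rfl fun i hi => ?_
    have hi' := Finset.mem_range.1 hi
    rw [show n - i = n - 1 - i + 1 by omega, pow_succ, mul_assoc (x ^ (n - 1 - i))]

variable (T) in
/-- The polynomials in the letter over `u`. -/
noncomputable def xoC (u : R) : Subalgebra ℂ (DA R) := Algebra.adjoin ℂ {T.lt u (-1) 1}

theorem xo_w (u : R) : T.lt (1 - u) 1 1 = 1 - T.lt u (-1) 1 :=
  DA.ext' (by simp) fun p q => by simp

theorem xo_C {c : DA R} (hc : c ∈ T.xoC u) : c.fst ∈ T.gen {1, u} ∧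
    (∀ x z, (∀ a ∈ T.gen {1, u}, T.tau (a * z) = 0) → c.snd.ev x z = 0) ∧
    ∀ x z, (∀ a ∈ T.gen {1, u}, T.tau (x * a) = 0) → c.snd.ev x z = 0 := by
  have hC := gen1_alg (T := T) {u}
  induction hc using Algebra.adjoin_induction with
  | mem c hc =>
    rcases hc with rfl
    refine ⟨sub_gen (.inr rfl), fun x z h => ?_, fun x z h => ?_⟩
    · rw [lt_snd, bil_ev, h 1 hC.one, mul_zero]
    · rw [lt_snd, bil_ev, mul_neg, map_neg, h 1 hC.one, neg_zero, zero_mul]
  | algebraMap s =>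
    rw [Algebra.algebraMap_eq_smul_one]
    exact ⟨by simpa using hC.smul s hC.one, fun x z _ => by simp, fun x z _ => by simp⟩
  | add a b _ _ ha hb =>
    exact ⟨hC.add ha.1 hb.1, fun x z h => by simp [ha.2.1 x z h, hb.2.1 x z h],
      fun x z h => by simp [ha.2.2 x z h, hb.2.2 x z h]⟩
  | mul a b _ _ ha hb =>
    refine ⟨hC.mul ha.1 hb.1, fun x z h => ?_, fun x z h => ?_⟩
    · rw [DA.snd_mul, hb.2.1 _ z h, ha.2.1 x _ fun c hc => by
        rw [← mul_assoc]; exact h _ (hC.mul hc hb.1), add_zero]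
    · rw [DA.snd_mul, ha.2.2 x _ h, hb.2.2 _ z fun c hc => by
        rw [mul_assoc]; exact h _ (hC.mul ha.1 hc), add_zero]

variable (T) in
/-- Core words. -/
def xoK (r u : R) : DA R → Prop :=
  xo_Core {c | c ∈ T.xoC u ∧ T.tau c.fst = 0} (T.cen (T.gen {1, r}))

theorem xo_core {k : DA R} (hk : T.xoK r u k) :
    Core (T.cen (T.gen {1, u})) (T.cen (T.gen {1, r})) k.fst := by
  induction hk with
  | one hd => exact .one hd
  | cons hd hc _ ih => exact .cons hd ⟨(xo_C hc.1).1, hc.2⟩ ih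

theorem TD.xo_tau (h : T.TD r u ρ ρi c0) {k : DA R} (hk : T.xoK r u k) {a b : R}
    (ha : a ∈ T.gen {1, u}) (hb : b ∈ T.gen {1, u}) : T.tau (a * (k.fst * b)) = 0 := by
  have hC := gen1_alg (T := T) {u}
  rw [← mul_assoc, T.tau_comm, ← mul_assoc]
  exact tau_core (by rw [h.one]; exact one_ne_zero) hC (gen1_alg {r}) h.free.symm (hC.mul hb ha)
    (xo_core hk)

theorem TD.xo_snd (h : T.TD r u ρ ρi c0) {k : DA R} (hk : T.xoK r u k) {b : R}
    (hb : b ∈ T.gen {1, u}) (x : R) : k.snd.ev x b = 0 := by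
  induction hk generalizing x with
  | one hd => simp
  | cons hd hc hk ih =>
    rw [DA.snd_mul, DA.snd_mul, ih, (xo_C hc.1).2.1 _ _ fun a ha => h.xo_tau hk ha hb]
    simp

variable (T) in
/-- Normal forms. -/
noncomputable def xoV (r u : R) : Submodule ℂ (DA R) :=
  Submodule.span ℂ (T.xoC u ∪ {z | ∃ c ∈ T.xoC u, ∃ k, T.xoK r u k ∧ ∃ c' ∈ T.xoC u, z = c * k * c'})

theorem xo_V1 {c : DA R} (hc : c ∈ T.xoC u) : c ∈ T.xoV r u := Submodule.subset_span (.inl hc)

theorem xo_V2 {c k c' : DA R} (hc : c ∈ T.xoC u) (hk : T.xoK r u k) (hc' : c' ∈ T.xoC u) :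
    c * k * c' ∈ T.xoV r u := Submodule.subset_span (.inr ⟨c, hc, k, hk, c', hc', rfl⟩)

theorem xo_dec (h1 : T.tau 1 = 1) {d : R} (hd : d ∈ T.gen {1, r}) :
    ∃ d0 ∈ T.cen (T.gen {1, r}), ∃ s : ℂ, (inl d : DA R) = inl d0 + s • 1 := by
  obtain ⟨d0, h0, s, rfl⟩ := (gen1_alg (T := T) {r}).dec (by rw [h1]; exact one_ne_zero) hd
  exact ⟨d0, h0, s, by rw [inl_add, inl_smul, inl_one]⟩

theorem xo_VA (h1 : T.tau 1 = 1) {d : R} (hd : d ∈ T.gen {1, r}) {c : DA R} (hc : c ∈ T.xoC u) :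
    inl d * c ∈ T.xoV r u := by
  obtain ⟨d0, h0, s, e⟩ := xo_dec h1 hd
  rw [e, add_mul, smul_mul_assoc, one_mul]
  refine add_mem ?_ (Submodule.smul_mem _ _ (xo_V1 hc))
  simpa using xo_V2 (one_mem _) (.one h0) hc

theorem xo_VB (h1 : T.tau 1 = 1) {d : R} (hd : d ∈ T.gen {1, r}) {c k c' : DA R}
    (hc : c ∈ T.xoC u) (h0 : T.tau c.fst = 0) (hk : T.xoK r u k) (hc' : c' ∈ T.xoC u) :
    inl d * (c * k * c') ∈ T.xoV r u := by
  obtain ⟨d0, hd0, s, e⟩ := xo_dec h1 hd
  rw [e, add_mul, smul_mul_assoc, one_mul]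
  refine add_mem ?_ (Submodule.smul_mem _ _ (xo_V2 hc hk hc'))
  have := xo_V2 (one_mem _) (xo_Core.cons hd0 ⟨hc, h0⟩ hk) hc'
  simpa only [one_mul, mul_assoc] using this

theorem xo_VC (h1 : T.tau 1 = 1) {d : R} (hd : d ∈ T.gen {1, r}) {k c' : DA R}
    (hk : T.xoK r u k) (hc' : c' ∈ T.xoC u) : inl d * (k * c') ∈ T.xoV r u := by
  have hD := gen1_alg (T := T) {r}
  cases hk with
  | one h =>
    rw [← mul_assoc, inl_mul_inl]
    exact xo_VA h1 (hD.mul hd h.1) hc'
  | cons h hc hk =>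
    rw [mul_assoc, ← mul_assoc (inl d), inl_mul_inl]
    exact xo_VB h1 (hD.mul hd h.1) hc.1 hc.2 hk hc'

theorem xo_VD (h1 : T.tau 1 = 1) {d : R} (hd : d ∈ T.gen {1, r}) {c k c' : DA R}
    (hc : c ∈ T.xoC u) (hk : T.xoK r u k) (hc' : c' ∈ T.xoC u) :
    inl d * (c * k * c') ∈ T.xoV r u := by
  have e : c = (c - T.tau c.fst • 1) + T.tau c.fst • 1 := (sub_add_cancel _ _).symm
  rw [e, add_mul, add_mul, mul_add, smul_mul_assoc, smul_mul_assoc, one_mul, mul_smul_comm]
  refine add_mem (xo_VB h1 hd (sub_mem hc (Subalgebra.smul_mem _ (one_mem _) _)) ?_ hk hc')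
    (Submodule.smul_mem _ _ (xo_VC h1 hd hk hc'))
  simp [h1]

theorem xo_adj (h1 : T.tau 1 = 1) {z : DA R}
    (hz : z ∈ Algebra.adjoin ℂ (insert (T.lt (1 - u) 1 1) (inl '' T.gen {1, r}))) :
    z ∈ T.xoV r u := by
  suffices ∀ v ∈ T.xoV r u, z * v ∈ T.xoV r u by simpa using this 1 (xo_V1 (one_mem _))
  induction hz using Algebra.adjoin_induction with
  | mem z hz =>
    intro v hv
    induction hv using Submodule.span_induction with
    | mem v hv =>
      rcases hz with rfl | ⟨d, hd, rfl⟩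
      · have hw : T.lt (1 - u) 1 1 ∈ T.xoC u := by
          rw [xo_w]; exact sub_mem (one_mem _) (Algebra.subset_adjoin rfl)
        rcases hv with hv | ⟨c, hc, k, hk, c', hc', rfl⟩
        · exact xo_V1 (mul_mem hw hv)
        · simpa only [mul_assoc] using xo_V2 (mul_mem hw hc) hk hc'
      · rcases hv with hv | ⟨c, hc, k, hk, c', hc', rfl⟩
        · exact xo_VA h1 hd hv
        · exact xo_VD h1 hd hc hk hc'
    | zero => simp
    | add a b _ _ ha hb => rw [mul_add]; exact add_mem ha hb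
    | smul s a _ ha => rw [mul_smul_comm]; exact Submodule.smul_mem _ _ ha
  | algebraMap s =>
    intro v hv
    rw [← Algebra.smul_def]; exact Submodule.smul_mem _ _ hv
  | add a b _ _ ha hb => intro v hv; rw [add_mul]; exact add_mem (ha v hv) (hb v hv)
  | mul a b _ _ ha hb => intro v hv; rw [mul_assoc]; exact ha _ (hb v hv)

theorem TD.xo_eq (h : T.TD r u ρ ρi c0) {x y : R} (hx : x ∈ T.gen {1, u}) (hy : y ∈ T.gen {1, u})
    (hp : ∀ n : ℕ, ∑ i ∈ Finset.range n, T.tau (x * u ^ i) * T.tau (u ^ (n - 1 - i) * y) =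
      ∑ i ∈ Finset.range n, T.tau (u ^ (i + 1)) * (T.tau (u ^ (n - 1 - i)) - T.tau (u ^ (n - i))))
    {z : DA R} (hz : z ∈ T.xoV r u) :
    z.snd.ev x y = T.tau (((2 : ℂ) • (1 : R) - (3 : ℂ) • u) * z.fst) := by
  have hC := gen1_alg (T := T) {u}
  have hξ : (2 : ℂ) • (1 : R) - (3 : ℂ) • u ∈ T.gen {1, u} :=
    hC.toIsSub.sub (hC.smul _ hC.one) (hC.smul _ (sub_gen (.inr rfl)))
  induction hz using Submodule.span_induction with
  | mem z hz =>
    rcases hz with hz | ⟨c, hc, k, hk, c', hc', rfl⟩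
    · have hz' : z ∈ Submodule.span ℂ (Submonoid.closure {T.lt u (-1) 1} : Set (DA R)) := by
        rw [← Algebra.adjoin_eq_span]; exact hz
      clear hz
      induction hz' using Submodule.span_induction with
      | mem z hz =>
        obtain ⟨n, rfl⟩ := Submonoid.mem_closure_singleton.1 hz
        rw [xo_pow, fst_pow, lt_fst]
        simp only [mul_neg, mul_one, one_mul, map_neg, neg_mul, Finset.sum_neg_distrib, sub_mul,
          smul_mul_assoc, map_sub, map_smul, smul_eq_mul, ← pow_succ']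
        rw [hp, h.sdu n]; ring
      | zero => simp
      | add a b _ _ ha hb => simp [ha, hb, mul_add]
      | smul s a _ ha => simp [ha]
    · have k1 := xo_C hc
      have k2 := xo_C hc'
      rw [DA.snd_mul, DA.snd_mul, h.xo_snd hk (hC.mul k2.1 hy),
        k1.2.1 _ _ fun a ha => h.xo_tau hk ha (hC.mul k2.1 hy),
        k2.2.2 _ _ fun a ha => by
          simpa only [fst_mul, mul_assoc] using h.xo_tau hk (hC.mul hx k1.1) ha]
      have := h.xo_tau hk (hC.mul hξ k1.1) k2.1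
      simp only [fst_mul, mul_assoc] at this ⊢
      rw [this]; simp
  | zero => simp
  | add a b _ _ ha hb => simp [ha, hb, mul_add]
  | smul s a _ ha => simp [ha]

theorem TD.world (h : T.TD r u ρ ρi c0) : ∃ G, T.Wo r u G := by
  have hC := gen1_alg (T := T) {u}
  have hu : u ∈ T.gen {1, u} := sub_gen (.inr rfl)
  have hw : 1 - u ∈ T.gen {1, u} := hC.toIsSub.sub hC.one hu
  obtain ⟨G, h1, h2, h3⟩ := exists_world (T := T)
    (L := insert (T.lt (1 - u) 1 1) (inl '' T.gen {1, r}))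
    (I := {(u, 1 - u, (2 : ℂ) • (1 : R) - (3 : ℂ) • u), (1 - u, u, (2 : ℂ) • (1 : R) - (3 : ℂ) • u)})
    (by
      rintro z (rfl | ⟨d, -, rfl⟩)
      exacts [bdF_lt _ _ _, bdF_inl _])
    (by
      rintro i (rfl | rfl) z hz
      · refine h.xo_eq hu hw (fun n => Finset.sum_congr rfl fun i hi => ?_) (xo_adj h.one hz)
        have hi' := Finset.mem_range.1 hi
        rw [← pow_succ', mul_sub, mul_one, ← pow_succ, map_sub, show n - 1 - i + 1 = n - i by omega]
      · refine h.xo_eq hw hu (fun n => ?_) (xo_adj h.one hz)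
        rw [← Finset.sum_range_reflect]
        refine Finset.sum_congr rfl fun i hi => ?_
        have hi' := Finset.mem_range.1 hi
        rw [sub_mul, one_mul, ← pow_succ', ← pow_succ, map_sub, show n - 1 - i + 1 = n - i by omega,
          show n - 1 - (n - 1 - i) = i by omega, mul_comm])
  exact ⟨G, h2, h1 (.inl rfl), fun d hd => h1 (.inr ⟨d, hd, rfl⟩), h3 _ (.inl rfl), h3 _ (.inr rfl)⟩

theorem Wo.xo_u (hG : T.Wo r u G) : T.lt u (-1) 1 ∈ G := by
  have := sub_mem (one_mem G) hG.w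
  rwa [xo_w, sub_sub_cancel] at this

theorem Wo.xo_x (hG : T.Wo r u G) (fD : f ∈ T.gen {1, r}) : T.lt (f * u * f) (-f) f ∈ G := by
  have := mul_mem (mul_mem (hG.d f fD) hG.xo_u) (hG.d f fD)
  convert this using 1
  exact DA.ext' (by simp) fun p q => by simp

theorem TD.gap (h : T.TD r u ρ ρi c0) (hf : Pr f) (fD : f ∈ T.gen {1, r}) (h1 : f ≠ 1) :
    ‖f * u * f‖ < 1 := by
  obtain ⟨G, hG⟩ := h.world
  obtain ⟨x, hx⟩ : ∃ x, x = f * u * f := ⟨_, rfl⟩
  have xn : Nn x := by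
    have : Nn u := ⟨h.ub.1, fun t ht => h.c0p.le.trans (h.ub.2 t ht).1⟩
    have := this.conj f
    rwa [hf.st, ← hx] at this
  have x1 : ‖x‖ ≤ 1 := by
    have hu : ‖u‖ ≤ 1 := h.ub.norm_le zero_le_one (by linarith [h.c0p]) le_rfl
    rw [hx]
    exact (norm_mul_le _ _).trans (mul_le_one₀ ((norm_mul_le _ _).trans
      (mul_le_one₀ hf.norm_le (norm_nonneg _) hu)) (norm_nonneg _) hf.norm_le)
  have sa := sa_one xn.1
  have fx : f * x = x := by rw [hx, mul_assoc, hf.l]
  have xf : x * f = x := by rw [hx, mul_assoc, hf.sq]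
  have fp : ∀ n : ℕ, f * x ^ n = x ^ n * f := fun n =>
    (Commute.pow_right (fx.trans xf.symm : Commute f x) n).eq
  have fp' : ∀ n : ℕ, f * x ^ (n + 1) = x ^ (n + 1) := fun n => by rw [pow_succ', ← mul_assoc, fx]
  have ut : ∀ n : ℕ, T.tau (u * (f * x ^ n)) = T.tau (f * x ^ (n + 1)) := fun n => by
    rw [fp', ← hf.l, fp, ← mul_assoc, ← mul_assoc, T.tau_comm, ← mul_assoc, ← mul_assoc, ← hx,
      pow_succ']
  have p1 : ∀ n : ℕ, Nn (x ^ n) := fun n => by
    have := nn_ph xn.1 (f := fun t => t ^ n) (by fun_prop) fun t ht => pow_nonneg (xn.2 t ht) n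
    simp only [Complex.ofReal_pow] at this
    rwa [ph_pow xn.1] at this
  have p2 : ∀ n : ℕ, Nn (x ^ n - x ^ (n + 1)) := fun n => by
    have := nn_ph xn.1 (f := fun t => t ^ n - t ^ (n + 1)) (by fun_prop) fun t ht => by
      have h2 : t ≤ 1 := (le_abs_self t).trans ((SA.spec_le ht).trans x1)
      have h3 := pow_nonneg (xn.2 t ht) n
      rw [pow_succ]; nlinarith
    simp only [Complex.ofReal_sub, Complex.ofReal_pow] at this
    rwa [SA.ph_sub (by fun_prop) (by fun_prop), ph_pow xn.1, ph_pow xn.1] at this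
  obtain ⟨M, hM⟩ : ∃ M : ℕ → ℝ, ∀ n, T.tau (f * x ^ n) = M n :=
    ⟨fun n => (T.tau (f * x ^ n)).re, fun n => (nn_tau hf.nn (p1 n)).1⟩
  have M0 : ∀ n, 0 ≤ M n := fun n => by
    simpa only [hM, Complex.ofReal_re] using (nn_tau (T := T) hf.nn (p1 n)).2
  have Mm : ∀ n, M (n + 1) ≤ M n := fun n => by
    have := (nn_tau (T := T) hf.nn (p2 n)).2
    rw [mul_sub, map_sub, hM, hM] at this
    simpa using this
  have M1 : M 0 < 1 := by
    have he : Pr (1 - f) := Pr.one.sub hf (one_mul f)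
    have e : T.tau (1 - f) = ((1 - M 0 : ℝ) : ℂ) := by
      have := hM 0
      rw [pow_zero, mul_one] at this
      rw [map_sub, h.one, this]; simp
    have h2 := (tau_pr_re (T := T) he).2
    rw [e, Complex.ofReal_re] at h2
    refine lt_of_le_of_ne (by linarith) fun h3 => h1 (sub_eq_zero.1 (T.pr_eq_zero he ?_)).symm
    rw [e, h3]; simp
  have Mr : ∀ n, 3 * M (n + 1) = 2 * M n +
      ∑ i ∈ Finset.range n, M (i + 1) * (M (n - 1 - i) - M (n - i)) := by
    intro n
    have h2 := hG.s1 _ (mul_mem (hG.d f fD) (pow_mem (hx ▸ hG.xo_x fD : T.lt x (-f) f ∈ G) n))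
    rw [DA.snd_mul, xo_pow, fst_mul, fst_pow, lt_fst, fst_inl, sub_mul, smul_mul_assoc,
      smul_mul_assoc, one_mul, map_sub, map_smul, map_smul, ut, hM, hM] at h2
    have h3 : ∀ i ∈ Finset.range n, T.tau (u * f * x ^ i * -f) *
        T.tau (f * (x ^ (n - 1 - i) * (1 - u))) =
        -((M (i + 1) * (M (n - 1 - i) - M (n - i)) : ℝ) : ℂ) := by
      intro i hi
      have hi' := Finset.mem_range.1 hi
      rw [mul_neg, map_neg, mul_assoc, ← fp, mul_assoc, hf.l, ut, hM, mul_sub, mul_one, mul_sub,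
        map_sub, hM, ← mul_assoc f, T.tau_comm, ut, hM, show n - 1 - i + 1 = n - i by omega]
      push_cast; ring
    rw [Finset.sum_congr rfl h3, Finset.sum_neg_distrib, ← Complex.ofReal_sum] at h2
    apply Complex.ofReal_injective
    simp only [snd_inl, Bf.ev_zero, LinearMap.zero_apply, zero_add, smul_eq_mul] at h2
    rw [Complex.ofReal_add, Complex.ofReal_mul, Complex.ofReal_mul]
    push_cast at h2 ⊢
    linear_combination h2
  obtain ⟨S, B, hS, hB⟩ := xo_decay M0 Mm M1 Mr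
  have S0 : 0 < S := by linarith
  rw [← hx]
  refine (norm_le_of_moments (T := T) (C := B) (r := S⁻¹) (by positivity) fun n => ?_).trans_lt
    (inv_lt_one_of_one_lt₀ hS)
  rw [xn.1, ← pow_two, ← pow_mul, ← pow_mul, show 2 * (n + 1) = 2 * n + 1 + 1 by ring, ← fp', hM,
    Complex.norm_real, Real.norm_of_nonneg (M0 _), inv_pow, ← div_eq_mul_inv,
    le_div_iff₀ (by positivity)]
  exact hB _

theorem TD.rules (h : T.TD r u ρ ρi c0) (hG : T.Wo r u G) : ∃ v : R, v * u = 1 ∧ u * v = 1 ∧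
    (∀ z ∈ G, z.snd.ev 1 (1 - u) = T.tau ((v - (2 : ℂ) • (1 : R)) * z.fst)) ∧
    ∀ z ∈ G, z.snd.ev (1 - u) 1 = T.tau ((v - (2 : ℂ) • (1 : R)) * z.fst) := by
  obtain ⟨U, hU⟩ := h.ub.isUnit h.c0p
  obtain ⟨v, vu, uv⟩ : ∃ v : R, v * u = 1 ∧ u * v = 1 :=
    ⟨(U⁻¹ : Rˣ), by rw [← hU, U.inv_mul], by rw [← hU, U.mul_inv]⟩
  obtain ⟨y, hy, y1, y2⟩ := hG.inv _ hG.xo_u _ hG.xo_u h.ub.1.symm v vu uv
  refine ⟨v, vu, uv, fun z hz => ?_, fun z hz => ?_⟩
  · have h1 := hG.s1 _ (mul_mem hy hz)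
    have e : T.tau (v * (z.fst * u)) = T.tau z.fst := by
      rw [← mul_assoc, T.tau_comm, ← mul_assoc, uv, one_mul]
    rw [DA.snd_mul, y2, y1, fst_mul, y1, uv] at h1
    simp only [lt_snd, bil_ev, mul_neg, mul_one, one_mul, map_neg, h.one, mul_sub, sub_mul,
      smul_mul_assoc, map_sub, map_smul, smul_eq_mul, ← mul_assoc u v, uv, e] at h1 ⊢
    linear_combination h1
  · have h1 := hG.s2 _ (mul_mem hz hy)
    have e : T.tau (u * (z.fst * v)) = T.tau z.fst := by
      rw [← mul_assoc, T.tau_comm, ← mul_assoc, vu, one_mul]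
    rw [DA.snd_mul, y2, y1, fst_mul, y1, vu, lt_snd, bil_ev] at h1
    generalize z.snd.ev (1 - u) 1 = s at h1 ⊢
    simp only [mul_neg, mul_one, one_mul, map_neg, h.one, sub_mul,
      smul_mul_assoc, map_sub, map_smul, smul_eq_mul, mul_assoc, e, T.tau_comm z.fst v] at h1 ⊢
    linear_combination h1

section hats

variable (h : T.TD r u ρ ρi c0) (hG : T.Wo r u G) (hf : Pr f) (fD : f ∈ T.gen {1, r})
  (hθ : ‖f * u * f‖ < 1)
include h hG hf fD hθ

theorem TD.nn_hat : T.lt (nn u f) (-nn u f) (nn u f) ∈ G := by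
  have hD := gen1_alg (T := T) {r}
  have hz := sub_mem (one_mem G) (hG.xo_x fD)
  have hu : IsUnit (1 - f * u * f) := (Units.oneSub _ hθ).isUnit
  obtain ⟨y, hy, y1, y2⟩ := hG.inv _ hz _ hz
    (by simp [hf.st, h.ub.1, mul_assoc]) (Ring.inverse (1 - f * u * f))
    (Ring.inverse_mul_cancel _ hu) (Ring.mul_inverse_cancel _ hu)
  have e1 : f * Ring.inverse (1 - f * u * f) = nn u f := by
    rw [← nn_l hf hθ, nn, mul_sub, mul_sub, mul_one, hf.sq, sub_self, sub_zero]
  have e2 : Ring.inverse (1 - f * u * f) * f = nn u f := by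
    rw [← nn_r hf hθ, nn, sub_mul, sub_mul, one_mul, hf.sq, sub_self, sub_zero]
  have := sub_mem hy (hG.d _ (hD.toIsSub.sub hD.one fD))
  convert this using 1
  refine DA.ext' (by simp [y1, nn]) fun p q => ?_
  have e3 : f * (Ring.inverse (1 - f * u * f) * q) = nn u f * q := by rw [← mul_assoc, e1]
  have e4 : p * Ring.inverse (1 - f * u * f) * f = p * nn u f := by rw [mul_assoc, e2]
  simp [y2, e3, e4]

theorem TD.pi_hat : T.lt (1 - (1 - u) * nn u f) (-(1 - (1 - u) * nn u f)) (nn u f) ∈ G := by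
  have := sub_mem (one_mem G) (mul_mem hG.w (h.nn_hat hG hf fD hθ))
  convert this using 1
  refine DA.ext' (by simp) fun p q => ?_
  generalize 1 - u = w
  simp [mul_sub, mul_assoc]
  ring

theorem TD.pi_hat' : T.lt (1 - nn u f * (1 - u)) (-nn u f) (1 - nn u f * (1 - u)) ∈ G := by
  have := sub_mem (one_mem G) (mul_mem (h.nn_hat hG hf fD hθ) hG.w)
  convert this using 1
  refine DA.ext' (by simp) fun p q => ?_
  generalize 1 - u = w
  simp [sub_mul, mul_assoc]
  ring

theorem TD.sc_hat : T.lt (sc u f) (1 - (1 - u) * nn u f) (1 - nn u f * (1 - u)) ∈ G := by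
  have := mul_mem (h.pi_hat hG hf fD hθ) hG.w
  convert this using 1
  refine DA.ext' (by
    rw [fst_mul, lt_fst, lt_fst, lt_fst, sc, sub_mul 1 ((1 - u) * nn u f), one_mul]) fun p q => ?_
  rw [DA.snd_mul]
  simp only [lt_fst, lt_snd, bil_ev]
  generalize 1 - (1 - u) * nn u f = π
  generalize 1 - u = w
  simp [sub_mul, mul_assoc]
  ring

theorem TD.st_hat : T.lt (Stt ρ u f) (-(ρ * (1 - (1 - u) * nn u f)))
    ((1 - nn u f * (1 - u)) * ρ) ∈ G := by
  have hD := gen1_alg (T := T) {r}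
  have := add_mem (hG.d f fD) (mul_mem (mul_mem (hG.d ρ h.ρm) (sub_mem
    (hG.d _ (hD.toIsSub.sub hD.one fD)) (h.sc_hat hG hf fD hθ))) (hG.d ρ h.ρm))
  convert this using 1
  refine DA.ext' (by simp [Stt]) fun p q => ?_
  generalize 1 - (1 - u) * nn u f = π
  generalize 1 - nn u f * (1 - u) = π'
  simp [mul_assoc]

end hats

end TW

end Pool.Agent.Lib.MP_263241_an
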