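import Pool.Agent.Lib.MP_263241_an.XY

/-! Recovery of the rotation from the white flag. -/

namespace Pool.Agent.Lib.MP_263241_an

open Filter Topology Finset

variable {R H : Type*} [CStarAlgebra R] [NormedAddCommGroup H] [InnerProductSpace ℂ H]

namespace TW

variable (T : TW R H) (f : ℝ → R) (S : ℝ → Set R)

/-- A Markov state for the flag. -/
structure Mk (m : ℝ → R) : Prop where
  mem : ∀ n j, m (tm n j) ∈ S (tm n j)
  sa : ∀ n j, star (m (tm n j)) = m (tm n j)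
  nm : ∀ n j, ‖m (tm n j)‖ ≤ 1
  comm : ∀ n j, f (tm n j) * m (tm n j) = m (tm n j) * f (tm n j)
  cov : ∀ a : ℕ, ∃ c C L : ℝ, 0 < c ∧ 0 ≤ L ∧ ∀ n j, j < a * 2 ^ n → ∃ Φ : ℝ → ℝ,
    (∀ s t, |Φ s - Φ t| ≤ L * |s - t|) ∧ (∀ t, c ≤ Φ t ∧ Φ t ≤ C) ∧
    T.ce (S (tm n j)) (sl f n j) =
      ((T.dl f n j : ℝ) : ℂ) • ((1 - f (tm n j)) * Ph 1 (m (tm n j)) fun t => (Φ t : ℂ))
  upd : ∀ a : ℕ, ∃ (K : ℝ) (e : ℕ → ℕ → ℝ),
    Tendsto (fun n => ∑ j ∈ range (a * 2 ^ n), e n j) atTop (𝓝 0) ∧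
    ∀ n j, j < a * 2 ^ n → ∃ lam γ : ℂ, ‖lam‖ ≤ 1 ∧ ‖γ‖ ≤ K ∧
      T.n1 (m (tm n (j + 1)) - (m (tm n j) + (1 - lam) • sl f n j +
        γ • ((lam • (1 : R) - m (tm n j)) * sl f n j * (lam • (1 : R) - m (tm n j))))) ≤ e n j

variable {T f S} {M : Set R} {U : R} {m : ℝ → R}

section step

variable (T)

/-- `x'` is a bounded approximation of `x`. -/
structure xr_Cl (D N : Set R) (s K : ℝ) (x x' : R) : Prop where
  m : x ∈ D
  m' : x' ∈ N
  n : ‖x‖ ≤ K
  n' : ‖x'‖ ≤ K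
  d : ‖T.ι (x - x')‖ ≤ K * s

/-- `x'` is an approximation of the increment `x`. -/
structure xr_In (D N : Set R) (δ s K : ℝ) (x x' : R) : Prop where
  sm : T.Sm D δ (K * s) (x - x')
  m' : x' ∈ N
  n : ‖x‖ ≤ K
  n' : ‖x'‖ ≤ K

variable {T} {D N N' : Set R} {δ s K K' C : ℝ} {x x' y y' q : R}

theorem xr_Cl.mono (h : T.xr_Cl D N s K x x') (hs : 0 ≤ s) (hK : K ≤ K') : T.xr_Cl D N s K' x x' :=
  ⟨h.m, h.m', h.n.trans hK, h.n'.trans hK, h.d.trans (mul_le_mul_of_nonneg_right hK hs)⟩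

theorem xr_Cl.mul (hD : T.Alg 1 D) (hN : T.Alg 1 N) (h : T.xr_Cl D N s K x x')
    (h' : T.xr_Cl D N s K' y y') : T.xr_Cl D N s (2 * K * K') (x * y) (x' * y') := by
  have k : 0 ≤ K := (norm_nonneg _).trans h.n
  have k' : 0 ≤ K' := (norm_nonneg _).trans h'.n
  have kk : K * K' ≤ 2 * K * K' := by nlinarith [mul_nonneg k k']
  refine ⟨hD.mul h.m h'.m, hN.mul h.m' h'.m',
    ((norm_mul_le _ _).trans (mul_le_mul h.n h'.n (norm_nonneg _) k)).trans kk,
    ((norm_mul_le _ _).trans (mul_le_mul h.n' h'.n' (norm_nonneg _) k)).trans kk, ?_⟩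
  have e : x * y - x' * y' = (x - x') * y + x' * (y - y') := by noncomm_ring
  rw [e, map_add]
  refine (norm_add_le _ _).trans ?_
  have a := (T.norm_mul' (x - x') y).trans (mul_le_mul h'.n h.d (norm_nonneg _) k')
  have b := (T.norm_mul x' (y - y')).trans (mul_le_mul h.n' h'.d (norm_nonneg _) k)
  linarith

theorem xr_Cl.add (hD : T.Alg 1 D) (hN : T.Alg 1 N) (h : T.xr_Cl D N s K x x')
    (h' : T.xr_Cl D N s K' y y') : T.xr_Cl D N s (K + K') (x + y) (x' + y') := by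
  refine ⟨hD.add h.m h'.m, hN.add h.m' h'.m', (norm_add_le _ _).trans (add_le_add h.n h'.n),
    (norm_add_le _ _).trans (add_le_add h.n' h'.n'), ?_⟩
  rw [add_sub_add_comm, map_add, add_mul]
  exact (norm_add_le _ _).trans (add_le_add h.d h'.d)

theorem xr_Cl.neg (hD : T.Alg 1 D) (hN : T.Alg 1 N) (h : T.xr_Cl D N s K x x') :
    T.xr_Cl D N s K (-x) (-x') := by
  refine ⟨by simpa using hD.smul (-1) h.m, by simpa using hN.smul (-1) h.m', by simpa using h.n,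
    by simpa using h.n', ?_⟩
  rw [neg_sub_neg, ← neg_sub, map_neg, norm_neg]; exact h.d

theorem xr_Cl.star (hD : T.Alg 1 D) (hN : T.Alg 1 N) (h : T.xr_Cl D N s K x x') :
    T.xr_Cl D N s K (star x) (star x') := by
  refine ⟨hD.star h.m, hN.star h.m', by simpa using h.n, by simpa using h.n', ?_⟩
  rw [← star_sub, T.norm_star]; exact h.d

theorem xr_one : ‖(1 : R)‖ ≤ 1 := Pr.one.norm_le

theorem xr_const (hD : T.Alg 1 D) (hN : T.Alg 1 N) (hs : 0 ≤ s) {c : ℂ} (hc : ‖c‖ ≤ 1) :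
    T.xr_Cl D N s 1 (c • (1 : R)) (c • (1 : R)) := by
  have : ‖c • (1 : R)‖ ≤ 1 := by
    rw [norm_smul]; exact mul_le_one₀ hc (norm_nonneg _) xr_one
  exact ⟨hD.smul _ hD.one, hN.smul _ hN.one, this, this, by simpa using hs⟩

theorem xr_in (hD : T.Alg 1 D) (hN' : T.Alg 1 N') (h1 : N ⊆ D) (h2 : N ⊆ N') (hq : Pr q)
    (qN : q ∈ N') (hδ : 0 ≤ δ) (hs : 0 ≤ s) (hC : 1 ≤ C) (hc : ‖T.ce D q‖ ≤ C * δ)
    (h : T.xr_Cl D N s K x x') (h' : T.xr_Cl D N s K y y') :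
    T.xr_In D N' δ s (2 * C * K * K) (x * q * y) (x' * q * y') := by
  have k : 0 ≤ K := (norm_nonneg _).trans h.n
  have nb : ∀ a b : R, ‖a‖ ≤ K → ‖b‖ ≤ K → ‖a * q * b‖ ≤ 2 * C * K * K := fun a b ha hb => by
    have : ‖a * q‖ ≤ K := (norm_mul_le _ _).trans
      ((mul_le_mul ha hq.norm_le (norm_nonneg _) k).trans (mul_one K).le)
    refine ((norm_mul_le _ _).trans (mul_le_mul this hb (norm_nonneg _) k)).trans ?_
    nlinarith [mul_nonneg k k]
  refine ⟨(sm_diff hD hq hδ hC hc h.m h'.m (h1 h.m') (h1 h'.m') h'.n h.n').mono hδ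
    (by positivity) ?_, hN'.mul (hN'.mul (h2 h.m') qN) (h2 h'.m'), nb _ _ h.n h'.n,
    nb _ _ h.n' h'.n'⟩
  have := mul_le_mul_of_nonneg_left (add_le_add h.d h'.d) (show 0 ≤ C * K by positivity)
  linarith

theorem xr_In.smul (h : T.xr_In D N δ s K x x') (hN : T.Alg 1 N) (hδ : 0 ≤ δ) (hs : 0 ≤ s) {c : ℂ}
    (hc : ‖c‖ ≤ K') : T.xr_In D N δ s (K' * K) (c • x) (c • x') := by
  have k : 0 ≤ K := (norm_nonneg _).trans h.n
  have k' : 0 ≤ K' := (norm_nonneg _).trans hc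
  refine ⟨?_, hN.smul _ h.m', by rw [norm_smul]; exact mul_le_mul hc h.n (norm_nonneg _) k',
    by rw [norm_smul]; exact mul_le_mul hc h.n' (norm_nonneg _) k'⟩
  rw [← smul_sub]
  refine (h.sm.smul c).mono hδ (by positivity) ?_
  rw [mul_assoc]
  exact mul_le_mul_of_nonneg_right hc (by positivity)

theorem xr_In.add (h : T.xr_In D N δ s K x x') (h' : T.xr_In D N δ s K' y y') (hN : T.Alg 1 N)
    (hδ : 0 ≤ δ) (hs : 0 ≤ s) : T.xr_In D N δ s (K + K') (x + y) (x' + y') := by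
  have k : 0 ≤ K := (norm_nonneg _).trans h.n
  have k' : 0 ≤ K' := (norm_nonneg _).trans h'.n
  refine ⟨?_, hN.add h.m' h'.m', (norm_add_le _ _).trans (add_le_add h.n h'.n),
    (norm_add_le _ _).trans (add_le_add h.n' h'.n')⟩
  rw [add_sub_add_comm, add_mul]
  exact h.sm.add hδ (by positivity) (by positivity) h'.sm

theorem xr_In.step (h : T.xr_In D N' δ s K x x') (hD : T.Alg 1 D) (hN' : T.Alg 1 N') (h1 : N ⊆ D)
    (h2 : N ⊆ N') (hδ : 0 ≤ δ) (hy : T.xr_Cl D N s 1 y y') {z : R} (hz : ‖z‖ ≤ 1) {E : ℝ}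
    (hE : T.n1 (z - (y + x)) ≤ E) : ‖T.ι (z - T.ce N' z)‖ ^ 2 ≤
      (1 + δ) * ‖T.ι (y - y')‖ ^ 2 + 2 * δ * (K * s) ^ 2 + 2 * (2 + 2 * K) * E := by
  have k : 0 ≤ K := (norm_nonneg _).trans h.n
  have e : y - y' + (x - x') + (z - (y + x)) = z - (y' + x') := by abel
  have b1 : ‖y - y' + (x - x')‖ ≤ 2 + 2 * K := by
    linarith [norm_add_le (y - y') (x - x'), norm_sub_le y y', norm_sub_le x x', hy.n, hy.n', h.n,
      h.n']
  have b2 : ‖y - y' + (x - x') + (z - (y + x))‖ ≤ 2 + 2 * K := by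
    rw [e]; linarith [norm_sub_le z (y' + x'), norm_add_le y' x', hy.n', h.n']
  have := h.sm.step hD hδ (hD.sub hy.m (h1 hy.m')) b1 b2
  rw [e] at this
  have c := pow_le_pow_left₀ (norm_nonneg _) (hN'.ce_min z (hN'.add (h2 hy.m') h.m')) 2
  have d := mul_le_mul_of_nonneg_left hE (show 0 ≤ 2 * (2 + 2 * K) by positivity)
  linarith

theorem xr_step (h1 : T.tau 1 = 1) {K C : ℝ} (hK : 1 ≤ K) (hC : 1 ≤ C) : ∃ L, 0 ≤ L ∧
    ∀ (D N N' : Set R) (δ E₁ E₂ : ℝ) (u x u' x' q : R) (g : ℝ → ℝ) (β lam γ : ℂ),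
    T.Alg 1 D → T.Alg 1 N → T.Alg 1 N' → N ⊆ D → N ⊆ N' → Pr q → q ∈ N' → 0 ≤ δ →
    ‖T.ce D q‖ ≤ C * δ → u ∈ D → x ∈ D → star x = x → ‖u‖ ≤ 1 → ‖x‖ ≤ 1 → ‖u'‖ ≤ 1 → ‖x'‖ ≤ 1 →
    (∀ s t, |g s - g t| ≤ K * |s - t|) → (∀ t, |g t| ≤ K) → ‖β‖ ≤ 1 → ‖lam‖ ≤ 1 → ‖γ‖ ≤ K →
    T.n1 (u' - (u + (-β) • (((Ph 1 x fun t => (g t : ℂ)) + 1) * u * q *
      (star u * (((Ph 1 x fun t => (g t : ℂ)) + 1) * u))))) ≤ E₁ →
    T.n1 (x' - (x + ((1 - lam) • ((Ph 1 x fun t => (g t : ℂ)) * u * q *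
      star ((Ph 1 x fun t => (g t : ℂ)) * u)) + γ • ((lam • (1 : R) + -x) *
      ((Ph 1 x fun t => (g t : ℂ)) * u) * q * (star ((Ph 1 x fun t => (g t : ℂ)) * u) *
      (lam • (1 : R) + -x)))))) ≤ E₂ →
    ‖T.ι (u' - T.ce N' u')‖ ^ 2 + ‖T.ι (x' - T.ce N' x')‖ ^ 2 ≤
      (1 + L * δ) * (‖T.ι (u - T.ce N u)‖ ^ 2 + ‖T.ι (x - T.ce N x)‖ ^ 2) + L * (E₁ + E₂) := by
  obtain ⟨B, hB⟩ : ∃ B, B = 8 * K * K := ⟨_, rfl⟩
  obtain ⟨A, hA⟩ : ∃ A, A = 2 * C * B * B := ⟨_, rfl⟩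
  obtain ⟨A', hA'⟩ : ∃ A', A' = 2 * A + K * A := ⟨_, rfl⟩
  have B0 : 8 * K ≤ B := by nlinarith
  have A0 : 0 ≤ A := by rw [hA]; have : 0 ≤ B := by linarith
                        positivity
  have A1 : A ≤ A' := by nlinarith
  refine ⟨1 + 8 * A' ^ 2 + 2 * (2 + 2 * A'), by nlinarith, ?_⟩
  intro D N N' δ E₁ E₂ u x u' x' q g β lam γ hD hN hN' s1 s2 hq qN hδ hc uD xD xs un xn un' xn' gl gb
    hβ hl hγ e1 e2
  obtain ⟨a, ha⟩ : ∃ a, a = ‖T.ι (u - T.ce N u)‖ := ⟨_, rfl⟩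
  obtain ⟨b, hb⟩ : ∃ b, b = ‖T.ι (x - T.ce N x)‖ := ⟨_, rfl⟩
  have a0 : 0 ≤ a := ha ▸ norm_nonneg _
  have b0 : 0 ≤ b := hb ▸ norm_nonneg _
  have hs : 0 ≤ a + b := add_nonneg a0 b0
  have xs' : star (T.ce N x) = T.ce N x := by rw [← hN.ce_star, xs]
  have cu : T.xr_Cl D N (a + b) 1 u (T.ce N u) :=
    ⟨uD, hN.ce_mem _, un, (hN.ce_norm _).trans un, by rw [← ha]; linarith⟩
  have cx : T.xr_Cl D N (a + b) 1 x (T.ce N x) :=
    ⟨xD, hN.ce_mem _, xn, (hN.ce_norm _).trans xn, by rw [← hb]; linarith⟩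
  have pn : ∀ y : R, star y = y → ‖Ph 1 y fun t => (g t : ℂ)‖ ≤ K := fun y hy =>
    (sa_one hy).ph_norm (by linarith) fun t _ => by rw [Complex.norm_real]; exact gb t
  have cg : T.xr_Cl D N (a + b) K (Ph 1 x fun t => (g t : ℂ)) (Ph 1 (T.ce N x) fun t => (g t : ℂ)) := by
    refine ⟨hD.toIsW.ph_mem (sa_one xs) hD.one xD _,
      hN.toIsW.ph_mem (sa_one xs') hN.one (hN.ce_mem _) _, pn _ xs, pn _ xs', ?_⟩
    have := lip (T := T) Pr.one xs xs' (by simp) (by simp) (by linarith) gl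
    rw [one_mul, one_mul, ← hb] at this
    nlinarith
  have c1 := xr_const hD hN hs (c := 1) (by simp)
  rw [one_smul] at c1
  have X := (cg.add hD hN c1).mul hD hN cu
  have X1 := cg.mul hD hN cu
  have cl := (xr_const hD hN hs hl).add hD hN (cx.neg hD hN)
  have I := fun {x x' y y' : R} (h : T.xr_Cl D N (a + b) B x x') (h' : T.xr_Cl D N (a + b) B y y') =>
    hA ▸ xr_in hD hN' s1 s2 hq qN hδ hs hC hc h h'
  have i1 := (I (X.mono hs (by linarith))
    (((cu.star hD hN).mul hD hN X).mono hs (by linarith))).smul hN' hδ hs (c := -β) (K' := 1)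
    (by rwa [norm_neg])
  have i2 := ((I (X1.mono hs (by linarith)) ((X1.star hD hN).mono hs (by linarith))).smul hN' hδ hs
    (c := 1 - lam) (K' := 2) ((norm_sub_le _ _).trans (by rw [norm_one]; linarith))).add
    ((I ((cl.mul hD hN X1).mono hs (by linarith))
      (((X1.star hD hN).mul hD hN cl).mono hs (by linarith))).smul hN' hδ hs hγ) hN' hδ hs
  have r1 := i1.step hD hN' s1 s2 hδ cu un' e1
  have r2 := i2.step hD hN' s1 s2 hδ cx xn' e2
  rw [← hA', ← hb] at r2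
  rw [one_mul, ← ha] at r1
  rw [← ha, ← hb]
  have E1 : 0 ≤ E₁ := (n1_nonneg _).trans e1
  have E2 : 0 ≤ E₂ := (n1_nonneg _).trans e2
  have p1 : (A * (a + b)) ^ 2 ≤ A' ^ 2 * (2 * (a ^ 2 + b ^ 2)) := by
    rw [mul_pow]
    exact mul_le_mul (pow_le_pow_left₀ A0 A1 2) (by nlinarith [sq_nonneg (a - b)]) (by positivity)
      (by positivity)
  have p2 : (A' * (a + b)) ^ 2 ≤ A' ^ 2 * (2 * (a ^ 2 + b ^ 2)) := by
    rw [mul_pow]
    exact mul_le_mul_of_nonneg_left (by nlinarith [sq_nonneg (a - b)]) (by positivity)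
  have p3 := mul_le_mul_of_nonneg_left (add_le_add p1 p2) (show 0 ≤ 2 * δ by positivity)
  have p4 : 0 ≤ δ * (2 * (2 + 2 * A')) * (a ^ 2 + b ^ 2) := by
    have : 0 ≤ A' := A0.trans A1
    positivity
  have p5 := mul_le_mul_of_nonneg_right A1 E1
  have p6 : 0 ≤ (1 + 8 * A' ^ 2) * (E₁ + E₂) := by positivity
  nlinarith

end step

theorem xr_sqrt {c s t : ℝ} (hc : 0 < c) (hs : c ≤ s) (ht : c ≤ t) :
    |√s - √t| ≤ (√c)⁻¹ * |s - t| := by
  have a := Real.sqrt_le_sqrt hs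
  have b := Real.sqrt_nonneg t
  have p := Real.sqrt_pos.2 hc
  have e : s - t = (√s - √t) * (√s + √t) := by
    nlinarith [Real.sq_sqrt (hc.le.trans hs), Real.sq_sqrt (hc.le.trans ht)]
  rw [e, abs_mul, abs_of_nonneg (by linarith : 0 ≤ √s + √t), inv_mul_eq_div, le_div_iff₀ p]
  exact mul_le_mul_of_nonneg_left (by linarith) (abs_nonneg _)

theorem xr_isqrt {c : ℝ} (hc : 0 < c) (s t : ℝ) :
    |(√(max s c))⁻¹ - (√(max t c))⁻¹| ≤ (√c)⁻¹ * (√c)⁻¹ * (√c)⁻¹ * |s - t| := by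
  have p := Real.sqrt_pos.2 hc
  have a := Real.sqrt_le_sqrt (le_max_right s c)
  have b := Real.sqrt_le_sqrt (le_max_right t c)
  rw [inv_sub_inv (p.trans_le a).ne' (p.trans_le b).ne', abs_div,
    abs_of_pos (mul_pos (p.trans_le a) (p.trans_le b)), abs_sub_comm, div_eq_mul_inv, mul_inv, mul_comm, mul_assoc _ _ |s - t|]
  refine mul_le_mul (mul_le_mul (inv_anti₀ p a) (inv_anti₀ p b) (by positivity) (by positivity))
    ((xr_sqrt hc (le_max_right _ _) (le_max_right _ _)).trans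
      (mul_le_mul_of_nonneg_left (abs_max_sub_max_le_abs _ _ _) (by positivity)))
    (abs_nonneg _) (by positivity)

theorem xr_cont {g : ℝ → ℝ} {L : ℝ} (hg : ∀ s t, |g s - g t| ≤ L * |s - t|) : Continuous g :=
  (LipschitzWith.of_dist_le' (K := L) hg).continuous

/-- The square root of the covariance inverts `sig` on the slice. -/
theorem xr_inv (h : T.Fl f S M) {n j : ℕ} {x : R} (xs : star x = x)
    (xc : f (tm n j) * x = x * f (tm n j)) {Φ : ℝ → ℝ} (hΦ : Continuous Φ) {c : ℝ} (hc : 0 < c)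
    (lo : ∀ t, c ≤ Φ t) (e : T.ce (S (tm n j)) (sl f n j) =
      ((T.dl f n j : ℝ) : ℂ) • ((1 - f (tm n j)) * Ph 1 x fun t => (Φ t : ℂ))) :
    (Ph 1 x fun t => ((√(T.te f (tm n j) * Φ t) : ℝ) : ℂ)) * T.sig f S n j * sl f n j =
      sl f n j := by
  obtain ⟨c', C', hc', hb⟩ := h.bd (j + 1)
  replace hb := hb n j (by nlinarith [Nat.one_le_two_pow (n := n)])
  have tp := h.te_pos n j
  obtain ⟨k, k0, k1, k2⟩ : ∃ k, 0 < k ∧ k ≤ c' ∧ ∀ t, k ≤ T.te f (tm n j) * Φ t :=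
    ⟨min c' (T.te f (tm n j) * c), lt_min hc' (mul_pos tp hc), min_le_left _ _, fun t =>
      (min_le_right _ _).trans (mul_le_mul_of_nonneg_left (lo t) tp.le)⟩
  have pf := h.pr (tm n j)
  have pe : Pr (1 - f (tm n j)) := Pr.one.sub pf (one_mul _)
  have cΦ : Continuous fun t => T.te f (tm n j) * Φ t := by fun_prop
  have cg := xr_cont (xr_isqrt k0)
  have ec : ∀ g, (1 - f (tm n j)) * Ph 1 x g = Ph 1 x g * (1 - f (tm n j)) := fun g =>
    (sa_one xs).ph_comm (by rw [sub_mul, mul_sub, xc, one_mul, mul_one]) (by simp) g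
  have e1 : (1 - f (tm n j)) * (T.rc f S n j - Ph 1 x fun t => ((T.te f (tm n j) * Φ t : ℝ) : ℂ)) =
      0 := by
    have := SA.ph_smul (e := 1) (x := x) (f := fun t => (Φ t : ℂ)) (T.te f (tm n j) : ℝ)
      (by fun_prop)
    rw [rc, e, smul_smul, ← Complex.ofReal_mul, div_mul_cancel₀ _ (h.pos n j).ne']
    simp only [Complex.ofReal_mul]
    rw [this, mul_sub, mul_add, mul_smul_comm, mul_smul_comm, pe.l, sub_mul _ _ (f _), one_mul,
      pf.sq, sub_self, add_zero, sub_self]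
  have l := lip (T := T) pe (h.rc_sa n j) (ph_sa xs fun t => T.te f (tm n j) * Φ t)
    (by rw [sub_mul, mul_sub, (h.rc_f n j).1, (h.rc_f n j).2, one_mul, mul_one]) (ec _)
    (by positivity) (xr_isqrt k0)
  rw [e1, map_zero, norm_zero, mul_zero] at l
  have l' := T.inj _ (norm_le_zero_iff.1 l)
  have e2 : T.sig f S n j = Ph 1 (T.rc f S n j) fun t => (((√(max t k))⁻¹ : ℝ) : ℂ) :=
    (sa_one (h.rc_sa n j)).ph_congr fun t ht => by rw [max_eq_left (k1.trans (hb.2 t ht).1)]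
  rw [← e2, ph_comp xs cΦ (g := fun t => (((√(max t k))⁻¹ : ℝ) : ℂ)) (by fun_prop), mul_sub,
    sub_eq_zero] at l'
  have eq : (1 - f (tm n j)) * sl f n j = sl f n j := by
    rw [sub_mul, one_mul, (h.f_sl n j).1, sub_zero]
  have e3 : (1 - f (tm n j)) * T.sig f S n j = T.sig f S n j * (1 - f (tm n j)) := by
    rw [sub_mul, mul_sub, h.sig_comm, one_mul, mul_one]
  rw [mul_assoc, ← eq, ← mul_assoc (T.sig f S n j), ← e3, l', ec, mul_assoc, ← mul_assoc,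
    ← (sa_one xs).ph_mul (by fun_prop)
      (g := fun t => (((√(max (T.te f (tm n j) * Φ t) k))⁻¹ : ℝ) : ℂ))
      (Complex.continuous_ofReal.comp (cg.comp cΦ)),
    (sa_one xs).ph_congr (g := fun _ => 1) fun t _ => by
      rw [max_eq_left (k2 t), ← Complex.ofReal_mul,
        mul_inv_cancel₀ (Real.sqrt_pos.2 (k0.trans_le (k2 t))).ne', Complex.ofReal_one],
    (sa_one xs).ph_const, one_smul, one_mul]

theorem xr_err {q σ v u π x x' ϑ : R} {β lam γ : ℂ} {K E E' E'' : ℝ} (hq : Pr q) (hK : 1 ≤ K)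
    (σs : star σ = σ) (ϑs : star ϑ = ϑ) (e : ϑ * σ * q = q) (un : ‖u‖ ≤ 1) (xn : ‖x‖ ≤ 1)
    (ϑn : ‖ϑ‖ ≤ K) (hβ : ‖β‖ ≤ 1) (hl : ‖lam‖ ≤ 1) (hγ : ‖γ‖ ≤ K)
    (h1 : T.n1 (v - (1 - β • ((1 + σ) * q * (1 + σ)))) ≤ E)
    (h2 : T.n1 (σ * q * σ - u * π * star u) ≤ E')
    (h3 : T.n1 (x' - (x + (1 - lam) • q + γ • ((lam • (1 : R) - x) * q * (lam • (1 : R) - x)))) ≤
      E'') :
    T.n1 (v * u - (u + (-β) • ((ϑ + 1) * u * π * (star u * ((ϑ + 1) * u))))) ≤
      E + 4 * K * K * E' ∧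
    T.n1 (x' - (x + ((1 - lam) • (ϑ * u * π * star (ϑ * u)) + γ • ((lam • (1 : R) + -x) *
      (ϑ * u) * π * (star (ϑ * u) * (lam • (1 : R) + -x)))))) ≤ E'' + 6 * K * K * K * E' := by
  have e' : q * σ * ϑ = q := by
    have := congrArg star e
    rwa [star_mul, star_mul, hq.st, σs, ϑs, ← mul_assoc] at this
  have E0 : 0 ≤ E' := (n1_nonneg _).trans h2
  obtain ⟨Δ, hΔ⟩ : ∃ Δ, Δ = σ * q * σ - u * π * star u := ⟨_, rfl⟩
  rw [← hΔ] at h2
  have sw : ∀ (a b : R) (A : ℝ), ‖a‖ ≤ A → ‖b‖ ≤ A → T.n1 (a * Δ * b) ≤ A * A * E' :=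
    fun a b A ha hb => by
      have A0 := (norm_nonneg _).trans ha
      refine (n1_mul_r _ _).trans ((mul_le_mul ((n1_mul_l _ _).trans
        (mul_le_mul ha h2 (n1_nonneg _) A0)) hb (norm_nonneg _) (by positivity)).trans_eq ?_)
      ring
  have q1 : ϑ * (σ * q * σ) * ϑ = q := by
    rw [← mul_assoc, ← mul_assoc, e, e']
  have q2 : (ϑ + 1) * (σ * q * σ) * (ϑ + 1) = (1 + σ) * q * (1 + σ) := by
    have a : (ϑ + 1) * σ * q = (1 + σ) * q := by rw [add_mul, add_mul, e, add_mul, one_mul, one_mul]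
    have b : q * σ * (ϑ + 1) = q * (1 + σ) := by rw [mul_add, e', mul_add, mul_one, mul_one]
    rw [← mul_assoc, ← mul_assoc, a, mul_assoc _ q, mul_assoc _ (q * σ), b, mul_assoc]
  have n1' : ‖ϑ + 1‖ ≤ 2 * K := by linarith [norm_add_le ϑ 1, xr_one (R := R)]
  have n2 : ‖lam • (1 : R) - x‖ ≤ 2 := by
    have : ‖lam • (1 : R)‖ ≤ 1 := by
      rw [norm_smul]; exact mul_le_one₀ hl (norm_nonneg _) xr_one
    linarith [norm_sub_le (lam • (1 : R)) x]
  constructor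
  · have : v * u - (u + (-β) • ((ϑ + 1) * u * π * (star u * ((ϑ + 1) * u)))) =
        (v - (1 - β • ((1 + σ) * q * (1 + σ)))) * u - β • ((ϑ + 1) * Δ * (ϑ + 1) * u) := by
      rw [← q2, hΔ]
      simp only [sub_mul, mul_sub, smul_sub, smul_mul_assoc, mul_assoc, one_mul, neg_smul]
      abel
    rw [this]
    refine (n1_sub _ _).trans (add_le_add ((n1_mul_r _ _).trans ?_) ?_)
    · exact (mul_le_of_le_one_right (n1_nonneg _) un).trans h1
    · rw [n1_smul]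
      refine (mul_le_of_le_one_left (n1_nonneg _) hβ).trans ((n1_mul_r _ _).trans
        ((mul_le_of_le_one_right (n1_nonneg _) un).trans ((sw _ _ _ n1' n1').trans_eq ?_)))
      ring
  · have : x' - (x + ((1 - lam) • (ϑ * u * π * star (ϑ * u)) + γ • ((lam • (1 : R) + -x) *
        (ϑ * u) * π * (star (ϑ * u) * (lam • (1 : R) + -x))))) =
        x' - (x + (1 - lam) • q + γ • ((lam • (1 : R) - x) * q * (lam • (1 : R) - x))) +
          ((1 - lam) • (ϑ * Δ * ϑ) +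
            γ • ((lam • (1 : R) - x) * ϑ * Δ * (ϑ * (lam • (1 : R) - x)))) := by
      rw [← sub_eq_add_neg, star_mul, ϑs]
      generalize lam • (1 : R) - x = y
      conv_rhs => rw [← q1]
      rw [hΔ]
      simp only [sub_mul, mul_sub, smul_sub, mul_assoc]
      abel
    rw [this]
    refine (n1_add _ _).trans (add_le_add h3 ((n1_add _ _).trans ?_))
    rw [n1_smul, n1_smul]
    have a := mul_le_mul ((norm_sub_le 1 lam).trans (show _ ≤ 2 by rw [norm_one]; linarith))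
      (sw _ _ _ ϑn ϑn) (n1_nonneg _) (by norm_num)
    have b := mul_le_mul hγ (sw ((lam • (1 : R) - x) * ϑ) (ϑ * (lam • (1 : R) - x)) (2 * K)
      ((norm_mul_le _ _).trans (mul_le_mul n2 ϑn (norm_nonneg _) (by norm_num)))
      ((norm_mul_le _ _).trans ((mul_le_mul ϑn n2 (norm_nonneg _) (by linarith)).trans_eq
        (mul_comm _ _)))) (n1_nonneg _) (by linarith)
    have c : 0 ≤ (K - 1) * (K * K * E') := mul_nonneg (by linarith) (by positivity)
    nlinarith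

theorem xr_pi (h : T.Fl f S M) (hU : T.Lm f S M U) {n j J : ℕ} (hj : j < J) :
    T.n1 (star (T.vv f S n j) * sl f n j * T.vv f S n j - T.UU f S n j *
      sl (fun t => star U * f t * U) n j * star (T.UU f S n j)) ≤
      2 * (√(T.dl f n j) * |‖T.ι (sl f n j * (T.UU f S n J - U))‖|) := by
  have hq := h.sl_pr n j
  have e0 : sl f n j * f (tm n (j + 1)) = sl f n j := by
    rw [sl, sub_mul, (h.pr _).sq, (h.pr _).comm_of (h.pr _) (h.mono _ _ (tm_mono j.le_succ))]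
  have e1 : sl f n j * T.UU f S n J = sl f n j * (T.vv f S n j * T.UU f S n j) := by
    rw [← e0, mul_assoc, h.f_uu (Nat.succ_le_of_lt hj) le_rfl, mul_assoc]; rfl
  have e2 : sl (fun t => star U * f t * U) n j = star U * sl f n j * U := by
    simp only [sl, mul_sub, sub_mul]
  obtain ⟨u1, u2⟩ := h.uu_unit n j
  have un := h.uu_norm n j
  rw [e2, mul_sub, e1, abs_norm, ← h.l2_sl]
  generalize sl f n j = q at *
  generalize T.UU f S n j = u at *
  have vu := h.vv_unit n j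
  generalize T.vv f S n j = v at *
  have e3 : star v * q * v - u * (star U * q * U) * star u = u * (star (q * (v * u)) *
      (q * (v * u) - q * U) + star (q * (v * u) - q * U) * (q * U)) * star u := by
    have : u * (star (q * (v * u)) * (q * (v * u))) * star u = star v * q * v := by
      simp only [star_mul, hq.st, mul_assoc, hq.l]
      rw [u2, mul_one, ← mul_assoc u, u2, one_mul]
    rw [← this]
    simp only [star_sub, star_mul, hq.st, mul_assoc, hq.l, mul_sub, sub_mul, mul_add, add_mul]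
    abel
  rw [e3]
  refine (n1_mul_r _ _).trans ((mul_le_of_le_one_right (n1_nonneg _) (by rwa [_root_.norm_star])).trans
    ((n1_mul_l _ _).trans ((mul_le_of_le_one_left (n1_nonneg _) un).trans
    ((n1_add _ _).trans ?_))))
  have a := n1_mul (T := T) (star (q * (v * u))) (q * (v * u) - q * U)
  have b := n1_mul (T := T) (star (q * (v * u) - q * U)) (q * U)
  rw [T.norm_star, ← mul_assoc, l2_unit' u2, l2_unit' vu.2, mul_assoc] at a
  rw [T.norm_star, l2_unit' hU.u2] at b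
  linarith

variable (T f) in
/-- The algebra known from the white flag. -/
def xr_N (U x : R) (n j : ℕ) : Set R :=
  T.gen (insert 1 (insert x {y | ∃ i ≤ j, y = star U * f (tm n i) * U}))

theorem xr_main (h : T.Fl f S M) (hU : T.Lm f S M U) (hm : T.Mk f S m) (a : ℕ) :
    Tendsto (fun n => ‖T.ι (T.UU f S n (a * 2 ^ n) -
      T.ce (xr_N T f U (m 0) n (a * 2 ^ n)) (T.UU f S n (a * 2 ^ n)))‖ ^ 2) atTop (𝓝 0) := by
  have h' := h.rot_fl hU
  obtain ⟨c, C, L, hc, hL, cov⟩ := hm.cov a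
  obtain ⟨K₁, e, he, upd⟩ := hm.upd a
  obtain ⟨K₂, hK₂, loc⟩ := h.loc a
  obtain ⟨C', hC', cb⟩ := h'.ce_bd a
  have ta : 0 < T.te f a := tm_top 0 a ▸ h.te_pos 0 (a * 2 ^ 0)
  obtain ⟨K, hK, k1, k2, k3⟩ : ∃ K, 1 ≤ K ∧ K₁ ≤ K ∧ (√(T.te f a * c))⁻¹ * L ≤ K ∧ √C ≤ K :=
    ⟨max (max 1 K₁) (max ((√(T.te f a * c))⁻¹ * L) √C), by simp, by simp, by simp, by simp⟩
  obtain ⟨A, hA, st⟩ := xr_step h.one hK hC'
  have Na : ∀ n j, T.Alg 1 (xr_N T f U (m 0) n j) := fun n j => gen1_alg _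
  have dd : ∀ n j, T.dl (fun t => star U * f t * U) n j = T.dl f n j := fun n j => by
    have : sl (fun t => star U * f t * U) n j = star U * sl f n j * U := by
      simp only [sl, mul_sub, sub_mul]
    rw [dl, this, T.tau_comm, ← mul_assoc, hU.u2, one_mul, dl]
  have t1 := h.er_sum a
  have t2 := h.sum_sqrt (a := a)
    (e := fun n j => ‖T.ι (sl f n j * (T.UU f S n (a * 2 ^ n) - U))‖) (by
      have := (lim_iff.1 (hU.lim a)).pow 2
      rw [zero_pow two_ne_zero] at this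
      refine this.congr fun n => ?_
      have p := pyth_flag (T := T) (f := fun j => f (tm n j)) (fun _ => h.pr _)
        (fun j => h.mono _ _ (tm_mono j.le_succ)) (a * 2 ^ n) (T.UU f S n (a * 2 ^ n) - U)
      simp only [tm_top, tm_zero, h.zero, sub_zero] at p
      rw [← mul_sub, ← p]; rfl)
  have t3 := ((((t1.const_mul K₂).add he).add (((t1.const_mul K₂).add
    (t2.const_mul 2)).const_mul (4 * K * K + 6 * K * K * K))).const_mul A).const_mul (Real.exp A)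
  simp only [mul_zero, add_zero] at t3
  refine squeeze_zero (fun _ => by positivity) (fun n => ?_) t3
  have key : ∀ j < a * 2 ^ n, ∃ E₁ E₂ : ℝ, 0 ≤ E₁ + E₂ ∧ E₁ + E₂ =
      K₂ * (√(T.dl f n j) * T.er f S n j) + e n j + (4 * K * K + 6 * K * K * K) *
        (K₂ * (√(T.dl f n j) * T.er f S n j) +
          2 * (√(T.dl f n j) * |‖T.ι (sl f n j * (T.UU f S n (a * 2 ^ n) - U))‖|)) ∧
      ‖T.ι (T.UU f S n (j + 1) - T.ce (xr_N T f U (m 0) n (j + 1)) (T.UU f S n (j + 1)))‖ ^ 2 +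
        ‖T.ι (m (tm n (j + 1)) - T.ce (xr_N T f U (m 0) n (j + 1)) (m (tm n (j + 1))))‖ ^ 2 ≤
      (1 + A * T.dl f n j) *
        (‖T.ι (T.UU f S n j - T.ce (xr_N T f U (m 0) n j) (T.UU f S n j))‖ ^ 2 +
        ‖T.ι (m (tm n j) - T.ce (xr_N T f U (m 0) n j) (m (tm n j)))‖ ^ 2) + A * (E₁ + E₂) := by
    intro j hj
    obtain ⟨Φ, pl, pb, pe⟩ := cov n j hj
    obtain ⟨lam, γ, hl, hγ, u3⟩ := upd n j hj
    obtain ⟨-, l1, l2⟩ := loc n j hj
    have tj : T.te f a ≤ T.te f (tm n j) := h.te_anti (tm_top n a ▸ tm_mono hj.le)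
    have t0 := h.te_pos n j
    have t1 := h.te_le (tm n j)
    have lo : ∀ t, T.te f a * c ≤ T.te f (tm n j) * Φ t := fun t =>
      mul_le_mul tj (pb t).1 hc.le t0.le
    have gl : ∀ s t, |√(T.te f (tm n j) * Φ s) - √(T.te f (tm n j) * Φ t)| ≤ K * |s - t| :=
      fun s t => by
        refine (xr_sqrt (mul_pos ta hc) (lo s) (lo t)).trans (le_trans ?_
          (mul_le_mul_of_nonneg_right k2 (abs_nonneg _)))
        rw [mul_assoc, ← mul_sub, abs_mul, abs_of_pos t0]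
        exact mul_le_mul_of_nonneg_left ((mul_le_of_le_one_left (abs_nonneg _) t1).trans (pl s t))
          (by positivity)
    have gb : ∀ t, |√(T.te f (tm n j) * Φ t)| ≤ K := fun t => by
      rw [abs_of_nonneg (Real.sqrt_nonneg _)]
      exact (Real.sqrt_le_sqrt ((mul_le_of_le_one_left (hc.le.trans (pb t).1) t1).trans
        (pb t).2)).trans k3
    have hβ : ‖((T.bet f S n j : ℝ) : ℂ)‖ ≤ 1 := by
      rw [Complex.norm_real, Real.norm_of_nonneg (h.bet_bd n j).1.le]; exact (h.bet_bd n j).2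
    have l3 : T.n1 (T.sig f S n j * sl f n j * T.sig f S n j - T.UU f S n j *
        sl (fun t => star U * f t * U) n j * star (T.UU f S n j)) ≤
        K₂ * (√(T.dl f n j) * T.er f S n j) +
          2 * (√(T.dl f n j) * |‖T.ι (sl f n j * (T.UU f S n (a * 2 ^ n) - U))‖|) := by
      rw [← sub_add_sub_cancel _ (star (T.vv f S n j) * sl f n j * T.vv f S n j)]
      exact (n1_add _ _).trans (add_le_add (by rwa [← neg_sub, n1_neg]) (xr_pi h hU hj))
    obtain ⟨r1, r2⟩ := xr_err (h.sl_pr n j) hK (h.sig_sa n j) (ph_sa (hm.sa n j) _)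
      (xr_inv h (hm.sa n j) (hm.comm n j) (xr_cont pl) hc (fun t => (pb t).1) pe) (h.uu_norm n j)
      (hm.nm n j) ((sa_one (hm.sa n j)).ph_norm (by linarith) fun t _ => by
        rw [Complex.norm_real]; exact gb t) hβ hl (hγ.trans k1) l1 l3 u3
    refine ⟨_, _, add_nonneg ((n1_nonneg _).trans r1) ((n1_nonneg _).trans r2), by ring,
      st (S (tm n j)) _ _ _ _ _ _ _ _ _ _ _ _ _ _ (h.alg _) (Na n j) (Na n (j + 1)) ?_
        (gen_mono ?_) (h'.sl_pr n j) ?_ (h.pos n j).le (dd n j ▸ cb n j hj) (h.uu_mem n j)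
        (hm.mem n j) (hm.sa n j) (h.uu_norm n j) (hm.nm n j) (h.uu_norm n (j + 1))
        (hm.nm n (j + 1)) gl gb hβ hl (hγ.trans k1) r1 r2⟩
    · refine (h.alg _).toIsW.gen_le ?_
      rintro _ (rfl | rfl | ⟨i, hi, rfl⟩)
      · exact (h.alg _).one
      · exact h.smono _ _ (tm_mono j.zero_le) (by simpa only [tm_zero] using hm.mem n 0)
      · exact h.smono _ _ (tm_mono hi) (h.rot_mem hU n i)
    · rintro _ (rfl | rfl | ⟨i, hi, rfl⟩)
      exacts [.inl rfl, .inr (.inl rfl), .inr (.inr ⟨i, hi.trans j.le_succ, rfl⟩)]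
    · exact (Na n (j + 1)).toIsSub.sub (sub_gen (.inr (.inr ⟨_, le_rfl, rfl⟩)))
        (sub_gen (.inr (.inr ⟨_, j.le_succ, rfl⟩)))
  choose! E₁ E₂ k0 ke ks using key
  have g := gronwall (x := fun j =>
      ‖T.ι (T.UU f S n j - T.ce (xr_N T f U (m 0) n j) (T.UU f S n j))‖ ^ 2 +
        ‖T.ι (m (tm n j) - T.ce (xr_N T f U (m 0) n j) (m (tm n j)))‖ ^ 2)
    (b := fun j => A * |E₁ j + E₂ j|) hA (by positivity) (fun i => (h.pos n i).le)
    (fun _ => by positivity) (h.sum_dl n (a * 2 ^ n))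
    fun i hi => by rw [abs_of_nonneg (k0 i hi)]; exact ks i hi
  have z1 : T.ce (xr_N T f U (m 0) n 0) (T.UU f S n 0) = T.UU f S n 0 :=
    (Na n 0).ce_self (Na n 0).one
  have z2 : T.ce (xr_N T f U (m 0) n 0) (m 0) = m 0 :=
    (Na n 0).ce_self (sub_gen (.inr (.inl rfl)))
  simp only [tm_zero, z1, z2, sub_self, map_zero, norm_zero, zero_pow two_ne_zero, add_zero,
    zero_add] at g
  refine (le_add_of_nonneg_right (by positivity)).trans (g.trans_eq ?_)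
  rw [← mul_sum, sum_congr rfl fun i hi => by
    rw [abs_of_nonneg (k0 i (mem_range.1 hi)), ke i (mem_range.1 hi)]]
  simp only [sum_add_distrib, ← mul_sum]

theorem Fl.recover (h : T.Fl f S M) (hU : T.Lm f S M U) (hm : T.Mk f S m) :
    U ∈ T.gen (insert 1 (insert (m 0) {x | ∃ n j, x = star U * f (tm n j) * U})) := by
  have A := gen1_alg (T := T) (insert (m 0) {x | ∃ n j, x = star U * f (tm n j) * U})
  have k : ∀ a : ℕ, f a * U ∈
      T.gen (insert 1 (insert (m 0) {x | ∃ n j, x = star U * f (tm n j) * U})) := fun a => by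
    refine A.lim (fun n => T.ce (xr_N T f U (m 0) n (a * 2 ^ n)) (T.UU f S n (a * 2 ^ n)) *
      (star U * f a * U)) (fun n => A.mul (gen_mono ?_ ((gen1_alg _).ce_mem _))
        (sub_gen (.inr (.inr ⟨0, a * 2 ^ 0, by rw [tm_top]⟩)))) (lim_iff.2 ?_)
    · rintro _ (rfl | rfl | ⟨i, -, rfl⟩)
      exacts [.inl rfl, .inr (.inl rfl), .inr (.inr ⟨n, i, rfl⟩)]
    have t1 := (xr_main h hU hm a).sqrt
    have t2 := t1.add (lim_iff.1 (hU.lim a))
    simp only [Real.sqrt_zero, add_zero, Real.sqrt_sq (norm_nonneg _)] at t2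
    refine squeeze_zero (fun _ => norm_nonneg _) (fun n => ?_) t2
    obtain ⟨u1, u2⟩ := h.uu_unit n (a * 2 ^ n)
    generalize T.UU f S n (a * 2 ^ n) = u at *
    generalize T.ce (xr_N T f U (m 0) n (a * 2 ^ n)) u = y
    have pf := h.pr a
    have e : y * (star U * f a * U) - f a * U =
        -((u - y) * star U * f a * U) + star (f a * U * star u - f a) * U := by
      simp only [star_sub, star_mul, star_star, pf.st, sub_mul, mul_assoc]; abel
    rw [e, map_add]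
    refine (norm_add_le _ _).trans (add_le_add ?_ (le_of_eq ?_))
    · rw [map_neg, norm_neg, l2_unit' hU.u2]
      refine (T.norm_mul' _ _).trans ((mul_le_of_le_one_left (norm_nonneg _) pf.norm_le).trans ?_)
      rw [l2_unit' (by rw [star_star, hU.u1])]
    · rw [l2_unit' hU.u2, T.norm_star, ← l2_unit' u2, sub_mul, mul_assoc _ (star u), u1, mul_one,
        ← neg_sub, map_neg, norm_neg]
  refine A.lim _ k (lim_iff.2 ?_)
  have := h.full.sqrt
  rw [Real.sqrt_zero] at this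
  refine this.congr fun a => ?_
  rw [show f a * U - U = -((1 - f a) * U) by rw [sub_mul, one_mul, neg_sub], map_neg, norm_neg,
    l2_unit' hU.u2, l2_pr (Pr.one.sub (h.pr _) (one_mul _)), te]

end TW

end Pool.Agent.Lib.MP_263241_an
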