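import Pool.Agent.Lib.MP_263241_an.XB

/-! The data of a free multiplicative convolution with a compressed projection; the state. -/

namespace Pool.Agent.Lib.MP_263241_an

open Filter Topology MeasureTheory TrivSqZeroExt

variable {R H : Type*} [CStarAlgebra R] [NormedAddCommGroup H] [InnerProductSpace ℂ H]

/-- The inverse of `f (1 - u) f` in the corner of `f`. -/
noncomputable def nn (u f : R) : R := Ring.inverse (1 - f * u * f) - (1 - f)

/-- The Schur complement of `1 - u`. -/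
noncomputable def sc (u f : R) : R := (1 - u) - (1 - u) * nn u f * (1 - u)

/-- The state. -/
noncomputable def Stt (ρ u f : R) : R := f + ρ * ((1 - f) - sc u f) * ρ

namespace TW

variable (T : TW R H)

/-- The data. -/
structure TD (r u ρ ρi : R) (c0 : ℝ) : Prop where
  one : T.tau 1 = 1
  c0p : 0 < c0
  rb : Bd r c0 1
  ub : Bd u c0 1
  ρm : ρ ∈ T.gen {1, r}
  ρim : ρi ∈ T.gen {1, r}
  ρs : star ρ = ρ
  ρρ : ρ * ρ = r
  ρ1 : ρ * ρi = 1
  ρ2 : ρi * ρ = 1
  free : T.Free (T.gen {1, r}) (T.gen {1, u})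
  sdu : ∀ n : ℕ, 3 * T.tau (u ^ (n + 1)) = 2 * T.tau (u ^ n) +
    ∑ i ∈ Finset.range n, T.tau (u ^ (i + 1)) * (T.tau (u ^ (n - 1 - i)) - T.tau (u ^ (n - i)))

/-- The information revealed by `f`. -/
def Sf (r m f : R) : Set R := T.gen (insert 1 (insert m ((fun d => d * f) '' T.gen {1, r})))

/-- A closed world for the data. -/
structure Wo (r u : R) (G : Subalgebra ℂ (DA R)) : Prop where
  inv : InvCl G
  w : T.lt (1 - u) 1 1 ∈ G
  d : ∀ d ∈ T.gen {1, r}, inl d ∈ G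
  s1 : ∀ z ∈ G, z.snd.ev u (1 - u) = T.tau (((2 : ℂ) • (1 : R) - (3 : ℂ) • u) * z.fst)
  s2 : ∀ z ∈ G, z.snd.ev (1 - u) u = T.tau (((2 : ℂ) • (1 : R) - (3 : ℂ) • u) * z.fst)

variable {T} {r u ρ ρi f f' : R} {c0 θ : ℝ}

theorem xs_nl {x y : R} (hx : ‖x‖ ≤ 1) : ‖x * y‖ ≤ ‖y‖ :=
  (_root_.norm_mul_le _ _).trans (mul_le_of_le_one_left (norm_nonneg _) hx)

theorem xs_nr {x y : R} (hy : ‖y‖ ≤ 1) : ‖x * y‖ ≤ ‖x‖ :=
  (_root_.norm_mul_le _ _).trans (mul_le_of_le_one_right (norm_nonneg _) hy)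

theorem gap_mono (hf : Pr f) (hf' : Pr f') (h : f' * f = f) : ‖f * u * f‖ ≤ ‖f' * u * f'‖ := by
  have h' : f * f' = f := hf'.comm_of hf h
  have e : f * u * f = f * (f' * u * f') * f := by
    rw [mul_assoc f (f' * u * f'), mul_assoc (f' * u), h, ← mul_assoc, ← mul_assoc, h']
  rw [e]
  exact (xs_nr hf.norm_le).trans (xs_nl hf.norm_le)

section nn

variable (hf : Pr f) (hu : star u = u) (hθ : ‖f * u * f‖ < 1)
include hf hθ

omit hf in
theorem xs_v1 : Ring.inverse (1 - f * u * f) * (1 - f * u * f) = 1 :=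
  Ring.inverse_mul_cancel _ (isUnit_one_sub_of_norm_lt_one hθ)

omit hf in
theorem xs_v2 : (1 - f * u * f) * Ring.inverse (1 - f * u * f) = 1 :=
  Ring.mul_inverse_cancel _ (isUnit_one_sub_of_norm_lt_one hθ)

theorem xs_e1 : nn u f = Ring.inverse (1 - f * u * f) * f := by
  have h : (1 - f * u * f) * (1 - f) = 1 - f := by
    rw [sub_mul, one_mul, mul_sub (f * u * f), mul_one, mul_assoc (f * u), hf.sq, sub_self, sub_zero]
  have h2 : Ring.inverse (1 - f * u * f) * (1 - f) = 1 - f := by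
    conv_lhs => rw [← h, ← mul_assoc, xs_v1 hθ, one_mul]
  rw [nn]
  conv_lhs => rw [← h2]
  rw [mul_sub, mul_one, sub_sub_cancel]

theorem xs_e2 : nn u f = f * Ring.inverse (1 - f * u * f) := by
  have h : (1 - f) * (1 - f * u * f) = 1 - f := by
    rw [mul_sub, mul_one, sub_mul, one_mul, ← mul_assoc, ← mul_assoc, hf.sq, sub_self, sub_zero]
  have h2 : (1 - f) * Ring.inverse (1 - f * u * f) = 1 - f := by
    conv_lhs => rw [← h, mul_assoc, xs_v2 hθ, mul_one]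
  rw [nn]
  conv_lhs => rw [← h2]
  rw [sub_mul, one_mul, sub_sub_cancel]

theorem nn_l : f * nn u f = nn u f := by rw [xs_e2 hf hθ, hf.l]

theorem nn_r : nn u f * f = nn u f := by rw [xs_e1 hf hθ, mul_assoc, hf.sq]

theorem nn_inv_l : nn u f * (1 - u) * f = f := by
  have h : f * (1 - u) * f = (1 - f * u * f) * f := by
    rw [mul_sub, mul_one, sub_mul, sub_mul, one_mul, hf.sq, mul_assoc (f * u), hf.sq]
  rw [xs_e1 hf hθ, mul_assoc _ f, mul_assoc, h, ← mul_assoc, xs_v1 hθ, one_mul]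

theorem nn_inv_r : f * (1 - u) * nn u f = f := by
  have h : f * (1 - u) * f = f * (1 - f * u * f) := by
    rw [mul_sub, mul_one, sub_mul, mul_sub, mul_one, hf.sq, ← mul_assoc, ← mul_assoc, hf.sq]
  rw [xs_e2 hf hθ, ← mul_assoc, h, mul_assoc, xs_v2 hθ, mul_one]

theorem nn_norm : ‖nn u f‖ ≤ (1 - ‖f * u * f‖)⁻¹ := by
  have h : nn u f = f + f * u * f * nn u f := by
    have := nn_inv_r hf hθ
    rw [mul_sub, mul_one, sub_mul, nn_l hf hθ] at this
    rw [mul_assoc (f * u), nn_l hf hθ]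
    exact eq_add_of_sub_eq this
  have h2 : ‖nn u f‖ ≤ 1 + ‖f * u * f‖ * ‖nn u f‖ := by
    conv_lhs => rw [h]
    exact (norm_add_le _ _).trans (add_le_add hf.norm_le (_root_.norm_mul_le _ _))
  rw [← one_div, le_div_iff₀ (by linarith)]
  linarith

theorem sc_l : f * sc u f = 0 := by
  rw [sc, mul_sub, ← mul_assoc, ← mul_assoc, nn_inv_r hf hθ, sub_self]

theorem sc_r : sc u f * f = 0 := by
  rw [sc, sub_mul, mul_assoc (1 - u), mul_assoc (1 - u), nn_inv_l hf hθ, sub_self]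

theorem xs_nwn : nn u f * (1 - u) * nn u f = nn u f := by
  conv_lhs => rw [← nn_l hf hθ]
  rw [← mul_assoc, nn_l hf hθ, nn_inv_l hf hθ, nn_l hf hθ]

theorem xs_us : (1 - f) - sc u f =
    (1 - f) * u * (1 - f) + (1 - f) * ((1 - u) * nn u f * (1 - u)) * (1 - f) := by
  have h1 : sc u f = (1 - f) * sc u f * (1 - f) := by
    rw [sub_mul, one_mul, sc_l hf hθ, sub_zero, mul_sub, mul_one, sc_r hf hθ, sub_zero]
  have h2 : (1 - f) * (1 - f) = 1 - f := (Pr.one.sub hf (one_mul f)).sq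
  rw [h1, sc]
  generalize (1 - u) * nn u f * (1 - u) = X at *
  generalize 1 - f = e at *
  calc e - e * (1 - u - X) * e = e - e * e + (e * u * e + e * X * e) := by noncomm_ring
    _ = _ := by rw [h2, sub_self, zero_add]

theorem xs_pi : sc u f = (1 - (1 - u) * nn u f) * (1 - u) * (1 - nn u f * (1 - u)) := by
  have h := xs_nwn (u := u) hf hθ
  rw [sc]
  generalize 1 - u = w at *
  generalize nn u f = n at *
  calc w - w * n * w = w - w * n * w - w * n * w + w * n * w := by abel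
    _ = w - w * n * w - w * n * w + w * (n * w * n) * w := by rw [h]
    _ = _ := by noncomm_ring

include hu

theorem nn_sa : star (nn u f) = nn u f := by
  have h1 : star (nn u f) * f = star (nn u f) := by
    have := congrArg star (nn_l (u := u) hf hθ)
    rwa [star_mul, hf.st] at this
  have h2 : star (nn u f) * (1 - u) * f = f := by
    have := congrArg star (nn_inv_r (u := u) hf hθ)
    rwa [star_mul, star_mul, star_sub, star_one, hu, hf.st, ← mul_assoc] at this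
  calc star (nn u f) = star (nn u f) * (f * (1 - u) * nn u f) := by rw [nn_inv_r hf hθ, h1]
    _ = star (nn u f) * (1 - u) * f * nn u f := by
      rw [← mul_assoc, ← mul_assoc, h1, mul_assoc _ f, nn_l hf hθ]
    _ = nn u f := by rw [h2, nn_l hf hθ]

theorem sc_sa : star (sc u f) = sc u f := by
  rw [sc, star_sub, star_mul, star_mul, nn_sa hf hu hθ, star_sub, star_one, hu, mul_assoc]

end nn

theorem st_zero : Stt ρ u 0 = ρ * u * ρ := by simp [Stt, sc, nn]

theorem sf_alg (r m f : R) : T.Alg 1 (T.Sf r m f) := gen1_alg _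

theorem sf_mono {m : R} (fD : f ∈ T.gen {1, r}) (h : f' * f = f) (hf : Pr f) (hf' : Pr f') :
    T.Sf r m f ⊆ T.Sf r m f' := by
  refine gen_mono (Set.insert_subset_insert (Set.insert_subset_insert ?_))
  rintro _ ⟨d, hd, rfl⟩
  exact ⟨d * f, (gen_w _).mul hd fD, by
    show d * f * f' = d * f
    rw [mul_assoc, hf'.comm_of hf h]⟩

section st

variable (h : T.TD r u ρ ρi c0) (hf : Pr f) (fD : f ∈ T.gen {1, r}) (hθ : ‖f * u * f‖ < 1)
include h hf fD hθ

omit hf fD hθ in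
theorem TD.xs_comm {x y : R} (hx : x ∈ T.gen {1, r}) (hy : y ∈ T.gen {1, r}) : x * y = y * x := by
  refine gen_comm ?_ hx hy
  rintro a (rfl | rfl) b (rfl | rfl) <;> simp [h.rb.1]

omit h hf fD hθ in
theorem xs_r : r ∈ T.gen {1, r} := sub_gen (by simp)

omit hf fD hθ in
theorem TD.xs_w : Nn (1 - u) := by simpa using (bd_iff.1 h.ub).2

omit hf fD hθ in
theorem TD.xs_c1 : c0 ≤ 1 := by
  have h1 := nn_tau (T := T) ((bd_iff.1 h.rb).1.add (bd_iff.1 h.rb).2) Pr.one.nn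
  have e : r - (c0 : ℂ) • (1 : R) + (((1 : ℝ) : ℂ) • (1 : R) - r) = ((1 - c0 : ℝ) : ℂ) • (1 : R) := by
    push_cast; module
  rw [e, mul_one, map_smul, h.one, smul_eq_mul, mul_one, Complex.ofReal_re] at h1
  linarith [h1.2]

theorem TD.st_l : f * Stt ρ u f = f := by
  rw [Stt, mul_add, hf.sq, ← mul_assoc, ← mul_assoc, h.xs_comm fD h.ρm, mul_assoc ρ, mul_sub f,
    sc_l hf hθ, mul_sub f, mul_one, hf.sq]
  simp

theorem TD.st_r : Stt ρ u f * f = f := by
  rw [Stt, add_mul, hf.sq, mul_assoc, h.xs_comm h.ρm fD, ← mul_assoc, mul_assoc ρ, sub_mul,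
    sc_r hf hθ, sub_mul, one_mul, hf.sq]
  simp

theorem TD.st_bd : Bd (Stt ρ u f) (c0 ^ 2) 1 := by
  have hu := h.ub.1
  have he : Pr (1 - f) := Pr.one.sub hf (one_mul f)
  have c1 : ρ * (1 - f) = (1 - f) * ρ := by
    rw [mul_sub, sub_mul, mul_one, one_mul, h.xs_comm h.ρm fD]
  have hw : star (1 - u) = 1 - u := by rw [star_sub, star_one, hu]
  have c2 : ρ * (1 - f) * ((1 - f) * ρ) = (1 - f) * r * (1 - f) := by
    rw [← h.ρρ]
    conv_lhs => rw [c1]
    conv_lhs => rw [← c1]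
    simp only [mul_assoc, c1]
  have c3 : ρ * (1 - f) * ρ = (1 - f) * r * (1 - f) := by
    rw [← c2, mul_assoc, mul_assoc, he.l]
  refine bd_iff.2 ⟨?_, ?_⟩
  · have hn : Nn (nn u f) := by
      have := h.xs_w.conj (nn u f)
      rwa [nn_sa hf hu hθ, xs_nwn hf hθ] at this
    have a1 := hf.nn.smul (c := 1 - c0 ^ 2) (by nlinarith [h.xs_c1, h.c0p])
    have a2 := (bd_iff.1 h.ub).1.conj ((1 - f) * ρ)
    have a3 := ((bd_iff.1 h.rb).1.conj (1 - f)).smul h.c0p.le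
    have a4 := hn.conj ((1 - u) * (1 - f) * ρ)
    convert (a1.add a2).add (a3.add a4) using 1
    rw [Stt, xs_us hf hθ, star_mul, star_mul, star_mul, he.st, h.ρs, hw]
    have c4 := he.sq
    have c5 : f = 1 - (1 - f) := (sub_sub_cancel 1 f).symm
    generalize 1 - u = w at *
    generalize nn u f = n at *
    generalize 1 - f = e at *
    rw [c5]
    simp only [mul_sub, sub_mul, mul_add, add_mul, mul_smul_comm, smul_mul_assoc, mul_one, c2, c4]
    simp only [mul_assoc]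
    push_cast
    module
  · have a1 := (bd_iff.1 h.rb).2.conj (1 - f)
    have a2 := (h.xs_w.conj (1 - nn u f * (1 - u))).conj ρ
    convert a1.add a2 using 1
    rw [star_sub 1 (nn u f * (1 - u)), star_one, star_mul, hw, nn_sa hf hu hθ, ← xs_pi hf hθ, he.st,
      h.ρs, Stt, mul_sub ρ, sub_mul _ _ ρ, c3, mul_sub (1 - f), sub_mul _ _ (1 - f)]
    simp only [Complex.ofReal_one, one_smul, mul_one, he.sq]
    abel

theorem TD.st_mem : Stt ρ u f ∈ T.Sf r (ρ * u * ρ) f := by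
  have hA := sf_alg (T := T) r (ρ * u * ρ) f
  have hm : ρ * u * ρ ∈ T.Sf r (ρ * u * ρ) f := sub_gen (by simp)
  have hd : ∀ d ∈ T.gen {1, r}, d * f ∈ T.Sf r (ρ * u * ρ) f := fun d hd =>
    sub_gen (.inr (.inr ⟨d, hd, rfl⟩))
  have hfm : f ∈ T.Sf r (ρ * u * ρ) f := by simpa using hd 1 (sub_gen (by simp))
  have he : 1 - f ∈ T.Sf r (ρ * u * ρ) f := hA.toIsSub.sub hA.one hfm
  have hi := hd ρi h.ρim
  have c1 : ρ * f = f * ρ := h.xs_comm h.ρm fD
  have c2 : ρi * f = f * ρi := h.xs_comm h.ρim fD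
  have c3 : ρ * (1 - f) = (1 - f) * ρ := by rw [mul_sub, sub_mul, mul_one, one_mul, c1]
  have r1 : ρ * (ρi * f) = f := by rw [← mul_assoc, h.ρ1, one_mul]
  have r2 : ρi * f * ρ = f := by rw [c2, mul_assoc, h.ρ2, mul_one]
  have hx : f * u * f ∈ T.Sf r (ρ * u * ρ) f := by
    have e0 : ρi * f * (ρ * u * ρ) * (ρi * f) = ρi * f * ρ * u * (ρ * (ρi * f)) := by
      simp only [mul_assoc]
    have := hA.mul (hA.mul hi hm) hi
    rwa [e0, r1, r2] at this
  have hp : ∀ k : ℕ, (f * u * f) ^ k ∈ T.Sf r (ρ * u * ρ) f := fun k => by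
    induction k with
    | zero => simpa using hA.one
    | succ k ih => rw [pow_succ]; exact hA.mul ih hx
  have hv : Ring.inverse (1 - f * u * f) ∈ T.Sf r (ρ * u * ρ) f :=
    hA.lim (fun n => ∑ k ∈ Finset.range n, (f * u * f) ^ k)
      (fun n => hA.toIsSub.sum _ fun k _ => hp k)
      (Lim.of_norm (hasSum_geom_series_inverse _ hθ).tendsto_sum_nat)
  have hn : nn u f ∈ T.Sf r (ρ * u * ρ) f := hA.toIsSub.sub hv he
  have e1 : ρ * (1 - f) * (1 - u) * f = -((1 - f) * (ρ * u * ρ) * (ρi * f)) := by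
    rw [mul_assoc (1 - f), mul_assoc (ρ * u), r1, mul_sub (ρ * (1 - f)), sub_mul, mul_one,
      mul_assoc ρ (1 - f) f, sub_mul 1 f f, one_mul, hf.sq, sub_self, mul_zero, zero_sub, c3]
    simp only [mul_assoc]
  have e2 : f * ((1 - u) * (1 - f) * ρ) = -(ρi * f * (ρ * u * ρ) * (1 - f)) := by
    rw [← mul_assoc (ρi * f), ← mul_assoc (ρi * f), r2, sub_mul 1 u, one_mul, sub_mul, mul_sub f,
      ← mul_assoc f (1 - f), mul_sub f 1 f, mul_one, hf.sq, sub_self, zero_mul, zero_sub,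
      mul_assoc (f * u), c3]
    simp only [mul_assoc]
  have e3 : ρ * ((1 - f) - sc u f) * ρ = (1 - f) * (ρ * u * ρ) * (1 - f) +
      (1 - f) * (ρ * u * ρ) * (ρi * f) * nn u f * (ρi * f * (ρ * u * ρ) * (1 - f)) := by
    rw [xs_us hf hθ, mul_add, add_mul, ← neg_mul_neg (_ * (ρi * f) * nn u f), neg_mul_eq_neg_mul, ← e1, ← e2,
      mul_assoc _ f (nn u f), nn_l hf hθ, ← mul_assoc _ f, mul_assoc _ (nn u f) f, nn_r hf hθ]
    congr 1
    · rw [← mul_assoc ρ, ← mul_assoc ρ, mul_assoc _ (1 - f) ρ, ← c3, c3, mul_assoc, ← c3, c3]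
      simp only [mul_assoc, c3]
    · simp only [mul_assoc]
  rw [Stt, e3]
  exact hA.add hfm (hA.add (hA.mul (hA.mul he hm) he)
    (hA.mul (hA.mul (hA.mul (hA.mul he hm) hi) hn) (hA.mul (hA.mul hi hm) he)))

end st

theorem xs_core {q A B E N : R} {K o X : ℝ} (hq : Pr q) (hK : 0 < K) (ho : 0 ≤ o) (hX : 0 ≤ X)
    (hA : ‖A‖ ≤ 2) (hB : ‖B‖ ≤ 2) (hN : ‖N‖ ≤ K) (n1 : q * N = N) (n2 : N * q = N)
    (e1 : A * q = B * q + E) (e2 : q * A = q * B + E) (e3 : E * q = E) (e4 : q * A * N = q)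
    (hE : ‖T.ι E‖ ≤ o * ‖T.ι q‖) (hd : ‖T.ι (T.dev q A)‖ ≤ X) :
    ∃ γ : ℂ, ‖γ‖ ≤ 2 * K ∧ T.n1 (A * N * A - γ • (B * q * B) - E) ≤
      (1 + 4 * K) * (o * ‖T.ι q‖ * ‖T.ι q‖) + 8 * K ^ 2 * (‖T.ι q‖ * X) := by
  set a := ‖T.ι q‖ with ha
  have a0 : 0 ≤ a := norm_nonneg _
  have hNq : ‖T.ι N‖ ≤ K * a := by
    rw [← n2]; exact (T.norm_mul _ _).trans (mul_le_mul_of_nonneg_right hN a0)
  have key : ∃ γ : ℂ, ‖γ‖ ≤ 2 * K ∧ T.n1 (N - γ • q) ≤ 2 * K ^ 2 * (a * X) := by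
    set s := T.tau (q * A) / T.tau q with hs
    have hq2 : q = s • N + T.dev q A * N := by
      rw [dev, ← hs, sub_mul, smul_mul_assoc, n1, mul_assoc _ q, n1, e4]; abel
    by_cases hc : (2 * K)⁻¹ ≤ ‖s‖
    · have hs0 : 0 < ‖s‖ := lt_of_lt_of_le (by positivity) hc
      have hs1 : s ≠ 0 := norm_pos_iff.1 hs0
      have hg : ‖s⁻¹‖ ≤ 2 * K := by
        rw [norm_inv]; exact inv_le_of_inv_le₀ (by positivity) hc
      refine ⟨s⁻¹, hg, ?_⟩
      have : N - s⁻¹ • q = (-s⁻¹) • (T.dev q A * N) := by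
        conv_lhs => rw [hq2]
        rw [smul_add, smul_smul, inv_mul_cancel₀ hs1, one_smul, neg_smul]; abel
      rw [this, n1_smul, norm_neg]
      have h3 := (n1_mul (T := T) (T.dev q A) N).trans (mul_le_mul hd hNq (norm_nonneg _) hX)
      calc _ ≤ 2 * K * (X * (K * a)) := mul_le_mul hg h3 (n1_nonneg _) (by positivity)
        _ = _ := by ring
    · refine ⟨0, by simp; positivity, ?_⟩
      have h3 : a ≤ ‖s‖ * (K * a) + K * X := by
        calc a = ‖T.ι (s • N + T.dev q A * N)‖ := by rw [← hq2]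
          _ ≤ ‖s‖ * ‖T.ι N‖ + ‖T.ι (T.dev q A * N)‖ := by
            rw [map_add, map_smul, ← norm_smul]; exact norm_add_le _ _
          _ ≤ _ := add_le_add (mul_le_mul_of_nonneg_left hNq (norm_nonneg _))
            ((T.norm_mul' _ _).trans (mul_le_mul hN hd (norm_nonneg _) hK.le))
      have h4 : ‖s‖ * (K * a) ≤ a / 2 := by
        have := mul_le_mul_of_nonneg_right (not_le.1 hc).le (show 0 ≤ K * a by positivity)
        calc _ ≤ _ := this
          _ = a / 2 := by field_simp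
      have h5 : a ≤ 2 * K * X := by linarith
      rw [zero_smul, sub_zero, ← n1]
      calc _ ≤ a * ‖T.ι N‖ := n1_mul q N
        _ ≤ (2 * K * X) * (K * a) := mul_le_mul h5 hNq (norm_nonneg _) (by positivity)
        _ = _ := by ring
  obtain ⟨γ, hγ, hk⟩ := key
  refine ⟨γ, hγ, ?_⟩
  have f1 : A * N = B * N + E * N := by rw [← n1, ← mul_assoc, e1, add_mul, mul_assoc, n1]
  have f2 : N * A = N * B + N * E := by rw [← n2, mul_assoc, e2, mul_add, ← mul_assoc, n2]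
  have e : A * N * A - γ • (B * q * B) - E =
      B * (N - γ • q) * B + (B * N * E + E * (N * A)) - E * q := by
    rw [f1, add_mul, mul_assoc B N A, f2, e3, mul_sub, sub_mul, mul_smul_comm, smul_mul_assoc,
      mul_add, mul_assoc E N A, f2]
    simp only [mul_assoc]
    abel
  have oa : 0 ≤ o * a := by positivity
  have b1 : T.n1 (B * (N - γ • q) * B) ≤ 2 * (2 * K ^ 2 * (a * X)) * 2 :=
    (n1_mul_r _ _).trans (mul_le_mul ((n1_mul_l _ _).trans
      (mul_le_mul hB hk (n1_nonneg _) zero_le_two)) hB (norm_nonneg _) (by positivity))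
  have b2 : T.n1 (B * N * E) ≤ 2 * (K * a) * (o * a) :=
    (n1_mul _ _).trans (mul_le_mul ((T.norm_mul _ _).trans
      (mul_le_mul hB hNq (norm_nonneg _) zero_le_two)) hE (norm_nonneg _) (by positivity))
  have b3 : T.n1 (E * (N * A)) ≤ (o * a) * (2 * (K * a)) :=
    (n1_mul _ _).trans (mul_le_mul hE ((T.norm_mul' _ _).trans
      (mul_le_mul hA hNq (norm_nonneg _) zero_le_two)) (norm_nonneg _) oa)
  have b4 : T.n1 (E * q) ≤ (o * a) * a :=
    (n1_mul _ _).trans (mul_le_mul_of_nonneg_right hE a0)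
  rw [e]
  calc _ ≤ _ := n1_sub _ _
    _ ≤ _ := add_le_add ((n1_add _ _).trans (add_le_add b1 ((n1_add _ _).trans
      (add_le_add b2 b3)))) b4
    _ = _ := by ring

theorem xs_upd (hf : Pr f) (hf' : Pr f') (h : f' * f = f) (hθ : ‖f * u * f‖ < 1)
    (hθ' : ‖f' * u * f'‖ < 1) :
    sc u f - sc u f' = sc u f * ((f' - f) * nn u f' * (f' - f)) * sc u f ∧
      (f' - f) * sc u f * ((f' - f) * nn u f' * (f' - f)) = f' - f := by
  have h' : f * f' = f := hf'.comm_of hf h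
  have s1 := sc_l hf hθ
  have s2 := sc_r hf hθ
  have a1 : nn u f * (1 - u) * nn u f' = nn u f := by
    have : nn u f * f' = nn u f := by rw [← nn_r hf hθ, mul_assoc, h']
    rw [← this, mul_assoc _ f', mul_assoc (nn u f), nn_inv_r hf' hθ']
  have a2 : nn u f' * (1 - u) * nn u f = nn u f := by
    rw [← nn_l hf hθ, ← h, mul_assoc f', ← mul_assoc _ f', nn_inv_l hf' hθ', h]
  have a3 := xs_nwn (u := u) hf hθ
  have b1 : sc u f * (f' - f) * nn u f' = (1 - u) * (nn u f' - nn u f) := by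
    rw [mul_sub _ f', s2, sub_zero, mul_assoc, nn_l hf' hθ', sc, sub_mul _ _ (nn u f'),
      mul_sub (1 - u), mul_assoc (1 - u), mul_assoc (1 - u), a1]
  have b2 : (nn u f' - nn u f) * ((f' - f) * sc u f) = (nn u f' - nn u f) * (1 - u) := by
    have : (nn u f' - nn u f) * f' = nn u f' - nn u f := by
      rw [sub_mul, nn_r hf' hθ', ← nn_r hf hθ, mul_assoc, h']
    rw [sub_mul f', s1, sub_zero, ← mul_assoc, this, sc, mul_sub _ (1 - u), ← mul_assoc,
      ← mul_assoc, sub_mul _ _ (1 - u), sub_mul _ _ (nn u f), a2, a3, sub_self, zero_mul, sub_zero]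
  have hq := hf'.sub hf h
  constructor
  · rw [← mul_assoc, ← mul_assoc, b1, mul_assoc, mul_assoc, b2, sc, sc]
    noncomm_ring
  · have c1 : (f' - f) * (1 - u) * nn u f' = f' - f := by
      have : (f' - f) * f' = f' - f := by rw [sub_mul, hf'.sq, h']
      rw [← this, mul_assoc _ f', mul_assoc (f' - f), nn_inv_r hf' hθ']
    have c2 : nn u f * (f' - f) = 0 := by
      rw [← nn_r hf hθ, mul_assoc, mul_sub, h', hf.sq, sub_self, mul_zero]
    rw [mul_assoc, ← mul_assoc (sc u f), ← mul_assoc (sc u f), b1, ← mul_assoc, ← mul_assoc,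
      mul_sub _ (nn u f'), c1, sub_mul, hq.sq, mul_assoc, c2, mul_zero, sub_zero]

/-- The update of the state. -/
theorem TD.update (h : T.TD r u ρ ρi c0) (hθ : θ < 1) : ∃ K : ℝ, 0 ≤ K ∧ ∀ f f' : R, Pr f → Pr f' →
    f ∈ T.gen {1, r} → f' ∈ T.gen {1, r} → f' * f = f → ‖f' * u * f'‖ ≤ θ →
    ‖T.ι (Stt ρ u f' - Stt ρ u f)‖ ≤ K * ‖T.ι (f' - f)‖ ∧
    ∀ (lam : ℂ) (o : ℝ), ‖lam‖ ≤ 1 → 0 ≤ o →
      ‖T.ι ((r - lam • (1 : R)) * (f' - f))‖ ≤ o * ‖T.ι (f' - f)‖ → ∃ γ : ℂ, ‖γ‖ ≤ K ∧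
      T.n1 (Stt ρ u f' - (Stt ρ u f + (1 - lam) • (f' - f) +
        γ • ((lam • (1 : R) - Stt ρ u f) * (f' - f) * (lam • (1 : R) - Stt ρ u f)))) ≤
        K * ‖T.ι (f' - f)‖ * (o * ‖T.ι (f' - f)‖ + ‖T.ι (T.dev (f' - f) (Stt ρ u f))‖) := by
  have hθ0 : 0 < 1 - θ := by linarith
  obtain ⟨K, hK, hK0⟩ : ∃ K : ℝ, ‖ρi‖ * (1 - θ)⁻¹ * ‖ρi‖ ≤ K ∧ 0 < K :=
    ⟨‖ρi‖ * (1 - θ)⁻¹ * ‖ρi‖ + 1, by linarith, by positivity⟩
  refine ⟨2 + 4 * K + 8 * K ^ 2, by positivity, fun f f' hf hf' fD fD' hff hg => ?_⟩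
  have hθ' : ‖f' * u * f'‖ < 1 := hg.trans_lt hθ
  have hθf : ‖f * u * f‖ < 1 := (gap_mono hf hf' hff).trans_lt hθ'
  obtain ⟨u1, u2⟩ := xs_upd hf hf' hff hθf hθ'
  have hq := hf'.sub hf hff
  have qD : f' - f ∈ T.gen {1, r} := (gen_w _).toIsSub.sub fD' fD
  have hfq : f * (f' - f) = 0 := by rw [mul_sub, hf'.comm_of hf hff, hf.sq, sub_self]
  have hqf : (f' - f) * f = 0 := hf.orth hq hfq
  have hM := h.st_bd hf fD hθf
  have hMn : ‖Stt ρ u f‖ ≤ 1 := hM.norm_le zero_le_one (by nlinarith [sq_nonneg c0]) le_rfl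
  have hrn : ‖r‖ ≤ 1 := h.rb.norm_le zero_le_one (by linarith [h.c0p]) le_rfl
  have hnn : ‖nn u f'‖ ≤ (1 - θ)⁻¹ :=
    (nn_norm hf' hθ').trans (inv_anti₀ hθ0 (by linarith))
  have hM' : Stt ρ u f' - Stt ρ u f = (f' - f) - ρ * (f' - f) * ρ + ρ * (sc u f - sc u f') * ρ := by
    rw [Stt, Stt]; noncomm_ring
  have hSg : ρ * sc u f * ρ = r - ρ * f * ρ + f - Stt ρ u f := by
    rw [Stt, ← h.ρρ]; noncomm_ring
  have c1 : ρ * (f' - f) = (f' - f) * ρ := h.xs_comm h.ρm qD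
  have c2 : ρi * (f' - f) = (f' - f) * ρi := h.xs_comm h.ρim qD
  have c3 : r * (f' - f) = (f' - f) * r := h.xs_comm xs_r qD
  generalize f' - f = q at *
  generalize nn u f' = n at *
  generalize Stt ρ u f = M at *
  generalize Stt ρ u f' = M' at *
  generalize sc u f' = s' at *
  generalize sc u f = s at *
  have g1 : ρ * s * ρ * q = (r - M) * q := by
    rw [hSg, sub_mul, add_mul, sub_mul, hfq, mul_assoc _ ρ q, c1, ← mul_assoc, mul_assoc ρ f, hfq,
      sub_mul]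
    simp
  have g2 : q * (ρ * s * ρ) = q * (r - M) := by
    rw [hSg, mul_sub, mul_add, mul_sub, hqf, ← mul_assoc, ← mul_assoc, ← c1, mul_assoc ρ q, hqf,
      mul_sub]
    simp
  obtain ⟨N, hNd⟩ : ∃ N, N = ρi * (q * n * q) * ρi := ⟨_, rfl⟩
  have n1 : q * N = N := by
    rw [hNd, ← mul_assoc, ← mul_assoc, ← c2, mul_assoc ρi, mul_assoc q n, hq.l]
  have n2 : N * q = N := by
    rw [hNd, mul_assoc _ ρi q, c2, ← mul_assoc, mul_assoc ρi _ q, mul_assoc _ q q, hq.sq]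
  have hN : ‖N‖ ≤ K := by
    rw [hNd]
    refine (_root_.norm_mul_le _ _).trans (le_trans ?_ hK)
    refine mul_le_mul_of_nonneg_right ((_root_.norm_mul_le _ _).trans ?_) (norm_nonneg _)
    exact mul_le_mul_of_nonneg_left (((xs_nr hq.norm_le).trans (xs_nl hq.norm_le)).trans hnn)
      (norm_nonneg _)
  have r1 : ∀ x, ρ * (ρi * x) = x := fun x => by rw [← mul_assoc, h.ρ1, one_mul]
  have r2 : ∀ x, ρi * (ρ * x) = x := fun x => by rw [← mul_assoc, h.ρ2, one_mul]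
  have g3 : ρ * (s - s') * ρ = (r - M) * N * (r - M) := by
    calc ρ * (s - s') * ρ = ρ * s * ρ * N * (ρ * s * ρ) := by
          rw [u1, hNd]; simp only [mul_assoc, r1, r2]
      _ = ρ * s * ρ * q * N * (q * (ρ * s * ρ)) := by
          rw [mul_assoc _ q N, n1, ← mul_assoc _ q, mul_assoc _ N q, n2]
      _ = _ := by rw [g1, g2, mul_assoc _ q N, n1, ← mul_assoc _ q, mul_assoc _ N q, n2]
  have g4 : q * (r - M) * N = q := by
    calc q * (r - M) * N = ρ * (q * s * (q * n * q)) * ρi := by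
          rw [← g2, hNd, ← mul_assoc q, ← mul_assoc q, ← c1]; simp only [mul_assoc, r1]
      _ = q := by rw [u2, c1, mul_assoc, h.ρ1, mul_one]
  have g5 : ρ * q * ρ = r * q := by rw [mul_assoc, ← c1, ← mul_assoc, h.ρρ]
  rw [g3, g5] at hM'
  have hA : ‖r - M‖ ≤ 2 := (norm_sub_le _ _).trans (by linarith)
  have a0 : 0 ≤ ‖T.ι q‖ := norm_nonneg _
  refine ⟨?_, fun lam o hl ho hE => ?_⟩
  · have b1 : ‖T.ι (r * q)‖ ≤ 1 * ‖T.ι q‖ :=
      (T.norm_mul _ _).trans (mul_le_mul_of_nonneg_right hrn a0)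
    have b2 : ‖T.ι N‖ ≤ K * ‖T.ι q‖ := by
      rw [← n2]; exact (T.norm_mul _ _).trans (mul_le_mul_of_nonneg_right hN a0)
    have b3 : ‖T.ι ((r - M) * N * (r - M))‖ ≤ 2 * (2 * (K * ‖T.ι q‖)) :=
      (T.norm_mul' _ _).trans (mul_le_mul hA ((T.norm_mul _ _).trans
        (mul_le_mul hA b2 (norm_nonneg _) zero_le_two)) (norm_nonneg _) zero_le_two)
    rw [hM', map_add, map_sub]
    refine (norm_add_le _ _).trans ((add_le_add (norm_sub_le _ _) b3).trans ?_)
    nlinarith [mul_nonneg (sq_nonneg K) a0]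
  · have hl1 : ‖lam • (1 : R)‖ ≤ 1 := by
      rw [norm_smul]; exact mul_le_one₀ hl (norm_nonneg _) Pr.one.norm_le
    have hB : ‖lam • (1 : R) - M‖ ≤ 2 := (norm_sub_le _ _).trans (by linarith)
    have c4 : q * (r - lam • (1 : R)) = (r - lam • (1 : R)) * q := by
      rw [mul_sub, sub_mul, c3, mul_smul_comm, smul_mul_assoc, mul_one, one_mul]
    have hd : ‖T.ι (T.dev q (r - M))‖ ≤ o * ‖T.ι q‖ + ‖T.ι (T.dev q M)‖ := by
      have : T.dev q r = T.dev q (r - lam • (1 : R)) := by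
        rw [dev_sub, dev_smul, dev_one hq, smul_zero, sub_zero]
      rw [dev_sub, this, map_sub]
      refine (norm_sub_le _ _).trans (add_le_add ((dev_le' hq _).trans ?_) le_rfl)
      rwa [c4]
    obtain ⟨γ, hγ, hb⟩ := xs_core (T := T) (A := r - M) (B := lam • (1 : R) - M)
      (E := (r - lam • (1 : R)) * q) hq hK0 ho (by positivity) hA hB hN n1 n2
      (by rw [← add_mul]; congr 1; abel) (by rw [← c4, ← mul_add]; congr 1; abel)
      (by rw [mul_assoc, hq.sq]) g4 hE hd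
    refine ⟨γ, hγ.trans (by nlinarith [sq_nonneg K]), ?_⟩
    have e : M' - (M + (1 - lam) • q + γ • ((lam • (1 : R) - M) * q * (lam • (1 : R) - M))) =
        (r - M) * N * (r - M) - γ • ((lam • (1 : R) - M) * q * (lam • (1 : R) - M)) -
          (r - lam • (1 : R)) * q := by
      rw [eq_add_of_sub_eq hM', sub_mul r _ q, smul_mul_assoc, one_mul, sub_smul, one_smul]
      abel
    rw [e]
    refine hb.trans ?_
    have d0 := norm_nonneg (T.ι (T.dev q M))
    generalize ‖T.ι (T.dev q M)‖ = d at *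
    generalize ‖T.ι q‖ = a at *
    have p1 : 0 ≤ o * a * a := by positivity
    have p2 : 0 ≤ a * d := by positivity
    have p3 : 0 ≤ K * (a * d) := by positivity
    nlinarith

end TW

end Pool.Agent.Lib.MP_263241_an
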