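import Pool.Agent.Lib.MP_263241_an.XO

/-! Subordination. -/

namespace Pool.Agent.Lib.MP_263241_an

open Filter Topology MeasureTheory TrivSqZeroExt
open scoped ComplexConjugate

variable {R H : Type*} [CStarAlgebra R] [NormedAddCommGroup H] [InnerProductSpace ℂ H]

theorem xu_cont {z : ℂ} (hz : z.im ≠ 0) : Continuous fun t : ℝ => (z - t)⁻¹ :=
  Continuous.inv₀ (by fun_prop) fun t ht => hz (by simpa using congrArg Complex.im ht)

/-- The resolvent. -/
theorem xu_res {x : R} (hx : star x = x) {z : ℂ} (hz : z.im ≠ 0) :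
    (Ph 1 x fun t => (z - t)⁻¹) * (z • (1 : R) - x) = 1 ∧
      (z • (1 : R) - x) * (Ph 1 x fun t => (z - t)⁻¹) = 1 ∧
      (Ph 1 x fun t => t / (z - t)) = x * Ph 1 x fun t => (z - t)⁻¹ := by
  have hs := sa_one hx
  have hne : ∀ t : ℝ, z - t ≠ 0 := fun t ht => hz (by simpa using congrArg Complex.im ht)
  have h1 : (Ph 1 x fun t => z - t) = z • (1 : R) - x := by
    rw [SA.ph_sub (by fun_prop) (by fun_prop), hs.ph_const, hs.ph_id]
  have h2 : (Ph 1 x fun _ => (1 : ℂ)) = 1 := by rw [hs.ph_const, one_smul]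
  refine ⟨?_, ?_, ?_⟩
  · rw [← h1, ← hs.ph_mul (xu_cont hz) (by fun_prop)]
    exact (hs.ph_congr fun t _ => inv_mul_cancel₀ (hne t)).trans h2
  · rw [← h1, ← hs.ph_mul (by fun_prop) (xu_cont hz)]
    exact (hs.ph_congr fun t _ => mul_inv_cancel₀ (hne t)).trans h2
  · have h3 := hs.ph_mul (f := fun t => (t : ℂ)) (by fun_prop) (xu_cont hz)
    rw [hs.ph_id] at h3
    rw [← h3]
    exact hs.ph_congr fun t _ => div_eq_mul_inv _ _

namespace TW

variable {T : TW R H} {r u ρ ρi f : R} {c0 : ℝ}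

theorem xu_comm (h : T.TD r u ρ ρi c0) {x y : R} (hx : x ∈ T.gen {1, r}) (hy : y ∈ T.gen {1, r}) :
    x * y = y * x := by
  refine gen_comm ?_ hx hy
  rintro _ (rfl | rfl) _ (rfl | rfl) <;> simp [h.rb.1]

theorem xu_pos {M y : R} {c C : ℝ} (hM : Bd M c C) (hc : 0 < c)
    (h0 : T.tau (star y * M * y) = 0) : y = 0 := by
  have hs := sa_one hM.1
  have e1 : (Ph 1 M fun t => ((√t : ℝ) : ℂ)) * (Ph 1 M fun t => ((√t : ℝ) : ℂ)) = M := by
    rw [← hs.ph_mul (by fun_prop) (by fun_prop)]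
    refine (hs.ph_congr fun t ht => ?_).trans hs.ph_id
    rw [← Complex.ofReal_mul, Real.mul_self_sqrt (hc.le.trans (hM.2 t ht).1)]
  have e2 := ph_sa hM.1 fun t => √t
  generalize (Ph 1 M fun t => ((√t : ℝ) : ℂ)) = s at e1 e2
  have e3 : s * y = 0 := T.eq_zero_of_tau (by
    rw [star_mul, e2, mul_assoc, ← mul_assoc s, e1, ← mul_assoc, h0])
  have e4 : M * y = 0 := by rw [← e1, mul_assoc, e3, mul_zero]
  exact ((hM.isUnit hc).mul_right_eq_zero).1 e4

/-- The dual element of the first derivation. -/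
theorem xu_d1 {G : Subalgebra ℂ (DA R)} (h : T.TD r u ρ ρi c0) (hG : T.Wo r u G) (hf : Pr f)
    (fD : f ∈ T.gen {1, r}) (hθ : ‖f * u * f‖ < 1) {p : DA R} (hp : p ∈ G) :
    p.snd.ev (1 - f) ((1 - (1 - u) * nn u f) * u * (1 - u)) =
      (1 + T.tau f + T.tau (sc u f)) * T.tau (p.fst * (1 - f)) -
        2 * T.tau (p.fst * ((1 - f) - sc u f)) := by
  obtain ⟨v, -, hv, hL, -⟩ := h.rules hG
  have eD : 1 - f ∈ T.gen {1, r} := (gen_w _).sub (sub_gen (by simp)) fD
  have hπ := h.pi_hat hG hf fD hθ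
  have hu : 1 - T.lt (1 - u) 1 1 ∈ G := G.sub_mem G.one_mem hG.w
  have hw := DA.weight (inl (1 - f)) p
    (T.lt (1 - (1 - u) * nn u f) (-(1 - (1 - u) * nn u f)) (nn u f) * (1 - T.lt (1 - u) 1 1)) 1
    (1 - u)
  rw [hL _ (G.mul_mem (G.mul_mem (hG.d _ eD) hp) (G.mul_mem hπ hu)), DA.snd_mul] at hw
  simp only [fst_inl, snd_inl, fst_mul, fst_sub, fst_one, snd_sub, snd_one, lt_fst, lt_snd,
    sub_sub_cancel, one_mul, mul_one, Bf.ev_zero, Bf.ev_neg, LinearMap.zero_apply,
    LinearMap.neg_apply, bil_ev, sub_zero, zero_sub, mul_neg, map_neg] at hw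
  rw [hw]
  have n1 : nn u f * f = nn u f := nn_r hf hθ
  have n2 : f * nn u f = nn u f := nn_l hf hθ
  have n3 : nn u f * (1 - u) * f = f := nn_inv_l hf hθ
  have s1 : sc u f * f = 0 := sc_r hf hθ
  have a1 : (1 - (1 - u) * nn u f) * (1 - f) = 1 - f := by
    have : (1 - (1 - u) * nn u f) * (1 - f) = 1 - f - (1 - u) * (nn u f - nn u f * f) := by
      noncomm_ring
    rw [this, n1, sub_self, mul_zero, sub_zero]
  have a2 : (1 - (1 - u) * nn u f) * u * (1 - f) = (1 - f) - sc u f := by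
    have : (1 - (1 - u) * nn u f) * u * (1 - f) =
        (1 - (1 - u) * nn u f) * (1 - f) - (sc u f - sc u f * f) := by
      unfold sc
      noncomm_ring
    rw [this, a1, s1, sub_zero]
  have t1 : T.tau ((1 - f) * p.fst * (1 - (1 - u) * nn u f)) = T.tau (p.fst * (1 - f)) := by
    rw [mul_assoc, T.tau_comm, mul_assoc, a1]
  have t2 : T.tau ((v - (2 : ℂ) • (1 : R)) * ((1 - f) * p.fst * ((1 - (1 - u) * nn u f) * u))) =
      T.tau (p.fst * (1 - f)) - 2 * T.tau (p.fst * ((1 - f) - sc u f)) := by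
    rw [sub_mul, map_sub, smul_mul_assoc, one_mul, map_smul, smul_eq_mul, T.tau_comm v,
      mul_assoc, mul_assoc _ u, hv, mul_one, t1, mul_assoc, T.tau_comm (1 - f), mul_assoc, a2]
  have t3 : T.tau (nn u f * (u * (1 - u))) + T.tau (1 - u) = T.tau f + T.tau (sc u f) := by
    have e1 : T.tau (nn u f * (1 - u)) = T.tau f := by
      rw [← n2, mul_assoc, T.tau_comm, n3]
    have e2 : nn u f * (u * (1 - u)) = nn u f * (1 - u) - nn u f * (1 - u) * (1 - u) := by
      noncomm_ring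
    rw [e2, map_sub, e1, T.tau_comm (nn u f * (1 - u)), ← mul_assoc, sc, map_sub T.tau (1 - u)]
    ring
  rw [t1, t2]
  linear_combination T.tau (p.fst * (1 - f)) * t3

/-- The Schwinger-Dyson identity for the resolvent of the state. -/
theorem xu_key (h : T.TD r u ρ ρi c0) (hf : Pr f) (fD : f ∈ T.gen {1, r}) (hθ : ‖f * u * f‖ < 1)
    {z : ℂ} {g : R} (g1 : g * (z • (1 : R) - Stt ρ u f) = 1)
    (g2 : (z • (1 : R) - Stt ρ u f) * g = 1) : ∃ η : ℂ,
    (∀ a ∈ T.gen {1, r}, T.tau (a * (1 - f) * (Stt ρ u f * g)) = η * T.tau (a * r * (1 - f) * g)) ∧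
      η * (2 + T.tau (1 - f) + T.tau ((1 - f) * (Stt ρ u f * g))) =
        2 + T.tau ((1 - f) * (Stt ρ u f * g)) := by
  obtain ⟨G, hG⟩ := h.world
  have hD := gen_w (T := T) {1, r}
  have oD : (1 : R) ∈ T.gen {1, r} := sub_gen (by simp)
  have rD : r ∈ T.gen {1, r} := sub_gen (by simp)
  have eD : 1 - f ∈ T.gen {1, r} := hD.sub oD fD
  have hM := h.st_hat hG hf fD hθ
  have hsa := (h.st_bd hf fD hθ).1
  have m1 := h.st_l hf fD hθ
  have m2 := h.st_r hf fD hθ
  have n1 : nn u f * f = nn u f := nn_r hf hθ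
  have s2 : f * sc u f = 0 := sc_l hf hθ
  have hdef : ρ * ((1 - f) - sc u f) * ρ = Stt ρ u f - f := by
    rw [Stt, add_sub_cancel_left]
  generalize Stt ρ u f = M at *
  obtain ⟨y, hy, y1, y2⟩ := hG.inv _ (G.sub_mem (G.smul_mem G.one_mem z) hM) _
    (G.sub_mem (G.smul_mem G.one_mem (conj z)) hM) (by simp [hsa]) g (by simpa using g1)
    (by simpa using g2)
  have ee : (1 - f) * (1 - f) = 1 - f := (Pr.one.sub hf (one_mul f)).sq
  have gM : g * M = M * g := by
    have e1 : g * M = z • g - 1 := by rw [← g1, mul_sub, mul_smul_comm, mul_one, sub_sub_cancel]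
    have e2 : M * g = z • g - 1 := by rw [← g2, sub_mul, smul_mul_assoc, one_mul, sub_sub_cancel]
    rw [e1, e2]
  have Mg : M * g = z • g - 1 := by rw [← g2, sub_mul, smul_mul_assoc, one_mul, sub_sub_cancel]
  have gf : g * f = f * g := by
    have e1 : f * (z • (1 : R) - M) = (z • (1 : R) - M) * f := by
      rw [mul_sub, sub_mul, m1, m2, mul_smul_comm, smul_mul_assoc, mul_one, one_mul]
    calc g * f = g * f * ((z • (1 : R) - M) * g) := by rw [g2, mul_one]
      _ = g * ((z • (1 : R) - M) * f) * g := by rw [← e1]; noncomm_ring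
      _ = f * g := by rw [← mul_assoc, g1, one_mul]
  have a1 : (1 - (1 - u) * nn u f) * (1 - f) = 1 - f := by
    have : (1 - (1 - u) * nn u f) * (1 - f) = 1 - f - (1 - u) * (nn u f - nn u f * f) := by
      noncomm_ring
    rw [this, n1, sub_self, mul_zero, sub_zero]
  have es : (1 - f) * sc u f = sc u f := by rw [sub_mul, one_mul, s2, sub_zero]
  have a3 : (1 - (1 - u) * nn u f) * u * (1 - u) * (1 - nn u f * (1 - u)) =
      ((1 - f) - sc u f) * sc u f := by
    have e1 : (1 - (1 - u) * nn u f) * u * (1 - u) * (1 - nn u f * (1 - u)) =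
        sc u f - (1 - u) * (nn u f * sc u f) - sc u f * sc u f := by
      unfold sc
      noncomm_ring
    have e2 : nn u f * sc u f = 0 := by rw [← n1, mul_assoc, s2, mul_zero]
    rw [e1, e2, mul_zero, sub_zero, sub_mul, es]
  have c1 : ρ * (1 - f) = (1 - f) * ρ := xu_comm h h.ρm eD
  have c2 : ρi * (1 - f) = (1 - f) * ρi := xu_comm h h.ρim eD
  have eg : (1 - f) * g * (M - f) = (1 - f) * (M * g) := by
    have e1 : (1 - f) * f = 0 := by rw [sub_mul, one_mul, hf.sq, sub_self]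
    rw [mul_sub, mul_assoc, gM, mul_assoc, gf, ← mul_assoc _ f, e1, zero_mul, sub_zero]
  -- the identity for a general multiplier
  have key : ∀ a ∈ T.gen {1, r}, 2 * T.tau (ρi * ρi * a * (1 - f) * (M * g)) =
      (1 + T.tau f + T.tau (sc u f) + T.tau (g * (ρ * (((1 - f) - sc u f) * sc u f) * ρ))) *
        T.tau (a * (1 - f) * g) := by
    intro a ha
    have hb : ρi * a * (1 - f) ∈ T.gen {1, r} := hD.mul (hD.mul h.ρim ha) eD
    have hp := xu_d1 h hG hf fD hθ (G.mul_mem (G.mul_mem (hG.d _ hb) hy) (hG.d _ h.ρm))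
    rw [DA.snd_mul, DA.snd_mul, y2] at hp
    simp only [fst_inl, snd_inl, fst_mul, y1, snd_sub, snd_smul, snd_one, lt_snd, smul_zero,
      Bf.ev_zero, Bf.ev_neg, LinearMap.zero_apply, LinearMap.neg_apply, bil_ev, zero_sub, zero_add,
      add_zero, neg_neg, mul_neg, map_neg] at hp
    have k0 : ρ * (1 - f) * (ρi * a * (1 - f)) = a * (1 - f) := by
      rw [c1, mul_assoc, ← mul_assoc ρ, ← mul_assoc ρ, h.ρ1, one_mul, ← mul_assoc,
        xu_comm h eD ha, mul_assoc, ee]
    have k1 : T.tau (ρi * a * (1 - f) * g * ρ * (1 - f)) = T.tau (a * (1 - f) * g) := by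
      rw [mul_assoc, T.tau_comm, ← mul_assoc, k0]
    have k2 : T.tau ((1 - f) * (ρi * a * (1 - f)) * g * (ρ * (1 - (1 - u) * nn u f))) =
        T.tau (a * (1 - f) * g) := by
      rw [mul_assoc, mul_assoc, T.tau_comm, ← k1]
      simp only [mul_assoc, a1]
    have k3 : T.tau ((1 - nn u f * (1 - u)) * ρ *
        (g * (ρ * ((1 - (1 - u) * nn u f) * u * (1 - u))))) =
        T.tau (g * (ρ * (((1 - f) - sc u f) * sc u f) * ρ)) := by
      rw [T.tau_comm, ← a3]
      simp only [mul_assoc]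
    have k4 : T.tau (ρi * a * (1 - f) * g * ρ * ((1 - f) - sc u f)) =
        T.tau (ρi * ρi * a * (1 - f) * (M * g)) := by
      have e1 : ρi * a * (1 - f) * g * ρ * ((1 - f) - sc u f) =
          ρi * a * ((1 - f) * g * (ρ * ((1 - f) - sc u f) * ρ)) * ρi := by
        simp only [mul_assoc, h.ρ1, mul_one]
      rw [e1, hdef, eg, T.tau_comm]
      simp only [mul_assoc]
    rw [k1, k2, k3, k4] at hp
    linear_combination hp
  have rr : ρi * ρi * r = 1 := by
    rw [← h.ρρ, mul_assoc, ← mul_assoc ρi ρ, h.ρ2, one_mul, h.ρ2]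
  have q1 : T.tau (g * (ρ * (((1 - f) - sc u f) * sc u f) * ρ)) =
      z * T.tau (g * (ρi * sc u f * ρ)) - T.tau (sc u f) := by
    have e1 : ρ * (((1 - f) - sc u f) * sc u f) * ρ =
        (ρ * ((1 - f) - sc u f) * ρ) * (ρi * sc u f * ρ) := by
      simp only [mul_assoc]
      rw [← mul_assoc ρ ρi, h.ρ1, one_mul]
    have e2 : f * (ρi * sc u f * ρ) = 0 := by
      rw [← mul_assoc, ← mul_assoc, xu_comm h fD h.ρim, mul_assoc ρi, s2, mul_zero, zero_mul]
    have e3 : T.tau (ρi * sc u f * ρ) = T.tau (sc u f) := by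
      rw [T.tau_comm, ← mul_assoc, h.ρ1, one_mul]
    rw [e1, hdef, sub_mul, e2, sub_zero, ← mul_assoc, gM, Mg, sub_mul, smul_mul_assoc, one_mul,
      map_sub, map_smul, smul_eq_mul, e3]
  have q2 : T.tau (g * (ρi * sc u f * ρ)) =
      T.tau ((1 - f) * g) - T.tau (ρi * ρi * 1 * (1 - f) * (M * g)) := by
    have e1 : ρi * sc u f * ρ = (1 - f) - ρi * ρi * (ρ * ((1 - f) - sc u f) * ρ) := by
      have e2 : ρi * ρi * (ρ * ((1 - f) - sc u f) * ρ) = ρi * ((1 - f) - sc u f) * ρ := by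
        simp only [mul_assoc]
        rw [← mul_assoc ρi ρ, h.ρ2, one_mul]
      rw [e2, mul_sub ρi, sub_mul, c2, mul_assoc _ ρi, h.ρ2, mul_one, sub_sub_cancel]
    have e3 : (1 - f) * (M * g) = (M - f) * g := by
      rw [← mul_assoc, sub_mul, one_mul, m1]
    rw [e1, hdef, mul_sub g, map_sub, T.tau_comm g, T.tau_comm g, mul_one, mul_assoc _ (1 - f), e3,
      mul_assoc _ (M - f)]
  have q3 : T.tau ((1 - f) * (M * g)) = z * T.tau ((1 - f) * g) - T.tau (1 - f) := by
    rw [Mg, mul_sub, mul_smul_comm, mul_one, map_sub, map_smul, smul_eq_mul]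
  have q4 : T.tau (1 - f) = 1 - T.tau f := by rw [map_sub, h.one]
  refine ⟨(1 + T.tau f + T.tau (sc u f) +
    T.tau (g * (ρ * (((1 - f) - sc u f) * sc u f) * ρ))) / 2, fun a ha => ?_, ?_⟩
  · have e1 := key (r * a) (hD.mul rD ha)
    rw [← mul_assoc (ρi * ρi) r, rr, one_mul, xu_comm h rD ha] at e1
    linear_combination e1 / 2
  · have e1 := key 1 oD
    rw [one_mul] at e1
    rw [q2] at q1
    generalize T.tau (g * (ρ * (((1 - f) - sc u f) * sc u f) * ρ)) = κ at *
    rw [q3, q4]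
    linear_combination q1 - z / 2 * e1

variable (h : T.TD r u ρ ρi c0) (hf : Pr f) (fD : f ∈ T.gen {1, r}) (hθ : ‖f * u * f‖ < 1)
  (h1 : f ≠ 1)
include h hf fD hθ h1

theorem TD.subord {z : ℂ} (hz : 0 < z.im) : ∃ ω : ℂ, ω.im ≠ 0 ∧
    z * (2 + T.tau (1 - f) + T.tau ((1 - f) * Ph 1 (Stt ρ u f) fun x => x / (z - x))) =
      ω * (2 + T.tau ((1 - f) * Ph 1 (Stt ρ u f) fun x => x / (z - x))) ∧
    ∀ a ∈ T.gen {1, r}, T.tau (a * (1 - f) * Ph 1 (Stt ρ u f) fun x => x / (z - x)) =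
      T.tau (a * (1 - f) * Ph 1 r fun l => l / (ω - l)) := by
  have hbd := h.st_bd hf fD hθ
  obtain ⟨g1, g2, g3⟩ := xu_res hbd.1 hz.ne'
  obtain ⟨η, k1, k2⟩ := xu_key h hf fD hθ g1 g2
  rw [g3]
  generalize (Ph 1 (Stt ρ u f) fun t => (z - t)⁻¹) = g at *
  generalize Stt ρ u f = M at *
  have hD := gen_w (T := T) {1, r}
  have oD : (1 : R) ∈ T.gen {1, r} := sub_gen (by simp)
  have rD : r ∈ T.gen {1, r} := sub_gen (by simp)
  have eD : 1 - f ∈ T.gen {1, r} := hD.sub oD fD
  have he : Pr (1 - f) := Pr.one.sub hf (one_mul f)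
  have hz0 : z ≠ 0 := fun h0 => hz.ne' (by simp [h0])
  have hη : η ≠ 0 := by
    rintro rfl
    have e1 := k1 1 oD
    rw [one_mul, zero_mul] at e1
    rw [e1, zero_mul, add_zero] at k2
    exact two_ne_zero k2.symm
  have Mg : M * g = z • g - 1 := by rw [← g2, sub_mul, smul_mul_assoc, one_mul, sub_sub_cancel]
  have hzω : z = z / η * η := (div_mul_cancel₀ z hη).symm
  generalize z / η = ω at hzω
  have k3 : ∀ a ∈ T.gen {1, r}, T.tau (a * (ω • (1 : R) - r) * (1 - f) * (M * g)) =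
      T.tau (a * r * (1 - f)) := by
    intro a ha
    have e1 := k1 a ha
    have e2 : T.tau (a * r * (1 - f) * (M * g)) =
        z * T.tau (a * r * (1 - f) * g) - T.tau (a * r * (1 - f)) := by
      rw [Mg, mul_sub, mul_smul_comm, mul_one, map_sub, map_smul, smul_eq_mul]
    rw [mul_sub a, sub_mul, sub_mul, map_sub, mul_smul_comm, mul_one, smul_mul_assoc,
      smul_mul_assoc, map_smul, smul_eq_mul, e1, e2, hzω]
    ring
  have hω : ω.im ≠ 0 := by
    intro h0
    have hc : conj ω = ω := Complex.conj_eq_iff_im.2 h0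
    have bs : star (ω • (1 : R) - r) = ω • (1 : R) - r := by
      rw [star_sub, star_smul, star_one, h.rb.1, Complex.star_def, hc]
    have bD : ω • (1 : R) - r ∈ T.gen {1, r} := hD.sub (hD.smul ω oD) rD
    have e0 := k3 _ bD
    have e00 := k3 1 oD
    generalize hb : ω • (1 : R) - r = b at bs bD e0 e00
    have cb : b * (1 - f) = (1 - f) * b := xu_comm h bD eD
    have ks : star (b * (1 - f)) = b * (1 - f) := by rw [star_mul, he.st, bs, cb]
    have real : conj (T.tau (b * r * (1 - f))) = T.tau (b * r * (1 - f)) := by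
      rw [← T.tau_star, star_mul, star_mul, he.st, bs, h.rb.1, T.tau_comm, xu_comm h rD bD]
    have kk : b * (1 - f) * (b * (1 - f)) = b * b * (1 - f) := by
      rw [mul_assoc, ← mul_assoc _ b, ← cb, mul_assoc b, he.sq, ← mul_assoc]
    have e1 : T.tau (b * (1 - f) * (M * g) * (b * (1 - f))) = T.tau (b * r * (1 - f)) := by
      rw [T.tau_comm, ← mul_assoc, kk, e0]
    have kr : ω • (1 - f) - r * (1 - f) = b * (1 - f) := by
      rw [← hb, sub_mul, smul_mul_assoc, one_mul]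
    rw [one_mul, one_mul] at e00
    generalize b * (1 - f) = k at ks e1 kr e00
    have g4 : star g * (conj z • (1 : R) - M) = 1 := by
      have := congrArg star g2
      rwa [star_mul, star_one, star_sub, star_smul, star_one, hbd.1, Complex.star_def] at this
    have e2 : M * g - star g * M = (conj z - z) • (star g * M * g) := by
      calc M * g - star g * M = star g * (conj z • (1 : R) - M) * (M * g) -
            star g * M * ((z • (1 : R) - M) * g) := by rw [g4, g2, one_mul, mul_one]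
        _ = (conj z - z) • (star g * M * g) := by
          simp only [sub_smul, mul_sub, sub_mul, mul_smul_comm, smul_mul_assoc, mul_one, one_mul,
            mul_assoc]
          abel
    have e3 : T.tau (k * (star g * M) * k) = T.tau (k * (M * g) * k) := by
      rw [e1, ← real, ← e1, ← T.tau_star, star_mul, star_mul, star_mul, ks, hbd.1, mul_assoc]
    have e4 : (conj z - z) * T.tau (star (g * k) * M * (g * k)) = 0 := by
      have e5 : k * (M * g) * k - k * (star g * M) * k =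
          (conj z - z) • (star (g * k) * M * (g * k)) := by
        rw [← sub_mul, ← mul_sub, e2, star_mul, ks, mul_smul_comm, smul_mul_assoc]
        simp only [mul_assoc]
      rw [← smul_eq_mul, ← map_smul, ← e5, map_sub, e3, sub_self]
    have e6 : conj z - z ≠ 0 := fun h2 =>
      hz.ne' (Complex.conj_eq_iff_im.1 (sub_eq_zero.1 h2))
    have e7 := xu_pos hbd (pow_pos h.c0p 2) ((mul_eq_zero.1 e4).resolve_left e6)
    have e8 : k = 0 := by rw [← one_mul k, ← g2, mul_assoc, e7, mul_zero]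
    rw [e8, zero_mul, map_zero] at e00
    rw [e8, sub_eq_zero] at kr
    rw [← kr, map_smul, smul_eq_mul] at e00
    rcases mul_eq_zero.1 e00.symm with h2 | h2
    · exact hz0 (by rw [hzω, h2, zero_mul])
    · exact h1 (sub_eq_zero.1 (T.pr_eq_zero he h2)).symm
  refine ⟨ω, hω, ?_, fun a ha => ?_⟩
  · rw [hzω, mul_assoc, k2]
  · obtain ⟨l1, l2, l3⟩ := xu_res h.rb.1 hω
    have lD : (Ph 1 r fun t => (ω - t)⁻¹) ∈ T.gen {1, r} := hD.ph_mem (sa_one h.rb.1) oD rD _
    rw [l3]
    generalize (Ph 1 r fun t => (ω - t)⁻¹) = l at *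
    have e1 := k3 (a * l) (hD.mul ha lD)
    rw [mul_assoc a l, l1, mul_one] at e1
    rw [e1, mul_assoc a l, mul_assoc a, mul_assoc a, xu_comm h lD rD,
      xu_comm h (hD.mul rD lD) eD]

end TW

end Pool.Agent.Lib.MP_263241_an
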