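import Pool.Agent.Lib.MP_263241_an.XV

/-! Convergence of the products. -/

namespace Pool.Agent.Lib.MP_263241_an

open Filter Topology Finset

variable {R H : Type*} [CStarAlgebra R] [NormedAddCommGroup H] [InnerProductSpace ℂ H]

theorem xx_mul {x y : R} {a b : ℝ} (h1 : ‖x‖ ≤ a) (h2 : ‖y‖ ≤ b) : ‖x * y‖ ≤ a * b :=
  (norm_mul_le _ _).trans (mul_le_mul h1 h2 (norm_nonneg _) ((norm_nonneg _).trans h1))

namespace TW

variable {T : TW R H}

theorem xx_step {D : Set R} (hD : T.Alg 1 D) {q : R} (hq : Pr q) {δ C K ε : ℝ} (hδ : 0 ≤ δ)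
    (hC : 1 ≤ C) (hK : 1 ≤ K) (h : ‖T.ce D q‖ ≤ C * δ) {X y U X' y' U' p E : R} (m1 : X ∈ D)
    (m2 : y ∈ D) (m3 : U ∈ D) (m4 : X' ∈ D) (m5 : y' ∈ D) (m6 : U' ∈ D) (m7 : p ∈ D)
    (n1 : ‖X‖ ≤ K) (n2 : ‖y‖ ≤ K) (n3 : ‖U‖ ≤ 1) (n4 : ‖X'‖ ≤ K) (n5 : ‖y'‖ ≤ K) (n6 : ‖U'‖ ≤ 1)
    (n7 : ‖p‖ ≤ 1) (n8 : ‖T.ι p‖ ^ 2 ≤ ε) {d d' : R} (hd : d = U' - (U - X * p * (y * U)))
    (hd' : d' = d + (X * q * (y * U) - X' * q * (y' * U')) + E) (n9 : ‖d'‖ ≤ 2 + K ^ 2) :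
    ‖T.ι d'‖ ^ 2 ≤ (1 + 10 * C ^ 2 * K ^ 8 * δ) * ‖T.ι d‖ ^ 2 + 10 * C ^ 2 * K ^ 8 *
      (δ * (‖T.ι (X' - X)‖ ^ 2 + ‖T.ι (y' - y)‖ ^ 2 + ε) + T.n1 E) := by
  have K0 : 0 ≤ K := zero_le_one.trans hK
  have a1 : ‖y * U‖ ≤ K := by simpa using xx_mul n2 n3
  have a2 : ‖y' * U'‖ ≤ K := by simpa using xx_mul n5 n6
  have sm := sm_diff hD hq hδ hC h m1 (hD.mul m2 m3) m4 (hD.mul m5 m6) a1 n4
  have md : d ∈ D := hd ▸ hD.sub m6 (hD.sub m3 (hD.mul (hD.mul m1 m7) (hD.mul m2 m3)))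
  have b1 := xx_mul (xx_mul n1 n7) a1
  have b2 := xx_mul (xx_mul n1 hq.norm_le) a1
  have b3 := xx_mul (xx_mul n4 hq.norm_le) a2
  have b4 : ‖d‖ ≤ 2 + K ^ 2 := by
    have := norm_sub_le U' (U - X * p * (y * U))
    have := norm_sub_le U (X * p * (y * U))
    rw [hd]; nlinarith
  have st := sm.step hD hδ md (E := E) (K := 5 * K ^ 2) (by
    have := norm_add_le d (X * q * (y * U) - X' * q * (y' * U'))
    have := norm_sub_le (X * q * (y * U)) (X' * q * (y' * U'))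
    nlinarith) (by rw [← hd']; nlinarith)
  rw [← hd'] at st
  have c1 : ‖T.ι (X * p * (y * U))‖ ≤ K * K * ‖T.ι p‖ := by
    have h1 := T.norm_mul' (X * p) (y * U)
    have h2 := T.norm_mul X p
    have h3 := mul_le_mul_of_nonneg_right n1 (norm_nonneg (T.ι p))
    have h4 := mul_le_mul a1 (h2.trans h3) (norm_nonneg _) K0
    linarith
  have c2 : ‖T.ι (y * U - y' * U')‖ ≤ ‖T.ι (y' - y)‖ + K * (‖T.ι d‖ + K * K * ‖T.ι p‖) := by
    rw [show y * U - y' * U' = -((y' - y) * U) - y' * (d - X * p * (y * U)) by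
      rw [hd]; noncomm_ring, map_sub, map_neg]
    refine (norm_sub_le _ _).trans (add_le_add ?_ ((T.norm_mul _ _).trans (mul_le_mul n5 ?_
      (norm_nonneg _) K0)))
    · rw [norm_neg]
      exact (T.norm_mul' _ _).trans (mul_le_of_le_one_left (norm_nonneg _) n3)
    · rw [map_sub]
      exact (norm_sub_le _ _).trans (by linarith)
  have c3 : ‖T.ι (X - X')‖ = ‖T.ι (X' - X)‖ := by rw [map_sub, map_sub, norm_sub_rev]
  rw [c3] at st
  have e0 := n1_nonneg (T := T) E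
  have z0 := norm_nonneg (T.ι (y * U - y' * U'))
  have A0 := norm_nonneg (T.ι (X' - X))
  have B0 := norm_nonneg (T.ι (y' - y))
  have d0 := norm_nonneg (T.ι d)
  have p0 := norm_nonneg (T.ι p)
  generalize ‖T.ι (y * U - y' * U')‖ = z at *
  generalize ‖T.ι (X' - X)‖ = A at *
  generalize ‖T.ι (y' - y)‖ = B at *
  generalize ‖T.ι d‖ = w at *
  generalize ‖T.ι p‖ = r at *
  have k3 : 1 ≤ K ^ 3 := one_le_pow₀ hK
  have k1 : K ≤ K ^ 3 := le_self_pow₀ hK (by norm_num)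
  have s1 : A + z ≤ K ^ 3 * (A + B + w + r) := by
    nlinarith [mul_nonneg (sub_nonneg.2 k3) A0, mul_nonneg (sub_nonneg.2 k3) B0,
      mul_nonneg (sub_nonneg.2 k1) d0]
  have s2 : (A + B + w + r) ^ 2 ≤ 4 * (A ^ 2 + B ^ 2 + w ^ 2 + ε) := by
    nlinarith [sq_nonneg (A - B), sq_nonneg (A - w), sq_nonneg (A - r), sq_nonneg (B - w),
      sq_nonneg (B - r), sq_nonneg (w - r)]
  have s3 : (C * K * (A + z)) ^ 2 ≤ C ^ 2 * K ^ 8 * (4 * (A ^ 2 + B ^ 2 + w ^ 2 + ε)) := by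
    calc (C * K * (A + z)) ^ 2 ≤ (C * K * (K ^ 3 * (A + B + w + r))) ^ 2 := by gcongr
      _ = C ^ 2 * K ^ 8 * (A + B + w + r) ^ 2 := by ring
      _ ≤ _ := by gcongr
  have k8 : K ^ 2 ≤ C ^ 2 * K ^ 8 := (pow_le_pow_right₀ hK (by norm_num)).trans
    (le_mul_of_one_le_left (by positivity) (one_le_pow₀ hC))
  have k2 : 1 ≤ K ^ 2 := one_le_pow₀ hK
  rw [mul_assoc 10]
  generalize C ^ 2 * K ^ 8 = P at *
  have ε0 : 0 ≤ ε := (sq_nonneg _).trans n8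
  nlinarith [mul_le_mul_of_nonneg_left s3 hδ, mul_nonneg (sub_nonneg.2 k8) e0,
    mul_nonneg (mul_nonneg hδ (sq_nonneg w)) (sub_nonneg.2 (k2.trans k8)),
    mul_nonneg (mul_nonneg hδ (by positivity : 0 ≤ A ^ 2 + B ^ 2 + ε)) (zero_le_one.trans (k2.trans k8))]

variable {f : ℝ → R} {S : ℝ → Set R} {M : Set R} (h : T.Fl f S M)
include h

theorem Fl.xx_bound {a n k : ℕ} {K C ε : ℝ} (hK : 1 ≤ K) (hC : 1 ≤ C) {X y : ℕ → ℕ → R}
    (mX : ∀ n j, X n j ∈ S (tm n j)) (my : ∀ n j, y n j ∈ S (tm n j))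
    (bX : ∀ n j, j < a * 2 ^ n → ‖X n j‖ ≤ K) (bY : ∀ n j, j < a * 2 ^ n → ‖y n j‖ ≤ K)
    (hc : ∀ n j, j < a * 2 ^ n → ‖T.ce (S (tm n j)) (sl f n j)‖ ≤ C * T.dl f n j)
    (hε : ∀ j, T.dl f n j ≤ ε) :
    ‖T.ι (T.UU f S (n + k) (a * 2 ^ (n + k)) - T.UU f S n (a * 2 ^ n))‖ ^ 2 ≤
      Real.exp (10 * C ^ 2 * K ^ 8) * (10 * C ^ 2 * K ^ 8 * (
        ∑ i ∈ range (a * 2 ^ (n + k)), T.dl f (n + k) i * ‖T.ι (X (n + k) i - X n (i / 2 ^ k))‖ ^ 2 +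
        ∑ i ∈ range (a * 2 ^ (n + k)), T.dl f (n + k) i * ‖T.ι (y (n + k) i - y n (i / 2 ^ k))‖ ^ 2 +
        ε + ∑ i ∈ range (a * 2 ^ (n + k)),
          T.n1 (T.vv f S (n + k) i - (1 - X (n + k) i * sl f (n + k) i * y (n + k) i)) +
        ∑ i ∈ range (a * 2 ^ n), T.n1 (T.vv f S n i - (1 - X n i * sl f n i * y n i)))) := by
  have m0 : 0 < 2 ^ k := by positivity
  have ε0 : 0 ≤ ε := (h.pos n 0).le.trans (hε 0)
  obtain ⟨Ut, hU⟩ : ∃ Ut : ℕ → R, ∀ i, Ut i = T.UU f S n (i / 2 ^ k) - X n (i / 2 ^ k) *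
      (f (tm (n + k) i) - f (tm n (i / 2 ^ k))) * (y n (i / 2 ^ k) * T.UU f S n (i / 2 ^ k)) :=
    ⟨_, fun _ => rfl⟩
  obtain ⟨A, hA⟩ : ∃ A : ℕ → ℝ, ∀ c, A c =
      ∑ i ∈ range c, T.n1 (T.vv f S n i - (1 - X n i * sl f n i * y n i)) := ⟨_, fun _ => rfl⟩
  have Am : Monotone A := monotone_nat_of_le_succ fun c => by
    rw [hA, hA, sum_range_succ]; exact le_add_of_nonneg_right (n1_nonneg _)
  have u0 : ∀ c, Ut (c * 2 ^ k) = T.UU f S n c := fun c => by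
    rw [hU, Nat.mul_div_cancel _ m0, tm_mul, sub_self, mul_zero, zero_mul, sub_zero]
  have eN : a * 2 ^ (n + k) = a * 2 ^ n * 2 ^ k := by rw [pow_add, mul_assoc]
  have lt : ∀ i < a * 2 ^ (n + k), i / 2 ^ k < a * 2 ^ n := fun i hi =>
    (Nat.div_lt_iff_lt_mul m0).2 (eN ▸ hi)
  have pp : ∀ i, Pr (f (tm (n + k) i) - f (tm n (i / 2 ^ k))) := fun i =>
    (h.pr _).sub (h.pr _) (h.mono _ _ (tm_div n k i).1)
  have P0 : 0 ≤ 10 * C ^ 2 * K ^ 8 := by positivity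
  have key := gronwall (x := fun i => ‖T.ι (T.UU f S (n + k) i - Ut i)‖ ^ 2) (d := T.dl f (n + k))
    (b := fun i => 10 * C ^ 2 * K ^ 8 * (T.dl f (n + k) i * (‖T.ι (X (n + k) i - X n (i / 2 ^ k))‖ ^ 2
      + ‖T.ι (y (n + k) i - y n (i / 2 ^ k))‖ ^ 2 + ε) + (T.n1 (T.vv f S (n + k) i -
        (1 - X (n + k) i * sl f (n + k) i * y (n + k) i)) + (A ((i + 1) / 2 ^ k) - A (i / 2 ^ k)))))
    (N := a * 2 ^ (n + k)) P0 (sq_nonneg _) (fun i => (h.pos _ _).le)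
    (fun i => mul_nonneg P0 (add_nonneg (mul_nonneg (h.pos _ _).le (by positivity)) (add_nonneg
      (n1_nonneg _) (sub_nonneg.2 (Am (Nat.div_le_div_right i.le_succ)))))) (h.sum_dl _ _) ?_
  · have z := u0 0
    rw [zero_mul] at z
    rw [z, eN, u0, ← eN] at key
    refine key.trans (mul_le_mul_of_nonneg_left ?_ (Real.exp_pos _).le)
    rw [show T.UU f S (n + k) 0 - T.UU f S n 0 = 0 from sub_self _, map_zero, norm_zero,
      zero_pow two_ne_zero, zero_add, ← mul_sum]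
    refine mul_le_mul_of_nonneg_left ?_ P0
    have s1 := sum_range_sub (fun i => A (i / 2 ^ k)) (a * 2 ^ (n + k))
    have s2 := mul_le_mul_of_nonneg_right (h.sum_dl (n + k) (a * 2 ^ (n + k))) ε0
    simp only [mul_add, sum_add_distrib, ← sum_mul, s1]
    rw [eN, Nat.mul_div_cancel _ m0, Nat.zero_div, hA, hA, sum_range_zero, ← eN]
    linarith
  intro i hi
  have lc := lt i hi
  have sS := h.smono _ _ (tm_div n k i).1
  obtain ⟨E, e1, e2, e3⟩ : ∃ E, Ut (i + 1) = Ut i - X n (i / 2 ^ k) * sl f (n + k) i *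
      (y n (i / 2 ^ k) * T.UU f S n (i / 2 ^ k)) + E ∧
      T.n1 E ≤ A ((i + 1) / 2 ^ k) - A (i / 2 ^ k) ∧ ‖Ut (i + 1)‖ ≤ 1 + K ^ 2 := by
    rcases (Nat.div_le_div_right (c := 2 ^ k) i.le_succ).eq_or_lt with e | e
    · refine ⟨0, ?_, by rw [n1_zero, ← e, sub_self], ?_⟩
      · rw [hU, hU, ← e, sl]; noncomm_ring
      · rw [hU, ← e]
        have b := xx_mul (xx_mul (bX _ _ lc) (e ▸ pp (i + 1)).norm_le)
          (xx_mul (bY _ _ lc) (h.uu_norm n (i / 2 ^ k)))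
        have := h.uu_norm n (i / 2 ^ k)
        refine (norm_sub_le _ _).trans ?_
        nlinarith
    · have e' : i + 1 = (i / 2 ^ k + 1) * 2 ^ k :=
        le_antisymm ((Nat.div_lt_iff_lt_mul m0).1 (Nat.lt_succ_self _))
          ((Nat.le_div_iff_mul_le m0).1 e)
      have e4 : Ut (i + 1) = T.UU f S n (i / 2 ^ k + 1) := by rw [e', u0]
      have e5 : tm (n + k) (i + 1) = tm n (i / 2 ^ k + 1) := by rw [← tm_mul n k, ← e']
      have e6 : (i + 1) / 2 ^ k = i / 2 ^ k + 1 := by rw [e', Nat.mul_div_cancel _ m0]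
      refine ⟨(T.vv f S n (i / 2 ^ k) - (1 - X n (i / 2 ^ k) * sl f n (i / 2 ^ k) *
        y n (i / 2 ^ k))) * T.UU f S n (i / 2 ^ k), ?_, ?_, ?_⟩
      · rw [e4, hU, sl, sl, e5, UU]; noncomm_ring
      · rw [e6, hA, hA, sum_range_succ, add_sub_cancel_left]
        exact (n1_mul_r _ _).trans (mul_le_of_le_one_right (n1_nonneg _) (h.uu_norm _ _))
      · rw [e4]
        exact (h.uu_norm _ _).trans (le_add_of_nonneg_right (sq_nonneg _))
  have st := xx_step (h.alg (tm (n + k) i)) (h.sl_pr (n + k) i) (h.pos _ _).le hC hK (hc _ _ hi)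
    (sS (mX _ _)) (sS (my _ _)) (sS (h.uu_mem _ _)) (mX _ _) (my _ _) (h.uu_mem _ _)
    ((h.alg _).sub (h.mem _ _) (sS (h.mem _ _))) (bX _ _ lc) (bY _ _ lc) (h.uu_norm _ _) (bX _ _ hi)
    (bY _ _ hi) (h.uu_norm _ _) (pp i).norm_le (ε := ε) (by
      have t1 := h.te_anti (tm_div n k i).2
      have t2 := h.te_succ (n + k) i
      have t3 := h.te_succ n (i / 2 ^ k)
      have t4 := h.pos (n + k) i
      have t5 := hε (i / 2 ^ k)
      rw [l2_pr (pp i), Real.sq_sqrt (tau_pr_re (pp i)).2, show f (tm (n + k) i) - f (tm n (i / 2 ^ k))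
        = 1 - f (tm n (i / 2 ^ k)) - (1 - f (tm (n + k) i)) by abel, map_sub, h.tau_te, h.tau_te,
        Complex.sub_re, Complex.ofReal_re, Complex.ofReal_re]
      linarith) (d := T.UU f S (n + k) i - Ut i) (d' := T.UU f S (n + k) (i + 1) - Ut (i + 1))
    (E := (T.vv f S (n + k) i - (1 - X (n + k) i * sl f (n + k) i * y (n + k) i)) *
      T.UU f S (n + k) i - E) (by rw [hU]) (by rw [e1, UU]; noncomm_ring) (by
      have := h.uu_norm (n + k) (i + 1)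
      exact (norm_sub_le _ _).trans (by linarith))
  refine st.trans (add_le_add le_rfl (mul_le_mul_of_nonneg_left (add_le_add le_rfl
    ((n1_sub _ _).trans (add_le_add ?_ e2))) P0))
  exact (n1_mul_r _ _).trans (mul_le_of_le_one_right (n1_nonneg _) (h.uu_norm _ _))

theorem Fl.uu_cauchy (a : ℕ) : ∀ ε > 0, ∃ N, ∀ n ≥ N, ∀ k,
    ‖T.ι (T.UU f S (n + k) (a * 2 ^ (n + k)) - T.UU f S n (a * 2 ^ n))‖ ≤ ε := by
  intro ε hε
  obtain ⟨K, K1, hK⟩ := h.loc a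
  obtain ⟨C, C1, hC⟩ := h.ce_bd a
  have o1 : ‖(1 : R)‖ ≤ 1 := Pr.one.norm_le
  have bY : ∀ n j, j < a * 2 ^ n → ‖1 + T.sig f S n j‖ ≤ 2 * K := fun n j hj =>
    (norm_add_le _ _).trans (by linarith [(hK n j hj).1])
  have bB : ∀ n j, ‖((T.bet f S n j : ℝ) : ℂ) • (1 : R)‖ ≤ 1 := fun n j => by
    rw [norm_smul, Complex.norm_real, Real.norm_of_nonneg (h.bet_bd n j).1.le]
    exact mul_le_one₀ (h.bet_bd n j).2 (norm_nonneg _) o1
  have aY := h.ac_add (h.ac_const a 1) (h.ac_sig a)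
  have aX := h.ac_mul (h.ac_bet a) aY (K := 2 * K) (fun n j _ => (bB n j).trans (by linarith)) bY
  obtain ⟨P, hP⟩ : ∃ P, P = 10 * C ^ 2 * (2 * K) ^ 8 := ⟨_, rfl⟩
  have P0 : 0 < P := by rw [hP]; positivity
  obtain ⟨η, η0, hη⟩ : ∃ η > 0, Real.exp P * (P * (η + η + η + K * η + K * η)) = ε ^ 2 :=
    ⟨ε ^ 2 / (Real.exp P * (P * (3 + 2 * K))), by positivity, by field_simp; ring⟩
  obtain ⟨N1, h1⟩ := aX η η0
  obtain ⟨N2, h2⟩ := aY η η0
  obtain ⟨N3, h3⟩ := h.mesh η η0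
  obtain ⟨N4, h4⟩ := eventually_atTop.1 ((h.er_sum a).eventually (ge_mem_nhds η0))
  have h5 : ∀ n ≥ N4, ∑ i ∈ range (a * 2 ^ n), T.n1 (T.vv f S n i - (1 -
      ((T.bet f S n i : ℝ) : ℂ) • (1 : R) * (1 + T.sig f S n i) * sl f n i * (1 + T.sig f S n i)))
      ≤ K * η := fun n hn => by
    refine le_trans (sum_le_sum fun i hi => ?_) ((mul_sum _ _ K).symm.trans_le
      (mul_le_mul_of_nonneg_left (h4 n hn) (by linarith)))
    simpa only [smul_mul_assoc, one_mul] using (hK n i (mem_range.1 hi)).2.1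
  refine ⟨N1 + N2 + N3 + N4, fun n hn k => le_of_sq_le_sq ?_ hε.le⟩
  refine (h.xx_bound (K := 2 * K) (by linarith) C1
    (X := fun n j => ((T.bet f S n j : ℝ) : ℂ) • (1 : R) * (1 + T.sig f S n j))
    (y := fun n j => 1 + T.sig f S n j)
    (fun n j => (h.alg _).mul ((h.alg _).smul _ (h.alg _).one) ((h.alg _).add (h.alg _).one
      (h.sig_mem n j))) (fun n j => (h.alg _).add (h.alg _).one (h.sig_mem n j))
    (fun n j hj => by simpa using xx_mul (bB n j) (bY n j hj)) bY hC (h3 n (by omega))).trans ?_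
  rw [← hη, ← hP]
  gcongr
  exacts [h1 n (by omega) k, h2 n (by omega) k, h5 _ (by omega), h5 _ (by omega)]

theorem Fl.exists_lm : ∃ U, T.Lm f S M U := by
  have fu : ∀ a n : ℕ, a ≤ n → f a * T.UU f S n (n * 2 ^ n) = f a * T.UU f S n (a * 2 ^ n) :=
    fun a n han => h.f_uu (Nat.mul_le_mul_right _ han) (tm_top n a).ge
  obtain ⟨U, hU⟩ := exists_lim (T := T) (a := fun n => T.UU f S n (n * 2 ^ n)) (C := 1)
    (fun n => h.uu_norm _ _) fun ε hε => by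
    obtain ⟨a, ha⟩ := (h.full.eventually (ge_mem_nhds (show 0 < (ε / 4) ^ 2 by positivity))).exists
    obtain ⟨N, hN⟩ := h.uu_cauchy a (ε / 4) (by positivity)
    have b : ∀ m ≥ N, ‖T.ι (T.UU f S m (a * 2 ^ m) - T.UU f S N (a * 2 ^ N))‖ ≤ ε / 4 :=
      fun m hm => by
        obtain ⟨k, rfl⟩ := Nat.exists_eq_add_of_le hm
        exact hN N le_rfl k
    refine ⟨N + a, fun m hm n hn => ?_⟩
    have pe := Pr.one.sub (h.pr a) (one_mul _)
    have c1 : ‖T.ι (1 - f a)‖ ≤ ε / 4 := by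
      rw [l2_pr pe]
      exact Real.sqrt_le_iff.2 ⟨by positivity, ha⟩
    have c2 : ∀ n j, ‖T.ι ((1 - f a) * T.UU f S n j)‖ ≤ ε / 4 := fun n j => by
      rw [l2_unit' (h.uu_unit n j).2]; exact c1
    have c3 : ∀ m ≥ N, ‖T.ι (f a * (T.UU f S m (a * 2 ^ m) - T.UU f S N (a * 2 ^ N)))‖ ≤ ε / 4 :=
      fun m hm => (T.norm_mul _ _).trans ((mul_le_of_le_one_left (norm_nonneg _)
        (h.pr a).norm_le).trans (b m hm))
    rw [show T.UU f S m (m * 2 ^ m) - T.UU f S n (n * 2 ^ n) =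
      f a * (T.UU f S m (a * 2 ^ m) - T.UU f S N (a * 2 ^ N)) -
        f a * (T.UU f S n (a * 2 ^ n) - T.UU f S N (a * 2 ^ N)) +
        ((1 - f a) * T.UU f S m (m * 2 ^ m) - (1 - f a) * T.UU f S n (n * 2 ^ n)) by
      rw [mul_sub, mul_sub, ← fu a m (by omega), ← fu a n (by omega)]; noncomm_ring,
      map_add, map_sub, map_sub]
    refine (norm_add_le _ _).trans ((add_le_add (norm_sub_le _ _) (norm_sub_le _ _)).trans ?_)
    linarith [c2 m (m * 2 ^ m), c2 n (n * 2 ^ n), c3 m (by omega), c3 n (by omega)]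
  refine ⟨U, h.malg.lim _ (fun n => h.sub _ (h.uu_mem _ _)) hU, ?_, ?_, fun a => ?_⟩
  · have := hU.star.mul hU (C := 1) fun n => by rw [_root_.norm_star]; exact h.uu_norm _ _
    simp only [(h.uu_unit _ _).1] at this
    exact this.unique (Lim.const 1)
  · have := hU.mul hU.star (C := 1) fun n => h.uu_norm _ _
    simp only [(h.uu_unit _ _).2] at this
    exact this.unique (Lim.const 1)
  · refine (hU.mulL (f a)).congr' ?_
    filter_upwards [eventually_ge_atTop a] with n hn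
    rw [fu a n hn]

end TW

end Pool.Agent.Lib.MP_263241_an
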