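import Pool.Agent.Lib.MP_263241_an.XD
import Pool.Agent.Lib.MP_263241_an.XM
import Pool.Agent.Lib.MP_263241_an.XR
import Pool.Agent.Lib.MP_263241_an.XU
import Pool.Agent.Lib.MP_263241_an.XN
import Pool.Agent.Lib.MP_263241_an.XX
import Pool.Agent.Lib.MP_263241_an.XI

/-! The free multiplicative convolution has a free complement conjugate to the first factor. -/

namespace Pool.Agent.Lib.MP_263241_an

open Filter Topology MeasureTheory Set

variable {R H : Type*} [CStarAlgebra R] [NormedAddCommGroup H] [InnerProductSpace ℂ H]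

theorem xt_lv_anti {s t : ℝ} (h : s ≤ t) : lv t ≤ lv s := by
  have h1 : (0 : ℝ) ≤ max s 0 := le_max_right _ _
  have h2 : max s 0 ≤ max t 0 := max_le_max_right _ h
  unfold lv
  gcongr

theorem xt_lv_lo (t : ℝ) : 1 / 4 < lv t := by
  have h1 : (0 : ℝ) ≤ max t 0 := le_max_right _ _
  unfold lv
  exact lt_add_of_pos_right _ (by positivity)

theorem xt_lv_up (t : ℝ) : lv t ≤ 1 := by
  have h1 : (0 : ℝ) ≤ max t 0 := le_max_right _ _
  have h2 : (3 / 4 : ℝ) / (1 + max t 0) ≤ 3 / 4 := div_le_self (by norm_num) (by linarith)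
  unfold lv
  linarith

theorem xt_tm_le {n j a : ℕ} (h : j ≤ a * 2 ^ n) : tm n j ≤ a :=
  (tm_mono h).trans (tm_top n a).le

theorem xt_cont {Φ : ℝ → ℝ} {L : ℝ} (h : ∀ s t, |Φ s - Φ t| ≤ L * |s - t|) : Continuous Φ :=
  (LipschitzWith.of_dist_le' (K := L) fun s t => by simpa only [Real.dist_eq] using h s t).continuous

theorem xt_res {z : ℂ} (hz : z.im ≠ 0) : Continuous fun x : ℝ => (x : ℂ) / (z - x) :=
  Continuous.div (by fun_prop) (by fun_prop) fun x hx => hz (by
    rw [sub_eq_zero.1 hx, Complex.ofReal_im])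

/-- Spectral bounds for a block diagonal element. -/
theorem xt_bd {F M : R} (hF : Pr F) (hM : star M = M) (hc : F * M = M * F) {g : ℝ → ℝ}
    (hg : Continuous g) {c C : ℝ} (h1 : ∀ t, c ≤ g t ∧ g t ≤ C) (h2 : c ≤ 1) (h3 : 1 ≤ C) :
    Bd ((1 - F) * (Ph 1 M fun t => (g t : ℂ)) + F) c C := by
  have sa := sa_one hM
  have he : Pr (1 - F) := Pr.one.sub hF (one_mul F)
  have k : ∀ p : ℝ → ℝ, Continuous p → (∀ t, 0 ≤ p t) →
      Nn ((1 - F) * Ph 1 M fun t => (p t : ℂ)) := fun p hp h0 => by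
    have h4 := (nn_ph hM hp fun t _ => h0 t).conj (1 - F)
    have h5 : (1 - F) * (Ph 1 M fun t => (p t : ℂ)) = (Ph 1 M fun t => (p t : ℂ)) * (1 - F) :=
      sa.ph_comm (by rw [sub_mul, mul_sub, hc, one_mul, mul_one]) (by rw [one_mul, mul_one]) _
    rwa [he.st, mul_assoc, ← h5, he.l] at h4
  refine bd_iff.2 ⟨?_, ?_⟩
  · have h6 := (k (fun t => g t - c) (by fun_prop) fun t => sub_nonneg.2 (h1 t).1).add
      (hF.nn.smul (sub_nonneg.2 h2))
    convert h6 using 1
    simp only [Complex.ofReal_sub]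
    rw [SA.ph_sub (by fun_prop) (by fun_prop), sa.ph_const, mul_sub, mul_smul_comm, mul_one,
      Complex.ofReal_one]
    module
  · have h6 := (k (fun t => C - g t) (by fun_prop) fun t => sub_nonneg.2 (h1 t).2).add
      (hF.nn.smul (sub_nonneg.2 h3))
    convert h6 using 1
    simp only [Complex.ofReal_sub]
    rw [SA.ph_sub (by fun_prop) (by fun_prop), sa.ph_const, mul_sub, mul_smul_comm, mul_one,
      Complex.ofReal_one]
    module

namespace TW

theorem xt_f_mem {T : TW R H} (r m F : R) : F ∈ T.Sf r m F :=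
  sub_gen (.inr (.inr ⟨1, sub_gen (.inl rfl), one_mul F⟩))

theorem xt_sl {T : TW R H} {r : R} {μ : Measure ℝ} {f : ℝ → R} (hf : T.SF r μ f) (n j : ℕ) :
    Pr (sl f n j) ∧ sl f n j ∈ T.gen {1, r} ∧ f (tm n j) * sl f n j = 0 ∧
      sl f n j * (1 - f (tm n j)) = sl f n j := by
  have h1 := hf.mono _ _ (tm_mono (n := n) (Nat.le_succ j))
  have h2 := (hf.pr _).comm_of (hf.pr _) h1
  refine ⟨(hf.pr _).sub (hf.pr _) h1, (gen_w _).sub (hf.mem _) (hf.mem _), ?_, ?_⟩
  · rw [sl, mul_sub, h2, (hf.pr _).sq, sub_self]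
  · rw [sl, mul_sub, mul_one, sub_mul, h1, (hf.pr _).sq, sub_self, sub_zero]

variable {T : TW R H} {r u ρ ρi : R} {c0 : ℝ} {μ : Measure ℝ} {f : ℝ → R}
  (h : T.TD r u ρ ρi c0) (hf : T.SF r μ f)
include h hf

theorem xt_mass : μ.real univ = 1 := by
  have h1 := hf.sm.int (fun _ => 1) continuous_const
  rw [hf.sm.sa.ph_const, one_smul, h.one, integral_const, Complex.real_smul, mul_one] at h1
  exact_mod_cast h1.symm

theorem xt_gap (t : ℝ) : ‖f t * u * f t‖ < 1 := h.gap (hf.pr t) (hf.mem t) (hf.ne_one t)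

theorem TD.cov (a : ℕ) : ∃ c C L : ℝ, 0 < c ∧ 0 ≤ L ∧ ∀ n j, j < a * 2 ^ n → ∃ Φ : ℝ → ℝ,
    (∀ s t, |Φ s - Φ t| ≤ L * |s - t|) ∧ (∀ t, c ≤ Φ t ∧ Φ t ≤ C) ∧
    T.ce (T.Sf r (ρ * u * ρ) (f (tm n j))) (sl f n j) = ((T.dl f n j : ℝ) : ℂ) •
      ((1 - f (tm n j)) * Ph 1 (Stt ρ u (f (tm n j))) fun t => (Φ t : ℂ)) := by
  obtain ⟨c, C, L, hc, hL, key⟩ := slice_cov (c0 := c0 ^ 2) (η := lv a - 1 / 4)
    (pow_pos h.c0p 2) (sub_pos.2 (xt_lv_lo a))
  refine ⟨c, C, L, hc, hL, fun n j hj => ?_⟩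
  have fin := hf.sm.fin
  have mass := xt_mass h hf
  obtain ⟨qp, qD, fq, qe⟩ := xt_sl hf n j
  have hF := hf.pr (tm n j)
  have FD := hf.mem (tm n j)
  have hθ := xt_gap h hf (tm n j)
  have F1 := hf.ne_one (tm n j)
  have hb := h.st_bd hF FD hθ
  have he : Pr (1 - f (tm n j)) := Pr.one.sub hF (one_mul _)
  obtain ⟨ν, ν1, ν2, ν3⟩ := exists_vm (T := T) hb.1 he
  obtain ⟨νq, νq1, νq2, νq3⟩ := exists_vm (T := T) hb.1 qp
  have mq : (μ.restrict (Ico (lv (tm n (j + 1))) (lv (tm n j)))).real univ = T.dl f n j := by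
    rw [measureReal_restrict_apply MeasurableSet.univ, univ_inter, hf.dl_eq]
  have me : (((μ.restrict (Iio (lv (tm n j)))).real univ : ℝ) : ℂ) = T.tau (1 - f (tm n j)) := by
    rw [measureReal_restrict_apply MeasurableSet.univ, univ_inter, ← hf.te_eq]
    exact (tau_pr_re he).1.symm
  obtain ⟨Φ, Φ1, Φ2, Φ3⟩ := key (μ.restrict (Iio (lv (tm n j))))
    (μ.restrict (Ico (lv (tm n (j + 1))) (lv (tm n j)))) ν νq (lv (tm n j))
    ⟨inferInstance, by
      filter_upwards [ae_restrict_mem measurableSet_Iio, ae_restrict_of_ae hf.supp] with l h1 h2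
      exact ⟨h2.1, le_of_lt h1⟩, xt_lv_up _, measureReal_nonneg, by
      rw [measureReal_restrict_apply MeasurableSet.univ, ← mass]
      exact measureReal_mono (subset_univ _)⟩ inferInstance ν1 νq1
    (by
      filter_upwards [ae_restrict_mem measurableSet_Ico, ae_restrict_of_ae hf.supp] with l h1 h2
      exact ⟨h2.1, le_of_lt h1.2⟩)
    (by rw [mq]; exact hf.pos n j)
    (ν2.mono fun t ht => hb.2 t ht) (νq2.mono fun t ht => hb.2 t ht)
    (by linarith [xt_lv_anti (xt_tm_le hj.le)])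
    (fun l x h1 h2 h3 => by
      refine (hf.lo l x h1 h2 (h3.trans (xt_lv_up _))).trans ?_
      rw [measureReal_restrict_apply measurableSet_Icc,
        ← measureReal_sdiff_null (s₂ := {lv (tm n j)}) (by simp [Measure.real, hf.atom])]
      exact measureReal_mono fun y hy => ⟨hy.1, lt_of_le_of_ne (hy.1.2.trans h3) hy.2⟩)
    (fun l d hd => by
      refine le_trans ?_ (hf.up l d hd)
      rw [measureReal_restrict_apply measurableSet_Icc]
      exact measureReal_mono inter_subset_left)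
    (fun z hz => by
      obtain ⟨ω, w1, w2, w3⟩ := h.subord hF FD hθ F1 hz
      have c1 := xt_res hz.ne'
      have c2 := xt_res w1
      refine ⟨ω, _, w1, by rw [me]; exact w2, ν3 _ c1, ?_, ?_⟩
      · have := w3 1 (sub_gen (.inl rfl))
        rw [one_mul] at this
        rw [this, hf.int_e _ c2]
      · have := w3 _ qD
        rw [qe] at this
        rw [← νq3 _ c1, this, hf.int_sl _ _ c2])
  refine ⟨Φ, Φ1, Φ2, ?_⟩
  have cΦ := xt_cont Φ1
  have sa := sa_one hb.1
  have A := sf_alg (T := T) r (ρ * u * ρ) (f (tm n j))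
  have mk := h.markov hF FD hθ F1 qD fq (φ := fun t => ((T.dl f n j : ℝ) : ℂ) * (Φ t : ℂ))
    (by fun_prop) fun k => by
      rw [← ph_pow hb.1 k, mul_assoc, ← sa.ph_mul (by fun_prop) (by fun_prop),
        νq3 _ (by fun_prop), ν3 _ (by fun_prop), Φ3 _ (by fun_prop), mq, ← integral_const_mul]
      exact integral_congr_ae (.of_forall fun t => by simp only; ring)
  refine A.ce_eq (A.smul _ (A.mul (A.sub A.one (xt_f_mem _ _ _))
    (A.ph_mem sa A.one (h.st_mem hF FD hθ) _))) fun d hd => ?_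
  rw [T.tau_comm d, T.tau_comm d, mk d hd, SA.ph_smul _ (by fun_prop), mul_smul_comm]

theorem TD.fl : T.Fl f (fun t => T.Sf r (ρ * u * ρ) (f t)) (T.gen {1, r, u}) := by
  have M := gen1_alg (T := T) {r, u}
  have DM : T.gen {1, r} ⊆ T.gen {1, r, u} :=
    gen_mono (insert_subset_insert (singleton_subset_iff.2 (.inl rfl)))
  refine ⟨h.one, hf.pr, hf.mono, hf.zero, fun t => sf_alg _ _ _,
    fun s t hst => sf_mono (hf.mem s) (hf.mono s t hst) (hf.pr s) (hf.pr t),
    fun n j => xt_f_mem _ _ _, M, fun t => M.gen_le ?_, hf.pos, hf.full, hf.mesh,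
    fun a x hx => hf.ts h.one (gen1_alg {u}) h.free a (gen_mono ?_ hx), fun a => ?_⟩
  · rintro s (rfl | rfl | ⟨d, hd, rfl⟩)
    · exact M.one
    · exact M.mul (M.mul (DM h.ρm) (sub_gen (.inr (.inr rfl)))) (DM h.ρm)
    · exact M.mul (DM hd) (DM (hf.mem t))
  · rintro s (rfl | rfl | rfl)
    · exact .inl (sub_gen (.inl rfl))
    · exact .inl (sub_gen (.inr rfl))
    · exact .inr (sub_gen (.inr rfl))
  · obtain ⟨c, C, L, hc, -, key⟩ := h.cov hf a
    have fin := hf.sm.fin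
    have p0 : 0 < T.te f a := by
      have h1 := hf.pos 0 a
      have h2 : tm 0 a = a := by simp [tm]
      rw [hf.dl_eq, h2] at h1
      rw [hf.te_eq]
      exact h1.trans_le (measureReal_mono fun y hy => hy.2)
    refine ⟨min (T.te f a * c) 1, max C 1, lt_min (mul_pos p0 hc) one_pos, fun n j hj => ?_⟩
    obtain ⟨Φ, Φ1, Φ2, Φ3⟩ := key n j hj
    have cΦ := xt_cont Φ1
    have hF := hf.pr (tm n j)
    have FD := hf.mem (tm n j)
    have hθ := xt_gap h hf (tm n j)
    have t1 : T.te f a ≤ T.te f (tm n j) := by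
      rw [hf.te_eq, hf.te_eq]
      exact measureReal_mono (Iio_subset_Iio (xt_lv_anti (xt_tm_le hj.le)))
    have t2 : T.te f (tm n j) ≤ 1 := by
      rw [hf.te_eq, ← xt_mass h hf]
      exact measureReal_mono (subset_univ _)
    have := xt_bd hF (h.st_bd hF FD hθ).1 (by rw [h.st_l hF FD hθ, h.st_r hF FD hθ])
      (g := fun t => T.te f (tm n j) * Φ t) (by fun_prop) (c := min (T.te f a * c) 1)
      (C := max C 1) (fun t => ⟨(min_le_left _ _).trans
        (mul_le_mul t1 (Φ2 t).1 hc.le (p0.le.trans t1)),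
        ((mul_le_of_le_one_left (hc.le.trans (Φ2 t).1) t2).trans (Φ2 t).2).trans (le_max_left _ _)⟩)
      (min_le_right _ _) (le_max_right _ _)
    convert this using 1
    simp only [Complex.ofReal_mul]
    rw [rc, Φ3, smul_smul, ← Complex.ofReal_mul, div_mul_cancel₀ _ (hf.pos n j).ne',
      SA.ph_smul _ (by fun_prop), mul_smul_comm]

theorem TD.mk' : T.Mk f (fun t => T.Sf r (ρ * u * ρ) (f t)) fun t => Stt ρ u (f t) := by
  have fl := h.fl hf
  have bd := fun t => h.st_bd (hf.pr t) (hf.mem t) (xt_gap h hf t)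
  have mem := fun t => h.st_mem (hf.pr t) (hf.mem t) (xt_gap h hf t)
  refine ⟨fun n j => mem _, fun n j => (bd _).1,
    fun n j => (bd _).norm_le zero_le_one (by nlinarith [sq_nonneg c0]) le_rfl,
    fun n j => ?_, h.cov hf, fun a => ?_⟩
  · rw [h.st_l (hf.pr _) (hf.mem _) (xt_gap h hf _), h.st_r (hf.pr _) (hf.mem _) (xt_gap h hf _)]
  · obtain ⟨K, hK, up⟩ := h.update (xt_gap h hf a)
    have up' := fun n j j' (h1 : j ≤ j') (h2 : j' ≤ a * 2 ^ n) =>
      up _ _ (hf.pr (tm n j)) (hf.pr (tm n j')) (hf.mem _) (hf.mem _) (hf.mono _ _ (tm_mono h1))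
        (gap_mono (hf.pr _) (hf.pr _) (hf.mono _ _ (xt_tm_le h2)))
    have ac : T.AvC f a fun n j => Stt ρ u (f (tm n j)) :=
      fl.ac_of_inc (x := fun t => Stt ρ u (f t)) fun n j j' h1 h2 => (up' n j j' h1 h2).1
    have s1 := fl.sum_sqrt (fl.ts_proc (fun n j => mem _) ac)
    have s2 : Tendsto (fun n : ℕ => ((2 : ℝ) ^ n)⁻¹ * ∑ j ∈ Finset.range (a * 2 ^ n), T.dl f n j)
        atTop (𝓝 0) :=
      squeeze_zero (fun n => mul_nonneg (by positivity)
          (Finset.sum_nonneg fun j _ => (hf.pos n j).le))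
        (fun n => mul_le_of_le_one_right (by positivity) (fl.sum_dl n _))
        (tendsto_inv_atTop_zero.comp (tendsto_pow_atTop_atTop_of_one_lt one_lt_two))
    refine ⟨K, fun n j => K * (((2 : ℝ) ^ n)⁻¹ * T.dl f n j +
      √(T.dl f n j) * |‖T.ι (T.dev (sl f n j) (Stt ρ u (f (tm n j))))‖|), ?_, fun n j hj => ?_⟩
    · have := (s2.add s1).const_mul K
      rw [add_zero, mul_zero] at this
      refine this.congr fun n => ?_
      rw [← Finset.mul_sum, Finset.sum_add_distrib, ← Finset.mul_sum]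
    · have l1 : ‖((lv (tm n j) : ℝ) : ℂ)‖ ≤ 1 := by
        rw [Complex.norm_real, Real.norm_of_nonneg (by linarith [xt_lv_lo (tm n j)])]
        exact xt_lv_up _
      have o1 := hf.osc n j 1
      rw [pow_one, pow_one, Nat.cast_one, one_mul] at o1
      obtain ⟨γ, g1, g2⟩ := (up' n j (j + 1) (Nat.le_succ j) hj).2 _ _ l1 (by positivity) o1
      refine ⟨_, γ, l1, g1, g2.trans (le_of_eq ?_)⟩
      have e1 := fl.l2_sl n j
      rw [sl] at e1
      have e2 := Real.mul_self_sqrt (hf.pos n j).le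
      simp only
      rw [e1, abs_norm, sl]
      linear_combination (K * ((2 : ℝ) ^ n)⁻¹) * e2

theorem TD.main : ∃ U ∈ T.gen {1, r, u}, star U * U = 1 ∧ U * star U = 1 ∧
    T.Free (T.gen {1, ρ * u * ρ}) (T.gen {1, star U * r * U}) ∧
    U ∈ T.gen {1, ρ * u * ρ, star U * r * U} := by
  have fl := h.fl hf
  obtain ⟨U, hU⟩ := fl.exists_lm
  refine ⟨U, hU.mem, hU.u1, hU.u2, ((fl.rot_fl hU).levy (fl.rot_wh hU)).mono
    (gen_mono (insert_subset_insert (singleton_subset_iff.2 (.inl rfl))))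
    ((gen_w _).gen_le ?_), (gen_w _).gen_le ?_ (fl.recover hU (h.mk' hf))⟩
  · rintro s (rfl | rfl)
    · exact sub_gen (.inl rfl)
    · refine gen_mono ?_ (conj_mem_gen hU.u1 hU.u2 hf.gen)
      rintro _ ⟨s, rfl | ⟨n, j, rfl⟩, rfl⟩
      · exact .inl (by simp only [mul_one, hU.u1])
      · exact .inr ⟨n, j, rfl⟩
  · rintro s (rfl | rfl | ⟨n, j, rfl⟩)
    · exact sub_gen (.inl rfl)
    · simp only [hf.zero, st_zero]
      exact sub_gen (.inr (.inl rfl))
    · refine gen_mono ?_ (conj_mem_gen hU.u1 hU.u2 (hf.mem _))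
      rintro _ ⟨s, rfl | rfl, rfl⟩
      · exact .inl (by simp only [mul_one, hU.u1])
      · exact .inr (.inr rfl)

end TW

end Pool.Agent.Lib.MP_263241_an
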