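import Pool.Agent.Lib.MP_263241_an.XH

/-! The approximate reflections. -/

namespace Pool.Agent.Lib.MP_263241_an

open Filter Topology Finset

variable {R H : Type*} [CStarAlgebra R] [NormedAddCommGroup H] [InnerProductSpace ℂ H]

/-- A truncated inverse square root. -/
noncomputable def xv_g (c x : ℝ) : ℝ := (√(max x c))⁻¹

theorem xv_g_cont {c : ℝ} (hc : 0 < c) : Continuous (xv_g c) :=
  Continuous.inv₀ (by fun_prop) fun x => (Real.sqrt_pos.2 (hc.trans_le (le_max_right _ _))).ne'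

theorem xv_g_lip {c : ℝ} (hc : 0 < c) (s t : ℝ) :
    |xv_g c s - xv_g c t| ≤ (c * √c)⁻¹ * |s - t| := by
  have r0 := Real.sqrt_pos.2 hc
  have ha : √c ≤ √(max s c) := Real.sqrt_le_sqrt (le_max_right _ _)
  have hb : √c ≤ √(max t c) := Real.sqrt_le_sqrt (le_max_right _ _)
  have a2 := Real.mul_self_sqrt (hc.le.trans (le_max_right s c))
  have b2 := Real.mul_self_sqrt (hc.le.trans (le_max_right t c))
  have c2 := Real.mul_self_sqrt hc.le
  have hm := abs_max_sub_max_le_abs s t c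
  rw [xv_g, xv_g]
  generalize √(max s c) = a at *
  generalize √(max t c) = b at *
  have a0 := r0.trans_le ha
  have b0 := r0.trans_le hb
  have e : a⁻¹ - b⁻¹ = (a * b * (a + b))⁻¹ * -(max s c - max t c) := by
    rw [← a2, ← b2]; field_simp; ring
  rw [e, abs_mul, abs_neg, abs_of_pos (by positivity)]
  refine mul_le_mul (inv_anti₀ (by positivity) ?_) hm (abs_nonneg _) (by positivity)
  have h1 : c ≤ a * b := by rw [← c2]; exact mul_le_mul ha hb r0.le a0.le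
  exact mul_le_mul h1 (by linarith) r0.le (by positivity)

theorem xv_g_bd {c : ℝ} (hc : 0 < c) (s : ℝ) : 0 ≤ xv_g c s ∧ xv_g c s ≤ (√c)⁻¹ :=
  ⟨by rw [xv_g]; positivity, inv_anti₀ (Real.sqrt_pos.2 hc) (Real.sqrt_le_sqrt (le_max_right _ _))⟩

theorem xv_den (x : ℝ) : 1 / 2 ≤ ‖(1 - x - Complex.I * x : ℂ)‖ := by
  refine le_of_pow_le_pow_left₀ two_ne_zero (norm_nonneg _) ?_
  rw [Complex.sq_norm, Complex.normSq_apply]
  simp
  nlinarith [sq_nonneg (x - 1 / 2)]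

theorem xv_den_ne (x : ℝ) : (1 - x - Complex.I * x : ℂ) ≠ 0 := fun h => by
  have := xv_den x
  rw [h, norm_zero] at this
  linarith

theorem xv_uf_cont : Continuous Uf := Continuous.div (by fun_prop) (by fun_prop) xv_den_ne

theorem xv_uf_unit (x : ℝ) : (starRingEnd ℂ) (Uf x) * Uf x = 1 := by
  have h := xv_den_ne x
  have e : (starRingEnd ℂ) (1 - x - Complex.I * x : ℂ) = 1 - x + Complex.I * x := by simp
  have e' : (starRingEnd ℂ) (1 - x + Complex.I * x : ℂ) = 1 - x - Complex.I * x := by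
    simp [sub_eq_add_neg]
  have h' : (1 - x + Complex.I * x : ℂ) ≠ 0 := by rw [← e]; exact (map_ne_zero _).2 h
  rw [Uf, map_div₀, e, e', div_mul_div_cancel₀ h', div_self h]

/-- The remainder function. -/
noncomputable def xv_w (x : ℝ) : ℂ := 2 * (1 + Complex.I) / (1 - x - Complex.I * x)

theorem xv_w_cont : Continuous xv_w := Continuous.div (by fun_prop) (by fun_prop) xv_den_ne

theorem xv_w_bd (x : ℝ) : ‖xv_w x‖ ≤ 8 := by
  have h := xv_den x
  have h1 : ‖(1 + Complex.I : ℂ)‖ ≤ 2 := (norm_add_le _ _).trans (by norm_num)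
  rw [xv_w, norm_div, norm_mul, div_le_iff₀ (by linarith), Complex.norm_two]
  linarith

theorem xv_uf_eq (x : ℝ) : Uf x = 1 - 2 * x + xv_w x * (x - x * x) := by
  have h := xv_den_ne x
  rw [Uf, xv_w, div_eq_iff h, add_mul, mul_right_comm, div_mul_cancel₀ _ h]
  ring

theorem xv_uf_ph {A : R} (hA : star A = A) :
    Ph 1 A Uf = 1 - (2 : ℂ) • A + Ph 1 A xv_w * (A - A * A) := by
  have s := sa_one hA
  have w := xv_w_cont
  rw [s.ph_congr (g := fun x => 1 - 2 * (x : ℂ) + xv_w x * (x - x * x)) fun x _ => xv_uf_eq x,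
    SA.ph_add (by fun_prop) (by fun_prop), SA.ph_sub (by fun_prop) (by fun_prop),
    s.ph_mul w (by fun_prop), SA.ph_sub (by fun_prop) (by fun_prop), SA.ph_smul _ (by fun_prop),
    s.ph_mul (by fun_prop) (by fun_prop), s.ph_id, s.ph_const, one_smul]

theorem xv_uf_u {A : R} (hA : star A = A) :
    star (Ph 1 A Uf) * Ph 1 A Uf = 1 ∧ Ph 1 A Uf * star (Ph 1 A Uf) = 1 := by
  have s := sa_one hA
  have w := xv_uf_cont
  have w' : Continuous fun x => (starRingEnd ℂ) (Uf x) := Complex.continuous_conj.comp w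
  rw [← s.ph_star, ← s.ph_mul w' w, ← s.ph_mul w w']
  constructor
  · rw [s.ph_congr (g := fun _ => 1) fun x _ => xv_uf_unit x, s.ph_const, one_smul]
  · rw [s.ph_congr (g := fun _ => 1) fun x _ => by rw [mul_comm, xv_uf_unit x], s.ph_const,
      one_smul]

theorem xv_uf_f {A e : R} (hA : star A = A) (h1 : e * A = 0) (h2 : A * e = 0) :
    e * Ph 1 A Uf = e ∧ Ph 1 A Uf * e = e := by
  have c := (sa_one hA).ph_comm (c := e) (by rw [h1, h2]) (by rw [mul_one, one_mul])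
  have k : Ph 1 A Uf * e = e := by
    rw [xv_uf_ph hA, add_mul, sub_mul, smul_mul_assoc, mul_assoc, sub_mul, mul_assoc, h2]
    simp
  exact ⟨by rw [c, k], k⟩

theorem xv_unit {g : R} (h : star g * g = 1) : ‖g‖ ≤ 1 := by
  have h1 := CStarRing.norm_star_mul_self (x := g)
  have h2 : ‖(1 : R)‖ ≤ 1 := Pr.one.norm_le
  rw [h] at h1
  nlinarith [norm_nonneg g]

theorem xv_ph_one {g : ℝ → ℂ} : Ph 1 (1 : R) g = g 1 • (1 : R) := by
  have s : SA (1 : R) 1 := sa_one (star_one R)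
  rw [s.ph_congr (g := fun _ => g 1) fun t ht => ?_, s.ph_const]
  rcases subsingleton_or_nontrivial R with _ | _
  · simp [spectrum.of_subsingleton] at ht
  · rw [spectrum.one_eq] at ht
    have : (t : ℂ) = 1 := ht
    have : t = 1 := by exact_mod_cast this
    rw [this]

namespace TW

/-- The local estimate in abstract form. -/
theorem xv_loc {T : TW R H} {q σ : R} (hq : Pr q) (hσ : star σ = σ) {δ s K : ℝ} (hδ : 0 < δ)
    (hs : 0 ≤ s) (t0 : T.tau q = δ) (t1 : T.tau (q * σ) = s) (t2 : T.tau (q * (σ * σ)) = δ)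
    (hK : ‖σ‖ + 1 ≤ K) {β : ℝ} (hβ : β = δ / (δ + s)) {v : R}
    (hv : v = Ph 1 (((β / 2 : ℝ) : ℂ) • ((1 + σ) * q * (1 + σ))) Uf) :
    T.n1 (v - (1 - (β : ℂ) • ((1 + σ) * q * (1 + σ)))) ≤ 2 * K ^ 3 * (√δ *
      (‖T.ι (T.dev q ((1 + σ) * (1 + σ)))‖ + ‖T.ι (T.dev q (1 + σ))‖)) ∧
    T.n1 (star v * q * v - σ * q * σ) ≤ 2 * K ^ 3 * (√δ *
      (‖T.ι (T.dev q ((1 + σ) * (1 + σ)))‖ + ‖T.ι (T.dev q (1 + σ))‖)) := by
  have n0 := norm_nonneg σ
  have K1 : 1 ≤ K := by linarith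
  have β0 : 0 < β := by rw [hβ]; positivity
  have β1 : β ≤ 1 := by rw [hβ, div_le_one (by positivity)]; linarith
  have δ0 : (δ : ℂ) ≠ 0 := by exact_mod_cast hδ.ne'
  have βe : (β : ℂ) * ((δ + s) / δ) = 1 := by
    have : ((δ : ℂ) + s) ≠ 0 := by exact_mod_cast (add_pos_of_pos_of_nonneg hδ hs).ne'
    rw [hβ]; push_cast; field_simp
  have u1 : T.tau (q * (1 + σ)) = δ + s := by rw [mul_add, mul_one, map_add, t0, t1]
  have u2 : T.tau (q * ((1 + σ) * (1 + σ))) = 2 * (δ + s) := by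
    have : q * ((1 + σ) * (1 + σ)) = q + q * σ + q * σ + q * (σ * σ) := by noncomm_ring
    rw [this, map_add, map_add, map_add, t0, t1, t2]; ring
  have lq : ‖T.ι q‖ = √δ := by rw [l2_pr hq, t0, Complex.ofReal_re]
  have hy : ‖1 + σ‖ ≤ K := (norm_add_le _ _).trans (by linarith [(Pr.one (R := R)).norm_le])
  have ys : star (1 + σ) = 1 + σ := by rw [star_add, star_one, hσ]
  have d1 : (β : ℂ) • (q * (1 + σ) * q) = (β : ℂ) • T.dev q (1 + σ) + q := by
    rw [dev, u1, t0, smul_sub, smul_smul, βe, one_smul, sub_add_cancel]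
  have d2 : (β : ℂ) • (q * ((1 + σ) * (1 + σ)) * q) =
      (β : ℂ) • T.dev q ((1 + σ) * (1 + σ)) + (2 : ℂ) • q := by
    rw [dev, u2, t0, smul_sub, smul_smul, mul_div_assoc, mul_left_comm, βe, mul_one, sub_add_cancel]
  have d3 : q * T.dev q ((1 + σ) * (1 + σ)) = T.dev q ((1 + σ) * (1 + σ)) := by
    rw [dev, mul_sub, mul_smul_comm, hq.sq, mul_assoc, hq.l]
  have ey : σ = (1 + σ) - 1 := by rw [add_sub_cancel_left]
  generalize T.dev q ((1 + σ) * (1 + σ)) = D2 at *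
  generalize T.dev q (1 + σ) = D1 at *
  generalize 1 + σ = y at *
  have As : star (((β / 2 : ℝ) : ℂ) • (y * q * y)) = ((β / 2 : ℝ) : ℂ) • (y * q * y) := by
    rw [star_smul, star_mul, star_mul, ys, hq.st, Complex.star_def, Complex.conj_ofReal, mul_assoc]
  have vu := xv_uf_u As
  have e1 := xv_uf_ph As
  have wn : ‖Ph 1 (((β / 2 : ℝ) : ℂ) • (y * q * y)) xv_w‖ ≤ 8 :=
    (sa_one As).ph_norm (by norm_num) fun t _ => xv_w_bd t
  rw [← hv] at vu e1
  generalize Ph 1 (((β / 2 : ℝ) : ℂ) • (y * q * y)) xv_w = W at *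
  have e2 : ((β / 2 : ℝ) : ℂ) • (y * q * y) - ((β / 2 : ℝ) : ℂ) • (y * q * y) *
      ((β / 2 : ℝ) : ℂ) • (y * q * y) = ((-(β ^ 2 / 4) : ℝ) : ℂ) • (y * D2 * y) := by
    have : ((β / 2 : ℝ) : ℂ) • (y * q * y) * ((β / 2 : ℝ) : ℂ) • (y * q * y) =
        ((β / 4 : ℝ) : ℂ) • (y * (β : ℂ) • (q * (y * y) * q) * y) := by
      simp only [smul_mul_assoc, mul_smul_comm, smul_smul, mul_assoc]
      congr 1; push_cast; ring
    rw [this, d2]
    simp only [mul_add, add_mul, smul_mul_assoc, mul_smul_comm, smul_smul, smul_add]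
    push_cast
    module
  obtain ⟨E, hE⟩ : ∃ E, E = v - (1 - (β : ℂ) • (y * q * y)) := ⟨_, rfl⟩
  have e3 : E = ((-(β ^ 2 / 4) : ℝ) : ℂ) • (W * y * D2 * y) := by
    rw [hE, e1, e2, smul_smul, mul_smul_comm]
    have : (2 : ℂ) * ((β / 2 : ℝ) : ℂ) = β := by push_cast; ring
    rw [this, add_sub_cancel_left]
    simp only [mul_assoc]
  have c1 : ‖((-(β ^ 2 / 4) : ℝ) : ℂ)‖ ≤ 1 / 4 := by
    rw [Complex.norm_real, Real.norm_eq_abs, abs_neg, abs_of_pos (by positivity)]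
    nlinarith
  have wy : ‖W * y‖ ≤ 8 * K := (norm_mul_le _ _).trans (by gcongr)
  have a1 := norm_nonneg (T.ι D1)
  have a2 := norm_nonneg (T.ι D2)
  have r0 := Real.sqrt_nonneg δ
  have K2 : K ^ 2 ≤ K ^ 3 := pow_le_pow_right₀ K1 (by norm_num)
  have m1 : T.n1 D2 ≤ √δ * ‖T.ι D2‖ := by
    have := n1_mul (T := T) q D2
    rwa [d3, lq] at this
  have m2 : T.n1 E ≤ 2 * K ^ 2 * (√δ * ‖T.ι D2‖) := by
    rw [e3, n1_smul]
    have b1 := n1_mul_r (T := T) (W * y * D2) y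
    have b2 := n1_mul_l (T := T) (W * y) D2
    have b3 := n1_nonneg (T := T) D2
    have b4 := n1_nonneg (T := T) (W * y * D2)
    have b5 := n1_nonneg (T := T) (W * y * D2 * y)
    calc _ ≤ 1 / 4 * (8 * K * (√δ * ‖T.ι D2‖) * K) := by
          gcongr
          exact b1.trans (mul_le_mul (b2.trans (by gcongr)) hy (norm_nonneg _) (by positivity))
      _ = _ := by ring
  have m3 : ‖T.ι E‖ ≤ 2 * K ^ 2 * ‖T.ι D2‖ := by
    rw [e3, map_smul, norm_smul]
    have b1 := T.norm_mul' (W * y * D2) y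
    have b2 := T.norm_mul (W * y) D2
    calc _ ≤ 1 / 4 * (K * (8 * K * ‖T.ι D2‖)) := by
          gcongr
          exact b1.trans (mul_le_mul hy (b2.trans (by gcongr)) (norm_nonneg _) (by positivity))
      _ = _ := by ring
  refine ⟨hE ▸ m2.trans (by gcongr; linarith), ?_⟩
  obtain ⟨ρ, hρ⟩ : ∃ ρ, ρ = star v * q + σ * q := ⟨_, rfl⟩
  have e4 : ρ = star E * q - (β : ℂ) • (y * D1) := by
    have : star E * q = star v * q - q + y * (β : ℂ) • (q * y * q) := by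
      rw [hE, star_sub, star_sub, star_one, star_smul, star_mul, star_mul, ys, hq.st,
        Complex.star_def, Complex.conj_ofReal]
      simp only [sub_mul, one_mul, smul_mul_assoc, mul_smul_comm, mul_assoc]
      abel
    rw [this, d1, hρ, ey, mul_add, mul_smul_comm, sub_mul, one_mul]
    abel
  have m4 : ‖T.ι ρ‖ ≤ 2 * K ^ 2 * (‖T.ι D2‖ + ‖T.ι D1‖) := by
    have b1 : ‖T.ι (star E * q)‖ ≤ ‖T.ι E‖ := by
      refine (T.norm_mul' _ _).trans ?_
      rw [T.norm_star]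
      exact mul_le_of_le_one_left (norm_nonneg _) hq.norm_le
    have b2 : ‖T.ι ((β : ℂ) • (y * D1))‖ ≤ 1 * (K * ‖T.ι D1‖) := by
      rw [map_smul, norm_smul, Complex.norm_real, Real.norm_eq_abs, abs_of_pos β0]
      gcongr
      exact (T.norm_mul _ _).trans (by gcongr)
    rw [e4, map_sub]
    refine (norm_sub_le _ _).trans ?_
    have : K ≤ 2 * K ^ 2 := by nlinarith
    nlinarith
  have e5 : star v * q * v - σ * q * σ = ρ * (q * v) - σ * q * star ρ := by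
    rw [hρ, star_add, star_mul, star_mul, star_star, hq.st, hσ]
    simp only [add_mul, mul_add, mul_assoc, hq.l]
    abel
  have b1 : ‖T.ι (q * v)‖ ≤ √δ := by rw [l2_unit' vu.2, lq]
  have b2 : ‖T.ι (σ * q)‖ ≤ ‖σ‖ * √δ := by rw [← lq]; exact T.norm_mul _ _
  have b3 := n1_mul (T := T) ρ (q * v)
  have b4 := n1_mul (T := T) (σ * q) (star ρ)
  rw [T.norm_star] at b4
  have b5 := norm_nonneg (T.ι ρ)
  rw [e5]
  calc _ ≤ ‖T.ι ρ‖ * √δ + ‖σ‖ * √δ * ‖T.ι ρ‖ :=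
        (n1_sub _ _).trans (add_le_add (b3.trans (by gcongr)) (b4.trans (by gcongr)))
    _ = (‖σ‖ + 1) * √δ * ‖T.ι ρ‖ := by ring
    _ ≤ K * √δ * (2 * K ^ 2 * (‖T.ι D2‖ + ‖T.ι D1‖)) := by gcongr
    _ = _ := by ring

variable {T : TW R H} {f : ℝ → R} {S : ℝ → Set R} {M : Set R} (h : T.Fl f S M)
include h

theorem Fl.rc_mem (n j : ℕ) : T.rc f S n j ∈ S (tm n j) :=
  (h.alg _).add ((h.alg _).smul _ ((h.alg _).ce_mem _)) (h.mem n j)

theorem Fl.rc_sa (n j : ℕ) : star (T.rc f S n j) = T.rc f S n j := by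
  rw [rc, star_add, star_smul, ← (h.alg _).ce_star, (h.sl_pr n j).st, (h.pr _).st,
    Complex.star_def, Complex.conj_ofReal]

theorem Fl.rc_f (n j : ℕ) : f (tm n j) * T.rc f S n j = f (tm n j) ∧
    T.rc f S n j * f (tm n j) = f (tm n j) := by
  have a := h.alg (tm n j)
  rw [rc, mul_add, add_mul, mul_smul_comm, smul_mul_assoc, ← a.ce_mul_l (h.mem n j),
    ← a.ce_mul_r (h.mem n j), (h.f_sl n j).1, (h.f_sl n j).2, a.ce_linC.zero, smul_zero, zero_add,
    (h.pr _).sq]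
  exact ⟨rfl, rfl⟩

theorem Fl.sig_mem (n j : ℕ) : T.sig f S n j ∈ S (tm n j) :=
  (h.alg _).toIsW.ph_mem (sa_one (h.rc_sa n j)) (h.alg _).one (h.rc_mem n j) _

theorem Fl.sig_sa (n j : ℕ) : star (T.sig f S n j) = T.sig f S n j :=
  ph_sa (h.rc_sa n j) fun x => (√x)⁻¹

theorem Fl.sig_comm (n j : ℕ) : f (tm n j) * T.sig f S n j = T.sig f S n j * f (tm n j) :=
  (sa_one (h.rc_sa n j)).ph_comm (by rw [(h.rc_f n j).1, (h.rc_f n j).2])
    (by rw [mul_one, one_mul]) _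

theorem Fl.xv_bd (a : ℕ) : ∃ c, 0 < c ∧ c ≤ 1 ∧ ∀ n j, j < a * 2 ^ n →
    (∀ t : ℝ, (t : ℂ) ∈ spectrum ℂ (T.rc f S n j) → c ≤ t) ∧
      T.sig f S n j = Ph 1 (T.rc f S n j) fun x => (xv_g c x : ℂ) := by
  obtain ⟨c, C, c0, hc⟩ := h.bd a
  refine ⟨min c 1, lt_min c0 one_pos, min_le_right _ _, fun n j hj => ?_⟩
  have k : ∀ t : ℝ, (t : ℂ) ∈ spectrum ℂ (T.rc f S n j) → min c 1 ≤ t := fun t ht =>
    (min_le_left _ _).trans ((hc n j hj).2 t ht).1
  exact ⟨k, (sa_one (h.rc_sa n j)).ph_congr fun t ht => by rw [xv_g, max_eq_left (k t ht)]⟩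

omit h in
theorem xv_lt (n j : ℕ) : j < (j + 1) * 2 ^ n :=
  (Nat.lt_succ_self j).trans_le (Nat.le_mul_of_pos_right _ (by positivity))

theorem Fl.xv_f_sig (n j : ℕ) : f (tm n j) * T.sig f S n j = f (tm n j) := by
  obtain ⟨c, c0, c1, hc⟩ := h.xv_bd (j + 1)
  have k := lip (T := T) (h.pr (tm n j)) (h.rc_sa n j) (star_one R)
    (by rw [(h.rc_f n j).1, (h.rc_f n j).2]) (by rw [mul_one, one_mul]) (by positivity)
    (xv_g_lip c0)
  rw [← (hc n j (xv_lt n j)).2, xv_ph_one, mul_sub _ _ 1, (h.rc_f n j).1, mul_one, sub_self,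
    map_zero, norm_zero, mul_zero, xv_g, max_eq_left c1, Real.sqrt_one, inv_one,
    Complex.ofReal_one, one_smul, mul_sub, mul_one] at k
  exact sub_eq_zero.1 (T.inj _ (norm_le_zero_iff.1 k))

theorem Fl.xv_inv (n j : ℕ) : T.sig f S n j * T.rc f S n j * T.sig f S n j = 1 := by
  obtain ⟨c, c0, -, hc⟩ := h.xv_bd (j + 1)
  obtain ⟨k, e⟩ := hc n j (xv_lt n j)
  have s := sa_one (h.rc_sa n j)
  have g := xv_g_cont c0
  have := s.ph_congr (f := fun x => (xv_g c x : ℂ) * x * xv_g c x) (g := fun _ => 1) fun t ht => by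
    have t0 := c0.trans_le (k t ht)
    have r0 := Real.sqrt_pos.2 t0
    have : (√t)⁻¹ * t * (√t)⁻¹ = 1 := by
      nth_rewrite 2 [← Real.mul_self_sqrt t0.le]
      field_simp
    rw [xv_g, max_eq_left (k t ht)]
    exact_mod_cast this
  rwa [s.ph_mul (by fun_prop) (by fun_prop), s.ph_mul (by fun_prop) (by fun_prop), s.ph_id,
    s.ph_const, one_smul, ← e] at this

theorem Fl.xv_nn (n j : ℕ) : Nn (T.sig f S n j) := by
  obtain ⟨c, c0, -, hc⟩ := h.xv_bd (j + 1)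
  rw [(hc n j (xv_lt n j)).2]
  exact nn_ph (h.rc_sa n j) (xv_g_cont c0) fun t _ => (xv_g_bd c0 t).1

/-- The defining property of `sig`. -/
theorem Fl.sig_ce (n j : ℕ) : T.sig f S n j * T.ce (S (tm n j)) (sl f n j) * T.sig f S n j =
    ((T.dl f n j / T.te f (tm n j) : ℝ) : ℂ) • (1 - f (tm n j)) := by
  have k := h.xv_inv n j
  have d0 := (h.pos n j).ne'
  have t0 := (h.te_pos n j).ne'
  rw [rc, mul_add, add_mul, ← h.sig_comm, h.xv_f_sig, h.xv_f_sig, mul_smul_comm,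
    smul_mul_assoc] at k
  rw [← eq_sub_of_add_eq k, smul_smul, ← Complex.ofReal_mul, div_mul_div_cancel₀ t0, div_self d0,
    Complex.ofReal_one, one_smul]

theorem Fl.bet_bd (n j : ℕ) : 0 < T.bet f S n j ∧ T.bet f S n j ≤ 1 := by
  have k := (nn_tau (T := T) (h.sl_pr n j).nn (h.xv_nn n j)).2
  have d0 := h.pos n j
  rw [bet, div_le_one (by positivity)]
  exact ⟨by positivity, by linarith⟩

theorem Fl.xv_sa (n j : ℕ) (c : ℝ) :
    star ((c : ℂ) • ((1 + T.sig f S n j) * sl f n j * (1 + T.sig f S n j))) =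
      (c : ℂ) • ((1 + T.sig f S n j) * sl f n j * (1 + T.sig f S n j)) := by
  rw [star_smul, star_mul, star_mul, star_add, star_one, h.sig_sa, (h.sl_pr n j).st,
    Complex.star_def, Complex.conj_ofReal, mul_assoc]

theorem Fl.vv_mem (n j : ℕ) : T.vv f S n j ∈ S (tm n (j + 1)) := by
  have a := h.alg (tm n (j + 1))
  have y := a.add a.one (h.smono _ _ (tm_mono (Nat.le_succ j)) (h.sig_mem n j))
  exact a.toIsW.ph_mem (sa_one (h.xv_sa n j _)) a.one
    (a.smul _ (a.mul (a.mul y (h.sl_mem n j)) y)) _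

theorem Fl.vv_unit (n j : ℕ) :
    star (T.vv f S n j) * T.vv f S n j = 1 ∧ T.vv f S n j * star (T.vv f S n j) = 1 :=
  xv_uf_u (h.xv_sa n j _)

theorem Fl.vv_f (n j : ℕ) : f (tm n j) * T.vv f S n j = f (tm n j) ∧
    T.vv f S n j * f (tm n j) = f (tm n j) := by
  have c : f (tm n j) * (1 + T.sig f S n j) = (1 + T.sig f S n j) * f (tm n j) := by
    rw [mul_add, add_mul, h.sig_comm, mul_one, one_mul]
  refine xv_uf_f (h.xv_sa n j _) ?_ ?_
  · rw [mul_smul_comm, ← mul_assoc, ← mul_assoc, c, mul_assoc _ _ (sl f n j), (h.f_sl n j).1,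
      mul_zero, zero_mul, smul_zero]
  · rw [smul_mul_assoc, mul_assoc, ← c, mul_assoc, ← mul_assoc (sl f n j), (h.f_sl n j).2,
      zero_mul, mul_zero, smul_zero]

theorem Fl.uu_mem (n j : ℕ) : T.UU f S n j ∈ S (tm n j) := by
  induction j with
  | zero => exact (h.alg _).one
  | succ j ih => exact (h.alg _).mul (h.vv_mem n j) (h.smono _ _ (tm_mono (Nat.le_succ j)) ih)

theorem Fl.uu_unit (n j : ℕ) :
    star (T.UU f S n j) * T.UU f S n j = 1 ∧ T.UU f S n j * star (T.UU f S n j) = 1 := by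
  induction j with
  | zero => rw [UU, star_one, one_mul]; exact ⟨rfl, rfl⟩
  | succ j ih =>
    rw [UU, star_mul]
    constructor
    · rw [mul_assoc, ← mul_assoc (star (T.vv f S n j)), (h.vv_unit n j).1, one_mul, ih.1]
    · rw [mul_assoc, ← mul_assoc (T.UU f S n j), ih.2, one_mul, (h.vv_unit n j).2]

theorem Fl.uu_norm (n j : ℕ) : ‖T.UU f S n j‖ ≤ 1 := xv_unit (h.uu_unit n j).1

theorem Fl.f_uu {n j j' : ℕ} (hj : j ≤ j') {s : ℝ} (hs : s ≤ tm n j) :
    f s * T.UU f S n j' = f s * T.UU f S n j := by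
  induction j', hj using Nat.le_induction with
  | base => rfl
  | succ i hi ih =>
    have k : f s * f (tm n i) = f s :=
      (h.pr _).comm_of (h.pr _) (h.mono _ _ (hs.trans (tm_mono hi)))
    rw [UU, ← mul_assoc, ← k, mul_assoc _ _ (T.vv f S n i), (h.vv_f n i).1, k, ih]

theorem Fl.xv_norm (a : ℕ) : ∃ K, 0 ≤ K ∧ ∀ n j, j < a * 2 ^ n → ‖T.sig f S n j‖ ≤ K := by
  obtain ⟨c, c0, -, hc⟩ := h.xv_bd a
  refine ⟨(√c)⁻¹, by positivity, fun n j hj => ?_⟩
  rw [(hc n j hj).2]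
  refine (sa_one (h.rc_sa n j)).ph_norm (by positivity) fun t _ => ?_
  rw [Complex.norm_real, Real.norm_eq_abs, abs_of_nonneg (xv_g_bd c0 t).1]
  exact (xv_g_bd c0 t).2

theorem Fl.xv_sq (n j : ℕ) :
    T.tau (sl f n j * (T.sig f S n j * T.sig f S n j)) = (T.dl f n j : ℝ) := by
  have a := h.alg (tm n j)
  have t0 := (h.te_pos n j).ne'
  rw [T.tau_comm, ← a.ce_tau _ (a.mul (h.sig_mem n j) (h.sig_mem n j)), mul_assoc, T.tau_comm,
    h.sig_ce, map_smul, h.tau_te, smul_eq_mul, ← Complex.ofReal_mul, div_mul_cancel₀ _ t0]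

/-- The local estimates. -/
theorem Fl.loc (a : ℕ) : ∃ K, 1 ≤ K ∧ ∀ n j, j < a * 2 ^ n → ‖T.sig f S n j‖ ≤ K ∧
    T.n1 (T.vv f S n j - (1 - ((T.bet f S n j : ℝ) : ℂ) •
      ((1 + T.sig f S n j) * sl f n j * (1 + T.sig f S n j)))) ≤ K * (√(T.dl f n j) * T.er f S n j) ∧
    T.n1 (star (T.vv f S n j) * sl f n j * T.vv f S n j -
      T.sig f S n j * sl f n j * T.sig f S n j) ≤ K * (√(T.dl f n j) * T.er f S n j) := by
  obtain ⟨K, K0, hK⟩ := h.xv_norm a
  have k : K + 1 ≤ (K + 1) ^ 3 := le_self_pow₀ (by linarith) (by norm_num)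
  refine ⟨2 * (K + 1) ^ 3, by linarith, fun n j hj => ⟨by linarith [hK n j hj], ?_⟩⟩
  obtain ⟨k1, k2⟩ := nn_tau (T := T) (h.sl_pr n j).nn (h.xv_nn n j)
  exact xv_loc (h.sl_pr n j) (h.sig_sa n j) (h.pos n j) k2 (h.tau_sl n j) k1 (h.xv_sq n j)
    (by linarith [hK n j hj]) rfl rfl

theorem Fl.xv_ce_bd (a : ℕ) : ∃ C, 1 ≤ C ∧ ∀ n j, j < a * 2 ^ n →
    ‖(((T.dl f n j)⁻¹ : ℝ) : ℂ) • T.ce (S (tm n j)) (sl f n j)‖ ≤ C := by
  obtain ⟨C, C1, hC⟩ := h.ce_bd a
  refine ⟨C, C1, fun n j hj => ?_⟩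
  have d0 := h.pos n j
  rw [norm_smul, Complex.norm_real, Real.norm_eq_abs, abs_of_pos (by positivity),
    inv_mul_le_iff₀ d0, mul_comm]
  exact hC n j hj

theorem Fl.xv_ac_rc (a : ℕ) : T.AvC f a (T.rc f S) := by
  obtain ⟨C, C1, hC⟩ := h.xv_ce_bd a
  have k1 : T.AvC f a fun n j => ((T.te f (tm n j) : ℝ) : ℂ) • (1 : R) :=
    h.ac_of_inc (x := fun t => ((T.te f t : ℝ) : ℂ) • (1 : R)) (K := 1) fun n j j' _ _ => by
      rw [← sub_smul, map_smul, norm_smul, l2_one h.one, mul_one, one_mul, ← h.tau_te, ← h.tau_te,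
        ← map_sub, sub_sub_sub_cancel_left, ← neg_sub, map_neg, norm_neg]
      exact tau_le h.one _
  have k2 : T.AvC f a fun n j => f (tm n j) :=
    h.ac_of_inc (x := f) (K := 1) fun n j j' _ _ => (one_mul _).ge
  have k3 := h.ac_add (h.ac_mul k1 (h.ac_ce a) (K := C) (fun n j _ => by
    rw [norm_smul, Complex.norm_real, Real.norm_eq_abs, abs_of_pos (h.te_pos n j)]
    exact (mul_le_one₀ (h.te_le _) (norm_nonneg _) Pr.one.norm_le).trans C1) hC) k2
  convert k3 using 3 with n j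
  rw [rc, smul_mul_assoc, one_mul, smul_smul, ← Complex.ofReal_mul, div_eq_mul_inv]

theorem Fl.ac_sig (a : ℕ) : T.AvC f a (T.sig f S) := by
  obtain ⟨c, c0, -, hc⟩ := h.xv_bd a
  refine h.ac_of_le (h.xv_ac_rc a) (K := (c * √c)⁻¹) fun n j n' j' hj hj' => ?_
  have k := lip (T := T) Pr.one (h.rc_sa n j) (h.rc_sa n' j') (by rw [mul_one, one_mul])
    (by rw [mul_one, one_mul]) (by positivity) (xv_g_lip c0)
  rwa [one_mul, one_mul, ← (hc n j hj).2, ← (hc n' j' hj').2] at k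

theorem Fl.ac_bet (a : ℕ) : T.AvC f a fun n j => ((T.bet f S n j : ℝ) : ℂ) • (1 : R) := by
  obtain ⟨C, C1, hC⟩ := h.xv_ce_bd a
  obtain ⟨K, K0, hK⟩ := h.xv_norm a
  have k1 := h.ac_mul (h.ac_ce a) (h.ac_sig a) (K := C + K)
    (fun n j hj => by linarith [hC n j hj]) fun n j hj => by linarith [hK n j hj]
  have k2 : ∀ n j, ∃ u : ℝ, 0 ≤ u ∧ T.bet f S n j = (1 + u)⁻¹ ∧ T.tau ((((T.dl f n j)⁻¹ : ℝ) : ℂ) •
      T.ce (S (tm n j)) (sl f n j) * T.sig f S n j) = u := fun n j => by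
    obtain ⟨k1, k2⟩ := nn_tau (T := T) (h.sl_pr n j).nn (h.xv_nn n j)
    have d0 := h.pos n j
    refine ⟨(T.dl f n j)⁻¹ * (T.tau (sl f n j * T.sig f S n j)).re, by positivity, ?_, ?_⟩
    · rw [bet]; field_simp
    · rw [smul_mul_assoc, map_smul, T.tau_comm, (h.alg _).ce_tau _ (h.sig_mem n j), T.tau_comm,
        Complex.ofReal_mul, ← k1, smul_eq_mul]
  refine h.ac_of_le k1 (K := 1) fun n j n' j' _ _ => ?_
  obtain ⟨u, u0, u1, u2⟩ := k2 n j
  obtain ⟨w, w0, w1, w2⟩ := k2 n' j'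
  rw [← sub_smul, map_smul, norm_smul, l2_one h.one, mul_one, one_mul]
  refine le_trans ?_ (tau_le h.one _)
  rw [map_sub, u2, w2, u1, w1, ← Complex.ofReal_sub, ← Complex.ofReal_sub, Complex.norm_real,
    Complex.norm_real, Real.norm_eq_abs, Real.norm_eq_abs]
  have e : (1 + u)⁻¹ - (1 + w)⁻¹ = ((1 + u) * (1 + w))⁻¹ * -(u - w) := by field_simp; ring
  rw [e, abs_mul, abs_neg, abs_of_pos (by positivity)]
  exact mul_le_of_le_one_left (abs_nonneg _) (inv_le_one_of_one_le₀ (by nlinarith))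

theorem Fl.er_sum (a : ℕ) : Tendsto
    (fun n => ∑ j ∈ range (a * 2 ^ n), √(T.dl f n j) * T.er f S n j) atTop (𝓝 0) := by
  obtain ⟨K, K0, hK⟩ := h.xv_norm a
  have k1 := h.ac_add (h.ac_const a 1) (h.ac_sig a)
  have b : ∀ n j, j < a * 2 ^ n → ‖1 + T.sig f S n j‖ ≤ 1 + K := fun n j hj =>
    (norm_add_le _ _).trans (add_le_add Pr.one.norm_le (hK n j hj))
  have m : ∀ n j, 1 + T.sig f S n j ∈ S (tm n j) := fun n j =>
    (h.alg _).add (h.alg _).one (h.sig_mem n j)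
  have k2 := h.sum_sqrt (h.ts_proc m k1)
  have k3 := h.sum_sqrt (h.ts_proc (fun n j => (h.alg _).mul (m n j) (m n j)) (h.ac_mul k1 k1 b b))
  have k4 := k3.add k2
  rw [add_zero] at k4
  refine k4.congr fun n => ?_
  rw [← sum_add_distrib]
  exact sum_congr rfl fun j _ => by rw [er, abs_norm, abs_norm, mul_add √_]

end TW

end Pool.Agent.Lib.MP_263241_an
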