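import Pool.Agent.Lib.MP_263241_an.XB

/-! Flags with a filtration: definitions, small increments, averaged Cauchy processes. -/

namespace Pool.Agent.Lib.MP_263241_an

open Filter Topology Finset

variable {R H : Type*} [CStarAlgebra R] [NormedAddCommGroup H] [InnerProductSpace ℂ H]

/-- The dyadic times. -/
noncomputable def tm (n j : ℕ) : ℝ := j / 2 ^ n

/-- The slices. -/
noncomputable def sl (f : ℝ → R) (n j : ℕ) : R := f (tm n (j + 1)) - f (tm n j)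

/-- A unimodular function with value `1` at `0` and `-1` at `1`. -/
noncomputable def Uf (x : ℝ) : ℂ := (1 - x + Complex.I * x) / (1 - x - Complex.I * x)

namespace TW

variable (T : TW R H) (f : ℝ → R) (S : ℝ → Set R)

/-- The trace of a slice. -/
noncomputable def dl (n j : ℕ) : ℝ := (T.tau (sl f n j)).re

/-- The trace of the unrevealed part. -/
noncomputable def te (t : ℝ) : ℝ := (T.tau (1 - f t)).re

/-- The normalized covariance of a slice. -/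
noncomputable def rc (n j : ℕ) : R :=
  ((T.te f (tm n j) / T.dl f n j : ℝ) : ℂ) • T.ce (S (tm n j)) (sl f n j) + f (tm n j)

/-- The inverse square root of the covariance. -/
noncomputable def sig (n j : ℕ) : R := Ph 1 (T.rc f S n j) fun x => (((√x)⁻¹ : ℝ) : ℂ)

/-- The normalizing constant. -/
noncomputable def bet (n j : ℕ) : ℝ :=
  T.dl f n j / (T.dl f n j + (T.tau (sl f n j * T.sig f S n j)).re)

/-- The approximate reflection. -/
noncomputable def vv (n j : ℕ) : R :=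
  Ph 1 (((T.bet f S n j / 2 : ℝ) : ℂ) • ((1 + T.sig f S n j) * sl f n j * (1 + T.sig f S n j))) Uf

/-- The products of the reflections. -/
noncomputable def UU (n : ℕ) : ℕ → R
  | 0 => 1
  | j + 1 => T.vv f S n j * UU n j

/-- The local error. -/
noncomputable def er (n j : ℕ) : ℝ :=
  ‖T.ι (T.dev (sl f n j) ((1 + T.sig f S n j) * (1 + T.sig f S n j)))‖ +
    ‖T.ι (T.dev (sl f n j) (1 + T.sig f S n j))‖

/-- A flag with a filtration. -/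
structure Fl (M : Set R) : Prop where
  one : T.tau 1 = 1
  pr : ∀ t, Pr (f t)
  mono : ∀ s t, s ≤ t → f t * f s = f s
  zero : f 0 = 0
  alg : ∀ t, T.Alg 1 (S t)
  smono : ∀ s t, s ≤ t → S s ⊆ S t
  mem : ∀ n j, f (tm n j) ∈ S (tm n j)
  malg : T.Alg 1 M
  sub : ∀ t, S t ⊆ M
  pos : ∀ n j, 0 < T.dl f n j
  full : Tendsto (fun a : ℕ => T.te f a) atTop (𝓝 0)
  mesh : ∀ ε > 0, ∃ N, ∀ n ≥ N, ∀ j, T.dl f n j ≤ ε
  ts : ∀ a : ℕ, ∀ x ∈ M, Tendsto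
    (fun n => ∑ j ∈ range (a * 2 ^ n), ‖T.ι (T.dev (sl f n j) x)‖ ^ 2) atTop (𝓝 0)
  bd : ∀ a : ℕ, ∃ c C, 0 < c ∧ ∀ n j, j < a * 2 ^ n → Bd (T.rc f S n j) c C

/-- The increments of the flag are white. -/
def Wh : Prop := ∀ n j j', j ≤ j' → ∀ y ∈ S (tm n j),
  T.tau (y * (1 - f (tm n j'))) * T.te f (tm n j) = T.tau (y * (1 - f (tm n j))) * T.te f (tm n j')

/-- Processes that are Cauchy on average. -/
def AvC (a : ℕ) (x : ℕ → ℕ → R) : Prop := ∀ ε > 0, ∃ N, ∀ n ≥ N, ∀ k,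
  ∑ i ∈ range (a * 2 ^ (n + k)), T.dl f (n + k) i * ‖T.ι (x (n + k) i - x n (i / 2 ^ k))‖ ^ 2 ≤ ε

/-- Small increments. -/
def Sm (D : Set R) (δ η : ℝ) (x : R) : Prop :=
  ‖T.ι x‖ ^ 2 ≤ δ * η ^ 2 ∧ ∀ d ∈ D, ‖T.tau (d * x)‖ ≤ δ * η * ‖T.ι d‖

/-- The limit of the products. -/
structure Lm (M : Set R) (U : R) : Prop where
  mem : U ∈ M
  u1 : star U * U = 1
  u2 : U * star U = 1
  lim : ∀ a : ℕ, T.Lim (fun n => f a * T.UU f S n (a * 2 ^ n)) (f a * U)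

variable {T f S} {M D : Set R} {δ η η' : ℝ} {x y : R}

theorem _root_.Pool.Agent.Lib.MP_263241_an.tm_mono {n j j' : ℕ} (h : j ≤ j') : tm n j ≤ tm n j' := by
  unfold tm
  gcongr

theorem _root_.Pool.Agent.Lib.MP_263241_an.tm_zero (n : ℕ) : tm n 0 = 0 := by simp [tm]

theorem _root_.Pool.Agent.Lib.MP_263241_an.tm_mul (n k j : ℕ) : tm (n + k) (j * 2 ^ k) = tm n j := by
  unfold tm
  push_cast
  rw [pow_add, mul_div_mul_right _ _ (by positivity)]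

theorem _root_.Pool.Agent.Lib.MP_263241_an.tm_top (n a : ℕ) : tm n (a * 2 ^ n) = a := by
  unfold tm
  push_cast
  rw [mul_div_cancel_right₀ _ (by positivity)]

theorem _root_.Pool.Agent.Lib.MP_263241_an.tm_div (n k i : ℕ) :
    tm n (i / 2 ^ k) ≤ tm (n + k) i ∧ tm (n + k) (i + 1) ≤ tm n (i / 2 ^ k + 1) := by
  rw [← tm_mul n k, ← tm_mul n k (i / 2 ^ k + 1)]
  refine ⟨tm_mono (Nat.div_mul_le_self _ _), tm_mono ?_⟩
  rw [add_mul, one_mul]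
  exact Nat.lt_div_mul_add (by positivity)

theorem xw_sq {a : ℝ} (hδ : 0 ≤ δ) (hη : 0 ≤ η) (h : a ^ 2 ≤ δ * η ^ 2) : a ≤ √δ * η :=
  le_trans (le_abs_self a) (abs_le_of_sq_le_sq (by rwa [mul_pow, Real.sq_sqrt hδ]) (by positivity))

theorem Sm.add (hδ : 0 ≤ δ) (hη : 0 ≤ η) (hη' : 0 ≤ η') (h : T.Sm D δ η x) (h' : T.Sm D δ η' y) :
    T.Sm D δ (η + η') (x + y) := by
  refine ⟨?_, fun d hd => ?_⟩
  · have h1 : ‖T.ι (x + y)‖ ≤ √δ * (η + η') := by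
      rw [map_add, mul_add]
      exact (norm_add_le _ _).trans (add_le_add (xw_sq hδ hη h.1) (xw_sq hδ hη' h'.1))
    have h2 := pow_le_pow_left₀ (norm_nonneg _) h1 2
    rwa [mul_pow, Real.sq_sqrt hδ] at h2
  · rw [mul_add, map_add, mul_add, add_mul]
    exact (norm_add_le _ _).trans (add_le_add (h.2 d hd) (h'.2 d hd))

theorem Sm.neg (h : T.Sm D δ η x) : T.Sm D δ η (-x) :=
  ⟨by rw [map_neg, norm_neg]; exact h.1, fun d hd => by
    rw [mul_neg, map_neg, norm_neg]; exact h.2 d hd⟩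

theorem Sm.smul (h : T.Sm D δ η x) (c : ℂ) : T.Sm D δ (‖c‖ * η) (c • x) := by
  refine ⟨?_, fun d hd => ?_⟩
  · rw [map_smul, norm_smul, mul_pow, mul_pow, mul_left_comm]
    exact mul_le_mul_of_nonneg_left h.1 (by positivity)
  · rw [mul_smul_comm, map_smul, norm_smul, mul_left_comm, mul_assoc]
    exact mul_le_mul_of_nonneg_left (h.2 d hd) (norm_nonneg _)

theorem Sm.mono (hδ : 0 ≤ δ) (hη : 0 ≤ η) (h : T.Sm D δ η x) (h' : η ≤ η') : T.Sm D δ η' x :=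
  ⟨h.1.trans (by gcongr), fun d hd => (h.2 d hd).trans (by gcongr)⟩

theorem xw_slice (hD : T.Alg 1 D) {q : R} (hq : Pr q) {C : ℝ} (h : ‖T.ce D q‖ ≤ C) (hx : x ∈ D) :
    ‖T.ι (q * x)‖ ^ 2 ≤ C * ‖T.ι x‖ ^ 2 := by
  have h1 : ((‖T.ι (q * x)‖ ^ 2 : ℝ) : ℂ) = T.tau (star x * (T.ce D q * x)) := by
    rw [← T.tau_sq, star_mul, hq.st, mul_assoc, hq.l, ← mul_assoc, ← mul_assoc, T.tau_comm _ x,
      T.tau_comm _ x, ← mul_assoc, ← mul_assoc, hD.ce_tau q (hD.mul hx (hD.star hx))]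
  have h2 := tau_mul_le (T := T) (star x) (T.ce D q * x)
  rw [← h1, Complex.norm_real, Real.norm_of_nonneg (by positivity), T.norm_star] at h2
  have h3 : ‖T.ι (T.ce D q * x)‖ ≤ C * ‖T.ι x‖ := (T.norm_mul _ _).trans (by gcongr)
  calc _ ≤ ‖T.ι x‖ * (C * ‖T.ι x‖) := h2.trans (by gcongr)
    _ = _ := by ring

theorem l2_slice (hD : T.Alg 1 D) {q : R} (hq : Pr q) {C : ℝ} (h : ‖T.ce D q‖ ≤ C) (hx : x ∈ D) :
    ‖T.ι (q * x)‖ ^ 2 ≤ C * ‖T.ι x‖ ^ 2 ∧ ‖T.ι (x * q)‖ ^ 2 ≤ C * ‖T.ι x‖ ^ 2 := by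
  refine ⟨xw_slice hD hq h hx, ?_⟩
  have := xw_slice hD hq h (hD.star hx)
  rwa [← T.norm_star, star_mul, star_star, hq.st, T.norm_star] at this

theorem xw_one (hD : T.Alg 1 D) {q : R} (hq : Pr q) {C K : ℝ} (hδ : 0 ≤ δ) (hC : 1 ≤ C)
    (h : ‖T.ce D q‖ ≤ C * δ) {X Y : R} (hX : X ∈ D) (hY : Y ∈ D) :
    (‖Y‖ ≤ K → T.Sm D δ (C * K * ‖T.ι X‖) (X * q * Y)) ∧
      (‖X‖ ≤ K → T.Sm D δ (C * K * ‖T.ι Y‖) (X * q * Y)) := by
  have hC0 : 0 ≤ C := by linarith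
  have key : ∀ {a b c : ℝ}, 0 ≤ K → 0 ≤ a → a ≤ K * b → b ^ 2 ≤ C * δ * c ^ 2 → 0 ≤ b →
      a ^ 2 ≤ δ * (C * K * c) ^ 2 := by
    intro a b c hK ha h1 h2 hb
    have h3 : C ≤ C ^ 2 := by nlinarith
    calc a ^ 2 ≤ (K * b) ^ 2 := by gcongr
      _ = K ^ 2 * b ^ 2 := by ring
      _ ≤ K ^ 2 * (C ^ 2 * δ * c ^ 2) := by
        refine mul_le_mul_of_nonneg_left (h2.trans ?_) (by positivity)
        gcongr
      _ = _ := by ring
  have ht : ∀ d ∈ D, T.tau (d * (X * q * Y)) = T.tau (Y * d * (X * T.ce D q)) := fun d hd => by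
    rw [← mul_assoc d, T.tau_comm _ Y, ← mul_assoc, ← mul_assoc, ← mul_assoc,
      hD.ce_tau q (hD.mul (hD.mul hY hd) hX)]
  refine ⟨fun h1 => ?_, fun h1 => ?_⟩
  · have hK := (norm_nonneg _).trans h1
    refine ⟨key hK (norm_nonneg _) ((T.norm_mul' _ _).trans (by gcongr))
      (l2_slice hD hq h hX).2 (norm_nonneg _), fun d hd => ?_⟩
    rw [ht d hd]
    have a1 : ‖T.ι (Y * d)‖ ≤ K * ‖T.ι d‖ := (T.norm_mul _ _).trans (by gcongr)
    have a2 : ‖T.ι (X * T.ce D q)‖ ≤ C * δ * ‖T.ι X‖ := (T.norm_mul' _ _).trans (by gcongr)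
    calc _ ≤ K * ‖T.ι d‖ * (C * δ * ‖T.ι X‖) := (tau_mul_le _ _).trans (by gcongr)
      _ = _ := by ring
  · have hK := (norm_nonneg _).trans h1
    refine ⟨key hK (norm_nonneg _) (by rw [mul_assoc]; exact (T.norm_mul _ _).trans (by gcongr))
      (l2_slice hD hq h hY).1 (norm_nonneg _), fun d hd => ?_⟩
    rw [ht d hd, T.tau_comm, ← mul_assoc, T.tau_comm]
    have a1 : ‖X * T.ce D q‖ ≤ K * (C * δ) := (norm_mul_le _ _).trans (by gcongr)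
    have a2 : ‖T.ι (X * T.ce D q * Y)‖ ≤ K * (C * δ) * ‖T.ι Y‖ :=
      (T.norm_mul _ _).trans (by gcongr)
    calc _ ≤ ‖T.ι d‖ * (K * (C * δ) * ‖T.ι Y‖) := (tau_mul_le _ _).trans (by gcongr)
      _ = _ := by ring

/-- The difference of two increments driven by the same slice. -/
theorem sm_diff (hD : T.Alg 1 D) {q : R} (hq : Pr q) {C K : ℝ} (hδ : 0 ≤ δ) (hC : 1 ≤ C)
    (h : ‖T.ce D q‖ ≤ C * δ) {X Y X' Y' : R} (hX : X ∈ D) (hY : Y ∈ D) (hX' : X' ∈ D)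
    (hY' : Y' ∈ D) (h1 : ‖Y‖ ≤ K) (h2 : ‖X'‖ ≤ K) :
    T.Sm D δ (C * K * (‖T.ι (X - X')‖ + ‖T.ι (Y - Y')‖)) (X * q * Y - X' * q * Y') := by
  have hK := (norm_nonneg _).trans h1
  have hC0 : 0 ≤ C := by linarith
  have h3 := Sm.add hδ (by positivity) (by positivity)
    ((xw_one hD hq hδ hC h (hD.sub hX hX') hY).1 h1)
    ((xw_one hD hq hδ hC h hX' (hD.sub hY hY')).2 h2)
  rwa [← mul_add, sub_mul, sub_mul, mul_sub, sub_add_sub_cancel] at h3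

theorem Sm.step (hD : T.Alg 1 D) (hδ : 0 ≤ δ) (h : T.Sm D δ η x) {d E : R} (hd : d ∈ D) {K : ℝ}
    (h1 : ‖d + x‖ ≤ K) (h2 : ‖d + x + E‖ ≤ K) :
    ‖T.ι (d + x + E)‖ ^ 2 ≤ (1 + δ) * ‖T.ι d‖ ^ 2 + 2 * δ * η ^ 2 + 2 * K * T.n1 E := by
  have key : ∀ a : R, ‖a‖ ≤ K → T.ip a E ≤ K * T.n1 E := fun a ha => by
    rw [ip, T.tau_comm, mul_comm]
    refine (Complex.re_le_norm _).trans ((tau_le_n1 _ _).trans ?_)
    rw [_root_.norm_star]
    exact mul_le_mul_of_nonneg_left ha (n1_nonneg _)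
  have a1 : ‖T.ι (d + x + E)‖ ^ 2 = ‖T.ι (d + x)‖ ^ 2 + T.ip (d + x) E + T.ip (d + x + E) E := by
    rw [l2_add_sq (d + x), ip_add_l (d + x), ip_self]
    ring
  have a2 : T.ip d x ≤ δ * η * ‖T.ι d‖ := by
    rw [← T.norm_star]
    exact (Complex.re_le_norm _).trans (h.2 _ (hD.star hd))
  rw [a1, l2_add_sq]
  nlinarith [key _ h1, key _ h2, h.1, mul_nonneg hδ (sq_nonneg (η - ‖T.ι d‖))]

section fl

variable (h : T.Fl f S M)
include h

theorem Fl.sl_pr (n j : ℕ) : Pr (sl f n j) :=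
  (h.pr _).sub (h.pr _) (h.mono _ _ (tm_mono j.le_succ))

theorem Fl.sl_mem (n j : ℕ) : sl f n j ∈ S (tm n (j + 1)) :=
  (h.alg _).sub (h.mem n (j + 1)) (h.smono _ _ (tm_mono j.le_succ) (h.mem n j))

theorem Fl.f_sl (n j : ℕ) : f (tm n j) * sl f n j = 0 ∧ sl f n j * f (tm n j) = 0 := by
  have h1 : sl f n j * f (tm n j) = 0 := by
    rw [sl, sub_mul, h.mono _ _ (tm_mono j.le_succ), (h.pr _).sq, sub_self]
  exact ⟨(h.sl_pr n j).orth (h.pr _) h1, h1⟩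

theorem Fl.tau_sl (n j : ℕ) : T.tau (sl f n j) = (T.dl f n j : ℝ) := (tau_pr_re (h.sl_pr n j)).1

theorem Fl.l2_sl (n j : ℕ) : ‖T.ι (sl f n j)‖ = √(T.dl f n j) := l2_pr (h.sl_pr n j)

theorem Fl.tau_te (t : ℝ) : T.tau (1 - f t) = (T.te f t : ℝ) :=
  (tau_pr_re (Pr.one.sub (h.pr t) (one_mul _))).1

theorem Fl.xw_te (t : ℝ) : 0 ≤ T.te f t := (tau_pr_re (Pr.one.sub (h.pr t) (one_mul _))).2

theorem Fl.te_succ (n j : ℕ) : T.te f (tm n (j + 1)) = T.te f (tm n j) - T.dl f n j := by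
  have _ := h
  rw [te, te, dl, ← Complex.sub_re, ← map_sub, sl, sub_sub, add_sub_cancel]

theorem Fl.te_anti {s t : ℝ} (hst : s ≤ t) : T.te f t ≤ T.te f s := by
  have h1 := (tau_pr_re (T := T) ((h.pr t).sub (h.pr s) (h.mono _ _ hst))).2
  simp only [te, map_sub, Complex.sub_re] at h1 ⊢
  linarith

theorem Fl.te_pos (n j : ℕ) : 0 < T.te f (tm n j) := by
  linarith [h.te_succ n j, h.xw_te (tm n (j + 1)), h.pos n j]

theorem Fl.te_le (t : ℝ) : T.te f t ≤ 1 := by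
  have h1 := (tau_pr_re (T := T) (h.pr t)).2
  rw [te, map_sub, h.one, Complex.sub_re, Complex.one_re]
  linarith

theorem Fl.sum_dl (n N : ℕ) : ∑ j ∈ range N, T.dl f n j ≤ 1 := by
  rw [sum_congr rfl (g := fun j => T.te f (tm n j) - T.te f (tm n (j + 1))) fun j _ => by
    rw [h.te_succ, sub_sub_cancel], sum_range_sub']
  linarith [h.te_le (tm n 0), h.xw_te (tm n N)]

theorem Fl.sum_block (n k c : ℕ) :
    ∑ r ∈ range (2 ^ k), sl f (n + k) (c * 2 ^ k + r) = sl f n c := by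
  have _ := h
  have h1 := sum_range_sub (fun r => f (tm (n + k) (c * 2 ^ k + r))) (2 ^ k)
  rw [add_zero, tm_mul, ← add_one_mul, tm_mul] at h1
  exact h1

theorem Fl.ce_bd (a : ℕ) : ∃ C, 1 ≤ C ∧ ∀ n j, j < a * 2 ^ n →
    ‖T.ce (S (tm n j)) (sl f n j)‖ ≤ C * T.dl f n j := by
  obtain ⟨c, C, hc, hb⟩ := h.bd a
  have h0 : 0 < T.te f a := by
    have := h.te_pos 0 (a * 2 ^ 0)
    rwa [tm_top] at this
  refine ⟨max 1 ((|C| + 1) / T.te f a), le_max_left _ _, fun n j hj => ?_⟩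
  have h1 := (hb n j hj).norm_le (abs_nonneg C) (by linarith [abs_nonneg C]) (le_abs_self C)
  have h2 : T.te f a ≤ T.te f (tm n j) := h.te_anti (by rw [← tm_top n a]; exact tm_mono hj.le)
  have h3 := h.pos n j
  have h4 : T.te f (tm n j) / T.dl f n j * ‖T.ce (S (tm n j)) (sl f n j)‖ ≤ |C| + 1 := by
    have h5 := norm_sub_le (T.rc f S n j) (f (tm n j))
    rw [rc, add_sub_cancel_right, norm_smul, Complex.norm_real,
      Real.norm_of_nonneg (div_nonneg (h.xw_te _) h3.le), ← rc] at h5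
    linarith [(h.pr (tm n j)).norm_le]
  rw [div_mul_eq_mul_div, div_le_iff₀ h3] at h4
  refine le_trans ?_ (mul_le_mul_of_nonneg_right (le_max_right _ _) h3.le)
  rw [div_mul_eq_mul_div, le_div_iff₀ h0]
  nlinarith [mul_le_mul_of_nonneg_left h2 (norm_nonneg (T.ce (S (tm n j)) (sl f n j)))]

end fl

end TW

end Pool.Agent.Lib.MP_263241_an
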