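import Pool.Agent.Lib.MP_263241_an.XV

/-! The rotated flag is white. -/

namespace Pool.Agent.Lib.MP_263241_an

open Filter Topology Finset

variable {R H : Type*} [CStarAlgebra R] [NormedAddCommGroup H] [InnerProductSpace ℂ H]

theorem xy_compl {V : R} (h1 : star V * V = 1) (x : R) :
    1 - star V * x * V = star V * (1 - x) * V := by
  rw [mul_sub, sub_mul, mul_one, h1]

theorem xy_top (n : ℕ) : Tendsto (fun k : ℕ => n + k) atTop atTop :=
  tendsto_atTop_mono (fun k => Nat.le_add_left k n) tendsto_id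

theorem xy_tele {B : ℕ → ℂ} {b : ℕ → ℝ} (hb : ∀ i, 0 ≤ b i) {i i' N : ℕ} (h1 : i ≤ i')
    (h2 : i' ≤ N) (h : ∀ l, i ≤ l → l < N → ‖B (l + 1) - B l‖ ≤ b l) :
    ‖B i' - B i‖ ≤ ∑ l ∈ range N, b l := by
  rw [← Finset.sum_Ico_sub B h1]
  refine (norm_sum_le _ _).trans ((Finset.sum_le_sum fun l hl => ?_).trans
    (Finset.sum_le_sum_of_subset_of_nonneg (s := Ico i i') (fun l hl => ?_) fun l _ _ => hb l))
  · exact h l (mem_Ico.1 hl).1 ((mem_Ico.1 hl).2.trans_le h2)
  · exact mem_range.2 ((mem_Ico.1 hl).2.trans_le h2)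

namespace TW

variable {T : TW R H} {f : ℝ → R} {S : ℝ → Set R} {M : Set R} {U : R}

theorem xy_tau {V : R} (h2 : V * star V = 1) (x : R) : T.tau (star V * x * V) = T.tau x := by
  rw [T.tau_comm, ← mul_assoc, h2, one_mul]

theorem xy_er (n j : ℕ) : 0 ≤ T.er f S n j := add_nonneg (norm_nonneg _) (norm_nonneg _)

/-- One step of the normalized functional. -/
theorem Fl.xy_step (h : T.Fl f S M) {n j : ℕ} {y : R} (hy : y ∈ S (tm n j)) {b c : ℝ} (hc : 0 < c)
    (hc' : c ≤ T.te f (tm n (j + 1)))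
    (hb : T.n1 (star (T.vv f S n j) * sl f n j * T.vv f S n j -
      T.sig f S n j * sl f n j * T.sig f S n j) ≤ b) :
    ‖T.tau (y * (1 - star (T.UU f S n (j + 1)) * f (tm n (j + 1)) * T.UU f S n (j + 1))) /
        (T.te f (tm n (j + 1)) : ℝ) -
      T.tau (y * (1 - star (T.UU f S n j) * f (tm n j) * T.UU f S n j)) / (T.te f (tm n j) : ℝ)‖ ≤
      ‖y‖ / c * b := by
  have hA := h.alg (tm n j)
  have u1 := (h.uu_unit n j).1
  have v1 := (h.vv_unit n j).1
  have un := h.uu_norm n j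
  have um := h.uu_mem n j
  have sm := h.sig_mem n j
  have sc := h.sig_ce n j
  have vf := h.vv_f n j
  have t1 := h.te_succ n j
  have t2 := h.te_pos n j
  have t3 := h.te_pos n (j + 1)
  have fs : f (tm n (j + 1)) = f (tm n j) + sl f n j := by rw [sl]; abel
  have e0 : T.UU f S n (j + 1) = T.vv f S n j * T.UU f S n j := rfl
  have v2 : star (T.vv f S n j) * f (tm n j) = f (tm n j) := by
    have := congrArg star vf.1
    rwa [star_mul, (h.pr _).st] at this
  rw [e0]
  generalize T.UU f S n j = W at *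
  generalize T.vv f S n j = v at *
  generalize T.sig f S n j = σ at *
  set E := star v * sl f n j * v - σ * sl f n j * σ with hE
  have hY : W * y * star W ∈ S (tm n j) := hA.mul (hA.mul um hy) (hA.star um)
  have nY : ‖W * y * star W‖ ≤ ‖y‖ := by
    refine (norm_mul_le _ _).trans ?_
    rw [_root_.norm_star]
    refine (mul_le_of_le_one_right (norm_nonneg _) un).trans ((norm_mul_le _ _).trans ?_)
    exact mul_le_of_le_one_left (norm_nonneg _) un
  have cj : ∀ x, T.tau (y * (star W * x * W)) = T.tau (W * y * star W * x) := fun x => by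
    rw [← mul_assoc, T.tau_comm]
    simp only [mul_assoc]
  have e1 : 1 - star (v * W) * f (tm n (j + 1)) * (v * W) =
      star W * (1 - f (tm n j) - σ * sl f n j * σ - E) * W := by
    have : star (v * W) * f (tm n (j + 1)) * (v * W) =
        star W * (star v * f (tm n (j + 1)) * v) * W := by simp only [star_mul, mul_assoc]
    rw [this, xy_compl u1, fs, mul_add, add_mul, v2, vf.1, hE]
    congr 2
    abel
  have e2 : T.tau (W * y * star W * (σ * sl f n j * σ)) =
      ((T.dl f n j / T.te f (tm n j) : ℝ) : ℂ) * T.tau (W * y * star W * (1 - f (tm n j))) := by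
    rw [← smul_eq_mul (_ : ℂ), ← map_smul, ← mul_smul_comm, ← sc]
    generalize W * y * star W = Y at *
    have k : ∀ z, T.tau (Y * (σ * z * σ)) = T.tau (σ * Y * σ * z) := fun z => by
      rw [← mul_assoc, T.tau_comm]
      simp only [mul_assoc]
    rw [k, k, hA.ce_tau _ (hA.mul (hA.mul sm hY) sm)]
  rw [e1, xy_compl u1, cj, cj, mul_sub, mul_sub, map_sub, map_sub, e2]
  have n1 : ‖T.tau (W * y * star W * E)‖ ≤ b * ‖y‖ := by
    rw [T.tau_comm]
    exact (tau_le_n1 _ _).trans
      (mul_le_mul hb nY (norm_nonneg _) ((n1_nonneg _).trans hb))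
  generalize T.tau (W * y * star W * E) = z at *
  generalize T.tau (W * y * star W * (1 - f (tm n j))) = w at *
  have z2 : ((T.te f (tm n j) : ℝ) : ℂ) ≠ 0 := Complex.ofReal_ne_zero.2 t2.ne'
  have z3 : ((T.te f (tm n (j + 1)) : ℝ) : ℂ) ≠ 0 := Complex.ofReal_ne_zero.2 t3.ne'
  have z4 : ((T.dl f n j : ℝ) : ℂ) = (T.te f (tm n j) : ℝ) - (T.te f (tm n (j + 1)) : ℝ) := by
    rw [t1]; push_cast; ring
  have e3 : (w - ((T.dl f n j / T.te f (tm n j) : ℝ) : ℂ) * w - z) / (T.te f (tm n (j + 1)) : ℝ) -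
      w / (T.te f (tm n j) : ℝ) = -z / (T.te f (tm n (j + 1)) : ℝ) := by
    rw [Complex.ofReal_div, z4]
    field_simp
    ring
  rw [e3, norm_div, norm_neg, Complex.norm_real, Real.norm_eq_abs, abs_of_pos t3,
    div_mul_eq_mul_div, mul_comm]
  exact div_le_div₀ ((norm_nonneg _).trans n1) n1 hc hc'

variable (h : T.Fl f S M) (hU : T.Lm f S M U)
include h hU

omit h in
theorem Fl.xy_te (t : ℝ) : T.te (fun t => star U * f t * U) t = T.te f t := by
  rw [te, te, xy_compl hU.u1, xy_tau hU.u2]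

omit h hU in
theorem Fl.xy_sl (n j : ℕ) : sl (fun t => star U * f t * U) n j = star U * sl f n j * U := by
  rw [sl, sl, mul_sub, sub_mul]

omit h in
theorem Fl.xy_dl (n j : ℕ) : T.dl (fun t => star U * f t * U) n j = T.dl f n j := by
  rw [dl, dl, Fl.xy_sl, xy_tau hU.u2]

theorem Fl.rot_lim (n j : ℕ) : T.Lim (fun k => star (T.UU f S (n + k) (j * 2 ^ k)) * f (tm n j) *
    T.UU f S (n + k) (j * 2 ^ k)) (star U * f (tm n j) * U) := by
  have h0 : tm n j ≤ j := by
    rw [← tm_top n j]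
    exact tm_mono (Nat.le_mul_of_pos_right _ (by positivity))
  have h1 : f (tm n j) * f j = f (tm n j) := (h.pr _).comm_of (h.pr _) (h.mono _ _ h0)
  have h2 : T.Lim (fun k => f j * T.UU f S (n + k) (j * 2 ^ (n + k))) (f j * U) :=
    Tendsto.comp (g := fun m => T.ι (f j * T.UU f S m (j * 2 ^ m))) (hU.lim j) (xy_top n)
  have h3 := h2.mulL (f (tm n j))
  have h4 : ∀ k, f (tm n j) * (f j * T.UU f S (n + k) (j * 2 ^ (n + k))) =
      f (tm n j) * T.UU f S (n + k) (j * 2 ^ k) := fun k => by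
    rw [← mul_assoc, h1]
    exact h.f_uu (Nat.mul_le_mul_left _ (Nat.pow_le_pow_right two_pos (Nat.le_add_left k n)))
      (tm_mul n k j).ge
  simp only [h4] at h3
  rw [← mul_assoc, h1] at h3
  have h5 := h3.star.mul h3 (C := 1) fun k => by
    rw [_root_.norm_star]
    exact (norm_mul_le _ _).trans
      (mul_le_one₀ (h.pr _).norm_le (norm_nonneg _) (h.uu_norm _ _))
  have h6 : ∀ V : R, star (f (tm n j) * V) * (f (tm n j) * V) = star V * f (tm n j) * V :=
    fun V => by rw [star_mul, (h.pr _).st, mul_assoc, (h.pr _).l, mul_assoc]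
  simpa only [h6] using h5

theorem Fl.rot_mem (n j : ℕ) : star U * f (tm n j) * U ∈ S (tm n j) := by
  have hA := h.alg (tm n j)
  refine hA.lim _ (fun k => ?_) (h.rot_lim hU n j)
  have := h.uu_mem (n + k) (j * 2 ^ k)
  rw [tm_mul] at this
  exact hA.mul (hA.mul (hA.star this) (h.mem n j)) this

theorem Fl.rot_wh : T.Wh (fun t => star U * f t * U) S := by
  intro n j j' hj y hy
  rw [Fl.xy_te hU, Fl.xy_te hU]
  obtain ⟨K, hK1, hK⟩ := h.loc j'
  have hc : 0 < T.te f j' := by
    rw [← tm_top 0 j']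
    exact h.te_pos _ _
  have z1 : ((T.te f (tm n j) : ℝ) : ℂ) ≠ 0 := Complex.ofReal_ne_zero.2 (h.te_pos n j).ne'
  have z2 : ((T.te f (tm n j') : ℝ) : ℂ) ≠ 0 := Complex.ofReal_ne_zero.2 (h.te_pos n j').ne'
  have l1 : ∀ i, Tendsto (fun k => T.tau (y * (1 - star (T.UU f S (n + k) (i * 2 ^ k)) *
      f (tm (n + k) (i * 2 ^ k)) * T.UU f S (n + k) (i * 2 ^ k))) /
        (T.te f (tm (n + k) (i * 2 ^ k)) : ℝ)) atTop
      (𝓝 (T.tau (y * (1 - star U * f (tm n i) * U)) / (T.te f (tm n i) : ℝ))) := fun i => by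
    simp only [tm_mul]
    exact (((Lim.const 1).sub (h.rot_lim hU n i)).mulL y).tau.div_const _
  have l2 := ((h.er_sum j').comp (xy_top n)).const_mul
    (‖y‖ / T.te f j' * K)
  rw [mul_zero] at l2
  have l3 := le_of_tendsto_of_tendsto' ((l1 j').sub (l1 j)).norm l2 fun k => by
    rw [Function.comp_apply, Finset.mul_sum]
    refine xy_tele (B := fun i => T.tau (y * (1 - star (T.UU f S (n + k) i) *
      f (tm (n + k) i) * T.UU f S (n + k) i)) / (T.te f (tm (n + k) i) : ℝ))
      (fun i => mul_nonneg (by positivity) (mul_nonneg (Real.sqrt_nonneg _) (xy_er _ _)))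
      (Nat.mul_le_mul_right _ hj)
      (Nat.mul_le_mul_left _ (Nat.pow_le_pow_right two_pos (Nat.le_add_left k n)))
      fun l h1 h2 => ?_
    rw [mul_assoc (_ / _ : ℝ)]
    refine h.xy_step (h.smono _ _ ((tm_mul n k j).ge.trans (tm_mono h1)) hy) hc ?_ (hK _ _ h2).2.2
    exact h.te_anti ((tm_mono h2).trans (tm_top _ _).le)
  have l4 := sub_eq_zero.1 (norm_le_zero_iff.1 l3)
  rwa [div_eq_div_iff z2 z1] at l4

theorem Fl.rot_ce (n j : ℕ) : T.ce (S (tm n j)) (sl (fun t => star U * f t * U) n j) =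
    ((T.dl f n j / T.te f (tm n j) : ℝ) : ℂ) • (1 - star U * f (tm n j) * U) := by
  have hA := h.alg (tm n j)
  refine hA.ce_eq (hA.smul _ (hA.sub hA.one (h.rot_mem hU n j))) fun d hd => ?_
  have h1 := h.rot_wh hU n j (j + 1) (Nat.le_succ j) d hd
  rw [Fl.xy_te hU, Fl.xy_te hU, h.te_succ] at h1
  have z2 : ((T.te f (tm n j) : ℝ) : ℂ) ≠ 0 := Complex.ofReal_ne_zero.2 (h.te_pos n j).ne'
  have h2 : d * sl (fun t => star U * f t * U) n j = d * (1 - star U * f (tm n j) * U) -
      d * (1 - star U * f (tm n (j + 1)) * U) := by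
    rw [sl, ← mul_sub, sub_sub_sub_cancel_left]
  rw [h2, map_sub, mul_smul_comm, map_smul, smul_eq_mul, Complex.ofReal_div]
  push_cast at h1
  field_simp
  linear_combination h1

theorem Fl.rot_fl : T.Fl (fun t => star U * f t * U) S M := by
  have k : ∀ x y : R, star U * x * U * (star U * y * U) = star U * (x * y) * U := fun x y => by
    calc star U * x * U * (star U * y * U) = star U * x * (U * star U) * y * U := by
          simp only [mul_assoc]
      _ = _ := by rw [hU.u2]; simp only [mul_one, mul_assoc]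
  refine ⟨h.one, fun t => ⟨?_, by rw [k, (h.pr t).sq]⟩, fun s t hst => by rw [k, h.mono s t hst],
    by rw [h.zero, mul_zero, zero_mul], h.alg, h.smono, h.rot_mem hU, h.malg, h.sub,
    fun n j => ?_, ?_, fun ε hε => ?_, fun a x hx => ?_, fun a => ⟨1, 1, one_pos, fun n j _ => ?_⟩⟩
  · rw [star_mul, star_mul, star_star, (h.pr t).st, mul_assoc]
  · rw [Fl.xy_dl hU]
    exact h.pos n j
  · simpa only [Fl.xy_te hU] using h.full
  · simpa only [Fl.xy_dl hU] using h.mesh ε hε
  · have h1 := h.ts a _ (h.malg.mul (h.malg.mul hU.mem hx) (h.malg.star hU.mem))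
    have h2 : star U * star (star U) = 1 := by rw [star_star, hU.u1]
    have h3 : star (star U) * star U = 1 := by rw [star_star, hU.u2]
    simpa only [Fl.xy_sl, dev_conj hU.u1 hU.u2, l2_unit' hU.u2, l2_unit h3] using h1
  · have z1 : T.te f (tm n j) / T.dl f n j * (T.dl f n j / T.te f (tm n j)) = 1 := by
      have := (h.te_pos n j).ne'
      have := (h.pos n j).ne'
      field_simp
    rw [rc, h.rot_ce hU, Fl.xy_te hU, Fl.xy_dl hU, smul_smul, ← Complex.ofReal_mul, z1,
      Complex.ofReal_one, one_smul, sub_add_cancel]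
    refine ⟨star_one R, fun t ht => ?_⟩
    rcases subsingleton_or_nontrivial R with _ | _
    · simp [spectrum.of_subsingleton] at ht
    · rw [spectrum.one_eq, Set.mem_singleton_iff, Complex.ofReal_eq_one] at ht
      exact ⟨ht.ge, ht.le⟩

end TW

end Pool.Agent.Lib.MP_263241_an
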