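import Pool.Agent.Lib.MP_263241_an.XJ
import Pool.Agent.Lib.MP_263241_an.XE
import Pool.Agent.Lib.MP_263241_an.XT

/-! The real part of `(a + b) / 2` is freely complemented in the algebra of `(a + b) / 2`. -/

namespace Pool.Agent.Lib.MP_263241_an

variable {R H : Type*} [CStarAlgebra R] [NormedAddCommGroup H] [InnerProductSpace ℂ H]

namespace TW

variable {T : TW R H}

theorem xz_tau (h1 : T.tau 1 = 1) {A C : Set R} (hA : T.Alg 1 A) (hC : T.Alg 1 C)
    (hF : T.Free A C) {a c : R} (ha : a ∈ A) (hc : c ∈ C) : T.tau (c * a) = T.tau c * T.tau a := by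
  obtain ⟨a0, h0, α, rfl⟩ := hA.dec (by rw [h1]; exact one_ne_zero) ha
  obtain ⟨c0, h2, γ, rfl⟩ := hC.dec (by rw [h1]; exact one_ne_zero) hc
  simp [add_mul, mul_add, hF _ _ (.yc h2 (.x1 h0)), h0.2, h2.2, h1, mul_comm α γ]

theorem xz_pow {A : Set R} (hA : T.Alg 1 A) {a : R} (ha : a ∈ A) (n : ℕ) : a ^ n ∈ A := by
  induction n with
  | zero => rw [pow_zero]; exact hA.one
  | succ n ih => rw [pow_succ]; exact hA.mul ih ha

theorem xz_cancel {U V : R} (h : V * U = 1) (x : R) : V * (U * x * V) * U = x := by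
  rw [mul_assoc, mul_assoc (U * x), h, mul_one, ← mul_assoc, h, one_mul]

theorem xz_cancel' {U V : R} (h : V * U = 1) (h' : U * V = 1) (x : R) :
    V * (U * x * U) * V = x := by
  rw [mul_assoc, mul_assoc (U * x), h', mul_one, ← mul_assoc, h, one_mul]

theorem xz_mem {U : R} (h1 : star U * U = 1) (h2 : U * star U = 1) {x y : R}
    (hx : x ∈ T.gen {1, y}) : star U * x * U ∈ T.gen {1, star U * y * U} := by
  have := conj_mem_gen h1 h2 hx
  rwa [Set.image_pair, mul_one, h1] at this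

theorem xz_conj {U : R} (h1 : star U * U = 1) (h2 : U * star U = 1) {x y : R}
    (hF : T.Free (T.gen {1, x}) (T.gen {1, y})) :
    T.Free (T.gen {1, star U * x * U}) (T.gen {1, star U * y * U}) := by
  have k : ∀ {x : R}, ∀ z ∈ T.gen {1, star U * x * U}, ∃ w ∈ T.gen {1, x},
      (w, z) ∈ {z : R × R | z.2 = star U * z.1 * U} := fun {x} z hz => by
    have := xz_mem (U := star U) (by rwa [star_star]) (by rwa [star_star]) hz
    rw [star_star, xz_cancel h2] at this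
    exact ⟨_, this, (xz_cancel h1 z).symm⟩
  exact (gr_conj h1 h2).free hF k k

theorem xz_le {A : Set R} (hA : T.Alg 1 A) {x : R} (hx : x ∈ A) : T.gen {1, x} ⊆ A :=
  hA.gen_le (Set.insert_subset hA.one (Set.singleton_subset_iff.2 hx))

theorem xz_le' {A : Set R} (hA : T.Alg 1 A) {x y : R} (hx : x ∈ A) (hy : y ∈ A) :
    T.gen {1, x, y} ⊆ A :=
  hA.gen_le (Set.insert_subset hA.one (Set.insert_subset hx (Set.singleton_subset_iff.2 hy)))

theorem Reg.exists_complement {φ : F2 → R} (h : T.Reg 1 φ) (h1 : T.tau 1 = 1) :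
    ∃ S ∈ T.gen {1, hh (φ (.of 0)) (φ (.of 1)), kk (φ (.of 0)) (φ (.of 1))},
      T.FS 1 (hh (φ (.of 0)) (φ (.of 1))) S ∧
      kk (φ (.of 0)) (φ (.of 1)) ∈ T.gen {1, hh (φ (.of 0)) (φ (.of 1)), S} := by
  obtain ⟨κ, s, si, r, ρ, ρi, u, c0, hc⟩ := h.exists_co h1
  have sd := h.sd_κ h1 hc
  have su := h.sd_u h1 hc
  have nh := h.hh_noEig h1
  have sh := hh_sa (φ (.of 0)) (φ (.of 1))
  have sk := kk_sa (φ (.of 0)) (φ (.of 1))
  generalize hh (φ (.of 0)) (φ (.of 1)) = x at *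
  generalize kk (φ (.of 0)) (φ (.of 1)) = k at *
  have ssi : star si = si := by
    have := congrArg star hc.s3
    rw [star_mul, hc.ss, star_one] at this
    rw [← mul_one (star si), ← hc.s3, ← mul_assoc, this, one_mul]
  have hκ : star κ = κ := by
    rw [hc.κd, star_smul, star_mul, star_mul, ssi, sk, mul_assoc]
    simp
  have hu := hc.ub.1
  have F0 := sdk_free h1 hκ hu hc.rd sd
  have g2 : ∀ z : R, z ∈ T.gen {1, z} := fun z => sub_gen (.inr rfl)
  have hA : ∀ z : R, T.Alg 1 (T.gen {1, z}) := fun z => gen1_alg _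
  have rA : r ∈ T.gen {1, κ} := hc.rd ▸ (hA κ).ph_mem (sa_one hκ) (hA κ).one (g2 κ) _
  have td : T.TD r u ρ ρi c0 := ⟨h1, hc.c0p, hc.rb, hc.ub, hc.ρm, hc.ρim, hc.ρs, hc.ρρ, hc.ρ1,
    hc.ρ2, F0.mono (xz_le (hA κ) rA) le_rfl, fun n => by
      rw [← su n, xz_tau h1 (hA κ) (hA u) F0 rA (xz_pow (hA u) (g2 u) _),
        sdk_r h1 hκ hu hc.rd sd]
      ring⟩
  obtain ⟨ν, hν⟩ := exists_sm (T := T) (sa_one hc.rb.1)
  obtain ⟨l1, l2, l3⟩ := sdk_lawr h1 hκ hu hc.rd sd hν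
  obtain ⟨f, hf⟩ := hν.exists_sf l1 l2 l3
  obtain ⟨U, hU, u1, u2, F1, hU'⟩ := td.main hf
  have hM := (hA r).gen_union (hA u)
  have mM : ρ * u * ρ ∈ T.gen (T.gen {1, r} ∪ T.gen {1, u}) :=
    hM.mul (hM.mul (sub_gen (.inl hc.ρm)) (sub_gen (.inr (g2 u)))) (sub_gen (.inl hc.ρm))
  have UM := xz_le' hM (sub_gen (.inl (g2 r))) (sub_gen (.inr (g2 u))) hU
  have F2 := xz_conj (U := star U) (by rwa [star_star]) (by rwa [star_star]) F1
  rw [star_star, xz_cancel u2] at F2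
  have F3 := xz_conj u1 u2 (free_up h1 (hA κ) (hA _) (hA u) (hA r) (xz_le (hA κ) rA) F0
    (xz_le hM (hM.mul (hM.mul UM mM) (hM.star UM))) F2)
  rw [xz_cancel u1] at F3
  have em : ρ * u * ρ = (2⁻¹ : ℂ) • (1 - x) := by
    rw [hc.ud, xz_cancel', hc.s2]
    exacts [hc.ρ1, hc.ρ2]
  have ex : x = 1 - (2 : ℂ) • (ρ * u * ρ) := by
    rw [em, smul_smul, mul_inv_cancel₀ two_ne_zero, one_smul, sub_sub_cancel]
  have hN := gen1_alg (T := T) {x, k}
  have xN : T.gen {1, x} ⊆ T.gen {1, x, k} := xz_le hN (sub_gen (.inr (.inl rfl)))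
  have κN : κ ∈ T.gen {1, x, k} := hc.κd ▸ hN.smul _
    (hN.mul (hN.mul (xN hc.sim) (sub_gen (.inr (.inr rfl)))) (xN hc.sim))
  have rN := xz_le hN κN rA
  have ρN := xz_le hN rN hc.ρim
  have uN : u ∈ T.gen {1, x, k} := hc.ud ▸ hN.mul (hN.mul ρN (hN.mul (xN hc.sm) (xN hc.sm))) ρN
  have UN := xz_le' hN rN uN hU
  refine ⟨star U * κ * U, hN.mul (hN.mul (hN.star UN) κN) UN, ⟨sa_one sh, sa_one ?_, nh,
    (gr_conj (T := T) u1 u2).noEig (e := 1) (x := κ) ?_ rfl (sa_one hκ) (sdk_noEig h1 hκ hu hc.rd sd),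
    F3.mono (xz_le (hA _) ?_) le_rfl⟩, ?_⟩
  · rw [star_mul, star_mul, star_star, hκ, mul_assoc]
  · change 1 = star U * 1 * U
    rw [mul_one, u1]
  · rw [ex]
    exact (hA _).sub (hA _).one ((hA _).smul _ (g2 _))
  · have hP := gen1_alg (T := T) {x, star U * κ * U}
    have xP : T.gen {1, x} ⊆ T.gen {1, x, star U * κ * U} := xz_le hP (sub_gen (.inr (.inl rfl)))
    have SP : star U * κ * U ∈ T.gen {1, x, star U * κ * U} := sub_gen (.inr (.inr rfl))
    have UP := xz_le' hP (em ▸ hP.smul _ (hP.sub hP.one (xP (g2 x))))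
      (xz_le hP SP (xz_mem u1 u2 rA)) hU'
    have κP := hP.mul (hP.mul UP SP) (hP.star UP)
    rw [xz_cancel u2] at κP
    have ek : (2 : ℂ) • (s * κ * s) = k := by
      rw [hc.κd, mul_smul_comm, smul_mul_assoc, smul_smul, mul_inv_cancel₀ two_ne_zero, one_smul,
        xz_cancel' hc.s3 hc.s4]
    exact ek ▸ hP.smul 2 (hP.mul (hP.mul (xP hc.sm) κP) (xP hc.sm))

end TW

end Pool.Agent.Lib.MP_263241_an
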